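import Pool.Agent.H78.TP.Base

/-!
[H78 TP NILSYL] The Sylow subgroup of a nilpotent normal subgroup (30-45 min).

PROOF. The group `N` is nilpotent: `lowerCentralSeries N c` maps to `gam N c = ⊥` under
`N.subtype` (induction: `(lowerCentralSeries N i).map N.subtype = gam N i`, with
`lowerCentralSeries_succ`; or use the characterisation through `gam`). So a Sylow `l`-subgroup
`P₀` of `N` is normal in `N` (`Group.isNilpotent_of_finite_tfae`, or `Sylow.normal_of_...`), hence
characteristic in `N` (`Sylow.characteristic_of_normal`), and `S = P₀.map N.subtype` is normal in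
`F` (`ConjAct.normal_of_characteristic_of_normal`). `S.relIndex N = P₀.index` is prime to `l`.
-/

namespace H78TP

open Subgroup
open scoped commutatorElement

private theorem ns_gam {F : Type*} [Group F] (N : Subgroup F) (n : ℕ) :
    N.lowerCentralSeries n = gam N n := by
  induction n with
  | zero => rfl
  | succ n ih => rw [gam_succ, ← ih]; rfl

theorem isNilpotent_of_gam {F : Type*} [Group F] (N : Subgroup F) (c : ℕ) (hc : gam N c = ⊥) :
    Group.IsNilpotent N := by
  rw [Subgroup.isNilpotent_iff_lowerCentralSeries]
  exact ⟨c, by rw [ns_gam, hc]⟩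

theorem gam_of_isNilpotent {F : Type*} [Group F] (N : Subgroup F) (h : Group.IsNilpotent N) :
    ∃ c, gam N c = ⊥ := by
  rw [Subgroup.isNilpotent_iff_lowerCentralSeries] at h
  obtain ⟨c, hc⟩ := h
  exact ⟨c, by rw [← ns_gam, hc]⟩

theorem nilSyl {F : Type*} [Group F] [Finite F] (N : Subgroup F) (hN : N.Normal) (c : ℕ)
    (hc : gam N c = ⊥) (l : ℕ) [Fact l.Prime] :
    ∃ S : Subgroup F, S.Normal ∧ S ≤ N ∧ IsPGroup l S ∧ ¬ l ∣ S.relIndex N := by
  have hnil := isNilpotent_of_gam N c hc
  let P : Sylow l N := default
  have hP : P.Normal := inferInstance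
  have hPc : P.Characteristic := P.characteristic_of_normal hP
  refine ⟨(P : Subgroup N).map N.subtype, ?_, ?_, ?_, ?_⟩
  · exact ConjAct.normal_of_characteristic_of_normal
  · exact Subgroup.map_subtype_le _
  · exact P.isPGroup'.map _
  · have h1 : ((P : Subgroup N).map N.subtype).relIndex N = (P : Subgroup N).index := by
      rw [Subgroup.relIndex, Subgroup.subgroupOf,
        Subgroup.comap_map_eq_self_of_injective N.subtype_injective]
    rw [h1]
    exact P.not_dvd_index

end H78TP
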