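import Pool.Agent.H78.TP.Base

/-!
[H78 TP CFP] Coprime action: fixed points in cosets (30 min).

PROOF. `S` acts on the set `Y = {y * g | y ∈ N}` by conjugation: for `x ∈ S`, `y ∈ N`:
`x (y g) x⁻¹ = (x y x⁻¹) (x g x⁻¹ g⁻¹) g ∈ N g`. `Y` has `Nat.card N` elements, which is not
divisible by `s`, and `S` is an `s`-group, so there is a fixed point
(`IsPGroup.nonempty_fixed_point_of_prime_not_dvd_card`).
-/

namespace H78TP

open Subgroup
open scoped commutatorElement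

theorem cfp {F : Type*} [Group F] [Finite F] (s : ℕ) [Fact s.Prime] (S N : Subgroup F)
    (hS : IsPGroup s S) (hN : ¬ s ∣ Nat.card N) (hn : ∀ x ∈ S, ∀ y ∈ N, x * y * x⁻¹ ∈ N)
    (g : F) (hg : ∀ x ∈ S, x * g * x⁻¹ * g⁻¹ ∈ N) :
    ∃ y ∈ N, ∀ x ∈ S, x * (y * g) = (y * g) * x := by
  classical
  have hact : ∀ x ∈ S, ∀ z : F, z * g⁻¹ ∈ N → x * z * x⁻¹ * g⁻¹ ∈ N := by
    intro x hx z hz
    have h1 := N.mul_mem (hn x hx _ hz) (hg x hx)
    have h2 : x * (z * g⁻¹) * x⁻¹ * (x * g * x⁻¹ * g⁻¹) = x * z * x⁻¹ * g⁻¹ := by group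
    rwa [h2] at h1
  letI act : MulAction S {z : F // z * g⁻¹ ∈ N} :=
    { smul := fun x z => ⟨x * z * (x : F)⁻¹, hact x x.2 z z.2⟩
      one_smul := fun z => Subtype.ext (by
        show ((1 : S) : F) * z * ((1 : S) : F)⁻¹ = z
        rw [Subgroup.coe_one, one_mul, inv_one, mul_one])
      mul_smul := fun x y z => Subtype.ext (by
        show ((x * y : S) : F) * z * ((x * y : S) : F)⁻¹ = x * (y * z * (y : F)⁻¹) * (x : F)⁻¹
        rw [Subgroup.coe_mul]
        group) }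
  have hcard : Nat.card {z : F // z * g⁻¹ ∈ N} = Nat.card N := by
    refine Nat.card_congr ⟨fun z => ⟨z * g⁻¹, z.2⟩, fun y => ⟨y * g, by
      rw [mul_inv_cancel_right]
      exact y.2⟩, fun z => Subtype.ext ?_, fun y => Subtype.ext ?_⟩
    · exact inv_mul_cancel_right _ _
    · exact mul_inv_cancel_right _ _
  obtain ⟨z, hz⟩ := hS.nonempty_fixed_point_of_prime_not_dvd_card
    {z : F // z * g⁻¹ ∈ N} (by rw [hcard]; exact hN)
  refine ⟨z * g⁻¹, z.2, fun x hx => ?_⟩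
  rw [inv_mul_cancel_right]
  have h1 := congrArg Subtype.val (hz ⟨x, hx⟩)
  have h2 : x * z * x⁻¹ = z := h1
  exact mul_inv_eq_iff_eq_mul.1 h2

end H78TP
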