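import Pool.Agent.H78.TP.Base

/-!
[H78 TP WEIA] Weight spaces are independent, finitely many weights (45 min).

PROOF. Two different elements `ν ≠ ν'` of `Wt τ T V` differ at some `t ∈ T` (both vanish outside
`T`). Independence: suppose a finite sum of vectors `v_ν ∈ WS τ T V ν` (different `ν`) is `0` and
not all `v_ν = 0`; choose such a relation with the least number of nonzero terms, take two
`ν, ν'` with nonzero `v_ν, v_ν'` and `t ∈ T` with `ν t ≠ ν' t`; apply `τ t` and subtract `ν t` times
the relation: a shorter nontrivial relation, a contradiction. (Or: `iSupIndep_iff_dfinsupp...`,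
or induction over finite sets as in `Module.End.eigenspaces_iSupIndep`.)
Finite: an independent family of nonzero submodules of a finite dimensional space is finite
(`WellFoundedGT.finite_ne_bot_of_iSupIndep` or `iSupIndep.subtype_ne_bot_le_finrank`).
-/

namespace H78TP

open Subgroup
open scoped commutatorElement

variable {k Γ U : Type*} [Field k] [Group Γ] [AddCommGroup U] [Module k U]

private theorem wei_aux (τ : Representation k Γ U) (T : Subgroup Γ) (V : Submodule k U)
    (s : Finset (Wt τ T V)) : ∀ v : Wt τ T V → U, (∀ ν ∈ s, v ν ∈ WS τ T V ν.1) →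
      ∑ ν ∈ s, v ν = 0 → ∀ ν ∈ s, v ν = 0 := by
  classical
  induction s using Finset.induction_on with
  | empty =>
    intro v _ _ ν hν
    exact absurd hν (Finset.notMem_empty ν)
  | insert a s ha ih =>
    intro v hv hsum
    rw [Finset.sum_insert ha] at hsum
    have hs : ∀ ν ∈ s, v ν = 0 := by
      intro ν hν
      have hne : ν ≠ a := by
        rintro rfl
        exact ha hν
      -- the weights differ at some element of `T`
      have hex : ∃ t ∈ T, ν.1 t ≠ a.1 t := by
        by_contra hcon
        push Not at hcon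
        apply hne
        apply Subtype.ext
        funext t
        by_cases ht : t ∈ T
        · exact hcon t ht
        · rw [ν.2.1 t ht, a.2.1 t ht]
      obtain ⟨t, ht, hta⟩ := hex
      have h1 : τ t (v a + ∑ μ ∈ s, v μ) = 0 := by rw [hsum, map_zero]
      rw [map_add, map_sum, (hv a (Finset.mem_insert_self a s)).2 t ht] at h1
      have h2 : ∑ μ ∈ s, τ t (v μ) = ∑ μ ∈ s, μ.1 t • v μ :=
        Finset.sum_congr rfl fun μ hμ => (hv μ (Finset.mem_insert_of_mem hμ)).2 t ht
      rw [h2] at h1
      have h3 : ∑ μ ∈ s, (μ.1 t - a.1 t) • v μ = 0 := by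
        have h4 : ∑ μ ∈ s, (μ.1 t - a.1 t) • v μ
            = ∑ μ ∈ s, μ.1 t • v μ - a.1 t • ∑ μ ∈ s, v μ := by
          rw [Finset.smul_sum, ← Finset.sum_sub_distrib]
          exact Finset.sum_congr rfl fun μ _ => sub_smul _ _ _
        have h5 : ∑ μ ∈ s, v μ = - v a := (neg_eq_of_add_eq_zero_right hsum).symm
        rw [h4, h5, smul_neg, sub_neg_eq_add, add_comm]
        exact h1
      have h6 := ih (fun μ => (μ.1 t - a.1 t) • v μ)
        (fun μ hμ => Submodule.smul_mem _ _ (hv μ (Finset.mem_insert_of_mem hμ))) h3 ν hν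
      exact (smul_eq_zero.1 h6).resolve_left (sub_ne_zero.2 hta)
    intro ν hν
    rcases Finset.mem_insert.1 hν with rfl | h
    · rw [Finset.sum_eq_zero hs, add_zero] at hsum
      exact hsum
    · exact hs ν h

theorem wei_ind (τ : Representation k Γ U) (T : Subgroup Γ) (V : Submodule k U) :
    iSupIndep (fun ν : Wt τ T V => WS τ T V ν.1) := by
  rw [iSupIndep_iff_finsetSum_eq_zero_imp_eq_zero]
  intro s v hv hsum
  exact wei_aux τ T V s v hv hsum

theorem wei_fin [Module.Finite k U] (τ : Representation k Γ U) (T : Subgroup Γ)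
    (V : Submodule k U) : (Wt τ T V).Finite := by
  have h1 := WellFoundedGT.finite_ne_bot_of_iSupIndep (wei_ind τ T V)
  have h2 : {ν : Wt τ T V | WS τ T V ν.1 ≠ ⊥} = Set.univ := by
    ext ν
    exact ⟨fun _ => trivial, fun _ => ν.2.2⟩
  rw [h2, Set.finite_univ_iff] at h1
  exact Set.toFinite _

end H78TP
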