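import Pool.Agent.H78.TP.WeiA

/-!
[H78 TP WEIB] The weight spaces span (60 min).

PROOF. `T` acts on `V` by commuting operators of finite orders prime to the characteristic. Let
`A t : V →ₗ V` be the restriction of `τ t` for `t : T` (`LinearMap.restrict`). `A t` satisfies
`(A t) ^ m = 1` with `m = orderOf t`, `(m : k) ≠ 0` (`Γ` is finite, so `m ≥ 1`), so `X ^ m - 1` is
separable and `A t` is semisimple; `k` is algebraically closed, so `V` is the sum of the
eigenspaces of `A t` and `maxGenEigenspace = eigenspace`. As the `A t` commute,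
`Module.End.iSup_iInf_maxGenEigenspace_eq_top_of_forall_mapsTo` (or
`iSup_iInf_eq_top_of_commute`, in LinearAlgebra/Eigenspace/Pi.lean) shows that `V` is the sum of
the common eigenspaces `{v ∈ V | ∀ t ∈ T, τ t v = ν t • v}` over all functions `ν : T → k`; extend
`ν` by `0` outside `T` to get functions in `Wt τ T V` (if the space is not `⊥`).
(Another way: induction on the dimension of `V`: if some `A t` is not a scalar, `V` is the direct
sum of its eigenspaces, which are invariant under `T` and smaller; otherwise `V` itself is a weight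
space.)
-/

namespace H78TP

open Subgroup
open scoped commutatorElement

variable {k Γ U : Type*} [Field k] [Group Γ] [AddCommGroup U] [Module k U]

theorem wei_top [IsAlgClosed k] [Finite Γ] [Module.Finite k U] (τ : Representation k Γ U)
    (T : Subgroup Γ) (V : Submodule k U) (hinv : ∀ t ∈ T, ∀ v ∈ V, τ t v ∈ V)
    (hcomm : ∀ s ∈ T, ∀ t ∈ T, ∀ v ∈ V, τ s (τ t v) = τ t (τ s v))
    (hord : ∀ t ∈ T, (orderOf t : k) ≠ 0) :
    (⨆ ν : Wt τ T V, WS τ T V ν.1) = V := by
  classical
  apply le_antisymm
  · exact iSup_le fun ν v hv => hv.1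
  -- the restrictions
  let f : T → Module.End k V := fun t => (τ t.1).restrict (hinv t.1 t.2)
  have hf : ∀ (t : T) (v : V), ((f t v : V) : U) = τ t.1 v := fun t v => rfl
  have hpow : ∀ (t : T) (n : ℕ) (v : V), (((f t ^ n) v : V) : U) = τ (t.1 ^ n) v := by
    intro t n
    induction n with
    | zero =>
      intro v
      simp
    | succ n ih =>
      intro v
      rw [pow_succ', Module.End.mul_apply, hf, ih, ← Module.End.mul_apply, ← map_mul, pow_succ']
  have hss : ∀ t : T, (f t).IsSemisimple := by
    intro t
    have hsep : (Polynomial.X ^ orderOf t.1 - 1 : Polynomial k).Separable :=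
      Polynomial.X_pow_sub_one_separable_iff.2 (hord t.1 t.2)
    refine Module.End.isSemisimple_of_squarefree_aeval_eq_zero hsep.squarefree ?_
    rw [map_sub, map_pow, Polynomial.aeval_X, map_one, sub_eq_zero]
    apply LinearMap.ext
    intro v
    apply Subtype.ext
    rw [hpow, pow_orderOf_eq_one, map_one]
    rfl
  have hcm : Pairwise fun i j => Commute (f i) (f j) := by
    intro s t _
    apply LinearMap.ext
    intro v
    apply Subtype.ext
    rw [Module.End.mul_apply, Module.End.mul_apply, hf, hf, hf, hf]
    exact hcomm s.1 s.2 t.1 t.2 v.1 v.2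
  have htop := Module.End.iSup_iInf_maxGenEigenspace_eq_top_of_iSup_maxGenEigenspace_eq_top_of_commute
    f hcm (fun t => Module.End.iSup_maxGenEigenspace_eq_top (f t))
  have hV : V = Submodule.map V.subtype
      (⨆ χ : T → k, ⨅ t, (f t).maxGenEigenspace (χ t)) := by
    rw [htop, Submodule.map_top, Submodule.range_subtype]
  calc V = Submodule.map V.subtype (⨆ χ : T → k, ⨅ t, (f t).maxGenEigenspace (χ t)) := hV
    _ ≤ _ := by
      rw [Submodule.map_iSup]
      apply iSup_le
      intro χ
      let ν : Γ → k := fun t => if h : t ∈ T then χ ⟨t, h⟩ else 0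
      have hle : Submodule.map V.subtype (⨅ t, (f t).maxGenEigenspace (χ t)) ≤ WS τ T V ν := by
        rintro - ⟨w, hw, rfl⟩
        refine ⟨w.2, fun t ht => ?_⟩
        have h1 := (Submodule.mem_iInf _).1 hw ⟨t, ht⟩
        rw [(Module.End.isFinitelySemisimple_iff_isSemisimple.mpr
          (hss ⟨t, ht⟩)).maxGenEigenspace_eq_eigenspace, Module.End.mem_eigenspace_iff] at h1
        have h2 := congrArg Subtype.val h1
        rw [hf] at h2
        have h3 : ν t = χ ⟨t, ht⟩ := dif_pos ht
        rw [h3]
        exact h2
      by_cases hbot : WS τ T V ν = ⊥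
      · rw [hbot] at hle
        exact hle.trans bot_le
      · exact hle.trans (le_iSup (fun ν : Wt τ T V => WS τ T V ν.1)
          ⟨ν, fun t ht => dif_neg ht, hbot⟩)

end H78TP
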