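import Pool.Agent.H78.TP.NilSyl

/-!
[H78 TP DEC] The decomposition `H = P × R` (30-45 min).

PROOF. `H` is a finite nilpotent group of order `p ^ a * q ^ b`. Let `P₀`, `R₀` be Sylow `p`- and
`q`-subgroups of `H`; they are normal in `H` (`Group.isNilpotent_of_finite_tfae`), of coprime
orders, so they commute elementwise (`Subgroup.commute_of_normal_of_disjoint`), and
`|P₀ ⊔ R₀| = |P₀| |R₀| = p ^ a * q ^ b = |H|`. Take their images under `H.subtype`. `R` is
isomorphic to `R₀`, a Sylow `q`-subgroup, so it is cyclic by `hcyc`.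
-/

namespace H78TP

open Subgroup
open scoped commutatorElement

theorem dec {G : Type*} [Group G] (H : Subgroup G) [Finite H] (hnil : Group.IsNilpotent H)
    (p q : ℕ) [Fact p.Prime] [Fact q.Prime] (hne : p ≠ q)
    (hcard : ∃ a b : ℕ, Nat.card H = p ^ a * q ^ b) (hcyc : ∀ S : Sylow q H, IsCyclic S) :
    ∃ P R : Subgroup G, IsPGroup p P ∧ IsPGroup q R ∧ (∀ x ∈ P, ∀ y ∈ R, x * y = y * x) ∧
      P ⊔ R = H ∧ IsCyclic R := by
  obtain ⟨a, b, hab⟩ := hcard
  let P₀ : Sylow p H := default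
  let R₀ : Sylow q H := default
  have hP : (P₀ : Subgroup H).Normal := inferInstance
  have hR : (R₀ : Subgroup H).Normal := inferInstance
  have hdisj : Disjoint (P₀ : Subgroup H) (R₀ : Subgroup H) :=
    IsPGroup.disjoint_of_ne p q hne _ _ P₀.isPGroup' R₀.isPGroup'
  have hcomm := Subgroup.commute_of_normal_of_disjoint _ _ hP hR hdisj
  have htop : (P₀ : Subgroup H) ⊔ R₀ = ⊤ := by
    rw [← Subgroup.index_eq_one]
    by_contra hn
    obtain ⟨r, hr, hrn⟩ := Nat.exists_prime_and_dvd hn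
    have h1 : r ∣ p ^ a * q ^ b := by
      rw [← hab]
      exact hrn.trans (Subgroup.index_dvd_card _)
    rcases (Nat.Prime.dvd_mul hr).1 h1 with h | h
    · have h2 := (Nat.prime_dvd_prime_iff_eq hr Fact.out).1 (hr.dvd_of_dvd_pow h)
      subst h2
      exact P₀.not_dvd_index (hrn.trans (Subgroup.index_dvd_of_le le_sup_left))
    · have h2 := (Nat.prime_dvd_prime_iff_eq hr Fact.out).1 (hr.dvd_of_dvd_pow h)
      subst h2
      exact R₀.not_dvd_index (hrn.trans (Subgroup.index_dvd_of_le le_sup_right))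
  refine ⟨(P₀ : Subgroup H).map H.subtype, (R₀ : Subgroup H).map H.subtype, ?_, ?_, ?_, ?_, ?_⟩
  · exact P₀.isPGroup'.map _
  · exact R₀.isPGroup'.map _
  · rintro _ ⟨x, hx, rfl⟩ _ ⟨y, hy, rfl⟩
    rw [← map_mul, ← map_mul]
    exact congrArg _ (hcomm x y hx hy)
  · rw [← Subgroup.map_sup, htop, ← MonoidHom.range_eq_map, Subgroup.range_subtype]
  · have h := hcyc R₀
    exact (Subgroup.equivMapOfInjective (R₀ : Subgroup H) H.subtype
      H.subtype_injective).isCyclic.1 h

end H78TP
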