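import Pool.Agent.H78.TP.Irr

/-!
[H78 TP RGA] Blocks from an abelian normal subgroup which does not act freely (75 min).

PROOF. `W ≠ 0` (it contains `w₀ ≠ 0`). Among the subgroups `J ≤ A` such that
`∃ w ≠ 0, ∀ x ∈ J, ρ x w = w` (i.e. `Fx ρ J ≠ ⊥`) choose one of maximal order. `zpowers a₀` is one
of them, so `J ≠ ⊥`. Let `ι = {J' : Subgroup K // ∃ g : K, J' = J.map (MulAut.conj g).toMonoidHom}`
with the action of `K` by conjugation, and `Bl J' = Fx ρ J'`. `J' ≤ A` for all of them (`A` is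
normal), and `|J'| = |J|`. Clearly `ρ g` maps `Bl J'` into `Bl (g • J')` and the action is
transitive; `Bl J' ≠ ⊥`.
Different `J₁, J₂ ∈ ι`: `Fx ρ J₁ ⊓ Fx ρ J₂ = Fx ρ (J₁ ⊔ J₂) = ⊥` by the maximality of `|J|`
(`J₁ ⊔ J₂ ≤ A` is larger). Independence: let `e_J' = (|J'| : k)⁻¹ ∑ x ∈ J', ρ x`, the projection
onto `Fx ρ J'` (`(|J'| : k) ≠ 0`: every prime divisor of `|J'|` is the order of an element of
`A` (Cauchy), so it is nonzero in `k` by `hord`). As `A` is abelian `e_J₁` maps `Fx ρ J₂` into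
`Fx ρ J₁ ⊓ Fx ρ J₂ = ⊥` for `J₁ ≠ J₂`. If `∑ w_J' = 0` with `w_J' ∈ Fx ρ J'`, applying `e_J₁` gives
`w_J₁ = 0`. The sum `⨆ Bl` is invariant under `K` and not `⊥`, so it is `⊤`.
`2 ≤ |ι|`: otherwise `J` is normal in `K`, `Fx ρ J` is invariant and `≠ ⊥`, so it is `⊤`, and
`J = ⊥` as `ρ` is injective: a contradiction.
-/

namespace H78TP

open Subgroup
open scoped commutatorElement

variable {k K W : Type*} [Field k] [Group K] [AddCommGroup W] [Module k W]

theorem rgA_transfer {ι : Type*} [Finite ι] [MulAction K ι] (ρ : Representation k K W)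
    (Bl : ι → Submodule k W) (h1 : iSupIndep Bl) (h2 : (⨆ i, Bl i) = ⊤)
    (h3 : ∀ (g : K) (i : ι) (w : W), w ∈ Bl i → ρ g w ∈ Bl (g • i))
    (h4 : MulAction.IsPretransitive K ι) (h5 : 2 ≤ Nat.card ι) (h6 : ∀ i, Bl i ≠ ⊥) :
    ∃ (n : ℕ) (_ : MulAction K (Fin n)) (Bl : Fin n → Submodule k W), iSupIndep Bl ∧
      (⨆ i, Bl i) = ⊤ ∧ (∀ (g : K) (i : Fin n) (w : W), w ∈ Bl i → ρ g w ∈ Bl (g • i)) ∧
      MulAction.IsPretransitive K (Fin n) ∧ 2 ≤ n ∧ ∀ i, Bl i ≠ ⊥ := by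
  let e : Fin (Nat.card ι) ≃ ι := (Finite.equivFin ι).symm
  letI act : MulAction K (Fin (Nat.card ι)) := e.mulAction K
  have hs : ∀ (g : K) (i : Fin (Nat.card ι)), e (g • i) = g • e i := fun g i =>
    e.apply_symm_apply _
  refine ⟨Nat.card ι, act, fun i => Bl (e i), h1.comp e.injective, ?_, ?_, ⟨?_⟩, h5,
    fun i => h6 _⟩
  · rw [← h2]
    exact e.iSup_comp
  · intro g i w hw
    change ρ g w ∈ Bl (e (g • i))
    rw [hs]
    exact h3 g (e i) w hw
  · intro i j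
    obtain ⟨g, hg⟩ := h4.exists_smul_eq (e i) (e j)
    refine ⟨g, e.injective ?_⟩
    rw [hs, hg]

/-- the conjugate subgroup -/
def rgCj (g : K) (J : Subgroup K) : Subgroup K := J.map (MulAut.conj g).toMonoidHom

theorem mem_rgCj {g x : K} {J : Subgroup K} : x ∈ rgCj g J ↔ g⁻¹ * x * g ∈ J := by
  constructor
  · rintro ⟨y, hy, rfl⟩
    have h1 : g⁻¹ * (MulAut.conj g).toMonoidHom y * g = y := by
      change g⁻¹ * (g * y * g⁻¹) * g = y
      group
    rw [h1]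
    exact hy
  · intro h
    refine ⟨g⁻¹ * x * g, h, ?_⟩
    change g * (g⁻¹ * x * g) * g⁻¹ = x
    group

theorem card_rgCj (g : K) (J : Subgroup K) : Nat.card (rgCj g J) = Nat.card J :=
  (Nat.card_congr (J.equivMapOfInjective _ (MulAut.conj g).injective).toEquiv).symm

/-- the conjugates of `J` -/
def RgI (J : Subgroup K) : Type _ := {J' : Subgroup K // ∃ g, J' = rgCj g J}

instance (J : Subgroup K) : MulAction K (RgI J) where
  smul g J' := ⟨rgCj g J'.1, by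
    obtain ⟨h, hh⟩ := J'.2
    refine ⟨g * h, ?_⟩
    ext x
    rw [hh, mem_rgCj, mem_rgCj, mem_rgCj]
    have h1 : h⁻¹ * (g⁻¹ * x * g) * h = (g * h)⁻¹ * x * (g * h) := by group
    rw [h1]⟩
  one_smul J' := Subtype.ext (by
    change rgCj 1 J'.1 = J'.1
    ext x
    rw [mem_rgCj]
    simp)
  mul_smul g h J' := Subtype.ext (by
    change rgCj (g * h) J'.1 = rgCj g (rgCj h J'.1)
    ext x
    rw [mem_rgCj, mem_rgCj, mem_rgCj]
    have h1 : h⁻¹ * (g⁻¹ * x * g) * h = (g * h)⁻¹ * x * (g * h) := by group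
    rw [h1])

theorem rg_smul {J : Subgroup K} (g : K) (J' : RgI J) : (g • J').1 = rgCj g J'.1 := rfl

theorem rg_fx_ne {ρ : Representation k K W} {J : Subgroup K} {w : W} (hw : w ≠ 0)
    (h : ∀ x ∈ J, ρ x w = w) : Fx ρ J ≠ ⊥ := by
  intro h1
  have h2 : w ∈ Fx ρ J := h
  rw [h1, Submodule.mem_bot] at h2
  exact hw h2

/-- the stabiliser of a vector -/
def rgSt (ρ : Representation k K W) (w : W) : Subgroup K where
  carrier := {x | ρ x w = w}
  one_mem' := by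
    change ρ 1 w = w
    rw [map_one]
    rfl
  mul_mem' := by
    intro x y hx hy
    change ρ (x * y) w = w
    rw [map_mul, Module.End.mul_apply]
    have h1 : ρ y w = w := hy
    rw [h1]
    exact hx
  inv_mem' := by
    intro x hx
    change ρ x⁻¹ w = w
    have h1 : ρ x w = w := hx
    conv_lhs => rw [← h1]
    rw [← Module.End.mul_apply, ← map_mul, inv_mul_cancel, map_one]
    rfl

theorem rg_cast_ne [Finite K] {A J : Subgroup K} (hJ : J ≤ A)
    (hord : ∀ a ∈ A, (orderOf a : k) ≠ 0) : (Nat.card J : k) ≠ 0 := by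
  intro h
  obtain ⟨p, hp⟩ := CharP.exists k
  have h1 := (CharP.cast_eq_zero_iff k p _).1 h
  have h2 : Nat.card J ≠ 0 := Nat.card_pos.ne'
  have h3 : p ≠ 0 := by
    rintro rfl
    exact h2 (Nat.eq_zero_of_zero_dvd h1)
  have h4 : p.Prime := (CharP.char_is_prime_or_zero k p).resolve_right h3
  have : Fact p.Prime := ⟨h4⟩
  obtain ⟨x, hx⟩ := exists_prime_orderOf_dvd_card' p h1
  refine hord x (hJ x.2) ?_
  rw [Subgroup.orderOf_coe, hx]
  exact CharP.cast_eq_zero k p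

/-- the average over a subgroup -/
noncomputable def rgE [Finite K] (ρ : Representation k K W) (J : Subgroup K) : W →ₗ[k] W :=
  letI := Fintype.ofFinite J
  (Nat.card J : k)⁻¹ • ∑ x : J, ρ x

theorem rgE_apply [Finite K] (ρ : Representation k K W) (J : Subgroup K) (w : W) :
    letI := Fintype.ofFinite J
    rgE ρ J w = (Nat.card J : k)⁻¹ • ∑ x : J, ρ x w := by
  unfold rgE
  simp [LinearMap.sum_apply]

theorem rgE_fix [Finite K] (ρ : Representation k K W) (J : Subgroup K)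
    (hc : (Nat.card J : k) ≠ 0) {w : W} (hw : w ∈ Fx ρ J) : rgE ρ J w = w := by
  letI := Fintype.ofFinite J
  rw [rgE_apply]
  have h1 : ∑ x : J, ρ x w = (Nat.card J : k) • w := by
    rw [Finset.sum_congr rfl fun x _ => hw x.1 x.2, Finset.sum_const, Finset.card_univ,
      ← Nat.card_eq_fintype_card, Nat.cast_smul_eq_nsmul]
  rw [h1, smul_smul, inv_mul_cancel₀ hc, one_smul]

theorem rgE_mem [Finite K] (ρ : Representation k K W) (J : Subgroup K) (w : W) :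
    rgE ρ J w ∈ Fx ρ J := by
  letI := Fintype.ofFinite J
  intro y hy
  rw [rgE_apply, map_smul, map_sum]
  congr 1
  have h1 : ∀ x : J, ρ y (ρ x w) = ρ ((⟨y, hy⟩ * x : J) : K) w := by
    intro x
    rw [← Module.End.mul_apply, ← map_mul]
    rfl
  rw [Finset.sum_congr rfl fun x _ => h1 x]
  exact Equiv.sum_comp (Equiv.mulLeft (⟨y, hy⟩ : J)) (fun x : J => ρ (x : K) w)

theorem rgE_comm [Finite K] (ρ : Representation k K W) (J J' : Subgroup K)
    (h : ∀ x ∈ J, ∀ y ∈ J', x * y = y * x) {w : W} (hw : w ∈ Fx ρ J') :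
    rgE ρ J w ∈ Fx ρ J' := by
  letI := Fintype.ofFinite J
  intro y hy
  rw [rgE_apply, map_smul, map_sum]
  congr 1
  refine Finset.sum_congr rfl fun x _ => ?_
  rw [← Module.End.mul_apply, ← map_mul, ← h x.1 x.2 y hy, map_mul, Module.End.mul_apply,
    hw y hy]

theorem rgA [Finite K] [Module.Finite k W] (ρ : Representation k K W)
    (hinj : Function.Injective ρ)
    (hirr : ∀ S : Submodule k W, (∀ g, ∀ w ∈ S, ρ g w ∈ S) → S = ⊥ ∨ S = ⊤)
    (A : Subgroup K) (hA : A.Normal) (hAc : ∀ x ∈ A, ∀ y ∈ A, x * y = y * x)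
    (hord : ∀ a ∈ A, (orderOf a : k) ≠ 0) (a₀ : K) (ha₀ : a₀ ∈ A) (ha₀1 : a₀ ≠ 1) (w₀ : W)
    (hw₀ : w₀ ≠ 0) (h₀ : ρ a₀ w₀ = w₀) :
    ∃ (n : ℕ) (_ : MulAction K (Fin n)) (Bl : Fin n → Submodule k W), iSupIndep Bl ∧
      (⨆ i, Bl i) = ⊤ ∧ (∀ (g : K) (i : Fin n) (w : W), w ∈ Bl i → ρ g w ∈ Bl (g • i)) ∧
      MulAction.IsPretransitive K (Fin n) ∧ 2 ≤ n ∧ ∀ i, Bl i ≠ ⊥ := by
  classical
  have hfin : {J : Subgroup K | J ≤ A ∧ Fx ρ J ≠ ⊥}.Finite := Set.toFinite _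
  have hz : zpowers a₀ ∈ {J : Subgroup K | J ≤ A ∧ Fx ρ J ≠ ⊥} := by
    refine ⟨by rw [zpowers_le]; exact ha₀, rg_fx_ne hw₀ fun x hx => ?_⟩
    have h1 : zpowers a₀ ≤ rgSt ρ w₀ := by
      rw [zpowers_le]
      exact h₀
    exact h1 hx
  obtain ⟨J, ⟨hJA, hJ⟩, hmax⟩ := Set.exists_max_image _ (fun J : Subgroup K => Nat.card J) hfin
    ⟨_, hz⟩
  have hle : ∀ J' : RgI J, J'.1 ≤ A := by
    rintro ⟨J', g, rfl⟩ x hx
    have h1 : x ∈ rgCj g J := hx
    rw [mem_rgCj] at h1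
    have h2 := hA.conj_mem _ (hJA h1) g
    have h3 : g * (g⁻¹ * x * g) * g⁻¹ = x := by group
    rwa [h3] at h2
  have hcard : ∀ J' : RgI J, Nat.card J'.1 = Nat.card J := by
    rintro ⟨J', g, rfl⟩
    exact card_rgCj g J
  have hfinI : Finite (RgI J) := by
    have : Finite {J' : Subgroup K // ∃ g, J' = rgCj g J} := inferInstance
    exact this
  let Bl : RgI J → Submodule k W := fun J' => Fx ρ J'.1
  have hBl : ∀ (g : K) (i : RgI J) (w : W), w ∈ Bl i → ρ g w ∈ Bl (g • i) := by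
    intro g i w hw x hx
    rw [rg_smul, mem_rgCj] at hx
    have h1 := hw _ hx
    rw [← Module.End.mul_apply, ← map_mul]
    have h2 : x * g = g * (g⁻¹ * x * g) := by group
    rw [h2, map_mul, Module.End.mul_apply, h1]
  have htr : MulAction.IsPretransitive K (RgI J) := by
    refine ⟨fun i j => ?_⟩
    obtain ⟨J1, g1, h1⟩ := i
    obtain ⟨J2, g2, h2⟩ := j
    refine ⟨g2 * g1⁻¹, Subtype.ext ?_⟩
    change rgCj (g2 * g1⁻¹) J1 = J2
    ext x
    rw [h1, h2, mem_rgCj, mem_rgCj, mem_rgCj]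
    have h3 : g1⁻¹ * ((g2 * g1⁻¹)⁻¹ * x * (g2 * g1⁻¹)) * g1 = g2⁻¹ * x * g2 := by group
    rw [h3]
  let i₀ : RgI J := ⟨J, 1, by
    ext x
    rw [mem_rgCj]
    simp⟩
  have hne : ∀ i, Bl i ≠ ⊥ := by
    intro i h1
    obtain ⟨w, hw, hw0⟩ := Submodule.exists_mem_ne_zero_of_ne_bot hJ
    obtain ⟨g, hg⟩ := htr.exists_smul_eq i₀ i
    have h2 := hBl g i₀ w hw
    rw [hg, h1, Submodule.mem_bot] at h2
    have h3 : ρ g⁻¹ (ρ g w) = w := by
      rw [← Module.End.mul_apply, ← map_mul, inv_mul_cancel, map_one]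
      rfl
    rw [h2, map_zero] at h3
    exact hw0 h3.symm
  have hdis : ∀ i j : RgI J, i ≠ j → Bl i ⊓ Bl j = ⊥ := by
    intro i j hij
    by_contra h1
    obtain ⟨w, hw, hw0⟩ := Submodule.exists_mem_ne_zero_of_ne_bot h1
    have h2 : i.1 ⊔ j.1 ≤ rgSt ρ w := sup_le (fun x hx => hw.1 x hx) (fun x hx => hw.2 x hx)
    have h3 := hmax (i.1 ⊔ j.1) ⟨sup_le (hle i) (hle j), rg_fx_ne hw0 fun x hx => h2 hx⟩
    have h4 : i.1 = i.1 ⊔ j.1 :=
      Subgroup.eq_of_le_of_card_ge le_sup_left (by rw [hcard]; exact h3)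
    have h5 : j.1 = i.1 ⊔ j.1 :=
      Subgroup.eq_of_le_of_card_ge le_sup_right (by rw [hcard]; exact h3)
    exact hij (Subtype.ext (h4.trans h5.symm))
  have hind : iSupIndep Bl := by
    intro i
    rw [disjoint_iff, eq_bot_iff]
    rintro w ⟨hw1, hw2⟩
    have h1 : (⨆ (j) (_ : j ≠ i), Bl j) ≤ LinearMap.ker (rgE ρ i.1) := by
      refine iSup_le fun j => iSup_le fun hj => ?_
      intro v hv
      rw [LinearMap.mem_ker]
      have h2 := rgE_mem ρ i.1 v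
      have h3 := rgE_comm ρ i.1 j.1 (fun x hx y hy => hAc x (hle i hx) y (hle j hy)) hv
      have h4 : rgE ρ i.1 v ∈ Bl i ⊓ Bl j := ⟨h2, h3⟩
      rw [hdis i j hj.symm, Submodule.mem_bot] at h4
      exact h4
    have h2 := h1 hw2
    rw [LinearMap.mem_ker, rgE_fix ρ i.1 (rg_cast_ne (hle i) hord) hw1] at h2
    rw [Submodule.mem_bot]
    exact h2
  have htop : (⨆ i, Bl i) = ⊤ := by
    have h0 : ∀ g, ∀ w ∈ (⨆ i, Bl i), ρ g w ∈ (⨆ i, Bl i) := by
      intro g w hw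
      have h2 : (⨆ i, Bl i) ≤ (⨆ i, Bl i).comap (ρ g) := by
        refine iSup_le fun i v hv => ?_
        exact (le_iSup Bl (g • i)) (hBl g i v hv)
      exact h2 hw
    rcases hirr (⨆ i, Bl i) h0 with h1 | h1
    · exfalso
      refine hne i₀ (eq_bot_iff.2 ?_)
      rw [← h1]
      exact le_iSup Bl i₀
    · exact h1
  refine rgA_transfer ρ Bl hind htop hBl htr ?_ hne
  by_contra hlt
  have h1 : Nat.card (RgI J) ≤ 1 := by omega
  have h2 : Subsingleton (RgI J) := (Finite.card_le_one_iff_subsingleton).1 h1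
  have h3 : Bl i₀ = ⊤ := by
    rw [eq_top_iff, ← htop]
    refine iSup_le fun i => ?_
    rw [Subsingleton.elim i i₀]
  have h4 : J = ⊥ := by
    rw [eq_bot_iff]
    intro x hx
    rw [mem_bot]
    refine hinj ?_
    rw [map_one]
    ext w
    have h5 : w ∈ Bl i₀ := by
      rw [h3]
      exact Submodule.mem_top
    exact h5 x hx
  have h5 := hmax _ hz
  rw [h4, Subgroup.card_bot, Nat.card_zpowers] at h5
  exact ha₀1 (orderOf_eq_one_iff.1 (le_antisymm h5 (orderOf_pos a₀)))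

end H78TP
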