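import Pool.Agent.H78.TP.Base

/-!
[H78 TP FIT] Fitting's theorem for the nilpotent residual (45 min).

PROOF. `fit2`: for `i : ℕ` let `A_0 = A ⊔ B`, `A_(i+1) = gam A i`, `B_0 = A ⊔ B`, `B_(j+1) = gam B j`,
all normal, decreasing. Claim: `gam (A ⊔ B) n ≤ ⨆ i + j = n + 1, A_i ⊓ B_j`. `n = 0`:
`A ⊔ B ≤ (A_1 ⊓ B_0) ⊔ (A_0 ⊓ B_1)`. Step: `⁅A_i ⊓ B_j, A ⊔ B⁆ ≤ ⁅A_i ⊓ B_j, A⁆ ⊔ ⁅A_i ⊓ B_j, B⁆`
(normal subgroups; `Subgroup.commutator_sup`-type lemma, or elementwise), and
`⁅A_i ⊓ B_j, A⁆ ≤ A_(i+1) ⊓ B_j` (`⁅A_i, A⁆ = A_(i+1)` for `i ≥ 1`, `⁅A ⊔ B, A⁆ ≤ A = A_1`; `B_j` is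
normal), similarly for `B`. For `n = a + b` and `i + j = a + b + 1` either `i ≥ a + 1` and
`A_i ≤ gam A a`, or `j ≥ b + 1` and `B_j ≤ gam B b`.
`nres_sup`: for large `a`, `b` (`exists_gam_eq`). `lns_sup`: induction on `h` with `nres_mono` and
`nres_sup` for `lns A h`, `lns B h` (normal). `lns_iSup`: induction over a finite set.
-/

namespace H78TP

open Subgroup
open scoped commutatorElement

/-- the elements `y` with `⁅x, y⁆ ∈ C` for all `x ∈ H` -/
private def fitY {Γ : Type*} [Group Γ] (C H : Subgroup Γ) (hC : C.Normal) : Subgroup Γ where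
  carrier := {y | ∀ x ∈ H, ⁅x, y⁆ ∈ C}
  mul_mem' := by
    intro y z hy hz x hx
    have h1 : ⁅x, y * z⁆ = ⁅x, y⁆ * (y * ⁅x, z⁆ * y⁻¹) := by
      simp only [commutatorElement_def]; group
    rw [h1]
    exact mul_mem (hy x hx) (hC.conj_mem _ (hz x hx) y)
  one_mem' := by
    intro x _
    rw [commutatorElement_one_right]
    exact one_mem _
  inv_mem' := by
    intro y hy x hx
    have h1 : ⁅x, y⁻¹⁆ = y⁻¹ * (⁅x, y⁆)⁻¹ * y⁻¹⁻¹ := by
      simp only [commutatorElement_def]; group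
    rw [h1]
    exact hC.conj_mem _ (inv_mem (hy x hx)) y⁻¹

/-- the elements `x` with `⁅x, y⁆ ∈ C` for all `y ∈ H` -/
private def fitX {Γ : Type*} [Group Γ] (C H : Subgroup Γ) (hC : C.Normal) : Subgroup Γ where
  carrier := {x | ∀ y ∈ H, ⁅x, y⁆ ∈ C}
  mul_mem' := by
    intro x z hx hz y hy
    have h1 : ⁅x * z, y⁆ = (x * ⁅z, y⁆ * x⁻¹) * ⁅x, y⁆ := by
      simp only [commutatorElement_def]; group
    rw [h1]
    exact mul_mem (hC.conj_mem _ (hz y hy) x) (hx y hy)
  one_mem' := by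
    intro x _
    rw [commutatorElement_one_left]
    exact one_mem _
  inv_mem' := by
    intro x hx y hy
    have h1 : ⁅x⁻¹, y⁆ = x⁻¹ * (⁅x, y⁆)⁻¹ * x⁻¹⁻¹ := by
      simp only [commutatorElement_def]; group
    rw [h1]
    exact hC.conj_mem _ (inv_mem (hx y hy)) x⁻¹

private theorem fitX_normal {Γ : Type*} [Group Γ] (C H : Subgroup Γ) (hC : C.Normal)
    (hH : H.Normal) : (fitX C H hC).Normal := by
  refine ⟨fun x hx g y hy => ?_⟩
  have h1 : ⁅g * x * g⁻¹, y⁆ = g * ⁅x, g⁻¹ * y * g⁻¹⁻¹⁆ * g⁻¹ := by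
    simp only [commutatorElement_def]; group
  rw [h1]
  exact hC.conj_mem _ (hx _ (hH.conj_mem y hy g⁻¹)) g

/-- `A_0 = A ⊔ B`, `A_(i+1) = gam A i` -/
private def fitA {Γ : Type*} [Group Γ] (A B : Subgroup Γ) : ℕ → Subgroup Γ
  | 0 => A ⊔ B
  | i + 1 => gam A i

private theorem fitA_normal {Γ : Type*} [Group Γ] {A B : Subgroup Γ} (hA : A.Normal)
    (hB : B.Normal) (i : ℕ) : (fitA A B i).Normal := by
  cases i with
  | zero =>
    show (A ⊔ B).Normal
    infer_instance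
  | succ i => exact gam_normal hA i

private theorem fitA_comm {Γ : Type*} [Group Γ] {A B : Subgroup Γ} (hA : A.Normal) (i : ℕ)
    {x a : Γ} (hx : x ∈ fitA A B i) (ha : a ∈ A) : ⁅x, a⁆ ∈ fitA A B (i + 1) := by
  cases i with
  | zero =>
    show ⁅x, a⁆ ∈ A
    rw [commutatorElement_def]
    exact mul_mem (hA.conj_mem a ha x) (inv_mem ha)
  | succ i =>
    show ⁅x, a⁆ ∈ ⁅gam A i, A⁆
    exact Subgroup.commutator_mem_commutator hx ha

private theorem fit_norm_comm {Γ : Type*} [Group Γ] {N : Subgroup Γ} (hN : N.Normal)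
    {x a : Γ} (hx : x ∈ N) : ⁅x, a⁆ ∈ N := by
  have h1 : ⁅x, a⁆ = x * (a * x⁻¹ * a⁻¹) := by
    simp only [commutatorElement_def]; group
  rw [h1]
  exact mul_mem hx (hN.conj_mem _ (inv_mem hx) a)

private def fitT {Γ : Type*} [Group Γ] (A B : Subgroup Γ) (n : ℕ) : Set Γ :=
  {x | ∃ i j, i + j = n + 1 ∧ x ∈ fitA A B i ∧ x ∈ fitA B A j}

private theorem fit_key {Γ : Type*} [Group Γ] (A B : Subgroup Γ) (hA : A.Normal)
    (hB : B.Normal) (n : ℕ) : gam (A ⊔ B) n ≤ Subgroup.normalClosure (fitT A B n) := by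
  induction n with
  | zero =>
    show A ⊔ B ≤ _
    apply sup_le
    · intro x hx
      apply Subgroup.subset_normalClosure
      exact ⟨1, 0, rfl, hx, (le_sup_right : A ≤ B ⊔ A) hx⟩
    · intro x hx
      apply Subgroup.subset_normalClosure
      exact ⟨0, 1, rfl, (le_sup_right : B ≤ A ⊔ B) hx, hx⟩
  | succ n ih =>
    have hn : (Subgroup.normalClosure (fitT A B (n + 1))).Normal := inferInstance
    rw [gam_succ, Subgroup.commutator_le]
    intro x hx y hy
    have h1 : Subgroup.normalClosure (fitT A B n) ≤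
        fitX (Subgroup.normalClosure (fitT A B (n + 1))) (A ⊔ B) hn := by
      have hnX := fitX_normal (Subgroup.normalClosure (fitT A B (n + 1))) (A ⊔ B) hn
        inferInstance
      apply Subgroup.normalClosure_le_normal
      rintro x ⟨i, j, hij, hxi, hxj⟩
      have h2 : A ⊔ B ≤ fitY (Subgroup.normalClosure (fitT A B (n + 1)))
          (fitA A B i ⊓ fitA B A j) hn := by
        apply sup_le
        · rintro a ha z hz
          rw [Subgroup.mem_inf] at hz
          apply Subgroup.subset_normalClosure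
          exact ⟨i + 1, j, by omega, fitA_comm hA i hz.1 ha,
            fit_norm_comm (fitA_normal hB hA j) hz.2⟩
        · rintro a ha z hz
          rw [Subgroup.mem_inf] at hz
          apply Subgroup.subset_normalClosure
          exact ⟨i, j + 1, by omega, fit_norm_comm (fitA_normal hA hB i) hz.1,
            fitA_comm hB j hz.2 ha⟩
      intro y hy
      exact h2 hy x (Subgroup.mem_inf.2 ⟨hxi, hxj⟩)
    exact h1 (ih hx) y hy

theorem fit2 {Γ : Type*} [Group Γ] (A B : Subgroup Γ) (hA : A.Normal) (hB : B.Normal)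
    (a b : ℕ) : gam (A ⊔ B) (a + b) ≤ gam A a ⊔ gam B b := by
  refine (fit_key A B hA hB (a + b)).trans ?_
  have h1 := gam_normal hA a
  have h2 := gam_normal hB b
  apply Subgroup.normalClosure_le_normal
  rintro x ⟨i, j, hij, hxi, hxj⟩
  rcases Nat.lt_or_ge a i with h | h
  · obtain ⟨i, rfl⟩ : ∃ i', i = i' + 1 := ⟨i - 1, by omega⟩
    exact (le_sup_left : gam A a ≤ gam A a ⊔ gam B b) (gam_anti A (by omega) hxi)
  · obtain ⟨j, rfl⟩ : ∃ j', j = j' + 1 := ⟨j - 1, by omega⟩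
    exact (le_sup_right : gam B b ≤ gam A a ⊔ gam B b) (gam_anti B (by omega) hxj)

theorem nres_sup {Γ : Type*} [Group Γ] [Finite Γ] (A B : Subgroup Γ) (hA : A.Normal)
    (hB : B.Normal) : nres (A ⊔ B) ≤ nres A ⊔ nres B := by
  obtain ⟨a, ha⟩ := exists_gam_eq A
  obtain ⟨b, hb⟩ := exists_gam_eq B
  rw [← ha a le_rfl, ← hb b le_rfl]
  exact (nres_le_gam _ (a + b)).trans (fit2 A B hA hB a b)

theorem lns_sup {Γ : Type*} [Group Γ] [Finite Γ] (A B : Subgroup Γ) (hA : A.Normal)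
    (hB : B.Normal) (h : ℕ) : lns (A ⊔ B) h ≤ lns A h ⊔ lns B h := by
  induction h with
  | zero => exact le_rfl
  | succ h ih =>
    rw [lns_succ, lns_succ, lns_succ]
    exact (nres_mono ih).trans (nres_sup _ _ (lns_normal hA h) (lns_normal hB h))

theorem lns_iSup {Γ : Type*} [Group Γ] [Finite Γ] {ι : Type*} (I : Finset ι)
    (A : ι → Subgroup Γ) (hA : ∀ i ∈ I, (A i).Normal) (h : ℕ)
    (hh : ∀ i ∈ I, lns (A i) h = ⊥) : lns (⨆ i ∈ I, A i) h = ⊥ := by
  classical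
  have key : (⨆ i ∈ I, A i).Normal ∧ lns (⨆ i ∈ I, A i) h = ⊥ := by
    induction I using Finset.induction_on with
    | empty =>
      simp only [Finset.notMem_empty, iSup_false, iSup_bot]
      exact ⟨inferInstance, lns_bot h⟩
    | insert a I ha ih =>
      obtain ⟨h1, h2⟩ := ih (fun i hi => hA i (Finset.mem_insert_of_mem hi))
        (fun i hi => hh i (Finset.mem_insert_of_mem hi))
      have h3 := hA a (Finset.mem_insert_self a I)
      have h4 := hh a (Finset.mem_insert_self a I)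
      rw [Finset.iSup_insert]
      refine ⟨inferInstance, ?_⟩
      rw [eq_bot_iff]
      refine (lns_sup _ _ h3 h1 h).trans ?_
      rw [h2, h4, sup_bot_eq]
  exact key.2

end H78TP
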