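import Pool.Agent.H78.TP.Base

/-!
[H78 TP DER] The derived length is bounded by the order (20-30 min).

PROOF. `der`: as long as `dS X i ≠ ⊥`, `dS X (i + 1) < dS X i` (otherwise
`dS X n = dS X i ≠ ⊥` for all `n ≥ i`, but `X` is soluble: `derivedSeries X n = ⊥` for some `n`,
and `(derivedSeries X n).map X.subtype = dS X n` by `dS_map`, `dS_top_eq`), so
`Nat.card (dS X i) ≤ N - i` or `dS X i = ⊥` by induction (`2 ≤ ...`). At `i = N` it is `⊥`.
`derK`: `(dS X N).map φ = dS (X.map φ) N = ⊥` by `der` (`X.map φ` is soluble, and has at most
`Nat.card H ≤ N` elements).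
-/

namespace H78TP

open Subgroup
open scoped commutatorElement

theorem der {G : Type*} [Group G] (X : Subgroup G) [Finite X] (hs : Group.IsSolvable X) (N : ℕ)
    (h : Nat.card X ≤ N) : dS X N = ⊥ := by
  obtain ⟨n, hn⟩ := hs.solvable
  have hn' : dS X n = ⊥ := by
    have hX : (⊤ : Subgroup X).map X.subtype = X := by
      rw [← MonoidHom.range_eq_map, Subgroup.range_subtype]
    have h1 := dS_map X.subtype (⊤ : Subgroup X) n
    rw [hX, dS_top_eq, hn, Subgroup.map_bot] at h1
    exact h1.symm
  have hfin : ∀ i, Finite (dS X i) := fun i =>
    Finite.of_injective _ (Subgroup.inclusion_injective (dS_le X i))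
  have key : ∀ i, dS X i = ⊥ ∨ Nat.card (dS X i) + i ≤ N := by
    intro i
    induction i with
    | zero => exact Or.inr h
    | succ i ih =>
      rcases ih with h2 | h2
      · left
        rw [eq_bot_iff, ← h2]
        exact dS_anti_succ X i
      · by_cases h3 : dS X i = ⊥
        · left
          rw [eq_bot_iff, ← h3]
          exact dS_anti_succ X i
        · right
          have h4 : Nat.card (dS X (i + 1)) < Nat.card (dS X i) := by
            by_contra h5
            have := hfin i
            have h6 : dS X (i + 1) = dS X i :=
              Subgroup.eq_of_le_of_card_ge (dS_anti_succ X i) (not_lt.1 h5)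
            have h7 : ∀ m, dS X (i + m) = dS X i := by
              intro m
              induction m with
              | zero => rfl
              | succ m ihm =>
                rw [← add_assoc, dS_succ, ihm, ← dS_succ, h6]
            apply h3
            rcases le_total n i with h8 | h8
            · rw [eq_bot_iff, ← hn']
              exact dS_anti X h8
            · obtain ⟨m, rfl⟩ := Nat.exists_eq_add_of_le h8
              rw [← h7 m, hn']
          omega
  rcases key N with h2 | h2
  · exact h2
  · have := hfin N
    have h3 : 0 < Nat.card (dS X N) := Nat.card_pos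
    omega

theorem derK {G H : Type*} [Group G] [Group H] [Finite H] (φ : G →* H) (X : Subgroup G)
    (hs : Group.IsSolvable X) (N : ℕ) (h : Nat.card H ≤ N) : dS X N ≤ φ.ker := by
  rw [← Subgroup.map_eq_bot_iff, dS_map]
  have hs' : Group.IsSolvable (X.map φ) :=
    Group.isSolvable_of_surjective (φ.subgroupMap_surjective X)
  exact der (X.map φ) hs' N ((Subgroup.card_le_card_group _).trans h)

theorem solv_sub {G : Type*} [Group G] (hs : Group.IsSolvable G) (X : Subgroup G) :
    Group.IsSolvable X :=
  Group.isSolvable_of_isSolvable_injective X.subtype_injective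

theorem solv_map {G H : Type*} [Group G] [Group H] (f : G →* H) (hf : Function.Surjective f)
    (hs : Group.IsSolvable G) : Group.IsSolvable H :=
  Group.isSolvable_of_surjective hf

end H78TP
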