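import Pool.Agent.H78.TP.Rg3
import Pool.Agent.H78.TP.Der

/-!
[H78 TP GT] The same in group language (60-75 min).

PROOF. Let `T' = T ⧸ D.subgroupOf T` (`D` is normal in `T`: `⁅x, d⁆ ∈ D`), a finite commutative
group with `x ^ l = 1`, `W = Additive T'` with its `Module (ZMod l)` structure
(`AddCommGroup.zmodModule`). `X` acts on `T` and `D` by conjugation (`hTX`, `hDX`), so there is a
representation `ρ : Representation (ZMod l) X W`, `ρ g [x] = [g x g⁻¹]`. Let
`S' = {g : X | (g : Γ) ∈ S}`; it generates `X` (`hS`). For `g ∈ S` and `C` as in `hg`: the fixed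
space of `g` in `W` is the image of `C`, so `|W| = |Fx| * C.relIndex T ≤ |Fx| l ^ s1`, i.e.
`finrank W ≤ finrank Fx + s1` (`Module.card_eq_pow_finrank`). By `rg3` every
`g ∈ dS (⊤ : Subgroup X) (zas (4 * s1))` with `¬ l ∣ orderOf g` acts trivially on `W`, i.e.
`⁅g, x⁆ ∈ D` for `x ∈ T`; `dS X (zas (4 * s1))` is the image of it in `Γ` (`dS_map`), `X` is
soluble (`solv_sub`).
-/

namespace H78TP

open Subgroup
open scoped commutatorElement

private theorem gtW (l : ℕ) [Fact l.Prime] {K W : Type*} [Group K] [Finite K] [AddCommGroup W]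
    [Module (ZMod l) W] [Finite W] (hs : Group.IsSolvable K)
    (f : K → (W →+ W)) (f1 : ∀ x, f 1 x = x) (fm : ∀ g h x, f (g * h) x = f g (f h x))
    (S : Set K) (hS : Subgroup.closure S = ⊤) (s1 : ℕ)
    (hg : ∀ g ∈ S, ∃ C : AddSubgroup W, (∀ x, x ∈ C ↔ f g x = x) ∧ C.index ≤ l ^ s1) :
    ∀ g ∈ dS (⊤ : Subgroup K) (zas (4 * s1)), ¬ l ∣ orderOf g → ∀ x, f g x = x := by
  have hfin : Module.Finite (ZMod l) W := Module.Finite.of_finite
  let lin : K → (W →ₗ[ZMod l] W) := fun g => AddMonoidHom.toZModLinearMap l (f g)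
  have hlin : ∀ (g : K) (x : W), lin g x = f g x := fun g x => rfl
  have lin1 : lin 1 = 1 := by
    apply LinearMap.ext
    intro x
    rw [hlin, f1]
    rfl
  have linm : ∀ g h : K, lin (g * h) = lin g * lin h := by
    intro g h
    apply LinearMap.ext
    intro x
    rw [hlin, fm]
    rfl
  let ρ : Representation (ZMod l) K W := MonoidHom.mk ⟨lin, lin1⟩ linm
  have hρ : ∀ (g : K) (x : W), ρ g x = f g x := fun g x => rfl
  have h1 := rg3 l ρ hs S hS s1 (by
    intro g hgS
    obtain ⟨C, hC, hCi⟩ := hg g hgS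
    have hfix : ∀ x : W, x ∈ Fx ρ (Subgroup.zpowers g) ↔ x ∈ C := by
      intro x
      rw [hC, mem_Fx]
      constructor
      · intro h
        have := h g (Subgroup.mem_zpowers g)
        rw [hρ] at this
        exact this
      · intro h y hy
        have h2 : ∀ y ∈ Subgroup.zpowers g, f y x = x := by
          intro y hy
          let St : Subgroup K :=
            { carrier := {y | f y x = x}
              one_mem' := f1 x
              mul_mem' := by
                intro a b ha hb
                simp only [Set.mem_setOf_eq] at ha hb ⊢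
                rw [fm, hb, ha]
              inv_mem' := by
                intro a ha
                simp only [Set.mem_setOf_eq] at ha ⊢
                have h3 : f a⁻¹ (f a x) = x := by
                  rw [← fm, inv_mul_cancel, f1]
                rwa [ha] at h3 }
          have h4 : Subgroup.zpowers g ≤ St := by
            rw [Subgroup.zpowers_le]
            exact h
          exact h4 hy
        rw [hρ, h2 y hy]
    have hcard : Nat.card (Fx ρ (Subgroup.zpowers g)) = Nat.card C := by
      refine Nat.card_congr ⟨fun x => ⟨x.1, (hfix _).1 x.2⟩,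
        fun x => ⟨x.1, (hfix _).2 x.2⟩, fun x => rfl, fun x => rfl⟩
    have hl : 1 < l := (Fact.out : l.Prime).one_lt
    have e1 : l ^ Module.finrank (ZMod l) W = Nat.card W := by
      have := Module.natCard_eq_pow_finrank (K := ZMod l) (V := W)
      rw [Nat.card_zmod] at this
      rw [← this]
    have e2 : l ^ Module.finrank (ZMod l) (Fx ρ (Subgroup.zpowers g)) = Nat.card C := by
      have := Module.natCard_eq_pow_finrank (K := ZMod l) (V := Fx ρ (Subgroup.zpowers g))
      rw [Nat.card_zmod] at this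
      rw [← this, hcard]
    have e3 : Nat.card W ≤ Nat.card C * l ^ s1 := by
      rw [← C.card_mul_index]
      exact Nat.mul_le_mul_left _ hCi
    rw [← e1, ← e2, ← pow_add] at e3
    exact (Nat.pow_le_pow_iff_right hl).1 e3)
  intro g hgd hgl x
  have h2 := h1 g hgd hgl
  have h3 : ρ g x = x := by rw [h2]; rfl
  rw [hρ] at h3
  exact h3

private theorem gtA (l : ℕ) [Fact l.Prime] {K A : Type*} [Group K] [Finite K] [CommGroup A]
    [Finite A] (hA : ∀ x : A, x ^ l = 1) (hs : Group.IsSolvable K)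
    (f : K → (A →* A)) (f1 : ∀ x, f 1 x = x) (fm : ∀ g h x, f (g * h) x = f g (f h x))
    (S : Set K) (hS : Subgroup.closure S = ⊤) (s1 : ℕ)
    (hg : ∀ g ∈ S, ∃ C : Subgroup A, (∀ x, x ∈ C ↔ f g x = x) ∧ C.index ≤ l ^ s1) :
    ∀ g ∈ dS (⊤ : Subgroup K) (zas (4 * s1)), ¬ l ∣ orderOf g → ∀ x, f g x = x := by
  let i1 : AddCommGroup (Additive A) := inferInstance
  let i2 : Module (ZMod l) (Additive A) := AddCommGroup.zmodModule (n := l) (fun x => by
    apply Additive.toMul.injective
    rw [toMul_nsmul, toMul_zero]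
    exact hA _)
  have key := @gtW l _ K (Additive A) _ _ i1 i2 _ hs (fun g => MonoidHom.toAdditive (f g))
    (fun x => f1 x) (fun g h x => fm g h x) S hS s1 (by
      intro g hgS
      obtain ⟨C, hC, hCi⟩ := hg g hgS
      refine ⟨Subgroup.toAddSubgroup C, fun x => hC x, ?_⟩
      exact hCi)
  intro g hgd hgl x
  exact key g hgd hgl x

theorem gt (l : ℕ) [Fact l.Prime] {Γ : Type*} [Group Γ] [Finite Γ] (hs : Group.IsSolvable Γ)
    (X T D : Subgroup Γ) (hDT : D ≤ T) (hTX : ∀ g ∈ X, ∀ x ∈ T, g * x * g⁻¹ ∈ T)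
    (hDX : ∀ g ∈ X, ∀ x ∈ D, g * x * g⁻¹ ∈ D) (hTD : ∀ x ∈ T, x ^ l ∈ D)
    (hTc : ∀ x ∈ T, ∀ y ∈ T, ⁅x, y⁆ ∈ D) (S : Set Γ) (hS : Subgroup.closure S = X) (s1 : ℕ)
    (hg : ∀ g ∈ S, ∃ C : Subgroup Γ, (∀ x, x ∈ C ↔ x ∈ T ∧ ⁅g, x⁆ ∈ D) ∧
      C.relIndex T ≤ l ^ s1) :
    ∀ g ∈ dS X (zas (4 * s1)), ¬ l ∣ orderOf g → ∀ x ∈ T, ⁅g, x⁆ ∈ D := by
  subst hS
  have hDn : (D.subgroupOf T).Normal := by
    refine ⟨fun d hd x => ?_⟩
    rw [Subgroup.mem_subgroupOf] at hd ⊢
    have h1 : ((x * d * x⁻¹ : T) : Γ) = ⁅(x : Γ), (d : Γ)⁆ * (d : Γ) := by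
      simp [commutatorElement_def]
    rw [h1]
    exact mul_mem (hTc _ x.2 _ d.2) hd
  -- conjugation
  have hDn' : ∀ x ∈ T, ∀ d ∈ D, x * d * x⁻¹ ∈ D := by
    intro x hx d hd
    have h1 : x * d * x⁻¹ = ⁅x, d⁆ * d := by simp [commutatorElement_def]
    rw [h1]
    exact mul_mem (hTc x hx d (hDT hd)) hd
  let cj : (Subgroup.closure S) → (T →* T) := fun g =>
    { toFun := fun x => ⟨g * x * (g : Γ)⁻¹, hTX g g.2 x x.2⟩
      map_one' := by
        apply Subtype.ext
        simp
      map_mul' := by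
        intro x y
        apply Subtype.ext
        simp [mul_assoc] }
  have hcj : ∀ (g : Subgroup.closure S) (x : T), ((cj g x : T) : Γ) = g * x * (g : Γ)⁻¹ :=
    fun g x => rfl
  have hcjD : ∀ g : Subgroup.closure S, D.subgroupOf T ≤ (D.subgroupOf T).comap (cj g) := by
    intro g x hx
    rw [Subgroup.mem_comap, Subgroup.mem_subgroupOf, hcj]
    exact hDX g g.2 x hx
  let φ : (Subgroup.closure S) →* Monoid.End (T ⧸ D.subgroupOf T) :=
    { toFun := fun g => QuotientGroup.map (D.subgroupOf T) (D.subgroupOf T) (cj g) (hcjD g)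
      map_one' := by
        refine MonoidHom.ext fun x => ?_
        induction x using QuotientGroup.induction_on with | H x => ?_
        change ((cj 1 x : T) : T ⧸ D.subgroupOf T) = ((x : T) : T ⧸ D.subgroupOf T)
        congr 1
        apply Subtype.ext
        simp [hcj]
      map_mul' := by
        intro g h
        refine MonoidHom.ext fun x => ?_
        induction x using QuotientGroup.induction_on with | H x => ?_
        change ((cj (g * h) x : T) : T ⧸ D.subgroupOf T) =
          ((cj g (cj h x) : T) : T ⧸ D.subgroupOf T)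
        congr 1
        apply Subtype.ext
        simp [hcj, mul_assoc] }
  have hφ : ∀ (g : Subgroup.closure S) (x : T),
      φ g (x : T ⧸ D.subgroupOf T) = ((cj g x : T) : T ⧸ D.subgroupOf T) := fun g x => rfl
  have hfix : ∀ (g : Subgroup.closure S) (x : T),
      φ g (x : T ⧸ D.subgroupOf T) = (x : T ⧸ D.subgroupOf T) ↔ ⁅(g : Γ), (x : Γ)⁆ ∈ D := by
    intro g x
    rw [hφ, eq_comm, QuotientGroup.eq, Subgroup.mem_subgroupOf]
    have h1 : ((x⁻¹ * cj g x : T) : Γ) = (x : Γ)⁻¹ * ⁅(g : Γ), (x : Γ)⁆ * ((x : Γ)⁻¹)⁻¹ := by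
      rw [Subgroup.coe_mul, hcj]
      simp [commutatorElement_def, mul_assoc]
    rw [h1]
    constructor
    · intro h
      have h2 := hDn' x x.2 _ h
      have h3 : (x : Γ) * ((x : Γ)⁻¹ * ⁅(g : Γ), (x : Γ)⁆ * ((x : Γ)⁻¹)⁻¹) * (x : Γ)⁻¹ =
          ⁅(g : Γ), (x : Γ)⁆ := by group
      rwa [h3] at h2
    · intro h
      exact hDn' _ (inv_mem x.2) _ h
  have hcomm : ∀ x y : T ⧸ D.subgroupOf T, x * y = y * x := by
    intro x y
    induction x using QuotientGroup.induction_on with
    | H x =>
      induction y using QuotientGroup.induction_on with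
      | H y =>
        rw [← QuotientGroup.mk_mul, ← QuotientGroup.mk_mul, QuotientGroup.eq,
          Subgroup.mem_subgroupOf]
        have h1 : (((x * y)⁻¹ * (y * x) : T) : Γ) = ⁅(y : Γ)⁻¹, (x : Γ)⁻¹⁆ := by
          simp [commutatorElement_def, mul_assoc]
        rw [h1]
        exact hTc _ (inv_mem y.2) _ (inv_mem x.2)
  have hpow : ∀ x : T ⧸ D.subgroupOf T, x ^ l = 1 := by
    intro x
    induction x using QuotientGroup.induction_on with
    | H x =>
      rw [← QuotientGroup.mk_pow, QuotientGroup.eq_one_iff, Subgroup.mem_subgroupOf]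
      simpa using hTD x x.2
  letI i0 : CommGroup (T ⧸ D.subgroupOf T) :=
    { QuotientGroup.Quotient.group (D.subgroupOf T) with mul_comm := hcomm }
  have key := @gtA l _ (Subgroup.closure S) (T ⧸ D.subgroupOf T) _ _ i0 _ hpow
    (solv_sub hs _) (fun g => φ g) (fun x => by rw [map_one]; rfl)
    (fun g h x => by rw [map_mul]; rfl) (((↑) : Subgroup.closure S → Γ) ⁻¹' S)
    Subgroup.closure_closure_coe_preimage s1 (by
      intro g hgS
      obtain ⟨C, hC, hCi⟩ := hg g hgS
      have hDC : D.subgroupOf T ≤ C.subgroupOf T := by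
        intro d hd
        rw [Subgroup.mem_subgroupOf] at hd ⊢
        rw [hC]
        refine ⟨d.2, ?_⟩
        rw [commutatorElement_def]
        exact mul_mem (hDX g g.2 d hd) (inv_mem hd)
      refine ⟨(C.subgroupOf T).map (QuotientGroup.mk' (D.subgroupOf T)), ?_, ?_⟩
      · intro x
        induction x using QuotientGroup.induction_on with
        | H x =>
          refine Iff.trans ?_ (hfix g x).symm
          constructor
          · rintro ⟨c, hc, hcx⟩
            rw [QuotientGroup.mk'_apply, QuotientGroup.eq] at hcx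
            have h1 : x ∈ C.subgroupOf T := by
              have h2 := mul_mem hc (hDC hcx)
              rwa [mul_inv_cancel_left] at h2
            rw [Subgroup.mem_subgroupOf, hC] at h1
            exact h1.2
          · intro h
            refine ⟨x, ?_, rfl⟩
            change x ∈ C.subgroupOf T
            rw [Subgroup.mem_subgroupOf, hC]
            exact ⟨x.2, h⟩
      · refine le_trans (Nat.le_of_dvd ?_
          (Subgroup.index_map_dvd _ (QuotientGroup.mk'_surjective _))) hCi
        exact Nat.pos_of_ne_zero Subgroup.index_ne_zero_of_finite)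
  intro g hgd hgl x hx
  have h1 := dS_map (Subgroup.closure S).subtype (⊤ : Subgroup (Subgroup.closure S))
    (zas (4 * s1))
  rw [← MonoidHom.range_eq_map, Subgroup.range_subtype] at h1
  rw [← h1] at hgd
  obtain ⟨g', hg', rfl⟩ := hgd
  have h2 := key g' hg' (by
    intro h
    apply hgl
    rw [Subgroup.subtype_apply, Subgroup.orderOf_coe]
    exact h) ((⟨x, hx⟩ : T) : T ⧸ D.subgroupOf T)
  exact (hfix g' ⟨x, hx⟩).1 h2

end H78TP
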