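import Pool.Agent.H78.TP.ChrA

/-!
[H78 TP CHRB] Chernikov groups have bounded elementary abelian sections (30-45 min).

PROOF. Let `D ≤ C` be normal of finite index `j` with `D ≃* Π i : Fin n, Quasicyclic (p i)`; take
this `j` and `m = n`. Let `S ≤ C` be finite and `V ≤ U ≤ S` with `x ^ s ∈ V`, `⁅x, y⁆ ∈ V` for
`x, y ∈ U`. Let `D₁ = D.map C.subtype` (a subgroup of `G`, contained in `C`). Then
`[U : V] ≤ [U : V ⊓ D₁] = [U : U ⊓ D₁] * [U ⊓ D₁ : V ⊓ D₁]`; better:
`[U : V] = [U : (U ⊓ D₁) V] [(U ⊓ D₁) V : V] ≤ j * [U ⊓ D₁ : V ⊓ D₁]`. (In terms of orders: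
`|U| / |V| ≤ ([U : U ⊓ D₁] |U ⊓ D₁|) / |V ⊓ D₁|` as `|V ⊓ D₁| ≤ |V|`.) Here
`[U : U ⊓ D₁] = D₁.relIndex U ≤ [C : D] = j` (`U ≤ C`; cosets of `U ⊓ D₁` in `U` inject in the
cosets of `D` in `C`), and `[U ⊓ D₁ : V ⊓ D₁] ≤ s ^ n` by `chrA` (comap `U ⊓ D₁`, `V ⊓ D₁` to
`D`; `U` is finite as `S` is finite).
-/

namespace H78TP

open Subgroup
open scoped commutatorElement

theorem chrB {G : Type*} [Group G] (C : Subgroup G) (hC : IsChernikov C) :
    ∃ j m : ℕ, ∀ S : Subgroup G, S ≤ C → Finite S → ∀ s : ℕ, s.Prime → RB s (j * s ^ m) S := by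
  obtain ⟨D, hDn, hDf, n, p, -, ⟨e⟩⟩ := hC
  refine ⟨D.index, n, fun S hS hSf s hs U V hVU hUS hpow hcomm => ?_⟩
  have hUC : U ≤ C := hUS.trans hS
  have hfin : Finite (U.subgroupOf C) := by
    have h1 : Function.Injective (fun x : U.subgroupOf C => (⟨x.1.1, hUS x.2⟩ : S)) := by
      intro x y hxy
      apply Subtype.ext
      apply Subtype.ext
      exact congrArg (fun z : S => z.1) hxy
    exact Finite.of_injective _ h1
  have hfin2 : Finite ((U.subgroupOf C).subgroupOf D) := by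
    have h1 : Function.Injective (fun x : (U.subgroupOf C).subgroupOf D =>
        (⟨x.1.1, x.2⟩ : U.subgroupOf C)) := by
      intro x y hxy
      apply Subtype.ext
      apply Subtype.ext
      exact congrArg (fun z : U.subgroupOf C => z.1) hxy
    exact Finite.of_injective _ h1
  have e1 : (V.subgroupOf C).relIndex (U.subgroupOf C) = V.relIndex U :=
    Subgroup.relIndex_subgroupOf hUC
  have hVU' : V.subgroupOf C ≤ U.subgroupOf C := fun x hx => hVU hx
  have e2 : (V.subgroupOf C ⊓ D).relIndex (U.subgroupOf C ⊓ D) *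
      (U.subgroupOf C ⊓ D).relIndex (U.subgroupOf C) =
      (V.subgroupOf C ⊓ D).relIndex (U.subgroupOf C) :=
    Subgroup.relIndex_mul_relIndex _ _ _ (inf_le_inf_right _ hVU') inf_le_left
  have hne : (V.subgroupOf C ⊓ D).relIndex (U.subgroupOf C) ≠ 0 :=
    Subgroup.index_ne_zero_of_finite
  have e3 : (V.subgroupOf C).relIndex (U.subgroupOf C) ≤
      (V.subgroupOf C ⊓ D).relIndex (U.subgroupOf C) :=
    Nat.le_of_dvd (Nat.pos_of_ne_zero hne) (Subgroup.relIndex_dvd_of_le_left _ inf_le_left)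
  have e4 : (U.subgroupOf C ⊓ D).relIndex (U.subgroupOf C) ≤ D.index := by
    rw [Subgroup.inf_relIndex_left]
    exact Nat.le_of_dvd (Nat.pos_of_ne_zero hDf.index_ne_zero)
      (Subgroup.relIndex_dvd_index_of_normal _ _)
  have e5 : (V.subgroupOf C ⊓ D).relIndex (U.subgroupOf C ⊓ D) ≤ s ^ n := by
    have h1 := Subgroup.relIndex_subgroupOf (H := V.subgroupOf C ⊓ D)
      (K := U.subgroupOf C ⊓ D) (L := D) inf_le_right
    rw [Subgroup.inf_subgroupOf_right, Subgroup.inf_subgroupOf_right] at h1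
    rw [← h1]
    exact chrA e _ _ (fun x hx => hVU hx) s hs (fun x hx => hpow _ hx)
  calc V.relIndex U = (V.subgroupOf C).relIndex (U.subgroupOf C) := e1.symm
    _ ≤ (V.subgroupOf C ⊓ D).relIndex (U.subgroupOf C) := e3
    _ = (V.subgroupOf C ⊓ D).relIndex (U.subgroupOf C ⊓ D) *
      (U.subgroupOf C ⊓ D).relIndex (U.subgroupOf C) := e2.symm
    _ ≤ s ^ n * D.index := Nat.mul_le_mul e5 e4
    _ = D.index * s ^ n := mul_comm _ _

end H78TP
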