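import Pool.Agent.H78.TP.Base
import Pool.Agent.H78.TP.NilSyl

/-!
[H78 TP CPT] From finite subgroups to locally finite groups (60 min).

PROOF. For `i : ℕ` let `L i = ⨆ F (finite, H ≤ F), lns F i`. The family of the finite subgroups `F`
with `H ≤ F` is directed (two of them generate a finite subgroup: finite groups are finitely
generated, `hlf`), and `F ≤ F'` implies `lns F i ≤ lns F' i` (`lns_mono`), so
`x ∈ L i ↔ ∃ F, Finite F ∧ H ≤ F ∧ x ∈ lns F i` (`Subgroup.mem_iSup_of_directed`). `L 0 = ⊤`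
(`closure (H ∪ {g})` is finite), `L h = ⊥` (`hh`), `L (i + 1) ≤ L i`. `L i` is normal: if
`x ∈ lns F i`, `g : G`, then `g x g⁻¹ ∈ lns (F.map (conj g)) i` (`lns_subtype`/`lns_map` for the
homomorphism; for an infinite `G` use that `MulAut.conj g` is bijective: prove
`(lns F i).map f = lns (F.map f) i` for a finite subgroup `F` by restricting `f` to `F`) and
`F.map (conj g)` and `H` are contained in a finite `F'`. Take `n = h` and `N i = L (h - i)` for all
`i` (natural subtraction: `N i = L 0 = ⊤` for `i ≥ h`). `N i ≤ N (i + 1)`.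
Factors: let `i < h`, `a = h - (i + 1)`, so `N (i + 1) = L a`, `N i = L (a + 1)`. Let `S̄` be a
finitely generated subgroup of `(L a).map π` (as a group: `S̄ : Subgroup ↥((L a).map π)`),
`π : G →* G ⧸ L (a + 1)`. Choose finitely many `x_1, ..., x_r ∈ L a` whose images generate `S̄`. They
lie in `lns F a` for one finite `F`. Let `S = closure {x_i} ≤ lns F a`. There is `c` with
`gam (lns F a) c = nres (lns F a) = lns F (a + 1)` (`exists_gam_eq'`), so
`gam S c ≤ lns F (a + 1) ≤ L (a + 1)`. So the image of `S` in `G ⧸ L (a + 1)` satisfies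
`gam (S.map π) c = ⊥`, hence it is nilpotent (see `isNilpotent_of_gam` in `NilSyl.lean`; you may
import it), and `S̄` is isomorphic to it.
-/

namespace H78TP

open Subgroup
open scoped commutatorElement

universe u

private theorem cpt_join {G : Type u} [Group G] (hlf : ∀ S : Subgroup G, S.FG → Finite S)
    (F F' : Subgroup G) (hF : Finite F) (hF' : Finite F') : Finite (F ⊔ F' : Subgroup G) := by
  apply hlf
  have h1 : F.FG := (Group.fg_iff_subgroup_fg F).1 Group.fg_of_finite
  have h2 : F'.FG := (Group.fg_iff_subgroup_fg F').1 Group.fg_of_finite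
  obtain ⟨S, hS, hSf⟩ := (Subgroup.fg_iff F).1 h1
  obtain ⟨T, hT, hTf⟩ := (Subgroup.fg_iff F').1 h2
  exact (Subgroup.fg_iff _).2 ⟨S ∪ T, by rw [Subgroup.closure_union, hS, hT], hSf.union hTf⟩

private def cptL {G : Type u} [Group G] (hlf : ∀ S : Subgroup G, S.FG → Finite S)
    (H : Subgroup G) [Finite H] (i : ℕ) : Subgroup G where
  carrier := {x | ∃ F : Subgroup G, Finite F ∧ H ≤ F ∧ x ∈ lns F i}
  one_mem' := ⟨H, inferInstance, le_rfl, one_mem _⟩
  mul_mem' := by
    rintro a b ⟨F, hF, h1, h2⟩ ⟨F', hF', h1', h2'⟩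
    exact ⟨F ⊔ F', cpt_join hlf F F' hF hF', h1.trans le_sup_left,
      mul_mem (lns_mono le_sup_left i h2) (lns_mono le_sup_right i h2')⟩
  inv_mem' := by
    rintro a ⟨F, hF, h1, h2⟩
    exact ⟨F, hF, h1, inv_mem h2⟩

private theorem cpt_mem {G : Type u} [Group G] {hlf : ∀ S : Subgroup G, S.FG → Finite S}
    {H : Subgroup G} [Finite H] {i : ℕ} {x : G} :
    x ∈ cptL hlf H i ↔ ∃ F : Subgroup G, Finite F ∧ H ≤ F ∧ x ∈ lns F i := Iff.rfl

private theorem cpt_map {G G' : Type u} [Group G] [Group G'] (f : G →* G') (F : Subgroup G)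
    [Finite F] (i : ℕ) : (lns F i).map f = lns (F.map f) i := by
  have h1 := lns_subtype F ⊤ i
  rw [← MonoidHom.range_eq_map, Subgroup.range_subtype] at h1
  rw [← h1, Subgroup.map_map, lns_map, ← Subgroup.map_map, ← MonoidHom.range_eq_map,
    Subgroup.range_subtype]

private theorem cpt_normal {G : Type u} [Group G] (hlf : ∀ S : Subgroup G, S.FG → Finite S)
    (H : Subgroup G) [Finite H] (i : ℕ) : (cptL hlf H i).Normal := by
  refine ⟨fun x hx g => ?_⟩
  obtain ⟨F, hF, h1, h2⟩ := cpt_mem.1 hx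
  have h3 : g * x * g⁻¹ ∈ lns (F.map (MulAut.conj g).toMonoidHom) i := by
    rw [← cpt_map]
    exact ⟨x, h2, by simp⟩
  have h4 : Finite (F.map (MulAut.conj g).toMonoidHom) := by
    have : ((F.map (MulAut.conj g).toMonoidHom : Subgroup G) : Set G).Finite := by
      rw [Subgroup.coe_map]
      exact Set.Finite.image _ (Set.toFinite _)
    exact this.to_subtype
  refine cpt_mem.2 ⟨F.map (MulAut.conj g).toMonoidHom ⊔ H, cpt_join hlf _ _ h4 inferInstance,
    le_sup_right, lns_mono le_sup_left i h3⟩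

private theorem cpt_dir {G : Type u} [Group G] (hlf : ∀ S : Subgroup G, S.FG → Finite S)
    (H : Subgroup G) [Finite H] (i : ℕ) (T : Finset G) (hT : ∀ x ∈ T, x ∈ cptL hlf H i) :
    ∃ F : Subgroup G, Finite F ∧ H ≤ F ∧ ∀ x ∈ T, x ∈ lns F i := by
  classical
  induction T using Finset.induction_on with
  | empty => exact ⟨H, inferInstance, le_rfl, fun x hx => absurd hx (Finset.notMem_empty x)⟩
  | insert a T _ ih =>
    obtain ⟨F, hF, h1, h2⟩ := ih fun x hx => hT x (Finset.mem_insert_of_mem hx)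
    obtain ⟨F', hF', h1', h2'⟩ := cpt_mem.1 (hT a (Finset.mem_insert_self a T))
    refine ⟨F ⊔ F', cpt_join hlf F F' hF hF', h1.trans le_sup_left, fun x hx => ?_⟩
    rcases Finset.mem_insert.1 hx with rfl | hx
    · exact lns_mono le_sup_right i h2'
    · exact lns_mono le_sup_left i (h2 x hx)

private theorem cpt_fac {G : Type u} [Group G] (hlf : ∀ S : Subgroup G, S.FG → Finite S)
    (H : Subgroup G) [Finite H] (a : ℕ) (M M' : Subgroup G) [M.Normal]
    (hM : M = cptL hlf H (a + 1)) (hM' : M' = cptL hlf H a) :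
    LocallyNilpotent (M'.map (QuotientGroup.mk' M)) := by
  classical
  intro S hS
  obtain ⟨t, ht, htf⟩ := (Subgroup.fg_iff S).1 hS
  have hch : ∀ y : (M'.map (QuotientGroup.mk' M)), ∃ x : G, x ∈ M' ∧
      QuotientGroup.mk' M x = (y : G ⧸ M) := by
    rintro ⟨y, hy⟩
    obtain ⟨x, hx, hxy⟩ := Subgroup.mem_map.1 hy
    exact ⟨x, hx, hxy⟩
  choose c hc1 hc2 using hch
  obtain ⟨F, hF, h1, h2⟩ := cpt_dir hlf H a (htf.toFinset.image c) (by
    intro x hx
    obtain ⟨y, _, rfl⟩ := Finset.mem_image.1 hx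
    rw [← hM']
    exact hc1 y)
  have h3 : Subgroup.closure (c '' t) ≤ lns F a := by
    rw [Subgroup.closure_le]
    rintro x ⟨y, hy, rfl⟩
    exact h2 _ (Finset.mem_image_of_mem c (htf.mem_toFinset.2 hy))
  have hfin : Finite (lns F a) := by
    have : ((lns F a : Subgroup G) : Set G).Finite :=
      Set.Finite.subset (Set.toFinite (F : Set G)) (lns_le F a)
    exact this.to_subtype
  obtain ⟨n, hn⟩ := exists_gam_eq' (lns F a)
  have h4 : gam (Subgroup.closure (c '' t)) n ≤ M := by
    refine (gam_mono h3 n).trans ?_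
    rw [hn n le_rfl, ← lns_succ, hM]
    intro x hx
    exact cpt_mem.2 ⟨F, hF, h1, hx⟩
  have h5 : gam ((Subgroup.closure (c '' t)).map (QuotientGroup.mk' M)) n = ⊥ := by
    rw [← gam_map, Subgroup.map_eq_bot_iff, QuotientGroup.ker_mk']
    exact h4
  have h6 : S.map (M'.map (QuotientGroup.mk' M)).subtype =
      (Subgroup.closure (c '' t)).map (QuotientGroup.mk' M) := by
    rw [← ht, MonoidHom.map_closure, MonoidHom.map_closure, Set.image_image]
    congr 1
    ext z
    constructor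
    · rintro ⟨y, hy, rfl⟩
      exact ⟨y, hy, hc2 y⟩
    · rintro ⟨y, hy, rfl⟩
      exact ⟨y, hy, (hc2 y).symm⟩
  have h7 : gam S n = ⊥ := by
    rw [← Subgroup.map_eq_bot_iff_of_injective _
      (M'.map (QuotientGroup.mk' M)).subtype_injective, gam_map, h6, h5]
  exact isNilpotent_of_gam S n h7

theorem cpt {G : Type u} [Group G] (hlf : ∀ S : Subgroup G, S.FG → Finite S) (H : Subgroup G)
    [Finite H] (h : ℕ) (hh : ∀ F : Subgroup G, Finite F → H ≤ F → lns F h = ⊥) :
    HasSeries G := by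
  refine ⟨h, fun i => cptL hlf H (h - i), fun i => cpt_normal hlf H (h - i), ?_, ?_, ?_, ?_⟩
  · rw [eq_bot_iff]
    intro x hx
    obtain ⟨F, hF, h1, h2⟩ := cpt_mem.1 hx
    rw [Nat.sub_zero, hh F hF h1] at h2
    exact h2
  · rw [eq_top_iff]
    intro x _
    have h1 : Finite (Subgroup.closure ({x} : Set G)) :=
      hlf _ ((Subgroup.fg_iff _).2 ⟨{x}, rfl, Set.finite_singleton x⟩)
    refine cpt_mem.2 ⟨Subgroup.closure {x} ⊔ H, cpt_join hlf _ _ h1 inferInstance,
      le_sup_right, ?_⟩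
    rw [Nat.sub_self, lns_zero]
    exact Subgroup.mem_sup_left (Subgroup.subset_closure rfl)
  · intro i x hx
    obtain ⟨F, hF, h1, h2⟩ := cpt_mem.1 hx
    exact cpt_mem.2 ⟨F, hF, h1, lns_anti F (by omega) h2⟩
  · intro i hi
    have := cpt_normal hlf H (h - i)
    refine cpt_fac hlf H (h - (i + 1)) _ _ ?_ rfl
    have e : h - i = h - (i + 1) + 1 := by omega
    show cptL hlf H (h - i) = cptL hlf H (h - (i + 1) + 1)
    rw [← e]

end H78TP
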