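import Pool.Agent.H78.TP.Base

/-!
[H78 TP QA] Extension of the field (45-60 min).

PROOF. `U = k ⊗[ZMod p] V` with `τ g = (ρ g).baseChange k`. Finite dimensional over `k`. If
`τ g = 1` then `(ρ g - 1).baseChange k = 0`, so `ρ g = 1` (faithful flatness, or: `V` embeds by
`v ↦ 1 ⊗ v`, which is injective as `ZMod p` is a field:
`Module.Flat`/`FaithfullyFlat.tensorProduct_mk_injective`), so `τ` is injective. For a linear map
`f : V → V` the rank of `f.baseChange k` is the rank of `f` (the range of `f.baseChange k` is the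
image of `k ⊗ range f`; `LinearMap.rank_baseChange` or matrices and `Matrix.rank_map`), so by rank
nullity `finrank_k (ker (f.baseChange k)) = finrank (ker f)` for `f = ρ r - 1`. The kernel of
`τ r - 1` is `Fx τ (zpowers r)`. Finally `ker (ρ r - 1) = {v // ρ r v = v}` has
`p ^ (finrank) ≥ finrank` elements (`Module.card_eq_pow_finrank`).
-/

namespace H78TP

open Subgroup
open scoped commutatorElement TensorProduct

universe u

theorem qa (p : ℕ) [Fact p.Prime] {Γ : Type*} [Group Γ] (V : Type u) [AddCommGroup V]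
    [Module (ZMod p) V] [Finite V] (ρ : Representation (ZMod p) Γ V) (k : Type) [Field k]
    [Algebra (ZMod p) k] :
    ∃ (U : Type u) (_ : AddCommGroup U) (_ : Module k U) (_ : Module.Finite k U)
      (τ : Representation k Γ U), (∀ g, τ g = 1 ↔ ρ g = 1) ∧
      Module.finrank k U = Module.finrank (ZMod p) V ∧
      ∀ r : Γ, Module.finrank k (Fx τ (Subgroup.zpowers r)) ≤ Nat.card {v : V // ρ r v = v} := by
  classical
  haveI : NeZero p := ⟨(Fact.out : p.Prime).ne_zero⟩
  let T : (V →ₗ[ZMod p] V) →ₗ[ZMod p] (k ⊗[ZMod p] V →ₗ[k] k ⊗[ZMod p] V) :=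
    TensorProduct.AlgebraTensorModule.lTensor k k
  have hT1 : ∀ f : V →ₗ[ZMod p] V, ∀ v : V, T f ((1 : k) ⊗ₜ[ZMod p] v) =
      (1 : k) ⊗ₜ[ZMod p] (f v) := fun f v => rfl
  have hTo : T 1 = 1 := TensorProduct.AlgebraTensorModule.lTensor_id
  have hTm : ∀ f g : V →ₗ[ZMod p] V, T (f * g) = T f * T g := by
    intro f g
    exact TensorProduct.AlgebraTensorModule.lTensor_comp f g
  have hinj : Function.Injective (fun v : V => (1 : k) ⊗ₜ[ZMod p] v) :=
    Module.Flat.tensorProduct_mk_injective (R := ZMod p) V k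
  let τ : Representation k Γ (k ⊗[ZMod p] V) :=
    { toFun := fun g => T (ρ g)
      map_one' := by rw [map_one]; exact hTo
      map_mul' := by intro g h; rw [map_mul]; exact hTm _ _ }
  have hτ : ∀ g, τ g = T (ρ g) := fun g => rfl
  haveI : Module.Finite (ZMod p) V := inferInstance
  refine ⟨k ⊗[ZMod p] V, inferInstance, inferInstance, inferInstance, τ, ?_, ?_, ?_⟩
  · intro g
    constructor
    · intro h
      rw [hτ] at h
      refine LinearMap.ext fun v => ?_
      apply hinj
      show (1 : k) ⊗ₜ[ZMod p] (ρ g v) = (1 : k) ⊗ₜ[ZMod p] v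
      rw [← hT1, h]
      rfl
    · intro h
      rw [hτ, h, hTo]
  · exact Module.finrank_baseChange
  · intro r
    have h1 : Fx τ (Subgroup.zpowers r) ≤ LinearMap.ker (T (ρ r - 1)) := by
      intro u hu
      rw [LinearMap.mem_ker, map_sub, hTo, LinearMap.sub_apply, sub_eq_zero]
      exact hu r (Subgroup.mem_zpowers r)
    have h2 : LinearMap.ker (T (ρ r - 1)) = LinearMap.range
        (TensorProduct.AlgebraTensorModule.lTensor k k (LinearMap.ker (ρ r - 1)).subtype) :=
      Module.Flat.ker_lTensor_eq k k (ρ r - 1)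
    have h3 : Module.finrank k (Fx τ (Subgroup.zpowers r)) ≤
        Module.finrank (ZMod p) (LinearMap.ker (ρ r - 1)) := by
      refine (Submodule.finrank_mono h1).trans ?_
      rw [h2]
      refine (LinearMap.finrank_range_le _).trans ?_
      exact (Module.finrank_baseChange (R := k) (S := ZMod p)
        (M' := LinearMap.ker (ρ r - 1))).le
    refine h3.trans ?_
    have h4 : Nat.card {v : V // ρ r v = v} = Nat.card (LinearMap.ker (ρ r - 1)) := by
      refine Nat.card_congr (Equiv.subtypeEquivRight fun v => ?_)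
      rw [LinearMap.mem_ker, LinearMap.sub_apply, sub_eq_zero]
      rfl
    rw [h4, Module.natCard_eq_pow_finrank (K := ZMod p), Nat.card_zmod]
    exact (Nat.lt_pow_self (Fact.out : p.Prime).one_lt).le

end H78TP
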