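import Pool.Agent.H78.TP.QnC
import Pool.Agent.H78.TP.Qa

/-!
[H78 TP THMQ] Theorem Q (30 min).

PROOF. Let `k = AlgebraicClosure (ZMod p)` and `U`, `τ` from `qa`; `τ` is injective as `ρ` is
(`τ g = 1 ↔ ρ g = 1`). `R = zpowers r₀` is cyclic; `Fx τ R` has dimension at most
`Nat.card {v // ρ r₀ v = v} = Nat.card {v // ∀ x ∈ R, ρ x v = v} ≤ n0` (`ρ r₀ v = v` implies
`ρ x v = v` for all `x ∈ zpowers r₀`). Apply `qnC`.
-/

namespace H78TP

open Subgroup
open scoped commutatorElement

private theorem thmQ_fix (p : ℕ) {Γ V : Type*} [Group Γ] [AddCommGroup V]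
    [Module (ZMod p) V] (ρ : Representation (ZMod p) Γ V) (r : Γ) (v : V) :
    ρ r v = v ↔ ∀ x ∈ Subgroup.zpowers r, ρ x v = v := by
  constructor
  · intro h
    let S : Subgroup Γ :=
      { carrier := {x | ρ x v = v}
        mul_mem' := by
          intro a b ha hb
          have ha' : ρ a v = v := ha
          have hb' : ρ b v = v := hb
          show ρ (a * b) v = v
          rw [map_mul, Module.End.mul_apply, hb', ha']
        one_mem' := by
          show ρ 1 v = v
          rw [map_one]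
          rfl
        inv_mem' := by
          intro a ha
          have ha' : ρ a v = v := ha
          show ρ a⁻¹ v = v
          have h1 : ρ a⁻¹ (ρ a v) = v := by
            rw [← Module.End.mul_apply, ← map_mul, inv_mul_cancel, map_one]
            rfl
          rwa [ha'] at h1 }
    have h2 : Subgroup.zpowers r ≤ S := by
      rw [Subgroup.zpowers_le]
      exact h
    exact fun x hx => h2 hx
  · intro h
    exact h r (Subgroup.mem_zpowers r)

theorem thmQ (p q : ℕ) [Fact p.Prime] [Fact q.Prime] (hqp : q ≠ p) {Γ V : Type*} [Group Γ]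
    [Finite Γ] (hs : Group.IsSolvable Γ)
    (hO : ∀ N : Subgroup Γ, N.Normal → IsPGroup p N → N = ⊥) [AddCommGroup V]
    [Module (ZMod p) V] [Finite V] (ρ : Representation (ZMod p) Γ V)
    (hinj : Function.Injective ρ) (R : Subgroup Γ) (hRc : IsCyclic R) (hRq : IsPGroup q R)
    (z : Γ) (hzR : z ∈ R) (hz : orderOf z = q) (n n0 : ℕ) (hn : Nat.card R ≤ n)
    (hn0 : Nat.card {v : V // ∀ x ∈ R, ρ x v = v} ≤ n0) :
    lns (Subgroup.normalClosure {z}) (hQ n n0) = ⊥ := by
  obtain ⟨r0, rfl⟩ := (Subgroup.isCyclic_iff_exists_zpowers_eq_top R).1 hRc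
  obtain ⟨U, i1, i2, i3, τ, h1, h2, h3⟩ := qa p V ρ (AlgebraicClosure (ZMod p))
  have hτ : Function.Injective τ := by
    intro g h hgh
    have h4 : τ (g * h⁻¹) = 1 := by
      rw [map_mul, hgh, ← map_mul, mul_inv_cancel, map_one]
    have h5 : ρ (g * h⁻¹) = ρ 1 := by
      rw [(h1 _).1 h4, map_one]
    exact mul_inv_eq_one.1 (hinj h5)
  refine qnC p τ hτ hs hO (Subgroup.zpowers r0) q hqp hRc hRq z hzR hz n n0 hn ?_
  refine (h3 r0).trans (le_trans (le_of_eq ?_) hn0)
  exact Nat.card_congr (Equiv.subtypeEquivRight fun v => thmQ_fix p ρ r0 v)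

end H78TP
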