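import Pool.Agent.H78.TP.Ly1
import Pool.Agent.H78.TP.ThmQ

/-!
[H78 TP ZCL] The element `z` lies in a normal subgroup of bounded height (30 min).

PROOF. `ly1` gives `N`, `V`, `ρ`. Let `π = QuotientGroup.mk' N`. If `π z = 1` take `M = N`
(`lns_of_le`). Otherwise `π z` has order `q` (prime), `R.map π` is a cyclic `q`-group of order
`≤ n`, `π z ∈ R.map π`, and the fixed points of `R.map π` in `V` are those of `R`. `F ⧸ N` is soluble.
`thmQ` (with `n0 = rkM ...`) gives `lns (normalClosure {π z}) (hQ n n0) = ⊥`. Let `M` be the preimage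
of `normalClosure {π z}` in `F`; `M.map π` is `normalClosure {π z}`, so `lns_of_map` gives the
bound, and `z ∈ M`.
-/

namespace H78TP

open Subgroup
open scoped commutatorElement

universe u

theorem zcl (p q n m j t : ℕ) [Fact p.Prime] [Fact q.Prime] (hne : p ≠ q) {F : Type u}
    [Group F] [Finite F] (P R : Subgroup F) (H : Hyp p q n m j F P R) (hT : OpT p t F) (z : F)
    (hzR : z ∈ R) (hz : orderOf z = q) :
    ∃ M : Subgroup F, M.Normal ∧ z ∈ M ∧
      lns M (hQ n (rkM p (inH p q n m t j * p ^ m) n) + (t + 1)) = ⊥ := by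
  obtain ⟨N, hN, V, iV1, iV2, iV3, ρ, hinj, hlN, hO, hfix⟩ := ly1 p q n m j t hne P R H hT
  have hsF : Group.IsSolvable F := H.sol
  by_cases hz1 : (z : F ⧸ N) = 1
  · refine ⟨N, hN, (QuotientGroup.eq_one_iff z).1 hz1, ?_⟩
    exact lns_of_le (Nat.le_add_left _ _) hlN
  · have hq : q.Prime := Fact.out
    have hzo : orderOf (z : F ⧸ N) = q := by
      refine orderOf_eq_prime ?_ hz1
      rw [← QuotientGroup.mk_pow, ← hz, pow_orderOf_eq_one, QuotientGroup.mk_one]
    have hs : Group.IsSolvable (F ⧸ N) := inferInstance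
    have hcyc : IsCyclic R := H.cyc
    have hRc : IsCyclic (R.map (QuotientGroup.mk' N)) :=
      isCyclic_of_surjective ((QuotientGroup.mk' N).subgroupMap R)
        ((QuotientGroup.mk' N).subgroupMap_surjective R)
    have hRq : IsPGroup q (R.map (QuotientGroup.mk' N)) := H.pr.hR.map _
    have hzR' : (z : F ⧸ N) ∈ R.map (QuotientGroup.mk' N) := ⟨z, hzR, rfl⟩
    have hn : Nat.card (R.map (QuotientGroup.mk' N)) ≤ n :=
      (Nat.card_le_card_of_surjective _
        ((QuotientGroup.mk' N).subgroupMap_surjective R)).trans H.pr.cR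
    have hcard : Nat.card {v : V // ∀ x ∈ R.map (QuotientGroup.mk' N), ρ x v = v} ≤
        rkM p (inH p q n m t j * p ^ m) n := by
      refine le_trans (le_of_eq ?_) hfix
      refine Nat.card_congr (Equiv.subtypeEquivRight fun v => ?_)
      constructor
      · intro h x hx
        exact h _ ⟨x, hx, rfl⟩
      · rintro h _ ⟨x, hx, rfl⟩
        exact h x hx
    have hQ1 := thmQ p q hne.symm hs hO ρ hinj (R.map (QuotientGroup.mk' N)) hRc hRq
      (z : F ⧸ N) hzR' hzo n (rkM p (inH p q n m t j * p ^ m) n) hn hcard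
    refine ⟨(Subgroup.normalClosure {(z : F ⧸ N)}).comap (QuotientGroup.mk' N), inferInstance,
      ?_, ?_⟩
    · rw [Subgroup.mem_comap]
      exact Subgroup.subset_normalClosure (Set.mem_singleton _)
    · refine lns_of_map (QuotientGroup.mk' N) ?_ ?_
      · rw [Subgroup.map_comap_eq_self_of_surjective (QuotientGroup.mk'_surjective N)]
        exact hQ1
      · rw [QuotientGroup.ker_mk']
        exact hlN

end H78TP
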