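import Pool.Agent.H78.TP.Bas
import Pool.Agent.H78.TP.Zcl

/-!
[H78 TP IND] The induction on the order of `R` (45-60 min).

PROOF. Induction on `r`. `r = 0`: `Nat.card R ≥ 1`, nothing to prove (`h = 0`). Step `r + 1`: let `j`
be given, `t` from `hT j`, `b = rkM p (inH p q n m t j * p ^ m) n`, `h1 = hQ n b + (t + 1)`,
`j₂ = inH p q n m h1 j`, `h'` from the induction hypothesis for `j₂`, and
`h = (b ! + (t + 1)) + (h' + h1)`. Let `F`, `P`, `R` be given. If `R = ⊥` use `bas` and `lns_of_le`.
Otherwise `R` contains an element `z` of order `q` (`q`-group `≠ ⊥`, Cauchy: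
`exists_prime_orderOf_dvd_card'`; or `IsPGroup`), `zcl` gives `M` with `lns M h1 = ⊥`. Let
`π = QuotientGroup.mk' M`. `Hyp p q n m j₂ (F ⧸ M) (P.map π) (R.map π)`: `solv_map`, `pr_map`, the
image of a cyclic group is cyclic, `inq` (kernel `M`, height `h1`). `h𝒞`. `Nat.card (R.map π) ≤ r`:
`R → R.map π` is surjective and not injective (`z ↦ 1`), so `Nat.card (R.map π) < Nat.card R`. So
`lns (⊤ : Subgroup (F ⧸ M)) h' = ⊥` and `lns_of_map` gives `lns ⊤ (h' + h1) = ⊥`.
-/

namespace H78TP

open Subgroup
open scoped commutatorElement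

universe u

theorem ind (p q n m : ℕ) [Fact p.Prime] [Fact q.Prime] (hne : p ≠ q)
    (C : ∀ (F : Type u) [Group F], Prop)
    (hC : ∀ (F F' : Type u) [Group F] [Group F'] (f : F →* F'), Function.Surjective f →
      C F → C F')
    (hT : ∀ j, ∃ t, ∀ (F : Type u) [Group F] [Finite F] (P R : Subgroup F),
      Hyp p q n m j F P R → C F → OpT p t F) :
    ∀ r j : ℕ, ∃ h, ∀ (F : Type u) [Group F] [Finite F] (P R : Subgroup F),
      Hyp p q n m j F P R → C F → Nat.card R ≤ r → lns (⊤ : Subgroup F) h = ⊥ := by
  intro r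
  induction r with
  | zero =>
    intro j
    refine ⟨0, fun F _ _ P R _ _ h => ?_⟩
    have := Nat.card_pos (α := R)
    omega
  | succ r ih =>
    intro j
    obtain ⟨t, ht⟩ := hT j
    obtain ⟨h1, hh1⟩ : ∃ h1, h1 = hQ n (rkM p (inH p q n m t j * p ^ m) n) + (t + 1) := ⟨_, rfl⟩
    obtain ⟨h', hh'⟩ := ih (inH p q n m h1 j)
    refine ⟨((rkM p (inH p q n m t j * p ^ m) n).factorial + (t + 1)) + (h' + h1), ?_⟩
    intro F _ _ P R H hCF hcard
    by_cases hR : R = ⊥
    · exact lns_of_le (Nat.le_add_right _ _) (bas p q n m j t hne P R H (ht F P R H hCF) hR)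
    · have hcR : Nat.card R ≠ 1 := fun h => hR (Subgroup.eq_bot_of_card_eq R h)
      obtain ⟨k, hk⟩ := IsPGroup.iff_card.1 H.pr.hR
      have hk0 : k ≠ 0 := by
        rintro rfl
        exact hcR hk
      have hdvd : q ∣ Nat.card R := by
        rw [hk]
        exact dvd_pow_self q hk0
      obtain ⟨z, hz⟩ := exists_prime_orderOf_dvd_card' q hdvd
      have hz' : orderOf (z : F) = q := by
        rw [Subgroup.orderOf_coe]
        exact hz
      obtain ⟨M, hM, hzM, hMh⟩ := zcl p q n m j t hne P R H (ht F P R H hCF) z z.2 hz'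
      rw [← hh1] at hMh
      have hsurj := QuotientGroup.mk'_surjective M
      have hker : (QuotientGroup.mk' M).ker = M := QuotientGroup.ker_mk' M
      have hcyc : IsCyclic (R.map (QuotientGroup.mk' M)) := by
        haveI := H.cyc
        exact isCyclic_of_surjective ((QuotientGroup.mk' M).subgroupMap R)
          ((QuotientGroup.mk' M).subgroupMap_surjective R)
      have hH : Hyp p q n m (inH p q n m h1 j) (F ⧸ M) (P.map (QuotientGroup.mk' M))
          (R.map (QuotientGroup.mk' M)) :=
        ⟨solv_map _ hsurj H.sol, pr_map _ H.pr, hcyc,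
          inq (QuotientGroup.mk' M) hsurj p q n m h1 j hne P R H.pr (by rw [hker]; exact hMh) H.kj⟩
      have hC' := hC F (F ⧸ M) (QuotientGroup.mk' M) hsurj hCF
      have hlt : Nat.card (R.map (QuotientGroup.mk' M)) < Nat.card R := by
        refine lt_of_le_of_ne (Nat.card_le_card_of_surjective
          ((QuotientGroup.mk' M).subgroupMap R)
          ((QuotientGroup.mk' M).subgroupMap_surjective R)) ?_
        intro heq
        have hbij : Function.Injective ((QuotientGroup.mk' M).subgroupMap R) := by
          have hb := (Nat.bijective_iff_surjective_and_card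
            ((QuotientGroup.mk' M).subgroupMap R)).2
            ⟨(QuotientGroup.mk' M).subgroupMap_surjective R, heq.symm⟩
          exact hb.1
        have h2 : (QuotientGroup.mk' M).subgroupMap R z = (QuotientGroup.mk' M).subgroupMap R 1 := by
          apply Subtype.ext
          show QuotientGroup.mk' M (z : F) = QuotientGroup.mk' M ((1 : R) : F)
          rw [Subgroup.coe_one, map_one]
          exact (QuotientGroup.eq_one_iff (z : F)).2 hzM
        have h3 := hbij h2
        rw [h3, orderOf_one] at hz
        exact (Fact.out : q.Prime).one_lt.ne hz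
      have h4 := hh' (F ⧸ M) (P.map (QuotientGroup.mk' M)) (R.map (QuotientGroup.mk' M)) hH hC'
        (by omega)
      have h5 : lns (⊤ : Subgroup F) (h' + h1) = ⊥ := by
        refine lns_of_map (QuotientGroup.mk' M) ?_ (by rw [hker]; exact hMh)
        rw [Subgroup.map_top_of_surjective _ hsurj]
        exact h4
      exact lns_of_le (Nat.le_add_left _ _) h5

end H78TP
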