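import Pool.Agent.H78.TP.Lf
import Pool.Agent.H78.TP.ChrB
import Pool.Agent.H78.TP.Ind
import Pool.Agent.H78.TP.Cpt
import Pool.Agent.H78.TP.Dec

/-!
[H78 TP FING] The general form of the final theorem (60 min).

PROOF. By `lf` finitely generated subgroups of `G` are finite. `dec` gives `P`, `R`. `chrB` for
`C = centralizer H` gives `j₀`, `m`. Let `n = Nat.card H`, and let `h` be from `ind` (with
`hT := hT n m`) for `r = n`, `j = j₀`. Apply `cpt` with this `h`: let `F ≤ G` be a finite subgroup,
`H ≤ F`. Let `P' = P.subgroupOf F`, `R' = R.subgroupOf F` (`P, R ≤ H ≤ F`).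
`Hyp p q n m j₀ F P' R'`: `F` is soluble (`hs`, finite groups are finitely generated); `P'` is
isomorphic to `P` (a `p`-group, order `≤ n`), the same for `R'` (cyclic); they commute. `KJ`: let
`s` be prime, `V ≤ U ≤ CC P' R'`; the image `C₁` of `CC P' R'` in `G` is a finite subgroup of
`centralizer H` (`H = P ⊔ R`: an element which commutes with `P` and `R` commutes with `H`), so
`RB s (j₀ * s ^ m) C₁`; apply it to the images of `U` and `V` (`relIndex` of the images is the
same: `Subgroup.relIndex_map_map_of_injective` or similar). So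
`lns (⊤ : Subgroup F) h = ⊥`, and `lns F h = ⊥` by `lns_subtype` (`(⊤ : Subgroup F).map F.subtype =
F`).
-/

namespace H78TP

open Subgroup
open scoped commutatorElement

universe u

/-- the bounds on the ranks of the centraliser -/
theorem fing_kj {G : Type u} [Group G] (P R H F : Subgroup G) [Finite F] (hPR : P ⊔ R = H)
    (hPF : P ≤ F) (hRF : R ≤ F) (j m : ℕ)
    (hch : ∀ S : Subgroup G, S ≤ centralizer (H : Set G) → Finite S → ∀ s : ℕ, s.Prime →
      RB s (j * s ^ m) S) : KJ m j (P.subgroupOf F) (R.subgroupOf F) := by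
  intro s hs U V hVU hU h1 h2
  have hC : (CC (P.subgroupOf F) (R.subgroupOf F)).map F.subtype ≤ centralizer (H : Set G) := by
    rintro _ ⟨c, hc, rfl⟩
    have h3 : P ⊔ R ≤ centralizer ({(c : G)} : Set G) := by
      refine sup_le (fun x hx => ?_) (fun x hx => ?_)
      · rw [mem_centralizer_singleton_iff]
        have h4 := mem_centralizer_iff.1 hc.1 ⟨x, hPF hx⟩ hx
        exact congrArg Subtype.val h4
      · rw [mem_centralizer_singleton_iff]
        have h4 := mem_centralizer_iff.1 hc.2 ⟨x, hRF hx⟩ hx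
        exact congrArg Subtype.val h4
    rw [hPR] at h3
    rw [mem_centralizer_iff]
    intro x hx
    exact mem_centralizer_singleton_iff.1 (h3 hx)
  have hf : Finite ((CC (P.subgroupOf F) (R.subgroupOf F)).map F.subtype) := by
    have h3 : (((CC (P.subgroupOf F) (R.subgroupOf F)).map F.subtype : Subgroup G) : Set G).Finite :=
      (Set.toFinite ((CC (P.subgroupOf F) (R.subgroupOf F) : Subgroup F) : Set F)).image _
    exact h3
  have h3 := hch _ hC hf s hs (U.map F.subtype) (V.map F.subtype) (map_mono hVU) (map_mono hU)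
    (by
      rintro _ ⟨x, hx, rfl⟩
      exact ⟨x ^ s, h1 x hx, map_pow _ _ _⟩)
    (by
      rintro _ ⟨x, hx, rfl⟩ _ ⟨y, hy, rfl⟩
      exact ⟨⁅x, y⁆, h2 x hx y hy, map_commutatorElement _ _ _⟩)
  rwa [Subgroup.relIndex_map_map_of_injective _ _ F.subtype_injective] at h3

theorem finG (p q : ℕ) [Fact p.Prime] [Fact q.Prime] (hne : p ≠ q)
    (C : ∀ (F : Type u) [Group F], Prop)
    (hC : ∀ (F F' : Type u) [Group F] [Group F'] (f : F →* F'), Function.Surjective f →
      C F → C F')
    (hT : ∀ n m j, ∃ t, ∀ (F : Type u) [Group F] [Finite F] (P R : Subgroup F),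
      Hyp p q n m j F P R → C F → OpT p t F)
    {G : Type u} [Group G] (ht : ∀ g : G, IsOfFinOrder g) (hs : LocallySoluble G)
    (hG : ∀ F : Subgroup G, Finite F → C F)
    (H : Subgroup G) [Finite H] (hnil : Group.IsNilpotent H)
    (hcard : ∃ a b : ℕ, Nat.card H = p ^ a * q ^ b) (hcyc : ∀ S : Sylow q H, IsCyclic S)
    (hch : IsChernikov (centralizer (H : Set G))) : HasSeries G := by
  have hlf : ∀ S : Subgroup G, S.FG → Finite S := lf ht hs
  obtain ⟨P, R, hP, hR, hcom, hPR, hRc⟩ := dec H hnil p q hne hcard hcyc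
  obtain ⟨j, m, hch'⟩ := chrB (centralizer (H : Set G)) hch
  obtain ⟨h, hh⟩ := ind p q (Nat.card H) m hne C hC (hT (Nat.card H) m) (Nat.card H) j
  refine cpt hlf H h fun F hF hHF => ?_
  have hPH : P ≤ H := by
    rw [← hPR]
    exact le_sup_left
  have hRH : R ≤ H := by
    rw [← hPR]
    exact le_sup_right
  have hPF := hPH.trans hHF
  have hRF := hRH.trans hHF
  let eP : P.subgroupOf F ≃* P := Subgroup.subgroupOfEquivOfLe hPF
  let eR : R.subgroupOf F ≃* R := Subgroup.subgroupOfEquivOfLe hRF
  have cP : Nat.card (P.subgroupOf F) ≤ Nat.card H := by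
    rw [Nat.card_congr eP.toEquiv]
    exact Subgroup.card_le_of_le hPH
  have cR : Nat.card (R.subgroupOf F) ≤ Nat.card H := by
    rw [Nat.card_congr eR.toEquiv]
    exact Subgroup.card_le_of_le hRH
  have hyp : Hyp p q (Nat.card H) m j F (P.subgroupOf F) (R.subgroupOf F) := by
    refine ⟨hs F ?_, ⟨?_, ?_, ?_, cP, cR⟩, ?_, fing_kj P R H F hPR hPF hRF j m hch'⟩
    · rw [← Group.fg_iff_subgroup_fg]
      infer_instance
    · exact hP.of_equiv eP.symm
    · exact hR.of_equiv eR.symm
    · intro x hx y hy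
      exact Subtype.ext (hcom x hx y hy)
    · exact isCyclic_of_injective eR.toMonoidHom eR.injective
  have h1 := hh F (P.subgroupOf F) (R.subgroupOf F) hyp (hG F hF) cR
  have h2 := lns_subtype F ⊤ h
  rw [h1, Subgroup.map_bot, ← MonoidHom.range_eq_map, Subgroup.range_subtype] at h2
  exact h2.symm

end H78TP
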