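import Pool.Agent.H78.TP.Rk1

/-!
[H78 TP RK2] The rank of an `s`-group with an operator group which is an `s`-group (45 min).

PROOF. Prove by induction on `e`: if `Nat.card T = s ^ e` then `RB s (rk s c e) S` (for all `c`,
`S`, `T`). `e = 0`: `T = ⊥`, `centralizer ⊥ = ⊤`, `rk s c 0 = c`. `e + 1`: `T` has a subgroup `T₁`
of order `s ^ e` (`Sylow.exists_subgroup_card_pow_prime` or similar), it is maximal in the
`s`-group `T`, hence normal in `T` with `t ^ s ∈ T₁` for `t ∈ T`. Choose `r ∈ T`, `r ∉ T₁`; then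
`T = T₁ ⊔ zpowers r` (`T₁` is maximal). Let `S₁ = S ⊓ centralizer T₁`; `r` normalises `S₁`, `r ^ s`
centralises `S₁`, `r` is an `s`-element, and `S₁ ⊓ centralizer {r} = S ⊓ centralizer T` (`≤`
suffices, with `rb_mono`). By `rk1` `RB s (f1 s c) S₁`, and by induction (for `T₁` and the constant
`f1 s c`) `RB s (rk s (f1 s c) e) S`, and `rk s c (e + 1) = rk s (f1 s c) e` (by `rfl`).
For the theorem: `Nat.card T = s ^ e ≤ n` (`IsPGroup.iff_card`), so `e < s ^ e ≤ n`, and
`rk s c e ≤ rkM s c n` (a summand: `Finset.single_le_sum`). `rb_le`.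
-/

namespace H78TP

open Subgroup
open scoped commutatorElement

theorem rk2_ind {F : Type*} [Group F] [Finite F] (s : ℕ) [Fact s.Prime] : ∀ (e c : ℕ)
    (S T : Subgroup F), IsPGroup s S → Nat.card T = s ^ e →
    (∀ t ∈ T, ∀ x ∈ S, t * x * t⁻¹ ∈ S) → RB s c (S ⊓ centralizer (T : Set F)) →
    RB s (rk s c e) S := by
  intro e
  induction e with
  | zero =>
    intro c S T hS hT hnorm h
    rw [pow_zero, Subgroup.card_eq_one] at hT
    rw [hT] at h
    refine rb_mono ?_ h
    refine le_inf le_rfl fun x _ => ?_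
    rw [mem_centralizer_iff]
    intro t ht
    rw [SetLike.mem_coe, mem_bot] at ht
    rw [ht, one_mul, mul_one]
  | succ e ih =>
    intro c S T hS hT hnorm h
    have hs : s.Prime := Fact.out
    obtain ⟨K, hK⟩ := Sylow.exists_subgroup_card_pow_prime (G := T) s (n := e)
      (by rw [hT]; exact pow_dvd_pow _ (Nat.le_succ e))
    have hKi : K.index = s := by
      have h1 := K.card_mul_index
      rw [hK, hT, pow_succ] at h1
      exact Nat.eq_of_mul_eq_mul_left (pow_pos hs.pos e) h1
    have hKn : K.Normal := by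
      apply Subgroup.normal_of_index_eq_minFac_card
      rw [hKi, hT, hs.pow_minFac (Nat.succ_ne_zero e)]
    have hKt : K ≠ ⊤ := by
      intro hh
      rw [hh, Subgroup.index_top] at hKi
      exact hs.one_lt.ne hKi
    obtain ⟨r, -, hr⟩ := SetLike.exists_of_lt (lt_top_iff_ne_top.2 hKt)
    have hsup : K ⊔ zpowers r = ⊤ := by
      have h1 := Subgroup.relIndex_mul_index (le_sup_left : K ≤ K ⊔ zpowers r)
      rw [hKi] at h1
      rcases (Nat.dvd_prime hs).1 (Dvd.intro _ h1) with h2 | h2
      · exfalso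
        rw [Subgroup.relIndex_eq_one] at h2
        exact hr (h2 ((le_sup_right : zpowers r ≤ K ⊔ zpowers r) (mem_zpowers r)))
      · rw [h2] at h1
        have h3 : (K ⊔ zpowers r).index = 1 :=
          Nat.eq_of_mul_eq_mul_left hs.pos (by rw [h1, mul_one])
        exact Subgroup.index_eq_one.1 h3
    have hrs : r ^ s ∈ K := by
      have := K.pow_index_mem r
      rwa [hKi] at this
    set T1 : Subgroup F := K.map T.subtype with hT1
    have hT1T : T1 ≤ T := by
      rw [hT1]; exact Subgroup.map_subtype_le K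
    have hmem : ∀ k : T, k ∈ K → (k : F) ∈ T1 := fun k hk => ⟨k, hk, rfl⟩
    have hcT1 : Nat.card T1 = s ^ e := by
      rw [hT1, Subgroup.card_map_of_injective (Subgroup.subtype_injective T), hK]
    refine ih (f1 s c) S T1 hS hcT1 (fun t ht x hx => hnorm t (hT1T ht) x hx) ?_
    refine rk1 s c (S ⊓ centralizer (T1 : Set F)) (hS.to_le inf_le_left) (r : F) ?_ ?_ ?_ ?_
    · refine ⟨e + 1, ?_⟩
      have h1 : r ^ Nat.card T = 1 := pow_card_eq_one'
      rw [hT] at h1
      have h2 := congrArg Subtype.val h1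
      simpa using h2
    · intro x hx
      refine ⟨hnorm r r.2 x hx.1, ?_⟩
      refine mem_centralizer_iff.2 ?_
      rintro t ⟨k, hk, rfl⟩
      have h1 := hKn.conj_mem k hk r⁻¹
      have h2 := mem_centralizer_iff.1 hx.2 _ (hmem _ h1)
      simp only [Subgroup.coe_mul, InvMemClass.coe_inv, inv_inv] at h2
      simp only [Subgroup.coe_subtype]
      calc (k : F) * (r * x * (r : F)⁻¹) = r * ((r : F)⁻¹ * k * r * x) * (r : F)⁻¹ := by group
        _ = r * (x * ((r : F)⁻¹ * k * r)) * (r : F)⁻¹ := by rw [h2]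
        _ = r * x * (r : F)⁻¹ * k := by group
    · intro x hx
      have h1 := mem_centralizer_iff.1 hx.2 _ (hmem _ hrs)
      simpa using h1
    · refine rb_mono ?_ h
      intro x hx
      obtain ⟨⟨hx1, hx2⟩, hx3⟩ := hx
      refine ⟨hx1, ?_⟩
      have h1 : (K ⊔ zpowers r : Subgroup T) ≤ (centralizer ({x} : Set F)).comap T.subtype := by
        refine sup_le ?_ ?_
        · intro k hk
          rw [mem_comap, mem_centralizer_iff]
          rintro y rfl
          exact (mem_centralizer_iff.1 hx2 _ (hmem k hk)).symm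
        · rw [zpowers_le, mem_comap, mem_centralizer_iff]
          rintro y rfl
          exact (mem_centralizer_iff.1 hx3 _ rfl).symm
      rw [hsup] at h1
      refine mem_centralizer_iff.2 ?_
      intro t ht
      have h2 := h1 (mem_top ⟨t, ht⟩)
      rw [mem_comap, mem_centralizer_iff] at h2
      exact (h2 x rfl).symm

theorem rk2 {F : Type*} [Group F] [Finite F] (s c n : ℕ) [Fact s.Prime] (S T : Subgroup F)
    (hS : IsPGroup s S) (hT : IsPGroup s T) (hn : Nat.card T ≤ n)
    (hnorm : ∀ t ∈ T, ∀ x ∈ S, t * x * t⁻¹ ∈ S)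
    (h : RB s c (S ⊓ centralizer (T : Set F))) : RB s (rkM s c n) S := by
  have hs : s.Prime := Fact.out
  obtain ⟨e, he⟩ := IsPGroup.iff_card.1 hT
  have hen : e < n + 1 := by
    have h1 : e < s ^ e := Nat.lt_pow_self hs.one_lt
    rw [he] at hn
    omega
  refine rb_le ?_ (rk2_ind s e c S T hS he hnorm h)
  exact Finset.single_le_sum (f := fun e => rk s c e) (fun i _ => Nat.zero_le _)
    (Finset.mem_range.2 hen)

end H78TP
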