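import Pool.Agent.H78.TP.Base

/-!
[H78 TP RBA] Rank bounds: images and subgroups of bounded index (30 min).

PROOF. `rb_map`: let `V ≤ U ≤ C.map f`, `U' = C ⊓ U.comap f`, `V' = C ⊓ V.comap f`. Then
`V' ≤ U' ≤ C`, `x ^ s ∈ V'`, `⁅x, y⁆ ∈ V'` for `x, y ∈ U'`. As `U ≤ C.map f`, `U'.map f = U`, and
the map `U' → U / V` (cosets) is surjective with fibres the cosets of `V'`, so
`V.relIndex U = V'.relIndex U' ≤ c` (for example `Subgroup.relIndex_comap`, or
`V.relIndex (U'.map f) = (V.comap f).relIndex U'` and `(V.comap f).relIndex U' =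
(V.comap f ⊓ U').relIndex U'`).
`rb_index`: let `V ≤ U ≤ C`, `U₁ = U ⊓ C'`, `V₁ = V ⊓ C'`. Then `V₁.relIndex U₁ ≤ c` by `h`.
`U₁.relIndex U ≤ C'.relIndex C ≤ k` and `|U| = [U : U₁] [U₁ : V₁] |V₁| ≤ k c |V|`, so
`[U : V] ≤ k c` (`|U| = [U : V] |V|`, everything is finite).
-/

namespace H78TP

open Subgroup
open scoped commutatorElement

private theorem rb_ne {F : Type*} [Group F] [Finite F] (H K : Subgroup F) :
    H.relIndex K ≠ 0 := Subgroup.index_ne_zero_of_finite

theorem rb_map {F F' : Type*} [Group F] [Finite F] [Group F'] (f : F →* F') (s c : ℕ)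
    (C : Subgroup F) (h : RB s c C) : RB s c (C.map f) := by
  intro U V hVU hUC hpow hcom
  have h1 : (C ⊓ V.comap f).relIndex (C ⊓ U.comap f) ≤ c := by
    apply h (C ⊓ U.comap f) (C ⊓ V.comap f)
    · exact inf_le_inf_left _ (Subgroup.comap_mono hVU)
    · exact inf_le_left
    · intro x hx
      refine Subgroup.mem_inf.2 ⟨C.pow_mem hx.1 s, ?_⟩
      rw [Subgroup.mem_comap, map_pow]
      exact hpow _ hx.2
    · intro x hx y hy
      refine Subgroup.mem_inf.2 ⟨?_, ?_⟩
      · rw [commutatorElement_def]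
        exact mul_mem (mul_mem (mul_mem hx.1 hy.1) (inv_mem hx.1)) (inv_mem hy.1)
      · rw [Subgroup.mem_comap, map_commutatorElement]
        exact hcom _ hx.2 _ hy.2
  have h2 : (C ⊓ U.comap f).map f = U := by
    apply le_antisymm
    · rintro _ ⟨x, hx, rfl⟩
      exact hx.2
    · intro u hu
      obtain ⟨x, hx, rfl⟩ := hUC hu
      exact ⟨x, ⟨hx, hu⟩, rfl⟩
  have h3 : (V.comap f).relIndex (C ⊓ U.comap f) = V.relIndex U := by
    rw [Subgroup.relIndex_comap, h2]
  have h4 : (C ⊓ V.comap f).relIndex (C ⊓ U.comap f) =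
      (V.comap f).relIndex (C ⊓ U.comap f) := by
    rw [← Subgroup.inf_relIndex_right (C ⊓ V.comap f), ← Subgroup.inf_relIndex_right (V.comap f)]
    congr 1
    apply le_antisymm
    · exact inf_le_inf_right _ inf_le_right
    · exact le_inf (le_inf (inf_le_right.trans inf_le_left) inf_le_left) inf_le_right
  rw [← h3, ← h4]
  exact h1

theorem rb_index {F : Type*} [Group F] [Finite F] (s c k : ℕ) (C C' : Subgroup F)
    (hle : C' ≤ C) (hk : C'.relIndex C ≤ k) (h : RB s c C') : RB s (k * c) C := by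
  intro U V hVU hUC hpow hcom
  have h1 : (V ⊓ C').relIndex (U ⊓ C') ≤ c := by
    apply h (U ⊓ C') (V ⊓ C')
    · exact inf_le_inf_right _ hVU
    · exact inf_le_right
    · intro x hx
      exact Subgroup.mem_inf.2 ⟨hpow x hx.1, C'.pow_mem hx.2 s⟩
    · intro x hx y hy
      refine Subgroup.mem_inf.2 ⟨hcom x hx.1 y hy.1, ?_⟩
      rw [commutatorElement_def]
      exact mul_mem (mul_mem (mul_mem hx.2 hy.2) (inv_mem hx.2)) (inv_mem hy.2)
  have h2 := Subgroup.relIndex_mul_relIndex (V ⊓ C') V U inf_le_left hVU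
  have h3 := Subgroup.relIndex_mul_relIndex (V ⊓ C') (U ⊓ C') U (inf_le_inf_right _ hVU)
    inf_le_left
  have h4 : (U ⊓ C').relIndex U ≤ k := by
    rw [Subgroup.inf_relIndex_left]
    refine (Subgroup.relIndex_le_of_le_right hUC ?_).trans hk
    exact rb_ne _ _
  have h5 : 0 < (V ⊓ C').relIndex V := Nat.pos_of_ne_zero (rb_ne _ _)
  calc V.relIndex U ≤ (V ⊓ C').relIndex V * V.relIndex U := Nat.le_mul_of_pos_left _ h5
    _ = (V ⊓ C').relIndex (U ⊓ C') * (U ⊓ C').relIndex U := by rw [h2, h3]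
    _ ≤ c * k := Nat.mul_le_mul h1 h4
    _ = k * c := mul_comm _ _

theorem rb_mono {F : Type*} [Group F] {s c : ℕ} {C C' : Subgroup F} (hle : C' ≤ C)
    (h : RB s c C) : RB s c C' := fun U V h1 h2 => h U V h1 (h2.trans hle)

theorem rb_le {F : Type*} [Group F] {s c c' : ℕ} {C : Subgroup F} (hle : c ≤ c')
    (h : RB s c C) : RB s c' C := fun U V h1 h2 h3 h4 => (h U V h1 h2 h3 h4).trans hle

end H78TP
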