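import Pool.Agent.H78.TP.TpR
import Pool.Agent.H78.TP.Der

/-!
[H78 TP THP] Operator groups which are `p`-groups (30-45 min).

PROOF. By induction on `e`: if `|P| = p ^ e` then `lns K (hTe p e h) = ⊥` (for all `h`, `P`). `e = 0`:
`P = ⊥`, `K ⊓ centralizer ⊥ = K`. `e + 1`: as in `rk2` (`Rk2.lean`) `P` has a normal subgroup `P₁` of
index `p` and order `p ^ e`, `α ∈ P ∖ P₁`, `P = P₁ ⊔ zpowers α`, `α ^ p ∈ P₁`. Let
`K₁ = K ⊓ centralizer P₁` (soluble, order divides `|K|`); `α` normalises `K₁`, `α ^ p` centralises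
it, `K₁ ⊓ centralizer {α} ≤ K ⊓ centralizer P`, so `tpR` gives `lns K₁ (hTp p h) = ⊥`, and by
induction for `P₁` `lns K (hTe p e (hTp p h)) = ⊥`. Finally `hTe p e h ≤ hTM p n h` for `e ≤ n`
(`p ^ e ≤ n`).
-/

namespace H78TP

open Subgroup
open scoped commutatorElement

universe u

theorem thP_ind (p : ℕ) [Fact p.Prime] {F : Type u} [Group F] [Finite F] : ∀ (e h : ℕ)
    (K P : Subgroup F), Group.IsSolvable K → ¬ p ∣ Nat.card K → Nat.card P = p ^ e →
    (∀ x ∈ P, ∀ y ∈ K, x * y * x⁻¹ ∈ K) → lns (K ⊓ centralizer (P : Set F)) h = ⊥ →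
    lns K (hTe p e h) = ⊥ := by
  intro e
  induction e with
  | zero =>
    intro h K T hs hp hT hnorm hh
    rw [pow_zero, Subgroup.card_eq_one] at hT
    have h1 : K ≤ K ⊓ centralizer (T : Set F) := by
      refine le_inf le_rfl fun x _ => ?_
      rw [mem_centralizer_iff, hT]
      intro t ht
      rw [SetLike.mem_coe, mem_bot] at ht
      rw [ht, one_mul, mul_one]
    rw [eq_bot_iff, ← hh]
    exact lns_mono h1 h
  | succ e ih =>
    intro h S T hs hp hT hnorm hh
    have hpp : p.Prime := Fact.out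
    obtain ⟨K, hK⟩ := Sylow.exists_subgroup_card_pow_prime (G := T) p (n := e)
      (by rw [hT]; exact pow_dvd_pow _ (Nat.le_succ e))
    have hKi : K.index = p := by
      have h1 := K.card_mul_index
      rw [hK, hT, pow_succ] at h1
      exact Nat.eq_of_mul_eq_mul_left (pow_pos hpp.pos e) h1
    have hKn : K.Normal := by
      apply Subgroup.normal_of_index_eq_minFac_card
      rw [hKi, hT, hpp.pow_minFac (Nat.succ_ne_zero e)]
    have hKt : K ≠ ⊤ := by
      intro hh
      rw [hh, Subgroup.index_top] at hKi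
      exact hpp.one_lt.ne hKi
    obtain ⟨r, -, hr⟩ := SetLike.exists_of_lt (lt_top_iff_ne_top.2 hKt)
    have hsup : K ⊔ zpowers r = ⊤ := by
      have h1 := Subgroup.relIndex_mul_index (le_sup_left : K ≤ K ⊔ zpowers r)
      rw [hKi] at h1
      rcases (Nat.dvd_prime hpp).1 (Dvd.intro _ h1) with h2 | h2
      · exfalso
        rw [Subgroup.relIndex_eq_one] at h2
        exact hr (h2 ((le_sup_right : zpowers r ≤ K ⊔ zpowers r) (mem_zpowers r)))
      · rw [h2] at h1
        have h3 : (K ⊔ zpowers r).index = 1 :=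
          Nat.eq_of_mul_eq_mul_left hpp.pos (by rw [h1, mul_one])
        exact Subgroup.index_eq_one.1 h3
    have hrs : r ^ p ∈ K := by
      have := K.pow_index_mem r
      rwa [hKi] at this
    set T1 : Subgroup F := K.map T.subtype with hT1
    have hT1T : T1 ≤ T := by
      rw [hT1]; exact Subgroup.map_subtype_le K
    have hmem : ∀ k : T, k ∈ K → (k : F) ∈ T1 := fun k hk => ⟨k, hk, rfl⟩
    have hcT1 : Nat.card T1 = p ^ e := by
      rw [hT1, Subgroup.card_map_of_injective (Subgroup.subtype_injective T), hK]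
    refine ih (hTp p h) S T1 hs hp hcT1 (fun t ht x hx => hnorm t (hT1T ht) x hx) ?_
    haveI := hs
    have hs1 : Group.IsSolvable (S ⊓ centralizer (T1 : Set F) : Subgroup F) :=
      Group.isSolvable_of_isSolvable_injective
        (Subgroup.inclusion_injective (inf_le_left : S ⊓ centralizer (T1 : Set F) ≤ S))
    have hp1 : ¬ p ∣ Nat.card (S ⊓ centralizer (T1 : Set F) : Subgroup F) := fun hd =>
      hp (hd.trans (Subgroup.card_dvd_of_le inf_le_left))
    refine tpR p (S ⊓ centralizer (T1 : Set F)) hs1 hp1 (r : F) ?_ ?_ h ?_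
    · intro x hx
      refine ⟨hnorm r r.2 x hx.1, ?_⟩
      refine mem_centralizer_iff.2 ?_
      rintro t ⟨k, hk, rfl⟩
      have h1 := hKn.conj_mem k hk r⁻¹
      have h2 := mem_centralizer_iff.1 hx.2 _ (hmem _ h1)
      simp only [Subgroup.coe_mul, InvMemClass.coe_inv, inv_inv] at h2
      simp only [Subgroup.coe_subtype]
      calc (k : F) * (r * x * (r : F)⁻¹) = r * ((r : F)⁻¹ * k * r * x) * (r : F)⁻¹ := by group
        _ = r * (x * ((r : F)⁻¹ * k * r)) * (r : F)⁻¹ := by rw [h2]
        _ = r * x * (r : F)⁻¹ * k := by group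
    · intro x hx
      have h1 := mem_centralizer_iff.1 hx.2 _ (hmem _ hrs)
      simpa using h1
    · rw [eq_bot_iff, ← hh]
      refine lns_mono ?_ h
      intro x hx
      obtain ⟨⟨hx1, hx2⟩, hx3⟩ := hx
      refine ⟨hx1, ?_⟩
      have h1 : (K ⊔ zpowers r : Subgroup T) ≤ (centralizer ({x} : Set F)).comap T.subtype := by
        refine sup_le ?_ ?_
        · intro k hk
          rw [mem_comap, mem_centralizer_iff]
          rintro y rfl
          exact (mem_centralizer_iff.1 hx2 _ (hmem k hk)).symm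
        · rw [zpowers_le, mem_comap, mem_centralizer_iff]
          rintro y rfl
          exact (mem_centralizer_iff.1 hx3 _ rfl).symm
      rw [hsup] at h1
      refine mem_centralizer_iff.2 ?_
      intro t ht
      have h2 := h1 (mem_top ⟨t, ht⟩)
      rw [mem_comap, mem_centralizer_iff] at h2
      exact (h2 x rfl).symm

theorem thP (p n : ℕ) [Fact p.Prime] {F : Type u} [Group F] [Finite F] (K P : Subgroup F)
    (hs : Group.IsSolvable K) (hp : ¬ p ∣ Nat.card K) (hP : IsPGroup p P)
    (hn : Nat.card P ≤ n) (hPK : ∀ x ∈ P, ∀ y ∈ K, x * y * x⁻¹ ∈ K) (h : ℕ)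
    (hh : lns (K ⊓ centralizer (P : Set F)) h = ⊥) : lns K (hTM p n h) = ⊥ := by
  have hpp : p.Prime := Fact.out
  obtain ⟨e, he⟩ := IsPGroup.iff_card.1 hP
  have hen : e < n + 1 := by
    have h1 : e < p ^ e := Nat.lt_pow_self hpp.one_lt
    rw [he] at hn
    omega
  refine lns_of_le ?_ (thP_ind p e h K P hs hp he hPK hh)
  exact Finset.single_le_sum (f := fun e => hTe p e h) (fun i _ => Nat.zero_le _)
    (Finset.mem_range.2 hen)

end H78TP
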