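import Pool.Agent.H78.TP.Base

/-!
[H78 TP OPP] The largest normal `p'`-subgroup and the largest normal `p`-subgroup (30-45 min).

PROOF. `oppC`: let `O` be a normal subgroup of order prime to `p` of maximal order. If `N` is
another one then `O ⊔ N` is normal and its order divides `|O| |N|` (`Subgroup.card_mul...`:
`|O ⊔ N| = |O| [N : O ⊓ N]`), so it is prime to `p`, so `O ⊔ N = O`.
`oppC'`: let `N` be a normal subgroup of `F ⧸ O` of order prime to `p` and `M` its preimage in
`F`; `|M| = |N| |O|` is prime to `p`, so `M ≤ O` and `N = ⊥`.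
`oppP`, `oppP'`: the same for `p`-subgroups (`IsPGroup.to_sup_of_normal_right'` etc., and an
extension of a `p`-group by a `p`-group is a `p`-group).
-/

namespace H78TP

open Subgroup
open scoped commutatorElement

private theorem opp_card {F : Type*} [Group F] [Finite F] (O N : Subgroup F) [N.Normal] :
    Nat.card (O ⊔ N : Subgroup F) ∣ Nat.card N * Nat.card O := by
  have h1 : (⊥ : Subgroup F).relIndex N * N.relIndex (O ⊔ N) =
      (⊥ : Subgroup F).relIndex (O ⊔ N) :=
    relIndex_mul_relIndex _ _ _ bot_le le_sup_right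
  rw [relIndex_bot_left, relIndex_bot_left, relIndex_sup_right] at h1
  rw [← h1]
  exact Nat.mul_dvd_mul_left _ (relIndex_dvd_card N O)

private theorem opp_comap {F : Type*} [Group F] [Finite F] (O : Subgroup F) [O.Normal]
    (N : Subgroup (F ⧸ O)) : Nat.card (N.comap (QuotientGroup.mk' O)) =
      Nat.card O * Nat.card N := by
  have h1 : (⊥ : Subgroup F).relIndex O * O.relIndex (N.comap (QuotientGroup.mk' O)) =
      (⊥ : Subgroup F).relIndex (N.comap (QuotientGroup.mk' O)) := by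
    refine relIndex_mul_relIndex _ _ _ bot_le ?_
    have := ker_le_comap (QuotientGroup.mk' O) N
    rwa [QuotientGroup.ker_mk'] at this
  have h2 : O.relIndex (N.comap (QuotientGroup.mk' O)) = Nat.card N := by
    have h3 := relIndex_ker (N.comap (QuotientGroup.mk' O)) (QuotientGroup.mk' O)
    rw [QuotientGroup.ker_mk', map_comap_eq_self_of_surjective
      (QuotientGroup.mk'_surjective O)] at h3
    exact h3
  rw [relIndex_bot_left, relIndex_bot_left, h2] at h1
  exact h1.symm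

private theorem opp_bot {F : Type*} [Group F] (O : Subgroup F) [O.Normal]
    (N : Subgroup (F ⧸ O)) (h : N.comap (QuotientGroup.mk' O) ≤ O) : N = ⊥ := by
  rw [eq_bot_iff]
  intro x hx
  obtain ⟨g, rfl⟩ := QuotientGroup.mk'_surjective O x
  have h1 : g ∈ O := h hx
  rw [Subgroup.mem_bot]
  exact (QuotientGroup.eq_one_iff g).mpr h1

theorem oppC (p : ℕ) [Fact p.Prime] (F : Type*) [Group F] [Finite F] :
    ∃ O : Subgroup F, O.Normal ∧ ¬ p ∣ Nat.card O ∧
      ∀ N : Subgroup F, N.Normal → ¬ p ∣ Nat.card N → N ≤ O := by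
  have hp : p.Prime := Fact.out
  obtain ⟨O, ⟨hO1, hO2⟩, hO3⟩ := Set.exists_max_image
    {O : Subgroup F | O.Normal ∧ ¬ p ∣ Nat.card O} (fun O => Nat.card O) (Set.toFinite _)
    ⟨⊥, inferInstance, by
      rw [Subgroup.card_bot]
      exact hp.one_lt.ne' ∘ Nat.dvd_one.mp⟩
  refine ⟨O, hO1, hO2, fun N hN hN2 => ?_⟩
  have h1 : ¬ p ∣ Nat.card (O ⊔ N : Subgroup F) := by
    intro h
    rcases (Nat.Prime.dvd_mul hp).mp (h.trans (opp_card O N)) with h2 | h2
    · exact hN2 h2
    · exact hO2 h2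
  have h2 : Nat.card (O ⊔ N : Subgroup F) ≤ Nat.card O :=
    hO3 (O ⊔ N) ⟨inferInstance, h1⟩
  have h3 := eq_of_le_of_card_ge (show O ≤ O ⊔ N from le_sup_left) h2
  rw [h3]
  exact le_sup_right

theorem oppC' (p : ℕ) [Fact p.Prime] {F : Type*} [Group F] [Finite F] (O : Subgroup F)
    [O.Normal] (h1 : ¬ p ∣ Nat.card O)
    (h2 : ∀ N : Subgroup F, N.Normal → ¬ p ∣ Nat.card N → N ≤ O) :
    ∀ N : Subgroup (F ⧸ O), N.Normal → ¬ p ∣ Nat.card N → N = ⊥ := by
  have hp : p.Prime := Fact.out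
  intro N hN hN2
  refine opp_bot O N (h2 _ inferInstance ?_)
  rw [opp_comap, Nat.Prime.dvd_mul hp]
  rintro (h3 | h3)
  · exact h1 h3
  · exact hN2 h3

theorem oppP (p : ℕ) [Fact p.Prime] (F : Type*) [Group F] [Finite F] :
    ∃ W : Subgroup F, W.Normal ∧ IsPGroup p W ∧
      ∀ N : Subgroup F, N.Normal → IsPGroup p N → N ≤ W := by
  obtain ⟨O, ⟨hO1, hO2⟩, hO3⟩ := Set.exists_max_image
    {O : Subgroup F | O.Normal ∧ IsPGroup p O} (fun O => Nat.card O) (Set.toFinite _)
    ⟨⊥, inferInstance, IsPGroup.of_bot⟩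
  refine ⟨O, hO1, hO2, fun N hN hN2 => ?_⟩
  have h1 : IsPGroup p (O ⊔ N : Subgroup F) := hO2.to_sup_of_normal_right hN2
  have h2 : Nat.card (O ⊔ N : Subgroup F) ≤ Nat.card O :=
    hO3 (O ⊔ N) ⟨inferInstance, h1⟩
  have h3 := eq_of_le_of_card_ge (show O ≤ O ⊔ N from le_sup_left) h2
  rw [h3]
  exact le_sup_right

theorem oppP' (p : ℕ) [Fact p.Prime] {F : Type*} [Group F] [Finite F] (W : Subgroup F)
    [W.Normal] (h1 : IsPGroup p W)
    (h2 : ∀ N : Subgroup F, N.Normal → IsPGroup p N → N ≤ W) :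
    ∀ N : Subgroup (F ⧸ W), N.Normal → IsPGroup p N → N = ⊥ := by
  intro N hN hN2
  refine opp_bot W N (h2 _ inferInstance ?_)
  refine hN2.comap_of_ker_isPGroup (QuotientGroup.mk' W) ?_
  rw [QuotientGroup.ker_mk']
  exact h1

end H78TP
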