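import Pool.Agent.H78.TP.LayB
import Pool.Agent.H78.TP.Opp
import Pool.Agent.H78.TP.NilSyl

/-!
[H78 TP NILC] A criterion for the nilpotent residual to be a `q`-group (75 min).

PROOF. Let `s ≠ q` be a prime. Claim: there is a normal subgroup `O` of `Γ`, `O ≤ Y`, `s ∤ |O|`, and
`∀ g ∈ Y, ∃ j, g ^ (s ^ j) ∈ O`. By `oppC` for the group `Y` there is a largest normal `s'`-subgroup
`O₀` of `Y`; it is characteristic in `Y` (an automorphism maps it to a normal `s'`-subgroup, so into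
itself), so `O = O₀.map Y.subtype` is normal in `Γ`. Let `π : Γ →* Γ ⧸ O` and `Y' = Y.map π`; the
group `Y'` has no nontrivial normal `s'`-subgroup (its preimage in `Y` would be a larger normal
`s'`-subgroup; `Y' ≃ Y ⧸ O₀`, `oppC'`). Let `W` be the largest normal `s`-subgroup of the group
`Y'` (`oppP`), characteristic in `Y'`, and `Φ = Phi s W`. By `layB` for the soluble group `Y'`: if
`g ∈ Y'` satisfies `⁅g, w⁆ ∈ Φ` for all `w ∈ W` then `g ∈ W`. Let `A`, `B` be the preimages in `Y` of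
`W`, `Φ` (as subgroups of `Γ`): normal in `Γ` (`W` and `Φ` are invariant under conjugation by `Γ`),
`B ≤ A ≤ Y`, `x ^ s ∈ B`, `⁅x, y⁆ ∈ B` for `x, y ∈ A`. Let `g ∈ Y` with `s ∤ orderOf g`. By `h`
`⁅g, x⁆ ∈ B` for `x ∈ A`, so `π g` satisfies the condition of `layB` and `π g ∈ W`, an `s`-group,
but the order of `π g` is prime to `s`, so `π g = 1`, `g ∈ O`. A general `g ∈ Y` has a power
`g ^ (s ^ j)` of order prime to `s`; so the claim holds.
So the image of `Y` in `Γ ⧸ O` is an `s`-group, hence nilpotent: `gam Y c_s ≤ O` for some `c_s`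
(`gam_of_isNilpotent`, `gam_map`), so `nres Y ≤ O`, and `s ∤ |nres Y|`. So no prime `s ≠ q` divides
`|nres Y|`, and `nres Y` is a `q`-group.
Second statement: a `q`-group is nilpotent.
-/

namespace H78TP

open Subgroup
open scoped commutatorElement

private theorem nilC_key {Γ : Type*} [Group Γ] [Finite Γ] (s : ℕ) [Fact s.Prime]
    (Y : Subgroup Γ) (hY : Y.Normal) (hs : Group.IsSolvable Y)
    (h : ∀ A B : Subgroup Γ, A.Normal → B.Normal → B ≤ A → A ≤ Y →
      (∀ x ∈ A, x ^ s ∈ B) → (∀ x ∈ A, ∀ y ∈ A, ⁅x, y⁆ ∈ B) →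
      ∀ g ∈ Y, ¬ s ∣ orderOf g → ∀ x ∈ A, ⁅g, x⁆ ∈ B) :
    ¬ s ∣ Nat.card (nres Y) := by
  have hsp : s.Prime := Fact.out
  obtain ⟨O₀, hO1, hO2, hO3⟩ := oppC s Y
  have hQ := oppC' s O₀ hO2 hO3
  obtain ⟨W, hW1, hW2, hW3⟩ := oppP s (Y ⧸ O₀)
  -- characteristic subgroups
  have hOc : ∀ φ : Y ≃* Y, ∀ x ∈ O₀, φ x ∈ O₀ := by
    intro φ x hx
    have h1 : (O₀.map φ.toMonoidHom).Normal := hO1.map _ φ.surjective
    have h2 : Nat.card (O₀.map φ.toMonoidHom) = Nat.card O₀ :=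
      (Nat.card_congr (O₀.equivMapOfInjective φ.toMonoidHom φ.injective).toEquiv).symm
    exact hO3 _ h1 (by rw [h2]; exact hO2) ⟨x, hx, rfl⟩
  have hOch : O₀.Characteristic := by
    rw [Subgroup.characteristic_iff_map_le]
    rintro φ _ ⟨x, hx, rfl⟩
    exact hOc φ x hx
  have hAch : (W.comap (QuotientGroup.mk' O₀)).Characteristic := by
    rw [Subgroup.characteristic_iff_map_le]
    intro φ
    have h1 : ((W.comap (QuotientGroup.mk' O₀)).map φ.toMonoidHom).Normal :=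
      (inferInstance : (W.comap (QuotientGroup.mk' O₀)).Normal).map _ φ.surjective
    have h2 : (((W.comap (QuotientGroup.mk' O₀)).map φ.toMonoidHom).map
        (QuotientGroup.mk' O₀)).Normal := h1.map _ (QuotientGroup.mk'_surjective O₀)
    have h3 : IsPGroup s (((W.comap (QuotientGroup.mk' O₀)).map φ.toMonoidHom).map
        (QuotientGroup.mk' O₀)) := by
      rintro ⟨_, ⟨_, ⟨z, hz, rfl⟩, rfl⟩⟩
      obtain ⟨k, hk⟩ := hW2 ⟨_, hz⟩
      refine ⟨k, Subtype.ext ?_⟩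
      have h4 : QuotientGroup.mk' O₀ z ^ s ^ k = 1 := congrArg Subtype.val hk
      rw [← map_pow] at h4
      have h5 : z ^ s ^ k ∈ O₀ := (QuotientGroup.eq_one_iff _).1 h4
      have h6 := hOc φ _ h5
      show QuotientGroup.mk' O₀ (φ z) ^ s ^ k = 1
      rw [← map_pow, ← map_pow]
      exact (QuotientGroup.eq_one_iff _).2 h6
    intro y hy
    exact hW3 _ h2 h3 ⟨y, hy, rfl⟩
  have hOn : (O₀.map Y.subtype).Normal := ConjAct.normal_of_characteristic_of_normal
  have hAn : ((W.comap (QuotientGroup.mk' O₀)).map Y.subtype).Normal :=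
    ConjAct.normal_of_characteristic_of_normal
  set A : Subgroup Γ := (W.comap (QuotientGroup.mk' O₀)).map Y.subtype with hA
  have hPn : (Phi s A).Normal := phi_normal s A hAn
  have hAY : A ≤ Y := Subgroup.map_subtype_le _
  have hOA : O₀.map Y.subtype ≤ A := by
    refine Subgroup.map_mono fun x hx => ?_
    rw [Subgroup.mem_comap]
    have h1 : QuotientGroup.mk' O₀ x = 1 := (QuotientGroup.eq_one_iff _).2 hx
    rw [h1]
    exact one_mem _
  have hPA : Phi s A ≤ A := by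
    refine (Subgroup.closure_le _).2 ?_
    rintro x (⟨w, hw, rfl⟩ | ⟨w, hw, w', hw', rfl⟩)
    · exact pow_mem hw s
    · rw [commutatorElement_def]
      exact mul_mem (mul_mem (mul_mem hw hw') (inv_mem hw)) (inv_mem hw')
  have hPpow : ∀ x ∈ A, x ^ s ∈ Phi s A := fun x hx =>
    Subgroup.subset_closure (Or.inl ⟨x, hx, rfl⟩)
  have hPcom : ∀ x ∈ A, ∀ y ∈ A, ⁅x, y⁆ ∈ Phi s A := fun x hx y hy =>
    Subgroup.subset_closure (Or.inr ⟨x, hx, y, hy, rfl⟩)
  have hB := h A (O₀.map Y.subtype ⊔ Phi s A) hAn inferInstance (sup_le hOA hPA) hAY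
    (fun x hx => (le_sup_right : Phi s A ≤ _) (hPpow x hx))
    (fun x hx y hy => (le_sup_right : Phi s A ≤ _) (hPcom x hx y hy))
  have hBle : O₀.map Y.subtype ⊔ Phi s A ≤
      ((Phi s W).comap (QuotientGroup.mk' O₀)).map Y.subtype := by
    refine sup_le ?_ ?_
    · refine Subgroup.map_mono fun x hx => ?_
      rw [Subgroup.mem_comap]
      have h1 : QuotientGroup.mk' O₀ x = 1 := (QuotientGroup.eq_one_iff _).2 hx
      rw [h1]
      exact one_mem _
    · refine (Subgroup.closure_le _).2 ?_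
      rintro x (⟨w, ⟨w₀, hw₀, rfl⟩, rfl⟩ | ⟨w, ⟨w₀, hw₀, rfl⟩, w', ⟨w₁, hw₁, rfl⟩, rfl⟩)
      · refine ⟨w₀ ^ s, ?_, map_pow Y.subtype w₀ s⟩
        show QuotientGroup.mk' O₀ (w₀ ^ s) ∈ Phi s W
        rw [map_pow]
        exact Subgroup.subset_closure (Or.inl ⟨_, hw₀, rfl⟩)
      · refine ⟨⁅w₀, w₁⁆, ?_, map_commutatorElement Y.subtype w₀ w₁⟩
        show QuotientGroup.mk' O₀ ⁅w₀, w₁⁆ ∈ Phi s W
        rw [map_commutatorElement]
        exact Subgroup.subset_closure (Or.inr ⟨_, hw₀, _, hw₁, rfl⟩)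
  -- elements of order prime to `s`
  have hprime : ∀ g : Y, ¬ s ∣ orderOf (g : Γ) → g ∈ O₀ := by
    intro g hg
    have h1 : QuotientGroup.mk' O₀ g ∈ W := by
      haveI : Group.IsSolvable Y := hs
      refine layB inferInstance s hQ W hW1 hW2 hW3 _ ?_
      intro w hw
      obtain ⟨x, rfl⟩ := QuotientGroup.mk'_surjective O₀ w
      have h2 := hBle (hB g.1 g.2 hg x.1 ⟨x, hw, rfl⟩)
      obtain ⟨z, hz, hz2⟩ := h2
      have h3 : z = ⁅g, x⁆ := by
        apply Y.subtype_injective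
        rw [hz2]
        exact (map_commutatorElement Y.subtype g x).symm
      rw [h3] at hz
      have h4 : QuotientGroup.mk' O₀ ⁅g, x⁆ ∈ Phi s W := hz
      rwa [map_commutatorElement] at h4
    obtain ⟨k, hk⟩ := hW2 ⟨_, h1⟩
    have h2 : QuotientGroup.mk' O₀ g ^ s ^ k = 1 := congrArg Subtype.val hk
    have h3 : orderOf (QuotientGroup.mk' O₀ g) ∣ s ^ k := orderOf_dvd_of_pow_eq_one h2
    have h4 : orderOf (QuotientGroup.mk' O₀ g) ∣ orderOf (g : Γ) := by
      rw [Subgroup.orderOf_coe]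
      exact orderOf_map_dvd _ g
    have h5 : Nat.Coprime (s ^ k) (orderOf (g : Γ)) :=
      Nat.Coprime.pow_left k ((Nat.Prime.coprime_iff_not_dvd hsp).2 hg)
    have h6 : orderOf (QuotientGroup.mk' O₀ g) = 1 :=
      Nat.eq_one_of_dvd_coprimes h5 h3 h4
    rw [orderOf_eq_one_iff] at h6
    exact (QuotientGroup.eq_one_iff g).1 h6
  have hQs : IsPGroup s (Y ⧸ O₀) := by
    intro x
    obtain ⟨g, rfl⟩ := QuotientGroup.mk'_surjective O₀ x
    obtain ⟨k, m, hm, hk⟩ := Nat.exists_eq_pow_mul_and_not_dvd (orderOf_pos (g : Γ)).ne' s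
      hsp.ne_one
    refine ⟨k, ?_⟩
    rw [← map_pow]
    refine (QuotientGroup.eq_one_iff _).2 (hprime _ ?_)
    rw [Subgroup.coe_pow, orderOf_pow_of_dvd (pow_ne_zero k hsp.ne_zero) (hk ▸ dvd_mul_right _ _),
      hk, Nat.mul_div_cancel_left _ (pow_pos hsp.pos k)]
    exact hm
  have hnil : Group.IsNilpotent (⊤ : Subgroup (Y ⧸ O₀)) := (hQs.to_subgroup ⊤).isNilpotent
  obtain ⟨c, hc⟩ := gam_of_isNilpotent _ hnil
  have h1 : gam (⊤ : Subgroup Y) c ≤ O₀ := by
    have h2 := gam_map (QuotientGroup.mk' O₀) (⊤ : Subgroup Y) c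
    rw [Subgroup.map_top_of_surjective _ (QuotientGroup.mk'_surjective O₀), hc,
      Subgroup.map_eq_bot_iff, QuotientGroup.ker_mk'] at h2
    exact h2
  have h2 : gam Y c ≤ O₀.map Y.subtype := by
    have h3 := gam_map Y.subtype (⊤ : Subgroup Y) c
    rw [← MonoidHom.range_eq_map, Subgroup.range_subtype] at h3
    rw [← h3]
    exact Subgroup.map_mono h1
  have h3 : nres Y ≤ O₀.map Y.subtype := (nres_le_gam Y c).trans h2
  have h4 : Nat.card (O₀.map Y.subtype) = Nat.card O₀ :=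
    (Nat.card_congr (O₀.equivMapOfInjective Y.subtype Y.subtype_injective).toEquiv).symm
  intro h5
  apply hO2
  rw [← h4]
  exact h5.trans (Subgroup.card_dvd_of_le h3)

theorem nilC {Γ : Type*} [Group Γ] [Finite Γ] (q : ℕ) [Fact q.Prime] (Y : Subgroup Γ)
    (hY : Y.Normal) (hs : Group.IsSolvable Y)
    (h : ∀ s : ℕ, s.Prime → s ≠ q → ∀ A B : Subgroup Γ, A.Normal → B.Normal → B ≤ A → A ≤ Y →
      (∀ x ∈ A, x ^ s ∈ B) → (∀ x ∈ A, ∀ y ∈ A, ⁅x, y⁆ ∈ B) →
      ∀ g ∈ Y, ¬ s ∣ orderOf g → ∀ x ∈ A, ⁅g, x⁆ ∈ B) :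
    IsPGroup q (nres Y) ∧ lns Y 2 = ⊥ := by
  have hp : IsPGroup q (nres Y) := by
    have h1 := Nat.eq_prime_pow_of_unique_prime_dvd (p := q)
      (Nat.card_pos (α := nres Y)).ne' (by
      intro l hl hlK
      by_contra hlq
      haveI : Fact l.Prime := ⟨hl⟩
      exact nilC_key l Y hY hs (h l hl hlq) hlK)
    exact IsPGroup.of_card h1
  refine ⟨hp, ?_⟩
  obtain ⟨c, hc⟩ := gam_of_isNilpotent (nres Y) hp.isNilpotent
  show nres (nres Y) = ⊥
  rw [eq_bot_iff, ← hc]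
  exact nres_le_gam (nres Y) c

end H78TP
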