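import Pool.Agent.H78.TP.Base

/-!
[H78 TP SEC] The module of an elementary abelian section (45 min).

PROOF. `B.subgroupOf A` is normal in `A` with quotient `V₀ = A ⧸ B.subgroupOf A`, commutative (`hc`),
`x ^ s = 1` (`hs`). `V = Additive V₀` with its `Module (ZMod s)` structure
(`AddCommGroup.zmodModule`). `Γ` acts on `A` (`MulAut.conjNormal`) and on `V₀`, linear over `ZMod s`
(`AddMonoidHom.toZModLinearMap`). `π x` is the class of `x`. `Nat.card V = B.relIndex A`.
-/

namespace H78TP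

open Subgroup
open scoped commutatorElement

universe u

private theorem Sec_rep' {G Q : Type u} [Group G] [CommGroup Q] (p : ℕ)
    [Module (ZMod p) (Additive Q)] (α : G →* Monoid.End Q) :
    ∃ (ρ : Representation (ZMod p) G (Additive Q)),
      ∀ g (x : Q), ρ g (Additive.ofMul x) = Additive.ofMul (α g x) := by
  let act : G → (Additive Q →ₗ[ZMod p] Additive Q) := fun g =>
    AddMonoidHom.toZModLinearMap p (MonoidHom.toAdditive (α g : Q →* Q))
  have hact : ∀ g (x : Q), act g (Additive.ofMul x) = Additive.ofMul (α g x) := fun g x => rfl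
  refine ⟨{ toFun := act, map_one' := ?_, map_mul' := ?_ }, hact⟩
  · apply LinearMap.ext
    intro v
    obtain ⟨x, rfl⟩ := Additive.ofMul.surjective v
    rw [hact, map_one]
    rfl
  · intro g h
    apply LinearMap.ext
    intro v
    obtain ⟨x, rfl⟩ := Additive.ofMul.surjective v
    rw [hact, map_mul]
    rfl

private theorem Sec_rep {G Q : Type u} [Group G] [CommGroup Q] (p : ℕ) (hpow : ∀ x : Q, x ^ p = 1)
    (α : G →* Monoid.End Q) : ∃ (_ : Module (ZMod p) (Additive Q))
      (ρ : Representation (ZMod p) G (Additive Q)),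
      ∀ g (x : Q), ρ g (Additive.ofMul x) = Additive.ofMul (α g x) := by
  letI iM : Module (ZMod p) (Additive Q) := AddCommGroup.zmodModule fun x => hpow (Additive.toMul x)
  obtain ⟨ρ, hρ⟩ := Sec_rep' p α
  exact ⟨iM, ρ, hρ⟩

theorem sec (s : ℕ) [Fact s.Prime] {Γ : Type u} [Group Γ] [Finite Γ] (A B : Subgroup Γ)
    (hA : A.Normal) (hB : B.Normal) (hBA : B ≤ A) (hs : ∀ x ∈ A, x ^ s ∈ B)
    (hc : ∀ x ∈ A, ∀ y ∈ A, ⁅x, y⁆ ∈ B) :
    ∃ (V : Type u) (_ : AddCommGroup V) (_ : Module (ZMod s) V) (_ : Finite V)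
      (ρ : Representation (ZMod s) Γ V) (π : A → V), Function.Surjective π ∧
      (∀ x y : A, π x = π y ↔ (x : Γ)⁻¹ * y ∈ B) ∧
      (∀ (g : Γ) (x : A), ρ g (π x) = π ⟨g * x * g⁻¹, hA.conj_mem x x.2 g⟩) ∧
      Nat.card V = B.relIndex A := by
  let N : Subgroup A := B.subgroupOf A
  have hN : N.Normal := Subgroup.normal_subgroupOf
  have hNmem : ∀ w : A, w ∈ N ↔ (w : Γ) ∈ B := fun w => Subgroup.mem_subgroupOf
  have hcomm : ∀ a b : A ⧸ N, a * b = b * a := by
    intro a b
    obtain ⟨w, rfl⟩ := QuotientGroup.mk_surjective a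
    obtain ⟨w', rfl⟩ := QuotientGroup.mk_surjective b
    rw [← QuotientGroup.mk_mul, ← QuotientGroup.mk_mul, QuotientGroup.eq, hNmem]
    have h1 := hc _ (inv_mem w'.2) _ (inv_mem w.2)
    have h2 : ⁅(w' : Γ)⁻¹, (w : Γ)⁻¹⁆ = (((w * w')⁻¹ * (w' * w) : A) : Γ) := by
      rw [commutatorElement_def]
      push_cast
      group
    rwa [h2] at h1
  letI iC : CommGroup (A ⧸ N) := { (inferInstance : Group (A ⧸ N)) with mul_comm := hcomm }
  have hpow : ∀ x : A ⧸ N, x ^ s = 1 := by
    intro x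
    obtain ⟨w, rfl⟩ := QuotientGroup.mk_surjective x
    have h1 : ((w ^ s : A) : A ⧸ N) = 1 := by
      rw [QuotientGroup.eq_one_iff, hNmem]
      exact hs w w.2
    exact h1
  have hmap : ∀ g : Γ, N ≤ N.comap (MulAut.conjNormal g : A ≃* A).toMonoidHom := by
    intro g w hw
    rw [Subgroup.mem_comap, hNmem]
    exact hB.conj_mem _ ((hNmem w).1 hw) g
  let cl : A → A ⧸ N := fun w => QuotientGroup.mk w
  have hcl : ∀ v, ∃ w, cl w = v := fun v => QuotientGroup.mk_surjective v
  have hcleq : ∀ w w' : A, cl w = cl w' ↔ (w : Γ)⁻¹ * w' ∈ B := by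
    intro w w'
    exact QuotientGroup.eq.trans (hNmem _)
  let α₀ : Γ →* Monoid.End (A ⧸ N) :=
    { toFun := fun g => (QuotientGroup.map N N (MulAut.conjNormal g : A ≃* A).toMonoidHom (hmap g) :
        (A ⧸ N) →* (A ⧸ N))
      map_one' := by
        apply MonoidHom.ext
        intro v
        obtain ⟨w, rfl⟩ := hcl v
        show cl (MulAut.conjNormal (1 : Γ) w) = cl w
        rw [map_one]
        rfl
      map_mul' := by
        intro g h
        apply MonoidHom.ext
        intro v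
        obtain ⟨w, rfl⟩ := hcl v
        show cl (MulAut.conjNormal (g * h) w) = cl (MulAut.conjNormal g (MulAut.conjNormal h w))
        rw [map_mul]
        rfl }
  have hα₀ : ∀ g w, α₀ g (cl w) = cl (MulAut.conjNormal g w) := fun g w => rfl
  obtain ⟨iM, ρ, hρ⟩ := Sec_rep s hpow α₀
  have hfinV : Finite (Additive (A ⧸ N)) := (inferInstance : Finite (A ⧸ N))
  refine ⟨Additive (A ⧸ N), inferInstance, iM, hfinV, ρ, fun x => Additive.ofMul (cl x),
    ?_, ?_, ?_, rfl⟩
  · intro v
    obtain ⟨v, rfl⟩ := Additive.ofMul.surjective v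
    obtain ⟨w, rfl⟩ := hcl v
    exact ⟨w, rfl⟩
  · intro x y
    exact (Additive.ofMul.injective.eq_iff).trans (hcleq x y)
  · intro g x
    show ρ g (Additive.ofMul (cl x)) = Additive.ofMul (cl _)
    rw [hρ, hα₀]
    rfl

end H78TP
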