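import Pool.Agent.H78.TP.Zas
import Pool.Agent.H78.TP.Qa

/-!
[H78 TP ZASF] Zassenhaus over the prime field (20 min).

PROOF. Let `k = AlgebraicClosure (ZMod l)` (`CharP k l`). `qa` gives `U`, `τ` with
`finrank k U = finrank W ≤ d`, and `τ g = 1 ↔ ρ g = 1`. Apply `zasT` to `τ`
(`(orderOf g : k) ≠ 0` iff `l ∤ orderOf g`). Universes: `qa` has `U : Type u` for `W : Type u`, and
`zasT` wants `U : Type v` with `k : Type v`: here `k : Type`. If `W : Type u` with `u ≠ 0`, first
replace `W` by `Fin n → ZMod l` (`W` is finite dimensional; transport `ρ` through a basis), so that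
everything is in `Type`.
-/

namespace H78TP

open Subgroup
open scoped commutatorElement

theorem zasF (l : ℕ) [Fact l.Prime] {K W : Type*} [Group K] [Finite K] [AddCommGroup W]
    [Module (ZMod l) W] [Module.Finite (ZMod l) W] (ρ : Representation (ZMod l) K W)
    (hs : Group.IsSolvable K) (d : ℕ) (hd : Module.finrank (ZMod l) W ≤ d) :
    ∀ g ∈ dS (⊤ : Subgroup K) (zas d), ¬ l ∣ orderOf g → ρ g = 1 := by
  intro g hg hog
  haveI : NeZero l := ⟨(Fact.out : l.Prime).ne_zero⟩
  obtain ⟨e, _⟩ : ∃ e : W ≃ₗ[ZMod l] (Fin (Module.finrank (ZMod l) W) → ZMod l), True :=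
    ⟨(Module.finBasis (ZMod l) W).equivFun, trivial⟩
  let ρ₁ : Representation (ZMod l) K (Fin (Module.finrank (ZMod l) W) → ZMod l) :=
    { toFun := fun g => e.toLinearMap ∘ₗ ρ g ∘ₗ e.symm.toLinearMap
      map_one' := by
        rw [map_one]
        apply LinearMap.ext
        intro v
        show e (e.symm v) = v
        exact e.apply_symm_apply v
      map_mul' := by
        intro a b
        rw [map_mul]
        apply LinearMap.ext
        intro v
        show e (ρ a (ρ b (e.symm v))) = e (ρ a (e.symm (e (ρ b (e.symm v)))))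
        rw [e.symm_apply_apply] }
  have hρ₁ : ∀ (g : K) (v : Fin (Module.finrank (ZMod l) W) → ZMod l),
      ρ₁ g v = e (ρ g (e.symm v)) := fun g v => rfl
  haveI hch : CharP (AlgebraicClosure (ZMod l)) l :=
    charP_of_injective_algebraMap
      (algebraMap (ZMod l) (AlgebraicClosure (ZMod l))).injective l
  obtain ⟨U, i1, i2, i3, τ, h1, h2, _⟩ := qa l
    (Fin (Module.finrank (ZMod l) W) → ZMod l) ρ₁ (AlgebraicClosure (ZMod l))
  have hU : Module.finrank (AlgebraicClosure (ZMod l)) U ≤ d := by
    rw [h2, Module.finrank_fin_fun]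
    exact hd
  have h3 := zasT l d K U τ hs hU g hg (by
    rw [Ne, CharP.cast_eq_zero_iff (AlgebraicClosure (ZMod l)) l]
    exact hog)
  have h4 := (h1 g).1 h3
  apply LinearMap.ext
  intro w
  have h5 := hρ₁ g (e w)
  rw [h4, e.symm_apply_apply] at h5
  exact (e.injective h5).symm

end H78TP
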