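import Pool.Agent.H78.TP.TDef
import Pool.Agent.H78.TP.ZasF
import Pool.Agent.H78.TP.Sec
import Pool.Agent.H78.TP.NilC
import Pool.Agent.H78.TP.Der

/-!
[H78 TP RKH] Soluble groups of bounded rank have bounded height (45-60 min).

PROOF. Work in the group `Γ = C` (type): `RB` for subgroups of `C`. Let `Y = dS (⊤ : Subgroup Γ)
(zas (m + j))`, normal. Choose a prime `q` not dividing `|Γ|` (`Nat.exists_infinite_primes`). `nilC`
for `Y`: let `s` be prime, `A`, `B`, `g` as there; `sec` gives `V`, `ρ`, `π` with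
`|V| = B.relIndex A ≤ j * s ^ m ≤ s ^ (m + j)` (`j < 2 ^ j ≤ s ^ j`), so `finrank V ≤ m + j`
(`Module.card_eq_pow_finrank`), and by `zasF` `ρ g = 1` for `g ∈ Y`, `s ∤ orderOf g`. So `nres Y` is
a `q`-group, and `q ∤ |Γ|`, so `nres Y = ⊥`, and `lns ⊤ (zas (m + j) + 1) = ⊥` (`lns_le_dS`,
`lns_trans`). Transfer to `C ≤ F` with `lns_subtype`.
-/

namespace H78TP

open Subgroup
open scoped commutatorElement

private theorem rkH_top {Γ : Type*} [Group Γ] [Finite Γ] (hs : Group.IsSolvable Γ) (m j : ℕ)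
    (hRB : ∀ s : ℕ, s.Prime → RB s (j * s ^ m) (⊤ : Subgroup Γ)) :
    lns (⊤ : Subgroup Γ) (zas (m + j) + 1) = ⊥ := by
  have hY : (dS (⊤ : Subgroup Γ) (zas (m + j))).Normal := dS_normal inferInstance _
  obtain ⟨q, hq1, hq2⟩ := Nat.exists_infinite_primes (Nat.card Γ + 1)
  have hqf : Fact q.Prime := ⟨hq2⟩
  have hqc : ¬ q ∣ Nat.card Γ := by
    intro h1
    have h2 := Nat.le_of_dvd Nat.card_pos h1
    omega
  have h := nilC q (dS (⊤ : Subgroup Γ) (zas (m + j))) hY (solv_sub hs _) (by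
    intro s hsp _ A B hA hB hBA _ hAs hAc g hg hgo x hx
    have hsf : Fact s.Prime := ⟨hsp⟩
    obtain ⟨V, _, _, _, ρ, π, _, hπ, hρ, hcard⟩ := sec s A B hA hB hBA hAs hAc
    have hfin : Module.Finite (ZMod s) V := inferInstance
    have hd : Module.finrank (ZMod s) V ≤ m + j := by
      have h1 : Nat.card V = s ^ Module.finrank (ZMod s) V := by
        haveI : NeZero s := ⟨hsp.ne_zero⟩
        rw [Module.natCard_eq_pow_finrank (K := ZMod s), Nat.card_zmod]
      have h2 : Nat.card V ≤ j * s ^ m := by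
        rw [hcard]
        exact hRB s hsp A B hBA le_top hAs hAc
      have h3 : j * s ^ m ≤ s ^ (m + j) := by
        rw [pow_add, mul_comm]
        refine Nat.mul_le_mul_left _ ?_
        exact (Nat.lt_pow_self hsp.one_lt).le
      rw [h1] at h2
      exact (Nat.pow_le_pow_iff_right hsp.one_lt).1 (h2.trans h3)
    have h1 := zasF s ρ hs (m + j) hd g hg hgo
    have h2 := hρ g ⟨x, hx⟩
    rw [h1] at h2
    have h3 : π ⟨x, hx⟩ = π ⟨g * x * g⁻¹, hA.conj_mem x hx g⟩ := h2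
    have h4 := (hπ _ _).1 h3
    have h5 := hB.conj_mem _ h4 x
    have h6 : x * ((((⟨x, hx⟩ : A) : Γ))⁻¹ *
        ((⟨g * x * g⁻¹, hA.conj_mem x hx g⟩ : A) : Γ)) * x⁻¹ = ⁅g, x⁆ := by
      rw [commutatorElement_def]
      change x * (x⁻¹ * (g * x * g⁻¹)) * x⁻¹ = g * x * g⁻¹ * x⁻¹
      rw [mul_inv_cancel_left]
    rwa [h6] at h5)
  have hbot : nres (dS (⊤ : Subgroup Γ) (zas (m + j))) = ⊥ := by
    obtain ⟨e, he⟩ := IsPGroup.iff_card.1 h.1
    have h1 := Subgroup.card_subgroup_dvd_card (nres (dS (⊤ : Subgroup Γ) (zas (m + j))))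
    rw [he] at h1
    rcases Nat.eq_zero_or_pos e with h2 | h2
    · rw [h2, pow_zero] at he
      exact Subgroup.eq_bot_of_card_eq _ he
    · exact absurd ((dvd_pow_self q h2.ne').trans h1) hqc
  exact lns_trans (lns_le_dS _ _) hbot

theorem rkH {F : Type*} [Group F] [Finite F] (C : Subgroup F) (hs : Group.IsSolvable C)
    (m j : ℕ) (hRB : ∀ s : ℕ, s.Prime → RB s (j * s ^ m) C) : lns C (hRk m j) = ⊥ := by
  have h1 := rkH_top (Γ := C) hs m j (by
    intro s hsp U V hVU _ h2 h3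
    have h4 := hRB s hsp (U.map C.subtype) (V.map C.subtype) (Subgroup.map_mono hVU)
      (by
        rintro _ ⟨x, _, rfl⟩
        exact x.2)
      (by
        rintro _ ⟨x, hx, rfl⟩
        exact ⟨x ^ s, h2 x hx, rfl⟩)
      (by
        rintro _ ⟨x, hx, rfl⟩ _ ⟨y, hy, rfl⟩
        exact ⟨⁅x, y⁆, h3 x hx y hy, rfl⟩)
    rwa [Subgroup.relIndex_map_map_of_injective _ _ C.subtype_injective] at h4)
  have h2 := lns_subtype C (⊤ : Subgroup C) (zas (m + j) + 1)
  rw [h1, Subgroup.map_bot] at h2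
  have h3 : (⊤ : Subgroup C).map C.subtype = C := by
    rw [← MonoidHom.range_eq_map, Subgroup.range_subtype]
  rw [h3] at h2
  exact h2.symm

end H78TP
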