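import Pool.Agent.H78.TP.Cfp

/-!
[H78 TP INHD] Lifting the centraliser modulo a coprime operator group (30 min).

PROOF. `≤`: `g ∈ DD f L L'` centralises `L'`, so `f g` centralises `L'.map f`, and `f g`
centralises `L.map f` by definition. `≥`: let `g'` be in the right-hand side, `g' = f g₀`. For
`x ∈ L'` `f (x * g₀ * x⁻¹ * g₀⁻¹) = 1`. By `cfp` (with `s := r`, `S = L'`, `N = f.ker`, which is
normal) there is `y ∈ f.ker` such that `g = y * g₀` commutes with all `x ∈ L'`; `f g = g'`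
centralises `L.map f`, so `g ∈ DD f L L'`.
-/

namespace H78TP

open Subgroup
open scoped commutatorElement

theorem inhD {F F' : Type*} [Group F] [Finite F] [Group F'] (f : F →* F')
    (hf : Function.Surjective f) (r : ℕ) [Fact r.Prime] (L L' : Subgroup F)
    (hL' : IsPGroup r L') (hN : ¬ r ∣ Nat.card f.ker) :
    (DD f L L').map f = CC (L.map f) (L'.map f) := by
  apply le_antisymm
  · rintro _ ⟨g, ⟨hg1, hg2⟩, rfl⟩
    refine ⟨hg2, ?_⟩
    show f g ∈ centralizer ((L'.map f : Subgroup F') : Set F')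
    rw [Subgroup.mem_centralizer_iff]
    rintro _ ⟨x, hx, rfl⟩
    have h := Subgroup.mem_centralizer_iff.1 hg1 x hx
    rw [← map_mul, h, map_mul]
  · rintro g' ⟨h1, h2⟩
    obtain ⟨g₀, rfl⟩ := hf g'
    have hcom : ∀ x ∈ L', x * g₀ * x⁻¹ * g₀⁻¹ ∈ f.ker := by
      intro x hx
      have h3 := Subgroup.mem_centralizer_iff.1 h2 (f x) ⟨x, hx, rfl⟩
      rw [MonoidHom.mem_ker, map_mul, map_mul, map_mul, map_inv, map_inv, h3]
      group
    obtain ⟨y, hy, hyc⟩ := cfp r L' f.ker hL' hN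
      (fun x _ y hy => (MonoidHom.normal_ker f).conj_mem y hy x) g₀ hcom
    refine ⟨y * g₀, ⟨?_, ?_⟩, ?_⟩
    · exact Subgroup.mem_centralizer_iff.2 (fun x hx => hyc x hx)
    · show f (y * g₀) ∈ centralizer ((L.map f : Subgroup F') : Set F')
      rw [map_mul, MonoidHom.mem_ker.1 hy, one_mul]
      exact h1
    · rw [map_mul, MonoidHom.mem_ker.1 hy, one_mul]

end H78TP
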