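import Pool.Agent.H78.TP.FraA
import Pool.Agent.H78.TP.Cfp

/-!
[H78 TP FRAB] A coprime operator which is trivial modulo the Frattini subgroup is trivial
(30 min).

PROOF. Let `S = zpowers g` (an `r`-group by `hg`) and `T = W ⊓ centralizer {g}`. All powers of `g`
normalise `W` and `Phi s W` (`phi_conj`) and `⁅x, w⁆ ∈ Phi s W` for `x ∈ S`, `w ∈ W` (the set of
`x` which normalise `W` and satisfy this is a subgroup; or induction on the exponent). Let
`w ∈ W`. `cfp` with `s := r`, `N = Phi s W` (an `s`-group, so `r ∤ Nat.card N` as `r ≠ s`) gives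
`y ∈ Phi s W` such that `y * w` commutes with `g`, so `y * w ∈ T` and `w ∈ T ⊔ Phi s W`. By
`phi_gen` `T = W`.
-/

namespace H78TP

open Subgroup
open scoped commutatorElement

private theorem frab_pow {X : Type*} [Group X] (s : ℕ) (W : Subgroup X) (g : X)
    (hn : ∀ w ∈ W, g * w * g⁻¹ ∈ W) (h : ∀ w ∈ W, ⁅g, w⁆ ∈ Phi s W) (n : ℕ) :
    ∀ w ∈ W, g ^ n * w * (g ^ n)⁻¹ ∈ W ∧ ⁅g ^ n, w⁆ ∈ Phi s W := by
  induction n with
  | zero =>
    intro w hw
    rw [pow_zero, one_mul, inv_one, mul_one, commutatorElement_one_left]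
    exact ⟨hw, one_mem _⟩
  | succ n ih =>
    intro w hw
    obtain ⟨h1, h2⟩ := ih w hw
    constructor
    · have e : g ^ (n + 1) * w * (g ^ (n + 1))⁻¹ = g * (g ^ n * w * (g ^ n)⁻¹) * g⁻¹ := by
        rw [pow_succ']
        group
      rw [e]
      exact hn _ h1
    · have e : ⁅g ^ (n + 1), w⁆ = ⁅g, g ^ n * w * (g ^ n)⁻¹⁆ * ⁅g ^ n, w⁆ := by
        rw [pow_succ', commutatorElement_def, commutatorElement_def, commutatorElement_def]
        group
      rw [e]
      exact mul_mem (h _ h1) h2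

theorem phi_cop {X : Type*} [Group X] [Finite X] (s r : ℕ) [Fact s.Prime] [Fact r.Prime]
    (hrs : r ≠ s) (W : Subgroup X) (hW : IsPGroup s W) (g : X) (hg : ∃ k, g ^ (r ^ k) = 1)
    (hn : ∀ w ∈ W, g * w * g⁻¹ ∈ W) (h : ∀ w ∈ W, ⁅g, w⁆ ∈ Phi s W) :
    ∀ w ∈ W, g * w = w * g := by
  have hpw : ∀ x ∈ zpowers g, ∃ n : ℕ, g ^ n = x := fun x hx =>
    Submonoid.mem_powers_iff x g |>.1 (mem_powers_iff_mem_zpowers.2 hx)
  have hS : IsPGroup r (zpowers g) := by
    obtain ⟨k, hk⟩ := hg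
    rintro ⟨x, hx⟩
    obtain ⟨n, rfl⟩ := hpw x hx
    refine ⟨k, Subtype.ext ?_⟩
    show (g ^ n) ^ r ^ k = 1
    rw [← pow_mul, mul_comm, pow_mul, hk, one_pow]
  have hN : ¬ r ∣ Nat.card (Phi s W) := by
    intro hd
    have h1 : IsPGroup s (Phi s W) := hW.to_le (phi_le s W)
    obtain ⟨n, hn'⟩ := IsPGroup.iff_card.1 h1
    rw [hn'] at hd
    have h2 := (Fact.out : r.Prime).dvd_of_dvd_pow hd
    exact hrs ((Nat.prime_dvd_prime_iff_eq Fact.out Fact.out).1 h2)
  have hn' : ∀ x ∈ zpowers g, ∀ y ∈ Phi s W, x * y * x⁻¹ ∈ Phi s W := by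
    intro x hx y hy
    obtain ⟨n, rfl⟩ := hpw x hx
    exact phi_conj s W _ (fun w hw => (frab_pow s W g hn h n w hw).1) y hy
  have hT : W ⊓ centralizer {g} = W := by
    refine phi_gen s W _ hW inf_le_left fun w hw => ?_
    obtain ⟨y, hy, hyc⟩ := cfp r (zpowers g) (Phi s W) hS hN hn' w (fun x hx => by
      obtain ⟨n, rfl⟩ := hpw x hx
      exact (frab_pow s W g hn h n w hw).2)
    have h1 := hyc g (mem_zpowers g)
    have h2 : y * w ∈ W ⊓ centralizer {g} := by
      refine ⟨mul_mem (phi_le s W hy) hw, ?_⟩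
      show y * w ∈ centralizer {g}
      rw [mem_centralizer_iff]
      intro a ha
      rw [Set.mem_singleton_iff] at ha
      rw [ha]
      exact h1
    have h3 : w = y⁻¹ * (y * w) := by group
    rw [h3]
    exact mul_mem (mem_sup_right (inv_mem hy)) (mem_sup_left h2)
  intro w hw
  rw [← hT] at hw
  have h1 : w ∈ centralizer {g} := hw.2
  rw [mem_centralizer_iff] at h1
  exact h1 g (Set.mem_singleton g)

end H78TP
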