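import Pool.Agent.H78.TP.RbB
import Pool.Agent.H78.TP.Rk2
import Pool.Agent.H78.TP.InhD
import Pool.Agent.H78.TP.FraB

/-!
[H78 TP INHB] Inheritance, the primes different from the prime of the kernel (60 min).

PROOF. `N = f.ker`, `D = DD f L L'`, `N₀ = N ⊓ D = N ⊓ centralizer L'` as in `InhA`; by `inhD` the
right-hand side is `D.map f`. `N₀` is an `l`-group, `L` normalises it and
`N₀ ⊓ centralizer L ≤ CC L L'`, so by `rk2` `RB l b N₀` with `b = rkM l c n`, and so
`(Phi l N₀).relIndex N₀ ≤ b` (the definition of `RB` with `U = N₀`, `V = Phi l N₀`, `phi_le`,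
`phi_pow`, `phi_comm`).
Let `T ≤ D` be a Sylow `s`-subgroup of `D` and `T₀ = T ⊓ centralizer N₀`.
(1) `T₀ ≤ CC L L'`: let `x ∈ T₀`, `y ∈ L` and `u = x * y * x⁻¹ * y⁻¹`; `u ∈ N₀` (as in `InhA`), so
`x` commutes with `u`, `x y x⁻¹ = u y` and by induction `x ^ k y x ^ (-k) = u ^ k y`. `x` is an
`s`-element, so `u ^ (s ^ a) = 1` for some `a`; `u` is an `l`-element, `s ≠ l`, so `u = 1`. So `x`
centralises `L`, and `L'` as `x ∈ D`. Hence `RB s c' T₀`.
(2) `T₀.relIndex T ≤ b !`: `T` normalises `N₀` (`N₀` is normal in `D`) and `Phi l N₀`, so it acts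
on the set `N₀ / Phi l N₀` of at most `b` elements; the kernel `T₁` of this action satisfies
`⁅x, w⁆ ∈ Phi l N₀` for `w ∈ N₀`, `x ∈ T₁`, so by `phi_cop` (`x` is an `s`-element, `s ≠ l`) `T₁`
centralises `N₀`; so `T₁ ≤ T₀` and `T₀.relIndex T ≤ T₁.relIndex T ≤ b !`
(`Nat.card (Equiv.Perm _)`).
By `rb_index` `RB s (b ! * c') T`, by `rb_sylow` for `D`, by `rb_map` for `D.map f`.
-/

namespace H78TP

open Subgroup
open scoped commutatorElement

section inhBaux

variable {F F' : Type*} [Group F] [Group F']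

private theorem ihb_syl [Finite F] (D : Subgroup F) (s : ℕ) [Fact s.Prime] :
    ∃ T : Subgroup F, T ≤ D ∧ IsPGroup s T ∧ ¬ s ∣ T.relIndex D := by
  let P : Sylow s D := default
  refine ⟨(P : Subgroup D).map D.subtype, ?_, ?_, ?_⟩
  · exact Subgroup.map_subtype_le _
  · exact P.isPGroup'.map _
  · have h1 : ((P : Subgroup D).map D.subtype).relIndex D = (P : Subgroup D).index := by
      rw [Subgroup.relIndex, Subgroup.subgroupOf,
        Subgroup.comap_map_eq_self_of_injective D.subtype_injective]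
    rw [h1]
    exact P.not_dvd_index

private theorem ihb_DD {f : F →* F'} {L L' : Subgroup F} {g : F} :
    g ∈ DD f L L' ↔ (∀ y ∈ L', y * g = g * y) ∧ ∀ y ∈ L, f y * f g = f g * f y := by
  unfold DD
  rw [Subgroup.mem_inf, Subgroup.mem_comap, Subgroup.mem_centralizer_iff,
    Subgroup.mem_centralizer_iff]
  constructor
  · rintro ⟨h1, h2⟩
    exact ⟨fun y hy => h1 y hy, fun y hy => h2 (f y) ⟨y, hy, rfl⟩⟩
  · rintro ⟨h1, h2⟩
    refine ⟨fun y hy => h1 y hy, ?_⟩
    rintro _ ⟨y, hy, rfl⟩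
    exact h2 y hy

/-- a finite group acting on the cosets of `V` in `U` by conjugation -/
private theorem ihb_act [Finite F] (U V T T₀ : Subgroup F) (b : ℕ) (hb : V.relIndex U ≤ b)
    (hU : ∀ x ∈ T, ∀ w ∈ U, x * w * x⁻¹ ∈ U) (hV : ∀ x ∈ T, ∀ w ∈ V, x * w * x⁻¹ ∈ V)
    (hT₀ : ∀ x ∈ T, (∀ w ∈ U, x * w * x⁻¹ * w⁻¹ ∈ V) → x ∈ T₀) :
    T₀.relIndex T ≤ b.factorial := by
  classical
  let Q := U ⧸ V.subgroupOf U
  let act : T → U → U := fun x w => ⟨x.1 * w.1 * x.1⁻¹, hU x.1 x.2 w.1 w.2⟩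
  have hact : ∀ x : T, ∀ w w' : U, (QuotientGroup.leftRel (V.subgroupOf U)) w w' →
      (QuotientGroup.leftRel (V.subgroupOf U)) (act x w) (act x w') := by
    intro x w w' h
    rw [QuotientGroup.leftRel_apply] at h ⊢
    rw [Subgroup.mem_subgroupOf] at h ⊢
    have h1 := hV x.1 x.2 _ h
    have h2 : ((((act x w)⁻¹ * act x w' : U)) : F) = x.1 * ((w⁻¹ * w' : U) : F) * x.1⁻¹ := by
      show (x.1 * w.1 * x.1⁻¹)⁻¹ * (x.1 * w'.1 * x.1⁻¹) = x.1 * (w.1⁻¹ * w'.1) * x.1⁻¹
      group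
    rw [h2]
    exact h1
  letI : MulAction T Q :=
    { smul := fun x q => Quotient.map' (act x) (hact x) q
      one_smul := by
        intro q
        induction q using Quotient.inductionOn' with
        | h w =>
          show Quotient.mk'' (act 1 w) = Quotient.mk'' w
          congr 1
          apply Subtype.ext
          show (1 : F) * w.1 * (1 : F)⁻¹ = w.1
          group
      mul_smul := by
        intro x y q
        induction q using Quotient.inductionOn' with
        | h w =>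
          show Quotient.mk'' (act (x * y) w) = Quotient.mk'' (act x (act y w))
          congr 1
          apply Subtype.ext
          show (x.1 * y.1) * w.1 * (x.1 * y.1)⁻¹ = x.1 * (y.1 * w.1 * y.1⁻¹) * x.1⁻¹
          group }
  have hsm : ∀ (x : T) (w : U), x • (QuotientGroup.mk w : Q) = QuotientGroup.mk (act x w) :=
    fun x w => rfl
  let φ := MulAction.toPermHom T Q
  have hfinQ : Finite Q := inferInstance
  have hker : φ.ker ≤ T₀.subgroupOf T := by
    intro x hx
    rw [Subgroup.mem_subgroupOf]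
    apply hT₀ x.1 x.2
    intro w hw
    rw [MonoidHom.mem_ker] at hx
    have h1 : x • (QuotientGroup.mk (⟨w, hw⟩⁻¹ : U) : Q) = QuotientGroup.mk (⟨w, hw⟩⁻¹ : U) := by
      have h2 := congrArg (fun σ : Equiv.Perm Q => σ (QuotientGroup.mk (⟨w, hw⟩⁻¹ : U) : Q)) hx
      simpa [φ] using h2
    rw [hsm, QuotientGroup.eq, Subgroup.mem_subgroupOf] at h1
    have h3 : (((act x (⟨w, hw⟩⁻¹ : U))⁻¹ * (⟨w, hw⟩⁻¹ : U) : U) : F)
        = x.1 * w * x.1⁻¹ * w⁻¹ := by
      show (x.1 * w⁻¹ * x.1⁻¹)⁻¹ * w⁻¹ = x.1 * w * x.1⁻¹ * w⁻¹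
      group
    rw [h3] at h1
    exact h1
  have h1 : T₀.relIndex T ≤ φ.ker.index := by
    rw [Subgroup.relIndex]
    exact Nat.le_of_dvd (Nat.pos_of_ne_zero Subgroup.FiniteIndex.index_ne_zero)
      (Subgroup.index_dvd_of_le hker)
  have h2 : φ.ker.index ≤ Nat.card (Equiv.Perm Q) := by
    rw [Subgroup.index_ker]
    exact Subgroup.card_le_card_group _
  have h3 : Nat.card (Equiv.Perm Q) = (Nat.card Q).factorial := Nat.card_perm
  have h4 : Nat.card Q = V.relIndex U := rfl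
  rw [h3, h4] at h2
  exact h1.trans (h2.trans (Nat.factorial_le hb))

end inhBaux

theorem inhB {F F' : Type*} [Group F] [Finite F] [Group F'] (f : F →* F')
    (hf : Function.Surjective f) (l r s n c c' : ℕ) [Fact l.Prime] [Fact r.Prime] [Fact s.Prime]
    (hne : l ≠ r) (hs : s ≠ l) (L L' : Subgroup F) (hL : IsPGroup l L) (hL' : IsPGroup r L')
    (hcomm : ∀ x ∈ L, ∀ y ∈ L', x * y = y * x) (hn : Nat.card L ≤ n)
    (hN : IsPGroup l f.ker) (h : RB l c (CC L L')) (h' : RB s c' (CC L L')) :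
    RB s ((rkM l c n).factorial * c') (CC (L.map f) (L'.map f)) := by
  have hlp : l.Prime := Fact.out
  have hrp : r.Prime := Fact.out
  have hsp : s.Prime := Fact.out
  have hNr : ¬ r ∣ Nat.card f.ker := by
    intro hd
    obtain ⟨k, hk⟩ := IsPGroup.iff_card.1 hN
    rw [hk] at hd
    exact hne ((Nat.prime_dvd_prime_iff_eq hrp hlp).1 (hrp.dvd_of_dvd_pow hd)).symm
  rw [← inhD f hf r L L' hL' hNr]
  set D := DD f L L' with hD
  set N₀ := f.ker ⊓ D with hN₀
  have hmemN₀ : ∀ x, x ∈ N₀ ↔ f x = 1 ∧ ∀ y ∈ L', y * x = x * y := by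
    intro x
    rw [hN₀, Subgroup.mem_inf, MonoidHom.mem_ker, hD, ihb_DD]
    constructor
    · rintro ⟨h1, h2, _⟩
      exact ⟨h1, h2⟩
    · rintro ⟨h1, h2⟩
      exact ⟨h1, h2, fun y _ => by rw [h1, mul_one, one_mul]⟩
  have hN₀l : IsPGroup l N₀ := hN.to_le inf_le_left
  have hconj : ∀ t : F, (∀ y ∈ L', y * t = t * y) → ∀ x ∈ N₀, t * x * t⁻¹ ∈ N₀ := by
    intro t ht x hx
    rw [hmemN₀] at hx ⊢
    refine ⟨by rw [map_mul, map_mul, hx.1, mul_one, ← map_mul, mul_inv_cancel, map_one],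
      fun y hy => ?_⟩
    have c1 : Commute y t := ht y hy
    have c2 : Commute y x := hx.2 y hy
    exact ((c1.mul_right c2).mul_right c1.inv_right).eq
  have hRBN : RB l (rkM l c n) N₀ := by
    refine rk2 l c n N₀ L hN₀l hL hn (fun t ht x hx => hconj t (fun y hy =>
      (hcomm t ht y hy).symm) x hx) (rb_mono ?_ h)
    intro x hx
    obtain ⟨hx1, hx2⟩ := Subgroup.mem_inf.1 hx
    refine Subgroup.mem_inf.2 ⟨hx2, ?_⟩
    rw [Subgroup.mem_centralizer_iff]
    exact fun y hy => ((hmemN₀ x).1 hx1).2 y hy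
  have hPhi : (Phi l N₀).relIndex N₀ ≤ rkM l c n :=
    hRBN N₀ (Phi l N₀) (phi_le l N₀) le_rfl (fun x hx => phi_pow l N₀ hx)
      (fun x hx y hy => phi_comm l N₀ hx hy)
  obtain ⟨T, hTD, hTs, hTi⟩ := ihb_syl D s
  have hTc : ∀ x ∈ T, ∀ y ∈ L', y * x = x * y := fun x hx => (ihb_DD.1 (hTD hx)).1
  have hTf : ∀ x ∈ T, ∀ y ∈ L, f y * f x = f x * f y := fun x hx => (ihb_DD.1 (hTD hx)).2
  have hTel : ∀ x ∈ T, ∃ k, x ^ (s ^ k) = 1 := by
    intro x hx
    obtain ⟨k, hk⟩ := hTs ⟨x, hx⟩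
    exact ⟨k, by simpa using congrArg Subtype.val hk⟩
  set T₀ := T ⊓ centralizer (N₀ : Set F) with hT₀
  have h1 : T₀ ≤ CC L L' := by
    intro x hx
    obtain ⟨hxT, hxN⟩ := Subgroup.mem_inf.1 hx
    rw [Subgroup.mem_centralizer_iff] at hxN
    refine Subgroup.mem_inf.2 ⟨?_, ?_⟩
    · rw [Subgroup.mem_centralizer_iff]
      intro y hy
      set u := x * y * x⁻¹ * y⁻¹ with hu
      have huN : u ∈ N₀ := by
        rw [hmemN₀]
        refine ⟨?_, fun z hz => ?_⟩
        · rw [hu, map_mul, map_mul, map_mul, ← hTf x hxT y hy, map_inv, map_inv]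
          group
        · have c1 : Commute z x := hTc x hxT z hz
          have c2 : Commute z y := (hcomm y hy z hz).symm
          exact (((c1.mul_right c2).mul_right c1.inv_right).mul_right c2.inv_right).eq
      have hxu : Commute u x := hxN u huN
      have hit : ∀ k : ℕ, x ^ k * y * (x ^ k)⁻¹ = u ^ k * y := by
        intro k
        induction k with
        | zero => simp
        | succ k ih =>
          have e1 : x * y * x⁻¹ = u * y := by rw [hu]; group
          calc x ^ (k + 1) * y * (x ^ (k + 1))⁻¹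
              = x * (x ^ k * y * (x ^ k)⁻¹) * x⁻¹ := by rw [pow_succ' x k]; group
            _ = x * (u ^ k * y) * x⁻¹ := by rw [ih]
            _ = (x * u ^ k) * y * x⁻¹ := by group
            _ = (u ^ k * x) * y * x⁻¹ := by rw [(hxu.pow_left k).eq]
            _ = u ^ k * (x * y * x⁻¹) := by group
            _ = u ^ k * (u * y) := by rw [e1]
            _ = u ^ (k + 1) * y := by rw [pow_succ]; group
      obtain ⟨a, ha⟩ := hTel x hxT
      have hu1 : u ^ (s ^ a) = 1 := by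
        have := hit (s ^ a)
        rw [ha, inv_one, mul_one, one_mul] at this
        exact (mul_eq_right.1 this.symm)
      obtain ⟨k, hk⟩ := hN₀l ⟨u, huN⟩
      have hu2 : u ^ (l ^ k) = 1 := by simpa using congrArg Subtype.val hk
      have hcop : Nat.Coprime (s ^ a) (l ^ k) :=
        Nat.Coprime.pow _ _ ((Nat.coprime_primes hsp hlp).2 hs)
      have hu3 : u = 1 := by
        have h3 : orderOf u ∣ s ^ a := orderOf_dvd_of_pow_eq_one hu1
        have h4 : orderOf u ∣ l ^ k := orderOf_dvd_of_pow_eq_one hu2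
        have h5 : orderOf u = 1 := Nat.eq_one_of_dvd_coprimes hcop h3 h4
        exact orderOf_eq_one_iff.1 h5
      have e2 : x * y = u * (y * x) := by rw [hu]; group
      rw [hu3, one_mul] at e2
      exact e2.symm
    · rw [Subgroup.mem_centralizer_iff]
      exact fun y hy => hTc x hxT y hy
  have h2 : T₀.relIndex T ≤ (rkM l c n).factorial := by
    refine ihb_act N₀ (Phi l N₀) T T₀ (rkM l c n) hPhi (fun x hx w hw =>
      hconj x (hTc x hx) w hw) (fun x hx w hw => phi_conj l N₀ x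
      (fun w hw => hconj x (hTc x hx) w hw) w hw) (fun x hx hw => Subgroup.mem_inf.2 ⟨hx, ?_⟩)
    rw [Subgroup.mem_centralizer_iff]
    intro w hwN
    exact (phi_cop l s hs N₀ hN₀l x (hTel x hx) (fun w hw => hconj x (hTc x hx) w hw)
      (fun w hw' => by rw [commutatorElement_def]; exact hw w hw') w hwN).symm
  have h3 : RB s ((rkM l c n).factorial * c') T :=
    rb_index s c' _ T T₀ inf_le_left h2 (rb_mono h1 h')
  have h4 : RB s ((rkM l c n).factorial * c') D := rb_sylow s _ D T hTD hTs hTi h3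
  exact rb_map f s _ D h4

end H78TP
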