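import Pool.Agent.H78.TP.InhA
import Pool.Agent.H78.TP.InhB

/-!
[H78 TP INHQ] Inheritance for a kernel which is an `l`-group (20-30 min).

PROOF. Let `c = j * l ^ m`, `b = rkM l c n`, so `inhJ l n m j = b ! * j + b`. Let `s` be prime. If
`s = l`: `inhA` gives `RB l b`, and `b ≤ (b ! * j + b) * l ^ m` (`rb_le`). If `s ≠ l`: `inhB` with
`c' = j * s ^ m` gives `RB s (b ! * (j * s ^ m))`, and
`b ! * (j * s ^ m) ≤ (b ! * j + b) * s ^ m`.
`kj_symm`: `inf_comm`. `pr_map`: images of `p`-groups are `p`-groups, `Nat.card` of an image is at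
most `Nat.card`.
-/

namespace H78TP

open Subgroup
open scoped commutatorElement

theorem kj_symm {F : Type*} [Group F] {m j : ℕ} {P R : Subgroup F} (h : KJ m j P R) :
    KJ m j R P := by
  intro s hs
  have := h s hs
  rwa [CC, inf_comm] at this

theorem pr_map {F F' : Type*} [Group F] [Finite F] [Group F'] (f : F →* F') {p q n : ℕ}
    {P R : Subgroup F} (h : PR p q n P R) : PR p q n (P.map f) (R.map f) := by
  have key : ∀ X : Subgroup F, Nat.card X ≤ n → Nat.card (X.map f) ≤ n := by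
    intro X hX
    refine le_trans ?_ hX
    exact Nat.card_le_card_of_surjective (f.subgroupMap X) (f.subgroupMap_surjective X)
  refine ⟨h.hP.map f, h.hR.map f, ?_, key P h.cP, key R h.cR⟩
  rintro _ ⟨x, hx, rfl⟩ _ ⟨y, hy, rfl⟩
  rw [← map_mul, ← map_mul, h.comm x hx y hy]

theorem inhQ {F F' : Type*} [Group F] [Finite F] [Group F'] (f : F →* F')
    (hf : Function.Surjective f) (l r n m j : ℕ) [Fact l.Prime] [Fact r.Prime] (hne : l ≠ r)
    (L L' : Subgroup F) (hL : IsPGroup l L) (hL' : IsPGroup r L')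
    (hcomm : ∀ x ∈ L, ∀ y ∈ L', x * y = y * x) (hn : Nat.card L ≤ n)
    (hN : IsPGroup l f.ker) (h : KJ m j L L') :
    KJ m (inhJ l n m j) (L.map f) (L'.map f) := by
  intro s hs
  have hl : l.Prime := Fact.out
  have : Fact s.Prime := ⟨hs⟩
  have hRB : RB l (j * l ^ m) (CC L L') := h l hl
  by_cases hsl : s = l
  · subst hsl
    refine rb_le ?_ (inhA f hf s r n (j * s ^ m) hne L L' hL hL' hcomm hn hN hRB)
    have h1 : 1 ≤ s ^ m := Nat.one_le_pow _ _ hs.pos
    unfold inhJ
    exact (Nat.le_add_left _ _).trans (Nat.le_mul_of_pos_right _ h1)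
  · refine rb_le ?_ (inhB f hf l r s n (j * l ^ m) (j * s ^ m) hne hsl L L' hL hL' hcomm hn hN
      hRB (h s hs))
    unfold inhJ
    rw [← mul_assoc]
    exact Nat.mul_le_mul_right _ (Nat.le_add_right _ _)

end H78TP
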