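import Pool.Agent.H78.TP.InqN

/-!
[H78 TP INQ] Inheritance for a kernel of height `h` (30-45 min).

PROOF. Induction on `h` (for all `F`, `f`, `j`). `h = 0`: `f.ker = lns f.ker 0 = ⊥`, so `f` is
bijective; `CC (P.map f) (R.map f) = (CC P R).map f` for an injective surjective `f`, and
`rb_map`; `inH p q n m 0 j = j`. `h + 1`: let `N = f.ker` and `N₁ = lns N h`, normal in `F`
(`lns_normal`), with `nres N₁ = lns N (h + 1) = ⊥`, so `gam N₁ c = ⊥` for some `c`
(`nres_eq_bot_iff`). Let `π : F →* F ⧸ N₁` (kernel `N₁`, `QuotientGroup.ker_mk'`). By `inqN`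
`KJ m (inN p q n m j) (P.map π) (R.map π)`. `f = f₁ ∘ π` with `f₁ : F ⧸ N₁ →* F'` surjective
(`QuotientGroup.lift`), `f₁.ker = N.map π`, and `lns (N.map π) h = (lns N h).map π = N₁.map π = ⊥`
(`lns_map`). By induction for `f₁` and `pr_map`
`KJ m (inH p q n m h (inN p q n m j)) ((P.map π).map f₁) ((R.map π).map f₁)`.
-/

namespace H78TP

open Subgroup
open scoped commutatorElement

private theorem inq_aux (p q n m : ℕ) [Fact p.Prime] [Fact q.Prime] (hne : p ≠ q) (h : ℕ) :
    ∀ (j : ℕ) {F F' : Type*} [Group F] [Finite F] [Group F'] (f : F →* F')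
    (_ : Function.Surjective f) (P R : Subgroup F), PR p q n P R → lns f.ker h = ⊥ →
    KJ m j P R → KJ m (inH p q n m h j) (P.map f) (R.map f) := by
  induction h with
  | zero =>
    intro j F F' _ _ _ f hf P R hPR hh hK
    have hk : f.ker = ⊥ := hh
    have hcard : Nat.card f.ker = 1 := by
      rw [hk]
      exact Subgroup.card_bot
    have h1 := inhC f hf p q P R hPR.hP hPR.hR hPR.comm
      (by rw [hcard]; exact (Fact.out : p.Prime).one_lt.ne' ∘ Nat.dvd_one.1)
      (by rw [hcard]; exact (Fact.out : q.Prime).one_lt.ne' ∘ Nat.dvd_one.1)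
    intro s hs
    rw [h1]
    exact rb_map f s _ _ (hK s hs)
  | succ h ih =>
    intro j F F' _ _ _ f hf P R hPR hh hK
    have hN : (lns f.ker h).Normal := lns_normal inferInstance h
    have hle : lns f.ker h ≤ f.ker := lns_le _ _
    have hker : (QuotientGroup.mk' (lns f.ker h)).ker = lns f.ker h := QuotientGroup.ker_mk' _
    obtain ⟨c, hc⟩ := (nres_eq_bot_iff (lns f.ker h)).1 hh
    have h1 := inqN (QuotientGroup.mk' (lns f.ker h)) (QuotientGroup.mk'_surjective _) p q n m j
      hne P R hPR c (by rw [hker]; exact hc) hK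
    have hcomp : (QuotientGroup.lift (lns f.ker h) f hle).comp (QuotientGroup.mk' (lns f.ker h)) =
        f := QuotientGroup.lift_comp_mk' _ _ _
    have hsurj : Function.Surjective (QuotientGroup.lift (lns f.ker h) f hle) := by
      intro y
      obtain ⟨x, rfl⟩ := hf y
      exact ⟨QuotientGroup.mk' (lns f.ker h) x, rfl⟩
    have h2 := ih (inN p q n m j) (QuotientGroup.lift (lns f.ker h) f hle) hsurj
      (P.map (QuotientGroup.mk' (lns f.ker h))) (R.map (QuotientGroup.mk' (lns f.ker h)))
      (pr_map _ hPR) (by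
        rw [QuotientGroup.ker_lift, ← lns_map, Subgroup.map_eq_bot_iff, hker]) h1
    rw [Subgroup.map_map, Subgroup.map_map, hcomp] at h2
    exact h2

theorem inq {F F' : Type*} [Group F] [Finite F] [Group F'] (f : F →* F')
    (hf : Function.Surjective f) (p q n m h j : ℕ) [Fact p.Prime] [Fact q.Prime] (hne : p ≠ q)
    (P R : Subgroup F) (hPR : PR p q n P R) (hh : lns f.ker h = ⊥)
    (hK : KJ m j P R) : KJ m (inH p q n m h j) (P.map f) (R.map f) :=
  inq_aux p q n m hne h j f hf P R hPR hh hK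

end H78TP
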