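import Pool.Agent.H78.TP.Cfp

/-!
[H78 TP INHC] Lifting the centraliser when the kernel is prime to `p` and `q` (30 min).

PROOF. `≥` is clear. `≤`: let `g'` centralise `P.map f` and `R.map f`, `g' = f g₀`. By `cfp`
(`S = P`, `N = f.ker`) there is `y ∈ f.ker` such that `g₁ = y * g₀` commutes with `P`. Let
`N₁ = f.ker ⊓ centralizer P`; its order divides `|f.ker|`, so it is prime to `q`. `R` normalises
`N₁` (it commutes with `P`), and for `x ∈ R` `x * g₁ * x⁻¹ * g₁⁻¹ ∈ N₁` (it is in `f.ker` because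
`f g₁ = g'` commutes with `f x`, and it commutes with `P`). By `cfp` (`S = R`, `N = N₁`) there is
`y₁ ∈ N₁` such that `g = y₁ * g₁` commutes with `R`; it also commutes with `P`, and `f g = g'`.
-/

namespace H78TP

open Subgroup
open scoped commutatorElement

theorem inhC {F F' : Type*} [Group F] [Finite F] [Group F'] (f : F →* F')
    (hf : Function.Surjective f) (p q : ℕ) [Fact p.Prime] [Fact q.Prime] (P R : Subgroup F)
    (hP : IsPGroup p P) (hR : IsPGroup q R) (hcomm : ∀ x ∈ P, ∀ y ∈ R, x * y = y * x)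
    (hNp : ¬ p ∣ Nat.card f.ker) (hNq : ¬ q ∣ Nat.card f.ker) :
    CC (P.map f) (R.map f) = (CC P R).map f := by
  apply le_antisymm
  · intro g' hg'
    obtain ⟨g0, rfl⟩ := hf g'
    have hP' : ∀ x ∈ P, f x * f g0 = f g0 * f x := fun x hx =>
      Subgroup.mem_centralizer_iff.1 hg'.1 (f x) ⟨x, hx, rfl⟩
    have hR' : ∀ x ∈ R, f x * f g0 = f g0 * f x := fun x hx =>
      Subgroup.mem_centralizer_iff.1 hg'.2 (f x) ⟨x, hx, rfl⟩
    obtain ⟨y, hy, hy2⟩ := cfp p P f.ker hP hNp
      (fun x _ y hy => (MonoidHom.normal_ker f).conj_mem y hy x) g0 (fun x hx => by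
        rw [MonoidHom.mem_ker, map_mul, map_mul, map_mul, map_inv, map_inv, hP' x hx,
          mul_inv_cancel_right, mul_inv_cancel])
    have hfy : f y = 1 := hy
    have hfg1 : f (y * g0) = f g0 := by rw [map_mul, hfy, one_mul]
    have hN1q : ¬ q ∣ Nat.card (f.ker ⊓ centralizer (P : Set F) : Subgroup F) := fun h =>
      hNq (h.trans (Subgroup.card_dvd_of_le inf_le_left))
    have hcen : ∀ z : F, z ∈ centralizer (P : Set F) ↔ ∀ x ∈ P, x * z = z * x := fun z =>
      Subgroup.mem_centralizer_iff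
    have hRP : ∀ x ∈ R, x ∈ centralizer (P : Set F) := fun x hx =>
      (hcen x).2 fun z hz => hcomm z hz x hx
    let T : Subgroup F := centralizer (P : Set F)
    have hg1P : y * g0 ∈ centralizer (P : Set F) := (hcen _).2 hy2
    obtain ⟨y1, hy1, hy3⟩ := cfp q R (f.ker ⊓ centralizer (P : Set F)) hR hN1q
      (fun x hx z hz => ⟨(MonoidHom.normal_ker f).conj_mem z hz.1 x,
        T.mul_mem (T.mul_mem (hRP x hx) hz.2) (T.inv_mem (hRP x hx))⟩) (y * g0) (fun x hx => by
        refine ⟨?_, T.mul_mem (T.mul_mem (T.mul_mem (hRP x hx) hg1P) (T.inv_mem (hRP x hx)))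
          (T.inv_mem hg1P)⟩
        show f (x * (y * g0) * x⁻¹ * (y * g0)⁻¹) = 1
        rw [map_mul, map_mul, map_mul, map_inv, map_inv, hfg1, hR' x hx,
          mul_inv_cancel_right, mul_inv_cancel])
    have hfy1 : f y1 = 1 := hy1.1
    refine ⟨y1 * (y * g0), ⟨T.mul_mem hy1.2 hg1P, Subgroup.mem_centralizer_iff.2 hy3⟩, ?_⟩
    rw [map_mul, hfy1, one_mul, hfg1]
  · rintro _ ⟨g, hg, rfl⟩
    constructor
    · show f g ∈ centralizer (((P.map f : Subgroup F') : Set F'))
      rw [Subgroup.mem_centralizer_iff]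
      rintro _ ⟨x, hx, rfl⟩
      rw [← map_mul, ← map_mul, Subgroup.mem_centralizer_iff.1 hg.1 x hx]
    · show f g ∈ centralizer (((R.map f : Subgroup F') : Set F'))
      rw [Subgroup.mem_centralizer_iff]
      rintro _ ⟨x, hx, rfl⟩
      rw [← map_mul, ← map_mul, Subgroup.mem_centralizer_iff.1 hg.2 x hx]

end H78TP
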