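import Pool.Agent.H78.TP.InhQ
import Pool.Agent.H78.TP.InhC
import Pool.Agent.H78.TP.NilSyl

/-!
[H78 TP INQN] Inheritance for a nilpotent kernel (60 min).

PROOF. `N = f.ker`. (1) By `nilSyl` there is a normal `p`-subgroup `S ≤ N` with
`¬ p ∣ S.relIndex N`. Let `π₁ : F →* F ⧸ S` and `f₁ : F ⧸ S →* F'` with `f = f₁ ∘ π₁`
(`QuotientGroup.lift`); `f₁` is surjective with kernel `N₁ = N.map π₁` (order `S.relIndex N`, prime
to `p`), and `gam N₁ c = ⊥` (`gam_map`). `inhQ` with `l = p`, `r = q`, `L = P`, `L' = R` gives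
`KJ m (inhJ p n m j) (P.map π₁) (R.map π₁)`.
(2) In `F₁ = F ⧸ S` by `nilSyl` there is a normal `q`-subgroup `S₁ ≤ N₁` with
`¬ q ∣ S₁.relIndex N₁`. Let `π₂ : F₁ →* F₁ ⧸ S₁`, `f₂ : F₁ ⧸ S₁ →* F'`. `inhQ` with `l = q`,
`r = p`, `L = R.map π₁`, `L' = P.map π₁` (and `kj_symm`) gives
`KJ m (inhJ q n m (inhJ p n m j))` for the images in `F₁ ⧸ S₁`, i.e. `inN p q n m j`.
(3) The kernel of `f₂` is `N₁.map π₂`, its order is prime to `p` (it divides `|N₁|`) and to `q`.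
So by `inhC` and `rb_map` `KJ` with the same constant holds for the images under `f₂`, and
`(P.map π₁).map π₂).map f₂ = P.map f` (`Subgroup.map_map`).
-/

namespace H78TP

open Subgroup
open scoped commutatorElement

private theorem inqn_ker {F F' : Type*} [Group F] [Group F'] (f : F →* F') (S : Subgroup F)
    [hS : S.Normal] (hle : S ≤ f.ker) :
    (QuotientGroup.lift S f hle).ker = f.ker.map (QuotientGroup.mk' S) := by
  ext x
  obtain ⟨g, rfl⟩ := QuotientGroup.mk'_surjective S x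
  constructor
  · intro hx
    refine ⟨g, ?_, rfl⟩
    rw [SetLike.mem_coe, MonoidHom.mem_ker]
    rw [MonoidHom.mem_ker] at hx
    simpa using hx
  · rintro ⟨g', hg', hgg⟩
    rw [← hgg, MonoidHom.mem_ker]
    rw [SetLike.mem_coe, MonoidHom.mem_ker] at hg'
    simpa using hg'

private theorem inqn_card {F F' : Type*} [Group F] [Finite F] [Group F'] (f : F →* F')
    (S : Subgroup F) [hS : S.Normal] (hle : S ≤ f.ker) :
    Nat.card (QuotientGroup.lift S f hle).ker = S.relIndex f.ker := by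
  rw [inqn_ker]
  have h := Subgroup.relIndex_ker (QuotientGroup.mk' S) (K := f.ker)
  rw [QuotientGroup.ker_mk'] at h
  exact h.symm

theorem inqN {F F' : Type*} [Group F] [Finite F] [Group F'] (f : F →* F')
    (hf : Function.Surjective f) (p q n m j : ℕ) [Fact p.Prime] [Fact q.Prime] (hne : p ≠ q)
    (P R : Subgroup F) (hPR : PR p q n P R) (c : ℕ) (hc : gam f.ker c = ⊥)
    (h : KJ m j P R) : KJ m (inN p q n m j) (P.map f) (R.map f) := by
  obtain ⟨S, hSn, hSN, hSp, hSi⟩ := nilSyl f.ker (MonoidHom.normal_ker f) c hc p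
  set π₁ : F →* F ⧸ S := QuotientGroup.mk' S with hπ₁
  set f₁ : F ⧸ S →* F' := QuotientGroup.lift S f hSN with hf₁
  have hf₁s : Function.Surjective f₁ := by
    intro y
    obtain ⟨x, rfl⟩ := hf y
    exact ⟨π₁ x, rfl⟩
  have hker1 : f₁.ker = f.ker.map π₁ := inqn_ker f S hSN
  have hcard1 : Nat.card f₁.ker = S.relIndex f.ker := inqn_card f S hSN
  have hgam1 : gam f₁.ker c = ⊥ := by
    rw [hker1, ← gam_map, hc, Subgroup.map_bot]
  have hPR1 : PR p q n (P.map π₁) (R.map π₁) := pr_map π₁ hPR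
  have hkπ₁ : IsPGroup p π₁.ker := by
    rw [hπ₁, QuotientGroup.ker_mk']
    exact hSp
  have h1 : KJ m (inhJ p n m j) (P.map π₁) (R.map π₁) :=
    inhQ π₁ (QuotientGroup.mk'_surjective S) p q n m j hne P R hPR.hP hPR.hR hPR.comm hPR.cP
      hkπ₁ h
  obtain ⟨S₁, hS₁n, hS₁N, hS₁q, hS₁i⟩ := nilSyl f₁.ker (MonoidHom.normal_ker f₁) c hgam1 q
  set π₂ : F ⧸ S →* (F ⧸ S) ⧸ S₁ := QuotientGroup.mk' S₁ with hπ₂
  set f₂ : (F ⧸ S) ⧸ S₁ →* F' := QuotientGroup.lift S₁ f₁ hS₁N with hf₂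
  have hf₂s : Function.Surjective f₂ := by
    intro y
    obtain ⟨x, rfl⟩ := hf₁s y
    exact ⟨π₂ x, rfl⟩
  have hker2 : f₂.ker = f₁.ker.map π₂ := inqn_ker f₁ S₁ hS₁N
  have hcard2 : Nat.card f₂.ker = S₁.relIndex f₁.ker := inqn_card f₁ S₁ hS₁N
  have hkπ₂ : IsPGroup q π₂.ker := by
    rw [hπ₂, QuotientGroup.ker_mk']
    exact hS₁q
  have hPR2 : PR p q n ((P.map π₁).map π₂) ((R.map π₁).map π₂) := pr_map π₂ hPR1
  have h2 : KJ m (inhJ q n m (inhJ p n m j)) ((R.map π₁).map π₂) ((P.map π₁).map π₂) :=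
    inhQ π₂ (QuotientGroup.mk'_surjective S₁) q p n m (inhJ p n m j) hne.symm (R.map π₁)
      (P.map π₁) hPR1.hR hPR1.hP (fun x hx y hy => (hPR1.comm y hy x hx).symm) hPR1.cR
      hkπ₂ (kj_symm h1)
  have h3 := kj_symm h2
  have hNq : ¬ q ∣ Nat.card f₂.ker := by
    rw [hcard2]
    exact hS₁i
  have hNp : ¬ p ∣ Nat.card f₂.ker := by
    intro hd
    apply hSi
    rw [← hcard1]
    refine hd.trans ?_
    rw [hcard2]
    exact Subgroup.relIndex_dvd_card S₁ f₁.ker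
  have hCC := inhC f₂ hf₂s p q ((P.map π₁).map π₂) ((R.map π₁).map π₂) hPR2.hP hPR2.hR
    hPR2.comm hNp hNq
  have hcomp : (f₂.comp π₂).comp π₁ = f := by
    ext x
    rfl
  have hmap : ∀ X : Subgroup F, ((X.map π₁).map π₂).map f₂ = X.map f := by
    intro X
    rw [Subgroup.map_map, Subgroup.map_map, hcomp]
  rw [hmap, hmap] at hCC
  intro s hs
  rw [hCC]
  exact rb_map f₂ s _ _ (h3 s hs)

end H78TP
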