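import Pool.Agent.H78.TP.PPr

/-!
[H78 TP OPF] Normal `p'`-subgroups have bounded height (20-30 min).

PROOF. Let `N` be a normal `p'`-subgroup of `F` and `D = N ⊓ centralizer P`, soluble. `R` normalises
`D` (`N` is normal, `R` commutes with `P`), and `D ⊓ centralizer R ≤ CC P R`, so `RB` (`H.kj`,
`rb_mono`). `pPr` gives `lns D (hPP q n m j) = ⊥`, and `thP` (for `K := N`, `P`) gives the claim.
-/

namespace H78TP

open Subgroup
open scoped commutatorElement

universe u

theorem opF (p q n m j : ℕ) [Fact p.Prime] [Fact q.Prime] {F : Type u} [Group F] [Finite F]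
    (P R : Subgroup F) (H : Hyp p q n m j F P R) : OpT p (hTM p n (hPP q n m j)) F := by
  intro N hN hpN
  have hs := H.sol
  have hsub : ∀ X : Subgroup F, Group.IsSolvable X := fun X =>
    Group.isSolvable_of_isSolvable_injective X.subtype_injective
  refine thP p n N P (hsub N) hpN H.pr.hP H.pr.cP (fun x _ y hy => hN.conj_mem y hy x) _ ?_
  refine pPr q n m j (N ⊓ centralizer (P : Set F)) R (hsub _) H.pr.hR H.pr.cR ?_ ?_
  · intro x hx y hy
    refine ⟨hN.conj_mem y hy.1 x, ?_⟩
    refine mem_centralizer_iff.2 fun z hz => ?_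
    have h1 := mem_centralizer_iff.1 hy.2 z hz
    have h2 := H.pr.comm z hz x hx
    calc z * (x * y * x⁻¹) = (z * x) * y * x⁻¹ := by group
      _ = x * (z * y) * x⁻¹ := by rw [h2]; group
      _ = x * y * (x⁻¹ * (x * z)) * x⁻¹ := by rw [h1]; group
      _ = x * y * (x⁻¹ * (z * x)) * x⁻¹ := by rw [h2]
      _ = x * y * x⁻¹ * z := by group
  · intro s hs'
    refine rb_mono ?_ (H.kj s hs')
    intro x hx
    exact ⟨hx.1.2, hx.2⟩

end H78TP
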