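import Pool.Agent.H78.TP.Base

/-!
[H78 TP ALP] Alperin's lemma on maximal abelian normal subgroups of exponent `q0` (60-80 min).
(`q0 = s` for odd `s`, `q0 = 4` for `s = 2`.)

PROOF. Call a subgroup `B` with `x B x⁻¹ ≤ B` for all `x ∈ X` X-invariant. Let
`C = N ⊓ centralizer A`; it is X-invariant and contains `A`. Suppose that there is `x ∈ C`,
`x ∉ A` with `x ^ q0 = 1`. Among the X-invariant subgroups `B` with `A ≤ B ≤ C` which contain an
element `x ∉ A` with `x ^ q0 = 1` choose one of minimal order. As `A < B` and `X` is a finite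
`s`-group there is an X-invariant subgroup `M` with `A ≤ M < B` and `[B : M] = s`, and then
`⁅b, x⁆ ∈ M` for all `b ∈ B`, `x ∈ X`. (To find `M`: take `M` maximal among the X-invariant
subgroups with `A ≤ M < B`; `B / M` is a nontrivial normal subgroup of the `s`-group `X / M`, so
`⁅B, X⁆ M < B` (nilpotent group: `⁅B, X⁆ M` is X-invariant; if it were `B` then iterating
`B = ⁅...⁅B, X⁆, ..., X⁆ M = M`), so `⁅B, X⁆ ≤ M` by maximality, and then every subgroup between
`M` and `B` is X-invariant, so `[B : M]` is prime.) Only `⁅B, X⁆ ≤ M < B` is used, and that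
`x ^ s ∈ M` for `x ∈ B` (as `[B : M] = s` and `M` is normal in `B`).
By minimality of `B`: (*) every `y ∈ M` with `y ^ q0 = 1` lies in `A`.
Fix `x ∈ B`, `x ∉ A`, `x ^ q0 = 1`. `x ^ s ∈ M` and `(x ^ s) ^ q0 = 1`, so `x ^ s ∈ A` by (*), and
`x ^ s` commutes with all of `B` (`B ≤ C` centralises `A`).
(1) If `y ∈ B`, `y ^ q0 = 1` and `⁅x, y⁆ ∈ A` then `(x⁻¹ * y) ^ q0 = 1`: `c = ⁅x, y⁆` commutes with
`x` and `y`, so `⟨x, y⟩` has class `≤ 2` and `(x⁻¹ * y) ^ q0 = x ^ (-q0) * y ^ q0 *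
c' ^ (q0 (q0 - 1) / 2)` with `c' = c` or `c⁻¹`; and `c ^ s = ⁅x ^ s, y⁆ = 1`, and
`s ∣ q0 (q0 - 1) / 2` (for odd `s = q0` clear; for `s = 2`, `q0 = 4` it is `6`).
(2) Let `R = {y ∈ B | ⁅x, y⁆ ∈ A}`, a subgroup (as `A` is normalised by `B` and central in `B`)
with `A, x ∈ R`. Claim `R = B`. If not, there is `g ∈ B`, `g ∉ R` which normalises `R`
(normaliser condition in the finite `s`-group `B`). `y = g x g⁻¹ ∈ R`, so `⁅x, y⁆ ∈ A` and by (1)
`(x⁻¹ * y) ^ q0 = 1`; `x⁻¹ * y ∈ ⁅B, X⁆ ≤ M`, so `x⁻¹ * y ∈ A` by (*). So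
`⁅x, g⁆ = x g x⁻¹ g⁻¹ = x y⁻¹`, which is in `A` (a conjugate of `(x⁻¹ y)⁻¹` by `x`), so `g ∈ R`, a
contradiction.
(3) Let `g ∈ X` be arbitrary and `y = g x g⁻¹ ∈ B`, `y ^ q0 = 1`. By (2) `⁅x, y⁆ ∈ A`, so
`(x⁻¹ * y) ^ q0 = 1` by (1) and `x⁻¹ * y ∈ M`, so `x⁻¹ * y ∈ A` by (*).
(4) So `A' = A ⟨x⟩` (`A ⊔ zpowers x`) is X-invariant, contained in `N`, abelian (`x` centralises
`A`) and of exponent dividing `q0`. By maximality of `A`, `A' = A` and `x ∈ A`, a contradiction.
-/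

namespace H78TP

open Subgroup
open scoped commutatorElement

private lemma alp_pow {K : Type*} [Group K] (a b z : K) (h1 : b * a = a * b * z)
    (h2 : z * a = a * z) (h3 : z * b = b * z) (n : ℕ) :
    (a * b) ^ n = a ^ n * b ^ n * z ^ (n.choose 2) := by
  have hza : Commute z a := h2
  have hzb : Commute z b := h3
  have hb : ∀ n : ℕ, b ^ n * a = a * b ^ n * z ^ n := by
    intro n
    induction n with
    | zero => simp
    | succ n ih =>
      calc b ^ (n + 1) * a = b ^ n * (b * a) := by rw [pow_succ, mul_assoc]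
        _ = b ^ n * (a * b * z) := by rw [h1]
        _ = (b ^ n * a) * (b * z) := by simp only [mul_assoc]
        _ = a * b ^ n * z ^ n * (b * z) := by rw [ih]
        _ = a * b ^ n * (z ^ n * b) * z := by simp only [mul_assoc]
        _ = a * b ^ n * (b * z ^ n) * z := by rw [(hzb.pow_left n).eq]
        _ = a * b ^ (n + 1) * z ^ (n + 1) := by simp only [pow_succ, mul_assoc]
  induction n with
  | zero => simp
  | succ n ih =>
    have hc : (n + 1).choose 2 = n + n.choose 2 := by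
      rw [Nat.choose_succ_succ' n 1, Nat.choose_one_right]
    calc (a * b) ^ (n + 1) = (a * b) ^ n * (a * b) := pow_succ _ _
      _ = a ^ n * b ^ n * z ^ (n.choose 2) * (a * b) := by rw [ih]
      _ = a ^ n * b ^ n * (z ^ (n.choose 2) * (a * b)) := by simp only [mul_assoc]
      _ = a ^ n * b ^ n * ((a * b) * z ^ (n.choose 2)) := by
          rw [((hza.mul_right hzb).pow_left (n.choose 2)).eq]
      _ = a ^ n * (b ^ n * a) * b * z ^ (n.choose 2) := by simp only [mul_assoc]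
      _ = a ^ n * (a * b ^ n * z ^ n) * b * z ^ (n.choose 2) := by rw [hb]
      _ = a ^ n * a * b ^ n * (z ^ n * b) * z ^ (n.choose 2) := by simp only [mul_assoc]
      _ = a ^ n * a * b ^ n * (b * z ^ n) * z ^ (n.choose 2) := by rw [(hzb.pow_left n).eq]
      _ = a ^ (n + 1) * b ^ (n + 1) * z ^ ((n + 1).choose 2) := by
          rw [hc, pow_add z n, pow_succ a n, pow_succ b n]; simp only [mul_assoc]

open scoped Pointwise in
/-- in a nilpotent group a normal subgroup `M < B` has `M ⊔ ⁅B, ⊤⁆ < B` -/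
private lemma alp_nil {G : Type*} [Group G] (hG : Group.IsNilpotent G) (M B : Subgroup G)
    [hM : M.Normal] (hB : B ≤ M ⊔ ⁅B, (⊤ : Subgroup G)⁆) : B ≤ M := by
  have key : ∀ i, B ≤ M ⊔ (⊤ : Subgroup G).lowerCentralSeries i := by
    intro i
    induction i with
    | zero =>
      rw [Subgroup.lowerCentralSeries_zero]
      exact le_top.trans le_sup_right
    | succ i ih =>
      refine hB.trans (sup_le le_sup_left ?_)
      rw [Subgroup.commutator_le]
      intro g hg h _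
      have hg' := ih hg
      have hg2 : g ∈ ((M : Set G) * (((⊤ : Subgroup G).lowerCentralSeries i : Subgroup G) : Set G)) := by
        rw [← Subgroup.normal_mul]
        exact hg'
      obtain ⟨m, hm, l, hl, rfl⟩ := hg2
      have e : ⁅m * l, h⁆ = (m * ⁅l, h⁆ * m⁻¹) * ⁅m, h⁆ := by
        simp only [commutatorElement_def]; group
      show ⁅m * l, h⁆ ∈ _
      rw [e]
      refine mul_mem ?_ ?_
      · refine mul_mem (mul_mem (mem_sup_left hm) (mem_sup_right ?_))
          (inv_mem (mem_sup_left hm))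
        exact Subgroup.commutator_mem_commutator hl (mem_top h)
      · refine mem_sup_left ?_
        rw [commutatorElement_def]
        have h1 : h * m⁻¹ * h⁻¹ ∈ M := hM.conj_mem _ (inv_mem hm) h
        have h2 : m * h * m⁻¹ * h⁻¹ = m * (h * m⁻¹ * h⁻¹) := by group
        rw [h2]
        exact mul_mem hm h1
  obtain ⟨c, hc⟩ := Subgroup.nilpotent_iff_lowerCentralSeries.1 hG
  have := key c
  rwa [hc, sup_bot_eq] at this

open scoped Pointwise in
private theorem alp' {G : Type*} [Group G] [Finite G] (s q0 : ℕ) [Fact s.Prime] (hq : QZ s q0)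
    (hG : IsPGroup s G) (N A : Subgroup G) [hNn : N.Normal] [hAn : A.Normal] (hAN : A ≤ N)
    (hAc : ∀ x ∈ A, ∀ y ∈ A, x * y = y * x) (hAe : ∀ x ∈ A, x ^ q0 = 1)
    (hmax : ∀ B : Subgroup G, B.Normal → A ≤ B → B ≤ N →
      (∀ x ∈ B, ∀ y ∈ B, x * y = y * x) → (∀ x ∈ B, x ^ q0 = 1) → B = A)
    (x : G) (hx : x ∈ N) (hxA : ∀ a ∈ A, a * x = x * a) (hxq : x ^ q0 = 1) : x ∈ A := by
  have hs := (Fact.out : s.Prime)
  have hnil : Group.IsNilpotent G := hG.isNilpotent
  by_contra hxnA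
  set Good : Set (Subgroup G) := {B | B.Normal ∧ A ≤ B ∧ B ≤ N ∧
    (∀ b ∈ B, ∀ a ∈ A, a * b = b * a) ∧ ∃ x ∈ B, x ∉ A ∧ x ^ q0 = 1} with hGood
  have hCn : (N ⊓ centralizer (A : Set G)).Normal := inferInstance
  have hC : (N ⊓ centralizer (A : Set G)) ∈ Good := by
    refine ⟨hCn, le_inf hAN ?_, inf_le_left, ?_, x, ?_, hxnA, hxq⟩
    · intro a ha
      rw [Subgroup.mem_centralizer_iff]
      exact fun b hb => hAc b hb a ha
    · intro b hb a ha
      exact (Subgroup.mem_centralizer_iff.1 (Subgroup.mem_inf.1 hb).2) a ha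
    · refine Subgroup.mem_inf.2 ⟨hx, ?_⟩
      rw [Subgroup.mem_centralizer_iff]
      exact fun a ha => hxA a ha
  obtain ⟨B, hBmin⟩ := (Set.toFinite Good).exists_minimal ⟨_, hC⟩
  obtain ⟨hBn, hAB, hBN, hBA, x, hxB, hxnA, hxq⟩ := hBmin.prop
  have hmin : ∀ B' ∈ Good, B' ≤ B → B ≤ B' := fun B' h1 h2 => hBmin.le_of_le h1 h2
  -- the subgroup `M`
  set Md : Set (Subgroup G) := {M | M.Normal ∧ A ≤ M ∧ M < B} with hMd
  have hAM : A ∈ Md := ⟨hAn, le_rfl, lt_of_le_of_ne hAB fun he => hxnA (he ▸ hxB)⟩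
  obtain ⟨M, hMmax⟩ := (Set.toFinite Md).exists_maximal ⟨_, hAM⟩
  obtain ⟨hMn, hAM', hMB⟩ := hMmax.prop
  have hMx : ∀ M' : Subgroup G, M'.Normal → M ≤ M' → M' ≤ B → M' ≠ B → M' ≤ M :=
    fun M' h1 h2 h3 h4 => hMmax.le_of_ge ⟨h1, hAM'.trans h2, lt_of_le_of_ne h3 h4⟩ h2
  have hBcomm : ⁅B, (⊤ : Subgroup G)⁆ ≤ M := by
    have hle : M ⊔ ⁅B, (⊤ : Subgroup G)⁆ ≤ B := by
      refine sup_le hMB.le ?_
      rw [Subgroup.commutator_le]
      intro b hb g _
      rw [commutatorElement_def]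
      have h1 : g * b⁻¹ * g⁻¹ ∈ B := hBn.conj_mem _ (inv_mem hb) g
      have h2 : b * g * b⁻¹ * g⁻¹ = b * (g * b⁻¹ * g⁻¹) := by group
      rw [h2]
      exact mul_mem hb h1
    by_cases he : M ⊔ ⁅B, (⊤ : Subgroup G)⁆ = B
    · exact absurd (alp_nil hnil M B he.symm.le) (not_le_of_gt hMB)
    · exact le_sup_right.trans (hMx _ inferInstance le_sup_left hle he)
  have hBc : ∀ b ∈ B, ∀ g : G, b * g * b⁻¹ * g⁻¹ ∈ M := by
    intro b hb g
    have := hBcomm (Subgroup.commutator_mem_commutator hb (mem_top g))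
    rwa [commutatorElement_def] at this
  have hBs : ∀ b ∈ B, b ^ s ∈ M := by
    intro b hb
    by_contra hbs
    have hle : M ⊔ zpowers (b ^ s) ≤ B := by
      refine sup_le hMB.le ?_
      rw [Subgroup.zpowers_le]
      exact pow_mem hb s
    have hno : (M ⊔ zpowers (b ^ s)).Normal := by
      refine ⟨fun y hy g => ?_⟩
      have h1 := hBc y (hle hy) g
      have h2 : g * y * g⁻¹ = (y * g * y⁻¹ * g⁻¹)⁻¹ * y := by group
      rw [h2]
      exact mul_mem (inv_mem (mem_sup_left h1)) hy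
    have hne : M ⊔ zpowers (b ^ s) = B := by
      by_contra hne
      exact hbs (hMx _ hno le_sup_left hle hne (mem_sup_right (mem_zpowers _)))
    have hb2 : b ∈ ((M : Set G) * ((zpowers (b ^ s) : Subgroup G) : Set G)) := by
      rw [← Subgroup.normal_mul]
      show b ∈ M ⊔ zpowers (b ^ s)
      rw [hne]
      exact hb
    obtain ⟨m, hm, z, hz, hmz⟩ := hb2
    obtain ⟨k, rfl⟩ := mem_zpowers_iff.1 hz
    obtain ⟨a, ha⟩ := hG b
    have hm2 : b ^ (1 - (s : ℤ) * k) = m := by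
      have h1 : m = b * ((b ^ s) ^ k)⁻¹ := by
        rw [eq_mul_inv_iff_mul_eq]; exact hmz
      rw [h1, zpow_sub, zpow_one, zpow_mul, zpow_natCast]
    have hcop : IsCoprime (1 - (s : ℤ) * k) ((s : ℤ) ^ a) := by
      apply IsCoprime.pow_right
      exact ⟨1, k, by ring⟩
    obtain ⟨u, v, huv⟩ := hcop
    apply hbs
    have hbM : b ∈ M := by
      have h1 : b = m ^ u := by
        calc b = b ^ (u * (1 - (s : ℤ) * k) + v * (s : ℤ) ^ a) := by rw [huv, zpow_one]
          _ = (b ^ (1 - (s : ℤ) * k)) ^ u * (b ^ ((s : ℤ) ^ a)) ^ v := by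
              rw [zpow_add, mul_comm u, mul_comm v, zpow_mul, zpow_mul]
          _ = m ^ u := by
              have h2 : b ^ ((s : ℤ) ^ a) = 1 := by
                rw [← Nat.cast_pow, zpow_natCast]; exact ha
              rw [h2, one_zpow, mul_one, hm2]
      rw [h1]
      exact zpow_mem hm u
    exact pow_mem hbM s
  have hstar : ∀ y ∈ M, y ^ q0 = 1 → y ∈ A := by
    intro y hy hyq
    by_contra hyA
    exact not_le_of_gt hMB (hmin M ⟨hMn, hAM', hMB.le.trans hBN,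
      fun b hb => hBA b (hMB.le hb), y, hy, hyA, hyq⟩ hMB.le)
  have hxs : x ^ s ∈ A := by
    apply hstar _ (hBs x hxB)
    rw [← pow_mul, mul_comm, pow_mul, hxq, one_pow]
  have h1 : ∀ y ∈ B, y ^ q0 = 1 → x * y * x⁻¹ * y⁻¹ ∈ A → (x⁻¹ * y) ^ q0 = 1 := by
    intro y hyB hyq hc
    set c := x * y * x⁻¹ * y⁻¹ with hcdef
    have hcx : c * x = x * c := hBA x hxB c hc
    have hcy : c * y = y * c := hBA y hyB c hc
    have hxy : x * y = c * (y * x) := by rw [hcdef]; group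
    have e1 : y * x⁻¹ = x⁻¹ * y * c := by
      have e2 : x⁻¹ * y * c = x⁻¹ * (c * y) := by rw [hcy, mul_assoc]
      rw [e2, hcdef]; group
    have hcx' : c * x⁻¹ = x⁻¹ * c :=
      (show Commute c x⁻¹ from (show Commute c x from hcx).inv_right).eq
    rw [alp_pow x⁻¹ y c e1 hcx' hcy q0, inv_pow, hxq, inv_one, one_mul, hyq, one_mul]
    have hcs : c ^ s = 1 := by
      have hit : ∀ k : ℕ, x ^ k * y = c ^ k * (y * x ^ k) := by
        intro k
        induction k with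
        | zero => simp
        | succ k ih =>
          have hxck : Commute x (c ^ k) := (show Commute x c from hcx.symm).pow_right k
          calc x ^ (k + 1) * y = x * (x ^ k * y) := by rw [pow_succ', mul_assoc]
            _ = x * (c ^ k * (y * x ^ k)) := by rw [ih]
            _ = (x * c ^ k) * (y * x ^ k) := by group
            _ = (c ^ k * x) * (y * x ^ k) := by rw [hxck.eq]
            _ = c ^ k * (x * y) * x ^ k := by group
            _ = c ^ k * (c * (y * x)) * x ^ k := by rw [hxy]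
            _ = c ^ (k + 1) * (y * x ^ (k + 1)) := by
                rw [pow_succ c k, pow_succ' x k]; group
      have h2 := hit s
      have h3 : x ^ s * y = y * x ^ s := hBA y hyB _ hxs
      rw [h3] at h2
      exact mul_eq_right.1 h2.symm
    rcases hq with ⟨h2, h3⟩ | ⟨h2, h3⟩
    · obtain ⟨k, hk⟩ := hs.dvd_choose_self (k := 2) (by norm_num)
        (lt_of_le_of_ne hs.two_le (Ne.symm h2))
      rw [h3, hk, pow_mul, hcs, one_pow]
    · have h4 : (4 : ℕ).choose 2 = 2 * 3 := by decide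
      rw [h3, h4, pow_mul]
      rw [h2] at hcs
      rw [hcs, one_pow]
  have h2 : ∀ g : G, x * (g * x * g⁻¹) * x⁻¹ * (g * x * g⁻¹)⁻¹ ∈ A →
      x⁻¹ * (g * x * g⁻¹) ∈ A := by
    intro g hg
    have hyB : g * x * g⁻¹ ∈ B := hBn.conj_mem x hxB g
    have hyq : (g * x * g⁻¹) ^ q0 = 1 := by rw [conj_pow, hxq]; group
    apply hstar _ ?_ (h1 _ hyB hyq hg)
    have h3 := hBc x⁻¹ (inv_mem hxB) g
    have h4 : x⁻¹ * (g * x * g⁻¹) = x⁻¹ * g * x⁻¹⁻¹ * g⁻¹ := by group
    rw [h4]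
    exact h3
  have h3 : ∀ g : G, x * g * x⁻¹ * g⁻¹ ∈ A := by
    obtain ⟨c, hc⟩ := Subgroup.nilpotent_iff_lowerCentralSeries.1 hnil
    have key : ∀ j, j ≤ c → ∀ g ∈ (⊤ : Subgroup G).lowerCentralSeries (c - j), x * g * x⁻¹ * g⁻¹ ∈ A := by
      intro j
      induction j with
      | zero =>
        intro _ g hg
        rw [Nat.sub_zero, hc, Subgroup.mem_bot] at hg
        subst hg
        have : x * 1 * x⁻¹ * (1 : G)⁻¹ = 1 := by group
        rw [this]
        exact one_mem _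
      | succ j ih =>
        intro hj g hg
        have h4 : g * x * g⁻¹ * x⁻¹ ∈ (⊤ : Subgroup G).lowerCentralSeries (c - j) := by
          have h5 : c - j = c - (j + 1) + 1 := by omega
          rw [h5, Subgroup.lowerCentralSeries_succ]
          exact Subgroup.commutator_mem_commutator hg (mem_top x)
        have h6 := ih (by omega) _ h4
        have h7 : x * (g * x * g⁻¹ * x⁻¹) * x⁻¹ * (g * x * g⁻¹ * x⁻¹)⁻¹
            = x * (g * x * g⁻¹) * x⁻¹ * (g * x * g⁻¹)⁻¹ := by group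
        rw [h7] at h6
        have h8 := h2 g h6
        have h9 : x * g * x⁻¹ * g⁻¹ = (x * (x⁻¹ * (g * x * g⁻¹)) * x⁻¹)⁻¹ := by group
        rw [h9]
        exact inv_mem (hAn.conj_mem _ h8 x)
    intro g
    apply key c le_rfl g
    rw [Nat.sub_self, Subgroup.lowerCentralSeries_zero]
    exact mem_top g
  have h4 : ∀ g : G, ∃ a ∈ A, g * x * g⁻¹ = a * x := by
    intro g
    refine ⟨(x * g * x⁻¹ * g⁻¹)⁻¹, inv_mem (h3 g), by group⟩
  have hcx : ∀ a ∈ A, Commute a x := fun a ha => hBA x hxB a ha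
  let A' : Subgroup G :=
    { carrier := {y | ∃ a ∈ A, ∃ k : ℤ, y = a * x ^ k}
      one_mem' := ⟨1, one_mem _, 0, by simp⟩
      mul_mem' := by
        rintro _ _ ⟨a, ha, k, rfl⟩ ⟨a', ha', k', rfl⟩
        refine ⟨a * a', mul_mem ha ha', k + k', ?_⟩
        have h5 : x ^ k * a' = a' * x ^ k := ((hcx a' ha').zpow_right k).eq.symm
        calc a * x ^ k * (a' * x ^ k') = a * (x ^ k * a') * x ^ k' := by group
          _ = a * (a' * x ^ k) * x ^ k' := by rw [h5]
          _ = a * a' * x ^ (k + k') := by rw [zpow_add]; group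
      inv_mem' := by
        rintro _ ⟨a, ha, k, rfl⟩
        refine ⟨a⁻¹, inv_mem ha, -k, ?_⟩
        have h5 : Commute a⁻¹ (x ^ (-k)) := ((hcx a ha).inv_left).zpow_right (-k)
        rw [h5.eq]
        group }
  have hAA' : A ≤ A' := fun a ha => ⟨a, ha, 0, by simp⟩
  have hxA' : x ∈ A' := ⟨1, one_mem _, 1, by simp⟩
  have hA'n : A'.Normal := by
    refine ⟨?_⟩
    rintro _ ⟨a, ha, k, rfl⟩ g
    obtain ⟨a0, ha0, he⟩ := h4 g
    refine ⟨g * a * g⁻¹ * a0 ^ k, mul_mem (hAn.conj_mem a ha g) (zpow_mem ha0 k), k, ?_⟩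
    calc g * (a * x ^ k) * g⁻¹ = (g * a * g⁻¹) * (g * x ^ k * g⁻¹) := by group
      _ = (g * a * g⁻¹) * (g * x * g⁻¹) ^ k := by rw [conj_zpow]
      _ = (g * a * g⁻¹) * (a0 * x) ^ k := by rw [he]
      _ = (g * a * g⁻¹) * (a0 ^ k * x ^ k) := by rw [(hcx a0 ha0).mul_zpow]
      _ = g * a * g⁻¹ * a0 ^ k * x ^ k := by group
  have hA'N : A' ≤ N := by
    rintro _ ⟨a, ha, k, rfl⟩
    exact mul_mem (hAN ha) (zpow_mem (hBN hxB) k)
  have hA'c : ∀ y ∈ A', ∀ z ∈ A', y * z = z * y := by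
    rintro _ ⟨a, ha, k, rfl⟩ _ ⟨a', ha', k', rfl⟩
    have c1 : Commute a a' := hAc a ha a' ha'
    have c2 : Commute a (x ^ k') := (hcx a ha).zpow_right k'
    have c3 : Commute (x ^ k) a' := ((hcx a' ha').zpow_right k).symm
    have c4 : Commute (x ^ k) (x ^ k') := (Commute.refl x).zpow_zpow k k'
    exact ((c1.mul_right c2).mul_left (c3.mul_right c4)).eq
  have hA'e : ∀ y ∈ A', y ^ q0 = 1 := by
    rintro _ ⟨a, ha, k, rfl⟩
    rw [((hcx a ha).zpow_right k).mul_pow, hAe a ha, one_mul, ← zpow_natCast, ← zpow_mul,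
      mul_comm, zpow_mul, zpow_natCast, hxq, one_zpow]
  have hfin := hmax A' hA'n hAA' hA'N hA'c hA'e
  rw [hfin] at hxA'
  exact hxnA hxA'

theorem alp {F : Type*} [Group F] [Finite F] (s q0 : ℕ) [Fact s.Prime] (hq : QZ s q0)
    (X N A : Subgroup F) (hX : IsPGroup s X) (hNX : N ≤ X)
    (hN : ∀ x ∈ X, ∀ y ∈ N, x * y * x⁻¹ ∈ N) (hAN : A ≤ N)
    (hA : ∀ x ∈ X, ∀ y ∈ A, x * y * x⁻¹ ∈ A) (hAc : ∀ x ∈ A, ∀ y ∈ A, x * y = y * x)
    (hAe : ∀ x ∈ A, x ^ q0 = 1)
    (hmax : ∀ B : Subgroup F, A ≤ B → B ≤ N → (∀ x ∈ X, ∀ y ∈ B, x * y * x⁻¹ ∈ B) →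
      (∀ x ∈ B, ∀ y ∈ B, x * y = y * x) → (∀ x ∈ B, x ^ q0 = 1) → B = A)
    (x : F) (hx : x ∈ N) (hxA : ∀ a ∈ A, a * x = x * a) (hxq : x ^ q0 = 1) : x ∈ A := by
  have hN1 : (N.subgroupOf X).Normal := ⟨fun y hy g => hN g.1 g.2 y.1 hy⟩
  have hA1 : (A.subgroupOf X).Normal := ⟨fun y hy g => hA g.1 g.2 y.1 hy⟩
  have hmain := alp' (G := X) s q0 hq hX (N.subgroupOf X) (A.subgroupOf X)
    (fun y hy => hAN hy)
    (fun y hy z hz => Subtype.ext (hAc y.1 hy z.1 hz))
    (fun y hy => Subtype.ext (by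
      have := hAe y.1 hy
      simpa using this))
    (fun B hB hAB hBN hBc hBe => by
      have h1 : B.map X.subtype = A := by
        apply hmax
        · intro a ha
          exact ⟨⟨a, hNX (hAN ha)⟩, hAB (show (⟨a, hNX (hAN ha)⟩ : X) ∈ A.subgroupOf X from ha),
            rfl⟩
        · rintro _ ⟨b, hb, rfl⟩
          exact hBN hb
        · rintro g hg _ ⟨b, hb, rfl⟩
          exact ⟨⟨g, hg⟩ * b * ⟨g, hg⟩⁻¹, hB.conj_mem b hb ⟨g, hg⟩, rfl⟩
        · rintro _ ⟨b, hb, rfl⟩ _ ⟨b', hb', rfl⟩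
          exact congrArg Subtype.val (hBc b hb b' hb')
        · rintro _ ⟨b, hb, rfl⟩
          have := congrArg Subtype.val (hBe b hb)
          simpa using this
      apply le_antisymm
      · intro b hb
        show (b : F) ∈ A
        rw [← h1]
        exact ⟨b, hb, rfl⟩
      · exact hAB)
    ⟨x, hNX hx⟩ hx
    (fun a ha => Subtype.ext (hxA a.1 ha))
    (Subtype.ext (by simpa using hxq))
  exact hmain

end H78TP
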