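import Pool.Agent.H78.TP.Ly1

/-!
[H78 TP BAS] The case `R = 1` (30 min).

PROOF. `ly1`; as `R = ⊥` the fixed points are all of `V`, so `|V| ≤ b = rkM ...`. `F ⧸ N` embeds in
`Equiv.Perm V` (`ρ` injective), so `|F ⧸ N| ≤ |V| ! ≤ b !`, and `dS (⊤ : Subgroup (F ⧸ N)) (b !) = ⊥`
by `der` (or `derK`), so `lns ⊤ (b !) = ⊥` (`lns_le_dS`), and `lns_of_map` for
`QuotientGroup.mk' N`, `X = ⊤`.
-/

namespace H78TP

open Subgroup
open scoped commutatorElement

universe u

theorem bas (p q n m j t : ℕ) [Fact p.Prime] [Fact q.Prime] (hne : p ≠ q) {F : Type u}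
    [Group F] [Finite F] (P R : Subgroup F) (H : Hyp p q n m j F P R) (hT : OpT p t F)
    (hR : R = ⊥) :
    lns (⊤ : Subgroup F) ((rkM p (inH p q n m t j * p ^ m) n).factorial + (t + 1)) = ⊥ := by
  obtain ⟨N, iN, V, i1, i2, i3, ρ, hinj, hN, _, hcard⟩ := ly1 p q n m j t hne P R H hT
  have hV : Nat.card V ≤ rkM p (inH p q n m t j * p ^ m) n := by
    refine le_trans (le_of_eq ?_) hcard
    refine (Nat.card_congr (Equiv.subtypeUnivEquiv fun v => ?_)).symm
    intro x hx
    rw [hR, Subgroup.mem_bot] at hx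
    rw [hx, QuotientGroup.mk_one, map_one]
    rfl
  let act : MulAction (F ⧸ N) V :=
    { smul := fun g v => ρ g v
      one_smul := fun v => by
        show ρ 1 v = v
        rw [map_one]
        rfl
      mul_smul := fun g h v => by
        show ρ (g * h) v = ρ g (ρ h v)
        rw [map_mul]
        rfl }
  have hperm : Nat.card (Equiv.Perm V) ≤
      (rkM p (inH p q n m t j * p ^ m) n).factorial := by
    rw [Nat.card_perm]
    exact Nat.factorial_le hV
  have hsF : Group.IsSolvable F := H.sol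
  have hsQ : Group.IsSolvable (F ⧸ N) :=
    solv_map (QuotientGroup.mk' N) (QuotientGroup.mk'_surjective N) hsF
  have hder := derK (MulAction.toPermHom (F ⧸ N) V) (⊤ : Subgroup (F ⧸ N))
    (solv_sub hsQ ⊤) _ hperm
  have hker : (MulAction.toPermHom (F ⧸ N) V).ker = ⊥ := by
    rw [eq_bot_iff]
    intro g hg
    rw [MonoidHom.mem_ker] at hg
    rw [Subgroup.mem_bot]
    apply hinj
    apply LinearMap.ext
    intro v
    have h1 : (MulAction.toPermHom (F ⧸ N) V g) v = v := by
      rw [hg]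
      rfl
    rw [map_one]
    exact h1
  rw [hker] at hder
  have h2 : lns (⊤ : Subgroup (F ⧸ N)) (rkM p (inH p q n m t j * p ^ m) n).factorial = ⊥ :=
    le_bot_iff.1 ((lns_le_dS _ _).trans hder)
  refine lns_of_map (QuotientGroup.mk' N) ?_ ?_
  · rw [Subgroup.map_top_of_surjective _ (QuotientGroup.mk'_surjective N)]
    exact h2
  · rw [QuotientGroup.ker_mk']
    exact hN

end H78TP
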