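import Pool.Agent.H78.TP.Def

/-!
Basic facts on the series `gam`, `nres`, `lns`, `dS`.
-/

namespace H78TP

open Subgroup
open scoped commutatorElement

variable {G G' : Type*} [Group G] [Group G']

theorem gam_zero (X : Subgroup G) : gam X 0 = X := rfl
theorem gam_succ (X : Subgroup G) (n : ℕ) : gam X (n + 1) = ⁅gam X n, X⁆ := rfl
theorem lns_zero (X : Subgroup G) : lns X 0 = X := rfl
theorem lns_succ (X : Subgroup G) (n : ℕ) : lns X (n + 1) = nres (lns X n) := rfl
theorem dS_zero (X : Subgroup G) : dS X 0 = X := rfl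
theorem dS_succ (X : Subgroup G) (n : ℕ) : dS X (n + 1) = ⁅dS X n, dS X n⁆ := rfl

theorem gam_le (X : Subgroup G) : ∀ n, gam X n ≤ X
  | 0 => le_rfl
  | n + 1 => by
    rw [gam_succ, Subgroup.commutator_le]
    intro a ha b hb
    have h1 := gam_le X n ha
    rw [commutatorElement_def]
    exact mul_mem (mul_mem (mul_mem h1 hb) (inv_mem h1)) (inv_mem hb)

theorem gam_mono {X Y : Subgroup G} (h : X ≤ Y) : ∀ n, gam X n ≤ gam Y n
  | 0 => h
  | n + 1 => Subgroup.commutator_mono (gam_mono h n) h

theorem gam_anti_succ (X : Subgroup G) : ∀ n, gam X (n + 1) ≤ gam X n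
  | 0 => gam_le X 1
  | n + 1 => Subgroup.commutator_mono (gam_anti_succ X n) le_rfl

theorem gam_anti (X : Subgroup G) : Antitone (gam X) := antitone_nat_of_succ_le (gam_anti_succ X)

theorem gam_map (f : G →* G') (X : Subgroup G) : ∀ n, (gam X n).map f = gam (X.map f) n
  | 0 => rfl
  | n + 1 => by rw [gam_succ, gam_succ, Subgroup.map_commutator, gam_map f X n]

theorem dS_le (X : Subgroup G) : ∀ n, dS X n ≤ X
  | 0 => le_rfl
  | n + 1 => by
    rw [dS_succ, Subgroup.commutator_le]
    intro a ha b hb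
    have h1 := dS_le X n ha
    have h2 := dS_le X n hb
    rw [commutatorElement_def]
    exact mul_mem (mul_mem (mul_mem h1 h2) (inv_mem h1)) (inv_mem h2)

theorem dS_mono {X Y : Subgroup G} (h : X ≤ Y) : ∀ n, dS X n ≤ dS Y n
  | 0 => h
  | n + 1 => Subgroup.commutator_mono (dS_mono h n) (dS_mono h n)

theorem dS_anti_succ (X : Subgroup G) : ∀ n, dS X (n + 1) ≤ dS X n
  | 0 => dS_le X 1
  | n + 1 => Subgroup.commutator_mono (dS_anti_succ X n) (dS_anti_succ X n)

theorem dS_anti (X : Subgroup G) : Antitone (dS X) := antitone_nat_of_succ_le (dS_anti_succ X)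

theorem dS_map (f : G →* G') (X : Subgroup G) : ∀ n, (dS X n).map f = dS (X.map f) n
  | 0 => rfl
  | n + 1 => by rw [dS_succ, dS_succ, Subgroup.map_commutator, dS_map f X n]

theorem dS_add (X : Subgroup G) (a : ℕ) : ∀ b, dS (dS X a) b = dS X (a + b)
  | 0 => rfl
  | b + 1 => by rw [dS_succ, dS_add X a b, ← add_assoc, dS_succ]

theorem gam_normal {X : Subgroup G} (hX : X.Normal) : ∀ n, (gam X n).Normal
  | 0 => hX
  | n + 1 => by
    have h1 := gam_normal hX n
    rw [gam_succ]
    infer_instance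

theorem dS_normal {X : Subgroup G} (hX : X.Normal) : ∀ n, (dS X n).Normal
  | 0 => hX
  | n + 1 => by
    have h1 := dS_normal hX n
    rw [dS_succ]
    infer_instance

theorem dS_top_eq (n : ℕ) : dS (⊤ : Subgroup G) n = derivedSeries G n := by
  induction n with
  | zero => rfl
  | succ n ih => rw [dS_succ, ih, derivedSeries_succ]

theorem nres_le_gam (X : Subgroup G) (n : ℕ) : nres X ≤ gam X n := iInf_le _ n

theorem nres_le (X : Subgroup G) : nres X ≤ X := nres_le_gam X 0

theorem nres_mono {X Y : Subgroup G} (h : X ≤ Y) : nres X ≤ nres Y :=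
  iInf_mono fun n => gam_mono h n

theorem nres_normal {X : Subgroup G} (hX : X.Normal) : (nres X).Normal := by
  have h1 := fun n => gam_normal hX n
  refine ⟨fun a ha g => ?_⟩
  rw [nres, Subgroup.mem_iInf] at ha ⊢
  exact fun n => (h1 n).conj_mem _ (ha n) g

theorem nres_le_commutator (X : Subgroup G) : nres X ≤ ⁅X, X⁆ := nres_le_gam X 1

/-- in a finite group the lower central series becomes constant -/
theorem exists_gam_eq [Finite G] (X : Subgroup G) : ∃ c, ∀ n, c ≤ n → gam X n = nres X := by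
  obtain ⟨c, hc⟩ := WellFoundedLT.antitone_chain_condition (gam_anti X)
  refine ⟨c, fun n hn => le_antisymm (le_iInf fun i => ?_) (nres_le_gam X n)⟩
  rcases le_total i c with h | h
  · rw [← hc n hn]
    exact gam_anti X h
  · rw [← hc n hn, hc i h]

/-- the same for a finite subgroup of an arbitrary group -/
theorem exists_gam_eq' (X : Subgroup G) [Finite X] : ∃ c, ∀ n, c ≤ n → gam X n = nres X := by
  obtain ⟨c, hc⟩ := exists_gam_eq (⊤ : Subgroup X)
  have hX : (⊤ : Subgroup X).map X.subtype = X := by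
    rw [← MonoidHom.range_eq_map, Subgroup.range_subtype]
  have key : ∀ n, c ≤ n → gam X n = gam X c := by
    intro n hn
    have h1 : gam (⊤ : Subgroup X) n = gam (⊤ : Subgroup X) c := by
      rw [hc n hn, hc c le_rfl]
    have h2 := congrArg (fun Y => Subgroup.map X.subtype Y) h1
    simp only [gam_map, hX] at h2
    exact h2
  refine ⟨c, fun n hn => le_antisymm (le_iInf fun i => ?_) (nres_le_gam X n)⟩
  rw [key n hn]
  rcases le_total i c with h | h
  · exact gam_anti X h
  · rw [key i h]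

theorem nres_eq_bot_iff [Finite G] (X : Subgroup G) : nres X = ⊥ ↔ ∃ c, gam X c = ⊥ := by
  constructor
  · intro h
    obtain ⟨c, hc⟩ := exists_gam_eq X
    exact ⟨c, by rw [hc c le_rfl, h]⟩
  · rintro ⟨c, hc⟩
    rw [eq_bot_iff, ← hc]
    exact nres_le_gam X c

theorem nres_map [Finite G] (f : G →* G') (X : Subgroup G) : (nres X).map f = nres (X.map f) := by
  obtain ⟨c, hc⟩ := exists_gam_eq X
  apply le_antisymm
  · refine le_iInf fun n => ?_
    rw [← gam_map]
    exact Subgroup.map_mono (nres_le_gam X n)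
  · rw [← hc c le_rfl, gam_map]
    exact nres_le_gam _ c

theorem lns_map [Finite G] (f : G →* G') (X : Subgroup G) : ∀ n, (lns X n).map f = lns (X.map f) n
  | 0 => rfl
  | n + 1 => by rw [lns_succ, lns_succ, nres_map, lns_map f X n]

theorem lns_mono {X Y : Subgroup G} (h : X ≤ Y) : ∀ n, lns X n ≤ lns Y n
  | 0 => h
  | n + 1 => nres_mono (lns_mono h n)

theorem lns_anti_succ (X : Subgroup G) (n : ℕ) : lns X (n + 1) ≤ lns X n := nres_le _

theorem lns_anti (X : Subgroup G) : Antitone (lns X) := antitone_nat_of_succ_le (lns_anti_succ X)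

theorem lns_le (X : Subgroup G) (n : ℕ) : lns X n ≤ X := lns_anti X (Nat.zero_le n)

theorem lns_normal {X : Subgroup G} (hX : X.Normal) : ∀ n, (lns X n).Normal
  | 0 => hX
  | n + 1 => nres_normal (lns_normal hX n)

theorem lns_add (X : Subgroup G) (a : ℕ) : ∀ b, lns (lns X a) b = lns X (a + b)
  | 0 => rfl
  | b + 1 => by rw [lns_succ, lns_add X a b, ← add_assoc, lns_succ]

theorem lns_bot (n : ℕ) : lns (⊥ : Subgroup G) n = ⊥ := le_bot_iff.1 (lns_le _ n)

theorem lns_of_le {X : Subgroup G} {a b : ℕ} (h : a ≤ b) (ha : lns X a = ⊥) : lns X b = ⊥ :=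
  le_bot_iff.1 (ha ▸ lns_anti X h)

theorem lns_le_dS (X : Subgroup G) : ∀ n, lns X n ≤ dS X n
  | 0 => le_rfl
  | n + 1 => (nres_le_commutator _).trans
      (Subgroup.commutator_mono (lns_le_dS X n) (lns_le_dS X n))

/-- `lns X a ≤ Y` and `lns Y b = ⊥` imply `lns X (a + b) = ⊥` -/
theorem lns_trans {X Y : Subgroup G} {a b : ℕ} (h : lns X a ≤ Y) (hb : lns Y b = ⊥) :
    lns X (a + b) = ⊥ := by
  rw [← lns_add, eq_bot_iff, ← hb]
  exact lns_mono h b

theorem lns_one_of_gam {X Y : Subgroup G} {c : ℕ} (h : gam X c ≤ Y) : lns X 1 ≤ Y :=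
  (nres_le_gam X c).trans h

/-- if the image of `X` under `f` has height `≤ b` and the kernel of `f` has height `≤ a`, then
`X` has height `≤ b + a` -/
theorem lns_of_map [Finite G] (f : G →* G') {X : Subgroup G} {a b : ℕ}
    (hb : lns (X.map f) b = ⊥) (ha : lns f.ker a = ⊥) : lns X (b + a) = ⊥ := by
  refine lns_trans ?_ ha
  rw [← lns_map] at hb
  rwa [Subgroup.map_eq_bot_iff] at hb

/-- finite subgroup of an arbitrary group: the series formed inside the subgroup -/
theorem gam_subtype (X : Subgroup G) (Y : Subgroup X) (n : ℕ) :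
    (gam Y n).map X.subtype = gam (Y.map X.subtype) n := gam_map _ _ _

theorem lns_subtype (X : Subgroup G) [Finite X] (Y : Subgroup X) (n : ℕ) :
    (lns Y n).map X.subtype = lns (Y.map X.subtype) n := lns_map _ _ _

end H78TP
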