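import Pool.Agent.H78.TP.Base

/-!
[H78 TP BLKA] Fixed points of an element normalising a transitive abelian group (40 min).

PROOF. Let `H` be the group of the permutations of `Ω` induced by `L`: a commutative group (`hab`)
which is transitive, hence regular (if `h x = x` then `h` fixes every `h' x`). `g` normalises `H`
(conjugation by the permutation of `g`, `L` is normal). The map `h ↦ h x₀` is a bijection
`H → Ω`, `|Ω| = |H|`, and `g (h x₀) = (g h g⁻¹) (g x₀) = (g h g⁻¹) x₀`, so `h x₀` is fixed by `g` iff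
`g h g⁻¹ = h`. So the number of fixed points is the order of the subgroup `{h ∈ H | g h g⁻¹ = h}`,
which divides `|H|`.
-/

namespace H78TP

open Subgroup
open scoped commutatorElement

theorem blkA {T Ω : Type*} [Group T] [MulAction T Ω] [Finite Ω] (L : Subgroup T)
    (hL : L.Normal) (htr : ∀ x y : Ω, ∃ g ∈ L, g • x = y)
    (hab : ∀ g ∈ L, ∀ h ∈ L, ∀ x : Ω, (g * h) • x = (h * g) • x) (g : T) (x₀ : Ω)
    (hx₀ : g • x₀ = x₀) : Nat.card {x : Ω // g • x = x} ∣ Nat.card Ω := by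
  classical
  set φ : T →* Equiv.Perm Ω := MulAction.toPermHom T Ω with hφ
  have hφa : ∀ (a : T) (x : Ω), φ a x = a • x := fun a x => rfl
  set H : Subgroup (Equiv.Perm Ω) := L.map φ with hH
  have hcomm : ∀ a ∈ H, ∀ b ∈ H, a * b = b * a := by
    rintro _ ⟨a, ha, rfl⟩ _ ⟨b, hb, rfl⟩
    rw [← map_mul, ← map_mul]
    ext x
    rw [hφa, hφa]
    exact hab a ha b hb x
  have htrH : ∀ x y : Ω, ∃ h ∈ H, h x = y := by
    intro x y
    obtain ⟨a, ha, hxy⟩ := htr x y
    exact ⟨φ a, ⟨a, ha, rfl⟩, by rw [hφa, hxy]⟩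
  have hreg : ∀ h ∈ H, ∀ x : Ω, h x = x → h = 1 := by
    intro h hh x hx
    ext y
    obtain ⟨k, hk, rfl⟩ := htrH x y
    have h1 : (h * k) x = (k * h) x := by rw [hcomm h hh k hk]
    simp only [Equiv.Perm.coe_mul, Function.comp_apply, hx] at h1
    simpa using h1
  have hreg2 : ∀ a ∈ H, ∀ b ∈ H, a x₀ = b x₀ → a = b := by
    intro a ha b hb h
    have h1 : b⁻¹ * a = 1 := by
      refine hreg _ (mul_mem (inv_mem hb) ha) x₀ ?_
      rw [Equiv.Perm.mul_apply, h, Equiv.Perm.inv_eq_iff_eq]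
    rw [inv_mul_eq_one] at h1
    exact h1.symm
  have hconj : ∀ h ∈ H, φ g * h * (φ g)⁻¹ ∈ H := by
    rintro _ ⟨a, ha, rfl⟩
    refine ⟨g * a * g⁻¹, hL.conj_mem a ha g, ?_⟩
    simp
  have hcardH : Nat.card H = Nat.card Ω := by
    refine Nat.card_congr (Equiv.ofBijective (fun h : H => (h : Equiv.Perm Ω) x₀) ⟨?_, ?_⟩)
    · intro a b h
      exact Subtype.ext (hreg2 _ a.2 _ b.2 h)
    · intro y
      obtain ⟨h, hh, hy⟩ := htrH x₀ y
      exact ⟨⟨h, hh⟩, hy⟩
  set C : Subgroup (Equiv.Perm Ω) := H ⊓ Subgroup.centralizer {φ g} with hC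
  have hCH : C ≤ H := inf_le_left
  have hCc : ∀ c ∈ C, φ g * c = c * φ g := by
    intro c hc
    exact (Subgroup.mem_centralizer_iff.mp hc.2) (φ g) rfl
  have hcardC : Nat.card C = Nat.card {x : Ω // g • x = x} := by
    refine Nat.card_congr (Equiv.ofBijective
      (fun c : C => (⟨(c : Equiv.Perm Ω) x₀, ?_⟩ : {x : Ω // g • x = x})) ⟨?_, ?_⟩)
    · have h1 : (φ g * (c : Equiv.Perm Ω)) x₀ = ((c : Equiv.Perm Ω) * φ g) x₀ := by
        rw [hCc c c.2]
      rw [Equiv.Perm.mul_apply, Equiv.Perm.mul_apply, hφa, hφa, hx₀] at h1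
      exact h1
    · intro a b h
      exact Subtype.ext (hreg2 _ (hCH a.2) _ (hCH b.2) (congrArg Subtype.val h))
    · rintro ⟨x, hx⟩
      obtain ⟨h, hh, hy⟩ := htrH x₀ x
      have hinv : (φ g)⁻¹ x₀ = x₀ := by
        rw [Equiv.Perm.inv_eq_iff_eq, hφa, hx₀]
      have h1 : φ g * h * (φ g)⁻¹ = h := by
        refine hreg2 _ (hconj h hh) _ hh ?_
        rw [Equiv.Perm.mul_apply, Equiv.Perm.mul_apply, hinv, hy, hφa, hx]
      have h2 : φ g * h = h * φ g := by
        rwa [mul_inv_eq_iff_eq_mul] at h1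
      refine ⟨⟨h, hh, ?_⟩, Subtype.ext hy⟩
      refine Subgroup.mem_centralizer_iff.mpr ?_
      intro k hk
      rw [Set.mem_singleton_iff] at hk
      rw [hk]
      exact h2
  rw [← hcardC, ← hcardH]
  exact Subgroup.card_dvd_of_le hCH

end H78TP
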