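import Pool.Agent.H78.TP.Base

/-!
[H78 TP BLKB] A block system with an abelian transitive group (45 min).

PROOF. `dS K i` is normal in `T` (`dS_normal`), `dS K 0 = K` is transitive on `Ω`, and
`dS K i = ⊥` for large `i` (`K` is soluble), which is not transitive (`2 ≤ |Ω|`). Let `i` be maximal
such that `L = dS K i` is transitive, and `L' = dS K (i + 1) = ⁅L, L⁆`, not transitive. `T` acts on
the set `B` of the orbits of `L'` (`L'` is normal in `T`), `|B| ≥ 2`, the map `Ω → B` is surjective
and equivariant, `L` is transitive on `B`. `L'` acts trivially on `B`, and `g h = ⁅g, h⁆ h g`, so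
`(g h) • b = (h g) • b` for `g, h ∈ L`. Transport everything to `Fin n`, `n = |B|`
(`Finite.equivFin`).
-/

namespace H78TP

open Subgroup
open scoped commutatorElement

theorem blkB {T Ω : Type*} [Group T] [MulAction T Ω] [Finite Ω] (K : Subgroup T)
    (hK : K.Normal) (hs : Group.IsSolvable K) (htr : ∀ x y : Ω, ∃ g ∈ K, g • x = y)
    (h2 : 2 ≤ Nat.card Ω) :
    ∃ (n : ℕ) (_ : MulAction T (Fin n)) (f : Ω → Fin n) (L : Subgroup T), L.Normal ∧ L ≤ K ∧
      (∀ (g : T) (x : Ω), f (g • x) = g • f x) ∧ Function.Surjective f ∧ 2 ≤ n ∧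
      (∀ i j : Fin n, ∃ g ∈ L, g • i = j) ∧
      (∀ g ∈ L, ∀ h ∈ L, ∀ i : Fin n, (g * h) • i = (h * g) • i) := by
  classical
  have hbot : ∃ m, dS K m = ⊥ := by
    obtain ⟨m, hm⟩ := (Group.isSolvable_def K).mp hs
    refine ⟨m, ?_⟩
    have h1 := dS_map K.subtype (⊤ : Subgroup K) m
    rw [dS_top_eq, hm, Subgroup.map_bot, ← MonoidHom.range_eq_map, Subgroup.range_subtype] at h1
    exact h1.symm
  have hnt : ∃ m, ¬ ∀ x y : Ω, ∃ g ∈ dS K m, g • x = y := by
    obtain ⟨m, hm⟩ := hbot
    refine ⟨m, fun h => ?_⟩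
    have h3 : Nat.card Ω ≤ 1 := by
      rw [Finite.card_le_one_iff_subsingleton]
      refine ⟨fun x y => ?_⟩
      obtain ⟨g, hg, hxy⟩ := h x y
      rw [hm, Subgroup.mem_bot] at hg
      rw [← hxy, hg, one_smul]
    omega
  obtain ⟨i, hi, hi'⟩ : ∃ i, (∀ x y : Ω, ∃ g ∈ dS K i, g • x = y) ∧
      ¬ ∀ x y : Ω, ∃ g ∈ dS K (i + 1), g • x = y := by
    have h0 : Nat.find hnt ≠ 0 := by
      intro h0
      have h1 := Nat.find_spec hnt
      rw [h0] at h1
      exact h1 htr
    obtain ⟨i, hi⟩ := Nat.exists_eq_succ_of_ne_zero h0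
    refine ⟨i, ?_, ?_⟩
    · exact not_not.mp (Nat.find_min hnt (by rw [hi]; exact Nat.lt_succ_self i))
    · have h1 := Nat.find_spec hnt
      rw [hi] at h1
      exact h1
  set L : Subgroup T := dS K i with hL
  set L' : Subgroup T := dS K (i + 1) with hL'
  have hLn : L.Normal := dS_normal hK i
  have hL'n : L'.Normal := dS_normal hK (i + 1)
  let s : Setoid Ω :=
    { r := fun x y => ∃ g ∈ L', g • x = y
      iseqv :=
        { refl := fun x => ⟨1, one_mem _, one_smul _ _⟩
          symm := by
            rintro x y ⟨g, hg, rfl⟩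
            exact ⟨g⁻¹, inv_mem hg, inv_smul_smul _ _⟩
          trans := by
            rintro x y z ⟨g, hg, rfl⟩ ⟨h, hh, rfl⟩
            exact ⟨h * g, mul_mem hh hg, mul_smul _ _ _⟩ } }
  have hs1 : ∀ {x y : Ω}, (Quotient.mk s x = Quotient.mk s y) ↔ ∃ g ∈ L', g • x = y := by
    intro x y
    exact Quotient.eq
  let B := Quotient s
  let act : T → B → B := fun g => Quotient.map (fun x => g • x) (by
    rintro x y ⟨k, hk, rfl⟩
    refine ⟨g * k * g⁻¹, hL'n.conj_mem k hk g, ?_⟩
    rw [mul_smul, inv_smul_smul, mul_smul])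
  have hact : ∀ (g : T) (x : Ω), act g (Quotient.mk s x) = Quotient.mk s (g • x) := fun g x => rfl
  have : Finite B := inferInstanceAs (Finite (Quotient s))
  let n := Nat.card B
  let e : B ≃ Fin n := Finite.equivFin B
  let MA : MulAction T (Fin n) :=
    { smul := fun g j => e (act g (e.symm j))
      one_smul := by
        intro j
        change e (act 1 (e.symm j)) = j
        rw [← Equiv.eq_symm_apply]
        induction e.symm j using Quotient.inductionOn with
        | h x =>
          rw [hact, one_smul]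
      mul_smul := by
        intro a b j
        change e (act (a * b) (e.symm j)) = e (act a (e.symm (e (act b (e.symm j)))))
        rw [Equiv.symm_apply_apply]
        congr 1
        induction e.symm j using Quotient.inductionOn with
        | h x =>
          rw [hact, hact, hact, mul_smul] }
  let f : Ω → Fin n := fun x => e (Quotient.mk s x)
  have hfs : Function.Surjective f := by
    intro j
    obtain ⟨x, hx⟩ := Quotient.exists_rep (e.symm j)
    exact ⟨x, by change e (Quotient.mk s x) = j; rw [hx, Equiv.apply_symm_apply]⟩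
  have hfe : ∀ (g : T) (x : Ω), f (g • x) = g • f x := by
    intro g x
    change e (Quotient.mk s (g • x)) = e (act g (e.symm (e (Quotient.mk s x))))
    rw [Equiv.symm_apply_apply, hact]
  have hfeq : ∀ x y : Ω, f x = f y ↔ ∃ g ∈ L', g • x = y := by
    intro x y
    change e (Quotient.mk s x) = e (Quotient.mk s y) ↔ _
    rw [e.apply_eq_iff_eq, hs1]
  refine ⟨n, MA, f, L, hLn, dS_le K i, hfe, hfs, ?_, ?_, ?_⟩
  · by_contra hn
    apply hi'
    intro x y
    rw [← hfeq]
    have h1 : Subsingleton (Fin n) := by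
      rw [Fin.subsingleton_iff_le_one]
      omega
    exact Subsingleton.elim _ _
  · intro j k
    obtain ⟨x, rfl⟩ := hfs j
    obtain ⟨y, rfl⟩ := hfs k
    obtain ⟨g, hg, hxy⟩ := hi x y
    exact ⟨g, hg, by rw [← hfe, hxy]⟩
  · intro g hg h hh j
    obtain ⟨x, rfl⟩ := hfs j
    rw [← hfe, ← hfe]
    symm
    rw [hfeq]
    refine ⟨⁅g, h⁆, ?_, ?_⟩
    · rw [hL', dS_succ]
      exact Subgroup.commutator_mem_commutator hg hh
    · rw [← mul_smul, commutatorElement_def]
      congr 1
      group

end H78TP
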