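import Pool.Agent.H78.TP.TDef
import Pool.Agent.H78.TP.BlkA
import Pool.Agent.H78.TP.BlkB

/-!
[H78 TP BLK] Blocks on which `α` or `Q` is trivial (60 min).

PROOF. (1) `K` is not transitive on `Ω`: take the set `B` of the orbits of `K` (`K` is normal), and
transport it to `Fin n`; `n ≥ 2`, and `Q ≤ K` acts trivially.
(2) `K` is transitive: `blkB` gives `n`, `f`, `L`. Suppose that `α` moves some `i₁` and `y ∈ Q`
moves some `i₂`. A block `i` moved by `α` is fixed by `Q`: take `x` with `f x = i`; `α x ≠ x`, so
`y x = x` for `y ∈ Q` by `hdis`, so `y i = i`. So `i₂` is fixed by `α`. Let `a` be the number of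
fixed `i` of `α`; by `blkA` (`x₀ = i₂`) `a ∣ n`, and `a < n`. `n` divides `|K|` (`K` is transitive
on `Fin n`, a finite group), so `p ∤ n`, and `p ∤ a`. The orbits of `zpowers α` on `Fin n` have
length 1 or `p`, so `p ∣ n - a`. So `n ≠ 2 a` (else `p ∣ n - a = a`), hence `3 a ≤ n`. By `blkA` for
`y`: if `y` fixes some `i`, the number of its fixed points is a proper divisor of `n`, so it is
`≤ n / 2`; otherwise it is `0`. So `y` moves at least `n / 2` blocks, and all of them are fixed by
`α`: `n / 2 ≤ a ≤ n / 3`, a contradiction.
-/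

namespace H78TP

open Subgroup
open scoped commutatorElement

private theorem blk_quot {T Ω : Type*} [Group T] [MulAction T Ω] [Finite Ω] (N : Subgroup T)
    (hN : N.Normal) :
    ∃ (n : ℕ) (_ : MulAction T (Fin n)) (f : Ω → Fin n),
      (∀ (g : T) (x : Ω), f (g • x) = g • f x) ∧ Function.Surjective f ∧
      (∀ x y : Ω, f x = f y ↔ ∃ g ∈ N, g • x = y) := by
  let s : Setoid Ω :=
    { r := fun x y => ∃ g ∈ N, g • x = y
      iseqv :=
        { refl := fun x => ⟨1, N.one_mem, one_smul _ _⟩
          symm := by
            rintro x y ⟨g, hg, rfl⟩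
            exact ⟨g⁻¹, N.inv_mem hg, inv_smul_smul _ _⟩
          trans := by
            rintro x y z ⟨g, hg, rfl⟩ ⟨g', hg', rfl⟩
            exact ⟨g' * g, N.mul_mem hg' hg, mul_smul _ _ _⟩ } }
  let m : T → Quotient s → Quotient s := fun g =>
    Quotient.map (fun x => g • x) (by
      rintro x y ⟨k, hk, rfl⟩
      refine ⟨g * k * g⁻¹, hN.conj_mem k hk g, ?_⟩
      rw [mul_smul, mul_smul, inv_smul_smul])
  have hm : ∀ (g : T) (x : Ω), m g (Quotient.mk s x) = Quotient.mk s (g • x) := fun _ _ => rfl
  let e : Quotient s ≃ Fin (Nat.card (Quotient s)) := Finite.equivFin _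
  let act : MulAction T (Fin (Nat.card (Quotient s))) :=
    { smul := fun g i => e (m g (e.symm i))
      one_smul := by
        intro i
        change e (m 1 (e.symm i)) = i
        obtain ⟨z, rfl⟩ := e.surjective i
        rw [e.symm_apply_apply]
        induction z using Quotient.inductionOn with
        | h x => rw [hm, one_smul]
      mul_smul := by
        intro g h i
        change e (m (g * h) (e.symm i)) = e (m g (e.symm (e (m h (e.symm i)))))
        obtain ⟨z, rfl⟩ := e.surjective i
        rw [e.symm_apply_apply, e.symm_apply_apply]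
        induction z using Quotient.inductionOn with
        | h x => rw [hm, hm, hm, mul_smul] }
  refine ⟨_, act, fun x => e (Quotient.mk s x), ?_, ?_, ?_⟩
  · intro g x
    change e (Quotient.mk s (g • x)) = e (m g (e.symm (e (Quotient.mk s x))))
    rw [e.symm_apply_apply, hm]
  · intro i
    obtain ⟨z, rfl⟩ := e.surjective i
    induction z using Quotient.inductionOn with
    | h x => exact ⟨x, rfl⟩
  · intro x y
    rw [e.injective.eq_iff]
    exact Quotient.eq (r := s)

theorem blk {p q : ℕ} [Fact p.Prime] [Fact q.Prime] {Γ Ω : Type*} [Group Γ] [Finite Γ]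
    [MulAction Γ Ω] [Finite Ω] {K Q : Subgroup Γ} {α : Γ} (h : TD p q K Q α)
    (htr : ∀ x y : Ω, ∃ g : Γ, g • x = y) (h2 : 2 ≤ Nat.card Ω)
    (hdis : ∀ x : Ω, α • x ≠ x → ∀ y ∈ Q, y • x = x) :
    ∃ (n : ℕ) (_ : MulAction Γ (Fin n)) (f : Ω → Fin n),
      (∀ (g : Γ) (x : Ω), f (g • x) = g • f x) ∧ Function.Surjective f ∧ 2 ≤ n ∧
      ((∀ i : Fin n, α • i = i) ∨ ∀ y ∈ Q, ∀ i : Fin n, y • i = i) := by
  by_cases hKt : ∀ x y : Ω, ∃ g ∈ K, g • x = y
  · obtain ⟨n, act, f, L, hLn, hLK, hf, hfs, hn, hLt, hLa⟩ := blkB K h.nK h.sK hKt h2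
    refine ⟨n, act, f, hf, hfs, hn, ?_⟩
    by_contra hcon
    rw [not_or] at hcon
    obtain ⟨hc1, hc2⟩ := hcon
    push Not at hc1 hc2
    obtain ⟨i₁, hi₁⟩ := hc1
    obtain ⟨y, hy, i₂, hi₂⟩ := hc2
    have hpp : p.Prime := Fact.out
    have hblk : ∀ i : Fin n, α • i = i ∨ y • i = i := by
      intro i
      by_cases hi : α • i = i
      · exact Or.inl hi
      · right
        obtain ⟨x, rfl⟩ := hfs i
        have h3 : α • x ≠ x := by
          intro h4
          apply hi
          rw [← hf, h4]
        rw [← hf, hdis x h3 y hy]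
    have hαi₂ : α • i₂ = i₂ := by
      rcases hblk i₂ with h3 | h3
      · exact h3
      · exact absurd h3 hi₂
    -- the numbers of fixed points
    have hcardn : Nat.card (Fin n) = n := Nat.card_fin n
    have hcf : ∀ z : Γ, Nat.card {i : Fin n // z • i = i} =
        (Finset.univ.filter fun i : Fin n => z • i = i).card := by
      intro z
      rw [Nat.card_eq_fintype_card, Fintype.card_subtype]
    have hlt : ∀ (z : Γ) (i : Fin n), z • i ≠ i →
        (Finset.univ.filter fun i : Fin n => z • i = i).card < n := by
      intro z i hi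
      have h3 : (Finset.univ.filter fun i : Fin n => z • i = i) ⊂ Finset.univ := by
        rw [Finset.ssubset_univ_iff]
        intro h4
        have h5 : i ∈ (Finset.univ.filter fun i : Fin n => z • i = i) := by
          rw [h4]
          exact Finset.mem_univ i
        exact hi (Finset.mem_filter.1 h5).2
      have h4 := Finset.card_lt_card h3
      rwa [Finset.card_univ, Fintype.card_fin] at h4
    have ha : (Finset.univ.filter fun i : Fin n => α • i = i).card ∣ n := by
      have h3 := blkA L hLn hLt hLa α i₂ hαi₂
      rwa [hcf, hcardn] at h3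
    have halt := hlt α i₁ hi₁
    have hblt := hlt y i₂ hi₂
    have hb : 2 * (Finset.univ.filter fun i : Fin n => y • i = i).card ≤ n := by
      by_cases h3 : ∃ i : Fin n, y • i = i
      · obtain ⟨i₃, hi₃⟩ := h3
        have h4 := blkA L hLn hLt hLa y i₃ hi₃
        rw [hcf, hcardn] at h4
        obtain ⟨c, hc⟩ := h4
        have h5 : 2 ≤ c := by
          rcases c with _ | _ | c
          · rw [mul_zero] at hc
            omega
          · rw [zero_add, mul_one] at hc
            omega
          · omega
        calc 2 * (Finset.univ.filter fun i : Fin n => y • i = i).card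
            = (Finset.univ.filter fun i : Fin n => y • i = i).card * 2 := mul_comm _ _
          _ ≤ (Finset.univ.filter fun i : Fin n => y • i = i).card * c :=
              Nat.mul_le_mul_left _ h5
          _ = n := hc.symm
      · have h4 : (Finset.univ.filter fun i : Fin n => y • i = i) = ∅ := by
          rw [Finset.filter_eq_empty_iff]
          intro i _ hi
          exact h3 ⟨i, hi⟩
        rw [h4, Finset.card_empty]
        omega
    have hsum : n ≤ (Finset.univ.filter fun i : Fin n => α • i = i).card +
        (Finset.univ.filter fun i : Fin n => y • i = i).card := by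
      have h3 : (Finset.univ : Finset (Fin n)) ⊆
          (Finset.univ.filter fun i : Fin n => α • i = i) ∪
            (Finset.univ.filter fun i : Fin n => y • i = i) := by
        intro i _
        rw [Finset.mem_union, Finset.mem_filter, Finset.mem_filter]
        rcases hblk i with h4 | h4
        · exact Or.inl ⟨Finset.mem_univ _, h4⟩
        · exact Or.inr ⟨Finset.mem_univ _, h4⟩
      have h4 := (Finset.card_le_card h3).trans (Finset.card_union_le _ _)
      rwa [Finset.card_univ, Fintype.card_fin] at h4
    -- `n` divides the order of `K`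
    have hnK : n ∣ Nat.card K := by
      have hpre : MulAction.IsPretransitive K (Fin n) := by
        refine ⟨fun i j => ?_⟩
        obtain ⟨g, hg, hgi⟩ := hLt i j
        exact ⟨⟨g, hLK hg⟩, hgi⟩
      have h3 := MulAction.index_stabilizer_of_transitive K i₁
      rw [hcardn] at h3
      rw [← h3]
      exact Subgroup.index_dvd_card _
    have hpn : ¬ p ∣ n := fun h3 => h.pK (h3.trans hnK)
    have hmod : n ≡ (Finset.univ.filter fun i : Fin n => α • i = i).card [MOD p] := by
      have h3 : IsPGroup p (Subgroup.zpowers α) := by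
        rintro ⟨z, i, rfl⟩
        refine ⟨1, Subtype.ext ?_⟩
        change (α ^ i) ^ p ^ 1 = 1
        rw [pow_one, ← zpow_natCast, ← zpow_mul, mul_comm, zpow_mul, zpow_natCast, h.ap, one_zpow]
      have h4 := h3.card_modEq_card_fixedPoints (Fin n)
      have h5 : Nat.card (MulAction.fixedPoints (Subgroup.zpowers α) (Fin n)) =
          (Finset.univ.filter fun i : Fin n => α • i = i).card := by
        rw [← hcf]
        apply Nat.card_congr
        refine Equiv.subtypeEquivRight fun i => ?_
        constructor
        · intro h6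
          exact h6 ⟨α, Subgroup.mem_zpowers α⟩
        · rintro h6 ⟨z, j, rfl⟩
          change α ^ j • i = i
          exact MulAction.mem_stabilizer_iff.1
            (Subgroup.zpow_mem (MulAction.stabilizer Γ i) (MulAction.mem_stabilizer_iff.2 h6) j)
      rwa [h5, hcardn] at h4
    obtain ⟨c, hc⟩ := ha
    have hc3 : 3 ≤ c := by
      rcases c with _ | _ | _ | c
      · rw [mul_zero] at hc
        omega
      · rw [zero_add, mul_one] at hc
        omega
      · exfalso
        have h3 : (Finset.univ.filter fun i : Fin n => α • i = i).card + 0 ≡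
            (Finset.univ.filter fun i : Fin n => α • i = i).card +
            (Finset.univ.filter fun i : Fin n => α • i = i).card [MOD p] := by
          have h4 : n = (Finset.univ.filter fun i : Fin n => α • i = i).card +
            (Finset.univ.filter fun i : Fin n => α • i = i).card := by omega
          rw [← h4, add_zero]
          exact hmod.symm
        have h5 := Nat.ModEq.add_left_cancel' _ h3
        have h6 : p ∣ (Finset.univ.filter fun i : Fin n => α • i = i).card :=
          (Nat.modEq_zero_iff_dvd).1 h5.symm
        apply hpn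
        rw [hc]
        exact h6.mul_right _
      · omega
    have h3a : 3 * (Finset.univ.filter fun i : Fin n => α • i = i).card ≤ n := by
      calc 3 * (Finset.univ.filter fun i : Fin n => α • i = i).card
          = (Finset.univ.filter fun i : Fin n => α • i = i).card * 3 := mul_comm _ _
        _ ≤ (Finset.univ.filter fun i : Fin n => α • i = i).card * c :=
            Nat.mul_le_mul_left _ hc3
        _ = n := hc.symm
    omega
  · obtain ⟨n, act, f, hf, hfs, hff⟩ := blk_quot (Ω := Ω) K h.nK
    push Not at hKt
    obtain ⟨x, y, hxy⟩ := hKt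
    refine ⟨n, act, f, hf, hfs, ?_, Or.inr ?_⟩
    · have h3 : f x ≠ f y := by
        intro h4
        obtain ⟨g, hg, hgx⟩ := (hff x y).1 h4
        exact hxy g hg hgx
      rw [← Fin.nontrivial_iff_two_le]
      exact ⟨f x, f y, h3⟩
    · intro z hz i
      obtain ⟨w, rfl⟩ := hfs i
      rw [← hf]
      exact ((hff w (z • w)).2 ⟨z, h.QK hz, rfl⟩).symm

end H78TP
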