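import Pool.Agent.H78.TP.Base

/-!
[H78 TP CHRA] Finite subgroups of a direct product of quasicyclic groups (30-45 min).

PROOF. `D` is commutative (through `e`). The map `x ↦ x ^ s` on `A` is a homomorphism with kernel
`K = {x ∈ A | x ^ s = 1}`. `K` embeds (through `e`) in the set of functions `z` with
`z i ∈ Quasicyclic (p i)` and `(z i) ^ s = 1`, that is in `Fin n → {z : ℂˣ | z ^ s = 1}`, and
`{z : ℂˣ | z ^ s = 1}` has at most `s` elements (`rootsOfUnity`, `card_rootsOfUnity`), so
`Nat.card K ≤ s ^ n`. The image of `x ↦ x ^ s` is contained in `V`, so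
`Nat.card A = Nat.card K * Nat.card (image) ≤ s ^ n * Nat.card V`, and
`V.relIndex A = Nat.card A / Nat.card V` (`Subgroup.card_mul_index`, `V ≤ A`), so it is
`≤ s ^ n`.
-/

namespace H78TP

open Subgroup
open scoped commutatorElement

theorem chrA {D : Type*} [Group D] {n : ℕ} {p : Fin n → ℕ}
    (e : D ≃* ((i : Fin n) → Quasicyclic (p i))) (A V : Subgroup D) [Finite A] (hV : V ≤ A)
    (s : ℕ) (hs : s.Prime) (h : ∀ x ∈ A, x ^ s ∈ V) : V.relIndex A ≤ s ^ n := by
  classical
  have : NeZero s := ⟨hs.ne_zero⟩
  let F : A →* ((i : Fin n) → Quasicyclic (p i)) :=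
    (powMonoidHom s).comp (e.toMonoidHom.comp A.subtype)
  have hF : ∀ x : A, F x = e (x : D) ^ s := fun x => rfl
  have hVf : Finite V := Finite.of_injective (Subgroup.inclusion hV) (Subgroup.inclusion_injective hV)
  have hVmap : Finite (V.map e.toMonoidHom) :=
    (Set.toFinite ((V : Set D))).image e.toMonoidHom |>.to_subtype
  have hr : F.range ≤ V.map e.toMonoidHom := by
    rintro _ ⟨x, rfl⟩
    refine ⟨(x : D) ^ s, h x x.2, ?_⟩
    rw [hF]
    exact map_pow e (x : D) s
  have hrc : Nat.card F.range ≤ Nat.card V := by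
    refine (Subgroup.card_le_of_le hr).trans (le_of_eq ?_)
    exact Subgroup.card_map_of_injective e.injective
  have hkc : Nat.card F.ker ≤ s ^ n := by
    have hroots : Nat.card (rootsOfUnity s ℂ) ≤ s := card_rootsOfUnity ℂ s
    let g : F.ker → (Fin n → rootsOfUnity s ℂ) := fun x i =>
      ⟨((e ((x : A) : D) i : Quasicyclic (p i)) : ℂˣ), by
        rw [mem_rootsOfUnity]
        have h1 : F (x : A) = 1 := x.2
        rw [hF] at h1
        have h2 := congrFun h1 i
        rw [Pi.pow_apply, Pi.one_apply] at h2
        have h3 := congrArg (fun y : Quasicyclic (p i) => (y : ℂˣ)) h2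
        simpa using h3⟩
    have hg : Function.Injective g := by
      intro x y hxy
      apply Subtype.ext
      apply Subtype.ext
      apply e.injective
      funext i
      apply Subtype.ext
      have h1 := congrFun hxy i
      exact congrArg (fun z : rootsOfUnity s ℂ => (z : ℂˣ)) h1
    have h1 := Nat.card_le_card_of_injective g hg
    refine h1.trans ?_
    rw [Nat.card_fun, Nat.card_eq_fintype_card (α := Fin n), Fintype.card_fin]
    exact Nat.pow_le_pow_left hroots n
  have hA := F.ker.card_mul_index
  rw [Subgroup.index_ker] at hA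
  have hI := (V.subgroupOf A).card_mul_index
  have hVA : Nat.card (V.subgroupOf A) = Nat.card V :=
    Nat.card_congr (Subgroup.subgroupOfEquivOfLe hV).toEquiv
  rw [hVA, ← hA] at hI
  have hpos : 0 < Nat.card V := Nat.card_pos
  have hle : Nat.card V * (V.subgroupOf A).index ≤ Nat.card V * s ^ n := by
    rw [hI, mul_comm (Nat.card V)]
    exact Nat.mul_le_mul hkc hrc
  exact Nat.le_of_mul_le_mul_left hle hpos

end H78TP
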