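import Pool.Agent.H78.TP.Base

/-!
[H78 TP CHWA] Chevalley-Warning step (60 min).

PROOF. Let `I' = {v | ∀ x ∈ I, β x v = 0}`, `finrank I' ≥ finrank T - finrank I ≥ finrank T - M`
(the kernel of `T → Dual I`). Let `Y` be a complement in `I'` of `I' ⊓ (C ⊔ I)`; then
`finrank Y = finrank I' - finrank (I' ⊓ (C ⊔ I)) ≥ finrank T - M - finrank C - M
≥ (M + 1) * (a + 1) + 2 * a - 2 * M > 2 * a`, and `Y ⊓ (C ⊔ I) = ⊥`. Choose a basis of `Y`, so
`Y ≃ (Fin d → ZMod l)` with `d > 2 a`. For `i < a` the function `v ↦ β v (r ^ i v)` on `Y` is given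
by a polynomial of total degree `≤ 2` in the coordinates. By the Chevalley-Warning theorem
(`char_dvd_card_solutions_of_fintype_sum_lt`: the sum of the degrees is `≤ 2 a < d`) the number of
common zeros in `Y` is divisible by `l`; `0` is one, so there is a common zero `v ≠ 0` in `Y`. So
`v ∉ C ⊔ I`, `β x v = 0` for `x ∈ I`, `β v (r ^ i v) = 0` for `i < a`, and for all `i` since
`r ^ a = 1`.
-/

namespace H78TP

open Subgroup
open scoped commutatorElement

private theorem chwA_poly (l : ℕ) [Fact l.Prime] (d a : ℕ) (hd : 2 * a < d)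
    (g : Fin a → Fin d → Fin d → ZMod l) :
    ∃ x : Fin d → ZMod l, x ≠ 0 ∧ ∀ i, ∑ j, ∑ k, x j * x k * g i j k = 0 := by
  classical
  let f : Fin a → MvPolynomial (Fin d) (ZMod l) := fun i =>
    ∑ j, ∑ k, MvPolynomial.X j * MvPolynomial.X k * MvPolynomial.C (g i j k)
  have hdeg : ∀ i, (f i).totalDegree ≤ 2 := by
    intro i
    refine MvPolynomial.totalDegree_finsetSum_le fun j _ => ?_
    refine MvPolynomial.totalDegree_finsetSum_le fun k _ => ?_
    refine (MvPolynomial.totalDegree_mul _ _).trans ?_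
    rw [MvPolynomial.totalDegree_C, add_zero]
    refine (MvPolynomial.totalDegree_mul _ _).trans ?_
    rw [MvPolynomial.totalDegree_X, MvPolynomial.totalDegree_X]
  have hsum : (∑ i, (f i).totalDegree) < Fintype.card (Fin d) := by
    calc (∑ i, (f i).totalDegree) ≤ ∑ _i : Fin a, 2 := Finset.sum_le_sum fun i _ => hdeg i
      _ = 2 * a := by simp [mul_comm]
      _ < _ := by simpa using hd
  have hdvd := char_dvd_card_solutions_of_fintype_sum_lt l hsum
  have heval : ∀ (x : Fin d → ZMod l) i, MvPolynomial.eval x (f i) =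
      ∑ j, ∑ k, x j * x k * g i j k := by
    intro x i
    simp only [f, map_sum, map_mul, MvPolynomial.eval_X, MvPolynomial.eval_C]
  let z : {x : Fin d → ZMod l // ∀ i, MvPolynomial.eval x (f i) = 0} :=
    ⟨0, fun i => by rw [heval]; simp⟩
  have hpos : 0 < Fintype.card {x : Fin d → ZMod l // ∀ i, MvPolynomial.eval x (f i) = 0} :=
    Fintype.card_pos_iff.2 ⟨z⟩
  have h2 : 1 < Fintype.card {x : Fin d → ZMod l // ∀ i, MvPolynomial.eval x (f i) = 0} :=
    lt_of_lt_of_le (Fact.out : l.Prime).one_lt (Nat.le_of_dvd hpos (by convert hdvd))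
  obtain ⟨y, hy⟩ := Fintype.exists_ne_of_one_lt_card h2 z
  refine ⟨y.1, fun h => hy (Subtype.ext h), fun i => ?_⟩
  rw [← heval]
  exact y.2 i

theorem chwA (l : ℕ) [Fact l.Prime] {T : Type*} [AddCommGroup T] [Module (ZMod l) T]
    [Module.Finite (ZMod l) T] (r : T →ₗ[ZMod l] T) (a : ℕ) (ha : 0 < a) (hr : r ^ a = 1)
    (β : T →ₗ[ZMod l] T →ₗ[ZMod l] ZMod l) (C I : Submodule (ZMod l) T)
    (M : ℕ) (hM : Module.finrank (ZMod l) I ≤ M)
    (hdim : Module.finrank (ZMod l) C + ((M + 1) * (a + 1) + 2 * a) ≤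
      Module.finrank (ZMod l) T) :
    ∃ v, v ∉ C ⊔ I ∧ (∀ x ∈ I, β x v = 0) ∧ ∀ i : ℕ, β v ((r ^ i) v) = 0 := by
  classical
  -- the annihilator of `I`
  let F : T →ₗ[ZMod l] (I →ₗ[ZMod l] ZMod l) :=
    (LinearMap.lcomp (ZMod l) (ZMod l) I.subtype) ∘ₗ β.flip
  have hF : ∀ v (x : I), F v x = β x v := fun v x => rfl
  let I' : Submodule (ZMod l) T := LinearMap.ker F
  have hI' : ∀ v ∈ I', ∀ x ∈ I, β x v = 0 := by
    intro v hv x hx
    have h1 : F v = 0 := hv
    rw [← hF v ⟨x, hx⟩, h1]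
    rfl
  have hfin : Module.finrank (ZMod l) T ≤ Module.finrank (ZMod l) I' + M := by
    have h1 := LinearMap.finrank_range_add_finrank_ker F
    have h2 : Module.finrank (ZMod l) (LinearMap.range F) ≤
        Module.finrank (ZMod l) (I →ₗ[ZMod l] ZMod l) := Submodule.finrank_le _
    have h3 : Module.finrank (ZMod l) (I →ₗ[ZMod l] ZMod l) = Module.finrank (ZMod l) I :=
      Subspace.dual_finrank_eq
    show _ ≤ Module.finrank (ZMod l) (LinearMap.ker F) + M
    omega
  -- a complement
  obtain ⟨Q, hQ⟩ := ((C ⊔ I).comap I'.subtype).exists_isCompl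
  have hQdim : Module.finrank (ZMod l) ((C ⊔ I).comap I'.subtype) +
      Module.finrank (ZMod l) Q = Module.finrank (ZMod l) I' :=
    Submodule.finrank_add_eq_of_isCompl hQ
  have hcomap : Module.finrank (ZMod l) ((C ⊔ I).comap I'.subtype) ≤
      Module.finrank (ZMod l) C + M := by
    have h1 : Module.finrank (ZMod l) ((C ⊔ I).comap I'.subtype) =
        Module.finrank (ZMod l) (((C ⊔ I).comap I'.subtype).map I'.subtype) :=
      (LinearEquiv.finrank_eq (Submodule.equivMapOfInjective _ I'.injective_subtype _))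
    have h2 : Module.finrank (ZMod l) (((C ⊔ I).comap I'.subtype).map I'.subtype) ≤
        Module.finrank (ZMod l) (C ⊔ I : Submodule (ZMod l) T) :=
      Submodule.finrank_mono (Submodule.map_comap_le _ _)
    have h3 := Submodule.finrank_add_le_finrank_add_finrank C I
    omega
  have hd : 2 * a < Module.finrank (ZMod l) Q := by
    have h1 : (M + 1) * (a + 1) = M * a + M + a + 1 := by ring
    have h2 : M ≤ M * a := Nat.le_mul_of_pos_right M ha
    omega
  let b := Module.finBasis (ZMod l) Q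
  obtain ⟨x, hx0, hx⟩ := chwA_poly l (Module.finrank (ZMod l) Q) a hd
    (fun i j k => β ((b j : I') : T) ((r ^ (i : ℕ)) ((b k : I') : T)))
  let w : Q := b.equivFun.symm x
  have hw : w = ∑ j, x j • b j := b.equivFun_symm_apply x
  have hw0 : w ≠ 0 := by
    intro h
    apply hx0
    exact (LinearEquiv.map_eq_zero_iff _).1 h
  let v : T := ((w : I') : T)
  have hv : v = ∑ j, x j • ((b j : I') : T) := by
    show ((w : I') : T) = _
    rw [hw]
    simp
  refine ⟨v, ?_, ?_, ?_⟩
  · intro hmem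
    apply hw0
    have h1 : (w : I') ∈ (C ⊔ I).comap I'.subtype := hmem
    have h2 : (w : I') ∈ (C ⊔ I).comap I'.subtype ⊓ Q := ⟨h1, w.2⟩
    rw [hQ.inf_eq_bot, Submodule.mem_bot] at h2
    exact Subtype.ext h2
  · intro y hy
    exact hI' v (w : I').2 y hy
  · have base : ∀ i < a, β v ((r ^ i) v) = 0 := by
      intro i hi
      have h1 := hx ⟨i, hi⟩
      rw [← h1, hv]
      simp only [map_sum, map_smul, LinearMap.sum_apply, LinearMap.smul_apply, smul_eq_mul,
        Finset.mul_sum]
      refine (Finset.sum_comm).trans ?_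
      refine Finset.sum_congr rfl fun j _ => Finset.sum_congr rfl fun k _ => ?_
      ring
    intro i
    have h1 : r ^ i = r ^ (i % a) := by
      conv_lhs => rw [← Nat.div_add_mod i a]
      rw [pow_add, pow_mul, hr, one_pow, one_mul]
    rw [h1]
    exact base _ (Nat.mod_lt _ ha)

end H78TP
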