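import Pool.Agent.H78.TP.ChwA

/-!
[H78 TP CHWB] A large invariant isotropic subspace (45 min).

PROOF. Claim: for every `d ≤ M + 1` there is `I` with all properties, `d ≤ finrank I`, and
`¬ I ≤ C` if `d ≥ 1`. Induction on `d`; `d = 0`: `I = ⊥`. Step from `d` to `d + 1 ≤ M + 1`: let `I`
be given. If `finrank I ≥ d + 1` (and `¬ I ≤ C`, or `d = 0`: then go on as below if `I ≤ C`) we are
done; otherwise `finrank I ≤ d ≤ M` and `chwA` gives `v`. Let
`I₁ = I ⊔ span {r ^ i v | i : ℕ}`. It is `r`-invariant. It is isotropic: `β x y = 0` for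
`x, y ∈ I`; `β x (r ^ i v) = 0` for `x ∈ I`: by `hinv` and `r ^ a = 1` it equals
`β (r ^ j x) v` with `i + j` divisible by `a`, and `r ^ j x ∈ I`; `β (r ^ i v) (r ^ j v) = 0`: if
`i ≤ j` it equals `β v (r ^ (j - i) v) = 0`, otherwise use that `β` is alternating, hence
`β x y = - β y x`. `v ∈ I₁`, `v ∉ C`, `v ∉ I`, so `¬ I₁ ≤ C` and `finrank I₁ > finrank I`.
(To start: apply the step once to `I = ⊥`.)
-/

namespace H78TP

open Subgroup
open scoped commutatorElement

private theorem chwB_step (l : ℕ) [Fact l.Prime] {T : Type*} [AddCommGroup T]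
    [Module (ZMod l) T] [Module.Finite (ZMod l) T] (r : T →ₗ[ZMod l] T) (a : ℕ) (ha : 0 < a)
    (hr : r ^ a = 1) (β : T →ₗ[ZMod l] T →ₗ[ZMod l] ZMod l)
    (hinv : ∀ x y, β (r x) (r y) = β x y) (halt : ∀ x, β x x = 0)
    (C : Submodule (ZMod l) T) (M : ℕ)
    (hdim : Module.finrank (ZMod l) C + ((M + 1) * (a + 1) + 2 * a) ≤
      Module.finrank (ZMod l) T) (I : Submodule (ZMod l) T) (hI1 : ∀ x ∈ I, r x ∈ I)
    (hI2 : ∀ x ∈ I, ∀ y ∈ I, β x y = 0) (hIM : Module.finrank (ZMod l) I ≤ M) :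
    ∃ J : Submodule (ZMod l) T, (∀ x ∈ J, r x ∈ J) ∧ (∀ x ∈ J, ∀ y ∈ J, β x y = 0) ∧
      ¬ J ≤ C ∧ Module.finrank (ZMod l) I < Module.finrank (ZMod l) J := by
  obtain ⟨v, hv1, hv2, hv3⟩ := chwA l r a ha hr β C I M hIM hdim
  have hskew : ∀ x y, β x y = - β y x := by
    intro x y
    have h1 := halt (x + y)
    simp only [map_add, LinearMap.add_apply, halt, zero_add, add_zero] at h1
    rw [add_comm] at h1
    exact eq_neg_of_add_eq_zero_left h1
  have hinvk : ∀ (k : ℕ) (x y : T), β ((r ^ k) x) ((r ^ k) y) = β x y := by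
    intro k
    induction k with
    | zero => intro x y; rfl
    | succ k ih =>
      intro x y
      rw [pow_succ', Module.End.mul_apply, Module.End.mul_apply, hinv, ih]
  have hIk : ∀ (k : ℕ), ∀ x ∈ I, (r ^ k) x ∈ I := by
    intro k
    induction k with
    | zero => intro x hx; exact hx
    | succ k ih =>
      intro x hx
      rw [pow_succ', Module.End.mul_apply]
      exact hI1 _ (ih x hx)
  have hA : ∀ x ∈ I, ∀ i : ℕ, β x ((r ^ i) v) = 0 := by
    intro x hx i
    rw [← hinvk ((a - 1) * i), ← Module.End.mul_apply (r ^ ((a - 1) * i)) (r ^ i) v, ← pow_add]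
    have h1 : (a - 1) * i + i = a * i := by
      obtain ⟨a', rfl⟩ : ∃ a', a = a' + 1 := ⟨a - 1, by omega⟩
      rw [Nat.add_sub_cancel]
      ring
    have h2 : r ^ (a * i) = 1 := by rw [pow_mul, hr, one_pow]
    rw [h1, h2]
    exact hv2 _ (hIk _ x hx)
  have hB : ∀ i j : ℕ, i ≤ j → β ((r ^ i) v) ((r ^ j) v) = 0 := by
    intro i j hij
    have h1 : (r ^ j) v = (r ^ i) ((r ^ (j - i)) v) := by
      rw [← Module.End.mul_apply, ← pow_add]
      congr 2
      omega
    rw [h1, hinvk]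
    exact hv3 _
  set S : Set T := (I : Set T) ∪ Set.range (fun i : ℕ => (r ^ i) v) with hS
  have hSS : ∀ x ∈ S, ∀ y ∈ S, β x y = 0 := by
    rintro x (hx | ⟨i, rfl⟩) y (hy | ⟨j, rfl⟩)
    · exact hI2 x hx y hy
    · exact hA x hx j
    · rw [hskew, hA y hy i, neg_zero]
    · rcases le_total i j with h | h
      · exact hB i j h
      · rw [hskew, hB j i h, neg_zero]
  have hS1 : ∀ x ∈ S, ∀ y ∈ Submodule.span (ZMod l) S, β x y = 0 := by
    intro x hx
    have h1 : Submodule.span (ZMod l) S ≤ LinearMap.ker (β x) :=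
      Submodule.span_le.2 fun y hy => hSS x hx y hy
    exact fun y hy => h1 hy
  have hS2 : ∀ x ∈ Submodule.span (ZMod l) S, ∀ y ∈ Submodule.span (ZMod l) S,
      β x y = 0 := by
    intro x hx y hy
    have h1 : Submodule.span (ZMod l) S ≤ LinearMap.ker (β.flip y) :=
      Submodule.span_le.2 fun z hz => hS1 z hz y hy
    exact h1 hx
  have hv : v ∈ Submodule.span (ZMod l) S :=
    Submodule.subset_span (Or.inr ⟨0, rfl⟩)
  have hIS : I ≤ Submodule.span (ZMod l) S := fun x hx => Submodule.subset_span (Or.inl hx)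
  refine ⟨Submodule.span (ZMod l) S, ?_, hS2, ?_, ?_⟩
  · have h1 : Submodule.span (ZMod l) S ≤ (Submodule.span (ZMod l) S).comap r := by
      rw [Submodule.span_le]
      rintro x (hx | ⟨i, rfl⟩)
      · exact Submodule.subset_span (Or.inl (hI1 x hx))
      · refine Submodule.subset_span (Or.inr ⟨i + 1, ?_⟩)
        show (r ^ (i + 1)) v = r ((r ^ i) v)
        rw [pow_succ', Module.End.mul_apply]
    exact fun x hx => h1 hx
  · exact fun h => hv1 (Submodule.mem_sup_left (h hv))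
  · apply Submodule.finrank_lt_finrank_of_lt
    refine lt_of_le_of_ne hIS fun h => hv1 (Submodule.mem_sup_right ?_)
    rw [h]
    exact hv

theorem chwB (l : ℕ) [Fact l.Prime] {T : Type*} [AddCommGroup T] [Module (ZMod l) T]
    [Module.Finite (ZMod l) T] (r : T →ₗ[ZMod l] T) (a : ℕ) (ha : 0 < a) (hr : r ^ a = 1)
    (β : T →ₗ[ZMod l] T →ₗ[ZMod l] ZMod l) (hinv : ∀ x y, β (r x) (r y) = β x y)
    (halt : ∀ x, β x x = 0) (C : Submodule (ZMod l) T) (M : ℕ)
    (hdim : Module.finrank (ZMod l) C + ((M + 1) * (a + 1) + 2 * a) ≤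
      Module.finrank (ZMod l) T) :
    ∃ I : Submodule (ZMod l) T, (∀ x ∈ I, r x ∈ I) ∧ (∀ x ∈ I, ∀ y ∈ I, β x y = 0) ∧
      ¬ I ≤ C ∧ M < Module.finrank (ZMod l) I := by
  have step := chwB_step l r a ha hr β hinv halt C M hdim
  have key : ∀ d : ℕ, d ≤ M → ∃ I : Submodule (ZMod l) T, (∀ x ∈ I, r x ∈ I) ∧
      (∀ x ∈ I, ∀ y ∈ I, β x y = 0) ∧ ¬ I ≤ C ∧ d < Module.finrank (ZMod l) I := by
    intro d
    induction d with
    | zero =>
      intro _
      obtain ⟨J, h1, h2, h3, h4⟩ := step ⊥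
        (fun x hx => by
          rw [Submodule.mem_bot] at hx ⊢
          rw [hx, map_zero])
        (fun x hx y _ => by
          rw [Submodule.mem_bot] at hx
          rw [hx, map_zero]
          rfl)
        (by rw [finrank_bot]; exact Nat.zero_le _)
      exact ⟨J, h1, h2, h3, by omega⟩
    | succ d ih =>
      intro hd
      obtain ⟨I, h1, h2, h3, h4⟩ := ih (by omega)
      rcases Nat.lt_or_ge (d + 1) (Module.finrank (ZMod l) I) with h5 | h5
      · exact ⟨I, h1, h2, h3, h5⟩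
      · obtain ⟨J, j1, j2, j3, j4⟩ := step I h1 h2 (by omega)
        exact ⟨J, j1, j2, j3, by omega⟩
  exact key M le_rfl

end H78TP
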