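import Pool.Agent.H78.TP.ChwB

/-!
[H78 TP CHWC] The same for groups (60 min).

PROOF. If `β x y = 1` for all `x, y` take `I = ⊤`: `¬ ⊤ ≤ C` and `M < |T|` because
`|T| ≥ |C| l ^ ((M+1)(a+1)+2a) > |C|`, `l ^ (M + 1) > M`. Otherwise let `ζ = β x₀ y₀ ≠ 1`;
`ζ ^ l = β (x₀ ^ l) y₀ = β 1 y₀ = 1`, so `ζ` is a primitive `l`-th root of unity in `k`, and every
value `β x y` is an `l`-th root of unity, so a unique power `ζ ^ (b x y)` with `b x y : ZMod l`
(`IsPrimitiveRoot`). `Additive T` is a `Module (ZMod l)` (`AddCommGroup.zmodModule`), finite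
dimensional, `b` is bilinear over `ZMod l` (biadditive suffices: `AddMonoidHom.toZModLinearMap`),
`b x x = 0`, `b (r x) (r y) = b x y`, `r` is a linear map with `r ^ a = 1`, `C` is a submodule.
`|C| l ^ e ≤ |T|` means `finrank C + e ≤ finrank T` (`|T| = l ^ finrank`). `chwB` gives `I`, and
`Nat.card I = l ^ finrank I > finrank I > M`.
-/

namespace H78TP

open Subgroup
open scoped commutatorElement

/-- the logarithm of the values of the form -/
private theorem chwC_log (l : ℕ) [Fact l.Prime] {k : Type*} [Field k] (ζ : k) (h1 : ζ ≠ 1)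
    (hl : ζ ^ l = 1) : ∃ e : ZMod l → k, (∀ i j, e (i + j) = e i * e j) ∧
      Function.Injective e ∧ e 0 = 1 ∧ ∀ w : k, w ^ l = 1 → ∃ i, e i = w := by
  have hprim : IsPrimitiveRoot ζ l := by
    have h2 := IsPrimitiveRoot.orderOf ζ
    rwa [orderOf_eq_prime hl h1] at h2
  have hpos : 0 < l := (Fact.out : l.Prime).pos
  have hne : NeZero l := ⟨hpos.ne'⟩
  refine ⟨fun i => ζ ^ i.val, ?_, ?_, ?_, ?_⟩
  · intro i j
    show ζ ^ (i + j).val = ζ ^ i.val * ζ ^ j.val
    rw [ZMod.val_add, ← pow_add]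
    conv_rhs => rw [← Nat.div_add_mod (i.val + j.val) l, pow_add, pow_mul, hl, one_pow, one_mul]
  · intro i j hij
    apply ZMod.val_injective l
    exact hprim.pow_inj (ZMod.val_lt i) (ZMod.val_lt j) hij
  · show ζ ^ (0 : ZMod l).val = 1
    rw [ZMod.val_zero, pow_zero]
  · intro w hw
    obtain ⟨i, hi, hiw⟩ := hprim.eq_pow_of_pow_eq_one hw
    refine ⟨(i : ZMod l), ?_⟩
    show ζ ^ (i : ZMod l).val = w
    rw [ZMod.val_natCast_of_lt hi]
    exact hiw

private theorem chwC_add (l : ℕ) [Fact l.Prime] {V : Type*} [AddCommGroup V] [Finite V]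
    [Module (ZMod l) V] (r : V →+ V) (a : ℕ) (ha : 0 < a) (hr : ∀ x, r^[a] x = x)
    (b : V → V → ZMod l) (hb1 : ∀ x y z, b (x + y) z = b x z + b y z)
    (hb2 : ∀ x y z, b x (y + z) = b x y + b x z) (halt : ∀ x, b x x = 0)
    (hinv : ∀ x y, b (r x) (r y) = b x y) (C : AddSubgroup V) (M : ℕ)
    (hdim : Nat.card C * l ^ ((M + 1) * (a + 1) + 2 * a) ≤ Nat.card V) :
    ∃ I : AddSubgroup V, (∀ x ∈ I, r x ∈ I) ∧ (∀ x ∈ I, ∀ y ∈ I, b x y = 0) ∧ ¬ I ≤ C ∧
      M < Nat.card I := by
  have hlp : l.Prime := Fact.out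
  have hfinT : Module.Finite (ZMod l) V := Module.Finite.of_finite
  have hb4 : ∀ y, b 0 y = 0 := by
    intro y
    have h1 := hb1 0 0 y
    rw [add_zero] at h1
    exact left_eq_add.1 h1
  have hb5 : ∀ x, b x 0 = 0 := by
    intro x
    have h1 := hb2 x 0 0
    rw [add_zero] at h1
    exact left_eq_add.1 h1
  let g : V → (V →+ ZMod l) := fun x =>
    { toFun := fun y => b x y
      map_zero' := hb5 _
      map_add' := fun y z => hb2 _ _ _ }
  let g' : V → (V →+ ZMod l) := fun y =>
    { toFun := fun x => b x y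
      map_zero' := hb4 _
      map_add' := fun x z => hb1 _ _ _ }
  let B : V →ₗ[ZMod l] V →ₗ[ZMod l] ZMod l :=
    LinearMap.mk₂ (ZMod l) b (fun x y z => hb1 _ _ _)
      (fun c x y => ZMod.map_smul (g' y) c x) (fun x y z => hb2 _ _ _)
      (fun c x y => ZMod.map_smul (g x) c y)
  have hB : ∀ x y, B x y = b x y := fun x y => rfl
  let rA : V →ₗ[ZMod l] V := r.toZModLinearMap l
  have hrA : ∀ x, rA x = r x := fun x => rfl
  have hrAk : ∀ (i : ℕ) x, (rA ^ i) x = r^[i] x := by
    intro i
    induction i with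
    | zero => intro x; rfl
    | succ i ih =>
      intro x
      rw [pow_succ', Module.End.mul_apply, ih, Function.iterate_succ_apply', hrA]
  have hrA1 : rA ^ a = 1 := by
    apply LinearMap.ext
    intro x
    rw [hrAk, hr]
    rfl
  let CA : Submodule (ZMod l) V := AddSubgroup.toZModSubmodule l C
  have hCA : ∀ x : V, x ∈ CA ↔ x ∈ C := fun x => Iff.rfl
  have hcardT : Nat.card V = l ^ Module.finrank (ZMod l) V := by
    have h1 := Module.natCard_eq_pow_finrank (K := ZMod l) (V := V)
    rwa [Nat.card_zmod] at h1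
  have hcardC : Nat.card C = l ^ Module.finrank (ZMod l) CA := by
    have h1 := Module.natCard_eq_pow_finrank (K := ZMod l) (V := CA)
    rw [Nat.card_zmod] at h1
    exact h1
  have hdim' : Module.finrank (ZMod l) CA + ((M + 1) * (a + 1) + 2 * a) ≤
      Module.finrank (ZMod l) V := by
    rw [hcardC, hcardT, ← pow_add] at hdim
    exact (Nat.pow_le_pow_iff_right hlp.one_lt).1 hdim
  obtain ⟨I, hI1, hI2, hI3, hI4⟩ := chwB l rA a ha hrA1 B (fun x y => hinv x y)
    (fun x => halt x) CA M hdim'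
  refine ⟨I.toAddSubgroup, fun x hx => hI1 _ hx, fun x hx y hy => hI2 _ hx _ hy,
    fun h => hI3 fun x hx => ?_, ?_⟩
  · rw [hCA]
    exact h hx
  · have h1 := Module.natCard_eq_pow_finrank (K := ZMod l) (V := I)
    rw [Nat.card_zmod] at h1
    have h2 : Nat.card I.toAddSubgroup = Nat.card I := rfl
    rw [h2, h1]
    exact hI4.trans (Nat.lt_pow_self hlp.one_lt)

theorem chwC (l : ℕ) [Fact l.Prime] {k : Type*} [Field k] {T : Type*} [CommGroup T] [Finite T]
    (hT : ∀ x : T, x ^ l = 1) (r : MulAut T) (a : ℕ) (ha : 0 < a) (hr : r ^ a = 1)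
    (β : T → T → k) (hmul : ∀ x y z, β (x * y) z = β x z * β y z)
    (hmul' : ∀ x y z, β x (y * z) = β x y * β x z) (hne : ∀ x y, β x y ≠ 0)
    (halt : ∀ x, β x x = 1) (hinv : ∀ x y, β (r x) (r y) = β x y) (C : Subgroup T) (M : ℕ)
    (hdim : Nat.card C * l ^ ((M + 1) * (a + 1) + 2 * a) ≤ Nat.card T) :
    ∃ I : Subgroup T, (∀ x ∈ I, r x ∈ I) ∧ (∀ x ∈ I, ∀ y ∈ I, β x y = 1) ∧ ¬ I ≤ C ∧
      M < Nat.card I := by
  have hlp : l.Prime := Fact.out
  have hCpos : 0 < Nat.card C := Nat.card_pos
  by_cases hall : ∀ x y, β x y = 1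
  · refine ⟨⊤, fun x _ => Subgroup.mem_top _, fun x _ y _ => hall x y, ?_, ?_⟩
    · intro h
      have h1 : C = ⊤ := top_le_iff.1 h
      rw [h1, Subgroup.card_top] at hdim
      have h2 : 0 < Nat.card T := Nat.card_pos
      have h3 : 1 < l ^ ((M + 1) * (a + 1) + 2 * a) := Nat.one_lt_pow (by positivity) hlp.one_lt
      nlinarith
    · rw [Subgroup.card_top]
      have h3 : (M + 1) * (a + 1) + 2 * a < l ^ ((M + 1) * (a + 1) + 2 * a) :=
        Nat.lt_pow_self hlp.one_lt
      have h4 : M ≤ (M + 1) * (a + 1) + 2 * a := by nlinarith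
      have h5 : l ^ ((M + 1) * (a + 1) + 2 * a) ≤
          Nat.card C * l ^ ((M + 1) * (a + 1) + 2 * a) := Nat.le_mul_of_pos_left _ hCpos
      exact h4.trans_lt (h3.trans_le (h5.trans hdim))
  · push Not at hall
    obtain ⟨x₀, y₀, h0⟩ := hall
    have hone : ∀ y, β 1 y = 1 := by
      intro y
      have h1 := hmul 1 1 y
      rw [one_mul] at h1
      exact mul_left_cancel₀ (hne 1 y) (by rw [← h1, mul_one])
    have hone' : ∀ x, β x 1 = 1 := by
      intro x
      have h1 := hmul' x 1 1
      rw [one_mul] at h1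
      exact mul_left_cancel₀ (hne x 1) (by rw [← h1, mul_one])
    have hpow : ∀ x y (n : ℕ), β (x ^ n) y = β x y ^ n := by
      intro x y n
      induction n with
      | zero => rw [pow_zero, pow_zero, hone]
      | succ n ih => rw [pow_succ, hmul, ih, pow_succ]
    have hroot : ∀ x y, β x y ^ l = 1 := by
      intro x y
      rw [← hpow, hT, hone]
    obtain ⟨e, he1, he2, he3, he4⟩ := chwC_log l (β x₀ y₀) h0 (hroot x₀ y₀)
    choose b hb using fun x y => he4 (β x y) (hroot x y)
    have hb1 : ∀ x y z, b (x * y) z = b x z + b y z := by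
      intro x y z
      apply he2
      rw [he1, hb, hb, hb, hmul]
    have hb2 : ∀ x y z, b x (y * z) = b x y + b x z := by
      intro x y z
      apply he2
      rw [he1, hb, hb, hb, hmul']
    have hb3 : ∀ x y, b x y = 0 ↔ β x y = 1 := by
      intro x y
      constructor
      · intro h
        rw [← hb x y, h, he3]
      · intro h
        apply he2
        rw [hb, h, he3]
    have hb4 : ∀ y, b 1 y = 0 := fun y => (hb3 1 y).2 (hone y)
    have hb5 : ∀ x, b x 1 = 0 := fun x => (hb3 x 1).2 (hone' x)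
    -- the vector space
    letI : Module (ZMod l) (Additive T) := AddCommGroup.zmodModule (n := l) (fun x => by
      have h1 := hT x.toMul
      exact congrArg Additive.ofMul h1)
    have hrk : ∀ (i : ℕ) (x : Additive T), (MonoidHom.toAdditive (r : T →* T))^[i] x =
        Additive.ofMul ((r ^ i) x.toMul) := by
      intro i
      induction i with
      | zero => intro x; rfl
      | succ i ih =>
        intro x
        rw [Function.iterate_succ_apply', ih, pow_succ']
        rfl
    obtain ⟨I, hI1, hI2, hI3, hI4⟩ := chwC_add l (V := Additive T)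
      (MonoidHom.toAdditive (r : T →* T)) a ha
      (fun x => by
        rw [hrk, hr]
        rfl)
      (fun x y => b x.toMul y.toMul) (fun x y z => hb1 _ _ _) (fun x y z => hb2 _ _ _)
      (fun x => (hb3 _ _).2 (halt _))
      (fun x y => by
        apply he2
        rw [hb, hb]
        exact hinv _ _)
      (Subgroup.toAddSubgroup C) M (by
        have h1 : Nat.card (Subgroup.toAddSubgroup C) = Nat.card C :=
          Nat.card_congr (Equiv.subtypeEquiv Additive.toMul fun x => Iff.rfl)
        have h2 : Nat.card (Additive T) = Nat.card T := Nat.card_congr Additive.toMul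
        rw [h1, h2]
        exact hdim)
    let J : Subgroup T :=
      { carrier := {x | Additive.ofMul x ∈ I}
        one_mem' := I.zero_mem
        mul_mem' := fun hx hy => I.add_mem hx hy
        inv_mem' := fun hx => I.neg_mem hx }
    refine ⟨J, fun x hx => hI1 _ hx, fun x hx y hy => ?_, fun h => hI3 fun x hx => ?_, ?_⟩
    · rw [← hb3]
      exact hI2 _ hx _ hy
    · exact h hx
    · have h2 : Nat.card J = Nat.card I :=
        Nat.card_congr (Equiv.subtypeEquiv Additive.ofMul fun x => Iff.rfl)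
      rw [h2]
      exact hI4

end H78TP
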