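import Pool.Agent.H78.TP.TDef
import Pool.Agent.H78.TP.Cfp

/-!
[H78 TP COA] Centralisers of a coprime automorphism in factor groups (30 min).

PROOF. `coA`: `≥` is clear. `≤`: let `g ∈ K` with `f g` commuting with `f α`, and
`N = f.ker ⊓ K`, a normal subgroup of order prime to `p`. `zpowers α` is a `p`-group (`α ^ p = 1`),
and `x g x⁻¹ g⁻¹ ∈ N` for `x ∈ zpowers α` (it is in `K` as `K` is normal, and `f x` commutes with
`f g`). `cfp` gives `y ∈ N` such that `y * g` commutes with `α`; `y * g ∈ K`, `f (y * g) = f g`.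
`td_map`: `K.map f` is normal, soluble, of order prime to `p` (a divisor of `|K|`), `f α ^ p = 1`,
`K.map f ⊔ zpowers (f α) = ⊤`; for `Qn` use `coA`: an element of `K.map f` which commutes with
`f α` is `f c` with `c ∈ K` commuting with `α`.
`td_sub`: `top`: an element of `Δ` is `x α ^ i` with `x ∈ K` (normal), and `x ∈ Δ` as `α ∈ Δ`. The
other clauses are direct (`|K.subgroupOf Δ|` divides `|K|`).
-/

namespace H78TP

open Subgroup
open scoped commutatorElement

private theorem coa_cen {Γ : Type*} [Group Γ] {α x : Γ} :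
    x ∈ centralizer {α} ↔ α * x = x * α := by
  rw [Subgroup.mem_centralizer_iff]
  exact ⟨fun h => h α (Set.mem_singleton α), fun h y hy => by
    rw [Set.mem_singleton_iff.1 hy]
    exact h⟩

theorem coA {Γ Γ' : Type*} [Group Γ] [Finite Γ] [Group Γ'] (f : Γ →* Γ')
    (hf : Function.Surjective f) (p : ℕ) [Fact p.Prime] (K : Subgroup Γ) (hK : K.Normal)
    (hp : ¬ p ∣ Nat.card K) (α : Γ) (hα : α ^ p = 1) :
    K.map f ⊓ centralizer {f α} = (K ⊓ centralizer {α}).map f := by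
  apply le_antisymm
  · rintro x ⟨⟨g, hg, rfl⟩, hx⟩
    have hx' : f α * f g = f g * f α := coa_cen.1 hx
    have hS : IsPGroup p (Subgroup.zpowers α) := by
      rintro ⟨_, i, rfl⟩
      refine ⟨1, Subtype.ext ?_⟩
      change (α ^ i) ^ (p ^ 1) = 1
      rw [pow_one, ← zpow_natCast, ← zpow_mul, mul_comm, zpow_mul, zpow_natCast, hα, one_zpow]
    have hcomm : ∀ i : ℤ, Commute (f α ^ i) (f g) := fun i => Commute.zpow_left hx' i
    obtain ⟨y, hy, h1⟩ := cfp p (Subgroup.zpowers α) (f.ker ⊓ K) hS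
      (fun h => hp (h.trans (Subgroup.card_dvd_of_le inf_le_right)))
      (fun x _ y hy => ⟨(inferInstance : f.ker.Normal).conj_mem y hy.1 x, hK.conj_mem y hy.2 x⟩)
      g (by
        rintro _ ⟨i, rfl⟩
        refine ⟨?_, K.mul_mem (hK.conj_mem g hg _) (K.inv_mem hg)⟩
        change f (α ^ i * g * (α ^ i)⁻¹ * g⁻¹) = 1
        rw [map_mul, map_mul, map_mul, map_inv, map_inv, map_zpow, (hcomm i).eq,
          mul_inv_cancel_right, mul_inv_cancel])
    refine ⟨y * g, ⟨K.mul_mem hy.2 hg, ?_⟩, ?_⟩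
    · exact coa_cen.2 (h1 α (Subgroup.mem_zpowers α))
    · have h2 : f y = 1 := hy.1
      rw [map_mul, h2, one_mul]
  · rintro _ ⟨g, ⟨hg, hc⟩, rfl⟩
    refine ⟨⟨g, hg, rfl⟩, coa_cen.2 ?_⟩
    rw [← map_mul, ← map_mul, coa_cen.1 hc]

theorem td_map {p q : ℕ} [Fact p.Prime] {Γ Γ' : Type*} [Group Γ] [Finite Γ] [Group Γ']
    (f : Γ →* Γ') (hf : Function.Surjective f) {K Q : Subgroup Γ} {α : Γ}
    (h : TD p q K Q α) : TD p q (K.map f) (Q.map f) (f α) where
  nK := h.nK.map f hf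
  sK := by
    have h1 := h.sK
    exact Group.isSolvable_of_surjective (f.subgroupMap_surjective K)
  pK := fun hd => h.pK (hd.trans (Subgroup.card_map_dvd K f))
  ap := by rw [← map_pow, h.ap, map_one]
  top := by
    rw [← MonoidHom.map_zpowers, ← Subgroup.map_sup, h.top,
      Subgroup.map_top_of_surjective f hf]
  QK := Subgroup.map_mono h.QK
  Qgr := h.Qgr.map f
  Qa := by
    rintro _ ⟨y, hy, rfl⟩
    rw [← map_mul, ← map_mul, h.Qa y hy]
  Qn := by
    rintro c hc hca _ ⟨y, hy, rfl⟩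
    have h1 : c ∈ K.map f ⊓ centralizer {f α} := ⟨hc, coa_cen.2 hca⟩
    rw [coA f hf p K h.nK h.pK α h.ap] at h1
    obtain ⟨c', ⟨hc1, hc2⟩, rfl⟩ := h1
    exact ⟨c' * y * c'⁻¹, h.Qn c' hc1 (coa_cen.1 hc2) y hy, by rw [map_mul, map_mul, map_inv]⟩

theorem td_sub {p q : ℕ} [Fact p.Prime] {Γ : Type*} [Group Γ] [Finite Γ]
    {K Q : Subgroup Γ} {α : Γ} (h : TD p q K Q α) (Δ : Subgroup Γ) (hα : α ∈ Δ) (hQ : Q ≤ Δ) :
    TD p q (K.subgroupOf Δ) (Q.subgroupOf Δ) (⟨α, hα⟩ : Δ) where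
  nK := by
    have := h.nK
    exact Subgroup.normal_subgroupOf
  sK := by
    have := h.sK
    let g : K.subgroupOf Δ →* K :=
      { toFun := fun x => ⟨((x : Δ) : Γ), x.2⟩
        map_one' := rfl
        map_mul' := fun _ _ => rfl }
    refine Group.isSolvable_of_isSolvable_injective (f := g) ?_
    intro x y hxy
    have h1 := congrArg Subtype.val hxy
    exact Subtype.ext (Subtype.ext h1)
  pK := by
    intro hd
    apply h.pK
    refine hd.trans ?_
    have h1 : Nat.card (K.subgroupOf Δ) = Nat.card ((K.subgroupOf Δ).map Δ.subtype) :=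
      (Subgroup.card_map_of_injective Δ.subtype_injective).symm
    rw [h1, Subgroup.subgroupOf_map_subtype]
    exact Subgroup.card_dvd_of_le inf_le_left
  ap := Subtype.ext h.ap
  top := by
    rw [eq_top_iff]
    rintro ⟨x, hx⟩ _
    have hn := h.nK
    have h1 : x ∈ K ⊔ Subgroup.zpowers α := by
      rw [h.top]
      exact Subgroup.mem_top x
    rw [Subgroup.mem_sup_of_normal_left] at h1
    obtain ⟨y, hy, z, hz, rfl⟩ := h1
    obtain ⟨i, rfl⟩ := hz
    have hz' : α ^ i ∈ Δ := Δ.zpow_mem hα i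
    have hy' : y ∈ Δ := by
      have h2 := Δ.mul_mem hx (Δ.inv_mem hz')
      rwa [mul_inv_cancel_right] at h2
    have h3 : (⟨y * α ^ i, hx⟩ : Δ) = ⟨y, hy'⟩ * ⟨α ^ i, hz'⟩ := rfl
    change (⟨y * α ^ i, hx⟩ : Δ) ∈ _
    rw [h3]
    refine Subgroup.mul_mem _ (Subgroup.mem_sup_left hy) (Subgroup.mem_sup_right ?_)
    exact ⟨i, Subtype.ext (by simp)⟩
  QK := Subgroup.comap_mono h.QK
  Qgr := h.Qgr.comap_of_injective Δ.subtype Δ.subtype_injective
  Qa := fun y hy => Subtype.ext (h.Qa y hy)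
  Qn := fun c hc hca y hy => h.Qn c hc (congrArg Subtype.val hca) y hy

end H78TP
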