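import Pool.Agent.H78.TP.CoB

/-!
[H78 TP IMB] `α` trivial and `Q` not trivial on the blocks (40 min).

PROOF. If `v ∈ W i₀` and `τ α v = v` then `τ y v = v` by `hC`, but `τ y v ∈ W (y • i₀)`,
`y • i₀ ≠ i₀`, so `v = 0` (independence). Let `j` be an index and `v ∈ W j` with `τ α v = v`. There
is `g : Γ` with `g • i₀ = j`. Let `Δ` be the set of the elements of `Γ` which fix all indices, a
normal subgroup with `α ∈ Δ`, so `g α g⁻¹ ∈ Δ`, and by `coB` `g = x c` with `x ∈ Δ`, `c` commuting with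
`α`. So `c • i₀ = j`, `τ c⁻¹ v ∈ W i₀` is fixed by `α`, so it is `0`, and `v = 0`. Finally let
`τ α u = u` and `u = ∑ u_j` with `u_j ∈ W j` (`htop`); as `α` fixes all indices `τ α u_j = u_j`
(independence), so `u_j = 0` and `u = 0`.
-/

namespace H78TP

open Subgroup
open scoped commutatorElement

variable {k Γ U : Type*} [Field k] [Group Γ] [AddCommGroup U] [Module k U]

theorem imB [Finite Γ] (p q : ℕ) [Fact p.Prime] [Fact q.Prime] (τ : Representation k Γ U)
    {K Q : Subgroup Γ} {α : Γ} (h : TD p q K Q α) {ι : Type*} [Finite ι] [MulAction Γ ι]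
    (W : ι → Submodule k U) (hind : iSupIndep W) (htop : (⨆ i, W i) = ⊤)
    (hW : ∀ (g : Γ) (i : ι) (v : U), v ∈ W i → τ g v ∈ W (g • i))
    (htr : ∀ i j : ι, ∃ g : Γ, g • i = j) (hα : ∀ i : ι, α • i = i)
    (hC : ∀ u, τ α u = u → ∀ y ∈ Q, τ y u = u) (y : Γ) (hy : y ∈ Q) (i₀ : ι)
    (hi₀ : y • i₀ ≠ i₀) : ∀ u, τ α u = u → u = 0 := by
  intro u hu
  have h1 : ∀ v ∈ W i₀, τ α v = v → v = 0 := by
    intro v hv hαv
    have h2 := hC v hαv y hy
    have h3 := hW y i₀ v hv
    rw [h2] at h3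
    exact Submodule.disjoint_def.1 (hind.pairwiseDisjoint hi₀.symm) v hv h3
  have h2 : ∀ j, ∀ v ∈ W j, τ α v = v → v = 0 := by
    intro j v hv hαv
    obtain ⟨g, rfl⟩ := htr i₀ j
    have hαΔ : α ∈ (MulAction.toPermHom Γ ι).ker := by
      rw [MonoidHom.mem_ker]
      ext i
      exact hα i
    obtain ⟨x, hx, c, rfl, hc⟩ := coB p K h.nK h.pK α h.ap h.top
      (MulAction.toPermHom Γ ι).ker hαΔ g
      ((MonoidHom.normal_ker (MulAction.toPermHom Γ ι)).conj_mem α hαΔ g)
    have hx2 := MonoidHom.mem_ker.1 hx.2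
    have h3 : (x * c) • i₀ = c • i₀ := by
      rw [mul_smul]
      have h4 := congrArg (fun f : Equiv.Perm ι => f (c • i₀)) hx2
      exact h4
    rw [h3] at hv
    have h4 : τ c⁻¹ v ∈ W i₀ := by
      have h5 := hW c⁻¹ _ v hv
      rwa [inv_smul_smul] at h5
    have h5 : τ α (τ c⁻¹ v) = τ c⁻¹ v := by
      have h6 : α * c⁻¹ = c⁻¹ * α := (Commute.inv_right (show Commute α c from hc)).eq
      rw [← Module.End.mul_apply, ← map_mul, h6, map_mul, Module.End.mul_apply, hαv]
    have h6 := h1 _ h4 h5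
    have h7 : τ c (τ c⁻¹ v) = v := by
      rw [← Module.End.mul_apply, ← map_mul, mul_inv_cancel, map_one]
      rfl
    rw [← h7, h6, map_zero]
  have h3 : u ∈ ⨆ i, W i := by rw [htop]; exact Submodule.mem_top
  obtain ⟨f, hf, hfu⟩ := (Submodule.mem_iSup_iff_exists_finsupp W u).1 h3
  have h4 : ∑ i ∈ f.support, (τ α (f i) - f i) = 0 := by
    rw [Finset.sum_sub_distrib, ← map_sum]
    have h5 : ∑ i ∈ f.support, f i = u := hfu
    rw [h5, hu, sub_self]
  have h5 : ∀ i ∈ f.support, f i = 0 := by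
    intro i hi
    have h6 := (iSupIndep_iff_finsetSum_eq_zero_imp_eq_zero W).1 hind f.support
      (fun i => τ α (f i) - f i) (fun j _ => by
        refine Submodule.sub_mem _ ?_ (hf j)
        have h7 := hW α j _ (hf j)
        rwa [hα j] at h7) h4 i hi
    exact h2 i _ (hf i) (sub_eq_zero.1 h6)
  rw [← hfu]
  exact Finset.sum_eq_zero h5

end H78TP
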