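import Pool.Agent.H78.TP.TDef

/-!
[H78 TP IMA] On a block moved by `α` the group `Q` is trivial (45 min).

PROOF. Let `i` be moved by `α`; `α ^ p = 1` and `p` is prime, so `α ^ s i = i` only if `p ∣ s`, and
`i, α i, ..., α ^ (p-1) i` are distinct. Let `v ∈ W i` and `u = ∑ s < p, τ (α ^ s) v`, fixed by
`τ α`. So `τ y u = u` for `y ∈ Q` by `hC`. `τ y u = ∑ τ (α ^ s) (τ y v)` has its components in
`W (α ^ s • y • i)`. First take `v ≠ 0` (`hne`): comparing the components of `τ y u = u` (the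
family `W` is independent) we get `y • i = α ^ s • i` for some `s`. Then
`y ^ t • i = α ^ (s t) • i` (`y` commutes with `α`), and with `t = orderOf y`, a power of `q`, prime to
`p`: `α ^ (s t) • i = i`, so `p ∣ s t`, `p ∣ s`, and `y • i = i`. Now for every `v ∈ W i` the component
of `τ y u = u` in `W i` is `τ y v = v`.
-/

namespace H78TP

open Subgroup
open scoped commutatorElement

variable {k Γ U : Type*} [Field k] [Group Γ] [AddCommGroup U] [Module k U]

private theorem ImA_ord (p : ℕ) [Fact p.Prime] {α : Γ} (hα : α ^ p = 1) {ι : Type*}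
    [MulAction Γ ι] {j : ι} (hj : α • j ≠ j) (m : ℕ) (hm : α ^ m • j = j) : p ∣ m := by
  have hp : p.Prime := Fact.out
  have hne : α ≠ 1 := by
    rintro rfl
    exact hj (one_smul _ _)
  have hord : orderOf α = p := orderOf_eq_prime hα hne
  by_contra hnd
  have hco : m.Coprime (orderOf α) := by
    rw [hord]
    exact ((Nat.Prime.coprime_iff_not_dvd hp).2 hnd).symm
  obtain ⟨a, ha⟩ := exists_pow_eq_self_of_coprime hco
  have h1 : α ^ m ∈ MulAction.stabilizer Γ j := hm
  have h2 := pow_mem h1 a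
  rw [ha] at h2
  exact hj h2

private theorem ImA_zero (p : ℕ) [Fact p.Prime] (τ : Representation k Γ U) {α : Γ}
    (hα : α ^ p = 1) {ι : Type*} [MulAction Γ ι] (W : ι → Submodule k U) (hind : iSupIndep W)
    (hW : ∀ (g : Γ) (i : ι) (v : U), v ∈ W i → τ g v ∈ W (g • i)) {j : ι} (hj : α • j ≠ j)
    {x z : U} (hx : x ∈ W j) (hz : z ∈ ⨆ (i) (_ : i ≠ j), W i)
    (hsum : ∑ s ∈ Finset.range p, τ (α ^ s) x = z) : x = 0 := by
  have hp : p.Prime := Fact.out
  have h0 : 0 ∈ Finset.range p := Finset.mem_range.2 hp.pos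
  rw [← Finset.add_sum_erase _ _ h0] at hsum
  have h1 : τ (α ^ 0) x = x := by
    rw [pow_zero, map_one]
    rfl
  rw [h1] at hsum
  have h2 : ∑ s ∈ (Finset.range p).erase 0, τ (α ^ s) x ∈ ⨆ (i) (_ : i ≠ j), W i := by
    apply Submodule.sum_mem
    intro s hs
    rw [Finset.mem_erase, Finset.mem_range] at hs
    have h3 : α ^ s • j ≠ j := by
      intro hc
      have h4 := Nat.le_of_dvd (Nat.pos_of_ne_zero hs.1) (ImA_ord p hα hj s hc)
      omega
    exact (le_iSup₂_of_le (f := fun i (_ : i ≠ j) => W i) (α ^ s • j) h3 le_rfl)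
      (hW _ _ _ hx)
  have h3 : x ∈ ⨆ (i) (_ : i ≠ j), W i := by
    have h4 : x = z - ∑ s ∈ (Finset.range p).erase 0, τ (α ^ s) x := by
      rw [← hsum]
      abel
    rw [h4]
    exact Submodule.sub_mem _ hz h2
  have h4 := (Submodule.disjoint_def.1 (hind j)) x hx h3
  exact h4

theorem imA [Finite Γ] (p q : ℕ) [Fact p.Prime] [Fact q.Prime] (hpq : q ≠ p)
    (τ : Representation k Γ U) (Q : Subgroup Γ) (hQ : IsPGroup q Q) (α : Γ) (hα : α ^ p = 1)
    (hQα : ∀ y ∈ Q, α * y = y * α) {ι : Type*} [Finite ι] [MulAction Γ ι]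
    (W : ι → Submodule k U) (hind : iSupIndep W)
    (hW : ∀ (g : Γ) (i : ι) (v : U), v ∈ W i → τ g v ∈ W (g • i)) (hne : ∀ i, W i ≠ ⊥)
    (hC : ∀ u, τ α u = u → ∀ y ∈ Q, τ y u = u) (i : ι) (hi : α • i ≠ i) :
    ∀ y ∈ Q, y • i = i ∧ ∀ v ∈ W i, τ y v = v := by
  have hp : p.Prime := Fact.out
  have hq : q.Prime := Fact.out
  intro y hy
  have hcomm : ∀ s : ℕ, α ^ s * y = y * α ^ s := fun s => (Commute.pow_left (hQα y hy) s).eq
  -- the fixed vectors
  have hfix : ∀ v : U, τ α (∑ s ∈ Finset.range p, τ (α ^ s) v) =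
      ∑ s ∈ Finset.range p, τ (α ^ s) v := by
    intro v
    rw [map_sum]
    have h1 : ∀ s ∈ Finset.range p, τ α (τ (α ^ s) v) = τ (α ^ (s + 1)) v := by
      intro s _
      rw [← Module.End.mul_apply, ← map_mul, pow_succ']
    rw [Finset.sum_congr rfl h1]
    have h2 := Finset.sum_range_succ' (fun s => τ (α ^ s) v) p
    have h3 := Finset.sum_range_succ (fun s => τ (α ^ s) v) p
    rw [h3] at h2
    have h4 : τ (α ^ p) v = τ (α ^ 0) v := by rw [hα, pow_zero]
    rw [h4] at h2
    exact (add_right_cancel h2).symm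
  have hyu : ∀ v : U, ∑ s ∈ Finset.range p, τ (α ^ s) (τ y v) =
      ∑ s ∈ Finset.range p, τ (α ^ s) v := by
    intro v
    have h1 := hC _ (hfix v) y hy
    rw [map_sum] at h1
    rw [← h1]
    apply Finset.sum_congr rfl
    intro s _
    rw [← Module.End.mul_apply, ← map_mul, hcomm, map_mul, Module.End.mul_apply]
  have hj : α • (y • i) ≠ y • i := by
    rw [smul_smul, hQα y hy, ← smul_smul]
    intro hc
    exact hi (MulAction.injective y hc)
  -- the index is fixed
  have hyi : y • i = i := by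
    obtain ⟨v, hv, hv0⟩ := Submodule.exists_mem_ne_zero_of_ne_bot (hne i)
    have hex : ∃ s < p, α ^ s • i = y • i := by
      by_contra hcon
      push Not at hcon
      have h1 : ∑ s ∈ Finset.range p, τ (α ^ s) v ∈ ⨆ (i') (_ : i' ≠ y • i), W i' := by
        apply Submodule.sum_mem
        intro s hs
        rw [Finset.mem_range] at hs
        exact (le_iSup₂_of_le (f := fun i' (_ : i' ≠ y • i) => W i') (α ^ s • i)
          (hcon s hs) le_rfl) (hW _ _ _ hv)
      have h2 := ImA_zero p τ hα W hind hW hj (hW y i v hv) h1 (hyu v)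
      apply hv0
      have h3 : τ y⁻¹ (τ y v) = v := by
        rw [← Module.End.mul_apply, ← map_mul, inv_mul_cancel, map_one]
        rfl
      rw [← h3, h2, map_zero]
    obtain ⟨s, hs, hsi⟩ := hex
    have hpow : ∀ t : ℕ, y ^ t • i = α ^ (s * t) • i := by
      intro t
      induction t with
      | zero => rw [pow_zero, mul_zero, pow_zero]
      | succ t ih =>
        rw [pow_succ', mul_smul, ih, smul_smul, ← hcomm, ← smul_smul, ← hsi, smul_smul,
          ← pow_add, mul_add, mul_one]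
    have h1 := hpow (orderOf y)
    rw [pow_orderOf_eq_one, one_smul] at h1
    have h2 := ImA_ord p hα hi _ h1.symm
    rcases (Nat.Prime.dvd_mul hp).1 h2 with h3 | h3
    · have h4 : s = 0 := by
        by_contra hs0
        have := Nat.le_of_dvd (Nat.pos_of_ne_zero hs0) h3
        omega
      rw [h4, pow_zero, one_smul] at hsi
      exact hsi.symm
    · exfalso
      obtain ⟨a, ha⟩ := hQ ⟨y, hy⟩
      have ha' : y ^ (q ^ a) = 1 := congrArg Subtype.val ha
      have h4 := h3.trans (orderOf_dvd_of_pow_eq_one ha')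
      have h5 := hp.dvd_of_dvd_pow h4
      exact hpq ((Nat.prime_dvd_prime_iff_eq hp hq).1 h5).symm
  refine ⟨hyi, fun v hv => ?_⟩
  have h1 : τ y v - v ∈ W i := by
    refine Submodule.sub_mem _ ?_ hv
    have := hW y i v hv
    rwa [hyi] at this
  have h2 : ∑ s ∈ Finset.range p, τ (α ^ s) (τ y v - v) = 0 := by
    have h3 : ∀ s ∈ Finset.range p, τ (α ^ s) (τ y v - v) =
        τ (α ^ s) (τ y v) - τ (α ^ s) v := fun s _ => map_sub _ _ _
    rw [Finset.sum_congr rfl h3, Finset.sum_sub_distrib, hyu v, sub_self]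
  exact sub_eq_zero.1 (ImA_zero p τ hα W hind hW hi h1 (Submodule.zero_mem _) h2)

end H78TP
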