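import Pool.Agent.H78.TP.CoB
import Pool.Agent.H78.TP.ImA

/-!
[H78 TP IMC] `Q` trivial on the blocks: the action on one block (60-75 min).

PROOF. Let `X = normalClosure Q` in `Γ`, `Δ = MulAction.stabilizer Γ i₀`, which contains `α` and `Q`,
and `X₁` the image in `Γ` of the normal closure of `Q.subgroupOf Δ` in `Δ`. `X` acts trivially on
the blocks (`Q` does, and the kernel of the action is normal), so `X ≤ Δ`; `X₁ ≤ X`.
`Δ` acts on `W i₀`: a homomorphism `ρ : Δ →* (W i₀ →ₗ W i₀)` (`Representation`), or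
`→* (W i₀ ≃ₗ W i₀)`.
Claim: for every `w ∈ X` there is `w' ∈ X₁` with `τ w v = τ w' v` for all `v ∈ W i₀`. It suffices to
take `w = g y g⁻¹` with `g : Γ`, `y ∈ Q` (`X` is the closure of these; products and inverses are
fine). Let `j = g⁻¹ • i₀`. If `α • j ≠ j` then by `imA` `τ y` is trivial on `W j`, so `τ (g y g⁻¹)`
is trivial on `W i₀`, and `w' = 1`. If `α • j = j` then `g α g⁻¹` fixes `i₀`, so `g α g⁻¹ ∈ Δ`; `coB`
gives `g = x c` with `x ∈ K ⊓ Δ`, `c` commuting with `α`, and by `coB'` `c y c⁻¹ ∈ Q`, so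
`g y g⁻¹ = x (c y c⁻¹) x⁻¹ ∈ X₁`, `w' = w`.
So the images of `X` and `X₁` (as subgroups of `Δ`) under `ρ` are equal. `lns` commutes with
homomorphisms of finite groups (`lns_map`): let `ρ' : Δ →* (W i₀ ≃ₗ[k] W i₀)` be the homomorphism;
`(lns (X.subgroupOf Δ) h).map ρ' = lns ((X.subgroupOf Δ).map ρ') h =
lns (X₁'.map ρ') h = (lns X₁' h).map ρ' = ⊥` by `hIH`, where `X₁'` is the normal closure in `Δ`. And
`lns X h` is the image of `lns (X.subgroupOf Δ) h` (`lns_subtype`).
-/

namespace H78TP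

open Subgroup
open scoped commutatorElement

variable {k Γ U : Type*} [Field k] [Group Γ] [AddCommGroup U] [Module k U]

theorem imC [Finite Γ] (p q : ℕ) [Fact p.Prime] [Fact q.Prime] (hpq : q ≠ p)
    (τ : Representation k Γ U) {K Q : Subgroup Γ} {α : Γ} (h : TD p q K Q α) {ι : Type*}
    [Finite ι] [MulAction Γ ι] (W : ι → Submodule k U) (hind : iSupIndep W)
    (hW : ∀ (g : Γ) (i : ι) (v : U), v ∈ W i → τ g v ∈ W (g • i)) (hne : ∀ i, W i ≠ ⊥)
    (hC : ∀ u, τ α u = u → ∀ y ∈ Q, τ y u = u) (hQ : ∀ y ∈ Q, ∀ i : ι, y • i = i) (i₀ : ι)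
    (hα : α • i₀ = i₀) (N : ℕ)
    (hIH : ∀ g ∈ lns (Subgroup.normalClosure
      ((Q.subgroupOf (MulAction.stabilizer Γ i₀) : Subgroup (MulAction.stabilizer Γ i₀)) :
        Set (MulAction.stabilizer Γ i₀))) N, ∀ v ∈ W i₀, τ g v = v) :
    ∀ g ∈ lns (Subgroup.normalClosure (Q : Set Γ)) N, ∀ v ∈ W i₀, τ g v = v := by
  -- the action on the block
  let ρ : MulAction.stabilizer Γ i₀ →* Module.End k (W i₀) :=
    { toFun := fun d => (τ (d : Γ)).restrict (p := W i₀) (q := W i₀) (fun v hv => by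
        have h1 := hW (d : Γ) i₀ v hv
        rwa [MulAction.mem_stabilizer_iff.1 d.2] at h1)
      map_one' := by
        ext v
        change τ ((1 : MulAction.stabilizer Γ i₀) : Γ) (v : U) = (v : U)
        rw [Subgroup.coe_one, map_one]
        rfl
      map_mul' := by
        intro a b
        ext v
        change τ ((a * b : MulAction.stabilizer Γ i₀) : Γ) (v : U) =
          τ (a : Γ) (τ (b : Γ) (v : U))
        rw [Subgroup.coe_mul, map_mul, Module.End.mul_apply] }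
  have hρ : ∀ (d : MulAction.stabilizer Γ i₀) (v : W i₀), ((ρ d v : W i₀) : U) = τ (d : Γ) (v : U) :=
    fun _ _ => rfl
  let φ : MulAction.stabilizer Γ i₀ →* (Module.End k (W i₀))ˣ := ρ.toHomUnits
  have hφ : ∀ d, ((φ d : (Module.End k (W i₀))ˣ) : Module.End k (W i₀)) = ρ d := fun _ => rfl
  -- everything acts trivially on the blocks
  have hQker : (Q : Set Γ) ⊆ ((MulAction.toPermHom Γ ι).ker : Set Γ) := by
    intro y hy
    refine MonoidHom.mem_ker.2 ?_
    ext i
    exact hQ y hy i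
  have hker : ∀ w ∈ (MulAction.toPermHom Γ ι).ker, w • i₀ = i₀ := by
    intro w hw
    exact congrArg (fun f : Equiv.Perm ι => f i₀) (MonoidHom.mem_ker.1 hw)
  have hXker : Subgroup.normalClosure (Q : Set Γ) ≤ (MulAction.toPermHom Γ ι).ker :=
    Subgroup.normalClosure_le_normal hQker
  have hXΔ : Subgroup.normalClosure (Q : Set Γ) ≤ MulAction.stabilizer Γ i₀ :=
    fun w hw => MulAction.mem_stabilizer_iff.2 (hker w (hXker hw))
  -- the claim
  have hclaim : Subgroup.normalClosure (Q : Set Γ) ≤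
      (((Subgroup.normalClosure
        ((Q.subgroupOf (MulAction.stabilizer Γ i₀) : Subgroup (MulAction.stabilizer Γ i₀)) :
        Set (MulAction.stabilizer Γ i₀))).map φ).comap φ).map
        (MulAction.stabilizer Γ i₀).subtype := by
    change Subgroup.closure (Group.conjugatesOfSet (Q : Set Γ)) ≤ _
    rw [Subgroup.closure_le]
    intro w hw
    have hwX : w ∈ Subgroup.normalClosure (Q : Set Γ) := Subgroup.subset_closure hw
    obtain ⟨y, hy, hyw⟩ := Group.mem_conjugatesOfSet_iff.1 hw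
    obtain ⟨g, rfl⟩ := isConj_iff.1 hyw
    refine ⟨⟨g * y * g⁻¹, hXΔ hwX⟩, ?_, rfl⟩
    change (⟨g * y * g⁻¹, hXΔ hwX⟩ : MulAction.stabilizer Γ i₀) ∈ Subgroup.comap φ _
    rw [Subgroup.mem_comap]
    by_cases hj : α • (g⁻¹ • i₀) = g⁻¹ • i₀
    · have hg1 : g * α * g⁻¹ ∈ MulAction.stabilizer Γ i₀ := by
        rw [MulAction.mem_stabilizer_iff, mul_smul, mul_smul, hj, smul_inv_smul]
      obtain ⟨x, hx, c, rfl, hc⟩ := coB p K h.nK h.pK α h.ap h.top
        (MulAction.stabilizer Γ i₀) (MulAction.mem_stabilizer_iff.2 hα) g hg1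
      have h1 := coB' h c hc y hy
      have h2 : c * y * c⁻¹ ∈ MulAction.stabilizer Γ i₀ :=
        MulAction.mem_stabilizer_iff.2 (hQ _ h1 i₀)
      refine Subgroup.mem_map_of_mem φ ?_
      have h3 : (⟨x * c * y * (x * c)⁻¹, hXΔ hwX⟩ : MulAction.stabilizer Γ i₀) =
          ⟨x, hx.2⟩ * ⟨c * y * c⁻¹, h2⟩ * ⟨x, hx.2⟩⁻¹ := by
        apply Subtype.ext
        change x * c * y * (x * c)⁻¹ = x * (c * y * c⁻¹) * x⁻¹
        group
      rw [h3]
      exact (Subgroup.normalClosure_normal).conj_mem _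
        (Subgroup.subset_normalClosure (Subgroup.mem_subgroupOf.2 h1)) _
    · have h1 := imA p q hpq τ Q h.Qgr α h.ap h.Qa W hind hW hne hC (g⁻¹ • i₀) hj y hy
      have h2 : φ ⟨g * y * g⁻¹, hXΔ hwX⟩ = 1 := by
        apply Units.ext
        rw [hφ, Units.val_one]
        ext v
        rw [hρ]
        change τ (g * y * g⁻¹) (v : U) = (v : U)
        have h3 : τ g⁻¹ (v : U) ∈ W (g⁻¹ • i₀) := hW g⁻¹ i₀ _ v.2
        rw [map_mul, map_mul, Module.End.mul_apply, Module.End.mul_apply, h1.2 _ h3,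
          ← Module.End.mul_apply, ← map_mul, mul_inv_cancel, map_one]
        rfl
      rw [h2]
      exact Subgroup.one_mem _
  have hmap : ((Subgroup.normalClosure (Q : Set Γ)).subgroupOf
      (MulAction.stabilizer Γ i₀)).map φ ≤ (Subgroup.normalClosure
        ((Q.subgroupOf (MulAction.stabilizer Γ i₀) : Subgroup (MulAction.stabilizer Γ i₀)) :
        Set (MulAction.stabilizer Γ i₀))).map φ := by
    rintro _ ⟨d, hd, rfl⟩
    obtain ⟨d', hd', hdd⟩ := hclaim (Subgroup.mem_subgroupOf.1 hd)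
    have h1 : d' = d := Subtype.ext hdd
    rw [← h1]
    exact Subgroup.mem_comap.1 hd'
  intro g hg v hv
  have hXm : ((Subgroup.normalClosure (Q : Set Γ)).subgroupOf
      (MulAction.stabilizer Γ i₀)).map (MulAction.stabilizer Γ i₀).subtype =
      Subgroup.normalClosure (Q : Set Γ) := by
    rw [Subgroup.subgroupOf_map_subtype]
    exact inf_eq_left.2 hXΔ
  have h1 := lns_subtype (MulAction.stabilizer Γ i₀)
    ((Subgroup.normalClosure (Q : Set Γ)).subgroupOf (MulAction.stabilizer Γ i₀)) N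
  rw [hXm] at h1
  rw [← h1] at hg
  obtain ⟨d, hd, rfl⟩ := hg
  have h2 : φ d ∈ (lns ((Subgroup.normalClosure (Q : Set Γ)).subgroupOf
      (MulAction.stabilizer Γ i₀)) N).map φ := Subgroup.mem_map_of_mem φ hd
  rw [lns_map] at h2
  have h3 := lns_mono hmap N h2
  rw [← lns_map] at h3
  obtain ⟨d', hd', hdd⟩ := h3
  have h4 : ρ d = ρ d' := by
    rw [← hφ, ← hφ, hdd]
  have h5 := congrArg (fun f : Module.End k (W i₀) => ((f ⟨v, hv⟩ : W i₀) : U)) h4
  change τ (d : Γ) v = τ (d' : Γ) v at h5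
  change τ (d : Γ) v = v
  rw [h5]
  exact hIH d' hd' v hv

end H78TP
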