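import Pool.Agent.H78.TP.Uni

/-!
[H78 TP IRR] Normal subgroups acting on an irreducible module in characteristic `l` (45 min).

PROOF. `irr_fix`: the space `Fx ρ N` of fixed points of a normal subgroup `N` is invariant under
`K`, so it is `⊥` or `⊤`.
`irr_ord`: let `A` be an abelian normal subgroup of `K` and `a ∈ A` of order divisible by `l`
where `ρ` is injective. `A_l = {x ∈ A | ∃ j, x ^ (l ^ j) = 1}` is a normal subgroup of `K`
(`A` is abelian and normal), it is not trivial (a power of `a` has order `l`), and by `unip` (with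
`V = ⊤ ≠ ⊥`) it has a nonzero fixed vector, so by `irr_fix` it acts trivially, so it is trivial as
`ρ` is injective: a contradiction. (`(orderOf a : k) ≠ 0` iff `l ∤ orderOf a`:
`CharP.cast_eq_zero_iff`.)
`irr_p`: the same for a normal `l`-subgroup `N` of the soluble group `K`: if `N ≠ ⊥` the last
nontrivial term of its derived series is an abelian normal `l`-subgroup `≠ ⊥` of `K`.
-/

namespace H78TP

open Subgroup
open scoped commutatorElement

variable {k K W : Type*} [Field k] [Group K] [AddCommGroup W] [Module k W]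

theorem irr_fix (ρ : Representation k K W)
    (hirr : ∀ S : Submodule k W, (∀ g, ∀ w ∈ S, ρ g w ∈ S) → S = ⊥ ∨ S = ⊤)
    (N : Subgroup K) (hN : N.Normal) (w : W) (hw : w ≠ 0) (h : ∀ x ∈ N, ρ x w = w) :
    ∀ x ∈ N, ρ x = 1 := by
  have hinv : ∀ g, ∀ w ∈ Fx ρ N, ρ g w ∈ Fx ρ N := by
    intro g u hu x hx
    have h1 : g⁻¹ * x * g ∈ N := by
      have := hN.conj_mem x hx g⁻¹
      rwa [inv_inv] at this
    have h2 := hu _ h1
    have h3 : ρ x (ρ g u) = ρ g (ρ (g⁻¹ * x * g) u) := by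
      rw [← Module.End.mul_apply, ← map_mul, ← Module.End.mul_apply, ← map_mul]
      congr 2
      group
    rw [h3, h2]
  rcases hirr _ hinv with h1 | h1
  · exfalso
    apply hw
    have h2 : w ∈ Fx ρ N := h
    rw [h1, Submodule.mem_bot] at h2
    exact h2
  · intro x hx
    apply LinearMap.ext
    intro u
    have h2 : u ∈ Fx ρ N := by
      rw [h1]
      trivial
    exact h2 x hx

theorem irr_ord [Finite K] [Module.Finite k W] (l : ℕ) [Fact l.Prime] [CharP k l]
    (ρ : Representation k K W) (hinj : Function.Injective ρ)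
    (hirr : ∀ S : Submodule k W, (∀ g, ∀ w ∈ S, ρ g w ∈ S) → S = ⊥ ∨ S = ⊤)
    (A : Subgroup K) (hA : A.Normal) (hAc : ∀ x ∈ A, ∀ y ∈ A, x * y = y * x) :
    ∀ a ∈ A, (orderOf a : k) ≠ 0 := by
  intro a ha h0
  have hl : l.Prime := Fact.out
  rw [CharP.cast_eq_zero_iff k l] at h0
  -- the `l`-part of `A`
  let Al : Subgroup K :=
    { carrier := {x | x ∈ A ∧ ∃ j : ℕ, x ^ (l ^ j) = 1}
      one_mem' := ⟨one_mem _, 0, one_pow _⟩
      mul_mem' := by
        rintro x y ⟨hx, i, hi⟩ ⟨hy, j, hj⟩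
        refine ⟨mul_mem hx hy, i + j, ?_⟩
        have hc : Commute x y := hAc x hx y hy
        rw [hc.mul_pow, pow_add, pow_mul, hi, one_pow, one_mul, mul_comm, pow_mul, hj, one_pow]
      inv_mem' := by
        rintro x ⟨hx, i, hi⟩
        exact ⟨inv_mem hx, i, by rw [inv_pow, hi, inv_one]⟩ }
  have hAln : Al.Normal := by
    constructor
    rintro x ⟨hx, i, hi⟩ g
    refine ⟨hA.conj_mem x hx g, i, ?_⟩
    rw [conj_pow, hi, mul_one, mul_inv_cancel]
  have hAlp : IsPGroup l Al := by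
    rintro ⟨x, hx, i, hi⟩
    exact ⟨i, Subtype.ext hi⟩
  have hpos : 0 < orderOf a := orderOf_pos a
  obtain ⟨m, hm⟩ := h0
  have hm0 : 0 < m := by
    rcases Nat.eq_zero_or_pos m with h | h
    · rw [h, mul_zero] at hm
      omega
    · exact h
  have hb : a ^ m ∈ Al := by
    refine ⟨pow_mem ha m, 1, ?_⟩
    rw [pow_one, ← pow_mul, mul_comm, ← hm, pow_orderOf_eq_one]
  have hb1 : a ^ m ≠ 1 := by
    intro h
    have h1 := Nat.le_of_dvd hm0 (orderOf_dvd_of_pow_eq_one h)
    rw [hm] at h1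
    have h2 := hl.two_le
    nlinarith
  have htop : (⊤ : Submodule k W) ≠ ⊥ := by
    intro h
    apply hb1
    apply hinj
    apply LinearMap.ext
    intro u
    have h1 : ∀ w : W, w = 0 := by
      intro w
      have : w ∈ (⊤ : Submodule k W) := trivial
      rw [h, Submodule.mem_bot] at this
      exact this
    rw [h1 (ρ (a ^ m) u), h1 (ρ 1 u)]
  obtain ⟨v, _, hv0, hv⟩ := unip l ρ Al (fun x hx y hy => hAc x hx.1 y hy.1) hAlp ⊤ htop
    (fun _ _ _ _ => trivial)
  have h1 := irr_fix ρ hirr Al hAln v hv0 hv (a ^ m) hb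
  apply hb1
  apply hinj
  rw [h1, map_one]

theorem irr_p [Finite K] [Module.Finite k W] (l : ℕ) [Fact l.Prime] [CharP k l]
    (ρ : Representation k K W) (hinj : Function.Injective ρ)
    (hirr : ∀ S : Submodule k W, (∀ g, ∀ w ∈ S, ρ g w ∈ S) → S = ⊥ ∨ S = ⊤)
    (N : Subgroup K) (hN : N.Normal) (hNl : IsPGroup l N) : N = ⊥ := by
  have hl : l.Prime := Fact.out
  by_contra hne
  have hnt : Nontrivial N := (Subgroup.nontrivial_iff_ne_bot N).2 hne
  have hc := hNl.center_nontrivial
  obtain ⟨z, hz⟩ := exists_ne (1 : Subgroup.center N)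
  have hnorm : ((Subgroup.center N).map N.subtype).Normal := inferInstance
  have h1 := irr_ord l ρ hinj hirr ((Subgroup.center N).map N.subtype) hnorm (by
    rintro - ⟨x, hx, rfl⟩ - ⟨y, hy, rfl⟩
    have h2 := (Subgroup.mem_center_iff.1 hx) y
    rw [← map_mul, ← map_mul, h2]) z.1.1 ⟨z.1, z.2, rfl⟩
  apply h1
  rw [CharP.cast_eq_zero_iff k l]
  obtain ⟨j, hj⟩ := hNl z.1
  have hj' : (z.1.1) ^ (l ^ j) = 1 := by
    have := congrArg Subtype.val hj
    exact this
  have h3 := orderOf_dvd_of_pow_eq_one hj'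
  obtain ⟨i, _, hi⟩ := (Nat.dvd_prime_pow hl).1 h3
  rw [hi]
  apply dvd_pow_self
  intro hi0
  rw [hi0, pow_zero, orderOf_eq_one_iff] at hi
  apply hz
  apply Subtype.ext
  apply Subtype.ext
  exact hi

end H78TP
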