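import Pool.Agent.H78.TP.WeiB
import Pool.Agent.H78.TP.Irr
import Pool.Agent.H78.TP.CoA
import Pool.Agent.H78.TP.Blk
import Pool.Agent.H78.TP.ImB
import Pool.Agent.H78.TP.ImC

/-!
[H78 TP IMP] The imprimitive case (60-75 min).

PROOF. By `irr_ord` the elements of `B₀` have orders nonzero in `k`. Let `Ω = Wt τ B₀ ⊤`, finite
(`wei_fin`), weight spaces independent (`wei_ind`), nonzero, with sum `⊤` (`wei_top`). `Γ` acts on
`Ω` (`wAct τ B₀ ⊤ ⊤`, transported to `Γ`; `WS_cjf`), transitively: the sum of the weight spaces of an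
orbit is a nonzero invariant submodule. `2 ≤ |Ω|`: otherwise `B₀` acts by scalars. For
`ν ∈ Ω` moved by `α` and `y ∈ Q`: `y • ν = ν` by `imA`. `blk` gives `n`, the action on `Fin n` and
`f : Ω → Fin n`. Let `W i = ⨆ ν with f ν = i, WS τ B₀ ⊤ ν`: independent, sum `⊤`, nonzero (`f` is
surjective), permuted by `Γ` transitively, and `finrank (W i) < finrank U ≤ d + 1`.
If `α` fixes all `i` and some `y ∈ Q` moves some `i₀`: `imB` contradicts `hC0`. So (by `blk`) `Q`
fixes all `i`. If `α` moves all `i` then `Q` acts trivially on all `W i` by `imA`, so `τ y = 1` for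
`y ∈ Q`, and `normalClosure Q ≤ τ.ker`, done (`lns_le`). Otherwise `α • i₀ = i₀` for some `i₀`. Let
`Δ = stabilizer Γ i₀`. `W i₀` is an irreducible module for `Δ`: if `S` is a `Δ`-invariant submodule
of `W i₀`, then `⨆ g, τ g S` is `Γ`-invariant and its intersection with `W i₀` is `S` (the part
`τ g S` lies in `W (g • i₀)`); so it is `⊥` or `⊤` and `S = ⊥` or `S = W i₀`. `td_sub` for `Δ`
(`α ∈ Δ`, `Q ≤ Δ`), and `ih` for `Δ`, `W i₀` (restriction of `τ`, `finrank (W i₀) ≤ d`; `hC` restricts)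
gives the hypothesis `hIH` of `imC` with `N = hV p`. So every `g ∈ lns X (hV p)` acts trivially on
`W i₀`, `lns X (hV p)` is normal in `Γ` (`lns_normal`, `X` normal), `Γ` is transitive on the blocks,
so it acts trivially on all `W i`, and `τ g = 1`.
-/

namespace H78TP

open Subgroup
open scoped commutatorElement

universe u v

section aux

variable {k Γ U : Type*} [Field k] [Group Γ] [AddCommGroup U] [Module k U]

private theorem imp_cj {B₀ : Subgroup Γ} (hB : B₀.Normal) (g t : Γ) :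
    t ∈ B₀ ↔ g⁻¹ * t * g ∈ B₀ := by
  constructor
  · intro h
    have := hB.conj_mem t h g⁻¹
    rwa [inv_inv] at this
  · intro h
    have := hB.conj_mem _ h g
    have h2 : g * (g⁻¹ * t * g) * g⁻¹ = t := by group
    rwa [h2] at this

@[reducible] private def impAct (τ : Representation k Γ U) {B₀ : Subgroup Γ} (hB : B₀.Normal) :
    MulAction Γ (Wt τ B₀ ⊤) where
  smul g ν := ⟨cjf g ν.1, Wt_cjf (imp_cj hB g) (fun _ _ => Submodule.mem_top) ν.2⟩
  one_smul ν := Subtype.ext (cjf_one ν.1)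
  mul_smul g h ν := Subtype.ext (cjf_mul g h ν.1)

private theorem imp_tr {ι : Type*} [MulAction Γ ι] (τ : Representation k Γ U)
    (W : ι → Submodule k U) (hind : iSupIndep W)
    (hW : ∀ (g : Γ) (i : ι) (v : U), v ∈ W i → τ g v ∈ W (g • i)) (hne : ∀ i, W i ≠ ⊥)
    (hirr : ∀ S : Submodule k U, (∀ g, ∀ w ∈ S, τ g w ∈ S) → S = ⊥ ∨ S = ⊤) :
    ∀ i j : ι, ∃ g : Γ, g • i = j := by
  intro i j
  by_contra hcon
  push Not at hcon
  have hinv : ∀ g, ∀ w ∈ (⨆ h : Γ, W (h • i)), τ g w ∈ (⨆ h : Γ, W (h • i)) := by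
    intro g w hw
    have h1 : (⨆ h : Γ, W (h • i)).map (τ g) ≤ ⨆ h : Γ, W (h • i) := by
      rw [Submodule.map_iSup]
      apply iSup_le
      rintro h - ⟨v, hv, rfl⟩
      have h2 := hW g _ v hv
      rw [← mul_smul] at h2
      exact Submodule.mem_iSup_of_mem (g * h) h2
    exact h1 ⟨w, hw, rfl⟩
  rcases hirr _ hinv with h1 | h1
  · apply hne i
    rw [eq_bot_iff, ← h1]
    have h2 := le_iSup (fun h : Γ => W (h • i)) 1
    simpa using h2
  · apply hne j
    have h2 := hind j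
    have h3 : (⨆ h : Γ, W (h • i)) ≤ ⨆ (l) (_ : l ≠ j), W l := by
      apply iSup_le
      intro h
      exact le_iSup₂_of_le (h • i) (hcon h) le_rfl
    rw [h1, top_le_iff] at h3
    rw [h3, disjoint_top] at h2
    exact h2

private theorem imp_cind {ι κ : Type*} (W : ι → Submodule k U) (hind : iSupIndep W)
    (f : ι → κ) : iSupIndep (fun j : κ => ⨆ (i : ι) (_ : f i = j), W i) := by
  intro j
  have h1 : Disjoint {i : ι | f i = j} {i : ι | f i ≠ j} := by
    rw [Set.disjoint_left]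
    intro i hi hi'
    exact hi' hi
  have h2 := hind.disjoint_biSup_biSup h1
  refine Disjoint.mono ?_ ?_ h2
  · exact iSup₂_le fun i hi => le_iSup₂_of_le (f := fun i (_ : i ∈ {i : ι | f i = j}) => W i)
      i hi le_rfl
  · apply iSup₂_le
    intro j' hj'
    apply iSup₂_le
    intro i hi
    exact le_iSup₂_of_le (f := fun i (_ : i ∈ {i : ι | f i ≠ j}) => W i) i
      (by
        change f i ≠ j
        rw [hi]
        exact hj') le_rfl

private theorem imp_irr {ι : Type*} [MulAction Γ ι] (τ : Representation k Γ U)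
    (W : ι → Submodule k U) (hind : iSupIndep W)
    (hW : ∀ (g : Γ) (i : ι) (v : U), v ∈ W i → τ g v ∈ W (g • i))
    (hirr : ∀ S : Submodule k U, (∀ g, ∀ w ∈ S, τ g w ∈ S) → S = ⊥ ∨ S = ⊤) (i₀ : ι)
    (S : Submodule k U) (hS : S ≤ W i₀) (hinv : ∀ g : Γ, g • i₀ = i₀ → ∀ w ∈ S, τ g w ∈ S) :
    S = ⊥ ∨ S = W i₀ := by
  have hT : ∀ g, ∀ w ∈ (⨆ h : Γ, S.map (τ h)), τ g w ∈ (⨆ h : Γ, S.map (τ h)) := by
    intro g w hw
    have h1 : (⨆ h : Γ, S.map (τ h)).map (τ g) ≤ ⨆ h : Γ, S.map (τ h) := by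
      rw [Submodule.map_iSup]
      apply iSup_le
      rintro h - ⟨v, ⟨s, hs, rfl⟩, rfl⟩
      refine Submodule.mem_iSup_of_mem (g * h) ⟨s, hs, ?_⟩
      rw [map_mul]
      rfl
    exact h1 ⟨w, hw, rfl⟩
  rcases hirr _ hT with h1 | h1
  · left
    rw [eq_bot_iff, ← h1]
    intro s hs
    refine Submodule.mem_iSup_of_mem 1 ⟨s, hs, ?_⟩
    rw [map_one]
    rfl
  · right
    apply le_antisymm hS
    intro w hw
    have h2 : (⨆ h : Γ, S.map (τ h)) ≤ S ⊔ ⨆ (l) (_ : l ≠ i₀), W l := by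
      apply iSup_le
      rintro h - ⟨s, hs, rfl⟩
      by_cases hh : h • i₀ = i₀
      · exact Submodule.mem_sup_left (hinv h hh s hs)
      · apply Submodule.mem_sup_right
        have h3 := hW h i₀ s (hS hs)
        exact (le_iSup₂_of_le (f := fun l (_ : l ≠ i₀) => W l) (h • i₀) hh le_rfl) h3
    rw [h1] at h2
    obtain ⟨s, hs, r, hr, hsr⟩ := Submodule.mem_sup.1 (h2 (Submodule.mem_top (x := w)))
    have h4 : r = w - s := by rw [← hsr, add_sub_cancel_left]
    have h5 : r ∈ W i₀ := by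
      rw [h4]
      exact Submodule.sub_mem _ hw (hS hs)
    have h6 := Submodule.disjoint_def.1 (hind i₀) r h5 hr
    rw [h6, add_zero] at hsr
    rw [← hsr]
    exact hs

private def impRes (τ : Representation k Γ U) (Δ : Subgroup Γ) (V : Submodule k U)
    (h : ∀ g ∈ Δ, ∀ v ∈ V, τ g v ∈ V) : Representation k Δ V where
  toFun g := (τ g.1).restrict (h g.1 g.2)
  map_one' := by
    apply LinearMap.ext
    intro v
    apply Subtype.ext
    change τ ((1 : Δ) : Γ) v.1 = v.1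
    rw [OneMemClass.coe_one, map_one]
    rfl
  map_mul' a b := by
    apply LinearMap.ext
    intro v
    apply Subtype.ext
    change τ ((a * b : Δ) : Γ) v.1 = τ a.1 (τ b.1 v.1)
    rw [Subgroup.coe_mul, map_mul]
    rfl

private theorem impRes_val (τ : Representation k Γ U) (Δ : Subgroup Γ) (V : Submodule k U)
    (h : ∀ g ∈ Δ, ∀ v ∈ V, τ g v ∈ V) (g : Δ) (v : V) :
    ((impRes τ Δ V h g v : V) : U) = τ g.1 v.1 := rfl

private theorem imp_lt [Module.Finite k U] {ι : Type*}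
    (W : ι → Submodule k U) (hind : iSupIndep W) (hne : ∀ i, W i ≠ ⊥) (i j : ι) (hij : j ≠ i) :
    Module.finrank k (W i) < Module.finrank k U := by
  apply Submodule.finrank_lt
  intro h
  have h1 := hind i
  rw [h, top_disjoint] at h1
  apply hne j
  rw [eq_bot_iff, ← h1]
  exact le_iSup₂_of_le j hij le_rfl

private theorem imp_one (τ : Representation k Γ U) {ι : Type*}
    (W : ι → Submodule k U) (htop : (⨆ i, W i) = ⊤) (g : Γ)
    (hg : ∀ i, ∀ v ∈ W i, τ g v = v) : τ g = 1 := by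
  apply LinearMap.ext
  intro u
  have h1 : (⨆ i, W i) ≤ LinearMap.eqLocus (τ g) (1 : U →ₗ[k] U) := by
    apply iSup_le
    intro i v hv
    exact hg i v hv
  rw [htop] at h1
  exact h1 (Submodule.mem_top (x := u))

end aux

/-- the case where the blocks are given -/
private theorem imp_blk {k : Type v} [Field k] (p q d : ℕ)
    [Fact p.Prime] [Fact q.Prime] (hpq : q ≠ p) (ih : ClVP.{u, v} k p q d)
    {Γ : Type u} [Group Γ] [Finite Γ] {K Q : Subgroup Γ} {α : Γ} {U : Type v}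
    [AddCommGroup U] [Module k U] [Module.Finite k U] (τ : Representation k Γ U)
    (h : TD p q K Q α) (hd : Module.finrank k U ≤ d + 1) (hinj : Function.Injective τ)
    (hirr : ∀ S : Submodule k U, (∀ g, ∀ w ∈ S, τ g w ∈ S) → S = ⊥ ∨ S = ⊤)
    (hC : ∀ u, τ α u = u → ∀ y ∈ Q, τ y u = u) (hC0 : ∃ u, u ≠ 0 ∧ τ α u = u)
    {ι : Type*} [Finite ι] [MulAction Γ ι] (W : ι → Submodule k U) (hind : iSupIndep W)
    (htop : (⨆ i, W i) = ⊤)
    (hW : ∀ (g : Γ) (i : ι) (v : U), v ∈ W i → τ g v ∈ W (g • i)) (hne : ∀ i, W i ≠ ⊥)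
    (h2 : ∀ i : ι, ∃ j, j ≠ i)
    (hor : (∀ i : ι, α • i = i) ∨ ∀ y ∈ Q, ∀ i : ι, y • i = i) :
    ∀ g ∈ lns (Subgroup.normalClosure (Q : Set Γ)) (hV p), τ g = 1 := by
  have htr := imp_tr τ W hind hW hne hirr
  by_cases hQ : ∀ y ∈ Q, ∀ i : ι, y • i = i
  · by_cases hα : ∃ i₀ : ι, α • i₀ = i₀
    · obtain ⟨i₀, hi₀⟩ := hα
      have hst : ∀ g ∈ MulAction.stabilizer Γ i₀, ∀ v ∈ W i₀, τ g v ∈ W i₀ := by
        intro g hg v hv
        have h3 := hW g i₀ v hv
        rw [MulAction.mem_stabilizer_iff.1 hg] at h3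
        exact h3
      have hαs : α ∈ MulAction.stabilizer Γ i₀ := MulAction.mem_stabilizer_iff.2 hi₀
      have hQs : Q ≤ MulAction.stabilizer Γ i₀ := fun y hy =>
        MulAction.mem_stabilizer_iff.2 (hQ y hy i₀)
      have htd := td_sub h (MulAction.stabilizer Γ i₀) hαs hQs
      obtain ⟨j, hj⟩ := h2 i₀
      have hlt := imp_lt W hind hne i₀ j hj
      have hIH := ih (MulAction.stabilizer Γ i₀) (K.subgroupOf _) (Q.subgroupOf _)
        (⟨α, hαs⟩ : MulAction.stabilizer Γ i₀) (W i₀)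
        (impRes τ (MulAction.stabilizer Γ i₀) (W i₀) hst) htd (by omega) (by
          intro S hS
          have h3 := imp_irr τ W hind hW hirr i₀ (S.map (W i₀).subtype)
            (Submodule.map_subtype_le _ _) (by
              rintro g hg - ⟨w, hw, rfl⟩
              exact ⟨_, hS ⟨g, MulAction.mem_stabilizer_iff.2 hg⟩ w hw, rfl⟩)
          rcases h3 with h3 | h3
          · left
            rw [eq_bot_iff]
            intro s hs
            have h4 : (s : U) ∈ S.map (W i₀).subtype := ⟨s, hs, rfl⟩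
            rw [h3, Submodule.mem_bot] at h4
            rw [Submodule.mem_bot]
            exact Subtype.ext h4
          · right
            rw [eq_top_iff]
            intro s _
            have h4 : (s : U) ∈ S.map (W i₀).subtype := by
              rw [h3]
              exact s.2
            obtain ⟨s', hs', h5⟩ := h4
            have h6 : s' = s := Subtype.ext h5
            rw [← h6]
            exact hs') (by
          intro u hu y hy
          apply Subtype.ext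
          exact hC u.1 (congrArg Subtype.val hu) y.1 (Subgroup.mem_subgroupOf.1 hy))
      have h3 := imC p q hpq τ h W hind hW hne hC hQ i₀ hi₀ (hV p) (by
        intro g hg v hv
        have h4 := hIH g hg
        have h5 := congrArg (fun φ : W i₀ →ₗ[k] W i₀ => ((φ ⟨v, hv⟩ : W i₀) : U)) h4
        exact h5)
      intro g hg
      apply imp_one τ W htop g
      intro j v hv
      obtain ⟨x, hx⟩ := htr i₀ j
      have hn : (lns (Subgroup.normalClosure (Q : Set Γ)) (hV p)).Normal :=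
        lns_normal Subgroup.normalClosure_normal _
      have h4 : x⁻¹ * g * x ∈ lns (Subgroup.normalClosure (Q : Set Γ)) (hV p) := by
        have := hn.conj_mem g hg x⁻¹
        rwa [inv_inv] at this
      have h5 : τ x⁻¹ v ∈ W i₀ := by
        have h6 := hW x⁻¹ j v hv
        rw [← hx, inv_smul_smul] at h6
        exact h6
      have h6 := h3 _ h4 _ h5
      have h7 : τ (x⁻¹ * g * x) (τ x⁻¹ v) = τ x⁻¹ (τ g v) := by
        rw [← Module.End.mul_apply, ← map_mul, ← Module.End.mul_apply, ← map_mul]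
        congr 2
        group
      rw [h7] at h6
      have h8 : ∀ w : U, τ x (τ x⁻¹ w) = w := by
        intro w
        rw [← Module.End.mul_apply, ← map_mul, mul_inv_cancel, map_one]
        rfl
      rw [← h8 (τ g v), h6, h8]
    · push Not at hα
      have h3 : Q ≤ ⊥ := by
        intro y hy
        rw [Subgroup.mem_bot]
        apply hinj
        rw [map_one]
        apply imp_one τ W htop y
        intro i v hv
        exact (imA p q hpq τ Q h.Qgr α h.ap h.Qa W hind hW hne hC i (hα i) y hy).2 v hv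
      have h4 : Subgroup.normalClosure (Q : Set Γ) ≤ ⊥ :=
        Subgroup.normalClosure_le_normal h3
      intro g hg
      have h5 := h4 (lns_le _ _ hg)
      rw [Subgroup.mem_bot] at h5
      rw [h5, map_one]
  · have hα := hor.resolve_right hQ
    push Not at hQ
    obtain ⟨y, hy, i₀, hi₀⟩ := hQ
    have h3 := imB p q τ h W hind htop hW htr hα hC y hy i₀ hi₀
    obtain ⟨u, hu, hu'⟩ := hC0
    exact absurd (h3 u hu') hu

theorem imp {k : Type v} [Field k] [IsAlgClosed k] (l p q d : ℕ) [Fact l.Prime]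
    [Fact p.Prime] [Fact q.Prime] [CharP k l] (hpq : q ≠ p) (ih : ClVP.{u, v} k p q d)
    {Γ : Type u} [Group Γ] [Finite Γ] {K Q : Subgroup Γ} {α : Γ} {U : Type v}
    [AddCommGroup U] [Module k U] [Module.Finite k U] (τ : Representation k Γ U)
    (h : TD p q K Q α) (hd : Module.finrank k U ≤ d + 1) (hinj : Function.Injective τ)
    (hirr : ∀ S : Submodule k U, (∀ g, ∀ w ∈ S, τ g w ∈ S) → S = ⊥ ∨ S = ⊤)
    (hC : ∀ u, τ α u = u → ∀ y ∈ Q, τ y u = u) (hC0 : ∃ u, u ≠ 0 ∧ τ α u = u)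
    (B₀ : Subgroup Γ) (hB : B₀.Normal) (hBc : ∀ x ∈ B₀, ∀ y ∈ B₀, x * y = y * x)
    (hBs : ¬ ∀ b ∈ B₀, ∃ c : k, ∀ w, τ b w = c • w) :
    ∀ g ∈ lns (Subgroup.normalClosure (Q : Set Γ)) (hV p), τ g = 1 := by
  have hord := irr_ord l τ hinj hirr B₀ hB hBc
  have htop := wei_top τ B₀ ⊤ (fun _ _ _ _ => trivial) (by
    intro s hs t ht v _
    rw [← Module.End.mul_apply, ← map_mul, hBc s hs t ht, map_mul, Module.End.mul_apply]) hord
  have hind := wei_ind τ B₀ ⊤
  let _ : MulAction Γ (Wt τ B₀ ⊤) := impAct τ hB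
  have : Finite (Wt τ B₀ ⊤) := (wei_fin τ B₀ ⊤).to_subtype
  have hW : ∀ (g : Γ) (i : Wt τ B₀ ⊤) (v : U), v ∈ WS τ B₀ ⊤ i.1 →
      τ g v ∈ WS τ B₀ ⊤ (g • i).1 := by
    intro g i v hv
    exact WS_cjf (imp_cj hB g) (fun _ _ => Submodule.mem_top) hv
  have hne : ∀ i : Wt τ B₀ ⊤, WS τ B₀ ⊤ i.1 ≠ ⊥ := fun i => i.2.2
  have htr := imp_tr τ (fun ν : Wt τ B₀ ⊤ => WS τ B₀ ⊤ ν.1) hind hW hne hirr
  have h2 : 2 ≤ Nat.card (Wt τ B₀ ⊤) := by
    by_contra hcon
    have h3 : Nat.card (Wt τ B₀ ⊤) ≤ 1 := by omega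
    have : Subsingleton (Wt τ B₀ ⊤) := Finite.card_le_one_iff_subsingleton.1 h3
    rcases isEmpty_or_nonempty (Wt τ B₀ ⊤) with h4 | ⟨⟨ν⟩⟩
    · rw [iSup_of_empty] at htop
      obtain ⟨u, hu, _⟩ := hC0
      apply hu
      have h5 : u ∈ (⊤ : Submodule k U) := trivial
      rw [← htop, Submodule.mem_bot] at h5
      exact h5
    · apply hBs
      intro b hb
      refine ⟨ν.1 b, fun w => ?_⟩
      have h5 : (⨆ ν : Wt τ B₀ ⊤, WS τ B₀ ⊤ ν.1) ≤ WS τ B₀ ⊤ ν.1 := by
        apply iSup_le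
        intro ν'
        rw [Subsingleton.elim ν' ν]
      rw [htop] at h5
      exact (h5 (Submodule.mem_top (x := w))).2 b hb
  have hdis : ∀ x : Wt τ B₀ ⊤, α • x ≠ x → ∀ y ∈ Q, y • x = x := by
    intro x hx y hy
    exact (imA p q hpq τ Q h.Qgr α h.ap h.Qa (fun ν : Wt τ B₀ ⊤ => WS τ B₀ ⊤ ν.1) hind hW hne
      hC x hx y hy).1
  obtain ⟨n, act, f, hf, hsurj, hn2, hor⟩ := blk h htr h2 hdis
  refine imp_blk p q d hpq ih τ h hd hinj hirr hC hC0
    (fun j : Fin n => ⨆ (ν : Wt τ B₀ ⊤) (_ : f ν = j), WS τ B₀ ⊤ ν.1)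
    (imp_cind (fun ν : Wt τ B₀ ⊤ => WS τ B₀ ⊤ ν.1) hind f) ?_ ?_ ?_ ?_ hor
  · rw [eq_top_iff]
    refine htop.ge.trans ?_
    apply iSup_le
    intro ν
    refine le_iSup_of_le (f ν) ?_
    exact le_iSup₂_of_le (f := fun (ν' : Wt τ B₀ ⊤) (_ : f ν' = f ν) => WS τ B₀ ⊤ ν'.1) ν rfl
      le_rfl
  · intro g j v hv
    have h3 : (⨆ (ν : Wt τ B₀ ⊤) (_ : f ν = j), WS τ B₀ ⊤ ν.1).map (τ g) ≤
        ⨆ (ν : Wt τ B₀ ⊤) (_ : f ν = g • j), WS τ B₀ ⊤ ν.1 := by
      rw [Submodule.map_iSup]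
      apply iSup_le
      intro ν
      rw [Submodule.map_iSup]
      apply iSup_le
      intro hν
      rintro - ⟨w, hw, rfl⟩
      have h4 := hW g ν w hw
      have h5 : f (g • ν) = g • j := by rw [hf, hν]
      exact (le_iSup₂_of_le (f := fun (ν' : Wt τ B₀ ⊤) (_ : f ν' = g • j) => WS τ B₀ ⊤ ν'.1)
        (g • ν) h5 le_rfl) h4
    exact h3 ⟨v, hv, rfl⟩
  · intro j hj
    obtain ⟨ν, hν⟩ := hsurj j
    apply hne ν
    rw [eq_bot_iff, ← hj]
    exact le_iSup₂_of_le (f := fun (ν' : Wt τ B₀ ⊤) (_ : f ν' = j) => WS τ B₀ ⊤ ν'.1) ν hν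
      le_rfl
  · intro i
    have : Nontrivial (Fin n) := Fin.nontrivial_iff_two_le.2 hn2
    exact exists_ne i

end H78TP
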