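import Pool.Agent.H78.TP.Base

/-!
[H78 TP COP] A coprime automorphism trivial on the elements of order `l` (30-45 min).

PROOF. Write `x ~ y` for `x y⁻¹ ∈ D`; `D` is normal in `E`, `E / D` is abelian, conjugation by `g`
induces an automorphism `γ` of `E / D` (`hgE`, `hgD`) with `γ ^ m = 1`, `m = orderOf g`, `l ∤ m`.
Induction on `k` (with `x ^ (l ^ k) ∈ D`). `k = 0`: `x ∈ D`. Step: `x ^ (l ^ (k + 1)) ∈ D`, let
`y = x ^ l`; `y ^ (l ^ k) ∈ D`, so by induction `γ y = y` in `E / D`. Let `u = γ x * x⁻¹` in `E / D`;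
`u ^ l = γ (x ^ l) * (x ^ l)⁻¹ = 1`, so `γ u = u` by `h`. So `γ x = u x`, `γ ^ i x = u ^ i x`, and
`u ^ m = 1`; with `u ^ l = 1` and `l ∤ m` we get `u = 1`, i.e. `⁅g, x⁆ ∈ D`.
-/

namespace H78TP

open Subgroup
open scoped commutatorElement

/-- the abstract form: an endomorphism `γ` of an abelian group with `γ ^ m = 1`, `l ∤ m`, which is
trivial on the elements of order `l` is trivial on the elements of `l`-power order -/
theorem cop_aux (l : ℕ) [hl : Fact l.Prime] {Q : Type*} [Group Q] (hc : ∀ a b : Q, a * b = b * a)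
    (γ : Q →* Q) (m : ℕ) (hm : ¬ l ∣ m) (hγ : ∀ x, γ^[m] x = x)
    (h : ∀ x, x ^ l = 1 → γ x = x) : ∀ (k : ℕ) (x : Q), x ^ (l ^ k) = 1 → γ x = x := by
  intro k
  induction k with
  | zero =>
    intro x hx
    rw [pow_zero, pow_one] at hx
    rw [hx, map_one]
  | succ k ih =>
    intro x hx
    have hy : γ (x ^ l) = x ^ l := ih (x ^ l) (by rw [← pow_mul, ← pow_succ']; exact hx)
    obtain ⟨u, hu⟩ : ∃ u, u = γ x * x⁻¹ := ⟨_, rfl⟩
    have hul : u ^ l = 1 := by
      rw [hu, (show Commute (γ x) x⁻¹ from hc _ _).mul_pow, ← map_pow, hy, inv_pow,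
        mul_inv_cancel]
    have hγu : γ u = u := h u hul
    have hx1 : γ x = u * x := by rw [hu, inv_mul_cancel_right]
    have hit : ∀ i, γ^[i] x = u ^ i * x := by
      intro i
      induction i with
      | zero => simp
      | succ i ihi =>
        rw [Function.iterate_succ_apply', ihi, map_mul, map_pow, hγu, hx1, ← mul_assoc, ← pow_succ]
    have h1 := hit m
    rw [hγ] at h1
    have h2 : u ^ m = 1 := by
      calc u ^ m = (u ^ m * x) * x⁻¹ := by rw [mul_inv_cancel_right]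
        _ = 1 := by rw [← h1, mul_inv_cancel]
    have h3 : u = 1 := by
      have ha := orderOf_dvd_of_pow_eq_one hul
      have hb := orderOf_dvd_of_pow_eq_one h2
      rcases (Nat.dvd_prime hl.out).1 ha with hh | hh
      · exact orderOf_eq_one_iff.1 hh
      · exact absurd (hh ▸ hb) hm
    rw [hx1, h3, one_mul]

theorem cop (l : ℕ) [Fact l.Prime] {Γ : Type*} [Group Γ] [Finite Γ] (E D : Subgroup Γ)
    (hDE : D ≤ E) (hEc : ∀ x ∈ E, ∀ y ∈ E, ⁅x, y⁆ ∈ D) (g : Γ)
    (hgE : ∀ x ∈ E, g * x * g⁻¹ ∈ E) (hgD : ∀ x ∈ D, g * x * g⁻¹ ∈ D) (hg : ¬ l ∣ orderOf g)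
    (h : ∀ x ∈ E, x ^ l ∈ D → ⁅g, x⁆ ∈ D) :
    ∀ x ∈ E, (∃ j : ℕ, x ^ (l ^ j) ∈ D) → ⁅g, x⁆ ∈ D := by
  intro x hx hj
  obtain ⟨j, hj⟩ := hj
  haveI hN : (D.subgroupOf E).Normal := ⟨fun n hn e => by
    rw [Subgroup.mem_subgroupOf] at hn ⊢
    have h1 := hEc e e.2 n n.2
    rw [commutatorElement_def] at h1
    have h2 := D.mul_mem h1 hn
    simpa using h2⟩
  let φ : E →* E :=
    { toFun := fun e => ⟨g * e * g⁻¹, hgE e e.2⟩
      map_one' := by ext; simp
      map_mul' := fun a b => by ext; simp [mul_assoc] }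
  have hφ : D.subgroupOf E ≤ (D.subgroupOf E).comap φ := by
    intro a ha
    rw [Subgroup.mem_comap, Subgroup.mem_subgroupOf]
    rw [Subgroup.mem_subgroupOf] at ha
    exact hgD _ ha
  let γ : (E ⧸ D.subgroupOf E) →* (E ⧸ D.subgroupOf E) :=
    QuotientGroup.map (D.subgroupOf E) (D.subgroupOf E) φ hφ
  have hγmk : ∀ e : E, γ (e : E ⧸ D.subgroupOf E) = ((φ e : E) : E ⧸ D.subgroupOf E) :=
    fun e => rfl
  -- criterion for equality
  have hcr : ∀ e : E, γ (e : E ⧸ D.subgroupOf E) = (e : E ⧸ D.subgroupOf E) ↔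
      ⁅g, (e : Γ)⁆ ∈ D := by
    intro e
    rw [hγmk, QuotientGroup.eq_iff_div_mem, Subgroup.mem_subgroupOf, commutatorElement_def,
      div_eq_mul_inv]
    rfl
  have hc : ∀ a b : E ⧸ D.subgroupOf E, a * b = b * a := by
    intro a b
    induction a using QuotientGroup.induction_on with
    | H a =>
      induction b using QuotientGroup.induction_on with
      | H b =>
        rw [← QuotientGroup.mk_mul, ← QuotientGroup.mk_mul, QuotientGroup.eq_iff_div_mem,
          Subgroup.mem_subgroupOf]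
        have h1 := hEc a a.2 b b.2
        rw [commutatorElement_def] at h1
        simpa [div_eq_mul_inv, mul_assoc] using h1
  have hit : ∀ (i : ℕ) (e : E), ∃ e' : E, γ^[i] (e : E ⧸ D.subgroupOf E) =
      (e' : E ⧸ D.subgroupOf E) ∧ (e' : Γ) = g ^ i * e * (g ^ i)⁻¹ := by
    intro i e
    induction i with
    | zero => exact ⟨e, rfl, by simp⟩
    | succ i ih =>
      obtain ⟨e', h1, h2⟩ := ih
      refine ⟨φ e', ?_, ?_⟩
      · rw [Function.iterate_succ_apply', h1, hγmk]
      · change g * (e' : Γ) * g⁻¹ = _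
        rw [h2, pow_succ', mul_inv_rev]
        group
  have key := cop_aux l hc γ (orderOf g) hg (by
    intro y
    induction y using QuotientGroup.induction_on with
    | H e =>
      obtain ⟨e', h1, h2⟩ := hit (orderOf g) e
      rw [pow_orderOf_eq_one, one_mul, inv_one, mul_one] at h2
      rw [h1, Subtype.ext h2]) (by
    intro y hy
    induction y using QuotientGroup.induction_on with
    | H e =>
      rw [hcr]
      refine h e e.2 ?_
      rw [← QuotientGroup.mk_pow, QuotientGroup.eq_one_iff, Subgroup.mem_subgroupOf] at hy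
      simpa using hy) j ((⟨x, hx⟩ : E) : E ⧸ D.subgroupOf E) (by
      rw [← QuotientGroup.mk_pow, QuotientGroup.eq_one_iff, Subgroup.mem_subgroupOf]
      simpa using hj)
  exact (hcr ⟨x, hx⟩).1 key

end H78TP
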