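import Pool.Agent.H78.TP.Base

/-!
[H78 TP COREC] Dimensions of the homogeneous parts of the commutant of `Y` (60-75 min).

PROOF. `A`, `Y` are commuting matrices of finite orders prime to the characteristic over an
algebraically closed field, so `M = (Fin d → k)` is the direct sum of the common eigenspaces
`M j η = {v | A v = ζ ^ j v, Y v = η v}` (`j : ZMod p`, `η` in the set `H` of the `m`-th roots of
unity; `ζ` a primitive `p`-th root of unity, so the eigenvalues of `A` are the powers of `ζ`;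
`Module.End.iSup_iInf_eq_top_of_commute` etc., or projections
`(p m)⁻¹ ∑ s, ∑ t, ζ ^ (-j s) η ^ (-t) A ^ s Y ^ t`). A matrix `X` satisfies `A X = ζ ^ i X A` and
`Y X = X Y` iff it maps `M j η` into `M (j + i) η` for all `j`, `η`. So the space of these `X` is
isomorphic to `Π (j, η), (M j η →ₗ M (j + i) η)`, of dimension
`∑ j, ∑ η, a j η * a (j + i) η` (`Module.finrank_linearMap`, `Module.finrank_pi_fintype`).
Second statement: `∑ j, a j η` over `j` is the dimension of `{v | Y v = η v}`, and the sum over all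
`j`, `η` is `d`.
-/

namespace H78TP

open Subgroup
open scoped commutatorElement

variable {k : Type*} [Field k]

/-- the dimension of the common eigenspace -/
noncomputable def aM (d p : ℕ) (A Y : Matrix (Fin d) (Fin d) k) (ζ : k) (j : ZMod p)
    (η : k) : ℕ :=
  Module.finrank k ({ carrier := {v : Fin d → k | A.mulVec v = ζ ^ j.val • v ∧
                                    Y.mulVec v = η • v}
                      add_mem' := by
                        rintro a b ⟨ha, ha'⟩ ⟨hb, hb'⟩
                        exact ⟨by rw [Matrix.mulVec_add, ha, hb, smul_add],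
                          by rw [Matrix.mulVec_add, ha', hb', smul_add]⟩
                      zero_mem' := ⟨by simp, by simp⟩
                      smul_mem' := by
                        rintro c a ⟨ha, ha'⟩
                        exact ⟨by rw [Matrix.mulVec_smul, ha, smul_comm],
                          by rw [Matrix.mulVec_smul, ha', smul_comm]⟩ } :
                    Submodule k (Fin d → k))

/-- the space of the matrices `X` with `A X = c X A` and `Y X = X Y` -/
def ZM (d : ℕ) (A Y : Matrix (Fin d) (Fin d) k) (c : k) :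
    Submodule k (Matrix (Fin d) (Fin d) k) where
  carrier := {X | A * X = c • (X * A) ∧ Y * X = X * Y}
  add_mem' := by
    rintro X X' ⟨h1, h2⟩ ⟨h3, h4⟩
    exact ⟨by rw [mul_add, h1, h3, add_mul, smul_add], by rw [mul_add, h2, h4, add_mul]⟩
  zero_mem' := ⟨by simp, by simp⟩
  smul_mem' := by
    rintro b X ⟨h1, h2⟩
    exact ⟨by rw [mul_smul_comm, h1, smul_mul_assoc, smul_comm],
      by rw [mul_smul_comm, h2, smul_mul_assoc]⟩

/-- the projection onto the eigenspace of `η` -/
private noncomputable def EE {R : Type*} [Ring R] [Algebra k R] (a : R) (n : ℕ) (η : k) : R :=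
  (n : k)⁻¹ • ∑ t ∈ Finset.range n, (η⁻¹) ^ t • a ^ t

private theorem EE_mul {R : Type*} [Ring R] [Algebra k R] (a : R) (n : ℕ) (ha : a ^ n = 1)
    (η : k) (hη : η ^ n = 1) (hn : n ≠ 0) : a * EE a n η = η • EE a n η := by
  have hη0 : η ≠ 0 := by
    rintro rfl
    rw [zero_pow hn] at hη
    exact zero_ne_one hη
  unfold EE
  rw [mul_smul_comm, smul_comm η, Finset.mul_sum]
  congr 1
  have h1 : ∀ t, a * ((η⁻¹) ^ t • a ^ t) = η • ((η⁻¹) ^ (t + 1) • a ^ (t + 1)) := by
    intro t
    rw [mul_smul_comm, ← pow_succ', smul_smul]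
    congr 1
    rw [pow_succ', ← mul_assoc, mul_inv_cancel₀ hη0, one_mul]
  rw [Finset.sum_congr rfl fun t _ => h1 t, ← Finset.smul_sum]
  congr 1
  have h2 := Finset.sum_range_succ (fun t => (η⁻¹) ^ t • a ^ t) n
  have h3 := Finset.sum_range_succ' (fun t => (η⁻¹) ^ t • a ^ t) n
  rw [h3, ha, inv_pow η n, hη, inv_one, one_smul, pow_zero, pow_zero, one_smul] at h2
  exact add_right_cancel h2

private theorem EE_comm {R : Type*} [Ring R] [Algebra k R] (a c : R) (h : Commute c a) (n : ℕ)
    (η : k) : Commute c (EE a n η) := by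
  unfold EE
  refine Commute.smul_right ?_ _
  refine Commute.sum_right _ _ _ fun t _ => ?_
  exact (h.pow_right t).smul_right _

private theorem EE_sum {R : Type*} [Ring R] [Algebra k R] (a : R) (n : ℕ) (hn : (n : k) ≠ 0)
    (ω : k) (hω : IsPrimitiveRoot ω n) :
    ∑ s ∈ Finset.range n, EE (k := k) a n (ω ^ s) = 1 := by
  unfold EE
  rw [← Finset.smul_sum, Finset.sum_comm]
  have h1 : ∀ t ∈ Finset.range n, ∑ s ∈ Finset.range n, ((ω ^ s)⁻¹) ^ t • a ^ t =
      if t = 0 then (n : k) • (1 : R) else 0 := by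
    intro t ht
    rw [← Finset.sum_smul]
    have h2 : ∀ s ∈ Finset.range n, ((ω ^ s)⁻¹) ^ t = ((ω⁻¹) ^ t) ^ s := by
      intro s _
      rw [← inv_pow, ← pow_mul, ← pow_mul, mul_comm]
    rw [Finset.sum_congr rfl h2]
    by_cases h0 : t = 0
    · rw [if_pos h0, h0]
      simp
    · rw [if_neg h0]
      have h3 : (ω⁻¹) ^ t ≠ 1 := by
        intro h
        rw [inv_pow, inv_eq_one] at h
        have h4 := Nat.le_of_dvd (Nat.pos_of_ne_zero h0) (hω.dvd_of_pow_eq_one _ h)
        have h5 := Finset.mem_range.1 ht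
        omega
      have h4 := geom_sum_mul ((ω⁻¹) ^ t) n
      have h6 : ((ω⁻¹) ^ t) ^ n = 1 := by
        rw [← pow_mul, mul_comm, pow_mul, inv_pow ω n, hω.pow_eq_one, inv_one, one_pow]
      rw [h6, sub_self] at h4
      rcases mul_eq_zero.1 h4 with h5 | h5
      · rw [h5, zero_smul]
      · exact absurd (sub_eq_zero.1 h5) h3
  rw [Finset.sum_congr rfl h1]
  have hn0 : n ≠ 0 := by
    rintro rfl
    simp at hn
  rw [Finset.sum_ite_eq' (Finset.range n) 0 fun _ => (n : k) • (1 : R),
    if_pos (Finset.mem_range.2 (Nat.pos_of_ne_zero hn0)), smul_smul, inv_mul_cancel₀ hn, one_smul]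

private theorem EE_sumZ {R : Type*} [Ring R] [Algebra k R] (a : R) (p : ℕ) [Fact p.Prime]
    (hn : (p : k) ≠ 0) (ζ : k) (hζ : IsPrimitiveRoot ζ p) :
    ∑ j : ZMod p, EE (k := k) a p (ζ ^ j.val) = 1 := by
  rw [← EE_sum a p hn ζ hζ]
  refine Finset.sum_bij (fun j _ => j.val) (fun j _ => Finset.mem_range.2 (ZMod.val_lt j))
    (fun j _ j' _ h => ZMod.val_injective p h) (fun s hs => ?_) (fun j _ => rfl)
  exact ⟨(s : ZMod p), Finset.mem_univ _, ZMod.val_cast_of_lt (Finset.mem_range.1 hs)⟩

private theorem EE_sumR [IsAlgClosed k] {R : Type*} [Ring R] [Algebra k R] (a : R) (m : ℕ)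
    (hm : (m : k) ≠ 0) :
    ∑ η ∈ Polynomial.nthRootsFinset m (1 : k), EE (k := k) a m η = 1 := by
  have hm0 : m ≠ 0 := by
    rintro rfl
    simp at hm
  have h1 : NeZero (m : k) := ⟨hm⟩
  have h2 : NeZero m := ⟨hm0⟩
  obtain ⟨ω, hω⟩ := HasEnoughRootsOfUnity.exists_primitiveRoot k m
  rw [← EE_sum a m hm ω hω]
  symm
  refine Finset.sum_bij (fun s _ => ω ^ s) (fun s _ => ?_) (fun s hs s' hs' h => ?_)
    (fun η hη => ?_) (fun s _ => rfl)
  · rw [Polynomial.mem_nthRootsFinset (Nat.pos_of_ne_zero hm0), ← pow_mul, mul_comm, pow_mul,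
      hω.pow_eq_one, one_pow]
  · exact hω.pow_inj (Finset.mem_range.1 hs) (Finset.mem_range.1 hs') h
  · rw [Polynomial.mem_nthRootsFinset (Nat.pos_of_ne_zero hm0)] at hη
    obtain ⟨s, hs, h⟩ := hω.eq_pow_of_pow_eq_one hη
    exact ⟨s, Finset.mem_range.2 hs, h⟩

/-- the common eigenspace -/
private def MM (d : ℕ) (A Y : Matrix (Fin d) (Fin d) k) (a b : k) :
    Submodule k (Fin d → k) where
  carrier := {v : Fin d → k | A.mulVec v = a • v ∧ Y.mulVec v = b • v}
  add_mem' := by
    rintro x y ⟨ha, ha'⟩ ⟨hb, hb'⟩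
    exact ⟨by rw [Matrix.mulVec_add, ha, hb, smul_add],
      by rw [Matrix.mulVec_add, ha', hb', smul_add]⟩
  zero_mem' := ⟨by simp, by simp⟩
  smul_mem' := by
    rintro c x ⟨ha, ha'⟩
    exact ⟨by rw [Matrix.mulVec_smul, ha, smul_comm],
      by rw [Matrix.mulVec_smul, ha', smul_comm]⟩

private theorem aM_MM (d p : ℕ) (A Y : Matrix (Fin d) (Fin d) k) (ζ : k) (j : ZMod p) (η : k) :
    aM d p A Y ζ j η = Module.finrank k (MM d A Y (ζ ^ j.val) η) := rfl

private theorem mem_MM {d : ℕ} {A Y : Matrix (Fin d) (Fin d) k} {a b : k} {v : Fin d → k} :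
    v ∈ MM d A Y a b ↔ A.mulVec v = a • v ∧ Y.mulVec v = b • v := Iff.rfl

/-- a system of projections for the common eigenspaces -/
private structure Prj {ι : Type*} [Fintype ι] (d : ℕ) (A Y : Matrix (Fin d) (Fin d) k)
    (α β : ι → k) (e : ι → Matrix (Fin d) (Fin d) k) : Prop where
  sum : ∑ x, e x = 1
  lA : ∀ x, A * e x = α x • e x
  rA : ∀ x, e x * A = α x • e x
  lY : ∀ x, Y * e x = β x • e x
  rY : ∀ x, e x * Y = β x • e x
  inj : ∀ x x', α x = α x' → β x = β x' → x = x'

section prj

variable {ι : Type*} [Fintype ι] [DecidableEq ι] {d : ℕ} {A Y : Matrix (Fin d) (Fin d) k}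
  {α β : ι → k} {e : ι → Matrix (Fin d) (Fin d) k}

private theorem Prj.mem (h : Prj d A Y α β e) (x : ι) (v : Fin d → k) :
    (e x).mulVec v ∈ MM d A Y (α x) (β x) := by
  rw [mem_MM, Matrix.mulVec_mulVec, Matrix.mulVec_mulVec, h.lA, h.lY, Matrix.smul_mulVec,
    Matrix.smul_mulVec]
  exact ⟨rfl, rfl⟩

private theorem Prj.orth (h : Prj d A Y α β e) (x x' : ι) (hx : x' ≠ x) (v : Fin d → k)
    (hv : v ∈ MM d A Y (α x) (β x)) : (e x').mulVec v = 0 := by
  obtain ⟨h1, h2⟩ := mem_MM.1 hv
  have h3 : (α x' - α x) • (e x').mulVec v = 0 := by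
    rw [sub_smul, ← Matrix.smul_mulVec, ← h.rA, ← Matrix.mulVec_mulVec, h1, Matrix.mulVec_smul,
      sub_self]
  have h4 : (β x' - β x) • (e x').mulVec v = 0 := by
    rw [sub_smul, ← Matrix.smul_mulVec, ← h.rY, ← Matrix.mulVec_mulVec, h2, Matrix.mulVec_smul,
      sub_self]
  rcases smul_eq_zero.1 h3 with h5 | h5
  · rcases smul_eq_zero.1 h4 with h6 | h6
    · exact absurd (h.inj _ _ (sub_eq_zero.1 h5) (sub_eq_zero.1 h6)) hx
    · exact h6
  · exact h5

private theorem Prj.total (h : Prj d A Y α β e) (v : Fin d → k) :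
    ∑ x, (e x).mulVec v = v := by
  rw [← Matrix.sum_mulVec, h.sum, Matrix.one_mulVec]

private theorem Prj.fix (h : Prj d A Y α β e) (x : ι) (v : Fin d → k)
    (hv : v ∈ MM d A Y (α x) (β x)) : (e x).mulVec v = v := by
  have h1 := h.total v
  rw [Finset.sum_eq_single x (fun x' _ hx => h.orth x x' hx v hv)
    (fun hx => absurd (Finset.mem_univ x) hx)] at h1
  exact h1

/-- the projection as a linear map -/
private noncomputable def Prj.pi (h : Prj d A Y α β e) (x : ι) :
    (Fin d → k) →ₗ[k] MM d A Y (α x) (β x) :=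
  LinearMap.codRestrict _ (Matrix.mulVecLin (e x)) fun v => h.mem x v

private theorem Prj.pi_coe (h : Prj d A Y α β e) (x : ι) (v : Fin d → k) :
    (h.pi x v : Fin d → k) = (e x).mulVec v := rfl

private theorem Prj.pi_self (h : Prj d A Y α β e) (x : ι) (v : MM d A Y (α x) (β x)) :
    h.pi x v = v := Subtype.ext (h.fix x v v.2)

private theorem Prj.pi_ne (h : Prj d A Y α β e) (x x' : ι) (hx : x' ≠ x)
    (v : MM d A Y (α x) (β x)) : h.pi x' v = 0 := Subtype.ext (h.orth x x' hx v v.2)

private theorem Prj.pi_A (h : Prj d A Y α β e) (x : ι) (v : Fin d → k) :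
    h.pi x (A.mulVec v) = α x • h.pi x v := by
  apply Subtype.ext
  rw [h.pi_coe, Submodule.coe_smul, h.pi_coe, Matrix.mulVec_mulVec, h.rA, Matrix.smul_mulVec]

private theorem Prj.pi_Y (h : Prj d A Y α β e) (x : ι) (v : Fin d → k) :
    h.pi x (Y.mulVec v) = β x • h.pi x v := by
  apply Subtype.ext
  rw [h.pi_coe, Submodule.coe_smul, h.pi_coe, Matrix.mulVec_mulVec, h.rY, Matrix.smul_mulVec]

private theorem Prj.dim (h : Prj d A Y α β e) :
    ∑ x, Module.finrank k (MM d A Y (α x) (β x)) = d := by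
  let T : (Fin d → k) →ₗ[k] ((x : ι) → MM d A Y (α x) (β x)) := LinearMap.pi fun x => h.pi x
  have hT : ∀ v x, T v x = h.pi x v := fun v x => rfl
  have hinj : Function.Injective T := by
    rw [← LinearMap.ker_eq_bot, LinearMap.ker_eq_bot']
    intro v hv
    rw [← h.total v]
    refine Finset.sum_eq_zero fun x _ => ?_
    have h1 := congrFun hv x
    rw [hT] at h1
    rw [← h.pi_coe, h1]
    rfl
  have hsur : Function.Surjective T := by
    intro g
    refine ⟨∑ x, (g x : Fin d → k), ?_⟩
    funext x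
    rw [hT, map_sum, Finset.sum_eq_single x]
    · exact h.pi_self x (g x)
    · intro x' _ hx
      exact h.pi_ne x' x hx.symm (g x')
    · intro hx
      exact absurd (Finset.mem_univ x) hx
  have h1 := LinearEquiv.finrank_eq (LinearEquiv.ofBijective T ⟨hinj, hsur⟩)
  rw [Module.finrank_fintype_fun_eq_card, Fintype.card_fin, Module.finrank_pi_fintype] at h1
  exact h1.symm

private theorem Prj.shift (h : Prj d A Y α β e) (σ : ι → ι) (c : k)
    (hα : ∀ x, α (σ x) = c * α x) (hβ : ∀ x, β (σ x) = β x) :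
    Module.finrank k (ZM d A Y c) = ∑ x, Module.finrank k (MM d A Y (α x) (β x)) *
      Module.finrank k (MM d A Y (α (σ x)) (β (σ x))) := by
  have hmem : ∀ (X : ZM d A Y c) (x : ι), ∀ v ∈ MM d A Y (α x) (β x),
      X.1.mulVecLin v ∈ MM d A Y (α (σ x)) (β (σ x)) := by
    intro X x v hv
    obtain ⟨h1, h2⟩ := mem_MM.1 hv
    obtain ⟨h3, h4⟩ := X.2
    rw [Matrix.mulVecLin_apply, mem_MM, Matrix.mulVec_mulVec, Matrix.mulVec_mulVec, h3, h4,
      Matrix.smul_mulVec, ← Matrix.mulVec_mulVec, ← Matrix.mulVec_mulVec, h1, h2,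
      Matrix.mulVec_smul, Matrix.mulVec_smul, smul_smul, hα, hβ]
    exact ⟨rfl, rfl⟩
  let T : ZM d A Y c →ₗ[k] ((x : ι) → (MM d A Y (α x) (β x) →ₗ[k]
      MM d A Y (α (σ x)) (β (σ x)))) :=
    { toFun := fun X x => (X.1.mulVecLin).restrict (hmem X x)
      map_add' := fun X X' => by
        funext x
        apply LinearMap.ext
        intro v
        apply Subtype.ext
        change (X.1 + X'.1).mulVec v = X.1.mulVec v + X'.1.mulVec v
        exact Matrix.add_mulVec _ _ _
      map_smul' := fun b X => by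
        funext x
        apply LinearMap.ext
        intro v
        apply Subtype.ext
        change (b • X.1).mulVec v = b • X.1.mulVec v
        exact Matrix.smul_mulVec _ _ _ }
  have hT : ∀ X x v, ((T X x v : MM d A Y (α (σ x)) (β (σ x))) : Fin d → k) = X.1.mulVec v :=
    fun X x v => rfl
  have hinj : Function.Injective T := by
    rw [injective_iff_map_eq_zero]
    intro X hX
    apply Subtype.ext
    have h1 : ∀ v, X.1.mulVec v = 0 := by
      intro v
      rw [← h.total v, Matrix.mulVec_sum]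
      refine Finset.sum_eq_zero fun x _ => ?_
      have h2 := congrArg Subtype.val (LinearMap.congr_fun (congrFun hX x)
        ⟨(e x).mulVec v, h.mem x v⟩)
      exact h2
    have h2 : Matrix.toLin' X.1 = 0 := by
      apply LinearMap.ext
      intro v
      rw [Matrix.toLin'_apply, h1 v]
      rfl
    exact (LinearEquiv.map_eq_zero_iff Matrix.toLin').1 h2
  have hsur : Function.Surjective T := by
    intro g
    let L : (Fin d → k) →ₗ[k] (Fin d → k) :=
      ∑ x, (MM d A Y (α (σ x)) (β (σ x))).subtype ∘ₗ g x ∘ₗ h.pi x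
    have hL : ∀ v, L v = ∑ x, (g x (h.pi x v) : Fin d → k) := by
      intro v
      change (∑ x, (MM d A Y (α (σ x)) (β (σ x))).subtype ∘ₗ g x ∘ₗ h.pi x) v = _
      rw [LinearMap.sum_apply]
      rfl
    have hX : ∀ v, (LinearMap.toMatrix' L).mulVec v = L v := fun v => by
      rw [← Matrix.toLin'_apply, Matrix.toLin'_toMatrix']
    have hext : ∀ M M' : Matrix (Fin d) (Fin d) k, (∀ v, M.mulVec v = M'.mulVec v) → M = M' := by
      intro M M' hM
      apply Matrix.toLin'.injective
      apply LinearMap.ext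
      intro v
      rw [Matrix.toLin'_apply, Matrix.toLin'_apply, hM]
    refine ⟨⟨LinearMap.toMatrix' L, ?_, ?_⟩, ?_⟩
    · apply hext
      intro v
      rw [← Matrix.mulVec_mulVec, hX, Matrix.smul_mulVec, ← Matrix.mulVec_mulVec, hX, hL, hL,
        Matrix.mulVec_sum, Finset.smul_sum]
      refine Finset.sum_congr rfl fun x _ => ?_
      rw [h.pi_A, map_smul, Submodule.coe_smul, (mem_MM.1 (g x (h.pi x v)).2).1, smul_smul]
      exact congrArg (fun z => z • ((g x (h.pi x v) : MM d A Y (α (σ x)) (β (σ x))) :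
        Fin d → k)) (hα x)
    · apply hext
      intro v
      rw [← Matrix.mulVec_mulVec, hX, ← Matrix.mulVec_mulVec, hX, hL, hL, Matrix.mulVec_sum]
      refine Finset.sum_congr rfl fun x _ => ?_
      rw [h.pi_Y, map_smul, Submodule.coe_smul, (mem_MM.1 (g x (h.pi x v)).2).2]
      exact congrArg (fun z => z • ((g x (h.pi x v) : MM d A Y (α (σ x)) (β (σ x))) :
        Fin d → k)) (hβ x)
    · funext x
      apply LinearMap.ext
      intro v
      apply Subtype.ext
      rw [hT]
      change (LinearMap.toMatrix' L).mulVec v = _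
      rw [hX, hL, Finset.sum_eq_single x]
      · rw [h.pi_self]
      · intro x' _ hx
        rw [h.pi_ne x x' hx, map_zero]
        rfl
      · intro hx
        exact absurd (Finset.mem_univ x) hx
  have h1 := LinearEquiv.finrank_eq (LinearEquiv.ofBijective T ⟨hinj, hsur⟩)
  rw [Module.finrank_pi_fintype] at h1
  rw [h1]
  refine Finset.sum_congr rfl fun x _ => ?_
  rw [Module.finrank_linearMap]

end prj

private theorem prj_ex [IsAlgClosed k] (d p m : ℕ) [Fact p.Prime] (hp : (p : k) ≠ 0)
    (hm : (m : k) ≠ 0) (A Y : Matrix (Fin d) (Fin d) k) (hA : A ^ p = 1) (hY : Y ^ m = 1)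
    (hAY : A * Y = Y * A) (ζ : k) (hζ : IsPrimitiveRoot ζ p) :
    Prj d A Y (fun x : ZMod p × {η // η ∈ Polynomial.nthRootsFinset m (1 : k)} => ζ ^ x.1.val)
      (fun x => x.2.1) (fun x => EE A p (ζ ^ x.1.val) * EE Y m x.2.1) := by
  have hpp : p.Prime := Fact.out
  have hm0 : m ≠ 0 := by
    rintro rfl
    simp at hm
  have hζp : ∀ j : ZMod p, (ζ ^ j.val) ^ p = 1 := fun j => by
    rw [← pow_mul, mul_comm, pow_mul, hζ.pow_eq_one, one_pow]
  have hη : ∀ η : {η // η ∈ Polynomial.nthRootsFinset m (1 : k)}, η.1 ^ m = 1 := fun η =>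
    (Polynomial.mem_nthRootsFinset (Nat.pos_of_ne_zero hm0) (1 : k)).1 η.2
  have cAY : Commute A Y := hAY
  refine ⟨?_, fun x => ?_, fun x => ?_, fun x => ?_, fun x => ?_, fun x x' h1 h2 => ?_⟩
  · rw [Fintype.sum_prod_type]
    simp only [← Finset.mul_sum]
    rw [Finset.sum_coe_sort (Polynomial.nthRootsFinset m (1 : k)) (fun η => EE Y m η),
      EE_sumR Y m hm]
    simp only [mul_one]
    exact EE_sumZ A p hp ζ hζ
  · rw [← mul_assoc, EE_mul A p hA _ (hζp x.1) hpp.ne_zero, smul_mul_assoc]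
  · rw [mul_assoc, ← (EE_comm Y A cAY m x.2.1).eq, ← mul_assoc,
      ← (EE_comm A A (Commute.refl A) p (ζ ^ x.1.val)).eq,
      EE_mul A p hA _ (hζp x.1) hpp.ne_zero, smul_mul_assoc]
  · rw [← mul_assoc, (EE_comm A Y cAY.symm p (ζ ^ x.1.val)).eq, mul_assoc,
      EE_mul Y m hY _ (hη x.2) hm0, mul_smul_comm]
  · rw [mul_assoc, ← (EE_comm Y Y (Commute.refl Y) m x.2.1).eq,
      EE_mul Y m hY _ (hη x.2) hm0, mul_smul_comm]
  · refine Prod.ext ?_ (Subtype.ext h2)
    exact ZMod.val_injective p (hζ.pow_inj (ZMod.val_lt _) (ZMod.val_lt _) h1)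

theorem coreC [IsAlgClosed k] (d p m : ℕ) [Fact p.Prime] (hp : (p : k) ≠ 0) (hm : (m : k) ≠ 0)
    (A Y : Matrix (Fin d) (Fin d) k) (hA : A ^ p = 1) (hY : Y ^ m = 1) (hAY : A * Y = Y * A)
    (ζ : k) (hζ : IsPrimitiveRoot ζ p) (i : ZMod p) :
    Module.finrank k (ZM d A Y (ζ ^ i.val)) =
      ∑ j : ZMod p, ∑ η ∈ Polynomial.nthRootsFinset m (1 : k),
        aM d p A Y ζ j η * aM d p A Y ζ (j + i) η := by
  classical
  have h := prj_ex d p m hp hm A Y hA hY hAY ζ hζ
  rw [h.shift (fun x => (x.1 + i, x.2)) (ζ ^ i.val) (fun x => ?_) (fun x => rfl)]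
  · rw [Fintype.sum_prod_type]
    refine Finset.sum_congr rfl fun j _ => ?_
    exact Finset.sum_coe_sort (Polynomial.nthRootsFinset m (1 : k))
      (fun η => aM d p A Y ζ j η * aM d p A Y ζ (j + i) η)
  · change ζ ^ (x.1 + i).val = ζ ^ i.val * ζ ^ x.1.val
    rw [← pow_add, ZMod.val_add, add_comm i.val]
    have h1 := Nat.div_add_mod (x.1.val + i.val) p
    conv_rhs => rw [← h1, pow_add, pow_mul, hζ.pow_eq_one, one_pow, one_mul]

/-- the commutant of `Y` -/
def ZY (d : ℕ) (Y : Matrix (Fin d) (Fin d) k) : Submodule k (Matrix (Fin d) (Fin d) k) where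
  carrier := {X | Y * X = X * Y}
  add_mem' := by
    intro X X' h1 h2
    simp only [Set.mem_ofPred_eq] at h1 h2 ⊢
    rw [mul_add, h1, h2, add_mul]
  zero_mem' := by simp
  smul_mem' := by
    intro b X h1
    simp only [Set.mem_ofPred_eq] at h1 ⊢
    rw [mul_smul_comm, h1, smul_mul_assoc]

theorem coreC' [IsAlgClosed k] (d p m : ℕ) [Fact p.Prime] (hp : (p : k) ≠ 0)
    (hm : (m : k) ≠ 0)
    (A Y : Matrix (Fin d) (Fin d) k) (hA : A ^ p = 1) (hY : Y ^ m = 1) (hAY : A * Y = Y * A)
    (ζ : k) (hζ : IsPrimitiveRoot ζ p) :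
    ∑ j : ZMod p, ∑ η ∈ Polynomial.nthRootsFinset m (1 : k), aM d p A Y ζ j η = d ∧
    (∑ j : ZMod p, aM d p A Y ζ j 1) ^ 2 ≤ Module.finrank k (ZY d Y) := by
  classical
  have h := prj_ex d p m hp hm A Y hA hY hAY ζ hζ
  have hm0 : m ≠ 0 := by
    rintro rfl
    simp at hm
  constructor
  · have h1 := h.dim
    rw [Fintype.sum_prod_type] at h1
    refine Eq.trans ?_ h1
    refine Finset.sum_congr rfl fun j _ => ?_
    exact (Finset.sum_coe_sort (Polynomial.nthRootsFinset m (1 : k))
      (fun η => aM d p A Y ζ j η)).symm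
  · have h1m : (1 : k) ∈ Polynomial.nthRootsFinset m (1 : k) := by
      rw [Polynomial.mem_nthRootsFinset (Nat.pos_of_ne_zero hm0), one_pow]
    let o : {η // η ∈ Polynomial.nthRootsFinset m (1 : k)} := ⟨1, h1m⟩
    let N : Submodule k (Fin d → k) := MM d (1 : Matrix (Fin d) (Fin d) k) Y 1 1
    have hN : ∀ v, v ∈ N ↔ Y.mulVec v = v := by
      intro v
      rw [mem_MM, Matrix.one_mulVec, one_smul]
      exact ⟨fun h => h.2, fun h => ⟨rfl, h⟩⟩
    -- the sum is at most the dimension of the fixed space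
    have hle : ∑ j : ZMod p, aM d p A Y ζ j 1 ≤ Module.finrank k N := by
      have hmem : ∀ (j : ZMod p) (v : MM d A Y (ζ ^ j.val) 1), (v : Fin d → k) ∈ N := by
        intro j v
        rw [hN, (mem_MM.1 v.2).2, one_smul]
      let T : ((j : ZMod p) → MM d A Y (ζ ^ j.val) 1) →ₗ[k] N :=
        { toFun := fun g => ∑ j, ⟨(g j : Fin d → k), hmem j (g j)⟩
          map_add' := fun g g' => by
            rw [← Finset.sum_add_distrib]
            rfl
          map_smul' := fun c g => by
            rw [RingHom.id_apply, Finset.smul_sum]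
            rfl }
      have hT : ∀ g, ((T g : N) : Fin d → k) = ∑ j, (g j : Fin d → k) := by
        intro g
        change ((∑ j, (⟨(g j : Fin d → k), hmem j (g j)⟩ : N) : N) : Fin d → k) = _
        rw [Submodule.coe_sum]
      have hinj : Function.Injective T := by
        rw [← LinearMap.ker_eq_bot, LinearMap.ker_eq_bot']
        intro g hg
        have h2 : ∑ j, (g j : Fin d → k) = 0 := by
          rw [← hT, hg]
          rfl
        funext j
        have h3 : h.pi (j, o) (∑ j, (g j : Fin d → k)) = g j := by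
          rw [map_sum, Finset.sum_eq_single j]
          · exact h.pi_self (j, o) (g j)
          · intro j' _ hj
            exact h.pi_ne (j', o) (j, o) (fun h4 => hj (congrArg Prod.fst h4).symm) (g j')
          · intro hj
            exact absurd (Finset.mem_univ j) hj
        rw [← h3, h2, map_zero]
        rfl
      have h2 := LinearMap.finrank_le_finrank_of_injective hinj
      rw [Module.finrank_pi_fintype] at h2
      exact h2
    have hpr : ∀ v, (EE Y m (1 : k)).mulVec v ∈ N := by
      intro v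
      rw [hN, Matrix.mulVec_mulVec, EE_mul Y m hY 1 (one_pow m) hm0, one_smul]
    have hfix : ∀ v ∈ N, (EE Y m (1 : k)).mulVec v = v := by
      intro v hv
      have h2 := (hN v).1 hv
      have h3 : ∀ t, (Y ^ t).mulVec v = v := by
        intro t
        induction t with
        | zero => rw [pow_zero, Matrix.one_mulVec]
        | succ t ih => rw [pow_succ, ← Matrix.mulVec_mulVec, h2, ih]
      unfold EE
      rw [Matrix.smul_mulVec, Matrix.sum_mulVec]
      have h4 : ∀ t ∈ Finset.range m, (((1 : k)⁻¹) ^ t • Y ^ t).mulVec v = v := by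
        intro t _
        rw [inv_one, one_pow, one_smul, h3]
      rw [Finset.sum_congr rfl h4, Finset.sum_const, Finset.card_range,
        ← Nat.cast_smul_eq_nsmul k, smul_smul, inv_mul_cancel₀ hm, one_smul]
    let π : (Fin d → k) →ₗ[k] N := LinearMap.codRestrict N (Matrix.mulVecLin (EE Y m (1 : k))) hpr
    have hπ : ∀ v, (π v : Fin d → k) = (EE Y m (1 : k)).mulVec v := fun v => rfl
    have hext : ∀ M M' : Matrix (Fin d) (Fin d) k, (∀ v, M.mulVec v = M'.mulVec v) → M = M' := by
      intro M M' hM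
      apply Matrix.toLin'.injective
      apply LinearMap.ext
      intro v
      rw [Matrix.toLin'_apply, Matrix.toLin'_apply, hM]
    have hmul : ∀ (L : (Fin d → k) →ₗ[k] (Fin d → k)) (v : Fin d → k),
        (LinearMap.toMatrix' L).mulVec v = L v := fun L v => by
      rw [← Matrix.toLin'_apply, Matrix.toLin'_toMatrix']
    have hZ : ∀ g : N →ₗ[k] N, LinearMap.toMatrix' (N.subtype ∘ₗ g ∘ₗ π) ∈ ZY d Y := by
      intro g
      change Y * _ = _ * Y
      apply hext
      intro v
      rw [← Matrix.mulVec_mulVec, hmul, ← Matrix.mulVec_mulVec, hmul]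
      change Y.mulVec (g (π v) : Fin d → k) = (g (π (Y.mulVec v)) : Fin d → k)
      have h2 : π (Y.mulVec v) = π v := by
        apply Subtype.ext
        rw [hπ, hπ, Matrix.mulVec_mulVec, ← (EE_comm Y Y (Commute.refl Y) m (1 : k)).eq,
          EE_mul Y m hY 1 (one_pow m) hm0, one_smul]
      rw [h2]
      exact (hN _).1 (g (π v)).2
    let Φ : (N →ₗ[k] N) →ₗ[k] ZY d Y :=
      { toFun := fun g => ⟨LinearMap.toMatrix' (N.subtype ∘ₗ g ∘ₗ π), hZ g⟩
        map_add' := fun g g' => by
          apply Subtype.ext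
          change LinearMap.toMatrix' _ = LinearMap.toMatrix' _ + LinearMap.toMatrix' _
          rw [← map_add]
          rfl
        map_smul' := fun c g => by
          apply Subtype.ext
          change LinearMap.toMatrix' _ = c • LinearMap.toMatrix' _
          rw [← map_smul]
          rfl }
    have hinj : Function.Injective Φ := by
      rw [injective_iff_map_eq_zero]
      intro g hg
      apply LinearMap.ext
      intro v
      apply Subtype.ext
      have h2 : LinearMap.toMatrix' (N.subtype ∘ₗ g ∘ₗ π) = 0 := congrArg Subtype.val hg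
      have h3 := hmul (N.subtype ∘ₗ g ∘ₗ π) v
      rw [h2, Matrix.zero_mulVec] at h3
      have h4 : π v = v := Subtype.ext (hfix v v.2)
      have h5 : (N.subtype ∘ₗ g ∘ₗ π) (v : Fin d → k) = (g v : Fin d → k) := by
        change (g (π v) : Fin d → k) = _
        rw [h4]
      rw [← h5, ← h3]
      rfl
    have h2 := LinearMap.finrank_le_finrank_of_injective hinj
    rw [Module.finrank_linearMap] at h2
    calc (∑ j : ZMod p, aM d p A Y ζ j 1) ^ 2 ≤ Module.finrank k N ^ 2 :=
          Nat.pow_le_pow_left hle 2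
      _ = Module.finrank k N * Module.finrank k N := sq _
      _ ≤ _ := h2

end H78TP
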