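import Pool.Agent.H78.TP.CoreA
import Pool.Agent.H78.TP.CoreC

/-!
[H78 TP CORED] Twisting (75 min).

PROOF. Write `a ↦ α a α⁻¹`, `a ↦ y a y⁻¹` for the conjugation by `τ α`, `τ y` on the range of `ψ`.
By `hAψ`, `hYψ` and injectivity `X ∈ ZM d A Y c` iff `α (ψ X) α⁻¹ = c ψ X` and `y (ψ X) y⁻¹ = ψ X`
(`A X A⁻¹ = c X` iff `A X = c X A`). Let `x_t` (`t ∈ T = N / B`) be representatives of the cosets of
`B` in `N`, `x_1 = 1`. They form a basis (`τ x_t`) of the range of `ψ` (`hlin`; they span since `B`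
acts by scalars). Conjugation by `α`, `y` permutes the lines `k τ x_t` as `α`, `y` permute `T`, and
fixes `τ 1`. So the range is `k 1 ⊕ R'`, `R'` the span of the `τ x_t`, `t ≠ 1`, both invariant, and
the homogeneous part `Z_c` is `(k 1 if c = 1, else 0) ⊕ Z'_c`. It remains to show
`finrank Z'_1 = finrank Z'_(ζ ^ i)` for all `i`.
There is `φ : T ∖ {1} → ZMod p` with `φ (α t α⁻¹) = φ t + 1` and `φ (y t y⁻¹) = φ t`: let `O` be
the set of the orbits of `y` on `T ∖ {1}`; `α` acts on `O` and fixes no element: if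
`α t α⁻¹ = y ^ s t y ^ (-s)` then (as `α`, `y` commute) `α ^ (q ^ e)` fixes `t`, and `α ^ p = 1`, so
`α` fixes `t`, i.e. `⁅α, x_t⁆ ∈ B` and `t = 1` by `hfpf`. So all orbits of `α` on `O` have length `p`;
choose representatives of them.
Let `Θ : R' → R'` be the linear map with `Θ (τ x) = ζ ^ (i φ t) τ x` for `x` in the coset `t`. It is
invertible, commutes with the conjugation by `y`, and `Θ (α a α⁻¹) = ζ ^ i α (Θ a) α⁻¹`. So `Θ` maps
`Z'_1` onto `Z'_(ζ ^ (-i))`: `α (Θ a) α⁻¹ = ζ ^ (-i) Θ (α a α⁻¹) = ζ ^ (-i) Θ a`.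
-/

namespace H78TP

open Subgroup
open scoped commutatorElement

variable {k Γ U : Type*} [Field k] [Group Γ] [AddCommGroup U] [Module k U]

/-- labelling of the orbits of two commuting permutations -/
private theorem coreD_phi {T : Type*} (a b : Equiv.Perm T) (hab : a * b = b * a) (p m : ℕ)
    [Fact p.Prime] (hpm : Nat.Coprime p m) (ha : a ^ p = 1) (hb : b ^ m = 1) :
    ∃ φ : T → ZMod p, ∀ t, a t ≠ t → φ (a t) = φ t + 1 ∧ φ (b t) = φ t := by
  classical
  have hc : Commute a b := hab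
  have hmul : ∀ i j i' j' : ℤ, a ^ i * b ^ j * (a ^ i' * b ^ j') =
      a ^ (i + i') * b ^ (j + j') := by
    intro i j i' j'
    have h1 : b ^ j * a ^ i' = a ^ i' * b ^ j := ((hc.symm).zpow_zpow j i').eq
    calc a ^ i * b ^ j * (a ^ i' * b ^ j') = a ^ i * (b ^ j * a ^ i') * b ^ j' := by
          simp only [mul_assoc]
      _ = _ := by
        rw [h1, zpow_add, zpow_add]
        simp only [mul_assoc]
  have happ : ∀ (g h : Equiv.Perm T) (t : T), (g * h) t = g (h t) := fun g h t => rfl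
  have key : ∀ (i j : ℤ) (t : T), (a ^ i * b ^ j) t = t → a t ≠ t → (p : ℤ) ∣ i := by
    intro i j t h1 h2
    by_contra h3
    apply h2
    have h4 : a ^ i * b ^ j ∈ MulAction.stabilizer (Equiv.Perm T) t := h1
    have h5 : (a ^ i * b ^ j) ^ m ∈ MulAction.stabilizer (Equiv.Perm T) t := pow_mem h4 m
    have h6 : (a ^ i * b ^ j) ^ m = a ^ (i * m) := by
      rw [(hc.zpow_zpow i j).mul_pow]
      have h7 : (b ^ j) ^ m = 1 := by
        rw [← zpow_natCast, ← zpow_mul, mul_comm, zpow_mul, zpow_natCast, hb, one_zpow]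
      rw [h7, mul_one, ← zpow_natCast, ← zpow_mul]
    rw [h6] at h5
    have hpZ : Prime (p : ℤ) := Nat.prime_iff_prime_int.1 (Fact.out : p.Prime)
    have h7 : ¬ (p : ℤ) ∣ i * m := by
      intro h8
      rcases hpZ.dvd_or_dvd h8 with h9 | h9
      · exact h3 h9
      · have h10 : p ∣ m := Int.natCast_dvd_natCast.1 h9
        have h11 := Nat.dvd_gcd (dvd_refl p) h10
        rw [hpm, Nat.dvd_one] at h11
        exact (Fact.out : p.Prime).one_lt.ne' h11
    obtain ⟨u, v, huv⟩ := (hpZ.irreducible.coprime_iff_not_dvd).2 h7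
    have h8 : a = (a ^ (i * (m : ℤ))) ^ v := by
      have h9 : a ^ (u * (p : ℤ)) = 1 := by
        rw [mul_comm, zpow_mul, zpow_natCast, ha, one_zpow]
      calc a = a ^ (u * (p : ℤ) + v * (i * m)) := by rw [huv, zpow_one]
        _ = (a ^ (i * (m : ℤ))) ^ v := by rw [zpow_add, h9, one_mul, mul_comm v, zpow_mul]
    have h9 : a ∈ MulAction.stabilizer (Equiv.Perm T) t := by
      rw [h8]
      exact zpow_mem h5 v
    exact h9
  let S : Setoid T :=
    { r := fun s t => ∃ i j : ℤ, t = (a ^ i * b ^ j) s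
      iseqv := by
        refine ⟨fun s => ⟨0, 0, ?_⟩, ?_, ?_⟩
        · rw [zpow_zero, zpow_zero, one_mul]
          rfl
        · rintro s t ⟨i, j, h⟩
          refine ⟨-i, -j, ?_⟩
          rw [h, ← happ, hmul, neg_add_cancel, neg_add_cancel, zpow_zero, zpow_zero, one_mul]
          rfl
        · rintro s t w ⟨i, j, h⟩ ⟨i', j', h'⟩
          refine ⟨i' + i, j' + j, ?_⟩
          rw [h', h, ← happ, hmul] }
  let r : T → T := fun t => (Quotient.mk S t).out
  have hr : ∀ t, ∃ i j : ℤ, t = (a ^ i * b ^ j) (r t) := fun t => Quotient.mk_out (s := S) t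
  choose I J hIJ using hr
  refine ⟨fun t => ((I t : ℤ) : ZMod p), fun t ht => ?_⟩
  have hra : r (a t) = r t := by
    have h1 : Quotient.mk S (a t) = Quotient.mk S t := by
      apply Quotient.sound
      refine ⟨-1, 0, ?_⟩
      rw [zpow_zero, mul_one, zpow_neg_one]
      exact (a.symm_apply_apply t).symm
    show (Quotient.mk S (a t)).out = (Quotient.mk S t).out
    rw [h1]
  have hrb : r (b t) = r t := by
    have h1 : Quotient.mk S (b t) = Quotient.mk S t := by
      apply Quotient.sound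
      refine ⟨0, -1, ?_⟩
      rw [zpow_zero, one_mul, zpow_neg_one]
      exact (b.symm_apply_apply t).symm
    show (Quotient.mk S (b t)).out = (Quotient.mk S t).out
    rw [h1]
  have hrt : a (r t) ≠ r t := by
    intro h
    apply ht
    have h1 : a * (a ^ (I t) * b ^ (J t)) = (a ^ (I t) * b ^ (J t)) * a := by
      have h2 := hmul 1 0 (I t) (J t)
      have h3 := hmul (I t) (J t) 1 0
      rw [zpow_one, zpow_zero, mul_one] at h2 h3
      rw [h2, h3, add_comm, add_comm 0]
    have h2 := hIJ t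
    have h3 : a t = a ((a ^ (I t) * b ^ (J t)) (r t)) := by rw [← h2]
    rw [h3, ← happ, h1, happ, h, ← h2]
  have hdvd : ∀ (i j i' j' : ℤ), (a ^ i * b ^ j) (r t) = (a ^ i' * b ^ j') (r t) →
      ((i : ℤ) : ZMod p) = ((i' : ℤ) : ZMod p) := by
    intro i j i' j' h
    have h1 : (a ^ (-i' + i) * b ^ (-j' + j)) (r t) = r t := by
      rw [← hmul, happ, h, ← happ, hmul, neg_add_cancel, neg_add_cancel, zpow_zero, zpow_zero,
        one_mul]
      rfl
    have h2 := key _ _ _ h1 hrt
    have h3 := (ZMod.intCast_zmod_eq_zero_iff_dvd _ p).2 h2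
    rw [Int.cast_add, Int.cast_neg, neg_add_eq_zero] at h3
    exact h3.symm
  constructor
  · have h1 := hIJ (a t)
    rw [hra] at h1
    have h2 : a t = (a ^ (1 + I t) * b ^ (0 + J t)) (r t) := by
      have h3 := hmul 1 0 (I t) (J t)
      rw [zpow_one, zpow_zero, mul_one] at h3
      rw [← h3, happ, ← hIJ t]
    have h3 := hdvd _ _ _ _ (h1.symm.trans h2)
    show ((I (a t) : ℤ) : ZMod p) = ((I t : ℤ) : ZMod p) + 1
    rw [h3, Int.cast_add, Int.cast_one, add_comm]
  · have h1 := hIJ (b t)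
    rw [hrb] at h1
    have h2 : b t = (a ^ (0 + I t) * b ^ (1 + J t)) (r t) := by
      have h3 := hmul 0 1 (I t) (J t)
      rw [zpow_one, zpow_zero, one_mul] at h3
      rw [← h3, happ, ← hIJ t]
    have h3 := hdvd _ _ _ _ (h1.symm.trans h2)
    show ((I (b t) : ℤ) : ZMod p) = ((I t : ℤ) : ZMod p)
    rw [h3, Int.cast_add, Int.cast_zero, zero_add]

theorem coreD [IsAlgClosed k] [Finite Γ] [Module.Finite k U] (τ : Representation k Γ U)
    (B N : Subgroup Γ) (lam : Γ → k) (L : Loc τ ⊤ B N B lam) (d : ℕ)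
    (ψ : Matrix (Fin d) (Fin d) k →ₐ[k] Module.End k U) (hψ : Function.Injective ψ)
    (hψr : ψ.range.toSubmodule = Submodule.span k ((fun x => τ x) '' (N : Set Γ)))
    (hlin : ∀ I : Finset Γ, (∀ x ∈ I, x ∈ N) → (∀ x ∈ I, ∀ y ∈ I, x⁻¹ * y ∈ B → x = y) →
        LinearIndependent k (fun x : I => τ x.1))
    (p q e : ℕ) [Fact p.Prime] [Fact q.Prime] (hpq : q ≠ p)
    (α y : Γ) (hα : α ^ p = 1) (hy : y ^ (q ^ e) = 1) (hαy : α * y = y * α)
    (hNα : ∀ x ∈ N, α * x * α⁻¹ ∈ N) (hNy : ∀ x ∈ N, y * x * y⁻¹ ∈ N)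
    (hBα : ∀ x ∈ B, α * x * α⁻¹ ∈ B) (hBy : ∀ x ∈ B, y * x * y⁻¹ ∈ B)
    (hfpf : ∀ x ∈ N, ⁅α, x⁆ ∈ B → x ∈ B)
    (A Y : Matrix (Fin d) (Fin d) k) (hA : A ^ p = 1) (hY : Y ^ (q ^ e) = 1)
    (hAψ : ∀ X, τ α * ψ X = ψ (A * X * A ^ (p - 1)) * τ α)
    (hYψ : ∀ X, τ y * ψ X = ψ (Y * X * Y ^ (q ^ e - 1)) * τ y)
    (ζ : k) (hζ : IsPrimitiveRoot ζ p) (i : ZMod p) (hi : i ≠ 0) :
    Module.finrank k (ZM d A Y (ζ ^ (0 : ZMod p).val)) =
      Module.finrank k (ZM d A Y (ζ ^ i.val)) + 1 := by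
  classical
  have hm : 0 < q ^ e := pow_pos (Fact.out : q.Prime).pos e
  have hp0 : 0 < p := (Fact.out : p.Prime).pos
  have hsc : ∀ b ∈ B, τ b = lam b • (1 : Module.End k U) := by
    intro b hb
    apply LinearMap.ext
    intro v
    rw [L.sc b hb v trivial]
    rfl
  have hu : ∀ g : Γ, τ g * τ g⁻¹ = 1 := by
    intro g
    rw [← map_mul, mul_inv_cancel, map_one]
  have hu' : ∀ g : Γ, τ g⁻¹ * τ g = 1 := by
    intro g
    rw [← map_mul, inv_mul_cancel, map_one]
  -- the cosets
  let T : Type _ := N ⧸ B.subgroupOf N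
  haveI : Finite T := inferInstanceAs (Finite (N ⧸ B.subgroupOf N))
  letI : Fintype T := Fintype.ofFinite T
  let t₁ : T := ((1 : N) : N ⧸ B.subgroupOf N)
  let mk : Γ → T := fun n => if h : n ∈ N then ((⟨n, h⟩ : N) : N ⧸ B.subgroupOf N) else t₁
  have hmkdef : ∀ n (h : n ∈ N), mk n = ((⟨n, h⟩ : N) : N ⧸ B.subgroupOf N) :=
    fun n h => dif_pos h
  let x : T → Γ := fun t => ((t.out : N) : Γ)
  have hxN : ∀ t, x t ∈ N := fun t => (t.out : N).2
  have hmkx : ∀ t, mk (x t) = t := by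
    intro t
    rw [hmkdef _ (hxN t)]
    exact Quotient.out_eq t
  have hmkeq : ∀ n ∈ N, ∀ n' ∈ N, (mk n = mk n' ↔ n⁻¹ * n' ∈ B) := by
    intro n hn n' hn'
    rw [hmkdef _ hn, hmkdef _ hn', QuotientGroup.eq, Subgroup.mem_subgroupOf]
    rfl
  have hxmk : ∀ n ∈ N, (x (mk n))⁻¹ * n ∈ B := fun n hn =>
    (hmkeq _ (hxN _) _ hn).1 (hmkx _)
  have hmk1 : mk 1 = t₁ := hmkdef 1 N.one_mem
  have hxinj : Function.Injective x := by
    intro t t' h
    rw [← hmkx t, ← hmkx t', h]
  let X : T → Module.End k U := fun t => τ (x t)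
  have hXli : LinearIndependent k X := by
    have h1 := hlin (Finset.univ.image x) (by
      intro z hz
      obtain ⟨t, -, rfl⟩ := Finset.mem_image.1 hz
      exact hxN t) (by
      intro z hz z' hz' h
      obtain ⟨t, -, rfl⟩ := Finset.mem_image.1 hz
      obtain ⟨t', -, rfl⟩ := Finset.mem_image.1 hz'
      have h2 := (hmkeq _ (hxN t) _ (hxN t')).2 h
      rw [hmkx, hmkx] at h2
      rw [h2])
    exact h1.comp (fun t => ⟨x t, Finset.mem_image.2 ⟨t, Finset.mem_univ _, rfl⟩⟩)
      (fun t t' h => by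
        have h' := congrArg Subtype.val h
        exact hxinj h')
  -- an element of `N` acts as a scalar multiple of a representative
  have hXmk : ∀ n ∈ N, τ n = lam ((x (mk n))⁻¹ * n) • X (mk n) := by
    intro n hn
    have h5 : n = x (mk n) * ((x (mk n))⁻¹ * n) := by group
    have h6 : τ n = τ (x (mk n)) * τ ((x (mk n))⁻¹ * n) := by rw [← map_mul, ← h5]
    rw [h6, hsc _ (hxmk n hn), mul_smul_comm, mul_one]
  have hspan : Submodule.span k ((fun x => τ x) '' (N : Set Γ)) =
      Submodule.span k (Set.range X) := by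
    apply le_antisymm
    · rw [Submodule.span_le]
      rintro _ ⟨n, hn, rfl⟩
      show τ n ∈ Submodule.span k (Set.range X)
      rw [hXmk n hn]
      exact Submodule.smul_mem _ _ (Submodule.subset_span ⟨_, rfl⟩)
    · rw [Submodule.span_le]
      rintro _ ⟨t, rfl⟩
      exact Submodule.subset_span ⟨x t, hxN t, rfl⟩
  have hXr : ∀ t, ∃ M, ψ M = X t := by
    intro t
    have h1 : X t ∈ ψ.range.toSubmodule := by
      rw [hψr]
      exact Submodule.subset_span ⟨x t, hxN t, rfl⟩
    exact h1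
  choose M hM using hXr
  have hMli : LinearIndependent k M := by
    refine LinearIndependent.of_comp ψ.toLinearMap ?_
    have h1 : ψ.toLinearMap ∘ M = X := funext hM
    rw [h1]
    exact hXli
  have hMspan : ⊤ ≤ Submodule.span k (Set.range M) := by
    intro Z _
    have h1 : ψ Z ∈ Submodule.span k (Set.range X) := by
      rw [← hspan, ← hψr]
      exact ⟨Z, rfl⟩
    obtain ⟨c, hc⟩ := (Submodule.mem_span_range_iff_exists_fun k).1 h1
    refine (Submodule.mem_span_range_iff_exists_fun k).2 ⟨c, hψ ?_⟩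
    rw [map_sum, ← hc]
    refine Finset.sum_congr rfl fun t _ => ?_
    rw [map_smul, hM]
  let bas := Module.Basis.mk hMli hMspan
  have hbas : ∀ f : T → k, bas.equivFun.symm f = ∑ t, f t • M t := by
    intro f
    rw [Module.Basis.equivFun_symm_apply]
    refine Finset.sum_congr rfl fun t _ => ?_
    rw [Module.Basis.mk_apply]
  -- the action of an element which normalises `N` and `B`
  have key : ∀ (g : Γ) (r : ℕ) (_ : 0 < r) (_ : g ^ r = 1) (_ : ∀ z ∈ N, g * z * g⁻¹ ∈ N)
      (_ : ∀ z ∈ B, g * z * g⁻¹ ∈ B) (G : Matrix (Fin d) (Fin d) k) (_ : G ^ r = 1)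
      (_ : ∀ Z, τ g * ψ Z = ψ (G * Z * G ^ (r - 1)) * τ g),
      ∃ (σ : Equiv.Perm T) (s : T → k), (∀ n ∈ N, σ (mk n) = mk (g * n * g⁻¹)) ∧
        σ ^ r = 1 ∧ s t₁ = 1 ∧
        ∀ (c : k) (f : T → k), (G * (∑ t, f t • M t) = c • ((∑ t, f t • M t) * G) ↔
          ∀ t, s t * f t = c * f (σ t)) := by
    intro g r hr hg hgN hgB G hG hGψ
    let F : T → T := fun t => mk (g * x t * g⁻¹)
    have hF : ∀ n ∈ N, F (mk n) = mk (g * n * g⁻¹) := by
      intro n hn
      refine (hmkeq _ (hgN _ (hxN _)) _ (hgN _ hn)).2 ?_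
      have h1 : (g * x (mk n) * g⁻¹)⁻¹ * (g * n * g⁻¹) = g * ((x (mk n))⁻¹ * n) * g⁻¹ := by
        group
      rw [h1]
      exact hgB _ (hxmk n hn)
    have hiter : ∀ j : ℕ, ∀ n ∈ N, g ^ j * n * (g ^ j)⁻¹ ∈ N ∧
        F^[j] (mk n) = mk (g ^ j * n * (g ^ j)⁻¹) := by
      intro j
      induction j with
      | zero =>
        intro n hn
        have h1 : g ^ 0 * n * (g ^ 0)⁻¹ = n := by group
        rw [h1]
        exact ⟨hn, rfl⟩
      | succ j ih =>
        intro n hn
        obtain ⟨h1, h2⟩ := ih n hn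
        have h3 : g ^ (j + 1) * n * (g ^ (j + 1))⁻¹ = g * (g ^ j * n * (g ^ j)⁻¹) * g⁻¹ := by
          rw [pow_succ']
          group
        rw [h3, Function.iterate_succ_apply', h2, hF _ h1]
        exact ⟨hgN _ h1, rfl⟩
    have hFr : ∀ t, F^[r] t = t := by
      intro t
      have h1 := (hiter r (x t) (hxN t)).2
      rw [hg, hmkx] at h1
      rw [h1]
      have h2 : (1 : Γ) * x t * (1 : Γ)⁻¹ = x t := by group
      rw [h2, hmkx]
    let σ : Equiv.Perm T :=
      { toFun := F
        invFun := F^[r - 1]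
        left_inv := by
          intro t
          rw [← Function.iterate_succ_apply, Nat.succ_eq_add_one, Nat.sub_add_cancel hr, hFr]
        right_inv := by
          intro t
          rw [← Function.iterate_succ_apply' F, Nat.succ_eq_add_one, Nat.sub_add_cancel hr,
            hFr] }
    have hσ : ∀ t, σ t = F t := fun t => rfl
    have hσr : σ ^ r = 1 := by
      apply Equiv.ext
      intro t
      have h1 : ∀ j : ℕ, (σ ^ j) t = F^[j] t := by
        intro j
        induction j with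
        | zero => rfl
        | succ j ih =>
          rw [pow_succ', Equiv.Perm.mul_apply, ih, Function.iterate_succ_apply']
          rfl
      rw [h1, hFr]
      rfl
    let s : T → k := fun t => lam ((x (F t))⁻¹ * (g * x t * g⁻¹))
    have hs : ∀ t, τ g * X t * τ g⁻¹ = s t • X (σ t) := by
      intro t
      have h1 : τ g * X t * τ g⁻¹ = τ (g * x t * g⁻¹) := by rw [map_mul, map_mul]
      rw [h1, hXmk _ (hgN _ (hxN t))]
      rfl
    have hs1 : s t₁ = 1 := by
      have h1 : σ t₁ = t₁ := by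
        rw [← hmk1]
        show F (mk 1) = mk 1
        rw [hF 1 N.one_mem, mul_one, mul_inv_cancel]
      have h2 : X t₁ = lam (x t₁) • (1 : Module.End k U) := by
        apply hsc
        have h3 := hxmk 1 N.one_mem
        rw [hmk1, mul_one] at h3
        exact B.inv_mem_iff.1 h3
      have h3 := hs t₁
      rw [h1, h2, mul_smul_comm, smul_mul_assoc, mul_one, hu, ← h2] at h3
      have h4 : (s t₁ - 1) • X t₁ = 0 := by rw [sub_smul, ← h3, one_smul, sub_self]
      rcases smul_eq_zero.1 h4 with h5 | h5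
      · exact sub_eq_zero.1 h5
      · exact absurd h5 (hXli.ne_zero t₁)
    refine ⟨σ, s, fun n hn => hF n hn, hσr, hs1, fun c f => ?_⟩
    have hGG : G * G ^ (r - 1) = 1 := by rw [← pow_succ', Nat.sub_add_cancel hr, hG]
    have hGG' : G ^ (r - 1) * G = 1 := by rw [← pow_succ, Nat.sub_add_cancel hr, hG]
    set Mf := ∑ t, f t • M t with hMf
    have h_a : G * Mf = c • (Mf * G) ↔ G * Mf * G ^ (r - 1) = c • Mf := by
      constructor
      · intro h
        rw [h, smul_mul_assoc, mul_assoc, hGG, mul_one]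
      · intro h
        calc G * Mf = G * Mf * G ^ (r - 1) * G := by rw [mul_assoc (G * Mf), hGG', mul_one]
          _ = c • (Mf * G) := by rw [h, smul_mul_assoc]
    have h_b : τ g * ψ Mf * τ g⁻¹ = ψ (G * Mf * G ^ (r - 1)) := by
      rw [hGψ, mul_assoc, hu, mul_one]
    have hψM : ψ Mf = ∑ t, f t • X t := by
      rw [hMf, map_sum]
      refine Finset.sum_congr rfl fun t _ => ?_
      rw [map_smul, hM]
    have h_c : τ g * ψ Mf * τ g⁻¹ = ∑ t, (s t * f t) • X (σ t) := by
      rw [hψM, Finset.mul_sum, Finset.sum_mul]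
      refine Finset.sum_congr rfl fun t _ => ?_
      rw [mul_smul_comm, smul_mul_assoc, hs, smul_smul, mul_comm]
    have h_d : ψ (c • Mf) = ∑ t, (c * f (σ t)) • X (σ t) := by
      rw [map_smul, hψM, Finset.smul_sum, Equiv.sum_comp σ (fun t => (c * f t) • X t)]
      refine Finset.sum_congr rfl fun t _ => ?_
      rw [smul_smul]
    rw [h_a]
    constructor
    · intro h t
      have h1 : ∑ t, (s t * f t - c * f (σ t)) • X (σ t) = 0 := by
        rw [← sub_eq_zero.2 (h_c.symm.trans (h_b.trans ((congrArg ψ h).trans h_d))),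
          ← Finset.sum_sub_distrib]
        refine Finset.sum_congr rfl fun t _ => ?_
        rw [sub_smul]
      have h2 := Fintype.linearIndependent_iff.1 (hXli.comp σ σ.injective) _ h1 t
      exact sub_eq_zero.1 h2
    · intro h
      apply hψ
      rw [← h_b, h_c, h_d]
      refine Finset.sum_congr rfl fun t _ => ?_
      rw [h t]
  obtain ⟨a, s, ha, hap, hs1, hsA⟩ := key α p hp0 hα hNα hBα A hA hAψ
  obtain ⟨b, s', hb, hbm, hs1', hsY⟩ := key y (q ^ e) hm hy hNy hBy Y hY hYψ
  have hab : a * b = b * a := by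
    apply Equiv.ext
    intro t
    rw [Equiv.Perm.mul_apply, Equiv.Perm.mul_apply, ← hmkx t, hb _ (hxN t), ha _ (hxN t),
      ha _ (hNy _ (hxN t)), hb _ (hNα _ (hxN t))]
    congr 1
    calc α * (y * x t * y⁻¹) * α⁻¹ = α * y * x t * (α * y)⁻¹ := by group
      _ = y * (α * x t * α⁻¹) * y⁻¹ := by
        rw [hαy]
        group
  obtain ⟨φ, hφ⟩ := coreD_phi a b hab p (q ^ e)
    (Nat.Coprime.pow_right e
      ((Nat.coprime_primes (Fact.out : p.Prime) (Fact.out : q.Prime)).2 hpq.symm)) hap hbm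
  have ha1 : a t₁ = t₁ := by
    rw [← hmk1, ha 1 N.one_mem, mul_one, mul_inv_cancel]
  have hb1 : b t₁ = t₁ := by
    rw [← hmk1, hb 1 N.one_mem, mul_one, mul_inv_cancel]
  have hfix : ∀ t, t ≠ t₁ → a t ≠ t := by
    intro t ht h
    apply ht
    rw [← hmkx t, ha _ (hxN t)] at h
    have h1 := (hmkeq _ (hNα _ (hxN t)) _ (hxN t)).1 h
    have h2 : ⁅α, x t⁆ = (x t) * ((α * x t * α⁻¹)⁻¹ * x t)⁻¹ * (x t)⁻¹ := by
      rw [commutatorElement_def]
      group
    have h3 : ⁅α, x t⁆ ∈ B := by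
      rw [h2, ← L.cen _ (B.inv_mem h1) _ (hxN t), mul_inv_cancel_right]
      exact B.inv_mem h1
    have h4 := hfpf _ (hxN t) h3
    rw [← hmkx t, ← hmk1]
    refine (hmkeq _ (hxN t) _ N.one_mem).2 ?_
    rw [mul_one]
    exact B.inv_mem h4
  -- the spaces of coefficients
  let F : k → Submodule k (T → k) := fun c =>
    { carrier := {f | (∀ t, s t * f t = c * f (a t)) ∧ ∀ t, s' t * f t = f (b t)}
      add_mem' := by
        rintro f f' ⟨h1, h2⟩ ⟨h3, h4⟩
        refine ⟨fun t => ?_, fun t => ?_⟩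
        · rw [Pi.add_apply, Pi.add_apply, mul_add, mul_add, h1, h3]
        · rw [Pi.add_apply, Pi.add_apply, mul_add, h2, h4]
      zero_mem' := by
        refine ⟨fun t => ?_, fun t => ?_⟩
        · rw [Pi.zero_apply, Pi.zero_apply, mul_zero, mul_zero]
        · rw [Pi.zero_apply, Pi.zero_apply, mul_zero]
      smul_mem' := by
        rintro z f ⟨h1, h2⟩
        refine ⟨fun t => ?_, fun t => ?_⟩
        · rw [Pi.smul_apply, Pi.smul_apply, smul_eq_mul, smul_eq_mul, mul_left_comm, h1,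
            mul_left_comm]
        · rw [Pi.smul_apply, Pi.smul_apply, smul_eq_mul, smul_eq_mul, mul_left_comm, h2] }
  have hZF : ∀ c, Module.finrank k (ZM d A Y c) = Module.finrank k (F c) := by
    intro c
    have h0 : ∀ f : T → k, bas.equivFun.symm f ∈ ZM d A Y c ↔ f ∈ F c := by
      intro f
      rw [hbas]
      have h1 := hsA c f
      have h2 := hsY 1 f
      rw [one_smul] at h2
      simp only [one_mul] at h2
      exact and_congr h1 h2
    have h1 : ZM d A Y c = (F c).map (bas.equivFun.symm : (T → k) →ₗ[k] _) := by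
      apply le_antisymm
      · intro Z hZ
        refine ⟨bas.equivFun Z, ?_, ?_⟩
        · refine (h0 _).1 ?_
          rw [LinearEquiv.symm_apply_apply]
          exact hZ
        · exact LinearEquiv.symm_apply_apply _ _
      · rintro _ ⟨f, hf, rfl⟩
        exact (h0 f).2 hf
    rw [h1]
    exact LinearEquiv.finrank_map_eq _ _
  rw [hZF, hZF]
  have hval0 : ζ ^ (0 : ZMod p).val = 1 := by rw [ZMod.val_zero, pow_zero]
  rw [hval0]
  set c := ζ ^ i.val with hc
  have hcp : c ^ p = 1 := by rw [hc, ← pow_mul, mul_comm, pow_mul, hζ.pow_eq_one, one_pow]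
  have hc0 : c ≠ 0 := by
    intro h
    rw [h, zero_pow hp0.ne'] at hcp
    exact zero_ne_one hcp
  have hc1 : c ≠ 1 := by
    intro h
    have h1 := (hζ.pow_eq_one_iff_dvd _).1 h
    have h2 := Nat.eq_zero_of_dvd_of_lt h1 (ZMod.val_lt i)
    exact hi ((ZMod.val_eq_zero i).1 h2)
  -- the functions which vanish at `t₁`
  let ev : F 1 →ₗ[k] k := (LinearMap.proj t₁ : (T → k) →ₗ[k] k).comp (F 1).subtype
  have hev : Function.Surjective ev := by
    intro z
    refine ⟨⟨fun t => if t = t₁ then z else 0, ?_, ?_⟩, ?_⟩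
    · intro t
      show s t * (if t = t₁ then z else 0) = 1 * (if a t = t₁ then z else 0)
      by_cases ht : t = t₁
      · rw [ht, ha1, if_pos rfl, hs1]
      · have h1 : a t ≠ t₁ := by
          intro h
          exact ht (a.injective (h.trans ha1.symm))
        simp only [if_neg ht, if_neg h1, mul_zero]
    · intro t
      show s' t * (if t = t₁ then z else 0) = (if b t = t₁ then z else 0)
      by_cases ht : t = t₁
      · rw [ht, hb1, if_pos rfl, hs1', one_mul]
      · have h1 : b t ≠ t₁ := by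
          intro h
          exact ht (b.injective (h.trans hb1.symm))
        simp only [if_neg ht, if_neg h1, mul_zero]
    · show (if t₁ = t₁ then z else 0) = z
      rw [if_pos rfl]
  have hdim := LinearMap.finrank_range_add_finrank_ker ev
  rw [LinearMap.range_eq_top.2 hev, finrank_top, Module.finrank_self] at hdim
  rw [← hdim, add_comm]
  congr 1
  rw [← Submodule.finrank_map_subtype_eq (F 1) (LinearMap.ker ev)]
  -- the twist
  let θ : T → k := fun t => (c⁻¹) ^ (φ t).val
  have hcip : (c⁻¹) ^ p = 1 := by rw [inv_pow, hcp, inv_one]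
  have hθ0 : ∀ t, θ t ≠ 0 := fun t => pow_ne_zero _ (inv_ne_zero hc0)
  have hθa : ∀ t, t ≠ t₁ → θ t = c * θ (a t) := by
    intro t ht
    show (c⁻¹) ^ (φ t).val = c * (c⁻¹) ^ (φ (a t)).val
    rw [(hφ t (hfix t ht)).1]
    have h1 : (c⁻¹) ^ (φ t + 1).val = (c⁻¹) ^ ((φ t).val + 1) := by
      haveI : Fact (1 < p) := ⟨(Fact.out : p.Prime).one_lt⟩
      rw [ZMod.val_add, ZMod.val_one, ← pow_eq_pow_mod _ hcip]
    rw [h1, pow_succ, mul_comm, mul_assoc, inv_mul_cancel₀ hc0, mul_one]
  have hθb : ∀ t, t ≠ t₁ → θ (b t) = θ t := by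
    intro t ht
    show (c⁻¹) ^ (φ (b t)).val = (c⁻¹) ^ (φ t).val
    rw [(hφ t (hfix t ht)).2]
  let Θ : (T → k) ≃ₗ[k] (T → k) :=
    { toFun := fun f t => θ t * f t
      map_add' := by
        intro f f'
        funext t
        rw [Pi.add_apply, mul_add]
        rfl
      map_smul' := by
        intro z f
        funext t
        rw [Pi.smul_apply, smul_eq_mul, mul_left_comm]
        rfl
      invFun := fun f t => (θ t)⁻¹ * f t
      left_inv := by
        intro f
        funext t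
        show (θ t)⁻¹ * (θ t * f t) = f t
        rw [← mul_assoc, inv_mul_cancel₀ (hθ0 t), one_mul]
      right_inv := by
        intro f
        funext t
        show θ t * ((θ t)⁻¹ * f t) = f t
        rw [← mul_assoc, mul_inv_cancel₀ (hθ0 t), one_mul] }
  have hmem : ∀ f : T → k, f ∈ (LinearMap.ker ev).map (F 1).subtype ↔ f ∈ F 1 ∧ f t₁ = 0 := by
    intro f
    constructor
    · rintro ⟨g, hg, rfl⟩
      exact ⟨g.2, hg⟩
    · rintro ⟨h1, h2⟩
      exact ⟨⟨f, h1⟩, h2, rfl⟩
  have hFc : F c = ((LinearMap.ker ev).map (F 1).subtype).map (Θ : (T → k) →ₗ[k] (T → k)) := by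
    apply le_antisymm
    · intro f hf
      have hf1 : f t₁ = 0 := by
        have h1 := hf.1 t₁
        rw [ha1, hs1, one_mul] at h1
        have h2 : (1 - c) * f t₁ = 0 := by rw [sub_mul, one_mul, ← h1, sub_self]
        rcases mul_eq_zero.1 h2 with h3 | h3
        · exact absurd (sub_eq_zero.1 h3).symm hc1
        · exact h3
      refine ⟨Θ.symm f, (hmem _).2 ⟨⟨fun t => ?_, fun t => ?_⟩, ?_⟩, ?_⟩
      · show s t * ((θ t)⁻¹ * f t) = 1 * ((θ (a t))⁻¹ * f (a t))
        by_cases ht : t = t₁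
        · rw [ht, ha1, hs1]
        · rw [mul_left_comm, hf.1, hθa t ht, mul_inv, one_mul]
          rw [← mul_assoc, mul_right_comm c⁻¹, inv_mul_cancel₀ hc0, one_mul]
      · show s' t * ((θ t)⁻¹ * f t) = (θ (b t))⁻¹ * f (b t)
        by_cases ht : t = t₁
        · rw [ht, hb1, hs1', one_mul]
        · rw [mul_left_comm, hf.2, hθb t ht]
      · show (θ t₁)⁻¹ * f t₁ = 0
        rw [hf1, mul_zero]
      · exact LinearEquiv.apply_symm_apply Θ f
    · rintro _ ⟨f, hf, rfl⟩
      obtain ⟨h1, h2⟩ := (hmem f).1 hf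
      refine ⟨fun t => ?_, fun t => ?_⟩
      · show s t * (θ t * f t) = c * (θ (a t) * f (a t))
        by_cases ht : t = t₁
        · rw [ht, ha1, h2, mul_zero, mul_zero, mul_zero]
        · have h3 := h1.1 t
          rw [one_mul] at h3
          rw [mul_left_comm, h3, hθa t ht, mul_assoc]
      · show s' t * (θ t * f t) = θ (b t) * f (b t)
        by_cases ht : t = t₁
        · rw [ht, hb1, h2, mul_zero, mul_zero]
        · rw [mul_left_comm, h1.2, hθb t ht]
  rw [hFc]
  exact (LinearEquiv.finrank_map_eq _ _).symm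

end H78TP
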