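import Pool.Agent.H78.TP.Base

/-!
[H78 TP COREE] The combinatorial lemma (45-60 min).

PROOF. By `h1` (and reindexing `j ↦ j + i`) for every `i ≠ 0`
`∑ j, ∑ η ∈ H, (a j η - a (j + i) η) ^ 2 = 2 ∑ a j η ^ 2 - 2 ∑ a j η a (j + i) η = 2` (in `ℤ`).
For `η ∈ H`, `η ≠ 1`: `a 0 η = 0`. If `a j η = t > 0` then `j ≠ 0` and for `i = j` the term of
`(0, η)` is `t ^ 2 ≤ 2`, so `t = 1`. If `η ∈ H` is such that `j ↦ a j η` is not constant, then for
every `i ≠ 0` its contribution `∑ j, (a j η - a (j + i) η) ^ 2` is at least `2`: `i` generates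
`ZMod p`, so some difference is nonzero, and the differences sum up to `0`, so at least two of them
are nonzero. So there is at most one `η ∈ H`, `η ≠ 1` with some `a j η ≠ 0` (it is not constant as
`a 0 η = 0`): two such would contribute at least `4 > 2` (`i = 1`). For this `η` the sum
`∑ j, a j η` is at most `p - 1` (`a 0 η = 0`, the other `p - 1` values are `≤ 1`).
-/

namespace H78TP

open Subgroup
open scoped commutatorElement

private theorem coreE_even {p : ℕ} [Fact p.Prime] (f : ZMod p → ℤ) (h0 : f 0 = 0)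
    (hne : ∃ j, f j ≠ 0) : 2 ≤ ∑ j, (f j - f (j + 1)) ^ 2 := by
  have hs : ∑ j, (f j - f (j + 1)) = 0 := by
    rw [Finset.sum_sub_distrib, sub_eq_zero]
    exact (Equiv.sum_comp (Equiv.addRight (1 : ZMod p)) f).symm
  have heven : (2 : ℤ) ∣ ∑ j, (f j - f (j + 1)) ^ 2 := by
    have e : ∑ j, (f j - f (j + 1)) ^ 2 =
        ∑ j, ((f j - f (j + 1)) ^ 2 - (f j - f (j + 1))) := by
      rw [Finset.sum_sub_distrib, hs, sub_zero]
    rw [e]
    refine Finset.dvd_sum fun j _ => ?_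
    have h1 := Int.even_mul_pred_self (f j - f (j + 1))
    have h2 : (f j - f (j + 1)) ^ 2 - (f j - f (j + 1)) =
        (f j - f (j + 1)) * (f j - f (j + 1) - 1) := by ring
    rw [h2]
    exact h1.two_dvd
  have hpos : 0 < ∑ j, (f j - f (j + 1)) ^ 2 := by
    by_contra hcon
    have hz : ∀ j, f j - f (j + 1) = 0 := by
      intro j
      have h1 : ∑ j, (f j - f (j + 1)) ^ 2 = 0 :=
        le_antisymm (not_lt.1 hcon) (Finset.sum_nonneg fun j _ => sq_nonneg _)
      have h2 := (Finset.sum_eq_zero_iff_of_nonneg (fun j _ => sq_nonneg _)).1 h1 j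
        (Finset.mem_univ j)
      exact pow_eq_zero_iff (two_ne_zero) |>.1 h2
    have hn : ∀ n : ℕ, f (n : ZMod p) = 0 := by
      intro n
      induction n with
      | zero => simpa using h0
      | succ n ih =>
        have := hz (n : ZMod p)
        push_cast
        linarith
    obtain ⟨j, hj⟩ := hne
    apply hj
    have := hn j.val
    rwa [ZMod.natCast_zmod_val] at this
  omega

theorem coreE (p : ℕ) [Fact p.Prime] {k : Type*} [Field k] [DecidableEq k] (H : Finset k)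
    (a : ZMod p → k → ℕ)
    (h1 : ∀ i : ZMod p, i ≠ 0 → ∑ j : ZMod p, ∑ η ∈ H, a j η * a (j + 0) η =
      (∑ j : ZMod p, ∑ η ∈ H, a j η * a (j + i) η) + 1)
    (h0 : ∀ η ∈ H, η ≠ 1 → a 0 η = 0) :
    ∑ j : ZMod p, ∑ η ∈ H.erase 1, a j η ≤ p - 1 := by
  have hS : ∀ i : ZMod p, i ≠ 0 →
      ∑ η ∈ H, ∑ j : ZMod p, ((a j η : ℤ) - a (j + i) η) ^ 2 = 2 := by
    intro i hi
    have h2 : (∑ j : ZMod p, ∑ η ∈ H, (a j η : ℤ) * a (j + 0) η) =
        (∑ j : ZMod p, ∑ η ∈ H, (a j η : ℤ) * a (j + i) η) + 1 := by exact_mod_cast h1 i hi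
    simp only [add_zero] at h2
    rw [Finset.sum_comm, Finset.sum_comm (t := H) (f := fun j η => (a j η : ℤ) * a (j + i) η)] at h2
    have h3 : ∀ η ∈ H, ∑ j : ZMod p, ((a j η : ℤ) - a (j + i) η) ^ 2 =
        2 * (∑ j : ZMod p, (a j η : ℤ) * a j η) - 2 * ∑ j : ZMod p, (a j η : ℤ) * a (j + i) η := by
      intro η _
      have h4 : ∑ j : ZMod p, (a (j + i) η : ℤ) * a (j + i) η =
          ∑ j : ZMod p, (a j η : ℤ) * a j η :=
        Equiv.sum_comp (Equiv.addRight i) (fun j => (a j η : ℤ) * a j η)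
      have h5 : ∑ j : ZMod p, ((a j η : ℤ) - a (j + i) η) ^ 2 =
          ∑ j : ZMod p, ((a j η : ℤ) * a j η + (a (j + i) η : ℤ) * a (j + i) η -
            2 * ((a j η : ℤ) * a (j + i) η)) :=
        Finset.sum_congr rfl fun j _ => by ring
      rw [h5, Finset.sum_sub_distrib, Finset.sum_add_distrib, h4, ← Finset.mul_sum]
      ring
    rw [Finset.sum_congr rfl h3, Finset.sum_sub_distrib, ← Finset.mul_sum, ← Finset.mul_sum, h2]
    ring
  have hone : (1 : ZMod p) ≠ 0 := one_ne_zero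
  have huniq : ∀ η ∈ H.erase 1, ∀ η' ∈ H.erase 1, (∃ j, a j η ≠ 0) → (∃ j, a j η' ≠ 0) →
      η = η' := by
    intro η hη η' hη' hj hj'
    by_contra hne
    rw [Finset.mem_erase] at hη hη'
    have e1 := coreE_even (fun j => (a j η : ℤ)) (by simp [h0 η hη.2 hη.1])
      (by obtain ⟨j, hj⟩ := hj; exact ⟨j, by exact_mod_cast hj⟩)
    have e2 := coreE_even (fun j => (a j η' : ℤ)) (by simp [h0 η' hη'.2 hη'.1])
      (by obtain ⟨j, hj⟩ := hj'; exact ⟨j, by exact_mod_cast hj⟩)
    have h2 := hS 1 hone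
    have h3 : ∑ ξ ∈ ({η, η'} : Finset k), ∑ j : ZMod p, ((a j ξ : ℤ) - a (j + 1) ξ) ^ 2 ≤
        ∑ ξ ∈ H, ∑ j : ZMod p, ((a j ξ : ℤ) - a (j + 1) ξ) ^ 2 := by
      refine Finset.sum_le_sum_of_subset_of_nonneg ?_ fun ξ _ _ =>
        Finset.sum_nonneg fun j _ => sq_nonneg _
      intro ξ hξ
      rw [Finset.mem_insert, Finset.mem_singleton] at hξ
      rcases hξ with rfl | rfl
      · exact hη.2
      · exact hη'.2
    rw [Finset.sum_pair hne, h2] at h3
    linarith
  by_cases hex : ∃ η ∈ H.erase 1, ∃ j, a j η ≠ 0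
  · obtain ⟨η, hη, hj⟩ := hex
    have hη' := Finset.mem_erase.1 hη
    have h2 : ∀ j : ZMod p, ∑ ξ ∈ H.erase 1, a j ξ = a j η := by
      intro j
      refine Finset.sum_eq_single η (fun ξ hξ hne => ?_) (fun h => absurd hη h)
      by_contra hcon
      exact hne (huniq ξ hξ η hη ⟨j, hcon⟩ hj)
    rw [Finset.sum_congr rfl fun j _ => h2 j]
    have h3 : ∀ j : ZMod p, a j η ≤ 1 := by
      intro j
      by_cases hj0 : j = 0
      · rw [hj0, h0 η hη'.2 hη'.1]
        exact Nat.zero_le _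
      · have h4 := hS j hj0
        have h5 : ∑ i : ZMod p, ((a i η : ℤ) - a (i + j) η) ^ 2 ≤ 2 := by
          rw [← h4]
          exact Finset.single_le_sum (f := fun ξ => ∑ i : ZMod p, ((a i ξ : ℤ) - a (i + j) ξ) ^ 2)
            (fun ξ _ => Finset.sum_nonneg fun i _ => sq_nonneg _) hη'.2
        have h6 : ((a 0 η : ℤ) - a (0 + j) η) ^ 2 ≤
            ∑ i : ZMod p, ((a i η : ℤ) - a (i + j) η) ^ 2 :=
          Finset.single_le_sum (f := fun i : ZMod p => ((a i η : ℤ) - a (i + j) η) ^ 2)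
            (fun i _ => sq_nonneg _) (Finset.mem_univ 0)
        rw [h0 η hη'.2 hη'.1, zero_add] at h6
        have h7 : ((a j η : ℤ)) ^ 2 ≤ 2 := by
          have : ((0 : ℕ) : ℤ) - (a j η : ℤ) = -(a j η : ℤ) := by simp
          rw [this, neg_sq] at h6
          linarith
        by_contra hcon
        have h8 : (2 : ℤ) ≤ (a j η : ℤ) := by
          have : 2 ≤ a j η := by omega
          exact_mod_cast this
        nlinarith
    have h4 : ∑ j : ZMod p, a j η = ∑ j ∈ Finset.univ.erase (0 : ZMod p), a j η := by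
      rw [← Finset.add_sum_erase _ _ (Finset.mem_univ (0 : ZMod p)), h0 η hη'.2 hη'.1, zero_add]
    rw [h4]
    calc ∑ j ∈ Finset.univ.erase (0 : ZMod p), a j η ≤
        ∑ _j ∈ Finset.univ.erase (0 : ZMod p), 1 := Finset.sum_le_sum fun j _ => h3 j
      _ = p - 1 := by
          rw [Finset.sum_const, smul_eq_mul, mul_one, Finset.card_erase_of_mem (Finset.mem_univ _),
            Finset.card_univ, ZMod.card]
  · push Not at hex
    have : ∑ j : ZMod p, ∑ η ∈ H.erase 1, a j η = 0 :=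
      Finset.sum_eq_zero fun j _ => Finset.sum_eq_zero fun η hη => hex η hη j
    rw [this]
    exact Nat.zero_le _

end H78TP
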