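import Pool.Agent.H78.TP.CoreA
import Pool.Agent.H78.TP.CoreC

/-!
[H78 TP COREF] The commutant of `Y` is small (60 min).

PROOF. `X ↦ ψ X` maps `ZY d Y` injectively into the space `Z` of the elements `a` of the span of
`τ N` with `τ y a = a τ y` (`hYψ`: `Y X = X Y` gives `Y X Y ^ (q ^ e - 1) = X`). Let `x_t`,
`t ∈ T = N / B`, be representatives; `τ x_t` is a basis of the span (`hlin`; `B` acts by scalars), and
`|T| = d ^ 2` (the dimension of the matrix algebra). `τ y τ x_t τ y⁻¹` is a nonzero scalar multiple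
of `τ x_(y t)`. If `a = ∑ c_t τ x_t ∈ Z` then `c_(y t)` is determined by `c_t`; so `a` is determined by
the coefficients at one representative of each orbit of `y` on `T`, and `finrank Z` is at most the
number `o` of the orbits of `y` on `T`. Let `F` be the set of the fixed points: a subgroup of the
group `T` (`N / B` is abelian, conjugation by `y` is an automorphism), proper by `hyN`, so
`2 |F| ≤ |T|`. The other orbits have at least two elements: `o ≤ |F| + (|T| - |F|) / 2`, so
`4 o ≤ 2 |T| + 2 |F| ≤ 3 |T|`.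
-/

namespace H78TP

open Subgroup
open scoped commutatorElement

variable {k Γ U : Type*} [Field k] [Group Γ] [AddCommGroup U] [Module k U]

/-- the number of orbits of a permutation -/
private theorem coreF_orb {Q : Type*} [Finite Q] (σ : Equiv.Perm Q) :
    2 * Nat.card (Quotient (Equiv.Perm.SameCycle.setoid σ)) ≤
      Nat.card Q + Nat.card {x : Q // σ x = x} := by
  classical
  have hout : ∀ o o' : Quotient (Equiv.Perm.SameCycle.setoid σ),
      Equiv.Perm.SameCycle σ o.out o'.out → o = o' := by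
    intro o o' h
    rw [← o.out_eq, ← o'.out_eq]
    exact Quotient.sound h
  let g : Quotient (Equiv.Perm.SameCycle.setoid σ) ⊕
      Quotient (Equiv.Perm.SameCycle.setoid σ) → Q ⊕ {x : Q // σ x = x} :=
    fun z => z.elim (fun o => Sum.inl o.out)
      (fun o => if h : σ o.out = o.out then Sum.inr ⟨o.out, h⟩ else Sum.inl (σ o.out))
  have g1 : ∀ o, g (Sum.inl o) = Sum.inl o.out := fun o => rfl
  have g2 : ∀ o (h : σ o.out = o.out), g (Sum.inr o) = Sum.inr ⟨o.out, h⟩ :=
    fun o h => dif_pos h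
  have g3 : ∀ o, ¬ σ o.out = o.out → g (Sum.inr o) = Sum.inl (σ o.out) :=
    fun o h => dif_neg h
  have key : ∀ o o', g (Sum.inl o) ≠ g (Sum.inr o') := by
    intro o o' h
    by_cases h' : σ o'.out = o'.out
    · rw [g1, g2 o' h'] at h
      exact Sum.inl_ne_inr h
    · rw [g1, g3 o' h'] at h
      have h2 := Sum.inl_injective h
      have h3 : o' = o := by
        apply hout
        rw [h2]
        exact Equiv.Perm.sameCycle_apply_right.2 (Equiv.Perm.SameCycle.refl _ _)
      rw [h3] at h2 h'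
      exact h' h2.symm
  have hinj : Function.Injective g := by
    rintro (o | o) (o' | o') h
    · rw [g1, g1] at h
      have h2 := Sum.inl_injective h
      rw [hout o o' (by rw [h2])]
    · exact absurd h (key o o')
    · exact absurd h.symm (key o' o)
    · by_cases h1 : σ o.out = o.out
      · by_cases h1' : σ o'.out = o'.out
        · rw [g2 o h1, g2 o' h1'] at h
          have h2 := congrArg Subtype.val (Sum.inr_injective h)
          have h2' : o.out = o'.out := h2
          rw [hout o o' (by rw [h2'])]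
        · rw [g2 o h1, g3 o' h1'] at h
          exact absurd h Sum.inr_ne_inl
      · by_cases h1' : σ o'.out = o'.out
        · rw [g3 o h1, g2 o' h1'] at h
          exact absurd h Sum.inl_ne_inr
        · rw [g3 o h1, g3 o' h1'] at h
          have h2 := σ.injective (Sum.inl_injective h)
          rw [hout o o' (by rw [h2])]
  have hc := Nat.card_le_card_of_injective g hinj
  rw [Nat.card_sum, Nat.card_sum] at hc
  omega

/-- the commutant in terms of the coefficients -/
private theorem coreF_lin {Q M : Type*} [Fintype Q] [AddCommGroup M] [Module k M]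
    (σ : Equiv.Perm Q) (v : Q → M) (hv : LinearIndependent k v) (Z : Type*) [AddCommGroup Z]
    [Module k Z] [Module.Finite k Z] (φ : Z →ₗ[k] M) (hφ : Function.Injective φ)
    (hr : ∀ z, φ z ∈ Submodule.span k (Set.range v)) (γ : Q → k) (hγ : ∀ q, γ q ≠ 0)
    (Φ : M →ₗ[k] M) (hΦ : ∀ z, Φ (φ z) = φ z) (hΦv : ∀ q, Φ (v q) = γ q • v (σ q)) :
    Module.finrank k Z ≤ Nat.card (Quotient (Equiv.Perm.SameCycle.setoid σ)) := by
  classical
  let ψA : Z →ₗ[k] Submodule.span k (Set.range v) := φ.codRestrict _ hr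
  let rep : Z →ₗ[k] (Q →₀ k) := hv.repr ∘ₗ ψA
  have hrep : ∀ z, ∑ q, rep z q • v q = φ z := by
    intro z
    have h1 := hv.linearCombination_repr (ψA z)
    rw [Finsupp.linearCombination_apply, Finsupp.sum_fintype _ _ (by simp)] at h1
    exact h1
  have hco : ∀ z q, rep z (σ q) = rep z q * γ q := by
    intro z q0
    have h1 : ∑ q, rep z (σ q) • v (σ q) = φ z := by
      rw [← hrep z]
      exact Equiv.sum_comp σ (fun q => rep z q • v q)
    have h2 : ∑ q, (rep z q * γ q) • v (σ q) = φ z := by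
      have h3 := hΦ z
      nth_rewrite 1 [← hrep z] at h3
      rw [map_sum] at h3
      rw [← h3]
      apply Finset.sum_congr rfl
      intro q _
      rw [map_smul, hΦv, smul_smul]
    have h3 : ∑ q, (rep z (σ q) - rep z q * γ q) • v (σ q) = 0 := by
      have h4 : ∀ q ∈ (Finset.univ : Finset Q), (rep z (σ q) - rep z q * γ q) • v (σ q) =
          rep z (σ q) • v (σ q) - (rep z q * γ q) • v (σ q) := fun q _ => sub_smul _ _ _
      rw [Finset.sum_congr rfl h4, Finset.sum_sub_distrib, h1, h2, sub_self]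
    have h4 := (Fintype.linearIndependent_iff.1 (hv.comp σ σ.injective))
      (fun q => rep z (σ q) - rep z q * γ q) h3 q0
    exact sub_eq_zero.1 h4
  let Lm : Z →ₗ[k] (Quotient (Equiv.Perm.SameCycle.setoid σ) → k) :=
    { toFun := fun z o => rep z o.out
      map_add' := by
        intro z z'
        funext o
        rw [map_add]
        rfl
      map_smul' := by
        intro c z
        funext o
        rw [map_smul]
        rfl }
  have hL : Function.Injective Lm := by
    rw [injective_iff_map_eq_zero]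
    intro z hz
    apply hφ
    rw [map_zero, ← hrep z]
    apply Finset.sum_eq_zero
    intro q _
    have h1 : rep z (Quotient.mk (Equiv.Perm.SameCycle.setoid σ) q).out = 0 :=
      congrFun hz (Quotient.mk (Equiv.Perm.SameCycle.setoid σ) q)
    have h2 : Equiv.Perm.SameCycle σ (Quotient.mk (Equiv.Perm.SameCycle.setoid σ) q).out q :=
      Quotient.mk_out (s := Equiv.Perm.SameCycle.setoid σ) q
    obtain ⟨n, hn⟩ := h2.exists_nat_pow_eq
    have h3 : ∀ m : ℕ, rep z ((σ ^ m) (Quotient.mk (Equiv.Perm.SameCycle.setoid σ) q).out) = 0 := by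
      intro m
      induction m with
      | zero => exact h1
      | succ m ih =>
        rw [pow_succ', Equiv.Perm.mul_apply, hco, ih, zero_mul]
    have h4 := h3 n
    rw [hn] at h4
    rw [h4, zero_smul]
  have h5 := LinearMap.finrank_le_finrank_of_injective hL
  have := Fintype.ofFinite (Quotient (Equiv.Perm.SameCycle.setoid σ))
  rw [Module.finrank_fintype_fun_eq_card, ← Nat.card_eq_fintype_card] at h5
  exact h5

theorem coreF [IsAlgClosed k] [Finite Γ] [Module.Finite k U] (τ : Representation k Γ U)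
    (B N : Subgroup Γ) (lam : Γ → k) (L : Loc τ ⊤ B N B lam) (d : ℕ)
    (ψ : Matrix (Fin d) (Fin d) k →ₐ[k] Module.End k U) (hψ : Function.Injective ψ)
    (hψr : ψ.range.toSubmodule = Submodule.span k ((fun x => τ x) '' (N : Set Γ)))
    (hlin : ∀ I : Finset Γ, (∀ x ∈ I, x ∈ N) → (∀ x ∈ I, ∀ y ∈ I, x⁻¹ * y ∈ B → x = y) →
        LinearIndependent k (fun x : I => τ x.1))
    (q e : ℕ) [Fact q.Prime] (y : Γ) (hy : y ^ (q ^ e) = 1)
    (hNy : ∀ x ∈ N, y * x * y⁻¹ ∈ N) (hBy : ∀ x ∈ B, y * x * y⁻¹ ∈ B)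
    (Y : Matrix (Fin d) (Fin d) k) (hY : Y ^ (q ^ e) = 1)
    (hYψ : ∀ X, τ y * ψ X = ψ (Y * X * Y ^ (q ^ e - 1)) * τ y)
    (hyN : ∃ x ∈ N, ⁅y, x⁆ ∉ B) :
    4 * Module.finrank k (ZY d Y) ≤ 3 * d ^ 2 := by
  classical
  have hqe : 0 < q ^ e := pow_pos (Fact.out : q.Prime).pos e
  -- conjugation by `y`
  have hBy' : ∀ x, y * x * y⁻¹ ∈ B → x ∈ B := by
    intro x hx
    have h1 : ∀ m : ℕ, y ^ m * (y * x * y⁻¹) * (y ^ m)⁻¹ ∈ B := by
      intro m
      induction m with
      | zero => simpa using hx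
      | succ m ih =>
        have h2 := hBy _ ih
        have h3 : y * (y ^ m * (y * x * y⁻¹) * (y ^ m)⁻¹) * y⁻¹ =
            y ^ (m + 1) * (y * x * y⁻¹) * (y ^ (m + 1))⁻¹ := by
          rw [pow_succ']
          group
        rwa [h3] at h2
    have h2 := h1 (q ^ e - 1)
    have h3 : y ^ (q ^ e - 1) * (y * x * y⁻¹) * (y ^ (q ^ e - 1))⁻¹ = x := by
      have h4 : y ^ (q ^ e - 1) * y = 1 := by
        rw [← pow_succ, Nat.sub_add_cancel hqe, hy]
      have h5 : y ^ (q ^ e - 1) * (y * x * y⁻¹) * (y ^ (q ^ e - 1))⁻¹ =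
          (y ^ (q ^ e - 1) * y) * x * (y ^ (q ^ e - 1) * y)⁻¹ := by group
      rw [h5, h4]
      simp
    rwa [h3] at h2
  let φ : N →* N :=
    { toFun := fun x => ⟨y * x * y⁻¹, hNy x x.2⟩
      map_one' := by
        apply Subtype.ext
        simp
      map_mul' := by
        intro a b
        apply Subtype.ext
        show y * (a * b : Γ) * y⁻¹ = (y * a * y⁻¹) * (y * b * y⁻¹)
        group }
  have hφ : ∀ x : N, ((φ x : N) : Γ) = y * x * y⁻¹ := fun x => rfl
  have hBn : (B.subgroupOf N).Normal := by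
    constructor
    intro b hb n
    rw [Subgroup.mem_subgroupOf] at hb ⊢
    have h1 : ((n * b * n⁻¹ : N) : Γ) = b := by
      show (n : Γ) * b * (n : Γ)⁻¹ = b
      rw [← L.cen b hb n n.2, mul_inv_cancel_right]
    rw [h1]
    exact hb
  let f : N ⧸ B.subgroupOf N →* N ⧸ B.subgroupOf N :=
    QuotientGroup.map (B.subgroupOf N) (B.subgroupOf N) φ (fun x hx => hBy x.1 hx)
  have hf : ∀ x : N, f (QuotientGroup.mk x) = QuotientGroup.mk (φ x) := fun x => rfl
  have hfinj : Function.Injective f := by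
    rw [injective_iff_map_eq_one]
    intro a ha
    obtain ⟨x, rfl⟩ := QuotientGroup.mk_surjective a
    rw [hf, QuotientGroup.eq_one_iff] at ha
    rw [QuotientGroup.eq_one_iff]
    exact hBy' x.1 ha
  let σ : Equiv.Perm (N ⧸ B.subgroupOf N) :=
    Equiv.ofBijective f (Finite.injective_iff_bijective.1 hfinj)
  have hσ : ∀ a, σ a = f a := fun a => rfl
  -- the fixed points
  have hF : 2 * Nat.card {a : N ⧸ B.subgroupOf N // σ a = a} ≤ Nat.card (N ⧸ B.subgroupOf N) := by
    let F : Subgroup (N ⧸ B.subgroupOf N) := MonoidHom.eqLocus f (MonoidHom.id _)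
    have hFne : F ≠ ⊤ := by
      intro htop
      obtain ⟨x, hx, hxB⟩ := hyN
      apply hxB
      have h1 : (QuotientGroup.mk (⟨x, hx⟩ : N) : N ⧸ B.subgroupOf N) ∈ F := by
        rw [htop]
        trivial
      have h2 : (QuotientGroup.mk (φ ⟨x, hx⟩) : N ⧸ B.subgroupOf N) =
          QuotientGroup.mk (⟨x, hx⟩ : N) := h1
      have h3' := QuotientGroup.eq.1 h2
      have h3 : (y * x * y⁻¹)⁻¹ * x ∈ B := h3'
      have h4 : ⁅y, x⁆ = x * ((y * x * y⁻¹)⁻¹ * x)⁻¹ * x⁻¹ := by
        rw [commutatorElement_def]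
        group
      rw [h4, ← L.cen _ (B.inv_mem h3) x hx, mul_inv_cancel_right]
      exact B.inv_mem h3
    have h1 := F.card_mul_index
    have h2 : F.index ≠ 1 := fun h => hFne (Subgroup.index_eq_one.1 h)
    have h3 : F.index ≠ 0 := Subgroup.index_ne_zero_of_finite
    have h4 : 2 ≤ F.index := by omega
    have h5 : Nat.card F * 2 ≤ Nat.card F * F.index := Nat.mul_le_mul_left _ h4
    rw [h1] at h5
    rw [mul_comm]
    exact h5
  -- the basis
  let v : N ⧸ B.subgroupOf N → Module.End k U := fun a => τ (a.out : Γ)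
  have hvN : ∀ a : N ⧸ B.subgroupOf N, ((a.out : N) : Γ) ∈ N := fun a => a.out.2
  have hv : LinearIndependent k v := by
    have := Fintype.ofFinite (N ⧸ B.subgroupOf N)
    let I : Finset Γ := Finset.univ.image (fun a : N ⧸ B.subgroupOf N => ((a.out : N) : Γ))
    have hI : ∀ a : N ⧸ B.subgroupOf N, ((a.out : N) : Γ) ∈ I := fun a =>
      Finset.mem_image_of_mem _ (Finset.mem_univ a)
    have h1 := hlin I (by
      intro x hx
      obtain ⟨a, _, rfl⟩ := Finset.mem_image.1 hx
      exact hvN a) (by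
      intro x hx x' hx' hxx
      obtain ⟨a, _, rfl⟩ := Finset.mem_image.1 hx
      obtain ⟨a', _, rfl⟩ := Finset.mem_image.1 hx'
      have h2 : (QuotientGroup.mk a.out : N ⧸ B.subgroupOf N) = QuotientGroup.mk a'.out :=
        QuotientGroup.eq.2 hxx
      rw [QuotientGroup.out_eq', QuotientGroup.out_eq'] at h2
      rw [h2])
    refine h1.comp (fun a : N ⧸ B.subgroupOf N => (⟨((a.out : N) : Γ), hI a⟩ : I)) ?_
    intro a a' haa
    have h2 : ((a.out : N) : Γ) = ((a'.out : N) : Γ) := congrArg (fun z : I => z.1) haa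
    have h3 : a.out = a'.out := Subtype.ext h2
    rw [← QuotientGroup.out_eq' a, ← QuotientGroup.out_eq' a', h3]
  have hscal : ∀ b ∈ B, τ b = lam b • (1 : Module.End k U) := by
    intro b hb
    apply LinearMap.ext
    intro u
    rw [L.sc b hb u trivial]
    rfl
  have hmk : ∀ x : N, ∃ b ∈ B, τ (x : Γ) = lam b • v (QuotientGroup.mk x) := by
    intro x
    have h1 : (QuotientGroup.mk (QuotientGroup.mk x : N ⧸ B.subgroupOf N).out :
        N ⧸ B.subgroupOf N) = QuotientGroup.mk x := QuotientGroup.out_eq' _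
    have h2 := QuotientGroup.eq.1 h1
    have h3 : (((QuotientGroup.mk x : N ⧸ B.subgroupOf N).out : N) : Γ)⁻¹ * x ∈ B := h2
    refine ⟨_, h3, ?_⟩
    have h4 : (x : Γ) = (((QuotientGroup.mk x : N ⧸ B.subgroupOf N).out : N) : Γ) *
        ((((QuotientGroup.mk x : N ⧸ B.subgroupOf N).out : N) : Γ)⁻¹ * x) := by group
    nth_rewrite 1 [h4]
    rw [map_mul, hscal _ h3, mul_smul_comm, mul_one]
  have hspan : ∀ X, ψ X ∈ Submodule.span k (Set.range v) := by
    intro X
    have h1 : ψ X ∈ Submodule.span k ((fun x => τ x) '' (N : Set Γ)) := by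
      rw [← hψr]
      exact ⟨X, rfl⟩
    refine (Submodule.span_le.2 ?_) h1
    rintro - ⟨x, hx, rfl⟩
    obtain ⟨b, _, hb⟩ := hmk ⟨x, hx⟩
    have hb' : τ x = lam b • v (QuotientGroup.mk ⟨x, hx⟩) := hb
    show τ x ∈ _
    rw [hb']
    exact Submodule.smul_mem _ _ (Submodule.subset_span ⟨_, rfl⟩)
  -- conjugation on the algebra
  have hyy : τ y * τ y⁻¹ = 1 := by rw [← map_mul, mul_inv_cancel, map_one]
  let Φ : Module.End k U →ₗ[k] Module.End k U :=
    (LinearMap.mulRight k (τ y⁻¹)).comp (LinearMap.mulLeft k (τ y))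
  have hΦ : ∀ a : Module.End k U, Φ a = τ y * a * τ y⁻¹ := fun a => rfl
  have hex : ∀ a : N ⧸ B.subgroupOf N, ∃ c : k, c ≠ 0 ∧ Φ (v a) = c • v (σ a) := by
    intro a
    obtain ⟨b, hb, hb'⟩ := hmk (φ a.out)
    refine ⟨lam b, loc_ne L hb, ?_⟩
    have h1 : σ a = QuotientGroup.mk (φ a.out) := by
      rw [hσ, ← hf, QuotientGroup.out_eq']
    rw [h1, ← hb', hφ, hΦ, map_mul, map_mul]
  choose γ hγ hΦv using hex
  have hYY : Y * Y ^ (q ^ e - 1) = 1 := by
    rw [← pow_succ', Nat.sub_add_cancel hqe, hY]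
  have := Fintype.ofFinite (N ⧸ B.subgroupOf N)
  have h1 := coreF_lin σ v hv (ZY d Y) (ψ.toLinearMap ∘ₗ (ZY d Y).subtype)
    (fun X X' h => Subtype.ext (hψ h)) (fun X => hspan _) γ hγ Φ (by
      intro X
      have hX : Y * X.1 = X.1 * Y := X.2
      show Φ (ψ X.1) = ψ X.1
      rw [hΦ, hYψ, mul_assoc, hyy, mul_one, hX, mul_assoc, hYY, mul_one]) hΦv
  have h2 := coreF_orb σ
  have h3 : Nat.card (N ⧸ B.subgroupOf N) ≤ d ^ 2 := by
    have hr : ∀ a, ∃ X, ψ X = v a := by
      intro a
      have h4 : v a ∈ Submodule.span k ((fun x => τ x) '' (N : Set Γ)) :=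
        Submodule.subset_span ⟨_, hvN a, rfl⟩
      rw [← hψr] at h4
      obtain ⟨X, hX⟩ := h4
      exact ⟨X, hX⟩
    choose X hX using hr
    have h5 : LinearIndependent k X := by
      apply LinearIndependent.of_comp ψ.toLinearMap
      have h6 : (ψ.toLinearMap ∘ X) = v := funext hX
      rw [h6]
      exact hv
    have h6 := h5.fintype_card_le_finrank
    rw [Module.finrank_matrix, Module.finrank_self, mul_one, Fintype.card_fin,
      ← Nat.card_eq_fintype_card] at h6
    rw [pow_two]
    exact h6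
  omega

end H78TP
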