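import Pool.Agent.H78.TP.CoreB
import Pool.Agent.H78.TP.CoreD
import Pool.Agent.H78.TP.CoreE
import Pool.Agent.H78.TP.CoreF

/-!
[H78 TP COREG] The core lemma: `N / B` is small (45 min).

PROOF. `coreA` gives `d`, `ψ`; `coreB` (with `q ^ e` such that `y ^ (q ^ e) = 1`) gives `A`, `Y`. Let
`ζ` be a primitive `p`-th root of unity in `k` (algebraically closed, `p ≠ 0` in `k`), `m = q ^ e`,
`H = nthRootsFinset m 1`, `a j η = aM d p A Y ζ j η`. `coreC`, `coreD` give the hypothesis `h1` of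
`coreE` (`ζ ^ (0).val`, `j + 0`). `h0`: `A v = ζ ^ 0 v = v` implies `Y v = v`, so `Y v = η v`, `η ≠ 1`
implies `v = 0`, `aM ... 0 η = 0`. So `∑ j, ∑ η ∈ H.erase 1, a j η ≤ p - 1`, and with `coreC'`
(`1 ∈ H`) `S := ∑ j, a j 1 ≥ d - (p - 1)`, `S ^ 2 ≤ finrank (ZY d Y)`, `4 S ^ 2 ≤ 3 d ^ 2` (`coreF`).
Let `r = p - 1`. If `d > 8 r` then `4 (d - r) ^ 2 - 3 d ^ 2 = d (d - 8 r) + 4 r ^ 2 > 0`, a
contradiction. So `d ≤ 8 r` and `B.relIndex N = d ^ 2 ≤ 64 r ^ 2`.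
-/

namespace H78TP

open Subgroup
open scoped commutatorElement

variable {k Γ U : Type*} [Field k] [Group Γ] [AddCommGroup U] [Module k U]

theorem coreG [IsAlgClosed k] [Finite Γ] [Module.Finite k U] (τ : Representation k Γ U)
    (B N : Subgroup Γ) (lam : Γ → k) (L : Loc τ ⊤ B N B lam)
    (p q : ℕ) [Fact p.Prime] [Fact q.Prime] (hpq : q ≠ p) (hp : (p : k) ≠ 0)
    (hq : (q : k) ≠ 0) (α y : Γ) (hα : α ^ p = 1) (hy : ∃ e, y ^ (q ^ e) = 1)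
    (hαy : α * y = y * α)
    (hNα : ∀ x ∈ N, α * x * α⁻¹ ∈ N) (hNy : ∀ x ∈ N, y * x * y⁻¹ ∈ N)
    (hBα : ∀ x ∈ B, α * x * α⁻¹ ∈ B) (hBy : ∀ x ∈ B, y * x * y⁻¹ ∈ B)
    (hfpf : ∀ x ∈ N, ⁅α, x⁆ ∈ B → x ∈ B)
    (hC : ∀ u, τ α u = u → τ y u = u) (u₀ : U) (hu₀ : u₀ ≠ 0) (hu₀' : τ α u₀ = u₀)
    (hyN : ∃ x ∈ N, ⁅y, x⁆ ∉ B) :
    B.relIndex N ≤ 64 * (p - 1) ^ 2 := by
  classical
  obtain ⟨e, hye⟩ := hy
  obtain ⟨d, ψ, hψ, hd, hd0, hψr, hlin⟩ := coreA τ B N lam L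
  obtain ⟨A, Y, hA, hY, hAY, hAψ, hYψ, hAYv, hv⟩ := coreB τ N d ψ hψ hψr p q e hpq hp hq α y
    hα hye hαy hNα hNy hC u₀ hu₀ hu₀'
  have hpk : NeZero (p : k) := ⟨hp⟩
  obtain ⟨ζ, hζ⟩ : ∃ ζ : k, IsPrimitiveRoot ζ p := HasEnoughRootsOfUnity.exists_primitiveRoot k p
  have hm : ((q ^ e : ℕ) : k) ≠ 0 := by
    push_cast
    exact pow_ne_zero _ hq
  have hm0 : 0 < q ^ e := pow_pos (Fact.out : q.Prime).pos e
  have hcC := coreC d p (q ^ e) hp hm A Y hA hY hAY ζ hζ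
  have hcD := coreD τ B N lam L d ψ hψ hψr hlin p q e hpq α y hα hye hαy hNα hNy hBα hBy hfpf
    A Y hA hY hAψ hYψ ζ hζ
  have hcC' := coreC' d p (q ^ e) hp hm A Y hA hY hAY ζ hζ
  have hcF := coreF τ B N lam L d ψ hψ hψr hlin q e y hye hNy hBy Y hY hYψ hyN
  have hE := coreE p (Polynomial.nthRootsFinset (q ^ e) (1 : k))
    (fun j η => aM d p A Y ζ j η) (by
      intro i hi
      rw [← hcC 0, ← hcC i]
      exact hcD i hi) (by
      intro η hη hη1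
      show aM d p A Y ζ 0 η = 0
      unfold aM
      rw [Submodule.finrank_eq_zero, Submodule.eq_bot_iff]
      rintro v ⟨h1, h2⟩
      rw [ZMod.val_zero, pow_zero, one_smul] at h1
      rw [hAYv v h1] at h2
      have h3 : (1 - η) • v = 0 := by
        rw [sub_smul, one_smul, ← h2, sub_self]
      rcases smul_eq_zero.1 h3 with h | h
      · exact absurd (sub_eq_zero.1 h).symm hη1
      · exact h)
  have h1H : (1 : k) ∈ Polynomial.nthRootsFinset (q ^ e) (1 : k) := by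
    rw [Polynomial.mem_nthRootsFinset hm0]
    exact one_pow _
  have hsum : d = (∑ j : ZMod p, aM d p A Y ζ j 1) +
      ∑ j : ZMod p, ∑ η ∈ (Polynomial.nthRootsFinset (q ^ e) (1 : k)).erase 1,
        aM d p A Y ζ j η := by
    rw [← Finset.sum_add_distrib]
    refine hcC'.1.symm.trans (Finset.sum_congr rfl fun j _ => ?_)
    exact (Finset.add_sum_erase _ _ h1H).symm
  have h2 := hcC'.2
  obtain ⟨S, hS⟩ : ∃ S, S = ∑ j : ZMod p, aM d p A Y ζ j 1 := ⟨_, rfl⟩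
  rw [← hS] at h2 hsum
  have hle : d ≤ S + (p - 1) := by
    have hE' : ∑ j : ZMod p, ∑ η ∈ (Polynomial.nthRootsFinset (q ^ e) (1 : k)).erase 1,
        aM d p A Y ζ j η ≤ p - 1 := hE
    omega
  have h4 : 4 * S ^ 2 ≤ 3 * d ^ 2 := by
    calc 4 * S ^ 2 ≤ 4 * Module.finrank k (ZY d Y) := by omega
      _ ≤ 3 * d ^ 2 := hcF
  rw [← hd]
  generalize p - 1 = r at hle ⊢
  have hfin : d ≤ 8 * r := by
    by_contra hc
    push Not at hc
    have a1 : (d : ℤ) ≤ S + r := by exact_mod_cast hle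
    have a2 : 4 * (S : ℤ) ^ 2 ≤ 3 * (d : ℤ) ^ 2 := by exact_mod_cast h4
    have a3 : 8 * (r : ℤ) < d := by exact_mod_cast hc
    have a4 : (0 : ℤ) ≤ r := by positivity
    have a5 : ((d : ℤ) - r) ^ 2 ≤ (S : ℤ) ^ 2 := by
      apply pow_le_pow_left₀
      · linarith
      · linarith
    nlinarith [mul_pos (show (0 : ℤ) < d by linarith) (show (0 : ℤ) < d - 8 * r by linarith)]
  calc d ^ 2 ≤ (8 * r) ^ 2 := Nat.pow_le_pow_left hfin 2
    _ = 64 * r ^ 2 := by ring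

end H78TP
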