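import Pool.Agent.H78.TP.Base

/-!
[H78 TP PRA] The decomposition `E = C_E(α) [E, α]` (60 min).

PROOF. `B` is central in `E` and commutes with `α`, `E / B` is abelian of order prime to `p`. Let
`N = closure ({⁅α, n⁆ | n ∈ E} ∪ B)`.
(1) If `c ∈ E` and `⁅α, c⁆ ∈ B` then `α c = c α`: `α c α⁻¹ = b c` with `b ∈ B`, so
`c = α ^ p c α ^ (-p) = b ^ p c`, `b ^ p = 1`, and `p ∤ |B|`, so `b = 1`.
(2) On the abelian group `E / B` let `φ x = α x α⁻¹ x⁻¹`, an endomorphism; its image is `N / B`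
(the elements `⁅α, n⁆ b` form a subgroup as `E / B` is abelian), its kernel `C₀` is the image of
`C_E(α)` by (1). `C₀ ⊓ φ(E / B) = 1`: if `x = φ n` and `φ x = 1` then
`x ^ p = ∏ s < p, α ^ s x α ^ (-s) = ∏ α ^ s (φ n) α ^ (-s) = α ^ p n α ^ (-p) n⁻¹ = 1` and `p ∤ |E / B|`,
so `x = 1`. So `|C₀| |N / B| = |E / B|` and `E / B = C₀ (N / B)`. This gives `hfpf` and the
decomposition `e = c * x`. Index: `C_E(α).relIndex E = B.relIndex N`
(`|E| / |C_E(α)| = |E / B| / |C₀| = |N / B|`, as `B ≤ C_E(α)`).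
(3) `c ∈ E`, `α c = c α`, `n ∈ E`: `c n c⁻¹ = b n` with `b = ⁅c, n⁆ ∈ B`, so
`c ⁅α, n⁆ c⁻¹ = ⁅α, c n c⁻¹⁆ = ⁅α, b n⁆ = ⁅α, n⁆` (`b` is central in `E` and commutes with `α`). So `c`
commutes with `N`.
(4) If `g` commutes with `α` and normalises `E` and `B` then it normalises `N`
(`g ⁅α, n⁆ g⁻¹ = ⁅α, g n g⁻¹⁆`); in particular for `g = α`.
-/

namespace H78TP

open Subgroup
open scoped commutatorElement

/-- a power argument -/
private theorem prA_mem {Γ : Type*} [Group Γ] (H : Subgroup Γ) {x : Γ} {p n : ℕ}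
    (hp : x ^ p ∈ H) (hn : x ^ n = 1) (hc : Nat.Coprime p n) : x ∈ H := by
  have h1 : (1 : ℤ) = p * Nat.gcdA p n + n * Nat.gcdB p n := by
    rw [← Nat.gcd_eq_gcd_ab, hc]
    rfl
  have h2 : x = (x ^ p) ^ Nat.gcdA p n := by
    calc x = x ^ (1 : ℤ) := (zpow_one x).symm
      _ = x ^ ((p : ℤ) * Nat.gcdA p n + n * Nat.gcdB p n) := by rw [← h1]
      _ = (x ^ p) ^ Nat.gcdA p n * (x ^ n) ^ Nat.gcdB p n := by
          rw [zpow_add, zpow_mul, zpow_mul, zpow_natCast, zpow_natCast]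
      _ = (x ^ p) ^ Nat.gcdA p n := by rw [hn, one_zpow, mul_one]
  rw [h2]
  exact H.zpow_mem hp _

private theorem prA_pow_card {Γ : Type*} [Group Γ] (E : Subgroup Γ) {x : Γ}
    (hx : x ∈ E) : x ^ Nat.card E = 1 := by
  have h1 : (⟨x, hx⟩ : E) ^ Nat.card E = 1 := pow_card_eq_one'
  have h2 := congrArg Subtype.val h1
  rw [SubmonoidClass.coe_pow] at h2
  exact h2

private theorem prA_comm {Γ : Type*} [Group Γ] (p : ℕ) (hp : p.Prime) (E B : Subgroup Γ) (α : Γ)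
    (hα : α ^ p = 1) (hBE : B ≤ E) (hBα : ∀ b ∈ B, α * b = b * α) (hpE : ¬ p ∣ Nat.card E)
    {c : Γ} (h : ⁅α, c⁆ ∈ B) : α * c = c * α := by
  set b := ⁅α, c⁆ with hb
  have hb1 : α * c * α⁻¹ = b * c := by
    rw [hb, commutatorElement_def]
    group
  have hs : ∀ s : ℕ, α ^ s * c * (α ^ s)⁻¹ = b ^ s * c := by
    intro s
    induction s with
    | zero => simp
    | succ s ih =>
      have hbs : α * b ^ s = b ^ s * α := by
        have : Commute α (b ^ s) := Commute.pow_right (hBα b h) s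
        exact this
      calc α ^ (s + 1) * c * (α ^ (s + 1))⁻¹ = α * (α ^ s * c * (α ^ s)⁻¹) * α⁻¹ := by
            rw [pow_succ']; group
        _ = α * (b ^ s * c) * α⁻¹ := by rw [ih]
        _ = (α * b ^ s) * (c * α⁻¹) := by group
        _ = b ^ s * (α * c * α⁻¹) := by rw [hbs]; group
        _ = b ^ (s + 1) * c := by rw [hb1, pow_succ]; group
  have h1 := hs p
  rw [hα] at h1
  have h2 : b ^ p = 1 := by
    have h3 : b ^ p * c = c := by rw [← h1]; group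
    exact mul_eq_right.mp h3
  have h4 : b ∈ (⊥ : Subgroup Γ) :=
    prA_mem ⊥ (by rw [h2]; exact one_mem _) (prA_pow_card E (hBE h))
      ((Nat.Prime.coprime_iff_not_dvd hp).2 hpE)
  rw [Subgroup.mem_bot] at h4
  rw [h4, one_mul] at hb1
  calc α * c = α * c * α⁻¹ * α := by group
    _ = c * α := by rw [hb1]

theorem prA {Γ : Type*} [Group Γ] [Finite Γ] (p : ℕ) [Fact p.Prime] (E B : Subgroup Γ) (α : Γ)
    (hα : α ^ p = 1) (hBE : B ≤ E) (hEE : ∀ x ∈ E, ∀ y ∈ E, ⁅x, y⁆ ∈ B)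
    (hBc : ∀ b ∈ B, ∀ e ∈ E, b * e = e * b) (hBα : ∀ b ∈ B, α * b = b * α)
    (hEα : ∀ e ∈ E, α * e * α⁻¹ ∈ E) (hpE : ¬ p ∣ Nat.card E) :
    ∃ N : Subgroup Γ, B ≤ N ∧ N ≤ E ∧
      (∀ g : Γ, g * α = α * g → (∀ e ∈ E, g * e * g⁻¹ ∈ E) → (∀ b ∈ B, g * b * g⁻¹ ∈ B) →
        ∀ x ∈ N, g * x * g⁻¹ ∈ N) ∧
      (∀ x ∈ N, ⁅α, x⁆ ∈ B → x ∈ B) ∧
      (∀ e ∈ E, ∃ c ∈ E, ∃ x ∈ N, e = c * x ∧ α * c = c * α) ∧
      (∀ c ∈ E, α * c = c * α → ∀ x ∈ N, c * x = x * c) ∧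
      (E ⊓ centralizer {α}).relIndex E = B.relIndex N := by
  have hpp : p.Prime := Fact.out
  have hcop : Nat.Coprime p (Nat.card E) := (Nat.Prime.coprime_iff_not_dvd hpp).2 hpE
  have hcomm : ∀ {c : Γ}, ⁅α, c⁆ ∈ B → α * c = c * α := fun h =>
    prA_comm p hpp E B α hα hBE hBα hpE h
  have haE : ∀ e ∈ E, ⁅α, e⁆ ∈ E := by
    intro e he
    rw [commutatorElement_def]
    exact mul_mem (hEα e he) (inv_mem he)
  -- conjugation by elements of `E` modulo `B`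
  have hconj : ∀ e ∈ E, ∀ x ∈ E, ∃ b ∈ B, e * x * e⁻¹ = b * x := by
    intro e he x hx
    refine ⟨⁅e, x⁆, hEE e he x hx, ?_⟩
    rw [commutatorElement_def]
    group
  have hmulc : ∀ e ∈ E, ∀ f ∈ E, ∃ b ∈ B, ⁅α, e * f⁆ = b * (⁅α, e⁆ * ⁅α, f⁆) := by
    intro e he f hf
    obtain ⟨b, hb, h1⟩ := hconj e he _ (haE f hf)
    refine ⟨b, hb, ?_⟩
    have h2 : b * ⁅α, e⁆ = ⁅α, e⁆ * b := hBc b hb _ (haE e he)
    calc ⁅α, e * f⁆ = ⁅α, e⁆ * (e * ⁅α, f⁆ * e⁻¹) := by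
          simp only [commutatorElement_def]; group
      _ = ⁅α, e⁆ * (b * ⁅α, f⁆) := by rw [h1]
      _ = b * (⁅α, e⁆ * ⁅α, f⁆) := by rw [← mul_assoc, ← h2, mul_assoc]
  let N : Subgroup Γ :=
    { carrier := {n | ∃ e ∈ E, ∃ b ∈ B, n = b * ⁅α, e⁆}
      mul_mem' := by
        rintro x y ⟨e, he, b, hb, rfl⟩ ⟨f, hf, c, hc, rfl⟩
        obtain ⟨d, hd, h1⟩ := hmulc e he f hf
        refine ⟨e * f, mul_mem he hf, b * c * d⁻¹, mul_mem (mul_mem hb hc) (inv_mem hd), ?_⟩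
        rw [h1]
        have h2 : c * ⁅α, e⁆ = ⁅α, e⁆ * c := hBc c hc _ (haE e he)
        calc b * ⁅α, e⁆ * (c * ⁅α, f⁆) = b * (⁅α, e⁆ * c) * ⁅α, f⁆ := by group
          _ = b * (c * ⁅α, e⁆) * ⁅α, f⁆ := by rw [h2]
          _ = b * c * d⁻¹ * (d * (⁅α, e⁆ * ⁅α, f⁆)) := by group
      one_mem' := ⟨1, one_mem _, 1, one_mem _, by simp [commutatorElement_def]⟩
      inv_mem' := by
        rintro x ⟨e, he, b, hb, rfl⟩
        obtain ⟨d, hd, h1⟩ := hmulc e he e⁻¹ (inv_mem he)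
        have h2 : (⁅α, e⁆)⁻¹ = d * ⁅α, e⁻¹⁆ := by
          have h3 : d * ⁅α, e⁆ = ⁅α, e⁆ * d := hBc d hd _ (haE e he)
          rw [mul_inv_cancel, commutatorElement_one_right, ← mul_assoc, h3, mul_assoc] at h1
          exact (eq_inv_of_mul_eq_one_right h1.symm).symm
        refine ⟨e⁻¹, inv_mem he, d * b⁻¹, mul_mem hd (inv_mem hb), ?_⟩
        have h4 : b⁻¹ * ⁅α, e⁻¹⁆ = ⁅α, e⁻¹⁆ * b⁻¹ :=
          hBc b⁻¹ (inv_mem hb) _ (haE _ (inv_mem he))
        rw [mul_inv_rev, h2, mul_assoc, mul_assoc, h4] }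
  have hNmem : ∀ x, x ∈ N ↔ ∃ e ∈ E, ∃ b ∈ B, x = b * ⁅α, e⁆ := fun x => Iff.rfl
  have hBN : B ≤ N := fun b hb => ⟨1, one_mem _, b, hb, by simp [commutatorElement_def]⟩
  have hNE : N ≤ E := by
    rintro x ⟨e, he, b, hb, rfl⟩
    exact mul_mem (hBE hb) (haE e he)
  have haN : ∀ e ∈ E, ⁅α, e⁆ ∈ N := fun e he => ⟨e, he, 1, one_mem _, (one_mul _).symm⟩
  have hg : ∀ g : Γ, g * α = α * g → (∀ e ∈ E, g * e * g⁻¹ ∈ E) → (∀ b ∈ B, g * b * g⁻¹ ∈ B) →
        ∀ x ∈ N, g * x * g⁻¹ ∈ N := by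
    rintro g hgα hgE hgB x ⟨e, he, b, hb, rfl⟩
    refine ⟨g * e * g⁻¹, hgE e he, g * b * g⁻¹, hgB b hb, ?_⟩
    have h1 : g * α * g⁻¹ = α := by rw [hgα]; group
    calc g * (b * ⁅α, e⁆) * g⁻¹ = g * b * g⁻¹ * ⁅g * α * g⁻¹, g * e * g⁻¹⁆ := by
          simp only [commutatorElement_def]; group
      _ = g * b * g⁻¹ * ⁅α, g * e * g⁻¹⁆ := by rw [h1]
  -- orbits
  have hsE : ∀ e ∈ E, ∀ s : ℕ, α ^ s * e * (α ^ s)⁻¹ ∈ E := by
    intro e he s
    induction s with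
    | zero => simpa using he
    | succ s ih =>
      have h1 := hEα _ ih
      have h2 : α * (α ^ s * e * (α ^ s)⁻¹) * α⁻¹ = α ^ (s + 1) * e * (α ^ (s + 1))⁻¹ := by
        rw [pow_succ']; group
      rwa [h2] at h1
  have hfpf : ∀ x ∈ N, ⁅α, x⁆ ∈ B → x ∈ B := by
    intro x hx hxB
    have hxα := hcomm hxB
    have hxE := hNE hx
    obtain ⟨e, he, b, hb, hxe⟩ := hx
    have hpow : ∀ s : ℕ, x ^ s = b ^ s * (α ^ s * e * (α ^ s)⁻¹) * e⁻¹ := by
      intro s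
      induction s with
      | zero => simp
      | succ s ih =>
        have h1 : α ^ s * x * (α ^ s)⁻¹ = x := by
          have : Commute (α ^ s) x := Commute.pow_left hxα s
          rw [this.eq]; group
        have h2 : α ^ s * b * (α ^ s)⁻¹ = b := by
          have : Commute (α ^ s) b := Commute.pow_left (hBα b hb) s
          rw [this.eq]; group
        have h3 : x = b * (α ^ (s + 1) * e * (α ^ (s + 1))⁻¹) *
            (α ^ s * e * (α ^ s)⁻¹)⁻¹ := by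
          calc x = α ^ s * x * (α ^ s)⁻¹ := h1.symm
            _ = α ^ s * (b * ⁅α, e⁆) * (α ^ s)⁻¹ := by rw [← hxe]
            _ = (α ^ s * b * (α ^ s)⁻¹) * (α ^ (s + 1) * e * (α ^ (s + 1))⁻¹) *
                (α ^ s * e * (α ^ s)⁻¹)⁻¹ := by
                rw [commutatorElement_def, pow_succ]; group
            _ = _ := by rw [h2]
        have h4 : b ^ s * x = x * b ^ s := hBc _ (pow_mem hb s) _ hxE
        calc x ^ (s + 1) = x * x ^ s := pow_succ' x s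
          _ = x * (b ^ s * (α ^ s * e * (α ^ s)⁻¹) * e⁻¹) := by rw [ih]
          _ = (x * b ^ s) * ((α ^ s * e * (α ^ s)⁻¹) * e⁻¹) := by group
          _ = b ^ s * x * ((α ^ s * e * (α ^ s)⁻¹) * e⁻¹) := by rw [h4]
          _ = b ^ s * (b * (α ^ (s + 1) * e * (α ^ (s + 1))⁻¹) *
                (α ^ s * e * (α ^ s)⁻¹)⁻¹) * ((α ^ s * e * (α ^ s)⁻¹) * e⁻¹) := by rw [← h3]
          _ = b ^ (s + 1) * (α ^ (s + 1) * e * (α ^ (s + 1))⁻¹) * e⁻¹ := by
              rw [pow_succ b]; group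
    have h5 := hpow p
    rw [hα] at h5
    have h6 : x ^ p = b ^ p := by rw [h5]; group
    exact prA_mem B (by rw [h6]; exact pow_mem hb p) (prA_pow_card E hxE) hcop
  have hcN : ∀ c ∈ E, α * c = c * α → ∀ x ∈ N, c * x = x * c := by
    rintro c hc hcα x ⟨e, he, b, hb, rfl⟩
    obtain ⟨d, hd, h1⟩ := hconj c hc e he
    have h2 : c * α * c⁻¹ = α := by rw [← hcα]; group
    have h3 : c * ⁅α, e⁆ * c⁻¹ = ⁅α, e⁆ := by
      calc c * ⁅α, e⁆ * c⁻¹ = ⁅c * α * c⁻¹, c * e * c⁻¹⁆ := by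
            simp only [commutatorElement_def]; group
        _ = ⁅α, d * e⁆ := by rw [h2, h1]
        _ = (α * d) * (e * α⁻¹ * e⁻¹ * d⁻¹) := by
            simp only [commutatorElement_def]; group
        _ = (d * ⁅α, e⁆) * d⁻¹ := by rw [hBα d hd]; simp only [commutatorElement_def]; group
        _ = ⁅α, e⁆ := by rw [hBc d hd _ (haE e he)]; group
    have h4 : b * c = c * b := hBc b hb c hc
    calc c * (b * ⁅α, e⁆) = (c * b) * ⁅α, e⁆ := by group
      _ = b * (c * ⁅α, e⁆ * c⁻¹) * c := by rw [← h4]; group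
      _ = b * ⁅α, e⁆ * c := by rw [h3]
  -- the product `C N`
  let CN : Subgroup Γ :=
    { carrier := {x | ∃ c ∈ E, ∃ n ∈ N, x = c * n ∧ α * c = c * α}
      mul_mem' := by
        rintro x y ⟨c, hc, n, hn, rfl, hcα⟩ ⟨d, hd, m, hm, rfl, hdα⟩
        refine ⟨c * d, mul_mem hc hd, n * m, mul_mem hn hm, ?_, ?_⟩
        · have h1 := hcN d hd hdα n hn
          calc c * n * (d * m) = c * (n * d) * m := by group
            _ = c * (d * n) * m := by rw [h1]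
            _ = c * d * (n * m) := by group
        · rw [← mul_assoc, hcα, mul_assoc, hdα, mul_assoc]
      one_mem' := ⟨1, one_mem _, 1, one_mem _, by simp, by simp⟩
      inv_mem' := by
        rintro x ⟨c, hc, n, hn, rfl, hcα⟩
        refine ⟨c⁻¹, inv_mem hc, n⁻¹, inv_mem hn, ?_, ?_⟩
        · rw [hcN c hc hcα n hn, mul_inv_rev]
        · have : Commute α c := hcα
          exact this.inv_right }
  have hdec : ∀ e ∈ E, ∃ c ∈ E, ∃ x ∈ N, e = c * x ∧ α * c = c * α := by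
    intro e he
    have hm : ∀ s : ℕ, (α ^ s * e * (α ^ s)⁻¹) * e⁻¹ ∈ N := by
      intro s
      induction s with
      | zero => simp
      | succ s ih =>
        have h1 := haN _ (hsE e he s)
        have h2 : ⁅α, α ^ s * e * (α ^ s)⁻¹⁆ * ((α ^ s * e * (α ^ s)⁻¹) * e⁻¹) =
            (α ^ (s + 1) * e * (α ^ (s + 1))⁻¹) * e⁻¹ := by
          rw [commutatorElement_def, pow_succ']; group
        rw [← h2]
        exact mul_mem h1 ih
    have hNn : ∀ x ∈ N, e * x * e⁻¹ ∈ N := by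
      intro x hx
      obtain ⟨b, hb, h1⟩ := hconj e he x (hNE hx)
      rw [h1]
      exact mul_mem (hBN hb) hx
    -- the products
    have hP : ∀ s : ℕ, ∃ c ∈ E, (∃ n ∈ N, c = n * e ^ s) ∧
        α * c * α⁻¹ = (α ^ s * e * (α ^ s)⁻¹) * c * e⁻¹ := by
      intro s
      induction s with
      | zero => exact ⟨1, one_mem _, ⟨1, one_mem _, by simp⟩, by simp⟩
      | succ s ih =>
        obtain ⟨c, hc, ⟨n, hn, hcn⟩, hac⟩ := ih
        refine ⟨(α ^ s * e * (α ^ s)⁻¹) * c, mul_mem (hsE e he s) hc,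
          ⟨(α ^ s * e * (α ^ s)⁻¹) * e⁻¹ * (e * n * e⁻¹), mul_mem (hm s) (hNn n hn), ?_⟩, ?_⟩
        · rw [hcn, pow_succ']; group
        · calc α * ((α ^ s * e * (α ^ s)⁻¹) * c) * α⁻¹ =
              (α ^ (s + 1) * e * (α ^ (s + 1))⁻¹) * (α * c * α⁻¹) := by rw [pow_succ']; group
            _ = _ := by rw [hac]; group
    obtain ⟨c, hc, ⟨n, hn, hcn⟩, hac⟩ := hP p
    have hca : α * c = c * α := by
      apply hcomm
      have h1 : ⁅α, c⁆ = ⁅e, c⁆ := by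
        rw [commutatorElement_def, commutatorElement_def, hac, hα]; group
      rw [h1]
      exact hEE e he c hc
    have hep : e ^ p ∈ CN := by
      refine ⟨c, hc, n⁻¹, inv_mem hn, ?_, hca⟩
      rw [hcN c hc hca _ (inv_mem hn), hcn]; group
    exact prA_mem CN hep (prA_pow_card E he) hcop
  refine ⟨N, hBN, hNE, hg, hfpf, hdec, hcN, ?_⟩
  -- the index
  have hCN : (E ⊓ centralizer {α}).relIndex E = (E ⊓ centralizer {α}).relIndex N := by
    symm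
    have hbij : Function.Bijective
        (Subgroup.quotientSubgroupOfEmbeddingOfLE (E ⊓ centralizer {α}) hNE) := by
      refine ⟨(Subgroup.quotientSubgroupOfEmbeddingOfLE (E ⊓ centralizer {α}) hNE).injective, ?_⟩
      intro z
      obtain ⟨⟨e, he⟩, rfl⟩ := QuotientGroup.mk_surjective z
      obtain ⟨c, hc, x, hx, hex, hcα⟩ := hdec e he
      refine ⟨QuotientGroup.mk ⟨x, hx⟩, ?_⟩
      rw [Subgroup.quotientSubgroupOfEmbeddingOfLE_apply_mk]
      rw [QuotientGroup.eq, Subgroup.mem_subgroupOf]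
      have h1 : (((Subgroup.inclusion hNE ⟨x, hx⟩)⁻¹ * (⟨e, he⟩ : E) : E) : Γ) = x⁻¹ * e := rfl
      rw [h1, hex, hcN c hc hcα x hx, ← mul_assoc, inv_mul_cancel, one_mul]
      refine Subgroup.mem_inf.2 ⟨hc, ?_⟩
      rw [Subgroup.mem_centralizer_iff]
      intro a ha
      rw [Set.mem_singleton_iff] at ha
      rw [ha, hcα]
    exact Nat.card_congr (Equiv.ofBijective _ hbij)
  rw [hCN, ← Subgroup.inf_relIndex_right]
  congr 1
  apply le_antisymm
  · intro x hx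
    rw [Subgroup.mem_inf, Subgroup.mem_inf] at hx
    obtain ⟨⟨hxE, hxc⟩, hxN⟩ := hx
    apply hfpf x hxN
    rw [Subgroup.mem_centralizer_iff] at hxc
    have h1 := hxc α (Set.mem_singleton α)
    have h2 : ⁅α, x⁆ = 1 := by rw [commutatorElement_def, h1]; group
    rw [h2]
    exact one_mem _
  · intro b hb
    refine Subgroup.mem_inf.2 ⟨Subgroup.mem_inf.2 ⟨hBE hb, ?_⟩, hBN hb⟩
    rw [Subgroup.mem_centralizer_iff]
    intro a ha
    rw [Set.mem_singleton_iff] at ha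
    rw [ha]
    exact hBα b hb

end H78TP
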