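import Pool.Agent.H78.TP.LocB
import Pool.Agent.H78.TP.PrA

/-!
[H78 TP PRB] `Q` centralises `C_E(α)` (30-45 min).

PROOF. Let `x ∈ E`, `α x = x α`, and `w = ⁅x, y⁆ ∈ E`; `w` commutes with `α` (`x` and `y` do). For
`u` with `τ α u = u`: `τ x⁻¹ u` is also fixed by `τ α`, so `τ y (τ x⁻¹ u) = τ x⁻¹ u` and
`τ w u = τ (x y x⁻¹ y⁻¹) u = τ x (τ y (τ x⁻¹ u)) = u` (as `τ y⁻¹ u = u`). Let `x' ∈ E` commute with
`α`. `⁅w, x'⁆ ∈ B`, and `τ ⁅w, x'⁆ u = u` (as `x'` preserves the space of fixed points of `α` and `w`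
is trivial on it). For `u = u₀ ≠ 0` this gives `lam ⁅w, x'⁆ = 1`. For `e ∈ E`, `e = c * n` (`hdec`) with
`c` commuting with `α` and `w n = n w`: `lam ⁅w, e⁆ = lam ⁅w, c⁆ * lam ⁅w, n⁆ = 1` (`loc_right`). So
`w ∈ B` (`L.rad`), and `τ w u₀ = u₀` gives `lam w = 1`, so `w = 1` by `hlam`.
-/

namespace H78TP

open Subgroup
open scoped commutatorElement

variable {k Γ U : Type*} [Field k] [Group Γ] [AddCommGroup U] [Module k U]

theorem prB [Finite Γ] (τ : Representation k Γ U) (B E : Subgroup Γ) (lam : Γ → k)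
    (L : Loc τ ⊤ B E B lam) (hlam : ∀ b ∈ B, lam b = 1 → b = 1) (α y : Γ)
    (hαy : α * y = y * α) (hyE : ∀ e ∈ E, y * e * y⁻¹ ∈ E)
    (hC : ∀ u, τ α u = u → τ y u = u) (u₀ : U) (hu₀ : u₀ ≠ 0) (hu₀' : τ α u₀ = u₀)
    (N : Subgroup Γ) (hNE : N ≤ E)
    (hdec : ∀ e ∈ E, ∃ c ∈ E, ∃ x ∈ N, e = c * x ∧ α * c = c * α)
    (hcN : ∀ c ∈ E, α * c = c * α → ∀ x ∈ N, c * x = x * c) :
    ∀ x ∈ E, α * x = x * α → y * x = x * y := by
  intro x hx hαx
  have cx : Commute α x := hαx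
  have cy : Commute α y := hαy
  have hsm : ∀ a : k, a • u₀ = u₀ → a = 1 := by
    intro a ha
    have h1 : (a - 1) • u₀ = 0 := by rw [sub_smul, one_smul, ha, sub_self]
    rcases smul_eq_zero.1 h1 with h | h
    · exact sub_eq_zero.1 h
    · exact absurd h hu₀
  have hmul : ∀ g g' : Γ, ∀ u, τ (g * g') u = τ g (τ g' u) := by
    intro g g' u
    rw [map_mul, Module.End.mul_apply]
  have hinv : ∀ g : Γ, ∀ u, τ g (τ g⁻¹ u) = u := by
    intro g u
    rw [← hmul, mul_inv_cancel, map_one]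
    rfl
  have hinv' : ∀ g : Γ, ∀ u, τ g u = u → τ g⁻¹ u = u := by
    intro g u hu
    have h1 : τ g⁻¹ (τ g u) = u := by
      rw [← hmul, inv_mul_cancel, map_one]
      rfl
    rwa [hu] at h1
  have hfix : ∀ g : Γ, Commute α g → ∀ u, τ α u = u → τ α (τ g u) = τ g u := by
    intro g hg u hu
    rw [← hmul, hg.eq, hmul, hu]
  obtain ⟨w, hw⟩ : ∃ w, w = ⁅x, y⁆ := ⟨_, rfl⟩
  have hwd : w = x * (y * x⁻¹ * y⁻¹) := by
    rw [hw, commutatorElement_def]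
    group
  have hwE : w ∈ E := by
    rw [hwd]
    exact E.mul_mem hx (hyE _ (E.inv_mem hx))
  have cw : Commute α w := by
    rw [hwd]
    exact cx.mul_right ((cy.mul_right cx.inv_right).mul_right cy.inv_right)
  have hτw : ∀ u, τ α u = u → τ w u = u := by
    intro u hu
    rw [hwd, hmul, hmul, hmul, hinv' y u (hC u hu),
      hC _ (hfix x⁻¹ cx.inv_right u hu), hinv]
  have h1 : ∀ c ∈ E, Commute α c → lam ⁅w, c⁆ = 1 := by
    intro c hc cc
    apply hsm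
    rw [← L.sc _ (L.EE w hwE c hc) u₀ Submodule.mem_top]
    have h2 : ⁅w, c⁆ = w * (c * (w⁻¹ * c⁻¹)) := by
      rw [commutatorElement_def]
      group
    rw [h2, hmul, hmul, hmul,
      hinv' w _ (hτw _ (hfix c⁻¹ cc.inv_right u₀ hu₀')), hinv, hτw u₀ hu₀']
  have h3 : w ∈ B := by
    rw [L.rad]
    refine ⟨hwE, fun e he => ?_⟩
    obtain ⟨c, hc, n, hn, rfl, hαc⟩ := hdec e he
    rw [loc_right L hwE hc (hNE hn), h1 c hc hαc, one_mul]
    have h4 : ⁅w, n⁆ = 1 := commutatorElement_eq_one_iff_mul_comm.2 (hcN w hwE cw n hn)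
    rw [h4, loc_one L]
  have h5 : lam w = 1 := by
    apply hsm
    rw [← L.sc w h3 u₀ Submodule.mem_top, hτw u₀ hu₀']
  have h6 := hlam w h3 h5
  rw [hw] at h6
  exact (commutatorElement_eq_one_iff_mul_comm.1 h6).symm

end H78TP
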