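import Pool.Agent.H78.TP.Base

/-!
[H78 TP QF] The subgroups `B` and `E` (45 min).

PROOF. Let `B` be a subgroup of maximal order among the abelian subgroups of `K` which are normal
in `Γ` (this gives the last clause). Let `C = K ⊓ centralizer B` (normal in `Γ`, `B ≤ C`), and
let `E` be of maximal order among the subgroups `E` normal in `Γ` with `B ≤ E ≤ C` and
`⁅x, y⁆ ∈ B` for all `x, y ∈ E` (`B` is one).
`Z = E ⊓ centralizer E` is normal in `Γ`, abelian, contained in `K` and contains `B`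
(`E ≤ centralizer B`), so `Z = B` by maximality.
Suppose that `M = K ⊓ centralizer E` is not contained in `B`. `M` is normal in `Γ` and
`M ≤ centralizer B` (as `B ≤ E`), `B ≤ M`. The image of `M` in `Γ ⧸ B` is a nontrivial soluble
normal subgroup; let `Y / B` be its last nontrivial derived subgroup: `Y` normal in `Γ`,
`B < Y ≤ M`, `⁅x, y⁆ ∈ B` for `x, y ∈ Y` (use `dS` and `dS_normal`, `dS_map`). Then `E ⊔ Y` is
normal in `Γ`, `≤ C`, and its commutators are in `B` (`⁅E, E⁆ ≤ B`, `⁅Y, Y⁆ ≤ B`, `⁅E, Y⁆ = ⊥`,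
`B` is centralised by both). By maximality `Y ≤ E`, so `Y ≤ E ⊓ centralizer E = B`, a
contradiction.
-/

namespace H78TP

open Subgroup
open scoped commutatorElement

theorem qf {Γ : Type*} [Group Γ] [Finite Γ] (K : Subgroup Γ) (hK : K.Normal)
    (hs : Group.IsSolvable K) : ∃ B E : Subgroup Γ, B.Normal ∧ E.Normal ∧ B ≤ E ∧ E ≤ K ∧
      (∀ x ∈ B, ∀ y ∈ B, x * y = y * x) ∧ (∀ x ∈ E, ∀ y ∈ E, ⁅x, y⁆ ∈ B) ∧
      (∀ b ∈ B, ∀ e ∈ E, b * e = e * b) ∧ K ⊓ centralizer (E : Set Γ) ≤ B ∧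
      (∀ A : Subgroup Γ, A.Normal → A ≤ K → B ≤ A → (∀ x ∈ A, ∀ y ∈ A, x * y = y * x) →
        A = B) := by
  classical
  -- the subgroup `B`
  obtain ⟨B, hBmax⟩ := (Set.toFinite {B : Subgroup Γ | B.Normal ∧ B ≤ K ∧
    ∀ x ∈ B, ∀ y ∈ B, x * y = y * x}).exists_maximal ⟨⊥, by
      refine ⟨inferInstance, bot_le, ?_⟩
      intro x hx y hy
      rw [Subgroup.mem_bot.1 hx, Subgroup.mem_bot.1 hy]⟩
  obtain ⟨hBn, hBK, hBab⟩ := hBmax.prop
  -- the subgroup `E`
  obtain ⟨E, hEmax⟩ := (Set.toFinite {E : Subgroup Γ | E.Normal ∧ B ≤ E ∧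
    E ≤ K ⊓ centralizer (B : Set Γ) ∧ ∀ x ∈ E, ∀ y ∈ E, ⁅x, y⁆ ∈ B}).exists_maximal ⟨B, by
      refine ⟨hBn, le_rfl, le_inf hBK ?_, ?_⟩
      · intro x hx
        rw [Subgroup.mem_centralizer_iff]
        exact fun h hh => hBab h hh x hx
      · intro x hx y hy
        rw [commutatorElement_def]
        exact mul_mem (mul_mem (mul_mem hx hy) (inv_mem hx)) (inv_mem hy)⟩
  obtain ⟨hEn, hBE, hEC, hEE⟩ := hEmax.prop
  have hcE : (centralizer (E : Set Γ)).Normal := inferInstance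
  have hcen : ∀ b ∈ B, ∀ e ∈ E, b * e = e * b := by
    intro b hb e he
    exact Subgroup.mem_centralizer_iff.1 (hEC he).2 b hb
  -- `Z = E ⊓ centralizer E` is contained in `B`
  have hZ : E ⊓ centralizer (E : Set Γ) ≤ B := by
    refine hBmax.2 ?_ ?_
    · refine ⟨inferInstance, inf_le_left.trans (hEC.trans inf_le_left), ?_⟩
      intro x hx y hy
      exact Subgroup.mem_centralizer_iff.1 hy.2 x hx.1
    · refine le_inf hBE ?_
      intro b hb
      rw [Subgroup.mem_centralizer_iff]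
      exact fun e he => (hcen b hb e he).symm
  have hlast : ∀ A : Subgroup Γ, A.Normal → A ≤ K → B ≤ A →
      (∀ x ∈ A, ∀ y ∈ A, x * y = y * x) → A = B := by
    intro A hA hAK hBA hab
    exact le_antisymm (hBmax.2 ⟨hA, hAK, hab⟩ hBA) hBA
  refine ⟨B, E, hBn, hEn, hBE, hEC.trans inf_le_left, hBab, hEE, hcen, ?_, hlast⟩
  by_contra hM
  -- the derived series of `M` reaches `B`
  have hMn : (K ⊓ centralizer (E : Set Γ)).Normal := inferInstance
  have hex : ∃ n, dS (K ⊓ centralizer (E : Set Γ)) n ≤ B := by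
    obtain ⟨n, hn⟩ := hs.solvable
    refine ⟨n, ?_⟩
    have h1 := dS_map K.subtype (⊤ : Subgroup K) n
    rw [dS_top_eq, hn, Subgroup.map_bot, ← MonoidHom.range_eq_map, Subgroup.range_subtype] at h1
    exact (dS_mono inf_le_left n).trans (h1 ▸ bot_le)
  have hn0 : Nat.find hex ≠ 0 := by
    intro h0
    have h1 := Nat.find_spec hex
    rw [h0, dS_zero] at h1
    exact hM h1
  obtain ⟨m, hm⟩ := Nat.exists_eq_succ_of_ne_zero hn0
  have hYB : ¬ dS (K ⊓ centralizer (E : Set Γ)) m ≤ B := by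
    apply Nat.find_min hex
    rw [hm]
    exact Nat.lt_succ_self m
  have hYY : dS (K ⊓ centralizer (E : Set Γ)) (m + 1) ≤ B := by
    have h1 := Nat.find_spec hex
    rw [hm] at h1
    exact h1
  obtain ⟨Y, hY⟩ : ∃ Y, Y = dS (K ⊓ centralizer (E : Set Γ)) m := ⟨_, rfl⟩
  rw [dS_succ, ← hY] at hYY
  rw [← hY] at hYB
  have hYM : Y ≤ K ⊓ centralizer (E : Set Γ) := by
    rw [hY]
    exact dS_le _ m
  have hYn : Y.Normal := by
    rw [hY]
    exact dS_normal hMn m
  have hYE : Y ≤ E := by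
    refine le_sup_right.trans (hEmax.2 (y := E ⊔ Y) ?_ le_sup_left)
    refine ⟨inferInstance, hBE.trans le_sup_left, sup_le hEC (le_inf (hYM.trans inf_le_left) ?_),
      ?_⟩
    · intro y hy
      rw [Subgroup.mem_centralizer_iff]
      intro b hb
      exact Subgroup.mem_centralizer_iff.1 (hYM hy).2 b (hBE hb)
    · intro x hx x' hx'
      obtain ⟨e, he, y, hy, rfl⟩ := Subgroup.mem_sup_of_normal_right.1 hx
      obtain ⟨e', he', y', hy', rfl⟩ := Subgroup.mem_sup_of_normal_right.1 hx'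
      have c1 : e' * y = y * e' := Subgroup.mem_centralizer_iff.1 (hYM hy).2 e' he'
      have c2 : e * y = y * e := Subgroup.mem_centralizer_iff.1 (hYM hy).2 e he
      have c3 : e' * y' = y' * e' := Subgroup.mem_centralizer_iff.1 (hYM hy').2 e' he'
      have c4 : e * y' = y' * e := Subgroup.mem_centralizer_iff.1 (hYM hy').2 e he
      have key : ⁅e * y, e' * y'⁆ = ⁅e, e'⁆ * ⁅y, y'⁆ := by
        have C1 : Commute e' y := c1
        have C2 : Commute e y := c2
        have C3 : Commute e' y' := c3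
        have C4 : Commute e y' := c4
        calc ⁅e * y, e' * y'⁆ = e * (y * e') * (y' * (y⁻¹ * e⁻¹) * (y'⁻¹ * e'⁻¹)) := by
              rw [commutatorElement_def]; group
          _ = e * (e' * y) * (y' * (e⁻¹ * y⁻¹) * (e'⁻¹ * y'⁻¹)) := by
              rw [c1, (C2.inv_inv).eq, (C3.inv_inv).eq]
          _ = e * e' * (y * (y' * e⁻¹) * (y⁻¹ * e'⁻¹) * y'⁻¹) := by group
          _ = e * e' * (y * (e⁻¹ * y') * (e'⁻¹ * y⁻¹) * y'⁻¹) := by
              rw [(C4.inv_left).eq, (C1.inv_inv).eq]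
          _ = e * e' * ((y * e⁻¹) * (y' * e'⁻¹) * y⁻¹ * y'⁻¹) := by group
          _ = e * e' * ((e⁻¹ * y) * (e'⁻¹ * y') * y⁻¹ * y'⁻¹) := by
              rw [(C2.inv_left).eq, (C3.inv_left).eq]
          _ = e * e' * (e⁻¹ * (y * e'⁻¹) * y' * y⁻¹ * y'⁻¹) := by group
          _ = e * e' * (e⁻¹ * (e'⁻¹ * y) * y' * y⁻¹ * y'⁻¹) := by
              rw [(C1.inv_left).eq]
          _ = ⁅e, e'⁆ * ⁅y, y'⁆ := by
              rw [commutatorElement_def, commutatorElement_def]; group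
      rw [key]
      exact mul_mem (hEE e he e' he') (hYY (Subgroup.commutator_mem_commutator hy hy'))
  exact hYB ((le_inf hYE (hYM.trans inf_le_right)).trans hZ)

end H78TP
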