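import Pool.Agent.H78.TP.NilSyl

/-!
[H78 TP QND] The last step: `Y` has height at most 2 (60 min).

PROOF. For a prime `l` let `Y_l = {g ∈ Y | ∀ x ∈ E, (∃ j, x ^ (l ^ j) ∈ B) → ⁅g, x⁆ ∈ B}`. The
elements `x` of `E` with `∃ j, x ^ (l ^ j) ∈ B` form a subgroup `E_l` (`E / B` is abelian), normal
in `Γ`; `Y_l` is the kernel of the action of `Y` on `E_l / B`, a normal subgroup of `Γ` (`Y`, `E_l`,
`B` are normal). By `hY` every element of `Y` of order prime to `l` lies in `Y_l`, so `Y / Y_l` is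
an `l`-group (an element `g` of `Y` is a product of commuting powers of orders a power of `l` and
prime to `l`; so `g ^ (l ^ j) ∈ Y_l` for some `j`), hence nilpotent: `gam Y c_l ≤ Y_l` for some
`c_l` (`gam_of_isNilpotent` for the image of `Y` in `Γ ⧸ Y_l`, `gam_map`). For primes `l` which do
not divide `|E|`, `E_l = B`(if `x ^ (l ^ j) ∈ B` and `l ∤ |E|` then `x ∈ B`) and `Y_l = Y`. Let `c`
be the maximum of the `c_l` for the primes `l ≤ |E|`. So `gam Y c ≤ Y₁ := {g ∈ Y | ∀ x ∈ E, ⁅g, x⁆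
∈ B}`: an element `x` of `E` is a product of elements of the `E_l` (its powers), and the `x ∈ E` with
`⁅g, x⁆ ∈ B` form a subgroup. So `lns Y 1 = nres Y ≤ Y₁` (`lns_one_of_gam`).
`⁅Y₁, Y₁⁆ ≤ centralizer E`: for `g, h ∈ Y₁`, `e ∈ E`: `g e g⁻¹ = b e`, `h e h⁻¹ = b' e` with
`b, b' ∈ B`, and `g, h` commute with `b, b'` (`hYB`), `b b' = b' b`; so
`g h e h⁻¹ g⁻¹ = b' b e = h g e g⁻¹ h⁻¹`. So `⁅Y₁, Y₁⁆ ≤ centralizer E ≤ B`, and
`⁅B, Y₁⁆ = ⊥` by `hYB`. So `gam Y₁ 2 = ⊥`, `nres Y₁ = ⊥`, and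
`lns Y 2 = nres (nres Y) ≤ nres Y₁ = ⊥`.
-/

namespace H78TP

open Subgroup
open scoped commutatorElement

private theorem qnD_comm_mem {Γ : Type*} [Group Γ] (B : Subgroup Γ) [B.Normal] (g x : Γ) :
    ⁅g, x⁆ ∈ B ↔ Commute (QuotientGroup.mk' B g) (QuotientGroup.mk' B x) := by
  rw [← commutatorElement_eq_one_iff_commute, ← map_commutatorElement,
    QuotientGroup.mk'_apply, QuotientGroup.eq_one_iff]

private theorem qnD_pow {Γ : Type*} [Group Γ] [Finite Γ] (l : ℕ) (hl : l.Prime) (g : Γ) :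
    ∃ j : ℕ, ¬ l ∣ orderOf (g ^ (l ^ j)) := by
  have h0 : orderOf g ≠ 0 := (orderOf_pos g).ne'
  refine ⟨(orderOf g).factorization l, ?_⟩
  have h1 : l ^ (orderOf g).factorization l ∣ orderOf g := Nat.ordProj_dvd _ _
  rw [orderOf_pow_of_dvd (pow_ne_zero _ hl.ne_zero) h1]
  exact Nat.not_dvd_ordCompl hl h0

private theorem qnD_all {Γ : Type*} [Group Γ] [Finite Γ] (B E : Subgroup Γ) [B.Normal] (g : Γ)
    (h : ∀ l : ℕ, l.Prime → ∀ x ∈ E, (∃ j : ℕ, x ^ (l ^ j) ∈ B) → ⁅g, x⁆ ∈ B) :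
    ∀ N : ℕ, ∀ x ∈ E, 0 < N → x ^ N ∈ B → ⁅g, x⁆ ∈ B := by
  intro N
  induction N using Nat.strong_induction_on with
  | _ N ih =>
    intro x hx hN hxN
    rcases Nat.lt_or_ge 1 N with h1 | h1
    · obtain ⟨l, hl, hlN⟩ := Nat.exists_prime_and_dvd (show N ≠ 1 by omega)
      set a := N.factorization l with ha
      set m := N / l ^ a with hm
      have hmul : l ^ a * m = N := Nat.ordProj_mul_ordCompl_eq_self N l
      have hcop : Nat.Coprime (l ^ a) m :=
        (Nat.coprime_ordCompl hl hN.ne').pow_left a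
      have ha0 : a ≠ 0 := by
        rw [ha]
        exact (hl.factorization_pos_of_dvd hN.ne' hlN).ne'
      have hm0 : 0 < m := by
        rcases Nat.eq_zero_or_pos m with h2 | h2
        · rw [h2, mul_zero] at hmul
          omega
        · exact h2
      have hmN : m < N := by
        have h2 : 1 < l ^ a := Nat.one_lt_pow ha0 hl.one_lt
        nlinarith
      have e1 : ⁅g, x ^ m⁆ ∈ B := by
        refine h l hl _ (pow_mem hx _) ⟨a, ?_⟩
        rw [← pow_mul, mul_comm, hmul]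
        exact hxN
      have e2 : ⁅g, x ^ (l ^ a)⁆ ∈ B := by
        refine ih m hmN _ (pow_mem hx _) hm0 ?_
        rw [← pow_mul, hmul]
        exact hxN
      rw [qnD_comm_mem] at e1 e2 ⊢
      have hb := Nat.gcd_eq_gcd_ab (l ^ a) m
      rw [hcop.gcd_eq_one] at hb
      have e3 : x = (x ^ (l ^ a)) ^ (Nat.gcdA (l ^ a) m) * (x ^ m) ^ (Nat.gcdB (l ^ a) m) := by
        have e4 : x = x ^ (((1 : ℕ) : ℤ)) := by simp
        rw [hb, zpow_add, zpow_mul, zpow_mul, zpow_natCast, zpow_natCast] at e4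
        exact e4
      rw [e3, map_mul, map_zpow, map_zpow]
      exact (e2.zpow_right _).mul_right (e1.zpow_right _)
    · have h2 : N = 1 := by omega
      rw [h2, pow_one] at hxN
      rw [qnD_comm_mem]
      have h3 : QuotientGroup.mk' B x = 1 := by
        rw [QuotientGroup.mk'_apply, QuotientGroup.eq_one_iff]
        exact hxN
      rw [h3]
      exact Commute.one_right _

theorem qnD {Γ : Type*} [Group Γ] [Finite Γ] (B E Y : Subgroup Γ) (hB : B.Normal)
    (hE : E.Normal) (hY' : Y.Normal) (BE : B ≤ E) (hBc : ∀ x ∈ B, ∀ y ∈ B, x * y = y * x)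
    (EE : ∀ x ∈ E, ∀ y ∈ E, ⁅x, y⁆ ∈ B)
    (hcE : centralizer (E : Set Γ) ≤ B) (hYB : Y ≤ centralizer (B : Set Γ))
    (hY : ∀ l : ℕ, l.Prime → ∀ g ∈ Y, ¬ l ∣ orderOf g → ∀ x ∈ E,
      (∃ j : ℕ, x ^ (l ^ j) ∈ B) → ⁅g, x⁆ ∈ B) : lns Y 2 = ⊥ := by
  -- the residual acts trivially on `E / B`
  have key : ∀ l : ℕ, l.Prime → ∀ g ∈ nres Y, ∀ x ∈ E, (∃ j : ℕ, x ^ (l ^ j) ∈ B) →
      ⁅g, x⁆ ∈ B := by
    intro l hl
    have hlf : Fact l.Prime := ⟨hl⟩
    -- the subgroup `E_l`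
    let El : Subgroup Γ :=
      { carrier := {x | x ∈ E ∧ ∃ j : ℕ, x ^ (l ^ j) ∈ B}
        one_mem' := ⟨E.one_mem, 0, by rw [one_pow]; exact B.one_mem⟩
        mul_mem' := by
          rintro x y ⟨hx, i, hi⟩ ⟨hy, j, hj⟩
          refine ⟨E.mul_mem hx hy, i + j, ?_⟩
          have h1 : Commute (QuotientGroup.mk' B x) (QuotientGroup.mk' B y) :=
            (qnD_comm_mem B x y).1 (EE x hx y hy)
          have h2 : (QuotientGroup.mk' B x) ^ (l ^ i) = 1 := by
            rw [← map_pow, QuotientGroup.mk'_apply, QuotientGroup.eq_one_iff]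
            exact hi
          have h3 : (QuotientGroup.mk' B y) ^ (l ^ j) = 1 := by
            rw [← map_pow, QuotientGroup.mk'_apply, QuotientGroup.eq_one_iff]
            exact hj
          have h4 : QuotientGroup.mk' B ((x * y) ^ (l ^ (i + j))) = 1 := by
            rw [map_pow, map_mul, h1.mul_pow, pow_add, pow_mul, h2, one_pow, one_mul,
              mul_comm (l ^ i), pow_mul, h3, one_pow]
          rw [QuotientGroup.mk'_apply, QuotientGroup.eq_one_iff] at h4
          exact h4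
        inv_mem' := by
          rintro x ⟨hx, i, hi⟩
          refine ⟨E.inv_mem hx, i, ?_⟩
          rw [inv_pow]
          exact B.inv_mem hi }
    have hEl : El.Normal := by
      refine ⟨fun x hx g => ?_⟩
      obtain ⟨h1, j, h2⟩ := hx
      refine ⟨hE.conj_mem x h1 g, j, ?_⟩
      rw [conj_pow]
      exact hB.conj_mem _ h2 g
    let Yl : Subgroup Γ := Y ⊓ (centralizer ((El.map (QuotientGroup.mk' B) :
      Subgroup (Γ ⧸ B)) : Set (Γ ⧸ B))).comap (QuotientGroup.mk' B)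
    have hElm : (El.map (QuotientGroup.mk' B)).Normal :=
      hEl.map _ (QuotientGroup.mk'_surjective B)
    have hYl : Yl.Normal := by
      have h1 : (centralizer ((El.map (QuotientGroup.mk' B) :
        Subgroup (Γ ⧸ B)) : Set (Γ ⧸ B))).Normal := inferInstance
      have h2 := h1.comap (QuotientGroup.mk' B)
      exact Subgroup.normal_inf_normal _ _
    have memYl : ∀ g, g ∈ Yl ↔ g ∈ Y ∧ ∀ x ∈ E, (∃ j : ℕ, x ^ (l ^ j) ∈ B) → ⁅g, x⁆ ∈ B := by
      intro g
      rw [Subgroup.mem_inf, Subgroup.mem_comap, Subgroup.mem_centralizer_iff]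
      refine and_congr Iff.rfl ?_
      constructor
      · intro h x hx hj
        rw [qnD_comm_mem]
        exact (h _ ⟨x, ⟨hx, hj⟩, rfl⟩).symm
      · rintro h _ ⟨x, ⟨hx, hj⟩, rfl⟩
        exact ((qnD_comm_mem B g x).1 (h x hx hj)).symm
    have hpg : IsPGroup l (Y.map (QuotientGroup.mk' Yl)) := by
      rintro ⟨_, ⟨g, hg, rfl⟩⟩
      obtain ⟨j, hj⟩ := qnD_pow l hl g
      refine ⟨j, ?_⟩
      apply Subtype.ext
      show (QuotientGroup.mk' Yl g) ^ (l ^ j) = 1
      rw [← map_pow, QuotientGroup.mk'_apply, QuotientGroup.eq_one_iff, memYl]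
      exact ⟨pow_mem hg _, fun x hx hxj => hY l hl _ (pow_mem hg _) hj x hx hxj⟩
    have hnil : Group.IsNilpotent (Y.map (QuotientGroup.mk' Yl)) := hpg.isNilpotent
    obtain ⟨c, hc⟩ := gam_of_isNilpotent _ hnil
    rw [← gam_map, Subgroup.map_eq_bot_iff, QuotientGroup.ker_mk'] at hc
    intro g hg
    exact ((memYl g).1 (hc (nres_le_gam Y c hg))).2
  have key2 : ∀ g ∈ nres Y, ∀ x ∈ E, ⁅g, x⁆ ∈ B := fun g hg x hx =>
    qnD_all B E g (fun l hl => key l hl g hg) (orderOf x) x hx (orderOf_pos x)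
      (by rw [pow_orderOf_eq_one]; exact B.one_mem)
  have key3 : ⁅nres Y, nres Y⁆ ≤ centralizer (E : Set Γ) := by
    rw [Subgroup.commutator_le]
    intro g hg h hh
    have conj : ∀ u ∈ nres Y, ∀ e ∈ E, ∃ b ∈ B, u * e * u⁻¹ = b * e := fun u hu e he =>
      ⟨⁅u, e⁆, key2 u hu e he, by rw [commutatorElement_def]; group⟩
    have cm : ∀ u ∈ nres Y, ∀ b ∈ B, u * b = b * u := fun u hu b hb =>
      ((Subgroup.mem_centralizer_iff.1 (hYB (nres_le Y hu))) b hb).symm
    have two : ∀ e ∈ E, (g * h) * e * (g * h)⁻¹ = (h * g) * e * (h * g)⁻¹ := by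
      intro e he
      obtain ⟨b, hb, h1⟩ := conj g hg e he
      obtain ⟨b', hb', h2⟩ := conj h hh e he
      have e1 : (g * h) * e * (g * h)⁻¹ = b' * b * e := by
        calc (g * h) * e * (g * h)⁻¹ = g * (h * e * h⁻¹) * g⁻¹ := by group
          _ = g * (b' * e) * g⁻¹ := by rw [h2]
          _ = (g * b') * e * g⁻¹ := by group
          _ = (b' * g) * e * g⁻¹ := by rw [cm g hg b' hb']
          _ = b' * (g * e * g⁻¹) := by group
          _ = b' * (b * e) := by rw [h1]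
          _ = _ := by group
      have e2 : (h * g) * e * (h * g)⁻¹ = b * b' * e := by
        calc (h * g) * e * (h * g)⁻¹ = h * (g * e * g⁻¹) * h⁻¹ := by group
          _ = h * (b * e) * h⁻¹ := by rw [h1]
          _ = (h * b) * e * h⁻¹ := by group
          _ = (b * h) * e * h⁻¹ := by rw [cm h hh b hb]
          _ = b * (h * e * h⁻¹) := by group
          _ = b * (b' * e) := by rw [h2]
          _ = _ := by group
      rw [e1, e2, hBc b' hb' b hb]
    rw [Subgroup.mem_centralizer_iff]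
    intro e he
    have h3 : (h * g)⁻¹ * e * (h * g) ∈ E := by
      have h4 := hE.conj_mem e he (h * g)⁻¹
      rwa [inv_inv] at h4
    have h5 := two _ h3
    have h6 : ⁅g, h⁆ * e * ⁅g, h⁆⁻¹ = e := by
      calc ⁅g, h⁆ * e * ⁅g, h⁆⁻¹
          = (g * h) * ((h * g)⁻¹ * e * (h * g)) * (g * h)⁻¹ := by
            rw [commutatorElement_def]; group
        _ = (h * g) * ((h * g)⁻¹ * e * (h * g)) * (h * g)⁻¹ := h5
        _ = e := by group
    calc e * ⁅g, h⁆ = (⁅g, h⁆ * e * ⁅g, h⁆⁻¹) * ⁅g, h⁆ := by rw [h6]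
      _ = ⁅g, h⁆ * e := by group
  have key4 : gam (nres Y) 2 = ⊥ := by
    rw [gam_succ, gam_succ, gam_zero, eq_bot_iff, Subgroup.commutator_le]
    intro a ha b hb
    have h1 : a ∈ B := hcE (key3 ha)
    have h2 : a * b = b * a :=
      (Subgroup.mem_centralizer_iff.1 (hYB (nres_le Y hb))) a h1
    rw [Subgroup.mem_bot, commutatorElement_eq_one_iff_mul_comm]
    exact h2
  show nres (nres Y) = ⊥
  rw [eq_bot_iff, ← key4]
  exact nres_le_gam _ 2

end H78TP
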