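import Pool.Agent.H78.TP.TDef
import Pool.Agent.H78.TP.Irr
import Pool.Agent.H78.TP.Qf
import Pool.Agent.H78.TP.PrB
import Pool.Agent.H78.TP.CoreG
import Pool.Agent.H78.TP.Gt
import Pool.Agent.H78.TP.Cop
import Pool.Agent.H78.TP.QnD

/-!
[H78 TP PRC] The primitive case (75-90 min).

PROOF. `qf` with `K` gives `B ≤ E ≤ K`. `B` acts by scalars `τ b = lam b • 1` (`hprim`), so `B` is
central in `Γ` (`τ` injective), and `lam b = 1` implies `b = 1`. `loc_exists` (`V = ⊤`; `U ≠ 0`) gives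
`D` with `Loc τ ⊤ B E D lam`; if `e ∈ D` then `lam ⁅e, e'⁆ = 1`, `⁅e, e'⁆ = 1` for all `e' ∈ E`, so
`e ∈ K ⊓ centralizer E ≤ B`; so `D = B`, `L : Loc τ ⊤ B E B lam`. `p ∤ |E|` as `E ≤ K`. `prA` gives `N`
and `prB` shows that every `y ∈ Q` centralises `C_E(α)`. `L' : Loc τ ⊤ B N B lam`: if `x ∈ N` and
`lam ⁅x, n⁆ = 1` for `n ∈ N` then for `e = c n` also `lam ⁅x, e⁆ = 1`, so `x ∈ B`. Let
`X = normalClosure Q ≤ K`.
Case A: `⁅y, x⁆ ∈ B` for all `y ∈ Q`, `x ∈ N`. Then `⁅y, e⁆ ∈ B` for all `e ∈ E` (`e = c x`), so the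
normal subgroup `{g | ∀ e ∈ E, ⁅g, e⁆ ∈ B}` contains `Q` and `X`. For `g, h ∈ X`, `e ∈ E`:
`g e g⁻¹ = b e`, `h e h⁻¹ = b' e`, `b, b'` central, so `⁅g, h⁆` centralises `E`,
`⁅g, h⁆ ∈ K ⊓ centralizer E ≤ B`. So `⁅X, X⁆ ≤ B`, `gam X 2 ≤ ⁅B, X⁆ = ⊥`, `lns X 1 = ⊥`,
`lns_of_le`.
Case B: `⁅y₀, x⁆ ∉ B` for some `y₀ ∈ Q`, `x ∈ N`. `coreG` gives
`β₁ := B.relIndex N ≤ β := 64 (p-1)^2`, so `(E ⊓ centralizer {α}).relIndex E ≤ β`. Let `l'` be a
prime, `T = {x ∈ E | x ^ l' ∈ B}` (normal in `Γ`). For `y ∈ Q`, `g : Γ` and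
`C = {x ∈ T | ⁅g y g⁻¹, x⁆ ∈ B}`: conjugating with `g⁻¹` its index in `T` is the index of
`{x ∈ T | ⁅y, x⁆ ∈ B} ≥ T ⊓ centralizer {α}`, so it is `≤ β ≤ 2 ^ β ≤ l' ^ β`. `gt` (with `X`, `T`,
`D := B`, `S` = the set of the conjugates of the elements of `Q`, `s1 = β`) and `cop` (with `E`,
`D := B`) give: for `g ∈ Y := dS X (zas (4 β))` with `l' ∤ orderOf g` and `x ∈ E` with
`x ^ (l' ^ j) ∈ B`: `⁅g, x⁆ ∈ B`. Apply `qnD` in the group `K` (all of `B`, `E`, `Y` are contained in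
`K`; `centralizer` in `K` of `E` is `≤ B`): `lns Y 2 = ⊥` (`lns_subtype`). So
`lns X (zas (4 β) + 2) = ⊥` (`lns_le_dS`, `lns_trans`) and `hPr p = zas (4 β) + 2`.
-/

namespace H78TP

open Subgroup
open scoped commutatorElement

variable {k Γ U : Type*} [Field k] [Group Γ] [AddCommGroup U] [Module k U]

theorem prC_comm_mem {G : Type*} [Group G] (B : Subgroup G) [B.Normal] (g x : G) :
    ⁅g, x⁆ ∈ B ↔ Commute (QuotientGroup.mk' B g) (QuotientGroup.mk' B x) := by
  rw [← commutatorElement_eq_one_iff_commute, ← map_commutatorElement,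
    QuotientGroup.mk'_apply, QuotientGroup.eq_one_iff]

theorem prC_solv {G : Type*} [Group G] (K : Subgroup G) (hK : K.Normal)
    (hs : Group.IsSolvable K) (α : G) (h : K ⊔ Subgroup.zpowers α = ⊤) :
    Group.IsSolvable G := by
  have h1 : ∀ x : G ⧸ K, ∃ n : ℤ, (QuotientGroup.mk' K α) ^ n = x := by
    intro x
    obtain ⟨g, rfl⟩ := QuotientGroup.mk'_surjective K x
    have hg : g ∈ K ⊔ Subgroup.zpowers α := by rw [h]; exact Subgroup.mem_top g
    rw [Subgroup.mem_sup_of_normal_left] at hg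
    obtain ⟨y, hy, z, hz, rfl⟩ := hg
    obtain ⟨n, rfl⟩ := Subgroup.mem_zpowers_iff.1 hz
    refine ⟨n, ?_⟩
    have h2 : QuotientGroup.mk' K y = 1 := by
      rw [QuotientGroup.mk'_apply, QuotientGroup.eq_one_iff]
      exact hy
    rw [map_mul, h2, one_mul, map_zpow]
  have h3 : Group.IsSolvable (G ⧸ K) := by
    apply Group.isSolvable_of_comm
    intro a b
    obtain ⟨m, rfl⟩ := h1 a
    obtain ⟨n, rfl⟩ := h1 b
    exact (Commute.refl _).zpow_zpow m n
  exact (Group.isSolvable_iff_subgroup_quotient K).2 ⟨hs, h3⟩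

/-- the case that `Q` acts trivially on `N / B` -/
theorem prC_A [Finite Γ] (K Q B E : Subgroup Γ) (hK : K.Normal) (nB : B.Normal) (nE : E.Normal)
    (hQK : Q ≤ K) (Bcen : ∀ b ∈ B, ∀ g : Γ, b * g = g * b)
    (hcE : K ⊓ centralizer (E : Set Γ) ≤ B)
    (hQ : ∀ y ∈ Q, ∀ e ∈ E, ⁅y, e⁆ ∈ B) :
    lns (Subgroup.normalClosure (Q : Set Γ)) 1 = ⊥ := by
  set X : Subgroup Γ := Subgroup.normalClosure (Q : Set Γ) with hX
  have hXK : X ≤ K := Subgroup.normalClosure_le_normal hQK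
  set M : Subgroup Γ := (centralizer ((E.map (QuotientGroup.mk' B) : Subgroup (Γ ⧸ B)) :
    Set (Γ ⧸ B))).comap (QuotientGroup.mk' B) with hM
  have hMm : ∀ g, g ∈ M ↔ ∀ e ∈ E, ⁅g, e⁆ ∈ B := by
    intro g
    rw [hM, Subgroup.mem_comap, Subgroup.mem_centralizer_iff]
    constructor
    · intro h e he
      rw [prC_comm_mem]
      exact (h _ ⟨e, he, rfl⟩).symm
    · rintro h _ ⟨e, he, rfl⟩
      exact ((prC_comm_mem B g e).1 (h e he)).symm.eq
  have hEn : (E.map (QuotientGroup.mk' B)).Normal :=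
    nE.map _ (QuotientGroup.mk'_surjective B)
  have hMn : M.Normal := by
    rw [hM]
    infer_instance
  have hXM : X ≤ M := by
    apply Subgroup.normalClosure_le_normal
    intro y hy
    exact (hMm y).2 (hQ y hy)
  have hcomm : ⁅X, X⁆ ≤ B := by
    rw [Subgroup.commutator_le]
    intro g hg x hx
    apply hcE
    refine ⟨?_, ?_⟩
    · rw [commutatorElement_def]
      exact K.mul_mem (K.mul_mem (K.mul_mem (hXK hg) (hXK hx)) (K.inv_mem (hXK hg)))
        (K.inv_mem (hXK hx))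
    · refine Subgroup.mem_centralizer_iff.2 ?_
      -- conjugation by `g` and by `x` on `E`
      have hc : ∀ e ∈ E, (g * x) * e * (g * x)⁻¹ = (x * g) * e * (x * g)⁻¹ := by
        intro e he
        have h1 := (hMm g).1 (hXM hg) e he
        have h2 := (hMm x).1 (hXM hx) e he
        have e1 : g * e * g⁻¹ = ⁅g, e⁆ * e := by rw [commutatorElement_def]; group
        have e2 : x * e * x⁻¹ = ⁅x, e⁆ * e := by rw [commutatorElement_def]; group
        calc (g * x) * e * (g * x)⁻¹ = g * (x * e * x⁻¹) * g⁻¹ := by group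
          _ = g * (⁅x, e⁆ * e) * g⁻¹ := by rw [e2]
          _ = (g * ⁅x, e⁆) * e * g⁻¹ := by group
          _ = (⁅x, e⁆ * g) * e * g⁻¹ := by rw [Bcen _ h2 g]
          _ = ⁅x, e⁆ * (g * e * g⁻¹) := by group
          _ = ⁅x, e⁆ * (⁅g, e⁆ * e) := by rw [e1]
          _ = (⁅x, e⁆ * ⁅g, e⁆) * e := by group
          _ = (⁅g, e⁆ * ⁅x, e⁆) * e := by rw [Bcen _ h2 ⁅g, e⁆]
          _ = ⁅g, e⁆ * (⁅x, e⁆ * e) := by group
          _ = ⁅g, e⁆ * (x * e * x⁻¹) := by rw [e2]
          _ = (⁅g, e⁆ * x) * e * x⁻¹ := by group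
          _ = (x * ⁅g, e⁆) * e * x⁻¹ := by rw [Bcen _ h1 x]
          _ = x * (⁅g, e⁆ * e) * x⁻¹ := by group
          _ = x * (g * e * g⁻¹) * x⁻¹ := by rw [e1]
          _ = (x * g) * e * (x * g)⁻¹ := by group
      intro e he
      have h3 := hc ((x * g)⁻¹ * e * (x * g)) (by
        have := nE.conj_mem e he (x * g)⁻¹
        rwa [inv_inv] at this)
      have h4 : (x * g) * ((x * g)⁻¹ * e * (x * g)) * (x * g)⁻¹ = e := by group
      rw [h4] at h3
      have h5 : ⁅g, x⁆ * e * ⁅g, x⁆⁻¹ = e := by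
        rw [← h3]
        conv_rhs => rw [h3]
        conv_lhs => rw [h3]
        have e3 : ⁅g, x⁆ * e * ⁅g, x⁆⁻¹ =
            (g * x) * ((x * g)⁻¹ * e * (x * g)) * (g * x)⁻¹ := by
          rw [commutatorElement_def]
          group
        rw [e3, h3]
      have h6 : ⁅g, x⁆ * e = e * ⁅g, x⁆ := by
        rw [mul_inv_eq_iff_eq_mul] at h5
        exact h5
      exact h6.symm
  rw [lns_succ, lns_zero, eq_bot_iff]
  refine (nres_le_gam X 2).trans ?_
  rw [gam_succ, gam_succ, gam_zero]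
  refine (Subgroup.commutator_mono hcomm le_rfl).trans ?_
  rw [Subgroup.commutator_le]
  intro b hb x _
  rw [Subgroup.mem_bot, commutatorElement_eq_one_iff_mul_comm]
  exact Bcen b hb x

/-- the case that `N / B` is small -/
theorem prC_B [Finite Γ] (β : ℕ) (K Q B E : Subgroup Γ) (hsΓ : Group.IsSolvable Γ)
    (hK : K.Normal) (nB : B.Normal) (nE : E.Normal) (hQK : Q ≤ K) (BE : B ≤ E) (EK : E ≤ K)
    (EE : ∀ x ∈ E, ∀ y ∈ E, ⁅x, y⁆ ∈ B) (Bcen : ∀ b ∈ B, ∀ g : Γ, b * g = g * b)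
    (hcE : K ⊓ centralizer (E : Set Γ) ≤ B) (α : Γ)
    (hidx : (E ⊓ centralizer {α}).relIndex E ≤ β)
    (hQ : ∀ y ∈ Q, ∀ x ∈ E, α * x = x * α → y * x = x * y) :
    lns (Subgroup.normalClosure (Q : Set Γ)) (zas (4 * β) + 2) = ⊥ := by
  set X : Subgroup Γ := Subgroup.normalClosure (Q : Set Γ) with hX
  have hXK : X ≤ K := Subgroup.normalClosure_le_normal hQK
  have hXn : X.Normal := Subgroup.normalClosure_normal
  set Y : Subgroup Γ := dS X (zas (4 * β)) with hY
  have hYn : Y.Normal := dS_normal hXn _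
  have hYK : Y ≤ K := (dS_le X _).trans hXK
  have key : ∀ l' : ℕ, l'.Prime → ∀ g ∈ Y, ¬ l' ∣ orderOf g → ∀ x ∈ E,
      (∃ j : ℕ, x ^ (l' ^ j) ∈ B) → ⁅g, x⁆ ∈ B := by
    intro l' hl' g hg hgo
    have : Fact l'.Prime := ⟨hl'⟩
    refine cop l' E B BE EE g (fun x hx => nE.conj_mem x hx g) (fun x hx => nB.conj_mem x hx g)
      hgo ?_
    -- the subgroup `T`
    let T : Subgroup Γ :=
      { carrier := {x | x ∈ E ∧ x ^ l' ∈ B}
        mul_mem' := by
          rintro a b ⟨ha, ha'⟩ ⟨hb, hb'⟩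
          refine ⟨E.mul_mem ha hb, ?_⟩
          have h1 := (prC_comm_mem B a b).1 (EE a ha b hb)
          have h2 : QuotientGroup.mk' B ((a * b) ^ l') = 1 := by
            rw [map_pow, map_mul, h1.mul_pow, ← map_pow, ← map_pow, QuotientGroup.mk'_apply,
              QuotientGroup.mk'_apply, (QuotientGroup.eq_one_iff _).2 ha',
              (QuotientGroup.eq_one_iff _).2 hb', one_mul]
          exact (QuotientGroup.eq_one_iff _).1 h2
        one_mem' := ⟨E.one_mem, by rw [one_pow]; exact B.one_mem⟩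
        inv_mem' := by
          rintro a ⟨ha, ha'⟩
          exact ⟨E.inv_mem ha, by rw [inv_pow]; exact B.inv_mem ha'⟩ }
    have hTm : ∀ x, x ∈ T ↔ x ∈ E ∧ x ^ l' ∈ B := fun x => Iff.rfl
    have hTE : T ≤ E := fun x hx => ((hTm x).1 hx).1
    have hBT : B ≤ T := fun x hx => (hTm x).2 ⟨BE hx, B.pow_mem hx l'⟩
    have hTn : ∀ c : Γ, ∀ x ∈ T, c * x * c⁻¹ ∈ T := by
      intro c x hx
      rw [hTm] at hx ⊢
      refine ⟨nE.conj_mem x hx.1 c, ?_⟩
      rw [conj_pow]
      exact nB.conj_mem _ hx.2 c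
    have hres := gt l' hsΓ X T B hBT (fun g _ x hx => hTn g x hx)
      (fun g _ x hx => nB.conj_mem x hx g) (fun x hx => ((hTm x).1 hx).2)
      (fun x hx y hy => EE x (hTE hx) y (hTE hy)) (Group.conjugatesOfSet (Q : Set Γ)) rfl β ?_
    · intro x hx hxl
      exact hres g hg hgo x ((hTm x).2 ⟨hx, hxl⟩)
    · intro g' hg'
      obtain ⟨y, hy, hyg⟩ := Group.mem_conjugatesOfSet_iff.1 hg'
      obtain ⟨c, rfl⟩ := isConj_iff.1 hyg
      let Cz : Γ → Subgroup Γ := fun z =>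
        T ⊓ (centralizer {QuotientGroup.mk' B z}).comap (QuotientGroup.mk' B)
      have hCz : ∀ z x, x ∈ Cz z ↔ x ∈ T ∧ ⁅z, x⁆ ∈ B := by
        intro z x
        show x ∈ T ⊓ (centralizer {QuotientGroup.mk' B z}).comap (QuotientGroup.mk' B) ↔ _
        rw [Subgroup.mem_inf, Subgroup.mem_comap, Subgroup.mem_centralizer_iff, prC_comm_mem]
        constructor
        · rintro ⟨h1, h2⟩
          exact ⟨h1, h2 _ rfl⟩
        · rintro ⟨h1, h2⟩
          refine ⟨h1, ?_⟩
          rintro _ rfl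
          exact h2
      refine ⟨Cz (c * y * c⁻¹), hCz _, ?_⟩
      have hmT : T.map (MulAut.conj c).toMonoidHom = T := by
        ext x
        constructor
        · rintro ⟨z, hz, rfl⟩
          exact hTn c z hz
        · intro hx
          refine ⟨c⁻¹ * x * c, ?_, ?_⟩
          · have := hTn c⁻¹ x hx
            rwa [inv_inv] at this
          · show c * (c⁻¹ * x * c) * c⁻¹ = x
            group
      have hmC : (Cz y).map (MulAut.conj c).toMonoidHom = Cz (c * y * c⁻¹) := by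
        ext x
        constructor
        · rintro ⟨z, hz, rfl⟩
          rw [SetLike.mem_coe, hCz] at hz
          show c * z * c⁻¹ ∈ _
          rw [hCz]
          refine ⟨hTn c z hz.1, ?_⟩
          have h1 : ⁅c * y * c⁻¹, c * z * c⁻¹⁆ = c * ⁅y, z⁆ * c⁻¹ := by
            simp only [commutatorElement_def]
            group
          rw [h1]
          exact nB.conj_mem _ hz.2 c
        · intro hx
          rw [hCz] at hx
          refine ⟨c⁻¹ * x * c, ?_, ?_⟩
          · rw [SetLike.mem_coe, hCz]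
            refine ⟨?_, ?_⟩
            · have := hTn c⁻¹ x hx.1
              rwa [inv_inv] at this
            · have h1 : ⁅y, c⁻¹ * x * c⁆ = c⁻¹ * ⁅c * y * c⁻¹, x⁆ * (c⁻¹)⁻¹ := by
                simp only [commutatorElement_def]
                group
              rw [h1]
              exact nB.conj_mem _ hx.2 c⁻¹
          · show c * (c⁻¹ * x * c) * c⁻¹ = x
            group
      have hrel : (Cz (c * y * c⁻¹)).relIndex T = (Cz y).relIndex T := by
        have h1 := Subgroup.relIndex_map_map_of_injective (f := (MulAut.conj c).toMonoidHom)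
          (Cz y) T (MulAut.conj c).injective
        rw [hmT, hmC] at h1
        exact h1
      rw [hrel]
      have hne : ∀ A A' : Subgroup Γ, A.relIndex A' ≠ 0 := by
        intro A A'
        rw [Subgroup.relIndex]
        exact Subgroup.index_ne_zero_of_finite
      have h2 : T ⊓ centralizer {α} ≤ Cz y := by
        intro x hx
        rw [hCz]
        refine ⟨hx.1, ?_⟩
        have h3 : α * x = x * α := Subgroup.mem_centralizer_iff.1 hx.2 α rfl
        rw [commutatorElement_eq_one_iff_mul_comm.2 (hQ y hy x (hTE hx.1) h3)]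
        exact B.one_mem
      have h4 : (Cz y).relIndex T ≤ β := by
        refine (Subgroup.relIndex_le_of_le_left h2 (hne _ _)).trans ?_
        rw [Subgroup.inf_relIndex_left]
        refine (Subgroup.relIndex_le_of_le_right hTE (hne _ _)).trans ?_
        rw [Subgroup.inf_relIndex_left] at hidx
        exact hidx
      refine h4.trans ((Nat.lt_two_pow_self).le.trans ?_)
      exact Nat.pow_le_pow_left hl'.two_le β
  -- the last step in the group `K`
  have hB' : (B.subgroupOf K).Normal := nB.subgroupOf K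
  have hE' : (E.subgroupOf K).Normal := nE.subgroupOf K
  have hY' : (Y.subgroupOf K).Normal := hYn.subgroupOf K
  have hq := qnD (B.subgroupOf K) (E.subgroupOf K) (Y.subgroupOf K) hB' hE' hY'
    (fun x hx => BE hx)
    (fun x hx y hy => Subtype.ext (Bcen _ hx _))
    (fun x hx y hy => EE _ hx _ hy)
    (by
      intro x hx
      show (x : Γ) ∈ B
      apply hcE
      refine ⟨x.2, Subgroup.mem_centralizer_iff.2 fun e he => ?_⟩
      exact congrArg Subtype.val (Subgroup.mem_centralizer_iff.1 hx ⟨e, EK he⟩ he))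
    (by
      intro x _
      refine Subgroup.mem_centralizer_iff.2 fun b hb => ?_
      exact Subtype.ext (Bcen _ hb _))
    (by
      intro l' hl' g hg hgo x hx hj
      obtain ⟨j, hj⟩ := hj
      refine key l' hl' (g : Γ) hg ?_ (x : Γ) hx ⟨j, hj⟩
      rw [Subgroup.orderOf_coe]
      exact hgo)
  have hYl : lns Y 2 = ⊥ := by
    have h1 := lns_subtype K (Y.subgroupOf K) 2
    rw [hq, Subgroup.map_bot, Subgroup.map_subgroupOf_eq_of_le hYK] at h1
    exact h1.symm
  exact lns_trans (lns_le_dS X (zas (4 * β))) hYl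

theorem prC [IsAlgClosed k] [Finite Γ] [Module.Finite k U] (l p q : ℕ) [Fact l.Prime]
    [Fact p.Prime] [Fact q.Prime] [CharP k l] (hlp : p ≠ l) (hlq : q ≠ l) (hpq : q ≠ p)
    (τ : Representation k Γ U)
    {K Q : Subgroup Γ} {α : Γ} (h : TD p q K Q α) (hinj : Function.Injective τ)
    (hirr : ∀ S : Submodule k U, (∀ g, ∀ w ∈ S, τ g w ∈ S) → S = ⊥ ∨ S = ⊤)
    (hC : ∀ u, τ α u = u → ∀ y ∈ Q, τ y u = u) (u₀ : U) (hu₀ : u₀ ≠ 0) (hu₀' : τ α u₀ = u₀)
    (hprim : ∀ B₀ : Subgroup Γ, B₀.Normal → (∀ x ∈ B₀, ∀ y ∈ B₀, x * y = y * x) →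
      ∀ b ∈ B₀, ∃ c : k, ∀ w, τ b w = c • w) :
    lns (Subgroup.normalClosure (Q : Set Γ)) (hPr p) = ⊥ := by
  have hK : K.Normal := h.nK
  have hsΓ : Group.IsSolvable Γ := prC_solv K hK h.sK α h.top
  obtain ⟨B, E, nB, nE, BE, EK, Bc, EE, BcE, hcE, -⟩ := qf K hK h.sK
  have hsc := hprim B nB Bc
  classical
  let lam : Γ → k := fun b => if hb : b ∈ B then (hsc b hb).choose else 0
  have sc : ∀ b ∈ B, ∀ w : U, τ b w = lam b • w := by
    intro b hb w
    show τ b w = (if hb : b ∈ B then (hsc b hb).choose else 0) • w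
    rw [dif_pos hb]
    exact (hsc b hb).choose_spec w
  have hlam : ∀ b ∈ B, lam b = 1 → b = 1 := by
    intro b hb h1
    apply hinj
    rw [map_one]
    apply LinearMap.ext
    intro w
    rw [sc b hb w, h1, one_smul]
    rfl
  have Bcen : ∀ b ∈ B, ∀ g : Γ, b * g = g * b := by
    intro b hb g
    apply hinj
    apply LinearMap.ext
    intro w
    rw [map_mul, map_mul, Module.End.mul_apply, Module.End.mul_apply, sc b hb, sc b hb, map_smul]
  have hne : (⊤ : Submodule k U) ≠ ⊥ := by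
    intro hh
    apply hu₀
    have : u₀ ∈ (⊤ : Submodule k U) := Submodule.mem_top
    rw [hh, Submodule.mem_bot] at this
    exact this
  obtain ⟨D, L0⟩ := loc_exists τ ⊤ B E lam hne BE EE BcE (fun _ _ _ _ => Submodule.mem_top)
    (fun b hb v _ => sc b hb v)
  have hDB : D = B := by
    refine le_antisymm ?_ (loc_BD L0)
    intro e he
    obtain ⟨he1, he2⟩ := (L0.rad e).1 he
    apply hcE
    refine ⟨EK he1, Subgroup.mem_centralizer_iff.2 fun e' he' => ?_⟩
    have h1 := hlam _ (EE e he1 e' he') (he2 e' he')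
    exact (commutatorElement_eq_one_iff_mul_comm.1 h1).symm
  have L : Loc τ ⊤ B E B lam := by
    rw [hDB] at L0
    exact L0
  have hpE : ¬ p ∣ Nat.card E := fun hd => h.pK (hd.trans (Subgroup.card_dvd_of_le EK))
  obtain ⟨N, BN, NE, hNinv, hNfpf, hdec, hcN, hidx⟩ := prA p E B α h.ap BE EE BcE
    (fun b hb => (Bcen b hb α).symm) (fun e he => nE.conj_mem e he α) hpE
  have hyc : ∀ y ∈ Q, ∀ x ∈ E, α * x = x * α → y * x = x * y := by
    intro y hy
    exact prB τ B E lam L hlam α y (h.Qa y hy) (fun e he => nE.conj_mem e he y)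
      (fun u hu => hC u hu y hy) u₀ hu₀ hu₀' N NE hdec hcN
  have L' : Loc τ ⊤ B N B lam := by
    refine ⟨hne, BN, fun x hx y hy => EE x (NE hx) y (NE hy), fun b _ e _ => Bcen b (by assumption) e,
      fun _ _ _ _ => Submodule.mem_top, fun b hb v _ => sc b hb v, fun x => ?_⟩
    constructor
    · intro hx
      refine ⟨BN hx, fun n _ => ?_⟩
      rw [commutatorElement_eq_one_iff_mul_comm.2 (Bcen x hx n)]
      exact loc_one L
    · rintro ⟨hx, hx2⟩
      rw [L.rad]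
      refine ⟨NE hx, fun e he => ?_⟩
      obtain ⟨c, hc, n, hn, rfl, hαc⟩ := hdec e he
      have h1 := hcN c hc hαc
      have h2 : ⁅x, c * n⁆ = ⁅x, n⁆ := by
        have h3 : c * x = x * c := h1 x hx
        have h4 : ⁅x, c * n⁆ = c * ⁅x, n⁆ * c⁻¹ := by
          rw [commutatorElement_def, commutatorElement_def]
          calc x * (c * n) * x⁻¹ * (c * n)⁻¹ = (x * c) * n * x⁻¹ * n⁻¹ * c⁻¹ := by group
            _ = (c * x) * n * x⁻¹ * n⁻¹ * c⁻¹ := by rw [h3]
            _ = _ := by group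
        rw [h4, ← Bcen _ (EE x (NE hx) n (NE hn)) c, mul_inv_cancel_right]
      rw [h2]
      exact hx2 n hn
  by_cases hA : ∀ y ∈ Q, ∀ x ∈ N, ⁅y, x⁆ ∈ B
  · refine lns_of_le (a := 1) (by unfold hPr; omega)
      (prC_A K Q B E hK nB nE h.QK Bcen hcE fun y hy e he => ?_)
    obtain ⟨c, hc, n, hn, rfl, hαc⟩ := hdec e he
    have h1 := hyc y hy c hc hαc
    have h4 : ⁅y, c * n⁆ = c * ⁅y, n⁆ * c⁻¹ := by
      rw [commutatorElement_def, commutatorElement_def]
      calc y * (c * n) * y⁻¹ * (c * n)⁻¹ = (y * c) * n * y⁻¹ * n⁻¹ * c⁻¹ := by group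
        _ = (c * y) * n * y⁻¹ * n⁻¹ * c⁻¹ := by rw [h1]
        _ = _ := by group
    rw [h4]
    exact nB.conj_mem _ (hA y hy n hn) c
  · push Not at hA
    obtain ⟨y₀, hy₀, x₀, hx₀, hyx⟩ := hA
    have hpk : (p : k) ≠ 0 := by
      rw [Ne, CharP.cast_eq_zero_iff k l p]
      intro hd
      exact hlp ((Nat.prime_dvd_prime_iff_eq Fact.out Fact.out).1 hd).symm
    have hqk : (q : k) ≠ 0 := by
      rw [Ne, CharP.cast_eq_zero_iff k l q]
      intro hd
      exact hlq ((Nat.prime_dvd_prime_iff_eq Fact.out Fact.out).1 hd).symm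
    have hyp : ∃ e, y₀ ^ (q ^ e) = 1 := by
      obtain ⟨e, he⟩ := h.Qgr ⟨y₀, hy₀⟩
      exact ⟨e, congrArg Subtype.val he⟩
    have hβ := coreG τ B N lam L' p q hpq hpk hqk α y₀ h.ap hyp (h.Qa y₀ hy₀)
      (hNinv α rfl (fun e he => nE.conj_mem e he α) (fun b hb => nB.conj_mem b hb α))
      (hNinv y₀ (h.Qa y₀ hy₀).symm (fun e he => nE.conj_mem e he y₀)
        (fun b hb => nB.conj_mem b hb y₀))
      (fun b hb => nB.conj_mem b hb α) (fun b hb => nB.conj_mem b hb y₀) hNfpf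
      (fun u hu => hC u hu y₀ hy₀) u₀ hu₀ hu₀' ⟨x₀, hx₀, hyx⟩
    rw [← hidx] at hβ
    exact prC_B (64 * (p - 1) ^ 2) K Q B E hsΓ hK nB nE h.QK BE EK EE Bcen hcE α hβ hyc

end H78TP
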