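import Pool.Agent.H78.TP.VzA
import Pool.Agent.H78.TP.Imp
import Pool.Agent.H78.TP.PrC

/-!
[H78 TP CLV] Claim V: the induction on the dimension (45-60 min).

PROOF. Induction on `d`. `d = 0`: `U = 0`, everything is `1`. Step `d + 1`. If `U = 0` clear. Let
`π : Γ →* Γ' = Γ ⧸ τ.ker` (kernel of `τ` as a monoid homomorphism `Γ →* Module.End k U`) and
`τ' : Representation k Γ' U` injective with `τ' (π g) = τ g`. `td_map`; `τ'` is irreducible; `hC`
for `Q.map π`. `(normalClosure Q).map π = normalClosure (Q.map π)` (`Subgroup.map_normalClosure`)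
and `lns_map`: it suffices that `τ' g' = 1` for `g' ∈ lns (normalClosure (Q.map π)) (hV p)`.
(1) `C_U(α) = 0`: `vzA` gives `lns ... (1 + hQ p 0) = ⊥`, `lns_of_le`.
(2) there is `u₀ ≠ 0` with `τ α u₀ = u₀`: if all abelian normal subgroups of `Γ'` act by scalars:
`prC` and `lns_of_le`; otherwise `imp` with `ih`.
-/

namespace H78TP

open Subgroup
open scoped commutatorElement

universe u v

private theorem clV_inj {k : Type v} [Field k] [IsAlgClosed k] (l p q : ℕ) [Fact l.Prime]
    [Fact p.Prime] [Fact q.Prime] [CharP k l] (hlp : p ≠ l) (hlq : q ≠ l) (hpq : q ≠ p)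
    (d : ℕ) (ih : ClVP.{u, v} k p q d) {Γ : Type u} [Group Γ] [Finite Γ] {K Q : Subgroup Γ}
    {α : Γ} {U : Type v} [AddCommGroup U] [Module k U] [Module.Finite k U]
    (τ : Representation k Γ U) (h : TD p q K Q α) (hd : Module.finrank k U ≤ d + 1)
    (hinj : Function.Injective τ)
    (hirr : ∀ S : Submodule k U, (∀ g, ∀ w ∈ S, τ g w ∈ S) → S = ⊥ ∨ S = ⊤)
    (hC : ∀ u, τ α u = u → ∀ y ∈ Q, τ y u = u) (hU : ∃ u : U, u ≠ 0) :
    ∀ g ∈ lns (Subgroup.normalClosure (Q : Set Γ)) (hV p), τ g = 1 := by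
  by_cases hC0 : ∀ u, τ α u = u → u = 0
  · have h1 := vzA l p q hlp τ h hinj hirr hU hC0
    have h2 := lns_of_le (b := hV p) (by unfold hV; omega) h1
    intro g hg
    rw [h2, Subgroup.mem_bot] at hg
    rw [hg, map_one]
  · push Not at hC0
    obtain ⟨u₀, hu₀, hne⟩ := hC0
    by_cases hprim : ∀ B₀ : Subgroup Γ, B₀.Normal → (∀ x ∈ B₀, ∀ y ∈ B₀, x * y = y * x) →
      ∀ b ∈ B₀, ∃ c : k, ∀ w, τ b w = c • w
    · have h1 := prC l p q hlp hlq hpq τ h hinj hirr hC u₀ hne hu₀ hprim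
      have h2 := lns_of_le (b := hV p) (by unfold hV; omega) h1
      intro g hg
      rw [h2, Subgroup.mem_bot] at hg
      rw [hg, map_one]
    · rw [not_forall] at hprim
      obtain ⟨B₀, hprim⟩ := hprim
      rw [not_forall] at hprim
      obtain ⟨hB, hprim⟩ := hprim
      rw [not_forall] at hprim
      obtain ⟨hBc, hprim⟩ := hprim
      exact imp l p q d hpq ih τ h hd hinj hirr hC ⟨u₀, hne, hu₀⟩ B₀ hB hBc hprim

theorem clV {k : Type v} [Field k] [IsAlgClosed k] (l p q : ℕ) [Fact l.Prime]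
    [Fact p.Prime] [Fact q.Prime] [CharP k l] (hlp : p ≠ l) (hlq : q ≠ l) (hpq : q ≠ p)
    (d : ℕ) : ClVP.{u, v} k p q d := by
  induction d with
  | zero =>
    intro Γ _ _ K Q α U _ _ _ τ h hd hirr hC g hg
    have hs : Subsingleton U := Module.finrank_zero_iff.1 (Nat.le_zero.1 hd)
    ext w
    exact Subsingleton.elim _ _
  | succ d ih =>
    intro Γ _ _ K Q α U _ _ _ τ h hd hirr hC g hg
    by_cases hU : ∃ u : U, u ≠ 0
    swap
    · push Not at hU
      ext w
      rw [hU (τ g w), hU ((1 : Module.End k U) w)]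
    set N : Subgroup Γ := MonoidHom.ker τ with hN
    let τ' : Representation k (Γ ⧸ N) U := QuotientGroup.lift N τ (le_of_eq hN)
    have hτ' : ∀ x : Γ, τ' (QuotientGroup.mk' N x) = τ x := fun x => rfl
    have hinj : Function.Injective τ' := by
      intro x y hxy
      obtain ⟨a, rfl⟩ := QuotientGroup.mk'_surjective N x
      obtain ⟨b, rfl⟩ := QuotientGroup.mk'_surjective N y
      rw [hτ', hτ'] at hxy
      have h1 : τ (a⁻¹ * b) = 1 := by
        rw [map_mul, ← hxy, ← map_mul, inv_mul_cancel, map_one]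
      exact QuotientGroup.eq.2 h1
    have hirr' : ∀ S : Submodule k U, (∀ g, ∀ w ∈ S, τ' g w ∈ S) → S = ⊥ ∨ S = ⊤ :=
      fun S hS => hirr S (fun g w hw => hS (QuotientGroup.mk' N g) w hw)
    have hC' : ∀ u, τ' (QuotientGroup.mk' N α) u = u →
        ∀ y ∈ Q.map (QuotientGroup.mk' N), τ' y u = u := by
      rintro u hu y ⟨y, hy, rfl⟩
      exact hC u hu y hy
    have h' := td_map (QuotientGroup.mk' N) (QuotientGroup.mk'_surjective N) h
    have hmain := clV_inj l p q hlp hlq hpq d ih τ' h' hd hinj hirr' hC' hU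
    have hm : QuotientGroup.mk' N g ∈
        lns (Subgroup.normalClosure ((Q.map (QuotientGroup.mk' N) : Subgroup (Γ ⧸ N)) :
          Set (Γ ⧸ N))) (hV p) := by
      have e := lns_map (QuotientGroup.mk' N) (Subgroup.normalClosure (Q : Set Γ)) (hV p)
      rw [Subgroup.map_normalClosure _ _ (QuotientGroup.mk'_surjective N)] at e
      rw [Subgroup.coe_map, ← e]
      exact ⟨g, hg, rfl⟩
    exact hmain _ hm

end H78TP
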