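import Pool.Agent.H78.TP.Base

/-!
[H78 TP UNI] Two lemmas on unipotent elements (30-45 min).

PROOF. `uni2`: by `h1`, `h2` `n = ρ g - 1` satisfies `n ∘ n = 0`, so `(ρ g) ^ m = 1 + m • n` for
all `m`; for `m = orderOf g` we get `(m : k) • n = 0`, so `n = 0`.
`unip`: let `l` be the characteristic (`CharP k l`, `l` prime) and `A` a commutative finite
`l`-group acting on `V ≠ ⊥`. For `a ∈ A`, `a ^ (l ^ j) = 1`, so on `V` `(ρ a - 1) ^ (l ^ j) = 0`
(`sub_pow_expChar_pow_of_commute`). The commuting nilpotent operators `ρ a - 1`, `a ∈ A`, have a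
common nonzero kernel vector: choose a nonzero `A`-invariant submodule `V₁ ≤ V` of minimal
dimension; for `a ∈ A` the kernel of `ρ a - 1` on `V₁` is `A`-invariant (commutativity) and nonzero
(nilpotency), so it is `V₁`.
-/

namespace H78TP

open Subgroup
open scoped commutatorElement

variable {k K W : Type*} [Field k] [Group K] [AddCommGroup W] [Module k W]

theorem uni2 (ρ : Representation k K W) (V : Submodule k W) (g : K)
    (h1 : ∀ v ∈ V, ρ g v = v) (h2 : ∀ v, ρ g v - v ∈ V) (hg : (orderOf g : k) ≠ 0) :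
    ρ g = 1 := by
  have hpow : ∀ (m : ℕ) (v : W), ρ (g ^ m) v = v + (m : k) • (ρ g v - v) := by
    intro m
    induction m with
    | zero =>
      intro v
      rw [pow_zero, map_one, Nat.cast_zero, zero_smul, add_zero]
      rfl
    | succ m ih =>
      intro v
      have e1 : ρ (g ^ (m + 1)) v = ρ g (ρ (g ^ m) v) := by
        rw [pow_succ', map_mul]
        rfl
      rw [e1, ih v, map_add, map_smul, h1 _ (h2 v), Nat.cast_succ, add_smul, one_smul]
      abel
  apply LinearMap.ext
  intro v
  have h3 := hpow (orderOf g) v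
  rw [pow_orderOf_eq_one, map_one] at h3
  have h4 : v = v + (orderOf g : k) • (ρ g v - v) := h3
  have h5 : (orderOf g : k) • (ρ g v - v) = 0 := by
    have h6 := left_eq_add.1 h4
    exact h6
  rcases smul_eq_zero.1 h5 with h6 | h6
  · exact absurd h6 hg
  · exact sub_eq_zero.1 h6

theorem unip [Finite K] [Module.Finite k W] (l : ℕ) [Fact l.Prime] [CharP k l]
    (ρ : Representation k K W) (A : Subgroup K) (hA : ∀ x ∈ A, ∀ y ∈ A, x * y = y * x)
    (hAl : IsPGroup l A) (V : Submodule k W) (hV : V ≠ ⊥) (hinv : ∀ a ∈ A, ∀ v ∈ V, ρ a v ∈ V) :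
    ∃ v ∈ V, v ≠ 0 ∧ ∀ a ∈ A, ρ a v = v := by
  obtain ⟨v, hv, hv0⟩ := (Submodule.ne_bot_iff V).1 hV
  letI : Module (ZMod l) W := Module.compHom W (ZMod.castHom (dvd_refl l) k)
  have hsm : ∀ (c : ZMod l) (x : W), c • x = (ZMod.castHom (dvd_refl l) k c) • x := fun _ _ => rfl
  obtain ⟨S, hSd⟩ : ∃ S : Submodule (ZMod l) W,
      S = Submodule.span (ZMod l) (Set.range fun a : A => ρ (a : K) v) := ⟨_, rfl⟩
  have hfinS : Finite S := by
    rw [hSd]
    haveI : Module.Finite (ZMod l) (Submodule.span (ZMod l) (Set.range fun a : A => ρ (a : K) v)) :=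
      FiniteDimensional.span_of_finite _ (Set.finite_range _)
    exact Module.finite_of_finite (ZMod l)
  have hSV : ∀ x ∈ S, x ∈ V := by
    intro x hx
    rw [hSd] at hx
    induction hx using Submodule.span_induction with
    | mem x h =>
      obtain ⟨a, rfl⟩ := h
      exact hinv a a.2 v hv
    | zero => exact V.zero_mem
    | add x y _ _ h1 h2 => exact V.add_mem h1 h2
    | smul c x _ h1 =>
      rw [hsm]
      exact V.smul_mem _ h1
  have hact : ∀ a : A, ∀ x ∈ S, ρ (a : K) x ∈ S := by
    intro a x hx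
    rw [hSd] at hx ⊢
    induction hx using Submodule.span_induction with
    | mem x h =>
      obtain ⟨b, rfl⟩ := h
      apply Submodule.subset_span
      refine ⟨a * b, ?_⟩
      show ρ ((a * b : A) : K) v = ρ (a : K) (ρ (b : K) v)
      rw [Subgroup.coe_mul, map_mul]
      rfl
    | zero =>
      rw [map_zero]
      exact Submodule.zero_mem _
    | add x y _ _ h1 h2 =>
      rw [map_add]
      exact Submodule.add_mem _ h1 h2
    | smul c x _ h1 =>
      rw [hsm, map_smul, ← hsm]
      exact Submodule.smul_mem _ _ h1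
  letI : MulAction A S :=
    { smul := fun a s => ⟨ρ (a : K) s.1, hact a s.1 s.2⟩
      one_smul := fun s => by
        apply Subtype.ext
        show ρ ((1 : A) : K) s.1 = s.1
        rw [Subgroup.coe_one, map_one]
        rfl
      mul_smul := fun a b s => by
        apply Subtype.ext
        show ρ ((a * b : A) : K) s.1 = ρ (a : K) (ρ (b : K) s.1)
        rw [Subgroup.coe_mul, map_mul]
        rfl }
  have hvS : v ∈ S := by
    rw [hSd]
    apply Submodule.subset_span
    refine ⟨1, ?_⟩
    show ρ ((1 : A) : K) v = v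
    rw [Subgroup.coe_one, map_one]
    rfl
  have hnt : Nontrivial S := ⟨⟨⟨v, hvS⟩, 0, fun h => hv0 (congrArg Subtype.val h)⟩⟩
  have hcard : l ∣ Nat.card S := by
    have h1 : Nat.card S = l ^ Module.finrank (ZMod l) S := by
      rw [Module.natCard_eq_pow_finrank (K := ZMod l), Nat.card_zmod]
    rw [h1]
    exact dvd_pow_self l (Module.finrank_pos (R := ZMod l) (M := S)).ne'
  have hfix : (0 : S) ∈ MulAction.fixedPoints A S := by
    intro a
    apply Subtype.ext
    show ρ (a : K) (0 : W) = 0
    exact map_zero _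
  obtain ⟨b, hb, hb0⟩ := hAl.exists_fixed_point_of_prime_dvd_card_of_fixed_point S hcard hfix
  refine ⟨b.1, hSV _ b.2, fun h => hb0 (Subtype.ext h.symm), fun a ha => ?_⟩
  exact congrArg Subtype.val (hb ⟨a, ha⟩)

end H78TP
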