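import Pool.Agent.H78.TP.ClV
import Pool.Agent.H78.TP.Uni

/-!
[H78 TP CLV2] Claim V for arbitrary modules (45 min).

PROOF. Induction on `finrank U`. If there is an invariant submodule `S ≠ ⊥, ⊤`: the hypothesis `hC`
holds for `S`, and for `U ⧸ S`: if `τ α u - u ∈ S` let `u' = p⁻¹ ∑ s < p, τ (α ^ s) u`; `τ α u' = u'`,
`u' - u ∈ S`, so `τ y u' = u'` and `τ y u - u ∈ S` for `y ∈ Q`. By induction `g` acts trivially on
`S` and `U ⧸ S`, and `τ g = 1` by `uni2`. If `U` is irreducible (or `0`): `clV`.
-/

namespace H78TP

open Subgroup
open scoped commutatorElement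

universe u v

theorem clV2 {k : Type v} [Field k] [IsAlgClosed k] (l p q : ℕ) [Fact l.Prime]
    [Fact p.Prime] [Fact q.Prime] [CharP k l] (hlp : p ≠ l) (hlq : q ≠ l) (hpq : q ≠ p)
    {Γ : Type u} [Group Γ] [Finite Γ] {K Q : Subgroup Γ} {α : Γ} {U : Type v}
    [AddCommGroup U] [Module k U] [Module.Finite k U] (τ : Representation k Γ U)
    (h : TD p q K Q α) (hC : ∀ u, τ α u = u → ∀ y ∈ Q, τ y u = u) :
    ∀ g ∈ lns (Subgroup.normalClosure (Q : Set Γ)) (hV p), (orderOf g : k) ≠ 0 →
      τ g = 1 := by
  have hpk : (p : k) ≠ 0 := by
    intro h1
    have h2 := (CharP.cast_eq_zero_iff k l p).1 h1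
    exact hlp ((Nat.prime_dvd_prime_iff_eq (Fact.out : l.Prime) (Fact.out : p.Prime)).1 h2).symm
  have key : ∀ (d : ℕ) (U : Type v) [AddCommGroup U] [Module k U] [Module.Finite k U]
      (τ : Representation k Γ U), Module.finrank k U ≤ d →
      (∀ u, τ α u = u → ∀ y ∈ Q, τ y u = u) →
      ∀ g ∈ lns (Subgroup.normalClosure (Q : Set Γ)) (hV p), (orderOf g : k) ≠ 0 →
        τ g = 1 := by
    intro d
    induction d with
    | zero =>
      intro U _ _ _ τ hd _ g _ _
      have h1 : Subsingleton U := Module.finrank_zero_iff.1 (Nat.le_zero.1 hd)
      exact LinearMap.ext fun v => Subsingleton.elim _ _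
    | succ d ih =>
      intro U _ _ _ τ hd hC g hg hgo
      by_cases hirr : ∀ S : Submodule k U, (∀ g, ∀ w ∈ S, τ g w ∈ S) → S = ⊥ ∨ S = ⊤
      · exact clV l p q hlp hlq hpq (d + 1) Γ K Q α U τ h hd hirr hC g hg
      · push Not at hirr
        obtain ⟨S, hS, hS0, hS1⟩ := hirr
        have hτ1 : ∀ v, τ 1 v = v := by
          intro v
          rw [map_one]
          rfl
        let τS : Representation k Γ S :=
          { toFun := fun g => (τ g).restrict (p := S) (q := S) (hS g)
            map_one' := by
              ext v
              exact hτ1 _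
            map_mul' := by
              intro a b
              ext v
              change τ (a * b) (v : U) = τ a (τ b (v : U))
              rw [map_mul]
              rfl }
        let τQ : Representation k Γ (U ⧸ S) :=
          { toFun := fun g => S.mapQ S (τ g) (hS g)
            map_one' := by
              refine LinearMap.ext fun v => ?_
              obtain ⟨v, rfl⟩ := S.mkQ_surjective v
              change S.mkQ (τ 1 v) = S.mkQ v
              rw [hτ1]
            map_mul' := by
              intro a b
              refine LinearMap.ext fun v => ?_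
              obtain ⟨v, rfl⟩ := S.mkQ_surjective v
              change S.mkQ (τ (a * b) v) = S.mkQ (τ a (τ b v))
              rw [map_mul]
              rfl }
        have hτQ : ∀ g v, τQ g (S.mkQ v) = S.mkQ (τ g v) := fun _ _ => rfl
        have hS0' : 0 < Module.finrank k S := by
          rw [Nat.pos_iff_ne_zero]
          intro h1
          exact hS0 (Submodule.finrank_eq_zero.1 h1)
        have hdS : Module.finrank k S ≤ d := by
          have h1 := Submodule.finrank_lt hS1
          omega
        have hdQ : Module.finrank k (U ⧸ S) ≤ d := by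
          have h1 := Submodule.finrank_quotient_add_finrank S
          omega
        have h1 := ih S τS hdS (by
          intro u hu y hy
          apply Subtype.ext
          exact hC (u : U) (congrArg Subtype.val hu) y hy) g hg hgo
        have h2 := ih (U ⧸ S) τQ hdQ (by
          intro u hu y hy
          obtain ⟨u, rfl⟩ := S.mkQ_surjective u
          have h3 : τ α u - u ∈ S := by
            rw [hτQ] at hu
            exact (Submodule.Quotient.eq S).1 hu
          have h4 : ∀ s : ℕ, τ (α ^ s) u - u ∈ S := by
            intro s
            induction s with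
            | zero =>
              rw [pow_zero, hτ1, sub_self]
              exact S.zero_mem
            | succ s ihs =>
              have h5 : τ (α ^ (s + 1)) u - u = τ α (τ (α ^ s) u - u) + (τ α u - u) := by
                rw [pow_succ', map_mul, Module.End.mul_apply, map_sub]
                abel
              rw [h5]
              exact S.add_mem (hS α _ ihs) h3
          have h5 : τ α ((p : k)⁻¹ • ∑ s ∈ Finset.range p, τ (α ^ s) u) =
              (p : k)⁻¹ • ∑ s ∈ Finset.range p, τ (α ^ s) u := by
            rw [map_smul, map_sum]
            refine congrArg (fun z => (p : k)⁻¹ • z) ?_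
            have h6 : ∀ s ∈ Finset.range p, τ α (τ (α ^ s) u) = τ (α ^ (s + 1)) u := by
              intro s _
              rw [← Module.End.mul_apply, ← map_mul, pow_succ']
            rw [Finset.sum_congr rfl h6]
            have h7 := Finset.sum_range_succ' (fun s => τ (α ^ s) u) p
            have h8 := Finset.sum_range_succ (fun s => τ (α ^ s) u) p
            rw [h8] at h7
            have h9 : τ (α ^ p) u = τ (α ^ 0) u := by rw [h.ap, pow_zero]
            rw [h9] at h7
            exact (add_right_cancel h7).symm
          have h6 : (p : k)⁻¹ • ∑ s ∈ Finset.range p, τ (α ^ s) u - u ∈ S := by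
            have h7 : (p : k)⁻¹ • ∑ s ∈ Finset.range p, τ (α ^ s) u - u =
                (p : k)⁻¹ • ∑ s ∈ Finset.range p, (τ (α ^ s) u - u) := by
              rw [Finset.sum_sub_distrib, smul_sub, Finset.sum_const, Finset.card_range,
                ← Nat.cast_smul_eq_nsmul k, smul_smul, inv_mul_cancel₀ hpk, one_smul]
            rw [h7]
            exact S.smul_mem _ (S.sum_mem fun s _ => h4 s)
          have h7 := hC _ h5 y hy
          have h8 : τ y u - u ∈ S := by
            have h9 : τ y u - u = ((p : k)⁻¹ • ∑ s ∈ Finset.range p, τ (α ^ s) u - u) -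
                τ y ((p : k)⁻¹ • ∑ s ∈ Finset.range p, τ (α ^ s) u - u) := by
              rw [map_sub, h7]
              abel
            rw [h9]
            exact S.sub_mem h6 (hS y _ h6)
          rw [hτQ]
          exact (Submodule.Quotient.eq S).2 h8) g hg hgo
        refine uni2 τ S g ?_ ?_ hgo
        · intro v hv
          exact congrArg (fun f : Module.End k S => ((f ⟨v, hv⟩ : S) : U)) h1
        · intro v
          have h3 : S.mkQ (τ g v) = S.mkQ v := by
            rw [← hτQ, h2]
            rfl
          exact (Submodule.Quotient.eq S).1 h3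
  exact key (Module.finrank k U) U τ le_rfl hC

end H78TP
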