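import Pool.Agent.H78.TP.Base

/-!
[H78 TP QA2] Extension of the field, fixed points (30-45 min).

PROOF. `U = k ⊗[ZMod p] V`, `τ g = (ρ g).baseChange k`; `τ g = 1 ↔ ρ g = 1` as in `qa` (see `Qa.lean`).
If `ρ y v = v` for all `v` with `ρ x v = v`, then `ρ y - 1` vanishes on the kernel of `ρ x - 1`, so
there is a linear map `h` with `ρ y - 1 = h ∘ (ρ x - 1)` (`LinearMap.exists_extend` or
`LinearMap.ker_le_ker_iff_range_le`/factorisation over a field), hence
`τ y - 1 = (h.baseChange k) ∘ (τ x - 1)`, so `τ y u = u` if `τ x u = u`.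
-/

namespace H78TP

open Subgroup
open scoped commutatorElement TensorProduct

universe u

theorem qa2 (p : ℕ) [Fact p.Prime] {Γ : Type*} [Group Γ] (V : Type u) [AddCommGroup V]
    [Module (ZMod p) V] [Finite V] (ρ : Representation (ZMod p) Γ V) (k : Type) [Field k]
    [Algebra (ZMod p) k] :
    ∃ (U : Type u) (_ : AddCommGroup U) (_ : Module k U) (_ : Module.Finite k U)
      (τ : Representation k Γ U), (∀ g, τ g = 1 ↔ ρ g = 1) ∧
      ∀ x y : Γ, (∀ v, ρ x v = v → ρ y v = v) → ∀ u, τ x u = u → τ y u = u := by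
  classical
  let T : (V →ₗ[ZMod p] V) →ₗ[ZMod p] (k ⊗[ZMod p] V →ₗ[k] k ⊗[ZMod p] V) :=
    TensorProduct.AlgebraTensorModule.lTensor k k
  have hT1 : ∀ f : V →ₗ[ZMod p] V, ∀ v : V, T f ((1 : k) ⊗ₜ[ZMod p] v) =
      (1 : k) ⊗ₜ[ZMod p] (f v) := fun f v => rfl
  have hTo : T 1 = 1 := TensorProduct.AlgebraTensorModule.lTensor_id
  have hTm : ∀ f g : V →ₗ[ZMod p] V, T (f * g) = T f * T g := by
    intro f g
    exact TensorProduct.AlgebraTensorModule.lTensor_comp f g
  have hinj : Function.Injective (fun v : V => (1 : k) ⊗ₜ[ZMod p] v) :=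
    Module.Flat.tensorProduct_mk_injective (R := ZMod p) V k
  let τ : Representation k Γ (k ⊗[ZMod p] V) :=
    { toFun := fun g => T (ρ g)
      map_one' := by rw [map_one]; exact hTo
      map_mul' := by intro g h; rw [map_mul]; exact hTm _ _ }
  have hτ : ∀ g, τ g = T (ρ g) := fun g => rfl
  haveI : Module.Finite (ZMod p) V := inferInstance
  refine ⟨k ⊗[ZMod p] V, inferInstance, inferInstance, inferInstance, τ, ?_, ?_⟩
  · intro g
    constructor
    · intro h
      rw [hτ] at h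
      refine LinearMap.ext fun v => ?_
      apply hinj
      show (1 : k) ⊗ₜ[ZMod p] (ρ g v) = (1 : k) ⊗ₜ[ZMod p] v
      rw [← hT1, h]
      rfl
    · intro h
      rw [hτ, h, hTo]
  · intro x y hxy u hu
    have h1 : ∀ v ∈ LinearMap.ker (ρ x - 1), (ρ y - 1) v = 0 := by
      intro v hv
      rw [LinearMap.mem_ker, LinearMap.sub_apply, sub_eq_zero] at hv
      rw [LinearMap.sub_apply, sub_eq_zero]
      exact hxy v hv
    obtain ⟨f, hf⟩ : ∃ f : V →ₗ[ZMod p] V, ρ y - 1 = f * (ρ x - 1) := by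
      obtain ⟨f, hf⟩ := LinearMap.exists_extend
        (((LinearMap.ker (ρ x - 1)).liftQ (ρ y - 1) h1).comp
          ((ρ x - 1).quotKerEquivRange.symm : LinearMap.range (ρ x - 1) →ₗ[ZMod p] _))
      refine ⟨f, LinearMap.ext fun v => ?_⟩
      have h2 := congrArg (fun m : LinearMap.range (ρ x - 1) →ₗ[ZMod p] V =>
        m ⟨(ρ x - 1) v, LinearMap.mem_range_self _ v⟩) hf
      have h3 : f ((ρ x - 1) v) = (LinearMap.ker (ρ x - 1)).liftQ (ρ y - 1) h1
          ((ρ x - 1).quotKerEquivRange.symm ⟨(ρ x - 1) v, LinearMap.mem_range_self _ v⟩) := h2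
      rw [Module.End.mul_apply, h3]
      have h4 : (ρ x - 1).quotKerEquivRange.symm ⟨(ρ x - 1) v, LinearMap.mem_range_self _ v⟩ =
          (LinearMap.ker (ρ x - 1)).mkQ v := by
        rw [LinearEquiv.symm_apply_eq]
        rfl
      rw [h4]
      exact (Submodule.liftQ_apply _ _ _).symm
    have h2 : T (ρ y - 1) u = 0 := by
      rw [hf, hTm, Module.End.mul_apply]
      have h3 : T (ρ x - 1) u = 0 := by
        rw [map_sub, hTo, LinearMap.sub_apply, sub_eq_zero]
        exact hu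
      rw [h3, map_zero]
    rw [map_sub, hTo, LinearMap.sub_apply, sub_eq_zero] at h2
    exact h2

end H78TP
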