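import Pool.Agent.H78.TP.ClV2
import Pool.Agent.H78.TP.Qa2

/-!
[H78 TP CLV3] Claim V over the prime field (20-30 min).

PROOF. `k = AlgebraicClosure (ZMod s)`, `qa2`, `clV2` (`(orderOf g : k) ≠ 0` iff `s ∤ orderOf g`).
Universes: if `V : Type u` is not in `Type`, first replace `V` by `Fin n → ZMod s` through a basis
(or note that `clV2` needs `U : Type v` with `k : Type v`; `k` may be replaced by `ULift k`).
-/

namespace H78TP

open Subgroup
open scoped commutatorElement

theorem clV3 (s p q : ℕ) [Fact s.Prime] [Fact p.Prime] [Fact q.Prime] (hsp : p ≠ s)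
    (hsq : q ≠ s) (hpq : q ≠ p) {Γ V : Type*} [Group Γ] [Finite Γ] {K Q : Subgroup Γ} {α : Γ}
    [AddCommGroup V] [Module (ZMod s) V] [Finite V] (ρ : Representation (ZMod s) Γ V)
    (h : TD p q K Q α) (hC : ∀ u, ρ α u = u → ∀ y ∈ Q, ρ y u = u) :
    ∀ g ∈ lns (Subgroup.normalClosure (Q : Set Γ)) (hV p), ¬ s ∣ orderOf g → ρ g = 1 := by
  intro g hg hog
  haveI : NeZero s := ⟨(Fact.out : s.Prime).ne_zero⟩
  haveI : Module.Finite (ZMod s) V := Module.Finite.of_finite
  obtain ⟨e, _⟩ : ∃ e : V ≃ₗ[ZMod s] (Fin (Module.finrank (ZMod s) V) → ZMod s), True :=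
    ⟨(Module.finBasis (ZMod s) V).equivFun, trivial⟩
  let ρ₁ : Representation (ZMod s) Γ (Fin (Module.finrank (ZMod s) V) → ZMod s) :=
    { toFun := fun g => e.toLinearMap ∘ₗ ρ g ∘ₗ e.symm.toLinearMap
      map_one' := by
        rw [map_one]
        apply LinearMap.ext
        intro v
        show e (e.symm v) = v
        exact e.apply_symm_apply v
      map_mul' := by
        intro a b
        rw [map_mul]
        apply LinearMap.ext
        intro v
        show e (ρ a (ρ b (e.symm v))) = e (ρ a (e.symm (e (ρ b (e.symm v)))))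
        rw [e.symm_apply_apply] }
  have hρ₁ : ∀ (g : Γ) (v : Fin (Module.finrank (ZMod s) V) → ZMod s),
      ρ₁ g v = e (ρ g (e.symm v)) := fun g v => rfl
  haveI hch : CharP (AlgebraicClosure (ZMod s)) s :=
    charP_of_injective_algebraMap
      (algebraMap (ZMod s) (AlgebraicClosure (ZMod s))).injective s
  obtain ⟨U, i1, i2, i3, τ, h1, h2⟩ := qa2 s
    (Fin (Module.finrank (ZMod s) V) → ZMod s) ρ₁ (AlgebraicClosure (ZMod s))
  have hCρ : ∀ y ∈ Q, ∀ v, ρ₁ α v = v → ρ₁ y v = v := by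
    intro y hy v hv
    rw [hρ₁] at hv ⊢
    have h3 : ρ α (e.symm v) = e.symm v := by
      apply e.injective
      rw [hv, e.apply_symm_apply]
    rw [hC _ h3 y hy, e.apply_symm_apply]
  have h3 := clV2 s p q hsp hsq hpq τ h (fun u hu y hy => h2 α y (hCρ y hy) u hu) g hg (by
    rw [Ne, CharP.cast_eq_zero_iff (AlgebraicClosure (ZMod s)) s]
    exact hog)
  have h4 := (h1 g).1 h3
  apply LinearMap.ext
  intro w
  have h5 := hρ₁ g (e w)
  rw [h4, e.symm_apply_apply] at h5
  exact (e.injective h5).symm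

end H78TP
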