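import Pool.Agent.H78.TP.TDef

/-!
[H78 TP COB] Conjugates of `α` in a subgroup (45 min).

PROOF. If `α = 1` take `x = 1`, `c = g`. Let `α ≠ 1`, so `α` has order `p`. `Δ₀ = K ⊓ Δ` is normal in
`Δ`, of order prime to `p`, and `Δ = Δ₀ ⊔ zpowers α` (every element of `Δ` is `x α ^ i` with
`x ∈ K`, `x ∈ Δ`), so `[Δ : Δ₀]` divides `p` and the `p`-part of `|Δ|` is `p`. `zpowers α` and
`zpowers (g α g⁻¹)` are subgroups of order `p` of `Δ`, so they are Sylow `p`-subgroups of `Δ` and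
conjugate in `Δ`: `zpowers (g α g⁻¹) = y (zpowers α) y⁻¹` with `y ∈ Δ`, `y = x α ^ i`, `x ∈ Δ₀`, so
we may take `y = x`. So `g α g⁻¹ = x α ^ s x⁻¹` for some `s`. Modulo `K` (`Γ ⧸ K` is generated by the
image of `α`, so it is commutative) this gives `α ≡ α ^ s`, so `α ^ s α⁻¹ ∈ K ⊓ zpowers α`, a group
of order prime to `p` and a power of `p`, so `α ^ s = α`. So `g α g⁻¹ = x α x⁻¹` and `c = x⁻¹ g`
commutes with `α`.
-/

namespace H78TP

open Subgroup
open scoped commutatorElement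

theorem coB {Γ : Type*} [Group Γ] [Finite Γ] (p : ℕ) [Fact p.Prime] (K : Subgroup Γ)
    (hK : K.Normal) (hp : ¬ p ∣ Nat.card K) (α : Γ) (hα : α ^ p = 1)
    (htop : K ⊔ Subgroup.zpowers α = ⊤) (Δ : Subgroup Γ) (hαΔ : α ∈ Δ) (g : Γ)
    (hg : g * α * g⁻¹ ∈ Δ) :
    ∃ x ∈ K ⊓ Δ, ∃ c : Γ, g = x * c ∧ α * c = c * α := by
  by_cases h1 : α = 1
  · exact ⟨1, Subgroup.one_mem _, g, (one_mul g).symm, by rw [h1, one_mul, mul_one]⟩
  have hpp : p.Prime := Fact.out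
  have hord : orderOf α = p := orderOf_eq_prime hα h1
  have hKα : ∀ s : ℤ, α ^ s ∈ K → α ^ s = 1 := by
    intro s hs
    have h2 : orderOf (α ^ s) ∣ p := by
      rw [orderOf_dvd_iff_pow_eq_one, ← zpow_natCast, ← zpow_mul, mul_comm, zpow_mul,
        zpow_natCast, hα, one_zpow]
    have h3 : orderOf (α ^ s) ∣ Nat.card K := by
      have h4 : orderOf (⟨α ^ s, hs⟩ : K) ∣ Nat.card K := orderOf_dvd_natCard _
      rwa [Subgroup.orderOf_mk] at h4
    rcases (Nat.dvd_prime hpp).1 h2 with h4 | h4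
    · exact orderOf_eq_one_iff.1 h4
    · rw [h4] at h3
      exact absurd h3 hp
  have hdec : ∀ z : Γ, ∃ x ∈ K, ∃ i : ℤ, z = x * α ^ i := by
    intro z
    have h2 : z ∈ K ⊔ Subgroup.zpowers α := by rw [htop]; exact Subgroup.mem_top z
    obtain ⟨x, hx, a, ⟨i, rfl⟩, rfl⟩ := Subgroup.mem_sup_of_normal_left.1 h2
    exact ⟨x, hx, i, rfl⟩
  -- the order of `Δ`
  have hidx : K.relIndex Δ ∣ p := by
    have h2 : K.relIndex (Δ ⊔ K) = K.relIndex Δ := Subgroup.relIndex_sup_right Δ K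
    have h3 : Δ ⊔ K = ⊤ := by
      rw [eq_top_iff, ← htop, sup_comm]
      exact sup_le_sup_right ((Subgroup.zpowers_le).2 hαΔ) K
    have h4 : K.relIndex (Subgroup.zpowers α ⊔ K) = K.relIndex (Subgroup.zpowers α) :=
      Subgroup.relIndex_sup_right (Subgroup.zpowers α) K
    have h5 : K.relIndex (Subgroup.zpowers α) ∣ p := by
      have h6 := Subgroup.relIndex_dvd_card K (Subgroup.zpowers α)
      rwa [Nat.card_zpowers, hord] at h6
    rw [← h2, h3]
    rw [sup_comm, htop] at h4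
    rw [h4]
    exact h5
  have hb : ¬ p ∣ Nat.card (K.subgroupOf Δ) := by
    intro h2
    apply hp
    have h3 : Nat.card (K.subgroupOf Δ) ∣ Nat.card K := by
      have h4 : Function.Injective
          (fun x : K.subgroupOf Δ => (⟨((x : Δ) : Γ), Subgroup.mem_subgroupOf.1 x.2⟩ : K)) := by
        intro x y hxy
        exact Subtype.ext (Subtype.ext (Subtype.mk_eq_mk.1 hxy))
      let φ : K.subgroupOf Δ →* K :=
        { toFun := fun x => ⟨((x : Δ) : Γ), Subgroup.mem_subgroupOf.1 x.2⟩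
          map_one' := rfl
          map_mul' := fun x y => rfl }
      exact Subgroup.card_dvd_of_injective φ h4
    exact h2.trans h3
  have hcard : Nat.card (K.subgroupOf Δ) * K.relIndex Δ = Nat.card Δ :=
    Subgroup.card_mul_index (K.subgroupOf Δ)
  have hpΔ : p ∣ Nat.card Δ := by
    have h4 : orderOf (⟨α, hαΔ⟩ : Δ) ∣ Nat.card Δ := orderOf_dvd_natCard _
    rwa [Subgroup.orderOf_mk, hord] at h4
  have hidx' : K.relIndex Δ = p := by
    rcases (Nat.dvd_prime hpp).1 hidx with h4 | h4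
    · rw [h4, mul_one] at hcard
      rw [← hcard] at hpΔ
      exact absurd hpΔ hb
    · exact h4
  have hfac : (Nat.card Δ).factorization p = 1 := by
    rw [← hcard, hidx', Nat.factorization_mul Nat.card_pos.ne' hpp.ne_zero, Finsupp.add_apply,
      Nat.factorization_eq_zero_of_not_dvd hb, hpp.factorization_self, zero_add]
  have hordg : orderOf (g * α * g⁻¹) = p := by
    apply orderOf_eq_prime
    · rw [conj_pow, hα, mul_one, mul_inv_cancel]
    · intro h2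
      apply h1
      have h3 : g⁻¹ * (g * α * g⁻¹) * g = α := by group
      rw [← h3, h2, mul_one, inv_mul_cancel]
  obtain ⟨y, hy⟩ := MulAction.exists_smul_eq Δ
    (Sylow.ofCard (Subgroup.zpowers (⟨α, hαΔ⟩ : Δ))
      (by rw [Nat.card_zpowers, Subgroup.orderOf_mk, hord, hfac, pow_one]))
    (Sylow.ofCard (Subgroup.zpowers (⟨g * α * g⁻¹, hg⟩ : Δ))
      (by rw [Nat.card_zpowers, Subgroup.orderOf_mk, hordg, hfac, pow_one]))
  have h5 : y * ⟨α, hαΔ⟩ * y⁻¹ ∈ Subgroup.zpowers (⟨g * α * g⁻¹, hg⟩ : Δ) := by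
    have h6 := congrArg (fun P : Sylow p Δ => (P : Subgroup Δ)) hy
    simp only [Sylow.coe_subgroup_smul, Sylow.coe_ofCard] at h6
    rw [← h6]
    exact Subgroup.smul_mem_pointwise_smul _ (MulAut.conj y) _ (Subgroup.mem_zpowers _)
  obtain ⟨s, hs⟩ := h5
  have hs' : (g * α * g⁻¹) ^ s = (y : Γ) * α * (y : Γ)⁻¹ := by
    have h6 := congrArg (fun z : Δ => (z : Γ)) hs
    simpa using h6
  have hc0 : ((y : Γ)⁻¹ * g) * α ^ s * ((y : Γ)⁻¹ * g)⁻¹ = α := by
    rw [conj_zpow] at hs'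
    calc ((y : Γ)⁻¹ * g) * α ^ s * ((y : Γ)⁻¹ * g)⁻¹
        = (y : Γ)⁻¹ * (g * α ^ s * g⁻¹) * (y : Γ) := by group
      _ = (y : Γ)⁻¹ * ((y : Γ) * α * (y : Γ)⁻¹) * (y : Γ) := by rw [hs']
      _ = α := by group
  -- modulo `K`
  have hsα : α ^ s = α := by
    have := hK
    obtain ⟨x, hx, i, hxi⟩ := hdec ((y : Γ)⁻¹ * g)
    rw [hxi] at hc0
    have h6 : α ^ s * α⁻¹ ∈ K := by
      have h7 : x * (α ^ s * x⁻¹ * (α ^ s)⁻¹) ∈ K :=
        K.mul_mem hx (hK.conj_mem _ (K.inv_mem hx) _)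
      have h8 : x * (α ^ s * x⁻¹ * (α ^ s)⁻¹) = α * (α ^ s)⁻¹ := by
        have h9 : x * α ^ i * α ^ s * (x * α ^ i)⁻¹ = x * (α ^ s * x⁻¹ * (α ^ s)⁻¹) * α ^ s := by
          group
        rw [hc0] at h9
        exact (mul_inv_eq_of_eq_mul h9).symm
      rw [h8] at h7
      have h10 := K.inv_mem h7
      rwa [mul_inv_rev, inv_inv] at h10
    have h7 : α ^ s * α⁻¹ = α ^ (s - 1) := by rw [zpow_sub, zpow_one]
    rw [h7] at h6
    have h8 := hKα _ h6
    rw [← h7] at h8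
    exact mul_inv_eq_one.1 h8
  rw [hsα] at hc0
  obtain ⟨x, hx, i, hxi⟩ := hdec (y : Γ)
  refine ⟨x, ⟨hx, ?_⟩, α ^ i * ((y : Γ)⁻¹ * g), ?_, ?_⟩
  · have h6 : x = (y : Γ) * (α ^ i)⁻¹ := by rw [hxi, mul_inv_cancel_right]
    rw [h6]
    exact Δ.mul_mem y.2 (Δ.inv_mem (Δ.zpow_mem hαΔ i))
  · rw [← mul_assoc, ← hxi, mul_inv_cancel_left]
  · have h6 : ((y : Γ)⁻¹ * g) * α = α * ((y : Γ)⁻¹ * g) := mul_inv_eq_iff_eq_mul.1 hc0
    have h7 : α * α ^ i = α ^ i * α := ((Commute.refl α).zpow_right i)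
    rw [← mul_assoc, h7, mul_assoc, mul_assoc, h6]

/-- `c` as in `coB` normalises `Q` -/
theorem coB' {p q : ℕ} [Fact p.Prime] {Γ : Type*} [Group Γ] [Finite Γ]
    {K Q : Subgroup Γ} {α : Γ} (h : TD p q K Q α) (c : Γ) (hc : α * c = c * α) :
    ∀ y ∈ Q, c * y * c⁻¹ ∈ Q := by
  intro y hy
  have h1 : c ∈ K ⊔ Subgroup.zpowers α := by rw [h.top]; exact Subgroup.mem_top c
  have := h.nK
  obtain ⟨c', hc', a, ⟨i, rfl⟩, rfl⟩ := Subgroup.mem_sup_of_normal_left.1 h1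
  simp only at hc ⊢
  have h2 : α * c' = c' * α := by
    have h3 : α * (c' * α ^ i) = c' * α ^ i * α := hc
    have h4 : c' * α ^ i * α = c' * α * α ^ i := by group
    rw [h4, ← mul_assoc] at h3
    exact mul_right_cancel h3
  have h5 : α ^ i * y * (α ^ i)⁻¹ = y := by
    have : Commute (α ^ i) y := Commute.zpow_left (h.Qa y hy) i
    rw [this.eq, mul_inv_cancel_right]
  have h6 : c' * α ^ i * y * (c' * α ^ i)⁻¹ = c' * (α ^ i * y * (α ^ i)⁻¹) * c'⁻¹ := by group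
  rw [h6, h5]
  exact h.Qn c' hc' h2 y hy

end H78TP
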