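import Pool.Agent.H78.TP.LocB

/-!
[H78 TP COREA] The algebra spanned by `N` is a matrix algebra (75 min).

PROOF. Let `A` be the span of the `τ x`, `x ∈ N`, in `Module.End k U`: a subalgebra. Let `x_i`
(`i ∈ I`) be representatives of the cosets of `B` in `N`. As in `qg` (there for `V`, `E`, `D`; here
`V = ⊤`, `E = N`, `D = B`) the `τ x_i` are linearly independent, and they span `A` as `B` acts by
scalars. So `finrank A = B.relIndex N`, and `U ≠ 0` so `A ≠ 0`.
`A` is simple: let `J ≠ 0` be a two-sided ideal and `0 ≠ a = ∑ c_i τ x_i ∈ J` with the least number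
of nonzero coefficients. If `c_i, c_j ≠ 0`, `i ≠ j`, then there is `n ∈ N` with
`lam ⁅n, x_i⁆ ≠ lam ⁅n, x_j⁆` (otherwise `x_i x_j⁻¹ ∈ B`), and `τ n a τ n⁻¹ - lam ⁅n, x_i⁆ a ∈ J` is
nonzero with fewer terms. So `a = c τ x_i` is invertible and `J = A`.
`k` is algebraically closed, so `A ≃ₐ[k] Matrix (Fin d) (Fin d) k` for some `d`
(`IsSimpleRing.exists_algEquiv_matrix_of_isAlgClosed` or similar in
Mathlib/RingTheory/SimpleModule), and `d ^ 2 = finrank A`.
-/

namespace H78TP

open Subgroup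
open scoped commutatorElement

variable {k Γ U : Type*} [Field k] [Group Γ] [AddCommGroup U] [Module k U]

/-- the terms of an element of an invariant subspace, expanded in joint eigenvectors with
different eigenvalues, are in the subspace -/
private theorem coreA_wt {ι S M : Type*} [AddCommGroup M] [Module k M] (x : ι → M)
    (Φ : S → M →ₗ[k] M) (χ : ι → S → k)
    (hΦ : ∀ s i, Φ s (x i) = χ i s • x i) (hχ : ∀ i j, i ≠ j → ∃ s, χ i s ≠ χ j s)
    (W : Submodule k M) (hW : ∀ s, ∀ b ∈ W, Φ s b ∈ W) (s : Finset ι) :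
    ∀ c : ι → k, ∑ i ∈ s, c i • x i ∈ W → ∀ i ∈ s, c i • x i ∈ W := by
  classical
  induction s using Finset.induction_on with
  | empty =>
    intro c _ i hi
    simp at hi
  | insert a s ha ih =>
    intro c hc
    rw [Finset.sum_insert ha] at hc
    have h1 : ∀ t, ∑ i ∈ s, (c i * (χ i t - χ a t)) • x i ∈ W := by
      intro t
      have h4 : ∑ i ∈ s, (c i * (χ i t - χ a t)) • x i =
          Φ t (c a • x a + ∑ i ∈ s, c i • x i) - χ a t • (c a • x a + ∑ i ∈ s, c i • x i) := by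
        rw [map_add, map_smul, hΦ, map_sum, smul_add, smul_comm (χ a t) (c a),
          add_sub_add_left_eq_sub, Finset.smul_sum, ← Finset.sum_sub_distrib]
        apply Finset.sum_congr rfl
        intro i _
        rw [map_smul, hΦ, smul_smul, smul_smul, ← sub_smul]
        congr 1
        ring
      rw [h4]
      exact W.sub_mem (hW t _ hc) (W.smul_mem _ hc)
    have h5 : ∀ i ∈ s, c i • x i ∈ W := by
      intro i hi
      have hia : i ≠ a := fun h => ha (h ▸ hi)
      obtain ⟨t, ht⟩ := hχ i a hia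
      have h6 := W.smul_mem (χ i t - χ a t)⁻¹ (ih (fun i => c i * (χ i t - χ a t)) (h1 t) i hi)
      rw [smul_smul, mul_comm (c i), ← mul_assoc, inv_mul_cancel₀ (sub_ne_zero.2 ht),
        one_mul] at h6
      exact h6
    intro i hi
    rcases Finset.mem_insert.1 hi with rfl | hi
    · have h8 := W.sub_mem hc (W.sum_mem h5)
      rwa [add_sub_cancel_right] at h8
    · exact h5 i hi

private theorem coreA_ind {ι S M : Type*} [AddCommGroup M] [Module k M] (x : ι → M)
    (Φ : S → M →ₗ[k] M) (χ : ι → S → k) (hx : ∀ i, x i ≠ 0)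
    (hΦ : ∀ s i, Φ s (x i) = χ i s • x i) (hχ : ∀ i j, i ≠ j → ∃ s, χ i s ≠ χ j s) :
    LinearIndependent k x := by
  rw [linearIndependent_iff']
  intro s c hc i hi
  have h1 := coreA_wt x Φ χ hΦ hχ ⊥ (fun t b hb => by
    rw [Submodule.mem_bot] at hb ⊢
    rw [hb, map_zero]) s c ((Submodule.mem_bot k).2 hc) i hi
  exact (smul_eq_zero.1 ((Submodule.mem_bot k).1 h1)).resolve_right (hx i)

private theorem coreA_chi {τ : Representation k Γ U} {B N : Subgroup Γ} {lam : Γ → k}
    (L : Loc τ ⊤ B N B lam) {x y : Γ} (hi : x ∈ N) (hj : y ∈ N)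
    (h : ∀ n ∈ N, lam ⁅n, x⁆ = lam ⁅n, y⁆) : x⁻¹ * y ∈ B := by
  rw [L.rad]
  refine ⟨N.mul_mem (N.inv_mem hi) hj, ?_⟩
  intro e' he'
  have g1 : lam ⁅x⁻¹ * x, e'⁆ = lam ⁅x⁻¹, e'⁆ * lam ⁅x, e'⁆ :=
    loc_left L (inv_mem hi) hi he'
  rw [inv_mul_cancel, commutatorElement_one_left, loc_one L] at g1
  have g2 : lam ⁅x⁻¹ * y, e'⁆ = lam ⁅x⁻¹, e'⁆ * lam ⁅y, e'⁆ :=
    loc_left L (inv_mem hi) hj he'
  have g3 := loc_swap L hi he'
  have g4 := loc_swap L hj he'
  have g5 := h e' he'
  have g6 : lam ⁅x, e'⁆ = lam ⁅y, e'⁆ := by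
    rw [← g5] at g4
    have g7 : lam ⁅e', x⁆ ≠ 0 := by
      intro h0
      rw [h0, mul_zero] at g3
      exact zero_ne_one g3
    exact mul_right_cancel₀ g7 (g3.trans g4.symm)
  rw [g2, ← g6, ← g1]

theorem coreA [IsAlgClosed k] [Finite Γ] [Module.Finite k U] (τ : Representation k Γ U)
    (B N : Subgroup Γ) (lam : Γ → k) (L : Loc τ ⊤ B N B lam) :
    ∃ (d : ℕ) (ψ : Matrix (Fin d) (Fin d) k →ₐ[k] Module.End k U), Function.Injective ψ ∧
      d ^ 2 = B.relIndex N ∧ 0 < d ∧
      (ψ.range.toSubmodule = Submodule.span k ((fun x => τ x) '' (N : Set Γ))) ∧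
      ∀ I : Finset Γ, (∀ x ∈ I, x ∈ N) → (∀ x ∈ I, ∀ y ∈ I, x⁻¹ * y ∈ B → x = y) →
        LinearIndependent k (fun x : I => τ x.1) := by
  classical
  have hsc : ∀ b ∈ B, τ b = lam b • (1 : Module.End k U) := by
    intro b hb
    apply LinearMap.ext
    intro v
    rw [L.sc b hb v trivial]
    rfl
  have hunit : ∀ g : Γ, τ g * τ g⁻¹ = 1 := by
    intro g
    rw [← map_mul, mul_inv_cancel, map_one]
  have hunit' : ∀ g : Γ, τ g⁻¹ * τ g = 1 := by
    intro g
    rw [← map_mul, inv_mul_cancel, map_one]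
  have hU : Nontrivial U := by
    obtain ⟨v, -, hv⟩ := Submodule.exists_mem_ne_zero_of_ne_bot L.ne
    exact ⟨v, 0, hv⟩
  have hne : ∀ g : Γ, τ g ≠ 0 := by
    intro g h
    have h1 := hunit g
    rw [h, zero_mul] at h1
    exact zero_ne_one h1
  have hconj : ∀ n ∈ N, ∀ x ∈ N, τ n * τ x * τ n⁻¹ = lam ⁅n, x⁆ • τ x := by
    intro n hn x hx
    have h1 : n * x * n⁻¹ = ⁅n, x⁆ * x := by
      simp only [commutatorElement_def]
      group
    rw [← map_mul, ← map_mul, h1, map_mul, hsc _ (L.EE n hn x hx), smul_mul_assoc, one_mul]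
  -- the operators of conjugation
  let Φ : N → Module.End k U →ₗ[k] Module.End k U := fun n =>
    (LinearMap.mulRight k (τ (n : Γ)⁻¹)).comp (LinearMap.mulLeft k (τ (n : Γ)))
  have hΦ : ∀ (n : N) (a : Module.End k U), Φ n a = τ (n : Γ) * a * τ (n : Γ)⁻¹ :=
    fun n a => rfl
  have hlin : ∀ I : Finset Γ, (∀ x ∈ I, x ∈ N) → (∀ x ∈ I, ∀ y ∈ I, x⁻¹ * y ∈ B → x = y) →
      LinearIndependent k (fun x : I => τ x.1) := by
    intro I hI hd
    refine coreA_ind (fun x : I => τ x.1) Φ (fun x n => lam ⁅(n : Γ), x.1⁆) (fun x => hne _)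
      (fun n x => ?_) (fun x y hxy => ?_)
    · rw [hΦ, hconj n n.2 x.1 (hI _ x.2)]
    · by_contra hc
      push Not at hc
      apply hxy
      apply Subtype.ext
      refine hd _ x.2 _ y.2 (coreA_chi L (hI _ x.2) (hI _ y.2) fun n hn => hc ⟨n, hn⟩)
  -- the algebra
  let S : Subalgebra k (Module.End k U) := Algebra.adjoin k ((fun x => τ x) '' (N : Set Γ))
  have hS : Subalgebra.toSubmodule S = Submodule.span k ((fun x => τ x) '' (N : Set Γ)) := by
    rw [Algebra.adjoin_eq_span]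
    congr 1
    have h1 : ((fun x => τ x) '' (N : Set Γ)) =
        ((N.toSubmonoid.map (τ : Γ →* Module.End k U) : Submonoid (Module.End k U)) :
          Set (Module.End k U)) := rfl
    rw [h1, Submonoid.closure_eq]
  let ι : Type _ := N ⧸ B.subgroupOf N
  haveI : Finite ι := inferInstanceAs (Finite (N ⧸ B.subgroupOf N))
  letI : Fintype ι := Fintype.ofFinite ι
  let x : ι → Module.End k U := fun i => τ ((i.out : N) : Γ)
  have hspan : Submodule.span k ((fun x => τ x) '' (N : Set Γ)) =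
      Submodule.span k (Set.range x) := by
    apply le_antisymm
    · rw [Submodule.span_le]
      rintro _ ⟨n, hn, rfl⟩
      let i : ι := ((⟨n, hn⟩ : N) : N ⧸ B.subgroupOf N)
      have h1 : ((i.out : N) : N ⧸ B.subgroupOf N) = ((⟨n, hn⟩ : N) : N ⧸ B.subgroupOf N) :=
        Quotient.out_eq i
      have h2 := QuotientGroup.eq.1 h1
      rw [Subgroup.mem_subgroupOf] at h2
      have h3 : ((i.out : N) : Γ)⁻¹ * n ∈ B := h2
      have h4 : (fun x => τ x) n = lam (((i.out : N) : Γ)⁻¹ * n) • x i := by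
        show τ n = lam (((i.out : N) : Γ)⁻¹ * n) • τ ((i.out : N) : Γ)
        have h5 : n = ((i.out : N) : Γ) * (((i.out : N) : Γ)⁻¹ * n) := by group
        have h6 : τ n = τ ((i.out : N) : Γ) * τ (((i.out : N) : Γ)⁻¹ * n) := by
          rw [← map_mul, ← h5]
        rw [h6, hsc _ h3, mul_smul_comm, mul_one]
      rw [h4]
      exact Submodule.smul_mem _ _ (Submodule.subset_span ⟨i, rfl⟩)
    · rw [Submodule.span_le]
      rintro _ ⟨i, rfl⟩
      exact Submodule.subset_span ⟨((i.out : N) : Γ), (i.out : N).2, rfl⟩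
  have hχ : ∀ i j : ι, i ≠ j → ∃ s : N, lam ⁅(s : Γ), ((i.out : N) : Γ)⁆ ≠
      lam ⁅(s : Γ), ((j.out : N) : Γ)⁆ := by
    intro i j hij
    by_contra hc
    push Not at hc
    apply hij
    have h1 : i = ((i.out : N) : N ⧸ B.subgroupOf N) := (Quotient.out_eq i).symm
    have h2 : j = ((j.out : N) : N ⧸ B.subgroupOf N) := (Quotient.out_eq j).symm
    rw [h1, h2]
    refine QuotientGroup.eq.2 ?_
    rw [Subgroup.mem_subgroupOf]
    exact coreA_chi L (i.out : N).2 (j.out : N).2 fun n hn => hc ⟨n, hn⟩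
  have hΦx : ∀ (n : N) (i : ι), Φ n (x i) = lam ⁅(n : Γ), ((i.out : N) : Γ)⁆ • x i := by
    intro n i
    rw [hΦ]
    exact hconj n n.2 _ (i.out : N).2
  have hli : LinearIndependent k x :=
    coreA_ind x Φ (fun i n => lam ⁅(n : Γ), ((i.out : N) : Γ)⁆) (fun i => hne _) hΦx hχ
  have hcard : Module.finrank k S = B.relIndex N := by
    have h1 : Module.finrank k S = Module.finrank k (Subalgebra.toSubmodule S) := rfl
    rw [h1, hS, hspan, finrank_span_eq_card hli, ← Nat.card_eq_fintype_card]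
    rfl
  have hτS : ∀ n ∈ N, τ n ∈ S := fun n hn => Algebra.subset_adjoin ⟨n, hn, rfl⟩
  have hsimple : IsSimpleRing S := by
    haveI : Nontrivial S := inferInstance
    refine IsSimpleRing.of_eq_bot_or_eq_top fun I => ?_
    by_cases hI : ∃ a : S, a ∈ I ∧ a ≠ 0
    · right
      obtain ⟨a, ha, ha0⟩ := hI
      rw [← TwoSidedIdeal.one_mem_iff]
      let W : Submodule k (Module.End k U) :=
        { carrier := {b | ∃ h : b ∈ S, (⟨b, h⟩ : S) ∈ I}
          add_mem' := by
            rintro b b' ⟨h, hb⟩ ⟨h', hb'⟩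
            exact ⟨S.add_mem h h', I.add_mem hb hb'⟩
          zero_mem' := ⟨S.zero_mem, I.zero_mem⟩
          smul_mem' := by
            rintro c b ⟨h, hb⟩
            refine ⟨S.smul_mem h c, ?_⟩
            have h1 : (⟨c • b, S.smul_mem h c⟩ : S) = algebraMap k S c * ⟨b, h⟩ := by
              rw [← Algebra.smul_def]
              rfl
            rw [h1]
            exact I.mul_mem_left _ _ hb }
      have hW : ∀ (n : N), ∀ b ∈ W, Φ n b ∈ W := by
        rintro n b ⟨h, hb⟩
        have h1 : τ (n : Γ) ∈ S := hτS _ n.2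
        have h2 : τ (n : Γ)⁻¹ ∈ S := hτS _ (N.inv_mem n.2)
        refine ⟨S.mul_mem (S.mul_mem h1 h) h2, ?_⟩
        exact I.mul_mem_right _ ⟨_, h2⟩ (I.mul_mem_left ⟨_, h1⟩ _ hb)
      have ha1 : a.1 ∈ Submodule.span k (Set.range x) := by
        rw [← hspan, ← hS]
        exact a.2
      obtain ⟨c, hc⟩ := (Submodule.mem_span_range_iff_exists_fun k).1 ha1
      have haW : ∑ i, c i • x i ∈ W := by
        rw [hc]
        exact ⟨a.2, ha⟩
      have h3 := coreA_wt x Φ (fun i n => lam ⁅(n : Γ), ((i.out : N) : Γ)⁆) hΦx hχ W hW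
        Finset.univ c haW
      have h4 : ∃ i, c i ≠ 0 := by
        by_contra h5
        push Not at h5
        apply ha0
        apply Subtype.ext
        rw [← hc]
        exact Finset.sum_eq_zero fun i _ => by rw [h5 i, zero_smul]
      obtain ⟨i, hi⟩ := h4
      have h5 := W.smul_mem (c i)⁻¹ (h3 i (Finset.mem_univ i))
      rw [smul_smul, inv_mul_cancel₀ hi, one_smul] at h5
      obtain ⟨h6, h7⟩ := h5
      have h8 : τ ((i.out : N) : Γ)⁻¹ ∈ S := hτS _ (N.inv_mem (i.out : N).2)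
      have h9 := I.mul_mem_left ⟨_, h8⟩ _ h7
      have h10 : (⟨τ ((i.out : N) : Γ)⁻¹, h8⟩ : S) * ⟨x i, h6⟩ = 1 := by
        apply Subtype.ext
        exact hunit' _
      rw [h10] at h9
      exact h9
    · left
      push Not at hI
      rw [eq_bot_iff, TwoSidedIdeal.le_iff]
      intro a ha
      exact hI a ha
  haveI := hsimple
  haveI : FiniteDimensional k S := inferInstance
  obtain ⟨d, hd, ⟨e⟩⟩ := IsSimpleRing.exists_algEquiv_matrix_of_isAlgClosed k S
  refine ⟨d, S.val.comp (e.symm : Matrix (Fin d) (Fin d) k →ₐ[k] S), ?_, ?_, ?_, ?_, hlin⟩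
  · exact Subtype.val_injective.comp e.symm.injective
  · have h1 := e.toLinearEquiv.finrank_eq
    rw [Module.finrank_matrix, Fintype.card_fin, Module.finrank_self, mul_one, hcard] at h1
    rw [h1, sq]
  · exact Nat.pos_of_ne_zero hd.out
  · rw [← hS]
    congr 1
    ext a
    constructor
    · rintro ⟨X, rfl⟩
      exact (e.symm X).2
    · intro ha
      refine ⟨e ⟨a, ha⟩, ?_⟩
      show ((e.symm (e ⟨a, ha⟩) : S) : Module.End k U) = a
      rw [e.symm_apply_apply]

end H78TP
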