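import Pool.Agent.H78.TP.CoreA

/-!
[H78 TP COREB] `α` and `y` act as commuting matrices (75 min).

PROOF. (1) The range `A` of `ψ` is the span of `τ N`; conjugation by `τ α` and `τ y` maps `A` to `A`.
So there are algebra automorphisms `a`, `b` of `Matrix (Fin d) (Fin d) k` with
`ψ (a X) = τ α ψ X τ α⁻¹`, `ψ (b X) = τ y ψ X τ y⁻¹`. Automorphisms of matrix algebras over a field
are inner (Skolem-Noether; search Mathlib for `AlgEquiv` on `Module.End` or matrices, e.g.
`AlgEquiv.coe_eq...linearEquiv_conj`, Mathlib/LinearAlgebra/GeneralLinearGroup/AlgEquiv.lean): there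
are invertible `A₁`, `Y₁` with `a X = A₁ X A₁⁻¹`, `b X = Y₁ X Y₁⁻¹`. `a ^ p = 1` so `A₁ ^ p` is central,
a scalar `≠ 0`; `k` is algebraically closed, so after multiplying `A₁` with a scalar `A₁ ^ p = 1`;
similarly `Y₁ ^ (q ^ e) = 1`. `a` and `b` commute, so `A₁ Y₁ = ζ Y₁ A₁` for a scalar `ζ`;
`A₁ ^ p Y₁ = ζ ^ p Y₁ A₁ ^ p` gives `ζ ^ p = 1`, and `ζ ^ (q ^ e) = 1` similarly, so `ζ = 1`.
(2) Let `v₁ = ψ (A₁)⁻¹ τ α`, `v₂ = ψ (Y₁)⁻¹ τ y` (products in `Module.End k U`). They commute with the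
range of `ψ`; `τ α` and `τ y` commute with `ψ A₁`, `ψ Y₁` (as `a A₁ = A₁`, `a Y₁ = Y₁`, ...), so `v₁`,
`v₂`, `τ α`, `τ y` commute, `v₁ ^ p = 1`, `v₂ ^ (q ^ e) = 1`. `C = {u | τ α u = u} ≠ 0` is invariant
under `v₁`, `v₂`; so it contains a common eigenvector `w ≠ 0`: `v₁ w = κ w`, `v₂ w = κ' w`
(`k` algebraically closed), `κ ^ p = 1`, `κ' ^ (q ^ e) = 1`. Let `A = κ A₁`, `Y = κ' Y₁`. Then
`A ^ p = 1`, `Y ^ (q ^ e) = 1`, `A Y = Y A`, conjugation by them is still `a`, `b`, and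
`ψ A w = τ α w = w`, `ψ Y w = τ y w = w` (`hC`).
(3) Let `e₁ = p⁻¹ ∑ s < p, A ^ s`, the projection onto the fixed vectors of `A`. For a matrix `X`:
`τ α (ψ X w) = ψ (A X A⁻¹) τ α w = ψ (A X A⁻¹) w = ψ (A X) w` (as `ψ A⁻¹ w = w`), and
`τ y (ψ X w) = ψ (Y X) w`. For `X = e₁ X'`: `A X = X`, so `ψ X w` is fixed by `τ α`, hence by `τ y`:
`ψ ((Y - 1) e₁ X') w = 0` for all `X'`. The set of the matrices `Z` with `ψ (Z X') w = 0` for all
`X'` is a two-sided ideal, it does not contain `1` (`w ≠ 0`), so it is `0` (matrix rings over fields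
are simple), so `(Y - 1) e₁ = 0`, i.e. `Y v = v` if `A v = v`. And `e₁ ≠ 0` as `ψ e₁ w = w ≠ 0`, so
there is `v ≠ 0` with `A v = v`.
-/

namespace H78TP

open Subgroup
open scoped commutatorElement

variable {k Γ U : Type*} [Field k] [Group Γ] [AddCommGroup U] [Module k U]

private theorem coreB_scalar {d : ℕ} (Z : Matrix (Fin d) (Fin d) k)
    (h : ∀ X, Z * X = X * Z) : ∃ c : k, Z = c • (1 : Matrix (Fin d) (Fin d) k) := by
  obtain ⟨c, hc⟩ := Matrix.mem_range_scalar_iff_commute_single'.2 fun i j =>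
    (h (Matrix.single i j 1)).symm
  refine ⟨c, ?_⟩
  rw [← hc, Matrix.scalar_apply]
  ext i j
  rw [Matrix.smul_apply, Matrix.diagonal_apply, Matrix.one_apply, smul_eq_mul]
  split_ifs
  · rw [mul_one]
  · rw [mul_zero]

private theorem coreB_eig1 [IsAlgClosed k] [Module.Finite k U] (f : Module.End k U)
    (C : Submodule k U) (hC : C ≠ ⊥) (hf : ∀ u ∈ C, f u ∈ C) :
    ∃ w ∈ C, w ≠ 0 ∧ ∃ a : k, f w = a • w := by
  haveI : Nontrivial C := (Submodule.nontrivial_iff_ne_bot).2 hC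
  obtain ⟨a, ha⟩ := Module.End.exists_eigenvalue (f.restrict hf)
  obtain ⟨w, hw⟩ := ha.exists_hasEigenvector
  refine ⟨w.1, w.2, ?_, a, ?_⟩
  · intro h
    exact hw.2 (Subtype.ext h)
  · have h1 := congrArg Subtype.val hw.apply_eq_smul
    exact h1

private theorem coreB_eig [IsAlgClosed k] [Module.Finite k U] (f g : Module.End k U)
    (hfg : f * g = g * f) (C : Submodule k U) (hC : C ≠ ⊥) (hf : ∀ u ∈ C, f u ∈ C)
    (hg : ∀ u ∈ C, g u ∈ C) :
    ∃ w ∈ C, w ≠ 0 ∧ ∃ a b : k, f w = a • w ∧ g w = b • w := by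
  obtain ⟨w, hw, hw0, a, ha⟩ := coreB_eig1 f C hC hf
  have h1 : C ⊓ Module.End.eigenspace f a ≠ ⊥ := by
    intro h
    have h2 : w ∈ C ⊓ Module.End.eigenspace f a := ⟨hw, Module.End.mem_eigenspace_iff.2 ha⟩
    rw [h, Submodule.mem_bot] at h2
    exact hw0 h2
  obtain ⟨w', hw', hw0', b, hb⟩ := coreB_eig1 g (C ⊓ Module.End.eigenspace f a) h1 (by
    rintro u ⟨hu, hu'⟩
    refine ⟨hg u hu, Module.End.mem_eigenspace_iff.2 ?_⟩
    have h3 : f u = a • u := Module.End.mem_eigenspace_iff.1 hu'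
    rw [← Module.End.mul_apply, hfg, Module.End.mul_apply, h3, map_smul])
  exact ⟨w', hw'.1, hw0', a, b, Module.End.mem_eigenspace_iff.1 hw'.2, hb⟩

private theorem coreB_root (f : Module.End k U) (w : U) (hw : w ≠ 0) (a : k) (h : f w = a • w)
    (n : ℕ) (hf : f ^ n = 1) : a ^ n = 1 := by
  have h1 : ∀ j : ℕ, (f ^ j) w = a ^ j • w := by
    intro j
    induction j with
    | zero =>
      rw [pow_zero, pow_zero, one_smul]
      rfl
    | succ j ih => rw [pow_succ, Module.End.mul_apply, h, map_smul, ih, smul_smul, pow_succ,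
        mul_comm]
  have h2 := h1 n
  rw [hf] at h2
  have h3 : (1 : k) • w = a ^ n • w := by
    rw [one_smul]
    exact h2
  exact (smul_left_injective k hw h3).symm

private theorem coreB_inner [IsAlgClosed k] [Module.Finite k U] [Nontrivial U]
    (τ : Representation k Γ U)
    (N : Subgroup Γ) (d : ℕ) (ψ : Matrix (Fin d) (Fin d) k →ₐ[k] Module.End k U)
    (hψ : Function.Injective ψ)
    (hψr : ψ.range.toSubmodule = Submodule.span k ((fun x => τ x) '' (N : Set Γ)))
    (g : Γ) (n : ℕ) (hn : 0 < n) (hg : g ^ n = 1) (hN : ∀ x ∈ N, g * x * g⁻¹ ∈ N) :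
    ∃ G : Matrix (Fin d) (Fin d) k, G ^ n = 1 ∧
      ∀ X, τ g * ψ X = ψ (G * X * G ^ (n - 1)) * τ g := by
  have hu : ∀ g : Γ, τ g * τ g⁻¹ = 1 := by
    intro g
    rw [← map_mul, mul_inv_cancel, map_one]
  have hu' : ∀ g : Γ, τ g⁻¹ * τ g = 1 := by
    intro g
    rw [← map_mul, inv_mul_cancel, map_one]
  let c : Module.End k U →ₗ[k] Module.End k U :=
    (LinearMap.mulRight k (τ g⁻¹)).comp (LinearMap.mulLeft k (τ g))
  have hc : ∀ a, c a = τ g * a * τ g⁻¹ := fun a => rfl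
  have h1 : ∀ X, ∃ X', ψ X' = τ g * ψ X * τ g⁻¹ := by
    intro X
    have h2 : Submodule.span k ((fun x => τ x) '' (N : Set Γ)) ≤
        (Submodule.span k ((fun x => τ x) '' (N : Set Γ))).comap c := by
      rw [Submodule.span_le]
      rintro _ ⟨x, hx, rfl⟩
      show c (τ x) ∈ Submodule.span k ((fun x => τ x) '' (N : Set Γ))
      rw [hc, ← map_mul, ← map_mul]
      exact Submodule.subset_span ⟨_, hN x hx, rfl⟩
    have h3 : ψ X ∈ Submodule.span k ((fun x => τ x) '' (N : Set Γ)) := by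
      rw [← hψr]
      exact ⟨X, rfl⟩
    have h4 := h2 h3
    have h5 : c (ψ X) ∈ Submodule.span k ((fun x => τ x) '' (N : Set Γ)) := h4
    rw [← hψr] at h5
    obtain ⟨X', hX'⟩ := h5
    exact ⟨X', hX'⟩
  choose f hf using h1
  let F : Matrix (Fin d) (Fin d) k →ₐ[k] Matrix (Fin d) (Fin d) k :=
    { toFun := f
      map_one' := by
        apply hψ
        rw [hf, map_one, mul_one, hu]
      map_mul' := by
        intro X X'
        apply hψ
        rw [hf, map_mul, map_mul, hf, hf]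
        calc τ g * (ψ X * ψ X') * τ g⁻¹ = τ g * ψ X * 1 * (ψ X' * τ g⁻¹) := by
              rw [mul_one]
              simp only [mul_assoc]
          _ = τ g * ψ X * τ g⁻¹ * (τ g * ψ X' * τ g⁻¹) := by
              rw [← hu' g]
              simp only [mul_assoc]
      map_zero' := by
        apply hψ
        rw [hf, map_zero, mul_zero, zero_mul]
      map_add' := by
        intro X X'
        apply hψ
        rw [hf, map_add, map_add, hf, hf, mul_add, add_mul]
      commutes' := by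
        intro r
        apply hψ
        rw [hf, AlgHom.commutes, ← Algebra.commutes, mul_assoc, hu, mul_one] }
  have hF : ∀ X, ψ (F X) = τ g * ψ X * τ g⁻¹ := hf
  have hFi : Function.Injective F := by
    intro X X' h
    apply hψ
    have h2 : τ g * ψ X * τ g⁻¹ = τ g * ψ X' * τ g⁻¹ := by rw [← hF, ← hF, h]
    have h3 := congrArg (fun a => τ g⁻¹ * a * τ g) h2
    simp only [mul_assoc, hu', mul_one] at h3
    rw [← mul_assoc, ← mul_assoc, hu', one_mul, one_mul] at h3
    exact h3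
  have hFb : Function.Bijective F :=
    ⟨hFi, (LinearMap.injective_iff_surjective (f := F.toLinearMap)).1 hFi⟩
  let E := AlgEquiv.ofBijective F hFb
  let I := Matrix.toLinAlgEquiv' (R := k) (n := Fin d)
  obtain ⟨T, hT⟩ := ((I.symm.trans E).trans I).eq_linearEquivConjAlgEquiv
  let G := I.symm (T.toLinearMap : Module.End k (Fin d → k))
  let G' := I.symm (T.symm.toLinearMap : Module.End k (Fin d → k))
  have hGG' : G * G' = 1 := by
    show I.symm _ * I.symm _ = 1
    rw [← map_mul, ← map_one I.symm]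
    congr 1
    ext v
    simp [Module.End.mul_apply]
  have hG'G : G' * G = 1 := by
    show I.symm _ * I.symm _ = 1
    rw [← map_mul, ← map_one I.symm]
    congr 1
    ext v
    simp [Module.End.mul_apply]
  have hFG : ∀ X, F X = G * X * G' := by
    intro X
    have h2 := congrArg (fun e => e (I X)) hT
    have h3 : I (F (I.symm (I X))) = T.conjAlgEquiv k (I X) := h2
    rw [AlgEquiv.symm_apply_apply, LinearEquiv.conjAlgEquiv_apply] at h3
    have h4 : F X = I.symm (T.toLinearMap ∘ₗ I X ∘ₗ T.symm.toLinearMap) := by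
      rw [← h3, AlgEquiv.symm_apply_apply]
    have h5 : (T.toLinearMap ∘ₗ I X ∘ₗ T.symm.toLinearMap) =
        (T.toLinearMap : Module.End k (Fin d → k)) * I X *
          (T.symm.toLinearMap : Module.End k (Fin d → k)) := rfl
    rw [h4, h5, map_mul, map_mul, AlgEquiv.symm_apply_apply]
  -- powers
  have hpow : ∀ j : ℕ, ∀ X, ψ (G ^ j * X * G' ^ j) = τ (g ^ j) * ψ X * τ (g ^ j)⁻¹ := by
    intro j
    induction j with
    | zero =>
      intro X
      rw [pow_zero, pow_zero, pow_zero, inv_one, map_one, one_mul, mul_one, one_mul, mul_one]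
    | succ j ih =>
      intro X
      have h2 : G ^ (j + 1) * X * G' ^ (j + 1) = G * (G ^ j * X * G' ^ j) * G' := by
        rw [pow_succ', pow_succ]
        simp only [mul_assoc]
      rw [h2, ← hFG, hF, ih, pow_succ', mul_inv_rev, map_mul, map_mul]
      simp only [mul_assoc]
  have hone : (1 : Matrix (Fin d) (Fin d) k) ≠ 0 := by
    intro h
    have h2 := congrArg ψ h
    rw [map_one, map_zero] at h2
    exact one_ne_zero h2
  have hGG'n : ∀ j : ℕ, G ^ j * G' ^ j = 1 := by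
    intro j
    induction j with
    | zero => rw [pow_zero, pow_zero, one_mul]
    | succ j ih =>
      rw [pow_succ, pow_succ', mul_assoc, ← mul_assoc G G', hGG', one_mul, ih]
  have hG'Gn : ∀ j : ℕ, G' ^ j * G ^ j = 1 := by
    intro j
    induction j with
    | zero => rw [pow_zero, pow_zero, one_mul]
    | succ j ih =>
      rw [pow_succ, pow_succ', mul_assoc, ← mul_assoc G' G, hG'G, one_mul, ih]
  obtain ⟨s, hs⟩ := coreB_scalar (G ^ n) (fun X => by
    have h2 : G ^ n * X * G' ^ n = X := by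
      apply hψ
      rw [hpow, hg, inv_one, map_one, one_mul, mul_one]
    calc G ^ n * X = G ^ n * X * (G' ^ n * G ^ n) := by rw [hG'Gn, mul_one]
      _ = G ^ n * X * G' ^ n * G ^ n := by simp only [mul_assoc]
      _ = X * G ^ n := by rw [h2])
  have hs0 : s ≠ 0 := by
    rintro rfl
    rw [zero_smul] at hs
    have h2 := hGG'n n
    rw [hs, zero_mul] at h2
    exact hone h2.symm
  obtain ⟨κ, hκ⟩ := IsAlgClosed.exists_pow_nat_eq s⁻¹ hn
  have hκ0 : κ ≠ 0 := by
    rintro rfl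
    rw [zero_pow hn.ne'] at hκ
    exact inv_ne_zero hs0 hκ.symm
  have hκG : (κ • G) ^ n = 1 := by
    rw [smul_pow, hκ, hs, smul_smul, inv_mul_cancel₀ hs0, one_smul]
  have hinv : (κ • G) ^ (n - 1) = κ⁻¹ • G' := by
    have h2 : (κ⁻¹ • G') * (κ • G) = 1 := by
      rw [smul_mul_assoc, mul_smul_comm, smul_smul, inv_mul_cancel₀ hκ0, one_smul, hG'G]
    have h3 : (κ • G) * (κ • G) ^ (n - 1) = 1 := by
      rw [← pow_succ', Nat.sub_add_cancel hn, hκG]
    calc (κ • G) ^ (n - 1) = (κ⁻¹ • G') * (κ • G) * (κ • G) ^ (n - 1) := by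
          rw [h2, one_mul]
      _ = (κ⁻¹ • G') * ((κ • G) * (κ • G) ^ (n - 1)) := by rw [mul_assoc]
      _ = κ⁻¹ • G' := by rw [h3, mul_one]
  refine ⟨κ • G, hκG, fun X => ?_⟩
  have h2 : κ • G * X * (κ • G) ^ (n - 1) = F X := by
    rw [hinv, smul_mul_assoc, smul_mul_assoc, mul_smul_comm, smul_smul, mul_inv_cancel₀ hκ0,
      one_smul, hFG]
  rw [h2, hF, mul_assoc, hu', mul_one]

private theorem coreB_comm [Nontrivial U] (τ : Representation k Γ U) (d : ℕ)
    (ψ : Matrix (Fin d) (Fin d) k →ₐ[k] Module.End k U) (hψ : Function.Injective ψ)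
    (p m : ℕ) (hp : 0 < p) (hm : 0 < m) (hpm : Nat.Coprime p m) (α y : Γ)
    (hαy : α * y = y * α) (A Y : Matrix (Fin d) (Fin d) k) (hA : A ^ p = 1) (hY : Y ^ m = 1)
    (hAψ : ∀ X, τ α * ψ X = ψ (A * X * A ^ (p - 1)) * τ α)
    (hYψ : ∀ X, τ y * ψ X = ψ (Y * X * Y ^ (m - 1)) * τ y) : A * Y = Y * A := by
  have hone : (1 : Matrix (Fin d) (Fin d) k) ≠ 0 := by
    intro h
    have h2 := congrArg ψ h
    rw [map_one, map_zero] at h2
    exact one_ne_zero h2
  set A' := A ^ (p - 1) with hA'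
  set Y' := Y ^ (m - 1) with hY'
  have hAA' : A * A' = 1 := by rw [hA', ← pow_succ', Nat.sub_add_cancel hp, hA]
  have hA'A : A' * A = 1 := by rw [hA', ← pow_succ, Nat.sub_add_cancel hp, hA]
  have hYY' : Y * Y' = 1 := by rw [hY', ← pow_succ', Nat.sub_add_cancel hm, hY]
  have hY'Y : Y' * Y = 1 := by rw [hY', ← pow_succ, Nat.sub_add_cancel hm, hY]
  have h1 : ∀ X, A * (Y * X * Y') * A' = Y * (A * X * A') * Y' := by
    intro X
    apply hψ
    have hcm : τ y * τ α = τ α * τ y := by rw [← map_mul, ← hαy, map_mul]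
    have h2 : ψ (A * (Y * X * Y') * A') * (τ α * τ y) =
        ψ (Y * (A * X * A') * Y') * (τ α * τ y) := by
      calc ψ (A * (Y * X * Y') * A') * (τ α * τ y) =
          ψ (A * (Y * X * Y') * A') * τ α * τ y := (mul_assoc _ _ _).symm
        _ = τ α * (ψ (Y * X * Y') * τ y) := by rw [← hAψ, mul_assoc]
        _ = τ α * τ y * ψ X := by rw [← hYψ, mul_assoc]
        _ = τ y * τ α * ψ X := by rw [hcm]
        _ = τ y * (ψ (A * X * A') * τ α) := by rw [mul_assoc, hAψ]
        _ = ψ (Y * (A * X * A') * Y') * τ y * τ α := by rw [← mul_assoc, hYψ]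
        _ = ψ (Y * (A * X * A') * Y') * (τ y * τ α) := mul_assoc _ _ _
        _ = ψ (Y * (A * X * A') * Y') * (τ α * τ y) := by rw [hcm]
    have h3 : τ α * τ y * (τ y⁻¹ * τ α⁻¹) = 1 := by
      rw [← map_mul, ← map_mul, ← map_mul]
      have h4 : α * y * (y⁻¹ * α⁻¹) = 1 := by group
      rw [h4, map_one]
    have h4 : ∀ Z : Module.End k U, Z * (τ α * τ y) * (τ y⁻¹ * τ α⁻¹) = Z := by
      intro Z
      rw [mul_assoc, h3, mul_one]
    rw [← h4 (ψ (A * (Y * X * Y') * A')), h2, h4]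
  obtain ⟨ζ, hζ⟩ := coreB_scalar (A' * Y' * A * Y) (fun X => by
    have h2 := h1 X
    calc A' * Y' * A * Y * X = A' * Y' * (A * (Y * X * Y') * A') * (A * Y) := by
          calc A' * Y' * A * Y * X = A' * Y' * A * Y * X * (Y' * (A' * A) * Y) := by
                rw [hA'A, mul_one, hY'Y, mul_one]
            _ = _ := by simp only [mul_assoc]
      _ = A' * Y' * (Y * (A * X * A') * Y') * (A * Y) := by rw [h2]
      _ = A' * (Y' * Y) * A * X * (A' * Y' * A * Y) := by simp only [mul_assoc]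
      _ = X * (A' * Y' * A * Y) := by rw [hY'Y, mul_one, hA'A, one_mul])
  have h2 : A * Y = ζ • (Y * A) := by
    calc A * Y = Y * (A * A') * Y' * A * Y := by rw [hAA', mul_one, hYY', one_mul]
      _ = Y * A * (A' * Y' * A * Y) := by simp only [mul_assoc]
      _ = ζ • (Y * A) := by rw [hζ, mul_smul_comm, mul_one]
  have h3 : ∀ j : ℕ, A ^ j * Y = ζ ^ j • (Y * A ^ j) := by
    intro j
    induction j with
    | zero => rw [pow_zero, pow_zero, one_mul, mul_one, one_smul]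
    | succ j ih =>
      rw [pow_succ A, mul_assoc, h2, mul_smul_comm, ← mul_assoc, ih, smul_mul_assoc, smul_smul,
        mul_assoc, ← pow_succ A, pow_succ ζ, mul_comm ζ]
  have h4 : ∀ j : ℕ, A * Y ^ j = ζ ^ j • (Y ^ j * A) := by
    intro j
    induction j with
    | zero => rw [pow_zero, pow_zero, one_mul, mul_one, one_smul]
    | succ j ih =>
      rw [pow_succ Y, ← mul_assoc, ih, smul_mul_assoc, mul_assoc, h2, mul_smul_comm, smul_smul,
        ← mul_assoc, pow_succ ζ]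
  have hY0 : Y ≠ 0 := by
    intro h
    rw [h, zero_mul] at hYY'
    exact hone hYY'.symm
  have hA0 : A ≠ 0 := by
    intro h
    rw [h, zero_mul] at hAA'
    exact hone hAA'.symm
  have h5 : ζ ^ p = 1 := by
    have h6 := h3 p
    rw [hA, one_mul, mul_one] at h6
    have h7 : (1 : k) • Y = ζ ^ p • Y := by rw [one_smul, ← h6]
    exact (smul_left_injective k hY0 h7).symm
  have h6 : ζ ^ m = 1 := by
    have h6 := h4 m
    rw [hY, one_mul, mul_one] at h6
    have h7 : (1 : k) • A = ζ ^ m • A := by rw [one_smul, ← h6]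
    exact (smul_left_injective k hA0 h7).symm
  have h7 : ζ = 1 := by
    have h8 : orderOf ζ ∣ Nat.gcd p m :=
      Nat.dvd_gcd (orderOf_dvd_of_pow_eq_one h5) (orderOf_dvd_of_pow_eq_one h6)
    rw [hpm, Nat.dvd_one] at h8
    exact orderOf_eq_one_iff.1 h8
  rw [h2, h7, one_smul]

theorem coreB [IsAlgClosed k] [Finite Γ] [Module.Finite k U] (τ : Representation k Γ U)
    (N : Subgroup Γ) (d : ℕ) (ψ : Matrix (Fin d) (Fin d) k →ₐ[k] Module.End k U)
    (hψ : Function.Injective ψ)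
    (hψr : ψ.range.toSubmodule = Submodule.span k ((fun x => τ x) '' (N : Set Γ)))
    (p q e : ℕ) [Fact p.Prime] [Fact q.Prime] (hpq : q ≠ p) (hp : (p : k) ≠ 0)
    (hq : (q : k) ≠ 0) (α y : Γ) (hα : α ^ p = 1) (hy : y ^ (q ^ e) = 1) (hαy : α * y = y * α)
    (hNα : ∀ x ∈ N, α * x * α⁻¹ ∈ N) (hNy : ∀ x ∈ N, y * x * y⁻¹ ∈ N)
    (hC : ∀ u, τ α u = u → τ y u = u) (u₀ : U) (hu₀ : u₀ ≠ 0) (hu₀' : τ α u₀ = u₀) :
    ∃ A Y : Matrix (Fin d) (Fin d) k, A ^ p = 1 ∧ Y ^ (q ^ e) = 1 ∧ A * Y = Y * A ∧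
      (∀ X, τ α * ψ X = ψ (A * X * A ^ (p - 1)) * τ α) ∧
      (∀ X, τ y * ψ X = ψ (Y * X * Y ^ (q ^ e - 1)) * τ y) ∧
      (∀ v : Fin d → k, A.mulVec v = v → Y.mulVec v = v) ∧
      ∃ v : Fin d → k, v ≠ 0 ∧ A.mulVec v = v := by
  have hU : Nontrivial U := ⟨u₀, 0, hu₀⟩
  have hm : 0 < q ^ e := pow_pos (Fact.out : q.Prime).pos e
  have hp0 : 0 < p := (Fact.out : p.Prime).pos
  obtain ⟨A₁, hA₁, hA₁ψ⟩ := coreB_inner τ N d ψ hψ hψr α p hp0 hα hNα
  obtain ⟨Y₁, hY₁, hY₁ψ⟩ := coreB_inner τ N d ψ hψ hψr y (q ^ e) hm hy hNy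
  have hAY : A₁ * Y₁ = Y₁ * A₁ :=
    coreB_comm τ d ψ hψ p (q ^ e) hp0 hm (by
      exact Nat.Coprime.pow_right e
        ((Nat.coprime_primes (Fact.out : p.Prime) (Fact.out : q.Prime)).2 hpq.symm))
      α y hαy A₁ Y₁ hA₁ hY₁ hA₁ψ hY₁ψ
  -- the common eigenvector
  let C : Submodule k U :=
    { carrier := {u | τ α u = u}
      add_mem' := by
        intro a b ha hb
        show τ α (a + b) = a + b
        rw [map_add, show τ α a = a from ha, show τ α b = b from hb]
      zero_mem' := map_zero _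
      smul_mem' := by
        intro c a ha
        show τ α (c • a) = c • a
        rw [map_smul, show τ α a = a from ha] }
  have hC0 : C ≠ ⊥ := by
    intro h
    have h1 : u₀ ∈ C := hu₀'
    rw [h, Submodule.mem_bot] at h1
    exact hu₀ h1
  have hAA : A₁ * A₁ ^ (p - 1) = 1 := by
    rw [← pow_succ', Nat.sub_add_cancel hp0, hA₁]
  have hYY : Y₁ * Y₁ ^ (q ^ e - 1) = 1 := by
    rw [← pow_succ', Nat.sub_add_cancel hm, hY₁]
  have hCA : ∀ u ∈ C, ψ A₁ u ∈ C := by
    intro u hu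
    have h1 := congrArg (fun f : Module.End k U => f u) (hA₁ψ A₁)
    have h2 : τ α (ψ A₁ u) = ψ (A₁ * A₁ * A₁ ^ (p - 1)) (τ α u) := h1
    rw [mul_assoc, hAA, mul_one, show τ α u = u from hu] at h2
    exact h2
  have hCY : ∀ u ∈ C, ψ Y₁ u ∈ C := by
    intro u hu
    have h1 := congrArg (fun f : Module.End k U => f u) (hA₁ψ Y₁)
    have h2 : τ α (ψ Y₁ u) = ψ (A₁ * Y₁ * A₁ ^ (p - 1)) (τ α u) := h1
    rw [hAY, mul_assoc, hAA, mul_one, show τ α u = u from hu] at h2
    exact h2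
  obtain ⟨w, hwC, hw0, κ, κ', hκ, hκ'⟩ := coreB_eig (ψ A₁) (ψ Y₁)
    (by rw [← map_mul, ← map_mul, hAY]) C hC0 hCA hCY
  have hκp : κ ^ p = 1 := coreB_root (ψ A₁) w hw0 κ hκ p (by rw [← map_pow, hA₁, map_one])
  have hκm : κ' ^ (q ^ e) = 1 :=
    coreB_root (ψ Y₁) w hw0 κ' hκ' (q ^ e) (by rw [← map_pow, hY₁, map_one])
  have hκ0 : κ ≠ 0 := by
    rintro rfl
    rw [zero_pow hp0.ne'] at hκp
    exact zero_ne_one hκp
  have hκ0' : κ' ≠ 0 := by
    rintro rfl
    rw [zero_pow hm.ne'] at hκm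
    exact zero_ne_one hκm
  set A := κ⁻¹ • A₁ with hAdef
  set Y := κ'⁻¹ • Y₁ with hYdef
  have hA : A ^ p = 1 := by rw [hAdef, smul_pow, inv_pow, hκp, hA₁, inv_one, one_smul]
  have hY : Y ^ (q ^ e) = 1 := by rw [hYdef, smul_pow, inv_pow, hκm, hY₁, inv_one, one_smul]
  have hAA' : A * A ^ (p - 1) = 1 := by rw [← pow_succ', Nat.sub_add_cancel hp0, hA]
  have hYY' : Y * Y ^ (q ^ e - 1) = 1 := by rw [← pow_succ', Nat.sub_add_cancel hm, hY]
  have hA'A : A ^ (p - 1) * A = 1 := by rw [← pow_succ, Nat.sub_add_cancel hp0, hA]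
  have hY'Y : Y ^ (q ^ e - 1) * Y = 1 := by rw [← pow_succ, Nat.sub_add_cancel hm, hY]
  have hAψ : ∀ X, τ α * ψ X = ψ (A * X * A ^ (p - 1)) * τ α := by
    intro X
    have h1 : A * X * A ^ (p - 1) = A₁ * X * A₁ ^ (p - 1) := by
      rw [hAdef, smul_pow, smul_mul_assoc, smul_mul_assoc, mul_smul_comm, smul_smul, ← pow_succ',
        Nat.sub_add_cancel hp0, inv_pow, hκp, inv_one, one_smul]
    rw [h1, hA₁ψ]
  have hYψ : ∀ X, τ y * ψ X = ψ (Y * X * Y ^ (q ^ e - 1)) * τ y := by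
    intro X
    have h1 : Y * X * Y ^ (q ^ e - 1) = Y₁ * X * Y₁ ^ (q ^ e - 1) := by
      rw [hYdef, smul_pow, smul_mul_assoc, smul_mul_assoc, mul_smul_comm, smul_smul, ← pow_succ',
        Nat.sub_add_cancel hm, inv_pow, hκm, inv_one, one_smul]
    rw [h1, hY₁ψ]
  have hAw : ψ A w = w := by
    rw [hAdef, map_smul, LinearMap.smul_apply, hκ, smul_smul, inv_mul_cancel₀ hκ0, one_smul]
  have hYw : ψ Y w = w := by
    rw [hYdef, map_smul, LinearMap.smul_apply, hκ', smul_smul, inv_mul_cancel₀ hκ0', one_smul]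
  have hA'w : ψ (A ^ (p - 1)) w = w := by
    have h1 : ψ (A ^ (p - 1) * A) w = ψ (A ^ (p - 1)) (ψ A w) := by
      rw [map_mul, Module.End.mul_apply]
    rw [hA'A, map_one, hAw] at h1
    exact h1.symm
  have hY'w : ψ (Y ^ (q ^ e - 1)) w = w := by
    have h1 : ψ (Y ^ (q ^ e - 1) * Y) w = ψ (Y ^ (q ^ e - 1)) (ψ Y w) := by
      rw [map_mul, Module.End.mul_apply]
    rw [hY'Y, map_one, hYw] at h1
    exact h1.symm
  have hτα : ∀ X, τ α (ψ X w) = ψ (A * X) w := by
    intro X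
    have h1 := congrArg (fun f : Module.End k U => f w) (hAψ X)
    have h2 : τ α (ψ X w) = ψ (A * X * A ^ (p - 1)) (τ α w) := h1
    rw [h2, show τ α w = w from hwC, map_mul, Module.End.mul_apply, hA'w]
  have hτy : ∀ X, τ y (ψ X w) = ψ (Y * X) w := by
    intro X
    have h1 := congrArg (fun f : Module.End k U => f w) (hYψ X)
    have h2 : τ y (ψ X w) = ψ (Y * X * Y ^ (q ^ e - 1)) (τ y w) := h1
    rw [h2, hC w hwC, map_mul, Module.End.mul_apply, hY'w]
  refine ⟨A, Y, hA, hY, ?_, hAψ, hYψ, ?_, ?_⟩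
  · rw [hAdef, hYdef, smul_mul_assoc, mul_smul_comm, smul_mul_assoc, mul_smul_comm, hAY,
      smul_comm]
  · intro v hv
    by_contra hne
    obtain ⟨i, hi⟩ : ∃ i, (Y.mulVec v - v) i ≠ 0 := by
      by_contra h
      push Not at h
      exact hne (sub_eq_zero.1 (funext h))
    have h1 : ∀ z : Fin d → k, ψ (Matrix.vecMulVec (Y.mulVec v - v) z) w = 0 := by
      intro z
      have h2 : A * Matrix.vecMulVec v z = Matrix.vecMulVec v z := by
        rw [Matrix.mul_vecMulVec, hv]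
      have h3 := hτα (Matrix.vecMulVec v z)
      rw [h2] at h3
      have h4 := hC _ h3
      rw [hτy, Matrix.mul_vecMulVec] at h4
      have h5 : Matrix.vecMulVec (Y.mulVec v - v) z =
          Matrix.vecMulVec (Y.mulVec v) z - Matrix.vecMulVec v z := by
        ext a b
        rw [Matrix.sub_apply, Matrix.vecMulVec_apply, Matrix.vecMulVec_apply,
          Matrix.vecMulVec_apply, Pi.sub_apply, sub_mul]
      rw [h5, map_sub, LinearMap.sub_apply, h4, sub_self]
    have h2 : ∀ j : Fin d, ψ (Matrix.vecMulVec (Pi.single j 1) (Pi.single j 1)) w = 0 := by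
      intro j
      have h3 : Matrix.vecMulVec (Pi.single j (1 : k)) (Pi.single j 1) =
          (((Y.mulVec v - v) i)⁻¹ • Matrix.vecMulVec (Pi.single j (1 : k)) (Pi.single i 1)) *
            Matrix.vecMulVec (Y.mulVec v - v) (Pi.single j 1) := by
        rw [smul_mul_assoc, Matrix.vecMulVec_mul_vecMulVec, single_one_dotProduct]
        ext a b
        rw [Matrix.smul_apply, Matrix.vecMulVec_apply, Matrix.vecMulVec_apply, Pi.smul_apply,
          smul_eq_mul, smul_eq_mul]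
        field_simp
      rw [h3, map_mul, Module.End.mul_apply, h1, map_zero]
    apply hw0
    have h3 : (1 : Matrix (Fin d) (Fin d) k) =
        ∑ j, Matrix.vecMulVec (Pi.single j 1) (Pi.single j 1) := by
      ext a b
      rw [Matrix.sum_apply, Matrix.one_apply]
      simp only [Matrix.vecMulVec_apply, Pi.single_apply]
      rw [Finset.sum_eq_single a]
      · rw [if_pos rfl, one_mul]
        by_cases hab : a = b
        · rw [if_pos hab, if_pos hab.symm]
        · rw [if_neg hab, if_neg (Ne.symm hab)]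
      · intro c _ hc
        rw [if_neg (Ne.symm hc), zero_mul]
      · intro h
        exact absurd (Finset.mem_univ a) h
    have h4 : ψ (1 : Matrix (Fin d) (Fin d) k) w = w := by
      rw [map_one]
      rfl
    rw [← h4, h3, map_sum, LinearMap.sum_apply]
    exact Finset.sum_eq_zero fun j _ => h2 j
  · by_contra hne
    push Not at hne
    have h1 : (A - 1).det ≠ 0 := by
      intro h
      obtain ⟨v, hv0, hv⟩ := Matrix.exists_mulVec_eq_zero_iff.2 h
      rw [Matrix.sub_mulVec, Matrix.one_mulVec] at hv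
      exact hne v hv0 (sub_eq_zero.1 hv)
    have h2 : (A - 1)⁻¹ * (A - 1) = 1 := Matrix.nonsing_inv_mul _ (isUnit_iff_ne_zero.2 h1)
    apply hw0
    have h3 : ψ ((A - 1)⁻¹ * (A - 1)) w = w := by
      rw [h2, map_one]
      rfl
    rw [← h3, map_mul, Module.End.mul_apply, map_sub, LinearMap.sub_apply, hAw, map_one]
    show ψ (A - 1)⁻¹ (w - w) = 0
    rw [sub_self, map_zero]

end H78TP
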