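import Mathlib

/-!
Definitions for the results on `MP_63e0db_al` (helper78).
-/

namespace H78TP

open Subgroup
open scoped commutatorElement

/-! ### The notions of the problem -/

/-- The quasicyclic group `C_{p^∞}`: the complex roots of unity of `p`-power order. -/
def Quasicyclic (p : ℕ) : Subgroup ℂˣ where
  carrier := {z | ∃ k : ℕ, z ^ (p ^ k) = 1}
  one_mem' := ⟨0, one_pow _⟩
  mul_mem' := by
    rintro a b ⟨k, hk⟩ ⟨l, hl⟩
    refine ⟨k + l, ?_⟩
    rw [mul_pow, pow_add, pow_mul, hk, one_pow, one_mul, mul_comm, pow_mul, hl, one_pow]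
  inv_mem' := by
    rintro a ⟨k, hk⟩
    exact ⟨k, by rw [inv_pow, hk, inv_one]⟩

/-- A Chernikov group: it has a normal subgroup of finite index which is a direct product of
finitely many quasicyclic groups (for primes which need not be different). -/
def IsChernikov (G : Type*) [Group G] : Prop :=
  ∃ D : Subgroup G, D.Normal ∧ D.FiniteIndex ∧
    ∃ (n : ℕ) (p : Fin n → ℕ), (∀ i, (p i).Prime) ∧
      Nonempty (D ≃* ((i : Fin n) → Quasicyclic (p i)))

/-- Locally soluble group: every finitely generated subgroup is soluble. -/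
def LocallySoluble (G : Type*) [Group G] : Prop :=
  ∀ S : Subgroup G, S.FG → Group.IsSolvable S

/-- Locally nilpotent group: every finitely generated subgroup is nilpotent. -/
def LocallyNilpotent (G : Type*) [Group G] : Prop :=
  ∀ S : Subgroup G, S.FG → Group.IsNilpotent S

/-- `G` has a finite normal series `1 = N 0 ≤ N 1 ≤ ... ≤ N n = G` (every `N i` normal in `G`)
with locally nilpotent factors `N (i+1) / N i` (formed inside `G / N i`). -/
def HasSeries (G : Type*) [Group G] : Prop :=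
  ∃ (n : ℕ) (N : ℕ → Subgroup G) (_ : ∀ i, (N i).Normal), N 0 = ⊥ ∧ N n = ⊤ ∧
    (∀ i, N i ≤ N (i + 1)) ∧
    ∀ i < n, LocallyNilpotent ((N (i + 1)).map (QuotientGroup.mk' (N i)))

/-! ### Series of subgroups -/

/-- the lower central series of `X` (as subgroups of `G`) -/
def gam {G : Type*} [Group G] (X : Subgroup G) : ℕ → Subgroup G
  | 0 => X
  | n + 1 => ⁅gam X n, X⁆

/-- the nilpotent residual (of a finite group `X`) -/
def nres {G : Type*} [Group G] (X : Subgroup G) : Subgroup G := ⨅ n, gam X n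

/-- the lower nilpotent series: `lns X h = ⊥` iff the finite soluble group `X` has Fitting
height at most `h` -/
def lns {G : Type*} [Group G] (X : Subgroup G) : ℕ → Subgroup G
  | 0 => X
  | n + 1 => nres (lns X n)

/-- the derived series of `X` (as subgroups of `G`) -/
def dS {G : Type*} [Group G] (X : Subgroup G) : ℕ → Subgroup G
  | 0 => X
  | n + 1 => ⁅dS X n, dS X n⁆

/-! ### Ranks -/

/-- `RB s c C`: every elementary abelian `s`-section `U/V` of `C` has order at most `c`
(used for finite groups only). -/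
def RB {G : Type*} [Group G] (s c : ℕ) (C : Subgroup G) : Prop :=
  ∀ U V : Subgroup G, V ≤ U → U ≤ C → (∀ x ∈ U, x ^ s ∈ V) →
    (∀ x ∈ U, ∀ y ∈ U, ⁅x, y⁆ ∈ V) → V.relIndex U ≤ c

/-- The elements centralising both `P` and `R`. -/
def CC {F : Type*} [Group F] (P R : Subgroup F) : Subgroup F :=
  centralizer (P : Set F) ⊓ centralizer (R : Set F)

/-- For all primes `s`, all elementary abelian `s`-sections of the centraliser of `P` and `R`
have order at most `j * s ^ m`. -/
def KJ {F : Type*} [Group F] (m j : ℕ) (P R : Subgroup F) : Prop :=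
  ∀ s : ℕ, s.Prime → RB s (j * s ^ m) (CC P R)

/-- the operator groups: a `p`-group `P` and a `q`-group `R` which commute, of orders at most
`n` -/
structure PR (p q n : ℕ) {F : Type*} [Group F] (P R : Subgroup F) : Prop where
  hP : IsPGroup p P
  hR : IsPGroup q R
  comm : ∀ x ∈ P, ∀ y ∈ R, x * y = y * x
  cP : Nat.card P ≤ n
  cR : Nat.card R ≤ n

/-- the standing hypotheses on a finite group `F` with its operator groups `P`, `R` -/
structure Hyp (p q n m j : ℕ) (F : Type*) [Group F] (P R : Subgroup F) : Prop where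
  sol : Group.IsSolvable F
  pr : PR p q n P R
  cyc : IsCyclic R
  kj : KJ m j P R

/-- all normal `p'`-subgroups have height at most `t` -/
def OpT (p t : ℕ) (F : Type*) [Group F] : Prop :=
  ∀ N : Subgroup F, N.Normal → ¬ p ∣ Nat.card N → lns N t = ⊥

/-- The order of every element of `F` divides a number of the form `p ^ a * q ^ b`. -/
def IsPQ (p q : ℕ) (F : Type*) [Group F] : Prop :=
  ∀ g : F, ∃ a b : ℕ, g ^ (p ^ a * q ^ b) = 1

/-- the exponent used in Alperin's lemma: `s` for odd `s`, and `4` for `s = 2` -/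
def QZ (s q0 : ℕ) : Prop := (s ≠ 2 ∧ q0 = s) ∨ (s = 2 ∧ q0 = 4)

/-- bound for one operator of order `s` -/
def f1 (s c : ℕ) : ℕ := (c ^ (2 * s)).factorial * c ^ (2 * s)

/-- bound for operator groups of order `s ^ e` -/
def rk (s : ℕ) : ℕ → ℕ → ℕ
  | c, 0 => c
  | c, (e + 1) => rk s (f1 s c) e

/-- bound for operator groups of order at most `n` -/
def rkM (s c n : ℕ) : ℕ := ∑ e ∈ Finset.range (n + 1), rk s c e

/-- new value of `j` after passing to the factor group by a normal `l`-subgroup -/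
def inhJ (l n m j : ℕ) : ℕ := (rkM l (j * l ^ m) n).factorial * j + rkM l (j * l ^ m) n

/-- new value of `j` after passing to the factor group by a nilpotent normal subgroup -/
def inN (p q n m j : ℕ) : ℕ := inhJ q n m (inhJ p n m j)

/-- new value of `j` after passing to the factor group by a normal subgroup of height `h` -/
def inH (p q n m : ℕ) : ℕ → ℕ → ℕ
  | 0, j => j
  | h + 1, j => inH p q n m h (inN p q n m j)

/-- The subgroup generated by the `s`-th powers and the commutators of elements of `W` (the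
Frattini subgroup if `W` is a finite `s`-group). -/
def Phi (s : ℕ) {X : Type*} [Group X] (W : Subgroup X) : Subgroup X :=
  Subgroup.closure ({x | ∃ w ∈ W, x = w ^ s} ∪ {x | ∃ w ∈ W, ∃ w' ∈ W, x = ⁅w, w'⁆})

/-- the elements `g` which centralise `L'` and satisfy `[g, L] ≤ ker f` -/
def DD {F F' : Type*} [Group F] [Group F'] (f : F →* F') (L L' : Subgroup F) : Subgroup F :=
  centralizer (L' : Set F) ⊓ (centralizer ((L.map f : Subgroup F') : Set F')).comap f

/-! ### Representations and weights -/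

section rep

variable {k Γ U : Type*} [Field k] [Group Γ] [AddCommGroup U] [Module k U]

/-- the fixed points of the subgroup `R` -/
def Fx (τ : Representation k Γ U) (R : Subgroup Γ) : Submodule k U where
  carrier := {u | ∀ x ∈ R, τ x u = u}
  add_mem' := by
    intro a b ha hb x hx
    rw [map_add, ha x hx, hb x hx]
  zero_mem' := by
    intro x _
    exact map_zero _
  smul_mem' := by
    intro c a ha x hx
    rw [map_smul, ha x hx]

theorem mem_Fx {τ : Representation k Γ U} {R : Subgroup Γ} {u : U} :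
    u ∈ Fx τ R ↔ ∀ x ∈ R, τ x u = u := Iff.rfl

/-- the weight space of the subgroup `T` for the function `ν` on the subspace `V` -/
def WS (τ : Representation k Γ U) (T : Subgroup Γ) (V : Submodule k U) (ν : Γ → k) :
    Submodule k U where
  carrier := {v | v ∈ V ∧ ∀ t ∈ T, τ t v = ν t • v}
  add_mem' := by
    rintro a b ⟨ha, ha'⟩ ⟨hb, hb'⟩
    refine ⟨V.add_mem ha hb, fun t ht => ?_⟩
    rw [map_add, ha' t ht, hb' t ht, smul_add]
  zero_mem' := ⟨V.zero_mem, fun t _ => by rw [map_zero, smul_zero]⟩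
  smul_mem' := by
    rintro c a ⟨ha, ha'⟩
    refine ⟨V.smul_mem c ha, fun t ht => ?_⟩
    rw [map_smul, ha' t ht, smul_comm]

theorem mem_WS {τ : Representation k Γ U} {T : Subgroup Γ} {V : Submodule k U} {ν : Γ → k}
    {v : U} : v ∈ WS τ T V ν ↔ v ∈ V ∧ ∀ t ∈ T, τ t v = ν t • v := Iff.rfl

/-- the weights of `T` on `V`: functions which vanish outside `T` and have a nonzero weight
space -/
def Wt (τ : Representation k Γ U) (T : Subgroup Γ) (V : Submodule k U) : Set (Γ → k) :=
  {ν | (∀ t, t ∉ T → ν t = 0) ∧ WS τ T V ν ≠ ⊥}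

/-- the conjugate function -/
def cjf (g : Γ) (ν : Γ → k) : Γ → k := fun t => ν (g⁻¹ * t * g)

omit [Field k] in
theorem cjf_one (ν : Γ → k) : cjf (1 : Γ) ν = ν := by
  funext t
  simp [cjf]

omit [Field k] in
theorem cjf_mul (g h : Γ) (ν : Γ → k) : cjf (g * h) ν = cjf g (cjf h ν) := by
  funext t
  simp [cjf, mul_assoc]

/-- `g` maps the weight space of `ν` to the weight space of `cjf g ν` -/
theorem WS_cjf {τ : Representation k Γ U} {T : Subgroup Γ} {V : Submodule k U} {g : Γ}
    (h1 : ∀ t, t ∈ T ↔ g⁻¹ * t * g ∈ T) (h2 : ∀ v ∈ V, τ g v ∈ V) {ν : Γ → k} {v : U}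
    (hv : v ∈ WS τ T V ν) : τ g v ∈ WS τ T V (cjf g ν) := by
  refine ⟨h2 v hv.1, fun t ht => ?_⟩
  have h3 := hv.2 (g⁻¹ * t * g) ((h1 t).1 ht)
  have h4 : τ t (τ g v) = τ g (τ (g⁻¹ * t * g) v) := by
    rw [← Module.End.mul_apply, ← map_mul, ← Module.End.mul_apply, ← map_mul]
    congr 2
    group
  rw [h4, h3, map_smul]
  rfl

theorem Wt_cjf {τ : Representation k Γ U} {T : Subgroup Γ} {V : Submodule k U} {g : Γ}
    (h1 : ∀ t, t ∈ T ↔ g⁻¹ * t * g ∈ T) (h2 : ∀ v ∈ V, τ g v ∈ V) {ν : Γ → k}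
    (hν : ν ∈ Wt τ T V) : cjf g ν ∈ Wt τ T V := by
  refine ⟨fun t ht => hν.1 _ fun h => ht ((h1 t).2 h), ?_⟩
  obtain ⟨v, hv, hv0⟩ := Submodule.exists_mem_ne_zero_of_ne_bot hν.2
  intro h
  have h3 := WS_cjf h1 h2 hv
  rw [h, Submodule.mem_bot] at h3
  apply hv0
  have h4 : τ g⁻¹ (τ g v) = v := by
    rw [← Module.End.mul_apply, ← map_mul]
    simp
  rw [← h4, h3, map_zero]

/-- the action on the weights of a group `Δ` which normalises `T` and `V` -/
@[reducible] def wAct (τ : Representation k Γ U) (T : Subgroup Γ) (V : Submodule k U)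
    (Δ : Subgroup Γ) (h1 : ∀ g ∈ Δ, ∀ t, t ∈ T ↔ g⁻¹ * t * g ∈ T)
    (h2 : ∀ g ∈ Δ, ∀ v ∈ V, τ g v ∈ V) : MulAction Δ (Wt τ T V) where
  smul g ν := ⟨cjf g.1 ν.1, Wt_cjf (h1 g.1 g.2) (h2 g.1 g.2) ν.2⟩
  one_smul ν := Subtype.ext (cjf_one ν.1)
  mul_smul g h ν := Subtype.ext (cjf_mul g.1 h.1 ν.1)

/-- the local situation at a weight `lam` of `B` with weight space `V`: `E` acts on `V`, its
commutators are in `B` and act by the scalars `lam`, and `D` is the radical of the form
`lam ⁅e, e'⁆` on `E` -/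
structure Loc (τ : Representation k Γ U) (V : Submodule k U) (B E D : Subgroup Γ)
    (lam : Γ → k) : Prop where
  ne : V ≠ ⊥
  BE : B ≤ E
  EE : ∀ x ∈ E, ∀ y ∈ E, ⁅x, y⁆ ∈ B
  cen : ∀ b ∈ B, ∀ e ∈ E, b * e = e * b
  inv : ∀ e ∈ E, ∀ v ∈ V, τ e v ∈ V
  sc : ∀ b ∈ B, ∀ v ∈ V, τ b v = lam b • v
  rad : ∀ e, e ∈ D ↔ e ∈ E ∧ ∀ e' ∈ E, lam ⁅e, e'⁆ = 1

end rep

/-! ### Constants of Theorem Q -/

/-- the codimension bound on sections of `E / D` -/
def s0 (n n0 : ℕ) : ℕ := (2 * (n * n0) + 1) * (n + 1) + 2 * n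

/-- bound for the derived length of soluble linear groups of degree `d` (modulo unipotent
groups) -/
def zas : ℕ → ℕ
  | 0 => 0
  | d + 1 => ((d + 1) ^ 2).factorial + (d + 1).factorial + 2 + zas d

/-- the bound of Theorem Q -/
def hQ (n n0 : ℕ) : ℕ :=
  (2 * (n * n0) + 1).factorial + (zas (4 * s0 n n0) + (n0 ^ 2).factorial) + 2

end H78TP
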