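import Pool.Agent.H78.TP.Base

/-!
[H78 TP DIMF] Fixed points of an operator of prime order on an elementary abelian group
(30-45 min).

PROOF. On the abelian group `V` let `φ x = r * x * r⁻¹ * x⁻¹`, an endomorphism with kernel
`V ⊓ centralizer {r}`. In the ring `End (Additive V)` (of characteristic `s`: `x ^ s = 1`) let
`T` be conjugation by `r`; `T ^ s = 1` by `hrs` and `φ = T - 1`. As `T` and `1` commute and `s` is
prime, `φ ^ s = T ^ s - 1 = 0` (`sub_pow_char_of_commute` or `Commute.add_pow_prime_eq`, using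
`s • x = 0`). For every `i`: `|φ^i V| = |φ^(i+1) V| * |ker φ ⊓ φ^i V| ≤ |φ^(i+1) V| * |ker φ|`.
Hence `|V| ≤ |ker φ| ^ s * |φ^s V| = |ker φ| ^ s`.
-/

namespace H78TP

open Subgroup
open scoped commutatorElement

private theorem dimF_step {A : Type*} [AddCommGroup A] [Finite A] (φ : AddMonoid.End A)
    (H : AddSubgroup A) :
    Nat.card H ≤ Nat.card (H.map φ) * Nat.card (AddMonoidHom.ker φ) := by
  have h1 := AddSubgroup.card_mul_index (AddMonoidHom.ker (AddMonoidHom.comp φ H.subtype))
  rw [AddSubgroup.index_ker] at h1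
  have h2 : (AddMonoidHom.comp φ H.subtype).range = H.map φ := by
    rw [AddMonoidHom.range_eq_map, ← AddSubgroup.map_map, ← AddMonoidHom.range_eq_map,
      AddSubgroup.range_subtype]
  rw [h2] at h1
  have h3 : Nat.card (AddMonoidHom.ker (AddMonoidHom.comp φ H.subtype)) ≤
      Nat.card (AddMonoidHom.ker φ) := by
    refine Nat.card_le_card_of_injective (fun x => ⟨((x : H) : A), x.2⟩) ?_
    intro x y hxy
    have h4 := congrArg Subtype.val hxy
    exact Subtype.ext (Subtype.ext h4)
  rw [← h1, mul_comm]
  exact Nat.mul_le_mul_left _ h3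

private theorem dimF_end {A : Type*} [AddCommGroup A] [Finite A] (φ : AddMonoid.End A)
    (s : ℕ) (hφ : φ ^ s = 0) : Nat.card A ≤ Nat.card (AddMonoidHom.ker φ) ^ s := by
  have h : ∀ i : ℕ, Nat.card A ≤ Nat.card (AddMonoidHom.ker φ) ^ i *
      Nat.card ((⊤ : AddSubgroup A).map (φ ^ i : AddMonoid.End A)) := by
    intro i
    induction i with
    | zero =>
      rw [pow_zero, pow_zero, one_mul]
      have : (⊤ : AddSubgroup A).map (1 : AddMonoid.End A) = ⊤ := AddSubgroup.map_id _
      rw [this]
      simp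
    | succ i ih =>
      refine ih.trans ?_
      have h1 := dimF_step φ ((⊤ : AddSubgroup A).map (φ ^ i : AddMonoid.End A))
      have h2 : ((⊤ : AddSubgroup A).map (φ ^ i : AddMonoid.End A)).map φ =
          (⊤ : AddSubgroup A).map (φ ^ (i + 1) : AddMonoid.End A) := by
        rw [AddSubgroup.map_map, pow_succ']
        rfl
      rw [h2] at h1
      calc _ ≤ Nat.card (AddMonoidHom.ker φ) ^ i * (Nat.card ((⊤ : AddSubgroup A).map
            (φ ^ (i + 1) : AddMonoid.End A)) * Nat.card (AddMonoidHom.ker φ)) :=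
            Nat.mul_le_mul_left _ h1
        _ = _ := by ring
  have h1 := h s
  rw [hφ] at h1
  have h2 : (⊤ : AddSubgroup A).map (0 : AddMonoid.End A) = ⊥ := by
    rw [eq_bot_iff]
    rintro _ ⟨x, _, rfl⟩
    exact AddSubgroup.mem_bot.2 rfl
  rw [h2] at h1
  simpa using h1

theorem dimF {F : Type*} [Group F] [Finite F] (s : ℕ) [Fact s.Prime] (V : Subgroup F)
    (hc : ∀ x ∈ V, ∀ y ∈ V, x * y = y * x) (he : ∀ x ∈ V, x ^ s = 1) (r : F)
    (hr : ∀ x ∈ V, r * x * r⁻¹ ∈ V) (hrs : ∀ x ∈ V, r ^ s * x = x * r ^ s) :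
    Nat.card V ≤ Nat.card (V ⊓ centralizer {r} : Subgroup F) ^ s := by
  let cg : CommGroup V :=
    { (inferInstance : Group V) with
      mul_comm := fun a b => Subtype.ext (hc a a.2 b b.2) }
  let T0 : V →* V :=
    { toFun := fun x => ⟨r * x * r⁻¹, hr x x.2⟩
      map_one' := by
        apply Subtype.ext
        simp
      map_mul' := fun a b => by
        apply Subtype.ext
        simp [mul_assoc] }
  let T : AddMonoid.End (Additive V) := MonoidHom.toAdditive T0
  have hT1 : ∀ x : Additive V, ((Additive.toMul (T x) : V) : F) =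
      r * ((Additive.toMul x : V) : F) * r⁻¹ := fun x => rfl
  have hTk : ∀ (k : ℕ) (x : Additive V), ((Additive.toMul ((T ^ k) x) : V) : F) =
      r ^ k * ((Additive.toMul x : V) : F) * (r ^ k)⁻¹ := by
    intro k x
    induction k with
    | zero => simp
    | succ k ih =>
      have h0 : (T ^ (k + 1)) x = T ((T ^ k) x) := by
        rw [pow_succ']
        rfl
      rw [h0, hT1, ih, pow_succ', mul_inv_rev]
      simp only [mul_assoc]
  have hTs : T ^ s = 1 := by
    refine AddMonoidHom.ext fun x => ?_
    apply Additive.toMul.injective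
    apply Subtype.ext
    refine (hTk s x).trans ?_
    rw [hrs _ (Additive.toMul x : V).2, mul_inv_cancel_right]
    rfl
  have hs0 : ∀ x : Additive V, s • x = 0 := by
    intro x
    apply Additive.toMul.injective
    apply Subtype.ext
    rw [toMul_nsmul]
    exact he _ (Additive.toMul x : V).2
  set φ : AddMonoid.End (Additive V) := T - 1 with hφ
  have hφs : φ ^ s = 0 := by
    have h1 := (Commute.one_right φ).add_pow_prime_eq (Fact.out : s.Prime)
    have h2 : φ + 1 = T := by rw [hφ, sub_add_cancel]
    rw [h2, hTs, one_pow] at h1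
    have h3 : ∀ ψ : AddMonoid.End (Additive V), (s : AddMonoid.End (Additive V)) * ψ = 0 := by
      intro ψ
      refine AddMonoidHom.ext fun x => ?_
      rw [← nsmul_eq_mul]
      exact hs0 (ψ x)
    rw [h3, zero_mul, zero_mul, add_zero] at h1
    exact (right_eq_add.1 h1)
  have h4 := dimF_end φ s hφs
  have h5 : Nat.card (AddMonoidHom.ker φ) ≤ Nat.card (V ⊓ centralizer {r} : Subgroup F) := by
    refine Nat.card_le_card_of_injective (fun x => ⟨((Additive.toMul (x : Additive V) : V) : F),
      Subgroup.mem_inf.2 ⟨(Additive.toMul (x : Additive V) : V).2, ?_⟩⟩) ?_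
    · rw [Subgroup.mem_centralizer_singleton_iff]
      have h6 : φ (x : Additive V) = 0 := x.2
      have h7 : T (x : Additive V) = x := by
        have : T (x : Additive V) - x = 0 := h6
        exact sub_eq_zero.1 this
      have h8 := hT1 (x : Additive V)
      rw [h7] at h8
      rw [eq_mul_inv_iff_mul_eq] at h8
      exact h8
    · intro x y hxy
      have h4 := congrArg Subtype.val hxy
      exact Subtype.ext (Additive.toMul.injective (Subtype.ext h4))
  exact h4.trans (Nat.pow_le_pow_left h5 s)

end H78TP
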