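import Pool.Agent.H78.TP.FpfB
import Pool.Agent.H78.TP.NilC
import Pool.Agent.H78.TP.Sec
import Pool.Agent.H78.TP.Cfp

/-!
[H78 TP FPF] Fixed point free automorphism of prime order of a soluble group (30-45 min).

PROOF. `nilC` with `q := p`, `Y = K`: let `s ≠ p` be prime and `A`, `B`, `g` as there. `sec` gives `V`,
`ρ`, `π`. If `π x` is fixed by `α` then by `cfp` (`S = zpowers α`, `N = B`) there is `b ∈ B` such that
`b x ∈ A ≤ K` commutes with `α`, so `b x = 1`, `x ∈ B`, `π x = π 1 = 0` (`π 1 = 0`: from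
`ρ`... `π 1` is fixed by all of `Γ`; or show `x ∈ B` implies `π x = π 1` and `π 1 = 0`, as `π 1` is
fixed by `α`; if `π 1 ≠ 0`... use surjectivity: `0 = π x₀` is fixed by `α`, so `x₀ ∈ B`, so
`π 1 = π x₀ = 0`). `fpfB` gives `ρ g = 1`, i.e. `⁅g, x⁆ ∈ B` for `x ∈ A`. So `nres K` is a `p`-group,
and `p ∤ |K|`, so `nres K = ⊥`.
-/

namespace H78TP

open Subgroup
open scoped commutatorElement

theorem fpf (p : ℕ) [Fact p.Prime] {Γ : Type*} [Group Γ] [Finite Γ] (K : Subgroup Γ)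
    (hK : K.Normal) (hs : Group.IsSolvable K) (hp : ¬ p ∣ Nat.card K) (α : Γ)
    (hα : α ^ p = 1) (hKα : ∀ c ∈ K, α * c = c * α → c = 1) : lns K 1 = ⊥ := by
  have hkey := nilC p K hK hs (by
    intro s hsp hne A B hA hB hBA hAK hpow hcom g hg hgo x hx
    haveI : Fact s.Prime := ⟨hsp⟩
    obtain ⟨V, i1, i2, i3, ρ, π, hπ, hπe, hρ, -⟩ := sec s A B hA hB hBA hpow hcom
    -- translation of fixed classes
    have hfix : ∀ (y : Γ) (z : A), ρ y (π z) = π z → y * z * y⁻¹ * (z : Γ)⁻¹ ∈ B := by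
      intro y z h
      rw [hρ, hπe] at h
      have h1 := B.inv_mem h
      have h2 := hB.conj_mem _ h1 (z : Γ)
      have h3 : (z : Γ) * ((((⟨y * z * y⁻¹, hA.conj_mem z z.2 y⟩ : A) : Γ)⁻¹ * z)⁻¹) * (z : Γ)⁻¹
          = y * z * y⁻¹ * (z : Γ)⁻¹ := by
        show (z : Γ) * (((y * z * y⁻¹)⁻¹ * z)⁻¹) * (z : Γ)⁻¹ = y * z * y⁻¹ * (z : Γ)⁻¹
        group
      rwa [h3] at h2
    have hB0 : ∀ z : A, ρ α (π z) = π z → (z : Γ) ∈ B := by
      intro z h
      have hall : ∀ y ∈ Subgroup.zpowers α, ρ y (π z) = π z := by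
        intro y hy
        rw [← mem_powers_iff_mem_zpowers] at hy
        obtain ⟨k, rfl⟩ := hy
        show ρ (α ^ k) (π z) = π z
        induction k with
        | zero => rw [pow_zero, map_one]; rfl
        | succ k ih =>
          rw [pow_succ, map_mul]
          show ρ (α ^ k) (ρ α (π z)) = π z
          rw [h, ih]
      have hS : IsPGroup p (Subgroup.zpowers α) := by
        rintro ⟨y, hy⟩
        refine ⟨1, Subtype.ext ?_⟩
        show y ^ p ^ 1 = 1
        rw [pow_one]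
        rw [← mem_powers_iff_mem_zpowers] at hy
        obtain ⟨k, rfl⟩ := hy
        show (α ^ k) ^ p = 1
        rw [← pow_mul, mul_comm, pow_mul, hα, one_pow]
      have hN : ¬ p ∣ Nat.card B := fun h1 =>
        hp (h1.trans (Subgroup.card_dvd_of_le (hBA.trans hAK)))
      obtain ⟨y, hy, hyc⟩ := cfp p (Subgroup.zpowers α) B hS hN
        (fun w _ b hb => hB.conj_mem b hb w) (z : Γ) (fun w hw => hfix w z (hall w hw))
      have h1 : y * (z : Γ) = 1 := by
        refine hKα _ (K.mul_mem (hAK (hBA hy)) (hAK z.2)) ?_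
        exact hyc α (Subgroup.mem_zpowers α)
      have h2 : (z : Γ) = y⁻¹ := (inv_eq_of_mul_eq_one_right h1).symm
      rw [h2]
      exact B.inv_mem hy
    have hV : ∀ v, ρ α v = v → v = 0 := by
      intro v hv
      obtain ⟨z, rfl⟩ := hπ v
      obtain ⟨z₀, hz₀⟩ := hπ 0
      have h1 := hB0 z hv
      have h2 := hB0 z₀ (by rw [hz₀, map_zero])
      rw [← hz₀, hπe]
      exact B.mul_mem (B.inv_mem h1) h2
    have h4 := fpfB s p (Ne.symm hne) ρ K hK hs hp α hα hKα hV g hg hgo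
    have h5 := hfix g ⟨x, hx⟩ (by rw [h4]; rfl)
    exact h5)
  have h1 := hkey.1
  obtain ⟨n, hn⟩ := IsPGroup.iff_card.1 h1
  show nres K = ⊥
  rcases Nat.eq_zero_or_pos n with h0 | h0
  · rw [h0, pow_zero] at hn
    exact Subgroup.card_eq_one.1 hn
  · exfalso
    refine hp (Dvd.dvd.trans ?_ (Subgroup.card_dvd_of_le (nres_le K)))
    rw [hn]
    exact dvd_pow_self p h0.ne'

end H78TP
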