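import Pool.Agent.H78.TP.Base

/-!
[H78 TP FPFA] Frobenius action without fixed points (45 min).

PROOF. If `α = 1` then `ρ α v = v` for all `v`, so `V = 0`. Let `α ≠ 1`, of order `p`. For `1 ≤ i < p`
the map `c ↦ c α ^ i c⁻¹ α ^ (-i)` from `B₀` to `B₀` is injective (if `c₁, c₂` have the same image
then `c₂⁻¹ c₁` commutes with `α ^ i`, hence with `α` (`i` is invertible mod `p`), so it is `1` by
`hBα`), hence bijective: `{b α ^ i | b ∈ B₀} = {c α ^ i c⁻¹ | c ∈ B₀}`. For every `w`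
`∑ i < p, ρ (α ^ i) w` is fixed by `α`, so it is `0`. Let `v ∈ V` and
`S = ∑ b ∈ B₀, ∑ i < p, ρ (b α ^ i) v = ∑ b, ρ b (∑ i, ρ (α ^ i) v) = 0`. On the other hand
`S = ∑ b, ρ b v + ∑ c ∈ B₀, ρ c (∑ 1 ≤ i < p, ρ (α ^ i)) ρ c⁻¹ v = ∑ b, ρ b v - ∑ c, ρ c (ρ c⁻¹ v)
= ∑ b, ρ b v - |B₀| v`. So `|B₀| v = ∑ b, ρ b v` is fixed by `B₀`, and `|B₀| ≠ 0` in the field.
-/

namespace H78TP

open Subgroup
open scoped commutatorElement

private theorem sum_fix {F Γ V : Type*} [Field F] [Group Γ] [AddCommGroup V] [Module F V]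
    (ρ : Representation F Γ V) (p : ℕ) (α : Γ) (hα : α ^ p = 1) (hC : ∀ v, ρ α v = v → v = 0)
    (w : V) : ∑ i ∈ Finset.range p, ρ (α ^ i) w = 0 := by
  apply hC
  rw [map_sum]
  have h1 : ∀ i ∈ Finset.range p, ρ α (ρ (α ^ i) w) = ρ (α ^ (i + 1)) w := by
    intro i _
    rw [pow_succ', map_mul, Module.End.mul_apply]
  rw [Finset.sum_congr rfl h1]
  have h2 := Finset.sum_range_succ (fun i => ρ (α ^ i) w) p
  have h3 := Finset.sum_range_succ' (fun i => ρ (α ^ i) w) p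
  rw [h2] at h3
  simp only [hα, pow_zero] at h3
  exact (add_right_cancel h3).symm

private theorem conj_pow_mem {Γ : Type*} [Group Γ] {α : Γ} {B₀ : Subgroup Γ}
    (hB₀ : ∀ b ∈ B₀, α * b * α⁻¹ ∈ B₀) (n : ℕ) : ∀ b ∈ B₀, α ^ n * b * (α ^ n)⁻¹ ∈ B₀ := by
  induction n with
  | zero =>
    intro b hb
    simpa using hb
  | succ n ih =>
    intro b hb
    have h1 := hB₀ _ (ih b hb)
    have h2 : α * (α ^ n * b * (α ^ n)⁻¹) * α⁻¹ = α ^ (n + 1) * b * (α ^ (n + 1))⁻¹ := by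
      rw [pow_succ', mul_inv_rev]
      simp only [mul_assoc]
    rwa [h2] at h1

private theorem sum_conj {F Γ V : Type*} [Field F] [Group Γ] [AddCommGroup V] [Module F V]
    (ρ : Representation F Γ V) (p : ℕ) [Fact p.Prime] (α : Γ) (hα : α ^ p = 1)
    (B₀ : Subgroup Γ) [Fintype B₀] (hB₀ : ∀ b ∈ B₀, α * b * α⁻¹ ∈ B₀)
    (hBα : ∀ b ∈ B₀, α * b = b * α → b = 1) (v : V) (i : ℕ) (hi0 : i ≠ 0) (hip : i < p) :
    ∑ c : B₀, ρ ((c : Γ) * α ^ i * (c : Γ)⁻¹) v = ∑ b : B₀, ρ ((b : Γ) * α ^ i) v := by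
  have hpp : p.Prime := Fact.out
  have hmem : ∀ c : B₀, (c : Γ) * (α ^ i * (c : Γ)⁻¹ * (α ^ i)⁻¹) ∈ B₀ := fun c =>
    B₀.mul_mem c.2 (conj_pow_mem hB₀ i _ (B₀.inv_mem c.2))
  have hcop : Nat.Coprime i p :=
    (Nat.Coprime.symm ((Nat.Prime.coprime_iff_not_dvd hpp).2
      (fun h => absurd (Nat.le_of_dvd (Nat.pos_of_ne_zero hi0) h) (not_le.2 hip))))
  obtain ⟨j, -, hj⟩ := Nat.exists_mul_mod_eq_one_of_coprime hcop hpp.one_lt
  have hαj : (α ^ i) ^ j = α := by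
    rw [← pow_mul, pow_eq_pow_mod (i * j) hα, hj, pow_one]
  have hinj : Function.Injective (fun c : B₀ => (⟨_, hmem c⟩ : B₀)) := by
    intro c d hcd
    have h1 : (c : Γ) * (α ^ i * (c : Γ)⁻¹ * (α ^ i)⁻¹) =
        (d : Γ) * (α ^ i * (d : Γ)⁻¹ * (α ^ i)⁻¹) := congrArg Subtype.val hcd
    have h2 : Commute ((d : Γ)⁻¹ * (c : Γ)) (α ^ i) := by
      have h1' : (c : Γ) * α ^ i * (c : Γ)⁻¹ = (d : Γ) * α ^ i * (d : Γ)⁻¹ := by
        have h4 := congrArg (fun x => x * α ^ i) h1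
        simpa [mul_assoc] using h4
      have h3 : (c : Γ) * α ^ i = (d : Γ) * α ^ i * (d : Γ)⁻¹ * (c : Γ) := by
        rw [← h1']
        simp
      rw [Commute, SemiconjBy, mul_assoc, h3]
      simp [mul_assoc]
    have h3 : Commute ((d : Γ)⁻¹ * (c : Γ)) α := by
      have h4 := h2.pow_right j
      rwa [hαj] at h4
    have h5 := hBα _ (B₀.mul_mem (B₀.inv_mem d.2) c.2) h3.symm
    rw [inv_mul_eq_one] at h5
    exact Subtype.ext h5.symm
  have hbij : Function.Bijective (fun c : B₀ => (⟨_, hmem c⟩ : B₀)) :=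
    Finite.injective_iff_bijective.1 hinj
  rw [← hbij.sum_comp (fun b : B₀ => ρ ((b : Γ) * α ^ i) v)]
  refine Finset.sum_congr rfl fun c _ => ?_
  have h1 : (c : Γ) * (α ^ i * (c : Γ)⁻¹ * (α ^ i)⁻¹) * α ^ i = (c : Γ) * α ^ i * (c : Γ)⁻¹ := by
    group
  show ρ ((c : Γ) * α ^ i * (c : Γ)⁻¹) v =
    ρ ((c : Γ) * (α ^ i * (c : Γ)⁻¹ * (α ^ i)⁻¹) * α ^ i) v
  rw [h1]

theorem fpfA {F Γ V : Type*} [Field F] [Group Γ] [Finite Γ] [AddCommGroup V] [Module F V]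
    (ρ : Representation F Γ V) (p : ℕ) [Fact p.Prime] (α : Γ) (hα : α ^ p = 1)
    (B₀ : Subgroup Γ) (hB₀ : ∀ b ∈ B₀, α * b * α⁻¹ ∈ B₀)
    (hBα : ∀ b ∈ B₀, α * b = b * α → b = 1) (hB : (Nat.card B₀ : F) ≠ 0)
    (hC : ∀ v, ρ α v = v → v = 0) : ∀ b ∈ B₀, ρ b = 1 := by
  classical
  have hpp : p.Prime := Fact.out
  letI : Fintype B₀ := Fintype.ofFinite B₀
  have hS : ∀ v, (Nat.card B₀ : F) • v = ∑ b : B₀, ρ (b : Γ) v := by
    intro v
    obtain ⟨m, hm⟩ : ∃ m, p = m + 1 := ⟨p - 1, (Nat.succ_pred_eq_of_pos hpp.pos).symm⟩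
    have e1 : ∑ b : B₀, ρ (b : Γ) v +
        ∑ i ∈ Finset.range m, ∑ b : B₀, ρ ((b : Γ) * α ^ (i + 1)) v = 0 := by
      have h1 : ∑ b : B₀, ρ (b : Γ) (∑ i ∈ Finset.range p, ρ (α ^ i) v) = 0 := by
        rw [sum_fix ρ p α hα hC v]
        simp
      rw [← h1, Finset.sum_comm, ← Finset.sum_add_distrib]
      refine Finset.sum_congr rfl fun b _ => ?_
      rw [hm, Finset.sum_range_succ', map_add, map_sum, pow_zero, map_one, Module.End.one_apply,
        add_comm]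
      congr 1
      refine Finset.sum_congr rfl fun i _ => ?_
      rw [map_mul, Module.End.mul_apply]
    have e2 : (Nat.card B₀ : F) • v +
        ∑ i ∈ Finset.range m, ∑ b : B₀, ρ ((b : Γ) * α ^ (i + 1)) v = 0 := by
      have h1 : ∑ c : B₀, ρ (c : Γ) (∑ i ∈ Finset.range p, ρ (α ^ i) (ρ ((c : Γ)⁻¹) v)) = 0 := by
        refine Finset.sum_eq_zero fun c _ => ?_
        rw [sum_fix ρ p α hα hC, map_zero]
      have h2 : ∀ i ∈ Finset.range m, ∑ b : B₀, ρ ((b : Γ) * α ^ (i + 1)) v =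
          ∑ c : B₀, ρ ((c : Γ) * α ^ (i + 1) * (c : Γ)⁻¹) v := by
        intro i hi
        exact (sum_conj ρ p α hα B₀ hB₀ hBα v (i + 1) (Nat.succ_ne_zero i)
          (by rw [hm]; exact Nat.succ_lt_succ (Finset.mem_range.1 hi))).symm
      have h3 : (Nat.card B₀ : F) • v = ∑ _c : B₀, v := by
        rw [Finset.sum_const, Finset.card_univ, Nat.card_eq_fintype_card, Nat.cast_smul_eq_nsmul]
      rw [Finset.sum_congr rfl h2, ← h1, Finset.sum_comm, h3, ← Finset.sum_add_distrib]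
      refine Finset.sum_congr rfl fun c _ => ?_
      rw [hm, Finset.sum_range_succ', map_add, map_sum, pow_zero, map_one, Module.End.one_apply,
        add_comm]
      congr 1
      · refine Finset.sum_congr rfl fun i _ => ?_
        rw [map_mul, map_mul, Module.End.mul_apply, Module.End.mul_apply]
      · rw [← Module.End.mul_apply, ← map_mul, mul_inv_cancel, map_one, Module.End.one_apply]
    exact add_right_cancel (e2.trans e1.symm)
  intro b hb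
  refine LinearMap.ext fun v => ?_
  rw [Module.End.one_apply]
  have h1 : (Nat.card B₀ : F) • ρ b v = (Nat.card B₀ : F) • v := by
    rw [← map_smul, hS v, map_sum]
    have h2 : ∀ c : B₀, ρ b (ρ (c : Γ) v) = ρ (((⟨b, hb⟩ : B₀) * c : B₀) : Γ) v := by
      intro c
      rw [Subgroup.coe_mul, map_mul, Module.End.mul_apply]
    rw [Finset.sum_congr rfl fun c _ => h2 c]
    exact (Group.mulLeft_bijective (⟨b, hb⟩ : B₀)).sum_comp (fun c : B₀ => ρ (c : Γ) v)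
  exact smul_right_injective V hB h1

end H78TP
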