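import Pool.Agent.H78.TP.FpfA
import Pool.Agent.H78.TP.CoA
import Pool.Agent.H78.TP.Irr
import Pool.Agent.H78.TP.Uni

/-!
[H78 TP FPFB] Modules without fixed points (45-60 min).

PROOF. Induction on the dimension of `V`. If there is an invariant submodule `S ≠ ⊥, ⊤`: `hV`
holds for `S`, and for `V ⧸ S`: if `ρ α v - v ∈ S` then `v' = ∑ s < p, ρ (α ^ s) v` is fixed by `α`, so
`0 = v' ≡ p v` modulo `S`, and `p ≠ 0` in `ZMod s`, so `v ∈ S`. By induction and `uni2` `ρ g = 1`.
Let `V` be irreducible, `N = ρ.ker`, `π : Γ →* Γ ⧸ N`, `ρ'` the injective representation of `Γ ⧸ N`.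
Suppose `K.map π ≠ ⊥`. It is soluble and normal; let `B₀` be its last nontrivial derived subgroup, an
abelian normal subgroup `≠ ⊥` of `Γ ⧸ N`. By `irr_ord` the orders of its elements are prime to `s`,
so `s ∤ |B₀|` (Cauchy). If `b ∈ B₀` commutes with `π α` then by `coA` `b = π c` with `c ∈ K`
commuting with `α`, so `c = 1` by `hKα` and `b = 1`. By `fpfA` `B₀` acts trivially, a
contradiction. So `K ≤ N` and `ρ g = 1` for `g ∈ K`.
-/

namespace H78TP

open Subgroup
open scoped commutatorElement

universe v

private theorem fpfB_last {G : Type*} [Group G] (K : Subgroup G) (hK : K.Normal)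
    (hs : Group.IsSolvable K) (hne : K ≠ ⊥) :
    ∃ B : Subgroup G, B.Normal ∧ B ≤ K ∧ B ≠ ⊥ ∧ ∀ x ∈ B, ∀ y ∈ B, x * y = y * x := by
  classical
  obtain ⟨n, hn⟩ := hs
  have h1 : dS K n = ⊥ := by
    have h2 := dS_map K.subtype (⊤ : Subgroup K) n
    rw [← MonoidHom.range_eq_map, Subgroup.range_subtype, dS_top_eq, hn, Subgroup.map_bot] at h2
    exact h2.symm
  have hex : ∃ n, dS K n = ⊥ := ⟨n, h1⟩
  obtain ⟨m, hm⟩ : ∃ m, Nat.find hex = m + 1 := by
    refine Nat.exists_eq_succ_of_ne_zero fun h0 => hne ?_
    have h2 := Nat.find_spec hex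
    rw [h0] at h2
    exact h2
  have hbot : dS K (m + 1) = ⊥ := by
    rw [← hm]
    exact Nat.find_spec hex
  refine ⟨dS K m, dS_normal hK m, dS_le K m, Nat.find_min hex (by omega), ?_⟩
  intro x hx y hy
  rw [dS_succ] at hbot
  have h2 : ⁅x, y⁆ ∈ ⁅dS K m, dS K m⁆ := Subgroup.commutator_mem_commutator hx hy
  rw [hbot, Subgroup.mem_bot, commutatorElement_eq_one_iff_mul_comm] at h2
  exact h2

private theorem fpfB_irr (s p : ℕ) [Fact s.Prime] [Fact p.Prime] {Γ V : Type*} [Group Γ]
    [Finite Γ] [AddCommGroup V] [Module (ZMod s) V] [Finite V]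
    (ρ : Representation (ZMod s) Γ V) (K : Subgroup Γ) (hK : K.Normal)
    (hs : Group.IsSolvable K) (hp : ¬ p ∣ Nat.card K) (α : Γ) (hα : α ^ p = 1)
    (hKα : ∀ c ∈ K, α * c = c * α → c = 1) (hV : ∀ v, ρ α v = v → v = 0)
    (hirr : ∀ S : Submodule (ZMod s) V, (∀ g, ∀ w ∈ S, ρ g w ∈ S) → S = ⊥ ∨ S = ⊤) :
    ∀ g ∈ K, ρ g = 1 := by
  haveI hfV : Module.Finite (ZMod s) V := inferInstance
  set N : Subgroup Γ := ρ.ker with hN
  haveI : N.Normal := MonoidHom.normal_ker ρ
  let ρ' : Representation (ZMod s) (Γ ⧸ N) V := QuotientGroup.lift N ρ le_rfl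
  have hρ' : ∀ g : Γ, ρ' (QuotientGroup.mk' N g) = ρ g := fun g => rfl
  have hone : ∀ x : Γ ⧸ N, ρ' x = 1 → x = 1 := by
    intro x hx
    obtain ⟨g, rfl⟩ := QuotientGroup.mk'_surjective N x
    rw [hρ'] at hx
    exact (QuotientGroup.eq_one_iff g).2 hx
  have hinj : Function.Injective ρ' := by
    intro x y hxy
    have h1 : ρ' (x * y⁻¹) = 1 := by
      rw [map_mul, hxy, ← map_mul, mul_inv_cancel, map_one]
    exact mul_inv_eq_one.1 (hone _ h1)
  have hsur := QuotientGroup.mk'_surjective N
  have hbot : K.map (QuotientGroup.mk' N) = ⊥ := by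
    by_contra hne
    have hKn : (K.map (QuotientGroup.mk' N)).Normal := hK.map _ hsur
    have hKs : Group.IsSolvable (K.map (QuotientGroup.mk' N)) :=
      Group.isSolvable_of_surjective ((QuotientGroup.mk' N).subgroupMap_surjective K)
    obtain ⟨B, hB1, hB2, hB3, hB4⟩ := fpfB_last _ hKn hKs hne
    have hord := irr_ord s ρ' hinj (fun S hS => hirr S fun g w hw =>
      hS (QuotientGroup.mk' N g) w hw) B hB1 hB4
    have hcard : (Nat.card B : ZMod s) ≠ 0 := by
      rw [Ne, ZMod.natCast_eq_zero_iff]
      intro hd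
      obtain ⟨x, hx⟩ := exists_prime_orderOf_dvd_card' s hd
      refine hord x x.2 ?_
      rw [Subgroup.orderOf_coe, hx, ZMod.natCast_self]
    have hBα : ∀ b ∈ B, QuotientGroup.mk' N α * b = b * QuotientGroup.mk' N α → b = 1 := by
      intro b hb hc
      have h1 : b ∈ K.map (QuotientGroup.mk' N) ⊓ centralizer {QuotientGroup.mk' N α} := by
        refine ⟨hB2 hb, Subgroup.mem_centralizer_iff.2 ?_⟩
        intro y hy
        rw [Set.mem_singleton_iff.1 hy]
        exact hc
      rw [coA (QuotientGroup.mk' N) hsur p K hK hp α hα] at h1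
      obtain ⟨c, ⟨hcK, hcα⟩, rfl⟩ := h1
      have h2 : c = 1 := hKα c hcK ((Subgroup.mem_centralizer_iff.1 hcα) α
        (Set.mem_singleton α))
      rw [h2, map_one]
    have hfix := fpfA ρ' p (QuotientGroup.mk' N α) (by rw [← map_pow, hα, map_one]) B
      (fun b hb => hB1.conj_mem b hb _) hBα hcard hV
    apply hB3
    rw [Subgroup.eq_bot_iff_forall]
    exact fun b hb => hone b (hfix b hb)
  intro g hg
  rw [Subgroup.map_eq_bot_iff, QuotientGroup.ker_mk'] at hbot
  exact hbot hg

private theorem fpfB_aux (s p : ℕ) [Fact s.Prime] [Fact p.Prime] (hsp : p ≠ s) {Γ : Type*}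
    [Group Γ] [Finite Γ] (K : Subgroup Γ) (hK : K.Normal)
    (hs : Group.IsSolvable K) (hp : ¬ p ∣ Nat.card K) (α : Γ) (hα : α ^ p = 1)
    (hKα : ∀ c ∈ K, α * c = c * α → c = 1) :
    ∀ (n : ℕ) (V : Type v) [AddCommGroup V] [Module (ZMod s) V] [Finite V]
      (ρ : Representation (ZMod s) Γ V), Nat.card V ≤ n → (∀ v, ρ α v = v → v = 0) →
      ∀ g ∈ K, ¬ s ∣ orderOf g → ρ g = 1 := by
  intro n
  induction n with
  | zero =>
    intro V _ _ _ ρ hn
    exact absurd hn (not_le.2 Nat.card_pos)
  | succ n ih =>
    intro V _ _ _ ρ hn hV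
    by_cases hirr : ∀ S : Submodule (ZMod s) V, (∀ g, ∀ w ∈ S, ρ g w ∈ S) → S = ⊥ ∨ S = ⊤
    · intro g hg _
      exact fpfB_irr s p ρ K hK hs hp α hα hKα hV hirr g hg
    · push Not at hirr
      obtain ⟨S, hS, hS1, hS2⟩ := hirr
      haveI hfQ : Finite (V ⧸ S) := Finite.of_surjective _ (Submodule.Quotient.mk_surjective S)
      have hcS : Nat.card S * Nat.card (V ⧸ S) = Nat.card V :=
        (Submodule.card_eq_card_quotient_mul_card S).symm
      have h1S : 1 < Nat.card S := by
        haveI := (Submodule.nontrivial_iff_ne_bot).2 hS1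
        exact Finite.one_lt_card
      have h1Q : 1 < Nat.card (V ⧸ S) := by
        haveI := Submodule.Quotient.nontrivial_iff.2 hS2
        exact Finite.one_lt_card
      have hSn : Nat.card S ≤ n := by
        have : Nat.card S < Nat.card V := by
          rw [← hcS]
          exact lt_mul_of_one_lt_right Nat.card_pos h1Q
        omega
      have hQn : Nat.card (V ⧸ S) ≤ n := by
        have : Nat.card (V ⧸ S) < Nat.card V := by
          rw [← hcS]
          exact lt_mul_of_one_lt_left Nat.card_pos h1S
        omega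
      let ρS : Representation (ZMod s) Γ S :=
        { toFun := fun g => (ρ g).restrict (hS g)
          map_one' := by
            apply LinearMap.ext
            intro w
            apply Subtype.ext
            show ρ 1 w.1 = w.1
            rw [map_one]
            rfl
          map_mul' := by
            intro g h
            apply LinearMap.ext
            intro w
            apply Subtype.ext
            show ρ (g * h) w.1 = ρ g (ρ h w.1)
            rw [map_mul]
            rfl }
      have hρS : ∀ g (w : S), ((ρS g w : S) : V) = ρ g w.1 := fun g w => rfl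
      let ρQ : Representation (ZMod s) Γ (V ⧸ S) :=
        { toFun := fun g => S.mapQ S (ρ g) (fun w hw => hS g w hw)
          map_one' := by
            apply LinearMap.ext
            intro w
            obtain ⟨w, rfl⟩ := Submodule.Quotient.mk_surjective S w
            show Submodule.Quotient.mk (ρ 1 w) = Submodule.Quotient.mk w
            rw [map_one]
            rfl
          map_mul' := by
            intro g h
            apply LinearMap.ext
            intro w
            obtain ⟨w, rfl⟩ := Submodule.Quotient.mk_surjective S w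
            show Submodule.Quotient.mk (ρ (g * h) w) =
              Submodule.Quotient.mk (p := S) (ρ g (ρ h w))
            rw [map_mul]
            rfl }
      have hρQ : ∀ g (w : V), ρQ g (Submodule.Quotient.mk w) =
        Submodule.Quotient.mk (p := S) (ρ g w) := fun g w => rfl
      have hS' := ih S ρS hSn (fun w hw => by
        apply Subtype.ext
        apply hV
        rw [← hρS, hw])
      have hQ' := ih (V ⧸ S) ρQ hQn (fun w hw => by
        obtain ⟨w, rfl⟩ := Submodule.Quotient.mk_surjective S w
        rw [hρQ, Submodule.Quotient.eq] at hw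
        rw [Submodule.Quotient.mk_eq_zero]
        have hi : ∀ i : ℕ, ρ (α ^ i) w - w ∈ S := by
          intro i
          induction i with
          | zero =>
            rw [pow_zero, map_one]
            show w - w ∈ S
            rw [sub_self]
            exact S.zero_mem
          | succ i ihi =>
            have e : ρ (α ^ (i + 1)) w - w = ρ (α ^ i) (ρ α w - w) + (ρ (α ^ i) w - w) := by
              rw [pow_succ, map_mul, map_sub]
              show ρ (α ^ i) (ρ α w) - w = ρ (α ^ i) (ρ α w) - ρ (α ^ i) w + (ρ (α ^ i) w - w)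
              abel
            rw [e]
            exact S.add_mem (hS _ _ hw) ihi
        have hsum : ∑ i ∈ Finset.range p, ρ (α ^ i) w = 0 := by
          apply hV
          rw [map_sum]
          have e1 : ∀ i ∈ Finset.range p, ρ α (ρ (α ^ i) w) = ρ (α ^ (i + 1)) w := by
            intro i _
            rw [pow_succ', map_mul]
            rfl
          rw [Finset.sum_congr rfl e1]
          have e2 := Finset.sum_range_succ' (fun i => ρ (α ^ i) w) p
          have e3 := Finset.sum_range_succ (fun i => ρ (α ^ i) w) p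
          rw [e2, hα, pow_zero] at e3
          exact add_right_cancel e3
        have hpw : (p : ZMod s) • w ∈ S := by
          have e : (p : ZMod s) • w = -∑ i ∈ Finset.range p, (ρ (α ^ i) w - w) := by
            rw [Finset.sum_sub_distrib, hsum, Finset.sum_const, Finset.card_range, zero_sub,
              neg_neg, Nat.cast_smul_eq_nsmul]
          rw [e]
          exact S.neg_mem (S.sum_mem fun i _ => hi i)
        have hp0 : (p : ZMod s) ≠ 0 := by
          rw [Ne, ZMod.natCast_eq_zero_iff,
            Nat.prime_dvd_prime_iff_eq (Fact.out : s.Prime) (Fact.out : p.Prime)]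
          exact fun h => hsp h.symm
        exact (S.smul_mem_iff hp0).1 hpw)
      intro g hg hgs
      refine uni2 ρ S g ?_ ?_ ?_
      · intro w hw
        have h1 := hS' g hg hgs
        have h2 := congrArg (fun f => ((f (⟨w, hw⟩ : S) : S) : V)) h1
        exact h2
      · intro w
        have h1 := hQ' g hg hgs
        have h2 := congrArg (fun f => f (Submodule.Quotient.mk (p := S) w)) h1
        simp only [hρQ] at h2
        exact (Submodule.Quotient.eq S).1 h2
      · rw [Ne, ZMod.natCast_eq_zero_iff]
        exact hgs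

theorem fpfB (s p : ℕ) [Fact s.Prime] [Fact p.Prime] (hsp : p ≠ s) {Γ V : Type*} [Group Γ]
    [Finite Γ] [AddCommGroup V] [Module (ZMod s) V] [Finite V]
    (ρ : Representation (ZMod s) Γ V) (K : Subgroup Γ) (hK : K.Normal)
    (hs : Group.IsSolvable K) (hp : ¬ p ∣ Nat.card K) (α : Γ) (hα : α ^ p = 1)
    (hKα : ∀ c ∈ K, α * c = c * α → c = 1) (hV : ∀ v, ρ α v = v → v = 0) :
    ∀ g ∈ K, ¬ s ∣ orderOf g → ρ g = 1 := by
  exact fpfB_aux s p hsp K hK hs hp α hα hKα (Nat.card V) V ρ le_rfl hV

end H78TP
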