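import Pool.Agent.H78.TP.Base

/-!
[H78 TP FRAA] The Frattini subgroup of a finite `s`-group (30 min).

PROOF. `phi_le`: closure. `phi_conj`: conjugation by an element which normalises `W` permutes the
generators. `phi_normal` from `phi_conj`. `phi_gen`: if `T < W`, let `M` be a maximal subgroup of
(the group) `W` containing `T`. `W` is a finite `s`-group, so `M` is normal of index `s` in `W`,
`W / M` has order `s`, so it is abelian of exponent `s`, so `Phi s W ≤ M`, and
`T ⊔ Phi s W ≤ M < W`, a contradiction.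
-/

namespace H78TP

open Subgroup
open scoped commutatorElement

theorem phi_le {X : Type*} [Group X] (s : ℕ) (W : Subgroup X) : Phi s W ≤ W := by
  rw [Phi, Subgroup.closure_le]
  rintro x (⟨w, hw, rfl⟩ | ⟨w, hw, w', hw', rfl⟩)
  · exact pow_mem hw s
  · rw [SetLike.mem_coe, commutatorElement_def]
    exact mul_mem (mul_mem (mul_mem hw hw') (inv_mem hw)) (inv_mem hw')

theorem phi_conj {X : Type*} [Group X] (s : ℕ) (W : Subgroup X) (g : X)
    (h1 : ∀ w ∈ W, g * w * g⁻¹ ∈ W) : ∀ w ∈ Phi s W, g * w * g⁻¹ ∈ Phi s W := by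
  intro w hw
  rw [Phi] at hw
  induction hw using Subgroup.closure_induction with
  | mem x hx =>
    rcases hx with ⟨w, hw, rfl⟩ | ⟨w, hw, w', hw', rfl⟩
    · rw [← conj_pow]
      exact Subgroup.subset_closure (Or.inl ⟨_, h1 w hw, rfl⟩)
    · have h2 : g * ⁅w, w'⁆ * g⁻¹ = ⁅g * w * g⁻¹, g * w' * g⁻¹⁆ := by
        simp only [commutatorElement_def]
        group
      rw [h2]
      exact Subgroup.subset_closure (Or.inr ⟨_, h1 w hw, _, h1 w' hw', rfl⟩)
  | one => simp
  | mul x y _ _ hx hy =>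
    have h2 : g * (x * y) * g⁻¹ = (g * x * g⁻¹) * (g * y * g⁻¹) := by group
    rw [h2]
    exact mul_mem hx hy
  | inv x _ hx =>
    have h2 : g * x⁻¹ * g⁻¹ = (g * x * g⁻¹)⁻¹ := by group
    rw [h2]
    exact inv_mem hx

theorem phi_normal {X : Type*} [Group X] (s : ℕ) (W : Subgroup X) (hW : W.Normal) :
    (Phi s W).Normal := ⟨fun w hw g => phi_conj s W g (fun w hw => hW.conj_mem w hw g) w hw⟩

theorem phi_pow {X : Type*} [Group X] (s : ℕ) (W : Subgroup X) {w : X} (hw : w ∈ W) :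
    w ^ s ∈ Phi s W := Subgroup.subset_closure (Or.inl ⟨w, hw, rfl⟩)

theorem phi_comm {X : Type*} [Group X] (s : ℕ) (W : Subgroup X) {w w' : X} (hw : w ∈ W)
    (hw' : w' ∈ W) : ⁅w, w'⁆ ∈ Phi s W := Subgroup.subset_closure (Or.inr ⟨w, hw, w', hw', rfl⟩)

theorem phi_gen {X : Type*} [Group X] [Finite X] (s : ℕ) [Fact s.Prime] (W T : Subgroup X)
    (hW : IsPGroup s W) (hT : T ≤ W) (h : W ≤ T ⊔ Phi s W) : T = W := by
  by_contra hne
  have h1 : T.subgroupOf W ≠ ⊤ := by
    intro h2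
    exact hne (le_antisymm hT (Subgroup.subgroupOf_eq_top.1 h2))
  obtain ⟨M, hM, hTM⟩ := (eq_top_or_exists_le_coatom (T.subgroupOf W)).resolve_left h1
  have hnil : Group.IsNilpotent W := hW.isNilpotent
  have hMn : M.Normal := Subgroup.NormalizerCondition.normal_of_coatom M
    Group.normalizerCondition_of_isNilpotent hM
  have hQp : IsPGroup s (W ⧸ M) := hW.to_quotient M
  have hQn : Nontrivial (W ⧸ M) := QuotientGroup.nontrivial_iff.2 hM.1
  have hdvd : s ∣ Nat.card (W ⧸ M) := by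
    obtain ⟨n, hn⟩ := IsPGroup.iff_card.1 hQp
    have h3 : 1 < Nat.card (W ⧸ M) := Finite.one_lt_card
    rw [hn] at h3 ⊢
    have h4 : n ≠ 0 := by
      rintro rfl
      simp at h3
    exact dvd_pow_self s h4
  obtain ⟨x, hx⟩ := exists_prime_orderOf_dvd_card' s hdvd
  have hz : (Subgroup.zpowers x).comap (QuotientGroup.mk' M) = ⊤ := by
    apply hM.2
    refine lt_of_le_of_ne ?_ ?_
    · intro m hm
      rw [Subgroup.mem_comap]
      have h5 : QuotientGroup.mk' M m = 1 := (QuotientGroup.eq_one_iff m).2 hm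
      rw [h5]
      exact one_mem _
    · intro h5
      have h6 : Subgroup.zpowers x = ⊥ := by
        rw [eq_bot_iff]
        intro y hy
        obtain ⟨w, rfl⟩ := QuotientGroup.mk'_surjective M y
        have h7 : w ∈ (Subgroup.zpowers x).comap (QuotientGroup.mk' M) := hy
        rw [← h5] at h7
        exact (QuotientGroup.eq_one_iff w).2 h7
      rw [Subgroup.zpowers_eq_bot] at h6
      rw [h6, orderOf_one] at hx
      exact (Fact.out : s.Prime).one_lt.ne hx
  have hall : ∀ w : W, ∃ k : ℤ, x ^ k = QuotientGroup.mk' M w := by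
    intro w
    have h5 : w ∈ (Subgroup.zpowers x).comap (QuotientGroup.mk' M) := by
      rw [hz]
      exact Subgroup.mem_top w
    exact Subgroup.mem_zpowers_iff.1 h5
  have hPhi : Phi s W ≤ M.map W.subtype := by
    rw [Phi, Subgroup.closure_le]
    rintro y (⟨w, hw, rfl⟩ | ⟨w, hw, w', hw', rfl⟩)
    · refine ⟨⟨w, hw⟩ ^ s, ?_, rfl⟩
      rw [SetLike.mem_coe, ← QuotientGroup.eq_one_iff]
      obtain ⟨k, hk⟩ := hall ⟨w, hw⟩
      change (QuotientGroup.mk' M) (⟨w, hw⟩ ^ s) = 1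
      rw [map_pow, ← hk, ← zpow_natCast, ← zpow_mul, mul_comm, zpow_mul, zpow_natCast, ← hx,
        pow_orderOf_eq_one, one_zpow]
    · refine ⟨⁅(⟨w, hw⟩ : W), ⟨w', hw'⟩⁆, ?_, rfl⟩
      rw [SetLike.mem_coe, ← QuotientGroup.eq_one_iff]
      obtain ⟨k, hk⟩ := hall ⟨w, hw⟩
      obtain ⟨k', hk'⟩ := hall ⟨w', hw'⟩
      change (QuotientGroup.mk' M) ⁅(⟨w, hw⟩ : W), ⟨w', hw'⟩⁆ = 1
      rw [map_commutatorElement, ← hk, ← hk', commutatorElement_eq_one_iff_mul_comm]
      exact (Commute.zpow_zpow (Commute.refl x) k k').eq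
  have hTM' : T ≤ M.map W.subtype := by
    intro t ht
    exact ⟨⟨t, hT ht⟩, hTM (Subgroup.mem_subgroupOf.2 ht), rfl⟩
  have hWM : W ≤ M.map W.subtype := h.trans (sup_le hTM' hPhi)
  apply hM.1
  rw [eq_top_iff]
  intro w _
  obtain ⟨m, hm, hmw⟩ := hWM w.2
  have h8 : m = w := Subtype.ext hmw
  rwa [← h8]

end H78TP
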