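import Pool.Agent.H78.TP.NilSyl

/-!
[H78 TP LAYA] `C(O_p) ≤ O_p` for a finite soluble group without normal `p'`-subgroups
(45-60 min).

PROOF. (1) Every normal subgroup `M` of `F` with `gam M c = ⊥` (nilpotent) is contained in `W`: for
a prime `l ≠ p` dividing `|M|` let `S` be from `nilSyl`: a normal `l`-subgroup `≠ ⊥` of `F` (its
index in `M` is prime to `l`), of order prime to `p`: contradiction to `hO`. So `M` is a
`p`-group (all prime divisors of its order are `p`), and `M ≤ W` by `hmax`.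
(2) Let `C = centralizer W` (normal) and `Z = C ⊓ W` (normal). Suppose `¬ C ≤ W`, so `Z < C`. The
image `C̄` of `C` in `F ⧸ Z` is a nontrivial normal subgroup, soluble; let `dS C̄ i` be its last
nontrivial derived subgroup (`dS C̄ (i + 1) = ⊥`), normal in `F ⧸ Z` (`dS_normal`) and abelian, and
`M` its preimage in `F`: `M` is normal, `Z < M ≤ C`, `⁅M, M⁆ ≤ Z`, and `⁅Z, M⁆ = ⊥` because
`Z ≤ W` and `M ≤ C`. So `gam M 2 = ⊥`, and by (1) `M ≤ W`, so `M ≤ C ⊓ W = Z`, a contradiction.
-/

namespace H78TP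

open Subgroup
open scoped commutatorElement

theorem layN {F : Type*} [Group F] [Finite F] (p : ℕ) [Fact p.Prime]
    (hO : ∀ N : Subgroup F, N.Normal → ¬ p ∣ Nat.card N → N = ⊥) (W : Subgroup F)
    (hmax : ∀ N : Subgroup F, N.Normal → IsPGroup p N → N ≤ W) (M : Subgroup F)
    (hM : M.Normal) (c : ℕ) (hc : gam M c = ⊥) : M ≤ W := by
  apply hmax M hM
  have hcard : Nat.card M ≠ 0 := Nat.card_pos.ne'
  have h1 := Nat.eq_prime_pow_of_unique_prime_dvd (p := p) hcard (by
    intro l hl hlM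
    by_contra hlp
    have hlf : Fact l.Prime := ⟨hl⟩
    obtain ⟨S, hSn, hSM, hSp, hSi⟩ := nilSyl M hM c hc l
    have h2 : Nat.card S * S.relIndex M = Nat.card M := by
      rw [← Subgroup.relIndex_bot_left, ← Subgroup.relIndex_bot_left,
        Subgroup.relIndex_mul_relIndex _ _ _ bot_le hSM]
    have h3 : l ∣ Nat.card S := by
      rw [← h2] at hlM
      exact (hl.dvd_mul.1 hlM).resolve_right hSi
    obtain ⟨n, hn⟩ := IsPGroup.iff_card.1 hSp
    have h4 : ¬ p ∣ Nat.card S := by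
      rw [hn]
      intro h5
      exact hlp ((Nat.prime_dvd_prime_iff_eq (Fact.out : p.Prime) hl).1
        ((Fact.out : p.Prime).dvd_of_dvd_pow h5)).symm
    have h6 := hO S hSn h4
    rw [h6, Subgroup.card_bot] at h3
    exact hl.one_lt.ne' (Nat.dvd_one.1 h3))
  exact IsPGroup.of_card h1

theorem layA {F : Type*} [Group F] [Finite F] (hs : Group.IsSolvable F) (p : ℕ) [Fact p.Prime]
    (hO : ∀ N : Subgroup F, N.Normal → ¬ p ∣ Nat.card N → N = ⊥) (W : Subgroup F)
    (hW : W.Normal) (hWp : IsPGroup p W)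
    (hmax : ∀ N : Subgroup F, N.Normal → IsPGroup p N → N ≤ W) :
    centralizer (W : Set F) ≤ W := by
  by_contra hCW
  set C := centralizer (W : Set F) with hC
  have hCn : C.Normal := by
    rw [hC]
    infer_instance
  set Z := C ⊓ W with hZ
  have hZn : Z.Normal := by
    rw [hZ]
    infer_instance
  set f := QuotientGroup.mk' Z with hf
  have hker : ∀ x, f x = 1 ↔ x ∈ Z := fun x => QuotientGroup.eq_one_iff x
  have hex : ∃ n, dS (C.map f) n = ⊥ := by
    have h1 : Group.IsSolvable (F ⧸ Z) := by infer_instance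
    obtain ⟨n, hn⟩ := h1.solvable
    refine ⟨n, ?_⟩
    rw [eq_bot_iff, ← hn, ← dS_top_eq]
    exact dS_mono le_top n
  classical
  have hne0 : dS (C.map f) 0 ≠ ⊥ := by
    intro h1
    apply hCW
    intro x hx
    have h2 : f x ∈ dS (C.map f) 0 := ⟨x, hx, rfl⟩
    rw [h1, Subgroup.mem_bot, hker] at h2
    exact h2.2
  obtain ⟨i, hi, hi'⟩ : ∃ i, dS (C.map f) i ≠ ⊥ ∧ dS (C.map f) (i + 1) = ⊥ := by
    have h1 := Nat.find_spec hex
    have h2 : Nat.find hex ≠ 0 := by
      intro h3
      rw [h3] at h1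
      exact hne0 h1
    obtain ⟨j, hj⟩ := Nat.exists_eq_succ_of_ne_zero h2
    refine ⟨j, Nat.find_min hex (by omega), ?_⟩
    rw [hj] at h1
    exact h1
  have hDn : (dS (C.map f) i).Normal := dS_normal (hCn.map f (QuotientGroup.mk'_surjective Z)) i
  set M := (dS (C.map f) i).comap f with hM
  have hMn : M.Normal := hDn.comap f
  have hMC : M ≤ C := by
    intro x hx
    have h1 : f x ∈ C.map f := dS_le _ i hx
    obtain ⟨y, hy, hyx⟩ := h1
    have h2 : y⁻¹ * x ∈ Z := by
      rw [← hker, map_mul, map_inv, hyx, inv_mul_cancel]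
    have h3 : x = y * (y⁻¹ * x) := by group
    rw [h3]
    exact mul_mem hy h2.1
  have hMM : ⁅M, M⁆ ≤ Z := by
    rw [Subgroup.commutator_le]
    intro a ha b hb
    rw [← hker, map_commutatorElement]
    have h1 : ⁅f a, f b⁆ ∈ dS (C.map f) (i + 1) := Subgroup.commutator_mem_commutator ha hb
    rwa [hi', Subgroup.mem_bot] at h1
  have hgam : gam M 2 = ⊥ := by
    rw [eq_bot_iff]
    change ⁅⁅M, M⁆, M⁆ ≤ ⊥
    refine (Subgroup.commutator_mono hMM le_rfl).trans ?_
    rw [le_bot_iff, Subgroup.commutator_eq_bot_iff_le_centralizer]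
    intro z hz
    rw [Subgroup.mem_centralizer_iff]
    intro m hm
    have h1 := Subgroup.mem_centralizer_iff.1 (hMC hm) z hz.2
    exact h1.symm
  have hMW : M ≤ W := layN p hO W hmax M hMn 2 hgam
  apply hi
  rw [eq_bot_iff]
  intro y hy
  obtain ⟨x, rfl⟩ := QuotientGroup.mk'_surjective Z y
  have h1 : x ∈ M := hy
  exact (hker x).2 ⟨hMC h1, hMW h1⟩

end H78TP
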