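import Pool.Agent.H78.TP.LayA
import Pool.Agent.H78.TP.FraB

/-!
[H78 TP LAYB] The kernel of the action on `W / Phi(W)` is `W` (45 min).

PROOF. Let `K = {g | ∀ w ∈ W, ⁅g, w⁆ ∈ Phi p W}`. It is a normal subgroup of `F` (the kernel of the
action of `F` on the group `W / Phi p W` by conjugation; `Phi p W` is normal, `phi_normal`). Let
`r ≠ p` be a prime and `g ∈ K` an `r`-element. By `phi_cop` `g` centralises `W`, so `g ∈ W` by
`layA`, an `r`-element in a `p`-group, so `g = 1`. So no prime `r ≠ p` divides `|K|` (Cauchy,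
`exists_prime_orderOf_dvd_card`), `K` is a `p`-group (`IsPGroup.iff_card` or by the orders of
its elements), and `K ≤ W` by `hmax`.
-/

namespace H78TP

open Subgroup
open scoped commutatorElement

private def LayB_K {F : Type*} [Group F] (W N : Subgroup F) (hW : W.Normal) : Subgroup F where
  carrier := {g | ∀ w ∈ W, ⁅g, w⁆ ∈ N}
  one_mem' := by
    intro w _
    rw [commutatorElement_one_left]
    exact one_mem _
  mul_mem' := by
    intro g h hg hh w hw
    have e : ⁅g * h, w⁆ = ⁅g, h * w * h⁻¹⁆ * ⁅h, w⁆ := by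
      simp only [commutatorElement_def]
      group
    rw [e]
    exact mul_mem (hg _ (hW.conj_mem w hw h)) (hh w hw)
  inv_mem' := by
    intro g hg w hw
    have e : ⁅g⁻¹, w⁆ = (⁅g, g⁻¹ * w * g⁻¹⁻¹⁆)⁻¹ := by
      simp only [commutatorElement_def]
      group
    rw [e]
    exact inv_mem (hg _ (hW.conj_mem w hw g⁻¹))

theorem layB {F : Type*} [Group F] [Finite F] (hs : Group.IsSolvable F) (p : ℕ) [Fact p.Prime]
    (hO : ∀ N : Subgroup F, N.Normal → ¬ p ∣ Nat.card N → N = ⊥) (W : Subgroup F)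
    (hW : W.Normal) (hWp : IsPGroup p W)
    (hmax : ∀ N : Subgroup F, N.Normal → IsPGroup p N → N ≤ W) (g : F)
    (hg : ∀ w ∈ W, ⁅g, w⁆ ∈ Phi p W) : g ∈ W := by
  have hΦ : (Phi p W).Normal := phi_normal p W hW
  have hKn : (LayB_K W (Phi p W) hW).Normal := by
    constructor
    intro k hk x w hw
    have e : ⁅x * k * x⁻¹, w⁆ = x * ⁅k, x⁻¹ * w * x⁻¹⁻¹⁆ * x⁻¹ := by
      simp only [commutatorElement_def]
      group
    rw [e]
    exact hΦ.conj_mem _ (hk _ (hW.conj_mem w hw x⁻¹)) x
  have hcard : Nat.card (LayB_K W (Phi p W) hW) ≠ 0 := Nat.card_pos.ne'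
  have h1 := Nat.eq_prime_pow_of_unique_prime_dvd (p := p) hcard (by
    intro l hl hlK
    by_contra hlp
    haveI : Fact l.Prime := ⟨hl⟩
    obtain ⟨x, hx⟩ := exists_prime_orderOf_dvd_card' l hlK
    have hxl : (x : F) ^ l = 1 := by
      have h2 := pow_orderOf_eq_one x
      rw [hx] at h2
      exact_mod_cast congrArg Subtype.val h2
    have hxo : orderOf (x : F) = l := by
      rw [← hx]
      exact Subgroup.orderOf_coe x
    have hcop := phi_cop p l hlp W hWp (x : F) ⟨1, by rw [pow_one]; exact hxl⟩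
      (fun w hw => hW.conj_mem w hw x) (fun w hw => x.2 w hw)
    have hxW : (x : F) ∈ W := by
      apply layA hs p hO W hW hWp hmax
      rw [mem_centralizer_iff]
      intro w hw
      exact (hcop w hw).symm
    obtain ⟨k, hk⟩ := hWp ⟨x, hxW⟩
    have hk' : (x : F) ^ p ^ k = 1 := congrArg Subtype.val hk
    have hd := orderOf_dvd_of_pow_eq_one hk'
    rw [hxo] at hd
    exact hlp ((Nat.prime_dvd_prime_iff_eq hl (Fact.out : p.Prime)).1 (hl.dvd_of_dvd_pow hd)))
  exact hmax _ hKn (IsPGroup.of_card h1) hg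

end H78TP
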