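import Pool.Agent.H78.TP.Base

/-!
[H78 TP LF] Periodic locally soluble groups are locally finite (30-45 min).

PROOF. `S` is finitely generated, soluble (hs) and periodic. Show by induction on the derived
length `n` (`derivedSeries S n = ⊥`), for all groups `S` (state it for a type `S`), that a
finitely generated soluble periodic group is finite: the abelianization `S/S'` is a finitely
generated periodic abelian group, so it is finite (`CommGroup.finite_of_fg_torsion`, or
`Monoid.IsTorsion` + `AddCommGroup.finite_of_fg_torsion`). Hence `S'` (`commutator S`) has finite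
index, so it is finitely generated (Schreier: `Subgroup.fg_of_index_ne_zero`), it is periodic and
`derivedSeries S' (n-1) = ⊥` (`derivedSeries` of the subgroup maps into the derived series). So
`S'` is finite and `S` is finite (finite index and finite subgroup).
-/

namespace H78TP

open Subgroup
open scoped commutatorElement

private theorem lf_ds {S : Type*} [Group S] {n : ℕ} (h : derivedSeries S (n + 1) = ⊥) :
    derivedSeries (commutator S) n = ⊥ := by
  have h1 : (dS (⊤ : Subgroup (commutator S)) n).map (commutator S).subtype = ⊥ := by
    rw [dS_map, ← MonoidHom.range_eq_map, Subgroup.range_subtype]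
    have h2 : commutator S = dS (⊤ : Subgroup S) 1 := rfl
    rw [h2, dS_add, dS_top_eq, add_comm, h]
  rw [← dS_top_eq]
  rwa [Subgroup.map_eq_bot_iff, Subgroup.ker_subtype, le_bot_iff] at h1

private theorem lf_fin {S : Type*} [Group S] {H : Subgroup S} {g : H}
    (h : IsOfFinOrder (g : S)) : IsOfFinOrder g := by
  rw [isOfFinOrder_iff_pow_eq_one] at h ⊢
  obtain ⟨n, hn, h1⟩ := h
  exact ⟨n, hn, Subtype.ext h1⟩

private theorem lf_ind (n : ℕ) : ∀ (S : Type*) [Group S], Group.FG S → (∀ g : S, IsOfFinOrder g) →
    derivedSeries S n = ⊥ → Finite S := by
  induction n with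
  | zero =>
    intro S _ _ _ h
    rw [derivedSeries_zero] at h
    have h1 : Subsingleton S := by
      rw [← Subgroup.subsingleton_iff]
      exact subsingleton_of_bot_eq_top h.symm
    infer_instance
  | succ n ih =>
    intro S _ hfg ht h
    have h1 : Group.FG (Abelianization S) :=
      Group.fg_of_surjective (f := (Abelianization.of : S →* Abelianization S))
        (QuotientGroup.mk'_surjective _)
    have h2 : IsMulTorsion (Abelianization S) := by
      intro x
      obtain ⟨y, rfl⟩ := QuotientGroup.mk'_surjective _ x
      exact MonoidHom.isOfFinOrder (Abelianization.of : S →* Abelianization S) (ht y)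
    have h3 : Finite (Abelianization S) := CommGroup.finite_of_fg_isMulTorsion _ h2
    have h4 : Finite (S ⧸ commutator S) := h3
    have h5 : (commutator S).FiniteIndex := Subgroup.finiteIndex_of_finite_quotient
    have h6 : Group.FG (commutator S) := Subgroup.fg_of_index_ne_zero _
    have h7 : Finite (commutator S) := ih (commutator S) h6
      (fun g => lf_fin (ht g)) (lf_ds h)
    exact Finite.of_equiv _ (Subgroup.groupEquivQuotientProdSubgroup (s := commutator S)).symm

theorem lf {G : Type*} [Group G] (ht : ∀ g : G, IsOfFinOrder g) (hs : LocallySoluble G)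
    (S : Subgroup G) (hS : S.FG) : Finite S := by
  have h1 : Group.IsSolvable S := hs S hS
  obtain ⟨n, hn⟩ := h1.solvable
  exact lf_ind n S ((Group.fg_iff_subgroup_fg S).2 hS)
    (fun g => lf_fin (ht g)) hn

end H78TP
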