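import Pool.Agent.H78.TP.Base

/-!
[H78 TP LOCB] Basic facts on the local situation `Loc` (45 min).

PROOF. `V ≠ ⊥`, so if `τ b` acts on `V` as `lam b` and also as `c` then `lam b = c` (apply to a
nonzero vector). So `lam (b b') = lam b * lam b'`, `lam 1 = 1`, `lam b ≠ 0` for `b, b' ∈ B`. For
`x, y, z ∈ E`: `⁅x y, z⁆ = x ⁅y, z⁆ x⁻¹ ⁅x, z⁆ = ⁅y, z⁆ ⁅x, z⁆` (`⁅y, z⁆ ∈ B` commutes with `x`), so
`lam ⁅x y, z⁆ = lam ⁅x, z⁆ * lam ⁅y, z⁆`; similarly in the second argument; `⁅y, x⁆ = ⁅x, y⁆⁻¹`.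
`loc_exists`: `D` is a subgroup by these rules.
`loc_BD`: `b ∈ B`, `⁅b, e⁆ = 1` by `cen`, and `lam 1 = 1`.
`loc_comm`: `x y = ⁅x, y⁆ y x`, so `τ x (τ y v) = lam ⁅x, y⁆ • τ y (τ x v)`.
`loc_conj`: if `g V ≤ V`, `g⁻¹ V ≤ V`, `g B g⁻¹ ≤ B` then for `b ∈ B`, `v ∈ V`:
`τ (g b g⁻¹) v = τ g (τ b (τ g⁻¹ v)) = lam b • v`, so `lam (g b g⁻¹) = lam b`.
`loc_conjD`: `g e g⁻¹ ∈ D` for `e ∈ D` if moreover `g` and `g⁻¹` normalise `E`:
`lam ⁅g e g⁻¹, e'⁆ = lam (g ⁅e, g⁻¹ e' g⁆ g⁻¹) = lam ⁅e, g⁻¹ e' g⁆ = 1`.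
-/

namespace H78TP

open Subgroup
open scoped commutatorElement

variable {k Γ U : Type*} [Field k] [Group Γ] [AddCommGroup U] [Module k U]

private structure LB0 (τ : Representation k Γ U) (V : Submodule k U) (B E : Subgroup Γ)
    (lam : Γ → k) : Prop where
  ne : V ≠ ⊥
  BE : B ≤ E
  EE : ∀ x ∈ E, ∀ y ∈ E, ⁅x, y⁆ ∈ B
  cen : ∀ b ∈ B, ∀ e ∈ E, b * e = e * b
  inv : ∀ e ∈ E, ∀ v ∈ V, τ e v ∈ V
  sc : ∀ b ∈ B, ∀ v ∈ V, τ b v = lam b • v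

private theorem lb_of {τ : Representation k Γ U} {V : Submodule k U} {B E D : Subgroup Γ}
    {lam : Γ → k} (L : Loc τ V B E D lam) : LB0 τ V B E lam :=
  ⟨L.ne, L.BE, L.EE, L.cen, L.inv, L.sc⟩

private theorem lb_eq {V : Submodule k U} (hV : V ≠ ⊥) {a b : k}
    (h : ∀ v ∈ V, a • v = b • v) : a = b := by
  obtain ⟨v, hv, hv0⟩ := Submodule.exists_mem_ne_zero_of_ne_bot hV
  exact smul_left_injective k hv0 (h v hv)

private theorem lb_one {τ : Representation k Γ U} {V : Submodule k U} {B E : Subgroup Γ}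
    {lam : Γ → k} (L : LB0 τ V B E lam) : lam 1 = 1 := by
  refine lb_eq L.ne fun v hv => ?_
  rw [← L.sc 1 B.one_mem v hv, map_one, one_smul]
  rfl

private theorem lb_mul {τ : Representation k Γ U} {V : Submodule k U} {B E : Subgroup Γ}
    {lam : Γ → k} (L : LB0 τ V B E lam) {b b' : Γ} (hb : b ∈ B) (hb' : b' ∈ B) :
    lam (b * b') = lam b * lam b' := by
  refine lb_eq L.ne fun v hv => ?_
  rw [← L.sc _ (B.mul_mem hb hb') v hv, map_mul, Module.End.mul_apply, L.sc b' hb' v hv, map_smul,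
    L.sc b hb v hv, smul_smul, mul_comm]

private theorem lb_left {τ : Representation k Γ U} {V : Submodule k U} {B E : Subgroup Γ}
    {lam : Γ → k} (L : LB0 τ V B E lam) {x y z : Γ} (hx : x ∈ E) (hy : y ∈ E) (hz : z ∈ E) :
    lam ⁅x * y, z⁆ = lam ⁅x, z⁆ * lam ⁅y, z⁆ := by
  have h1 : ⁅x * y, z⁆ = ⁅y, z⁆ * ⁅x, z⁆ := by
    have h2 : ⁅x * y, z⁆ = x * ⁅y, z⁆ * x⁻¹ * ⁅x, z⁆ := by
      simp only [commutatorElement_def]
      group
    rw [h2, ← L.cen _ (L.EE y hy z hz) x hx, mul_inv_cancel_right]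
  rw [h1, lb_mul L (L.EE y hy z hz) (L.EE x hx z hz), mul_comm]

private theorem lb_right {τ : Representation k Γ U} {V : Submodule k U} {B E : Subgroup Γ}
    {lam : Γ → k} (L : LB0 τ V B E lam) {x y z : Γ} (hx : x ∈ E) (hy : y ∈ E) (hz : z ∈ E) :
    lam ⁅x, y * z⁆ = lam ⁅x, y⁆ * lam ⁅x, z⁆ := by
  have h1 : ⁅x, y * z⁆ = ⁅x, y⁆ * ⁅x, z⁆ := by
    have h2 : ⁅x, y * z⁆ = ⁅x, y⁆ * (y * ⁅x, z⁆ * y⁻¹) := by
      simp only [commutatorElement_def]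
      group
    rw [h2, ← L.cen _ (L.EE x hx z hz) y hy, mul_inv_cancel_right]
  rw [h1, lb_mul L (L.EE x hx y hy) (L.EE x hx z hz)]

private theorem lb_comm1 {τ : Representation k Γ U} {V : Submodule k U} {B E : Subgroup Γ}
    {lam : Γ → k} (L : LB0 τ V B E lam) {b e : Γ} (hb : b ∈ B) (he : e ∈ E) : ⁅b, e⁆ = 1 :=
  commutatorElement_eq_one_iff_mul_comm.2 (L.cen b hb e he)

theorem loc_one {τ : Representation k Γ U} {V : Submodule k U} {B E D : Subgroup Γ}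
    {lam : Γ → k} (L : Loc τ V B E D lam) : lam 1 = 1 := by
  exact lb_one (lb_of L)

theorem loc_mul {τ : Representation k Γ U} {V : Submodule k U} {B E D : Subgroup Γ}
    {lam : Γ → k} (L : Loc τ V B E D lam) {b b' : Γ} (hb : b ∈ B) (hb' : b' ∈ B) :
    lam (b * b') = lam b * lam b' := by
  exact lb_mul (lb_of L) hb hb'

theorem loc_ne {τ : Representation k Γ U} {V : Submodule k U} {B E D : Subgroup Γ}
    {lam : Γ → k} (L : Loc τ V B E D lam) {b : Γ} (hb : b ∈ B) : lam b ≠ 0 := by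
  intro h0
  have h1 := lb_mul (lb_of L) hb (B.inv_mem hb)
  rw [mul_inv_cancel, lb_one (lb_of L), h0, zero_mul] at h1
  exact one_ne_zero h1

theorem loc_left {τ : Representation k Γ U} {V : Submodule k U} {B E D : Subgroup Γ}
    {lam : Γ → k} (L : Loc τ V B E D lam) {x y z : Γ} (hx : x ∈ E) (hy : y ∈ E) (hz : z ∈ E) :
    lam ⁅x * y, z⁆ = lam ⁅x, z⁆ * lam ⁅y, z⁆ := by
  exact lb_left (lb_of L) hx hy hz

theorem loc_right {τ : Representation k Γ U} {V : Submodule k U} {B E D : Subgroup Γ}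
    {lam : Γ → k} (L : Loc τ V B E D lam) {x y z : Γ} (hx : x ∈ E) (hy : y ∈ E) (hz : z ∈ E) :
    lam ⁅x, y * z⁆ = lam ⁅x, y⁆ * lam ⁅x, z⁆ := by
  exact lb_right (lb_of L) hx hy hz

theorem loc_swap {τ : Representation k Γ U} {V : Submodule k U} {B E D : Subgroup Γ}
    {lam : Γ → k} (L : Loc τ V B E D lam) {x y : Γ} (hx : x ∈ E) (hy : y ∈ E) :
    lam ⁅x, y⁆ * lam ⁅y, x⁆ = 1 := by
  rw [← lb_mul (lb_of L) (L.EE x hx y hy) (L.EE y hy x hx), ← commutatorElement_inv x y,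
    mul_inv_cancel, lb_one (lb_of L)]

theorem loc_BD {τ : Representation k Γ U} {V : Submodule k U} {B E D : Subgroup Γ}
    {lam : Γ → k} (L : Loc τ V B E D lam) : B ≤ D := by
  intro b hb
  rw [L.rad]
  refine ⟨L.BE hb, fun e he => ?_⟩
  rw [lb_comm1 (lb_of L) hb he, lb_one (lb_of L)]

theorem loc_DE {τ : Representation k Γ U} {V : Submodule k U} {B E D : Subgroup Γ}
    {lam : Γ → k} (L : Loc τ V B E D lam) : D ≤ E := fun e he => ((L.rad e).1 he).1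

theorem loc_comm {τ : Representation k Γ U} {V : Submodule k U} {B E D : Subgroup Γ}
    {lam : Γ → k} (L : Loc τ V B E D lam) {x y : Γ} (hx : x ∈ E) (hy : y ∈ E) {v : U}
    (hv : v ∈ V) : τ x (τ y v) = lam ⁅x, y⁆ • τ y (τ x v) := by
  have h1 : x * y = ⁅x, y⁆ * (y * x) := by
    simp only [commutatorElement_def]
    group
  have h2 : τ x (τ y v) = τ (x * y) v := by rw [map_mul, Module.End.mul_apply]
  have h3 : τ y (τ x v) = τ (y * x) v := by rw [map_mul, Module.End.mul_apply]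
  have h4 : τ (y * x) v ∈ V := L.inv _ (E.mul_mem hy hx) v hv
  rw [h2, h3, h1, map_mul, Module.End.mul_apply, L.sc _ (L.EE x hx y hy) _ h4]

theorem loc_conj {τ : Representation k Γ U} {V : Submodule k U} {B E D : Subgroup Γ}
    {lam : Γ → k} (L : Loc τ V B E D lam) {g : Γ} (hgV : ∀ v ∈ V, τ g v ∈ V)
    (hgV' : ∀ v ∈ V, τ g⁻¹ v ∈ V) (hgB : ∀ b ∈ B, g * b * g⁻¹ ∈ B) {b : Γ} (hb : b ∈ B) :
    lam (g * b * g⁻¹) = lam b := by
  refine lb_eq L.ne fun v hv => ?_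
  have h1 : τ g (τ g⁻¹ v) = v := by
    rw [← Module.End.mul_apply, ← map_mul, mul_inv_cancel, map_one]
    rfl
  rw [← L.sc _ (hgB b hb) v hv, map_mul, map_mul, Module.End.mul_apply, Module.End.mul_apply,
    L.sc b hb _ (hgV' v hv), map_smul, h1]

theorem loc_conjD {τ : Representation k Γ U} {V : Submodule k U} {B E D : Subgroup Γ}
    {lam : Γ → k} (L : Loc τ V B E D lam) {g : Γ} (hgV : ∀ v ∈ V, τ g v ∈ V)
    (hgV' : ∀ v ∈ V, τ g⁻¹ v ∈ V) (hgB : ∀ b ∈ B, g * b * g⁻¹ ∈ B)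
    (hgE : ∀ e ∈ E, g * e * g⁻¹ ∈ E) (hgE' : ∀ e ∈ E, g⁻¹ * e * g ∈ E) {e : Γ} (he : e ∈ D) :
    g * e * g⁻¹ ∈ D := by
  rw [L.rad] at he ⊢
  refine ⟨hgE e he.1, fun e' he' => ?_⟩
  have h1 : ⁅g * e * g⁻¹, e'⁆ = g * ⁅e, g⁻¹ * e' * g⁆ * g⁻¹ := by
    simp only [commutatorElement_def]
    group
  rw [h1, loc_conj L hgV hgV' hgB (L.EE e he.1 _ (hgE' e' he'))]
  exact he.2 _ (hgE' e' he')

/-- existence of the radical `D` -/
theorem loc_exists (τ : Representation k Γ U) (V : Submodule k U) (B E : Subgroup Γ)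
    (lam : Γ → k) (ne : V ≠ ⊥) (BE : B ≤ E) (EE : ∀ x ∈ E, ∀ y ∈ E, ⁅x, y⁆ ∈ B)
    (cen : ∀ b ∈ B, ∀ e ∈ E, b * e = e * b) (inv : ∀ e ∈ E, ∀ v ∈ V, τ e v ∈ V)
    (sc : ∀ b ∈ B, ∀ v ∈ V, τ b v = lam b • v) :
    ∃ D : Subgroup Γ, Loc τ V B E D lam := by
  have L : LB0 τ V B E lam := ⟨ne, BE, EE, cen, inv, sc⟩
  refine ⟨{ carrier := {e | e ∈ E ∧ ∀ e' ∈ E, lam ⁅e, e'⁆ = 1}, mul_mem' := ?_, one_mem' := ?_,
            inv_mem' := ?_ }, ⟨ne, BE, EE, cen, inv, sc, fun e => Iff.rfl⟩⟩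
  · rintro a b ⟨ha, ha'⟩ ⟨hb, hb'⟩
    refine ⟨E.mul_mem ha hb, fun e' he' => ?_⟩
    rw [lb_left L ha hb he', ha' e' he', hb' e' he', mul_one]
  · refine ⟨E.one_mem, fun e' _ => ?_⟩
    rw [commutatorElement_one_left, lb_one L]
  · rintro a ⟨ha, ha'⟩
    refine ⟨E.inv_mem ha, fun e' he' => ?_⟩
    have h1 := lb_left L ha (E.inv_mem ha) he'
    rw [mul_inv_cancel, commutatorElement_one_left, lb_one L, ha' e' he', one_mul] at h1
    exact h1.symm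

end H78TP
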