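import Pool.Agent.H78.TP.FraB

/-!
[H78 TP LYR] The module `W / Phi(W)` (60 min).

PROOF. `Φ = Phi p W` is normal in `F` (`phi_normal`) and contained in `W`. Let
`Q = W ⧸ Φ.subgroupOf W`, a finite abelian group (commutators of `W` are in `Φ`) with
`x ^ p = 1`. `V = Additive Q` is an `AddCommGroup` and a `Module (ZMod p)`
(`AddCommGroup.zmodModule`). `F` acts on `W` by conjugation (`MulAut.conjNormal`), this induces an
action on `Q`, and `W` acts trivially (`⁅w, w'⁆ ∈ Φ`), so `F ⧸ W` acts: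
`ρ : (F ⧸ W) →* (V →ₗ[ZMod p] V)` with `ρ (g : F ⧸ W) [w] = [g w g⁻¹]`
(`QuotientGroup.lift`; additive maps are `ZMod p`-linear: `AddMonoidHom.toZModLinearMap`).
Injective: if `ρ g = 1` then `⁅g, w⁆ ∈ Φ` for all `w ∈ W`, so `g ∈ W` by `hker`.
Fixed points: let `R`, `q` be given and `v = [w]` fixed by `R`, i.e. `⁅x, w⁆ ∈ Φ` for `x ∈ R`. By
`cfp` (with `s := q`, `S = R`, `N = Φ`, a `p`-group) there is `y ∈ Φ` such that `y * w` commutes
with `R`; so `v` is the class of `y * w ∈ U = W ⊓ centralizer R`. So the fixed points are contained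
in the image of `U` in `Q`, which has `Φ.relIndex U` elements.
-/

namespace H78TP

open Subgroup
open scoped commutatorElement

universe u

private theorem Lyr_key {F : Type u} [Group F] {N : Subgroup F} [hN : N.Normal] {g w : F}
    (h : (g * w * g⁻¹)⁻¹ * w ∈ N) : g * w * g⁻¹ * w⁻¹ ∈ N := by
  have h1 := hN.conj_mem _ (N.inv_mem h) w
  have h2 : w * ((g * w * g⁻¹)⁻¹ * w)⁻¹ * w⁻¹ = g * w * g⁻¹ * w⁻¹ := by group
  rwa [h2] at h1

private theorem Lyr_key' {F : Type u} [Group F] {N : Subgroup F} [hN : N.Normal] {g w : F}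
    (h : g * w * g⁻¹ * w⁻¹ ∈ N) : (g * w * g⁻¹)⁻¹ * w ∈ N := by
  have h1 := hN.conj_mem _ (N.inv_mem h) w⁻¹
  have h2 : w⁻¹ * (g * w * g⁻¹ * w⁻¹)⁻¹ * w⁻¹⁻¹ = (g * w * g⁻¹)⁻¹ * w := by group
  rwa [h2] at h1

private theorem Lyr_rep' {G Q : Type u} [Group G] [CommGroup Q] (p : ℕ)
    [Module (ZMod p) (Additive Q)] (α : G →* Monoid.End Q) :
    ∃ (ρ : Representation (ZMod p) G (Additive Q)),
      ∀ g (x : Q), ρ g (Additive.ofMul x) = Additive.ofMul (α g x) := by
  let act : G → (Additive Q →ₗ[ZMod p] Additive Q) := fun g =>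
    AddMonoidHom.toZModLinearMap p (MonoidHom.toAdditive (α g : Q →* Q))
  have hact : ∀ g (x : Q), act g (Additive.ofMul x) = Additive.ofMul (α g x) := fun g x => rfl
  refine ⟨{ toFun := act, map_one' := ?_, map_mul' := ?_ }, hact⟩
  · apply LinearMap.ext
    intro v
    obtain ⟨x, rfl⟩ := Additive.ofMul.surjective v
    rw [hact, map_one]
    rfl
  · intro g h
    apply LinearMap.ext
    intro v
    obtain ⟨x, rfl⟩ := Additive.ofMul.surjective v
    rw [hact, map_mul]
    rfl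

private theorem Lyr_rep {G Q : Type u} [Group G] [CommGroup Q] (p : ℕ) (hpow : ∀ x : Q, x ^ p = 1)
    (α : G →* Monoid.End Q) : ∃ (_ : Module (ZMod p) (Additive Q))
      (ρ : Representation (ZMod p) G (Additive Q)),
      ∀ g (x : Q), ρ g (Additive.ofMul x) = Additive.ofMul (α g x) := by
  letI iM : Module (ZMod p) (Additive Q) := AddCommGroup.zmodModule fun x => hpow (Additive.toMul x)
  obtain ⟨ρ, hρ⟩ := Lyr_rep' p α
  exact ⟨iM, ρ, hρ⟩

theorem lyr {F : Type u} [Group F] [Finite F] (p : ℕ) [Fact p.Prime] (W : Subgroup F) [W.Normal]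
    (hWp : IsPGroup p W) (hker : ∀ g : F, (∀ w ∈ W, ⁅g, w⁆ ∈ Phi p W) → g ∈ W) :
    ∃ (V : Type u) (_ : AddCommGroup V) (_ : Module (ZMod p) V) (_ : Finite V)
      (ρ : Representation (ZMod p) (F ⧸ W) V), Function.Injective ρ ∧
      Nat.card V = (Phi p W).relIndex W ∧
      ∀ (R : Subgroup F) (q : ℕ), q.Prime → q ≠ p → IsPGroup q R →
        Nat.card {v : V // ∀ x ∈ R, ρ (x : F ⧸ W) v = v} ≤
          (Phi p W).relIndex (W ⊓ centralizer (R : Set F)) := by
  have hΦ : (Phi p W).Normal := phi_normal p W inferInstance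
  have hΦW : Phi p W ≤ W := phi_le p W
  let N : Subgroup W := (Phi p W).subgroupOf W
  have hN : N.Normal := Subgroup.normal_subgroupOf
  have hNmem : ∀ w : W, w ∈ N ↔ (w : F) ∈ Phi p W := fun w => Subgroup.mem_subgroupOf
  have hcomm : ∀ a b : W ⧸ N, a * b = b * a := by
    intro a b
    obtain ⟨w, rfl⟩ := QuotientGroup.mk_surjective a
    obtain ⟨w', rfl⟩ := QuotientGroup.mk_surjective b
    rw [← QuotientGroup.mk_mul, ← QuotientGroup.mk_mul, QuotientGroup.eq, hNmem]
    have h1 := phi_comm p W (inv_mem w'.2) (inv_mem w.2)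
    have h2 : ⁅(w' : F)⁻¹, (w : F)⁻¹⁆ = (((w * w')⁻¹ * (w' * w) : W) : F) := by
      rw [commutatorElement_def]
      push_cast
      group
    rwa [h2] at h1
  letI iC : CommGroup (W ⧸ N) := { (inferInstance : Group (W ⧸ N)) with mul_comm := hcomm }
  have hpow : ∀ x : W ⧸ N, x ^ p = 1 := by
    intro x
    obtain ⟨w, rfl⟩ := QuotientGroup.mk_surjective x
    have h1 : ((w ^ p : W) : W ⧸ N) = 1 := by
      rw [QuotientGroup.eq_one_iff, hNmem]
      exact phi_pow p W w.2
    exact h1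
  have hmap : ∀ g : F, N ≤ N.comap (MulAut.conjNormal g : W ≃* W).toMonoidHom := by
    intro g w hw
    rw [Subgroup.mem_comap, hNmem]
    exact hΦ.conj_mem _ ((hNmem w).1 hw) g
  let cl : W → W ⧸ N := fun w => QuotientGroup.mk w
  have hcl : ∀ v, ∃ w, cl w = v := fun v => QuotientGroup.mk_surjective v
  have hcleq : ∀ w w' : W, cl w = cl w' ↔ (w : F)⁻¹ * w' ∈ Phi p W := by
    intro w w'
    exact QuotientGroup.eq.trans (hNmem _)
  let α₀ : F →* Monoid.End (W ⧸ N) :=
    { toFun := fun g => (QuotientGroup.map N N (MulAut.conjNormal g : W ≃* W).toMonoidHom (hmap g) :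
        (W ⧸ N) →* (W ⧸ N))
      map_one' := by
        apply MonoidHom.ext
        intro v
        obtain ⟨w, rfl⟩ := hcl v
        show cl (MulAut.conjNormal (1 : F) w) = cl w
        rw [map_one]
        rfl
      map_mul' := by
        intro g h
        apply MonoidHom.ext
        intro v
        obtain ⟨w, rfl⟩ := hcl v
        show cl (MulAut.conjNormal (g * h) w) = cl (MulAut.conjNormal g (MulAut.conjNormal h w))
        rw [map_mul]
        rfl }
  have hα₀ : ∀ g w, α₀ g (cl w) = cl (MulAut.conjNormal g w) := fun g w => rfl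
  have hfix : ∀ g w, α₀ g (cl w) = cl w ↔ g * (w : F) * g⁻¹ * (w : F)⁻¹ ∈ Phi p W := by
    intro g w
    rw [hα₀, hcleq]
    exact ⟨fun h => Lyr_key h, fun h => Lyr_key' h⟩
  have htriv : ∀ g ∈ W, α₀ g = 1 := by
    intro g hg
    apply MonoidHom.ext
    intro v
    obtain ⟨w, rfl⟩ := hcl v
    exact (hfix g w).2 (phi_comm p W hg w.2)
  obtain ⟨iM, ρ, hρ⟩ := Lyr_rep p hpow (QuotientGroup.lift W α₀ htriv)
  have hρ' : ∀ (g : F) (x : W ⧸ N), ρ (g : F ⧸ W) (Additive.ofMul x) = Additive.ofMul (α₀ g x) :=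
    fun g x => hρ g x
  have hfinV : Finite (Additive (W ⧸ N)) := (inferInstance : Finite (W ⧸ N))
  refine ⟨Additive (W ⧸ N), inferInstance, iM, hfinV, ρ, ?_, rfl, ?_⟩
  · rw [injective_iff_map_eq_one]
    intro x hx
    obtain ⟨g, rfl⟩ := QuotientGroup.mk_surjective x
    rw [QuotientGroup.eq_one_iff]
    apply hker
    intro w hw
    have h1 : Additive.ofMul (α₀ g (cl ⟨w, hw⟩)) = Additive.ofMul (cl ⟨w, hw⟩) := by
      rw [← hρ', hx]
      rfl
    exact (hfix g ⟨w, hw⟩).1 (Additive.ofMul.injective h1)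
  · intro R q hq hqp hR
    haveI : Fact q.Prime := ⟨hq⟩
    have hcard : ¬ q ∣ Nat.card (Phi p W) := by
      intro hd
      have h1 : IsPGroup p (Phi p W) := hWp.to_le hΦW
      obtain ⟨n, hn⟩ := IsPGroup.iff_card.1 h1
      rw [hn] at hd
      exact hqp ((Nat.prime_dvd_prime_iff_eq hq (Fact.out : p.Prime)).1 (hq.dvd_of_dvd_pow hd))
    have hex : ∀ v : {v : Additive (W ⧸ N) // ∀ x ∈ R, ρ (x : F ⧸ W) v = v},
        ∃ u : (W ⊓ centralizer (R : Set F) : Subgroup F),
          Additive.ofMul (cl ⟨u.1, u.2.1⟩) = v.1 := by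
      rintro ⟨v, hv⟩
      obtain ⟨v, rfl⟩ := Additive.ofMul.surjective v
      obtain ⟨w, rfl⟩ := hcl v
      have hw : ∀ x ∈ R, x * (w : F) * x⁻¹ * (w : F)⁻¹ ∈ Phi p W := by
        intro x hx
        have h2 := hv x hx
        rw [hρ'] at h2
        exact (hfix x w).1 (Additive.ofMul.injective h2)
      obtain ⟨y, hy, hyw⟩ := cfp q R (Phi p W) hR hcard (fun x _ y hy => hΦ.conj_mem y hy x)
        (w : F) hw
      refine ⟨⟨y * w, W.mul_mem (hΦW hy) w.2, ?_⟩, ?_⟩
      · exact Subgroup.mem_centralizer_iff.2 hyw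
      · refine congrArg Additive.ofMul ?_
        show cl ⟨y * w, _⟩ = cl w
        rw [hcleq]
        have h1 := hΦ.conj_mem _ (inv_mem hy) (w : F)⁻¹
        have h2 : (w : F)⁻¹ * y⁻¹ * (w : F)⁻¹⁻¹ = (y * w)⁻¹ * w := by group
        rwa [h2] at h1
    choose U hU using hex
    have hfinU : Finite ((W ⊓ centralizer (R : Set F) : Subgroup F) ⧸
      (Phi p W).subgroupOf (W ⊓ centralizer (R : Set F))) := inferInstance
    refine Nat.card_le_card_of_injective (β := (W ⊓ centralizer (R : Set F) : Subgroup F) ⧸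
      (Phi p W).subgroupOf (W ⊓ centralizer (R : Set F))) (fun v => QuotientGroup.mk (U v)) ?_
    intro v v' h
    have h1 := QuotientGroup.eq.1 h
    rw [Subgroup.mem_subgroupOf] at h1
    apply Subtype.ext
    rw [← hU v, ← hU v']
    refine congrArg Additive.ofMul ?_
    rw [hcleq]
    exact h1

end H78TP
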