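import Pool.Agent.H78.TP.Rk2
import Pool.Agent.H78.TP.FraA

/-!
[H78 TP LYRB] The bound for the fixed points (20 min).

PROOF. Let `U = W ⊓ centralizer R`, a `p`-group. `P` normalises `U` (`W` is normal, `P` commutes
with `R`) and `U ⊓ centralizer P ≤ CC P R`, so `rk2` (with `s := p`, `T = P`) gives
`RB p (rkM p c n) U`. Apply it to `U` and `V = Phi p W ⊓ U` (`x ^ p ∈ V`, `⁅x, y⁆ ∈ V` for
`x, y ∈ U ≤ W`; `inf_relIndex_right`).
-/

namespace H78TP

open Subgroup
open scoped commutatorElement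

theorem lyrB {F : Type*} [Group F] [Finite F] (p q n c : ℕ) [Fact p.Prime] [Fact q.Prime]
    (W : Subgroup F) (hW : W.Normal) (hWp : IsPGroup p W) (P R : Subgroup F)
    (hPR : PR p q n P R) (h : RB p c (CC P R)) :
    (Phi p W).relIndex (W ⊓ centralizer (R : Set F)) ≤ rkM p c n := by
  obtain ⟨U, hU⟩ : ∃ U : Subgroup F, U = W ⊓ centralizer (R : Set F) := ⟨_, rfl⟩
  rw [← hU]
  have hUW : U ≤ W := by
    rw [hU]
    exact inf_le_left
  have hUR : U ≤ centralizer (R : Set F) := by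
    rw [hU]
    exact inf_le_right
  have hUp : IsPGroup p U := hWp.to_le hUW
  have hnorm : ∀ t ∈ P, ∀ x ∈ U, t * x * t⁻¹ ∈ U := by
    intro t ht x hx
    rw [hU]
    refine Subgroup.mem_inf.2 ⟨hW.conj_mem x (hUW hx) t, ?_⟩
    rw [Subgroup.mem_centralizer_iff]
    intro r hr
    have h1 : t * r = r * t := hPR.comm t ht r hr
    have h2 : r * x = x * r := Subgroup.mem_centralizer_iff.1 (hUR hx) r hr
    have h3 : t⁻¹ * r = r * t⁻¹ := by
      rw [inv_mul_eq_iff_eq_mul, ← mul_assoc, h1, mul_assoc, mul_inv_cancel, mul_one]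
    calc r * (t * x * t⁻¹) = (r * t) * x * t⁻¹ := by group
      _ = t * (r * x) * t⁻¹ := by rw [← h1]; group
      _ = t * x * (r * t⁻¹) := by rw [h2]; group
      _ = t * x * t⁻¹ * r := by rw [← h3]; group
  have hRB : RB p c (U ⊓ centralizer (P : Set F)) := by
    intro U' V' hVU hUC h1 h2
    refine h U' V' hVU (hUC.trans ?_) h1 h2
    exact le_inf inf_le_right (inf_le_left.trans hUR)
  have h1 := rk2 p c n U P hUp hPR.hP hPR.cP hnorm hRB
  have h2 := h1 U (Phi p W ⊓ U) inf_le_right le_rfl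
    (fun x hx => Subgroup.mem_inf.2 ⟨phi_pow p W (hUW hx), U.pow_mem hx p⟩)
    (fun x hx y hy => Subgroup.mem_inf.2 ⟨phi_comm p W (hUW hx) (hUW hy), by
      rw [commutatorElement_def]
      exact U.mul_mem (U.mul_mem (U.mul_mem hx hy) (U.inv_mem hx)) (U.inv_mem hy)⟩)
  rw [Subgroup.inf_relIndex_right] at h2
  exact h2

end H78TP
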