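import Pool.Agent.H78.TP.Inq
import Pool.Agent.H78.TP.Opp
import Pool.Agent.H78.TP.LayB
import Pool.Agent.H78.TP.Lyr
import Pool.Agent.H78.TP.LyrB
import Pool.Agent.H78.TP.Der

/-!
[H78 TP LY1] The first two layers and the module (60 min).

PROOF. `oppC` gives `O`, `lns O t = ⊥` by `hT`. Let `π : F →* F₁ = F ⧸ O`. By `inq` (kernel `O`)
`KJ m j₁ (P.map π) (R.map π)` with `j₁ = inH p q n m t j`; `pr_map`. `F₁` is soluble and has no
nontrivial normal `p'`-subgroup (`oppC'`). `oppP` for `F₁` gives `W`. By `layB` the hypothesis `hker`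
of `lyr` holds, so we get `V` and `ρ₁ : Representation (ZMod p) (F₁ ⧸ W) V`, injective, and the
number of fixed points of `R.map π` is at most `(Phi p W).relIndex (W ⊓ centralizer (R.map π))`,
which is at most `rkM p (j₁ * p ^ m) n` by `lyrB`. Let `N = W.comap π`, normal,
`lns N (1 + t) = ⊥` by `lns_of_map` (`N.map π = W` is a `p`-group, so `gam W c = ⊥` for some `c`,
`IsPGroup.isNilpotent`, `gam_of_isNilpotent`, `lns W 1 = ⊥`). `F ⧸ N ≃* F₁ ⧸ W`
(`QuotientGroup.map`, or the kernel of `F →* F₁ ⧸ W` is `N`): transport `ρ₁`. Normal `p`-subgroups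
of `F₁ ⧸ W` are trivial by `oppP'`.
-/

namespace H78TP

open Subgroup
open scoped commutatorElement

universe u

theorem ly1 (p q n m j t : ℕ) [Fact p.Prime] [Fact q.Prime] (hne : p ≠ q) {F : Type u}
    [Group F] [Finite F] (P R : Subgroup F) (H : Hyp p q n m j F P R) (hT : OpT p t F) :
    ∃ (N : Subgroup F) (_ : N.Normal) (V : Type u) (_ : AddCommGroup V)
      (_ : Module (ZMod p) V) (_ : Finite V) (ρ : Representation (ZMod p) (F ⧸ N) V),
      Function.Injective ρ ∧ lns N (t + 1) = ⊥ ∧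
      (∀ M : Subgroup (F ⧸ N), M.Normal → IsPGroup p M → M = ⊥) ∧
      Nat.card {v : V // ∀ x ∈ R, ρ (x : F ⧸ N) v = v} ≤
        rkM p (inH p q n m t j * p ^ m) n := by
  obtain ⟨O, hOn, hOp, hOmax⟩ := oppC p F
  haveI := hOn
  have hOt : lns O t = ⊥ := hT O hOn hOp
  have hker : (QuotientGroup.mk' O).ker = O := QuotientGroup.ker_mk' O
  have hsurj := QuotientGroup.mk'_surjective O
  have hK := inq (QuotientGroup.mk' O) hsurj p q n m t j hne P R H.pr
    (by rw [hker]; exact hOt) H.kj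
  have hPR := pr_map (QuotientGroup.mk' O) H.pr
  have hsol : Group.IsSolvable (F ⧸ O) := solv_map (QuotientGroup.mk' O) hsurj H.sol
  have hO' := oppC' p O hOp hOmax
  obtain ⟨W, hWn, hWp, hWmax⟩ := oppP p (F ⧸ O)
  haveI := hWn
  obtain ⟨V, iA, iM, iF, ρ₁, hinj, -, hfix⟩ := lyr p W hWp (layB hsol p hO' W hWn hWp hWmax)
  obtain ⟨N, hNdef⟩ : ∃ N : Subgroup F, N = W.comap (QuotientGroup.mk' O) := ⟨_, rfl⟩
  have hN : N.Normal := by
    rw [hNdef]
    infer_instance
  have hNW : N.map (QuotientGroup.mk' O) = W := by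
    rw [hNdef]
    exact Subgroup.map_comap_eq_self_of_surjective hsurj W
  let φ : (F ⧸ N) →* ((F ⧸ O) ⧸ W) := QuotientGroup.map N W (QuotientGroup.mk' O) hNdef.le
  have hφ : ∀ x : F, φ (x : F ⧸ N) = (((x : F ⧸ O)) : (F ⧸ O) ⧸ W) := fun x => rfl
  have hφinj : Function.Injective φ := by
    rw [injective_iff_map_eq_one]
    intro x hx
    obtain ⟨g, rfl⟩ := QuotientGroup.mk_surjective x
    rw [hφ, QuotientGroup.eq_one_iff] at hx
    rw [QuotientGroup.eq_one_iff, hNdef]
    exact hx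
  have hφsurj : Function.Surjective φ := by
    intro y
    obtain ⟨y, rfl⟩ := QuotientGroup.mk_surjective y
    obtain ⟨g, rfl⟩ := QuotientGroup.mk_surjective y
    exact ⟨(g : F ⧸ N), hφ g⟩
  refine ⟨N, hN, V, iA, iM, iF, (ρ₁.comp φ : Representation (ZMod p) (F ⧸ N) V),
    ?_, ?_, ?_, ?_⟩
  · intro x y hxy
    exact hφinj (hinj hxy)
  · have h1 : lns (N.map (QuotientGroup.mk' O)) 1 = ⊥ := by
      rw [hNW, lns_succ, lns_zero, nres_eq_bot_iff]
      have hnil : Group.IsNilpotent W := hWp.isNilpotent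
      exact gam_of_isNilpotent W hnil
    have h2 := lns_of_map (QuotientGroup.mk' O) h1 (by rw [hker]; exact hOt)
    rwa [add_comm] at h2
  · intro M hM hMp
    have h1 : M.map φ = ⊥ := oppP' p W hWp hWmax (M.map φ) (hM.map φ hφsurj) (hMp.map φ)
    rw [Subgroup.map_eq_bot_iff, (MonoidHom.ker_eq_bot_iff φ).2 hφinj] at h1
    exact le_bot_iff.1 h1
  · have h1 := hfix (R.map (QuotientGroup.mk' O)) q Fact.out hne.symm hPR.hR
    have h2 := lyrB p q n (inH p q n m t j * p ^ m) W hWn hWp (P.map (QuotientGroup.mk' O))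
      (R.map (QuotientGroup.mk' O)) hPR (hK p Fact.out)
    refine le_trans (le_of_eq ?_) (h1.trans h2)
    refine Nat.card_congr (Equiv.subtypeEquivRight fun v => ?_)
    constructor
    · rintro h _ ⟨x, hx, rfl⟩
      exact h x hx
    · intro h x hx
      exact h _ ⟨x, hx, rfl⟩

end H78TP
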