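import Pool.Agent.H78.TP.ThP
import Pool.Agent.H78.TP.RkH
import Pool.Agent.H78.TP.Opp
import Pool.Agent.H78.TP.LayB
import Pool.Agent.H78.TP.Rk2
import Pool.Agent.H78.TP.Cfp
import Pool.Agent.H78.TP.RbA
import Pool.Agent.H78.TP.Lyr
import Pool.Agent.H78.TP.NilSyl
import Pool.Agent.H78.TP.Der

/-!
[H78 TP PPR] Operator groups which are `q`-groups with a centraliser of bounded rank (75 min).

PROOF. Let `D₁` be the image in `F` of the largest normal `q'`-subgroup of the group `D` (`oppC`); it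
is characteristic in `D`, so `R` normalises it, and it is soluble. `RB` for
`D₁ ⊓ centralizer R ≤ D ⊓ centralizer R` and `rkH` give
`lns (D₁ ⊓ centralizer R) (hRk m j) = ⊥`, and `thP` (with `p := q`, `P := R`) gives
`lns D₁ (hTM q n (hRk m j)) = ⊥`.
Let `Δ = D ⊔ R` (a subgroup of `F` in which `D` and `D₁` are normal) and
`π : Δ →* Δ ⧸ D₁`, `D' = D.map π`, `R' = R.map π`. The group `D'` has no nontrivial normal
`q'`-subgroup (`oppC'`). Let `W` be its largest normal `q`-subgroup (`oppP`; characteristic in `D'`,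
so normalised by `R'`). `W ⊓ centralizer R'` is contained in the image of `D ⊓ centralizer R` (`cfp`:
`R` is a `q`-group, `D₁` has order prime to `q`), so it satisfies `RB q (j * q ^ m)` (`rb_map`,
`rb_mono`), and by `rk2` (`T = R'`) `RB q b W` with `b = rkM q (j * q ^ m) n`, so
`(Phi q W).relIndex W ≤ b`. `D'` acts on the set `W / Phi q W` of at most `b` elements by
conjugation; by `layB` (for the group `D'`, soluble) the kernel is contained in `W`, so by `derK`
`dS D' (b !) ≤ W`, `W` is nilpotent, so `lns D' (b ! + 1) = ⊥`. `lns_of_map` gives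
`lns D ((b ! + 1) + hTM q n (hRk m j)) = ⊥` (transfer from `Δ` to `F` with `lns_subtype`).
-/

namespace H78TP

open Subgroup
open scoped commutatorElement

universe u

/-- `RB` and injective homomorphisms -/
private theorem ppr_rb {G F : Type*} [Group G] [Group F] (f : G →* F)
    (hf : Function.Injective f) {s c : ℕ} {C : Subgroup G} (h : RB s c (C.map f)) :
    RB s c C := by
  intro U V hVU hU h1 h2
  have h3 := h (U.map f) (V.map f) (map_mono hVU) (map_mono hU)
    (by
      rintro _ ⟨x, hx, rfl⟩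
      exact ⟨x ^ s, h1 x hx, map_pow _ _ _⟩)
    (by
      rintro _ ⟨x, hx, rfl⟩ _ ⟨y, hy, rfl⟩
      exact ⟨⁅x, y⁆, h2 x hx y hy, map_commutatorElement _ _ _⟩)
  rwa [Subgroup.relIndex_map_map_of_injective _ _ hf] at h3

private theorem ppr_core {E : Type u} [Group E] [Finite E] (q b : ℕ) [Fact q.Prime]
    (hs : Group.IsSolvable E)
    (hO : ∀ N : Subgroup E, N.Normal → ¬ q ∣ Nat.card N → N = ⊥) (W : Subgroup E)
    (hW : W.Normal) (hWq : IsPGroup q W)
    (hmax : ∀ N : Subgroup E, N.Normal → IsPGroup q N → N ≤ W)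
    (hb : (Phi q W).relIndex W ≤ b) : lns (⊤ : Subgroup E) (b.factorial + 1) = ⊥ := by
  obtain ⟨V, iA, iM, iF, ρ, hinj, hcard, -⟩ := lyr q W hWq (layB hs q hO W hW hWq hmax)
  let act : MulAction (E ⧸ W) V :=
    { smul := fun g v => ρ g v
      one_smul := fun v => by
        show ρ 1 v = v
        rw [map_one]
        rfl
      mul_smul := fun g h v => by
        show ρ (g * h) v = ρ g (ρ h v)
        rw [map_mul]
        rfl }
  have hperm : Nat.card (Equiv.Perm V) ≤ b.factorial := by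
    rw [Nat.card_perm]
    exact Nat.factorial_le (hcard.trans_le hb)
  have hsQ : Group.IsSolvable (E ⧸ W) :=
    solv_map (QuotientGroup.mk' W) (QuotientGroup.mk'_surjective W) hs
  have hder := derK (MulAction.toPermHom (E ⧸ W) V) (⊤ : Subgroup (E ⧸ W))
    (solv_sub hsQ ⊤) _ hperm
  have hker : (MulAction.toPermHom (E ⧸ W) V).ker = ⊥ := by
    rw [eq_bot_iff]
    intro g hg
    rw [MonoidHom.mem_ker] at hg
    rw [Subgroup.mem_bot]
    apply hinj
    apply LinearMap.ext
    intro v
    have h1 : (MulAction.toPermHom (E ⧸ W) V g) v = v := by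
      rw [hg]
      rfl
    rw [map_one]
    exact h1
  rw [hker] at hder
  have h2 : lns (⊤ : Subgroup (E ⧸ W)) b.factorial = ⊥ :=
    le_bot_iff.1 ((lns_le_dS _ _).trans hder)
  refine lns_of_map (QuotientGroup.mk' W) ?_ ?_
  · rw [Subgroup.map_top_of_surjective _ (QuotientGroup.mk'_surjective W)]
    exact h2
  · rw [QuotientGroup.ker_mk', lns_succ, lns_zero, nres_eq_bot_iff]
    have hnil : Group.IsNilpotent W := hWq.isNilpotent
    exact gam_of_isNilpotent W hnil

private theorem ppr_norm (q n m j : ℕ) [Fact q.Prime] {F : Type u} [Group F] [Finite F]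
    (D R : Subgroup F) [hD : D.Normal] (hs : Group.IsSolvable D) (hR' : IsPGroup q R)
    (hn : Nat.card R ≤ n)
    (hRB : ∀ s : ℕ, s.Prime → RB s (j * s ^ m) (D ⊓ centralizer (R : Set F))) :
    lns D (hPP q n m j) = ⊥ := by
  obtain ⟨O, hOn, hOq, hOmax⟩ := oppC q D
  have hOc : O.Characteristic := by
    rw [characteristic_iff_map_le]
    intro φ
    apply hOmax _ (hOn.map φ.toMonoidHom φ.surjective)
    rw [Subgroup.card_map_of_injective φ.injective]
    exact hOq
  obtain ⟨D₁, hD₁⟩ : ∃ D₁ : Subgroup F, D₁ = O.map D.subtype := ⟨_, rfl⟩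
  have hD₁n : D₁.Normal := by
    rw [hD₁]
    infer_instance
  have hD₁D : D₁ ≤ D := by
    rw [hD₁]
    exact Subgroup.map_subtype_le O
  have hD₁q : ¬ q ∣ Nat.card D₁ := by
    rw [hD₁, Subgroup.card_map_of_injective D.subtype_injective]
    exact hOq
  have hmem : ∀ x : D, (x : F) ∈ D₁ ↔ x ∈ O := by
    intro x
    rw [hD₁]
    constructor
    · rintro ⟨y, hy, hxy⟩
      have : y = x := Subtype.ext hxy
      rw [← this]
      exact hy
    · intro hx
      exact ⟨x, hx, rfl⟩
  have hD₁s : Group.IsSolvable D₁ := by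
    rw [hD₁]
    exact solv_map _ (D.subtype.subgroupMap_surjective O) (solv_sub hs O)
  have hD₁C : Group.IsSolvable (D₁ ⊓ centralizer (R : Set F) : Subgroup F) :=
    Group.isSolvable_of_isSolvable_injective
      (Subgroup.inclusion_injective (inf_le_left : D₁ ⊓ centralizer (R : Set F) ≤ D₁))
  have h1 : lns D₁ (hTM q n (hRk m j)) = ⊥ := by
    refine thP q n D₁ R hD₁s hD₁q hR' hn (fun x _ y hy => hD₁n.conj_mem y hy x) (hRk m j) ?_
    exact rkH _ hD₁C m j fun s hs => rb_mono (inf_le_inf_right _ hD₁D) (hRB s hs)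
  -- the factor group
  obtain ⟨π, hπ⟩ : ∃ π : F →* F ⧸ D₁, π = QuotientGroup.mk' D₁ := ⟨_, rfl⟩
  have hπs : Function.Surjective π := by
    rw [hπ]
    exact QuotientGroup.mk'_surjective D₁
  have hπk : π.ker = D₁ := by
    rw [hπ]
    exact QuotientGroup.ker_mk' D₁
  have hfs := π.subgroupMap_surjective D
  have hfo : ∀ x : D, π.subgroupMap D x = 1 ↔ x ∈ O := by
    intro x
    have h0 : π (x : F) = 1 ↔ (x : F) ∈ D₁ := by
      rw [← MonoidHom.mem_ker, hπk]
    rw [← hmem x, ← h0]
    constructor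
    · intro h
      exact congrArg Subtype.val h
    · intro h
      exact Subtype.ext h
  have hE : ∀ N : Subgroup (D.map π), N.Normal → ¬ q ∣ Nat.card N → N = ⊥ := by
    intro N hN hNq
    have h2 : N.comap (π.subgroupMap D) ≤ O := by
      apply hOmax _ (hN.comap _)
      intro hdvd
      obtain ⟨x, hx⟩ := exists_prime_orderOf_dvd_card' (G := N.comap (π.subgroupMap D)) q hdvd
      have hx1 : orderOf (x : D) = q := by
        rw [Subgroup.orderOf_coe]
        exact hx
      have hx2 : orderOf (π.subgroupMap D x) ∣ q := by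
        have := orderOf_map_dvd (π.subgroupMap D) (x : D)
        rwa [hx1] at this
      have hx3 : π.subgroupMap D x = 1 := by
        rcases (Nat.dvd_prime Fact.out).1 hx2 with h3 | h3
        · exact orderOf_eq_one_iff.1 h3
        · exfalso
          apply hNq
          rw [← h3]
          exact Subgroup.orderOf_dvd_natCard N x.2
      apply hOq
      rw [← hx1]
      exact Subgroup.orderOf_dvd_natCard O ((hfo x).1 hx3)
    rw [eq_bot_iff]
    intro y hy
    obtain ⟨x, rfl⟩ := hfs y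
    rw [Subgroup.mem_bot, hfo]
    exact h2 hy
  have hs' : Group.IsSolvable (D.map π) := solv_map _ hfs hs
  obtain ⟨W₀, hW₀n, hW₀q, hW₀max⟩ := oppP q (D.map π)
  have hW₀c : W₀.Characteristic := by
    rw [characteristic_iff_map_le]
    intro φ
    exact hW₀max _ (hW₀n.map φ.toMonoidHom φ.surjective) (hW₀q.map _)
  have hDπ : (D.map π).Normal := hD.map π hπs
  obtain ⟨W, hWd⟩ : ∃ W : Subgroup (F ⧸ D₁), W = W₀.map (D.map π).subtype := ⟨_, rfl⟩
  have hWn : W.Normal := by
    rw [hWd]
    infer_instance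
  have hWq : IsPGroup q W := by
    rw [hWd]
    exact hW₀q.map _
  have hWD : W ≤ D.map π := by
    rw [hWd]
    exact Subgroup.map_subtype_le W₀
  have hWC : W ⊓ centralizer ((R.map π : Subgroup (F ⧸ D₁)) : Set (F ⧸ D₁)) ≤
      (D ⊓ centralizer (R : Set F)).map π := by
    rintro w ⟨hw, hwR⟩
    obtain ⟨g, hg, rfl⟩ := hWD hw
    obtain ⟨y, hy, hyx⟩ := cfp q R D₁ hR' hD₁q (fun x _ y hy => hD₁n.conj_mem y hy x) g (by
      intro x hx
      rw [← hπk, MonoidHom.mem_ker, map_mul, map_mul, map_mul, map_inv, map_inv]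
      have h3 := mem_centralizer_iff.1 hwR (π x) ⟨x, hx, rfl⟩
      rw [h3]
      group)
    refine ⟨y * g, ⟨mul_mem (hD₁D hy) hg, ?_⟩, ?_⟩
    · exact mem_centralizer_iff.2 fun x hx => hyx x hx
    · rw [map_mul]
      have h3 : π y = 1 := by
        rw [← MonoidHom.mem_ker, hπk]
        exact hy
      rw [h3, one_mul]
  have h2 : RB q (rkM q (j * q ^ m) n) W := by
    refine rk2 q (j * q ^ m) n W (R.map π) hWq (hR'.map π) ?_
      (fun t _ x hx => hWn.conj_mem x hx t) ?_
    · exact (Nat.le_of_dvd Nat.card_pos (Subgroup.card_map_dvd R π)).trans hn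
    · exact rb_mono hWC (rb_map π q (j * q ^ m) _ (hRB q Fact.out))
  have h3 : RB q (rkM q (j * q ^ m) n) W₀ := by
    apply ppr_rb (D.map π).subtype (D.map π).subtype_injective
    rw [← hWd]
    exact h2
  have h4 : (Phi q W₀).relIndex W₀ ≤ rkM q (j * q ^ m) n :=
    h3 W₀ (Phi q W₀) (phi_le q W₀) le_rfl (fun x hx => phi_pow q W₀ hx)
      (fun x hx y hy => phi_comm q W₀ hx hy)
  have h5 := ppr_core q _ hs' hE W₀ hW₀n hW₀q hW₀max h4
  have h6 : lns (D.map π) ((rkM q (j * q ^ m) n).factorial + 1) = ⊥ := by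
    have h7 := lns_subtype (D.map π) ⊤ ((rkM q (j * q ^ m) n).factorial + 1)
    rw [h5, Subgroup.map_bot, ← MonoidHom.range_eq_map, Subgroup.range_subtype] at h7
    exact h7.symm
  refine lns_of_map π h6 ?_
  rw [hπk]
  exact h1

theorem pPr (q n m j : ℕ) [Fact q.Prime] {F : Type u} [Group F] [Finite F]
    (D R : Subgroup F) (hs : Group.IsSolvable D) (hR' : IsPGroup q R) (hn : Nat.card R ≤ n)
    (hRD : ∀ x ∈ R, ∀ y ∈ D, x * y * x⁻¹ ∈ D)
    (hRB : ∀ s : ℕ, s.Prime → RB s (j * s ^ m) (D ⊓ centralizer (R : Set F))) :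
    lns D (hPP q n m j) = ⊥ := by
  have hnorm : D ⊔ R ≤ normalizer (D : Set F) := by
    apply sup_le le_normalizer
    intro x hx
    rw [Subgroup.mem_normalizer_iff]
    intro y
    constructor
    · intro hy
      exact hRD x hx y hy
    · intro hy
      have h1 := hRD x⁻¹ (inv_mem hx) _ hy
      have h2 : x⁻¹ * (x * y * x⁻¹) * x⁻¹⁻¹ = y := by group
      rwa [h2] at h1
  have hDn : (D.subgroupOf (D ⊔ R)).Normal := normal_subgroupOf_of_le_normalizer hnorm
  have hDm : (D.subgroupOf (D ⊔ R)).map (D ⊔ R).subtype = D :=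
    Subgroup.map_subgroupOf_eq_of_le le_sup_left
  have hRm : (R.subgroupOf (D ⊔ R)).map (D ⊔ R).subtype = R :=
    Subgroup.map_subgroupOf_eq_of_le le_sup_right
  have h1 := ppr_norm q n m j (D.subgroupOf (D ⊔ R)) (R.subgroupOf (D ⊔ R))
    (solv_map (Subgroup.subgroupOfEquivOfLe (le_sup_left : D ≤ D ⊔ R)).symm.toMonoidHom
      (Subgroup.subgroupOfEquivOfLe (le_sup_left : D ≤ D ⊔ R)).symm.surjective hs)
    (hR'.comap_of_injective _ (Subgroup.subtype_injective _))
    (by
      rw [← hRm, Subgroup.card_map_of_injective (Subgroup.subtype_injective _)] at hn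
      exact hn)
    (by
      intro s hs'
      apply ppr_rb (D ⊔ R).subtype (Subgroup.subtype_injective _)
      refine rb_mono ?_ (hRB s hs')
      rintro _ ⟨x, ⟨hx1, hx2⟩, rfl⟩
      refine ⟨Subgroup.mem_subgroupOf.1 hx1, mem_centralizer_iff.2 fun y hy => ?_⟩
      have h3 := mem_centralizer_iff.1 hx2 ⟨y, (le_sup_right : R ≤ D ⊔ R) hy⟩ hy
      exact congrArg Subtype.val h3)
  have h2 := lns_subtype (D ⊔ R) (D.subgroupOf (D ⊔ R)) (hPP q n m j)
  rw [h1, Subgroup.map_bot, hDm] at h2
  exact h2.symm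

end H78TP
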