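import Pool.Agent.H78.TP.NilSyl

/-!
[H78 TP PQ] Normal `p'`-subgroups of `{p,q}`-groups (20 min).

PROOF. `N` is a `q`-group: for `g ∈ N`, `g ^ (p ^ a * q ^ b) = 1`, and the order of `g` is prime to
`p` (it divides `|N|`), so `g ^ (q ^ b) = 1`. So `N` is nilpotent (`IsPGroup.isNilpotent`), and
`gam N c = ⊥` (`gam_of_isNilpotent`), `lns N 1 = ⊥` (`lns_one_of_gam`).
-/

namespace H78TP

open Subgroup
open scoped commutatorElement

theorem opT_of_isPQ (p q : ℕ) [Fact p.Prime] [Fact q.Prime] {F : Type*} [Group F]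
    [Finite F] (h : IsPQ p q F) : OpT p 1 F := by
  intro N _ hpN
  have hp : p.Prime := Fact.out
  have hNq : IsPGroup q N := by
    intro g
    obtain ⟨a, b, hab⟩ := h g.1
    refine ⟨b, ?_⟩
    have h1 : g ^ (p ^ a * q ^ b) = 1 := Subtype.ext hab
    have h2 : orderOf g ∣ p ^ a * q ^ b := orderOf_dvd_of_pow_eq_one h1
    have h3 : ¬ p ∣ orderOf g := fun h4 => hpN (h4.trans (orderOf_dvd_natCard g))
    have h4 : Nat.Coprime (orderOf g) (p ^ a) :=
      (Nat.Coprime.pow_left a ((Nat.Prime.coprime_iff_not_dvd hp).2 h3)).symm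
    exact orderOf_dvd_iff_pow_eq_one.1 (h4.dvd_of_dvd_mul_left h2)
  obtain ⟨c, hc⟩ := gam_of_isNilpotent N hNq.isNilpotent
  have h1 := lns_one_of_gam (X := N) (Y := ⊥) (c := c) (le_of_eq hc)
  exact le_bot_iff.1 h1

theorem isPQ_map (p q : ℕ) {F F' : Type*} [Group F] [Group F'] (f : F →* F')
    (hf : Function.Surjective f) (h : IsPQ p q F) : IsPQ p q F' := by
  intro g
  obtain ⟨x, rfl⟩ := hf g
  obtain ⟨a, b, hab⟩ := h x
  exact ⟨a, b, by rw [← map_pow, hab, map_one]⟩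

end H78TP
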