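import Pool.Agent.H78.TP.Base

/-!
[H78 TP PRM] A soluble transitive group generated by elements with small support (60 min).

PROOF. Let `i` be maximal such that `L = derivedSeries T i` is transitive on `Ω`
(`derivedSeries T 0 = ⊤` is; a trivial group is not, as `2 ≤ |Ω|`, and `T` is soluble), and let
`L' = derivedSeries T (i + 1)`, normal in `T`, not transitive. Let `B` be the set of orbits of `L'`
(`MulAction.orbitRel.Quotient L' Ω`), `|B| ≥ 2`. `T` acts on `B` (`L'` is normal), and all orbits
have the same size `b` (`T` is transitive), `|Ω| = b |B|`. `L` acts transitively on `B`, and `L'`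
acts trivially on `B`, so for `x, y ∈ L` the actions of `x y` and `y x` on `B` agree.
Claim: if `g ∈ T` acts nontrivially on `B` then `g` fixes at most `|B| / 2` elements of `B`.
Suppose `g` fixes `β₀`. For `β ∈ B` choose `x_β ∈ L` with `x_β β₀ = β`. An element of `L` which
fixes one element of `B` fixes all (the action of `L` on `B` is transitive and abelian). The
set `H` of the permutations of `B` induced by `L` is an abelian group acting regularly on `B`,
`g` normalises it, `g` fixes `β = h β₀` iff `g h g⁻¹ β₀ = h β₀` iff `g h g⁻¹ = h`, so the number of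
fixed points of `g` is the order of the subgroup `C_H(g)`. If `C_H(g) = H` then `g` fixes all of
`B`. Otherwise `|C_H(g)| ≤ |H| / 2 = |B| / 2`.
So `g` moves at least `|B| / 2` elements of `B`, and all `b` points of each of them, so `g` moves
at least `|Ω| / 2` points. As `T = closure S` acts transitively on `B` and `|B| ≥ 2`, some
`g ∈ S` acts nontrivially on `B`; so `|Ω| / 2 ≤ m`.
-/

namespace H78TP

open Subgroup
open scoped commutatorElement

theorem prm {T Ω : Type*} [Group T] [MulAction T Ω] [Finite Ω] [MulAction.IsPretransitive T Ω]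
    (hs : Group.IsSolvable T) (S : Set T) (hS : Subgroup.closure S = ⊤) (m : ℕ)
    (hm : ∀ g ∈ S, Nat.card {x : Ω // g • x ≠ x} ≤ m) (h2 : 2 ≤ Nat.card Ω) :
    Nat.card Ω ≤ 2 * m := by
  classical
  have : Fintype Ω := Fintype.ofFinite Ω
  set P : ℕ → Prop := fun i => ∀ x y : Ω, ∃ g ∈ derivedSeries T i, g • x = y with hP
  have hP0 : P 0 := by
    intro x y
    obtain ⟨g, hg⟩ := MulAction.exists_smul_eq T x y
    exact ⟨g, by rw [derivedSeries_zero]; exact Subgroup.mem_top g, hg⟩
  have hex : ∃ n, ¬ P n := by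
    obtain ⟨n, hn⟩ := hs.solvable
    refine ⟨n, fun h => ?_⟩
    have hsub : Subsingleton Ω := ⟨fun x y => by
      obtain ⟨g, hg, hgx⟩ := h x y
      rw [hn, Subgroup.mem_bot] at hg
      rw [hg, one_smul] at hgx
      exact hgx⟩
    have h1 := Finite.card_le_one_iff_subsingleton.2 hsub
    omega
  obtain ⟨i, hi, hi'⟩ : ∃ i, P i ∧ ¬ P (i + 1) := by
    by_contra h
    push Not at h
    obtain ⟨n, hn⟩ := hex
    exact hn (Nat.rec hP0 (fun j hj => h j hj) n)
  set L := derivedSeries T i with hL
  have hLn : L.Normal := derivedSeries_normal T i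
  set L' := derivedSeries T (i + 1) with hL'
  have hLn' : L'.Normal := derivedSeries_normal T (i + 1)
  set R : Ω → Ω → Prop := fun x y => ∃ h ∈ L', h • x = y with hR
  have Rrefl : ∀ x, R x x := fun x => ⟨1, L'.one_mem, one_smul _ _⟩
  have Rsymm : ∀ x y, R x y → R y x := by
    rintro x y ⟨h, hh, rfl⟩
    exact ⟨h⁻¹, L'.inv_mem hh, inv_smul_smul _ _⟩
  have Rtrans : ∀ x y w, R x y → R y w → R x w := by
    rintro x y w ⟨h, hh, rfl⟩ ⟨h', hh', rfl⟩
    exact ⟨h' * h, L'.mul_mem hh' hh, mul_smul _ _ _⟩
  have Rsmul : ∀ (g : T) (x y : Ω), R x y → R (g • x) (g • y) := by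
    rintro g x y ⟨h, hh, rfl⟩
    refine ⟨g * h * g⁻¹, hLn'.conj_mem h hh g, ?_⟩
    rw [← mul_smul, ← mul_smul]
    congr 1
    group
  have Rcomm : ∀ a ∈ L, ∀ b ∈ L, ∀ x : Ω, R (a • b • x) (b • a • x) := by
    intro a ha b hb x
    refine ⟨⁅b, a⁆, ?_, ?_⟩
    · rw [hL', derivedSeries_succ]
      exact Subgroup.commutator_mem_commutator hb ha
    · rw [← mul_smul, ← mul_smul, ← mul_smul, commutatorElement_def]
      congr 1
      group
  obtain ⟨g, hgS, ω1, hω1⟩ : ∃ g ∈ S, ∃ ω : Ω, ¬ R (g • ω) ω := by
    by_contra h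
    push Not at h
    apply hi'
    have hall : ∀ g : T, ∀ ω : Ω, R (g • ω) ω := by
      intro g
      have hg : g ∈ Subgroup.closure S := by
        rw [hS]
        exact Subgroup.mem_top g
      induction hg using Subgroup.closure_induction with
      | mem x hx => exact h x hx
      | one => exact fun ω => by rw [one_smul]; exact Rrefl ω
      | mul a b _ _ ha hb =>
        intro ω
        rw [mul_smul]
        exact Rtrans _ _ _ (ha _) (hb ω)
      | inv a _ ha =>
        intro ω
        have h1 := ha (a⁻¹ • ω)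
        rw [smul_inv_smul] at h1
        exact Rsymm _ _ h1
    intro x y
    obtain ⟨g, hg⟩ := MulAction.exists_smul_eq T x y
    have h1 := Rsymm _ _ (hall g x)
    rw [hg] at h1
    exact h1
  set F : Finset Ω := Finset.univ.filter (fun ω => R (g • ω) ω) with hF
  have hmF : ∀ ω, ω ∈ F ↔ R (g • ω) ω := by
    intro ω
    rw [hF, Finset.mem_filter]
    simp
  have hFc : F.card ≤ Fᶜ.card := by
    rcases F.eq_empty_or_nonempty with h0 | ⟨ω0, h0⟩
    · rw [h0, Finset.card_empty]
      exact Nat.zero_le _
    · rw [hmF] at h0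
      obtain ⟨t, ht, htω⟩ := hi ω0 ω1
      refine Finset.card_le_card_of_injOn (fun x => t • x) ?_ ?_
      · intro x hx
        rw [Finset.mem_coe, hmF] at hx
        rw [Finset.mem_coe, Finset.mem_compl, hmF]
        intro h1
        obtain ⟨k, hk, rfl⟩ := hi ω0 x
        have ht' : g * t * g⁻¹ ∈ L := hLn.conj_mem t ht g
        have e1 : ∀ w : Ω, g • t • w = (g * t * g⁻¹) • g • w := by
          intro w
          rw [← mul_smul, ← mul_smul]
          congr 1
          group
        have h2 : R ((g * t * g⁻¹) • k • ω0) (t • k • ω0) := by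
          refine Rtrans _ _ _ (Rsymm _ _ (Rsmul (g * t * g⁻¹) _ _ hx)) ?_
          rw [← e1]
          exact h1
        have h3 : R (k • (g * t * g⁻¹) • ω0) (k • t • ω0) :=
          Rtrans _ _ _ (Rcomm k hk _ ht' ω0) (Rtrans _ _ _ h2 (Rcomm t ht k hk ω0))
        have h4 := Rsmul k⁻¹ _ _ h3
        rw [inv_smul_smul, inv_smul_smul] at h4
        apply hω1
        rw [← htω, e1]
        exact Rtrans _ _ _ (Rsmul _ _ _ h0) h4
      · intro x _ y _ h1
        exact smul_left_cancel t h1
  have hle : Fᶜ.card ≤ m := by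
    refine le_trans ?_ (hm g hgS)
    rw [Nat.card_eq_fintype_card, Fintype.card_subtype]
    apply Finset.card_le_card
    intro ω hω
    rw [Finset.mem_compl, hmF] at hω
    rw [Finset.mem_filter]
    refine ⟨Finset.mem_univ _, fun h => hω ?_⟩
    rw [h]
    exact Rrefl ω
  have htot := Finset.card_add_card_compl F
  rw [← Nat.card_eq_fintype_card] at htot
  omega

end H78TP
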