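import Pool.Agent.H78.TP.Prm
import Pool.Agent.H78.TP.Der

/-!
[H78 TP PRM2] A bounded derived subgroup acts trivially (30-40 min).

PROOF. Let `x : Ω` and `Ω₁ = MulAction.orbit T x`, on which `T` acts transitively; every `g ∈ S`
moves at most `m` points of `Ω₁`. By `prm` `|Ω₁| ≤ 2 m + 1`. The homomorphism
`MulAction.toPermHom T Ω₁ : T →* Equiv.Perm Ω₁` has a target of order `|Ω₁| ! ≤ (2 m + 1) !`, so
by `derK` (with `X = ⊤`, `dS_top_eq`) `derivedSeries T ((2 m + 1) !)` is in its kernel.
-/

namespace H78TP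

open Subgroup
open scoped commutatorElement

theorem prm2 {T Ω : Type*} [Group T] [MulAction T Ω] [Finite Ω] (hs : Group.IsSolvable T)
    (S : Set T) (hS : Subgroup.closure S = ⊤) (m : ℕ)
    (hm : ∀ g ∈ S, Nat.card {x : Ω // g • x ≠ x} ≤ m) :
    ∀ g ∈ derivedSeries T (2 * m + 1).factorial, ∀ x : Ω, g • x = x := by
  intro g hg x
  have hcard : Nat.card (MulAction.orbit T x) ≤ 2 * m + 1 := by
    by_cases h2 : 2 ≤ Nat.card (MulAction.orbit T x)
    · have h3 := prm (Ω := MulAction.orbit T x) hs S hS m (fun s hsS => by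
        refine le_trans ?_ (hm s hsS)
        refine Nat.card_le_card_of_injective
          (fun y : {y : MulAction.orbit T x // s • y ≠ y} =>
            (⟨y.1.1, fun hc => y.2 (Subtype.ext hc)⟩ : {z : Ω // s • z ≠ z})) ?_
        intro a b hab
        have h4 : a.1.1 = b.1.1 :=
          congrArg (fun z : {z : Ω // s • z ≠ z} => z.1) hab
        exact Subtype.ext (Subtype.ext h4)) h2
      omega
    · omega
  have hperm : Nat.card (Equiv.Perm (MulAction.orbit T x)) ≤ (2 * m + 1).factorial := by
    rw [Nat.card_perm]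
    exact Nat.factorial_le hcard
  have hder := derK (MulAction.toPermHom T (MulAction.orbit T x)) (⊤ : Subgroup T)
    (solv_sub hs ⊤) _ hperm
  rw [dS_top_eq] at hder
  have h5 := hder hg
  rw [MonoidHom.mem_ker] at h5
  have h6 := congrArg (fun σ : Equiv.Perm (MulAction.orbit T x) =>
    ((σ ⟨x, MulAction.mem_orbit_self x⟩ : MulAction.orbit T x) : Ω)) h5
  exact h6

end H78TP
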