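import Pool.Agent.H78.TP.Base

/-!
[H78 TP QC] Regular indices are few (60 min).

PROOF. `qm` (the map `v ↦ ∑ x : R, τ x v`): for `v ∈ S` this vector lies in `V ⊓ Fx τ R` (`V` is
invariant, and the sum is `R`-invariant). It is injective on `S`: if the sum is `0`, group it
according to `j = x • i`: the terms with `x • i = i` sum up to (number of `x` with `x • i = i`)
times `v` (by `hfix`), an element of `W i`, the other groups lie in `W j`, `j ≠ i`; by independence
`(c : k) • v = 0` where `c` is the order of the stabiliser of `i` in `R`, a divisor of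
`Nat.card R`, so `(c : k) ≠ 0` by `hk` and `v = 0`. So `finrank S ≤ finrank (V ⊓ Fx τ R)`
(`LinearMap.finrank_le_finrank_of_injective`).
`qc`: let `J` be the set of the indices in question; `R` acts on `J` freely. Choose a set of
representatives `J₀` of the orbits, `|J| = |R| |J₀|`, and for `i ∈ J₀` a nonzero `v i ∈ W i`. The
vectors `u i = ∑ x, τ x (v i) ∈ V ⊓ Fx τ R` (`i ∈ J₀`) are linearly independent: the component in
`W i` of `∑ c_l u_l` is `c_i v_i`, because `x • l = i` with `l, i ∈ J₀` only for `l = i`, `x = 1`.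
So `|J₀| ≤ finrank (V ⊓ Fx τ R)`. (No assumption on the characteristic is needed here.)
-/

namespace H78TP

open Subgroup
open scoped commutatorElement

variable {k Γ U : Type*} [Field k] [Group Γ] [AddCommGroup U] [Module k U]

private noncomputable def qcAvg (τ : Representation k Γ U) (R : Subgroup Γ) [Fintype R] :
    U →ₗ[k] U := ∑ x : R, τ (x : Γ)

private theorem qcAvg_apply (τ : Representation k Γ U) (R : Subgroup Γ) [Fintype R] (v : U) :
    qcAvg τ R v = ∑ x : R, τ (x : Γ) v := by
  rw [qcAvg, LinearMap.sum_apply]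

private theorem qcAvg_mem (τ : Representation k Γ U) (R : Subgroup Γ) [Fintype R]
    {V : Submodule k U} (hinv : ∀ x ∈ R, ∀ v ∈ V, τ x v ∈ V) {v : U} (hv : v ∈ V) :
    qcAvg τ R v ∈ V ⊓ Fx τ R := by
  rw [qcAvg_apply]
  refine ⟨Submodule.sum_mem _ fun x _ => hinv x.1 x.2 v hv, ?_⟩
  intro g hg
  rw [map_sum]
  have h : ∀ x : R, τ g (τ (x : Γ) v) = τ (((⟨g, hg⟩ : R) * x : R) : Γ) v := by
    intro x
    rw [← Module.End.mul_apply, ← map_mul]
    rfl
  rw [Finset.sum_congr rfl (fun x _ => h x)]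
  exact Fintype.sum_equiv (Equiv.mulLeft (⟨g, hg⟩ : R)) _ _ (fun x => rfl)

theorem qm [Finite Γ] [Module.Finite k U] (τ : Representation k Γ U) (R : Subgroup Γ)
    (V : Submodule k U) {ι : Type*} [Finite ι] [MulAction R ι] (W : ι → Submodule k U)
    (hind : iSupIndep W) (hV : ∀ i, W i ≤ V) (hinv : ∀ x ∈ R, ∀ v ∈ V, τ x v ∈ V)
    (hW : ∀ (x : R) (i : ι) (v : U), v ∈ W i → τ x v ∈ W (x • i))
    (hk : (Nat.card R : k) ≠ 0) (i : ι) (S : Submodule k U) (hS : S ≤ W i)
    (hfix : ∀ v ∈ S, ∀ x : R, x • i = i → τ x v = v) :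
    Module.finrank k S ≤ Module.finrank k (V ⊓ Fx τ R : Submodule k U) := by
  classical
  have : Fintype R := Fintype.ofFinite R
  have : Fintype ι := Fintype.ofFinite ι
  have key : ∀ w : ι → U, (∀ j, w j ∈ W j) → ∑ j, w j = 0 → ∀ j, w j = 0 :=
    fun w h1 h2 j => (iSupIndep_iff_finsetSum_eq_zero_imp_eq_zero W).1 hind Finset.univ w
      (fun i _ => h1 i) h2 j (Finset.mem_univ j)
  let f : S →ₗ[k] (V ⊓ Fx τ R : Submodule k U) :=
    LinearMap.codRestrict _ ((qcAvg τ R).comp S.subtype)
      (fun v => qcAvg_mem τ R hinv (hV i (hS v.2)))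
  apply LinearMap.finrank_le_finrank_of_injective (f := f)
  rw [← LinearMap.ker_eq_bot, LinearMap.ker_eq_bot']
  intro v hv
  have h1 : qcAvg τ R v.1 = 0 := congrArg Subtype.val hv
  have h2 : ∑ j, ∑ x ∈ Finset.univ.filter (fun x : R => x • i = j), τ (x : Γ) v.1 = 0 := by
    have h := Finset.sum_fiberwise Finset.univ (fun x : R => x • i)
      (fun x : R => τ (x : Γ) v.1)
    rw [← qcAvg_apply] at h
    exact h.trans h1
  have h3 := key _ (fun j => Submodule.sum_mem _ fun x hx => by
      have h := hW x i v.1 (hS v.2)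
      rw [(Finset.mem_filter.1 hx).2] at h
      exact h) h2 i
  have h4 : ∑ x ∈ Finset.univ.filter (fun x : R => x • i = i), τ (x : Γ) v.1 =
      ((Finset.univ.filter (fun x : R => x • i = i)).card : k) • v.1 := by
    rw [Finset.sum_congr rfl (fun x hx => hfix v.1 v.2 x (Finset.mem_filter.1 hx).2),
      Finset.sum_const, ← Nat.cast_smul_eq_nsmul k]
  rw [h4] at h3
  have h5 : ((Finset.univ.filter (fun x : R => x • i = i)).card : k) ≠ 0 := by
    have hc : (Finset.univ.filter (fun x : R => x • i = i)).card =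
        Nat.card (MulAction.stabilizer R i) := by
      rw [Nat.card_eq_fintype_card, Fintype.card_subtype]
      rfl
    obtain ⟨m, hm⟩ := Subgroup.card_subgroup_dvd_card (MulAction.stabilizer R i)
    intro h0
    apply hk
    rw [hm, ← hc, Nat.cast_mul, h0, zero_mul]
  exact Subtype.ext ((smul_eq_zero.1 h3).resolve_left h5)

theorem qc [Finite Γ] [Module.Finite k U] (τ : Representation k Γ U) (R : Subgroup Γ)
    (V : Submodule k U) {ι : Type*} [Finite ι] [MulAction R ι] (W : ι → Submodule k U)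
    (hind : iSupIndep W) (hV : ∀ i, W i ≤ V) (hinv : ∀ x ∈ R, ∀ v ∈ V, τ x v ∈ V)
    (hW : ∀ (x : R) (i : ι) (v : U), v ∈ W i → τ x v ∈ W (x • i)) :
    Nat.card {i : ι // W i ≠ ⊥ ∧ ∀ x : R, x • i = i → x = 1} ≤
      Nat.card R * Module.finrank k (V ⊓ Fx τ R : Submodule k U) := by
  classical
  have : Fintype R := Fintype.ofFinite R
  have : Fintype ι := Fintype.ofFinite ι
  have key : ∀ w : ι → U, (∀ j, w j ∈ W j) → ∑ j, w j = 0 → ∀ j, w j = 0 :=
    fun w h1 h2 j => (iSupIndep_iff_finsetSum_eq_zero_imp_eq_zero W).1 hind Finset.univ w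
      (fun i _ => h1 i) h2 j (Finset.mem_univ j)
  obtain ⟨J, hJ⟩ : ∃ J : Finset ι, J =
    Finset.univ.filter (fun i => W i ≠ ⊥ ∧ ∀ x : R, x • i = i → x = 1) := ⟨_, rfl⟩
  have hcard : Nat.card {i : ι // W i ≠ ⊥ ∧ ∀ x : R, x • i = i → x = 1} = J.card := by
    rw [Nat.card_eq_fintype_card, Fintype.card_subtype, hJ]
  have hmemJ : ∀ i, i ∈ J ↔ W i ≠ ⊥ ∧ ∀ x : R, x • i = i → x = 1 := by
    intro i
    rw [hJ, Finset.mem_filter]
    simp
  obtain ⟨cl, hcl⟩ : ∃ cl : ι → MulAction.orbitRel.Quotient R ι, cl =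
    fun i => Quotient.mk'' i := ⟨_, rfl⟩
  have hcleq : ∀ i j, cl i = cl j → ∃ x : R, x • j = i := by
    intro i j h
    rw [hcl] at h
    have h2 := Quotient.exact h
    exact MulAction.mem_orbit_iff.1 (MulAction.orbitRel_apply.1 h2)
  have hclx : ∀ (x : R) (j : ι), cl (x • j) = cl j := by
    intro x j
    rw [hcl]
    exact Quotient.sound' (MulAction.orbitRel_apply.2 (MulAction.mem_orbit j x))
  clear hcl
  -- representatives
  have hrep : ∀ o : J.image cl, ∃ i, i ∈ J ∧ cl i = o.1 := by
    intro o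
    obtain ⟨i, hi, h⟩ := Finset.mem_image.1 o.2
    exact ⟨i, hi, h⟩
  choose rp hrpJ hrpcl using hrep
  have hvex : ∀ o : J.image cl, ∃ v ∈ W (rp o), v ≠ 0 := by
    intro o
    exact Submodule.exists_mem_ne_zero_of_ne_bot ((hmemJ _).1 (hrpJ o)).1
  choose v hvW hv0 using hvex
  -- the vectors
  have hli : LinearIndependent k (fun o : J.image cl =>
      (⟨qcAvg τ R (v o), qcAvg_mem τ R hinv (hV _ (hvW o))⟩ :
        (V ⊓ Fx τ R : Submodule k U))) := by
    refine LinearIndependent.of_comp (V ⊓ Fx τ R : Submodule k U).subtype ?_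
    rw [Fintype.linearIndependent_iff]
    intro c hc o
    have hc2 : ∑ j, ∑ o : J.image cl, ∑ x ∈ Finset.univ.filter (fun x : R => x • rp o = j),
        c o • τ (x : Γ) (v o) = 0 := by
      rw [Finset.sum_comm, ← hc]
      refine Finset.sum_congr rfl fun o _ => ?_
      have h := Finset.sum_fiberwise Finset.univ (fun x : R => x • rp o)
        (fun x : R => c o • τ (x : Γ) (v o))
      rw [← Finset.smul_sum, ← qcAvg_apply] at h
      exact h
    have h3 : ∑ o' : J.image cl, ∑ x ∈ Finset.univ.filter (fun x : R => x • rp o' = rp o),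
        c o' • τ (x : Γ) (v o') = 0 := by
      refine key (fun j => ∑ o' : J.image cl,
        ∑ x ∈ Finset.univ.filter (fun x : R => x • rp o' = j), c o' • τ (x : Γ) (v o'))
        (fun j => Submodule.sum_mem _ fun o' _ => Submodule.sum_mem _ fun x hx => ?_) hc2 (rp o)
      refine Submodule.smul_mem _ _ ?_
      have h := hW x (rp o') (v o') (hvW o')
      rw [(Finset.mem_filter.1 hx).2] at h
      exact h
    have h4 : ∀ o' ∈ (Finset.univ : Finset (J.image cl)), o' ≠ o →
        ∑ x ∈ Finset.univ.filter (fun x : R => x • rp o' = rp o), c o' • τ (x : Γ) (v o') = 0 := by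
      intro o' _ hne
      refine Finset.sum_eq_zero fun x hx => ?_
      exfalso
      apply hne
      apply Subtype.ext
      have hx2 := (Finset.mem_filter.1 hx).2
      rw [← hrpcl o', ← hrpcl o, ← hx2, hclx]
    have h5 : Finset.univ.filter (fun x : R => x • rp o = rp o) = {1} := by
      ext x
      rw [Finset.mem_filter, Finset.mem_singleton]
      constructor
      · rintro ⟨_, h⟩
        exact ((hmemJ _).1 (hrpJ o)).2 x h
      · rintro rfl
        exact ⟨Finset.mem_univ _, one_smul _ _⟩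
    rw [Finset.sum_eq_single_of_mem o (Finset.mem_univ o) h4, h5, Finset.sum_singleton,
      Subgroup.coe_one, map_one, Module.End.one_apply] at h3
    exact (smul_eq_zero.1 h3).resolve_right (hv0 o)
  have hO : (J.image cl).card ≤ Module.finrank k (V ⊓ Fx τ R : Submodule k U) := by
    have h := hli.fintype_card_le_finrank
    rwa [Fintype.card_coe] at h
  rw [hcard]
  refine (Finset.card_le_mul_card_image (f := cl) J (Nat.card R) ?_).trans
    (Nat.mul_le_mul_left _ hO)
  intro o ho
  obtain ⟨i, hi, hio⟩ := Finset.mem_image.1 ho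
  have hsub : J.filter (fun j => cl j = o) ⊆ Finset.univ.image (fun x : R => x • i) := by
    intro j hj
    have h1 := (Finset.mem_filter.1 hj).2
    rw [← hio] at h1
    obtain ⟨x, hx⟩ := hcleq j i h1
    exact Finset.mem_image.2 ⟨x, Finset.mem_univ _, hx⟩
  refine (Finset.card_le_card hsub).trans (Finset.card_image_le.trans ?_)
  rw [Finset.card_univ, Nat.card_eq_fintype_card]

end H78TP
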