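import Pool.Agent.H78.TP.Base

/-!
[H78 TP QCK] `s`-groups in which the elements of order `s` (4 if `s = 2`) are central
(45-60 min).

PROOF. Strong induction on the order of `L = closure {x, y}`. If `x * y = y * x` then
`(x⁻¹ * y) ^ s = x ^ (-s) * y ^ s = 1`. So assume that `x`, `y` do not commute; then
`zpowers x ≠ L`. Let `x' = y x y⁻¹`. `x' ^ s = y x ^ s y⁻¹ = y y ^ s y⁻¹ = y ^ s = x ^ s`.
`closure {x, x'} < L`: let `M` be a maximal subgroup of `L` with `x ∈ M` (it exists as
`zpowers x < L`); `M` is normal in `L` (a finite `s`-group is nilpotent, maximal subgroups are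
normal: `NormalizerCondition.normal_of_coatom`), so `x' ∈ M`. By induction
`(x⁻¹ * x') ^ s = 1`. So `u = x⁻¹ * x'` satisfies `u ^ q0 = 1` (`s ∣ q0`) and `u` is central.
Then `x' = y x y⁻¹ = x u`, so `⟨x, y⟩` has class `≤ 2` with commutators powers of `u`, `u ^ s = 1`.
If `s` is odd: `(x⁻¹ * y) ^ s = x ^ (-s) * y ^ s * u ^ (± s (s - 1) / 2) = 1`.
If `s = 2`: `(x⁻¹ * y) ^ 2 = x ^ (-2) * y ^ 2 * u ^ (± 1) = u ^ (± 1)`, so
`(x⁻¹ * y) ^ 4 = 1 = (x⁻¹ * y) ^ q0`, so `x⁻¹ * y` is central; then `y = x * (x⁻¹ * y)` commutes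
with `x`, a contradiction.
-/

namespace H78TP

open Subgroup
open scoped commutatorElement

private lemma qck_pow {K : Type*} [Group K] (a b z : K) (h1 : b * a = a * b * z)
    (h2 : z * a = a * z) (h3 : z * b = b * z) (n : ℕ) :
    (a * b) ^ n = a ^ n * b ^ n * z ^ (n.choose 2) := by
  have hza : Commute z a := h2
  have hzb : Commute z b := h3
  have hb : ∀ n : ℕ, b ^ n * a = a * b ^ n * z ^ n := by
    intro n
    induction n with
    | zero => simp
    | succ n ih =>
      calc b ^ (n + 1) * a = b ^ n * (b * a) := by rw [pow_succ, mul_assoc]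
        _ = b ^ n * (a * b * z) := by rw [h1]
        _ = (b ^ n * a) * (b * z) := by simp only [mul_assoc]
        _ = a * b ^ n * z ^ n * (b * z) := by rw [ih]
        _ = a * b ^ n * (z ^ n * b) * z := by simp only [mul_assoc]
        _ = a * b ^ n * (b * z ^ n) * z := by rw [(hzb.pow_left n).eq]
        _ = a * b ^ (n + 1) * z ^ (n + 1) := by simp only [pow_succ, mul_assoc]
  induction n with
  | zero => simp
  | succ n ih =>
    have hc : (n + 1).choose 2 = n + n.choose 2 := by
      rw [Nat.choose_succ_succ' n 1, Nat.choose_one_right]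
    calc (a * b) ^ (n + 1) = (a * b) ^ n * (a * b) := pow_succ _ _
      _ = a ^ n * b ^ n * z ^ (n.choose 2) * (a * b) := by rw [ih]
      _ = a ^ n * b ^ n * (z ^ (n.choose 2) * (a * b)) := by simp only [mul_assoc]
      _ = a ^ n * b ^ n * ((a * b) * z ^ (n.choose 2)) := by
          rw [((hza.mul_right hzb).pow_left (n.choose 2)).eq]
      _ = a ^ n * (b ^ n * a) * b * z ^ (n.choose 2) := by simp only [mul_assoc]
      _ = a ^ n * (a * b ^ n * z ^ n) * b * z ^ (n.choose 2) := by rw [hb]
      _ = a ^ n * a * b ^ n * (z ^ n * b) * z ^ (n.choose 2) := by simp only [mul_assoc]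
      _ = a ^ n * a * b ^ n * (b * z ^ n) * z ^ (n.choose 2) := by rw [(hzb.pow_left n).eq]
      _ = a ^ (n + 1) * b ^ (n + 1) * z ^ ((n + 1).choose 2) := by
          rw [hc, pow_add z n, pow_succ a n, pow_succ b n]; simp only [mul_assoc]

private lemma qck_card {K : Type*} [Group K] [Finite K] (s : ℕ) [Fact s.Prime]
    (hK : IsPGroup s K) (x y : K) (hxy : x * y ≠ y * x) :
    Nat.card (closure ({x, y * x * y⁻¹} : Set K)) < Nat.card (closure ({x, y} : Set K)) := by
  set L := closure ({x, y} : Set K) with hL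
  have hxL : x ∈ L := subset_closure (by simp)
  have hyL : y ∈ L := subset_closure (by simp)
  have hLp : IsPGroup s L := hK.to_subgroup L
  have hnil : Group.IsNilpotent L := hLp.isNilpotent
  have hne : zpowers (⟨x, hxL⟩ : L) ≠ ⊤ := by
    intro h
    have hy : (⟨y, hyL⟩ : L) ∈ zpowers (⟨x, hxL⟩ : L) := by rw [h]; trivial
    obtain ⟨k, hk⟩ := mem_zpowers_iff.1 hy
    have hk' : x ^ k = y := by
      have := congrArg Subtype.val hk
      simpa using this
    apply hxy
    rw [← hk']
    exact (Commute.refl x).zpow_right k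
  obtain ⟨M, hM, hxM⟩ := (eq_top_or_exists_le_coatom (zpowers (⟨x, hxL⟩ : L))).resolve_left hne
  have hMn : M.Normal := NormalizerCondition.normal_of_coatom M
    Group.normalizerCondition_of_isNilpotent hM
  have hx1 : (⟨x, hxL⟩ : L) ∈ M := hxM (mem_zpowers _)
  have hx2 := hMn.conj_mem _ hx1 ⟨y, hyL⟩
  have hle : closure ({x, y * x * y⁻¹} : Set K) ≤ M.map L.subtype := by
    rw [closure_le]
    rintro z hz
    rcases hz with rfl | hz
    · exact ⟨_, hx1, rfl⟩
    · rw [Set.mem_singleton_iff] at hz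
      subst hz
      exact ⟨_, hx2, rfl⟩
  have h1 : Nat.card (closure ({x, y * x * y⁻¹} : Set K)) ≤ Nat.card (M.map L.subtype) :=
    Subgroup.card_le_of_le hle
  have h2 : Nat.card (M.map L.subtype) = Nat.card M :=
    Subgroup.card_map_of_injective L.subtype_injective
  have h3 : Nat.card M < Nat.card L := by
    refine lt_of_le_of_ne (Subgroup.card_le_card_group M) fun he => hM.1 ?_
    exact Subgroup.eq_top_of_card_eq M he
  omega

theorem qcK {K : Type*} [Group K] [Finite K] (s q0 : ℕ) [Fact s.Prime] (hq : QZ s q0)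
    (hK : IsPGroup s K) (hcen : ∀ x : K, x ^ q0 = 1 → ∀ y, x * y = y * x) (x y : K)
    (h : x ^ s = y ^ s) : (x⁻¹ * y) ^ s = 1 := by
  have hs := (Fact.out : s.Prime)
  have hcomm : ∀ x y : K, x ^ s = y ^ s → x * y = y * x → (x⁻¹ * y) ^ s = 1 := by
    intro x y h hxy
    have hc : Commute x⁻¹ y := (show Commute x y from hxy).inv_left
    rw [hc.mul_pow, inv_pow, h, inv_mul_cancel]
  have main : ∀ n : ℕ, ∀ x y : K, Nat.card (closure ({x, y} : Set K)) ≤ n → x ^ s = y ^ s →
      (x⁻¹ * y) ^ s = 1 := by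
    intro n
    induction n with
    | zero =>
      intro x y hn _
      have : 0 < Nat.card (closure ({x, y} : Set K)) := Nat.card_pos
      omega
    | succ n ih =>
      intro x y hn h
      by_cases hxy : x * y = y * x
      · exact hcomm x y h hxy
      · have hcard := qck_card s hK x y hxy
        have hx' : x ^ s = (y * x * y⁻¹) ^ s := by
          rw [conj_pow, h, mul_inv_eq_iff_eq_mul.2 ((Commute.refl y).pow_right s).eq]
        have hu := ih x (y * x * y⁻¹) (by omega) hx'
        set u := x⁻¹ * (y * x * y⁻¹) with hudef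
        have huq : u ^ q0 = 1 := by
          rcases hq with ⟨_, h2⟩ | ⟨h1, h2⟩
          · rw [h2]; exact hu
          · rw [h2, show 4 = s * 2 by rw [h1], pow_mul, hu, one_pow]
        have hucen := hcen u huq
        have e1 : y * x = x * u * y := by
          rw [hudef]; group
        have e2 : y * x⁻¹ = x⁻¹ * y * u⁻¹ := by
          have h3 : u * (x⁻¹ * y) = (x⁻¹ * y) * u := hucen _
          have h4 : x⁻¹ * y * u⁻¹ = u⁻¹ * (x⁻¹ * y) := by
            rw [mul_inv_eq_iff_eq_mul, mul_assoc, ← h3, inv_mul_cancel_left]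
          rw [h4]
          have h5 : y = x * u * y * x⁻¹ := by rw [← e1, mul_assoc, mul_inv_cancel, mul_one]
          calc y * x⁻¹ = u⁻¹ * x⁻¹ * (x * u * y * x⁻¹) := by group
            _ = u⁻¹ * x⁻¹ * y := by rw [← h5]
            _ = u⁻¹ * (x⁻¹ * y) := by rw [mul_assoc]
        have hz1 : u⁻¹ * x⁻¹ = x⁻¹ * u⁻¹ :=
          (show Commute u⁻¹ x⁻¹ from ((show Commute u x from hucen x).inv_left).inv_right).eq
        have hz2 : u⁻¹ * y = y * u⁻¹ :=
          (show Commute u⁻¹ y from (show Commute u y from hucen y).inv_left).eq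
        have hpow := qck_pow x⁻¹ y u⁻¹ e2 hz1 hz2 s
        have hcan : x⁻¹ ^ s * y ^ s = 1 := by rw [inv_pow, h, inv_mul_cancel]
        rw [hcan, one_mul] at hpow
        rcases hq with ⟨h1, _⟩ | ⟨h1, h2⟩
        · obtain ⟨k, hk⟩ := hs.dvd_choose_self (k := 2) (by norm_num)
            (lt_of_le_of_ne hs.two_le (Ne.symm h1))
          rw [hpow, hk, pow_mul, inv_pow, hu, inv_one, one_pow]
        · exfalso
          apply hxy
          have h3 : (x⁻¹ * y) ^ q0 = 1 := by
            rw [h2, show 4 = s * 2 by rw [h1], pow_mul, hpow, h1, Nat.choose_self, pow_one,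
              inv_pow]
            rw [h1] at hu
            rw [hu, inv_one]
          have h4 := hcen _ h3 x
          have h5 : y = x * (x⁻¹ * y) := by group
          calc x * y = x * (x * (x⁻¹ * y)) := by rw [← h5]
            _ = x * ((x⁻¹ * y) * x) := by rw [h4]
            _ = y * x := by group
  exact main _ x y le_rfl h

end H78TP
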