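import Pool.Agent.H78.TP.Qc

/-!
[H78 TP QCZ] Cyclic `q`-groups: the indices moved by the element of order `q` (30-40 min).

PROOF. `zrg`: `R` is a cyclic `q`-group, `x ≠ 1`, so `q` divides the order of `zpowers x`, which
contains an element `y` of order `q`; in a cyclic group there is only one subgroup of order `q`
(`IsCyclic.card_subgroup...`, or `IsCyclic.exists_ofOrder_eq_natCard`, or: `IsCyclic.card_pow_eq_one_le`:
at most `q` elements satisfy `g ^ q = 1`, and `zpowers y`, `zpowers z` both consist of `q` such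
elements), so `z ∈ zpowers y ≤ zpowers x`.
`qcz`: if `z` moves `i` then the stabiliser of `i` in `R` is trivial (if it contained `x ≠ 1` it
would contain `z ∈ zpowers x`). So the set on the left is contained in the one of `qc`.
`qcm`: if `z` moves `i`, the stabiliser of `i` is trivial and `qm` applies with `S = W i`.
-/

namespace H78TP

open Subgroup
open scoped commutatorElement

variable {k Γ U : Type*} [Field k] [Group Γ] [AddCommGroup U] [Module k U]

theorem zrg {R : Type*} [Group R] [Finite R] [IsCyclic R] (q : ℕ) [Fact q.Prime]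
    (hR : IsPGroup q R) (z : R) (hz : orderOf z = q) (x : R) (hx : x ≠ 1) :
    z ∈ Subgroup.zpowers x := by
  classical
  have : Fintype R := Fintype.ofFinite R
  have hq : q.Prime := Fact.out
  obtain ⟨n, hn⟩ := (IsPGroup.iff_orderOf.1 hR) x
  obtain ⟨m, rfl⟩ : ∃ m, n = m + 1 := by
    cases n with
    | zero =>
      rw [pow_zero, orderOf_eq_one_iff] at hn
      exact absurd hn hx
    | succ m => exact ⟨m, rfl⟩
  have hy : orderOf (x ^ q ^ m) = q := by
    rw [orderOf_pow_of_dvd (pow_ne_zero _ hq.ne_zero) (by rw [hn, pow_succ]; exact dvd_mul_right _ _),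
      hn, pow_succ, Nat.mul_div_cancel_left _ (pow_pos hq.pos _)]
  have hsub : (Subgroup.zpowers (x ^ q ^ m) : Set R).toFinset ⊆
      Finset.univ.filter (fun a : R => a ^ q = 1) := by
    intro a ha
    rw [Set.mem_toFinset] at ha
    rw [Finset.mem_filter]
    refine ⟨Finset.mem_univ _, ?_⟩
    obtain ⟨t, rfl⟩ := Subgroup.mem_zpowers_iff.1 ha
    rw [← zpow_natCast, ← zpow_mul, mul_comm, zpow_mul, zpow_natCast]
    have h1 : (x ^ q ^ m) ^ q = 1 := by
      have h2 := pow_orderOf_eq_one (x ^ q ^ m)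
      rwa [hy] at h2
    rw [h1, one_zpow]
  have hcard : (Subgroup.zpowers (x ^ q ^ m) : Set R).toFinset.card = q := by
    rw [Set.toFinset_card]
    have h1 := Fintype.card_zpowers (x := x ^ q ^ m)
    rw [hy] at h1
    exact h1
  have heq := Finset.eq_of_subset_of_card_le hsub (by
    rw [hcard]
    exact IsCyclic.card_pow_eq_one_le hq.pos)
  have hzm : z ∈ Finset.univ.filter (fun a : R => a ^ q = 1) := by
    rw [Finset.mem_filter]
    refine ⟨Finset.mem_univ _, ?_⟩
    have h2 := pow_orderOf_eq_one z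
    rwa [hz] at h2
  rw [← heq, Set.mem_toFinset] at hzm
  have hle : Subgroup.zpowers (x ^ q ^ m) ≤ Subgroup.zpowers x := by
    rw [Subgroup.zpowers_le]
    exact pow_mem (Subgroup.mem_zpowers x) _
  exact hle hzm

private theorem qcz_stab {R : Type*} [Group R] [Finite R] [IsCyclic R] (q : ℕ) [Fact q.Prime]
    (hR : IsPGroup q R) (z : R) (hz : orderOf z = q) {ι : Type*} [MulAction R ι] (i : ι)
    (hi : z • i ≠ i) (x : R) (hx : x • i = i) : x = 1 := by
  by_contra hne
  have h1 := zrg q hR z hz x hne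
  have h2 : Subgroup.zpowers x ≤ MulAction.stabilizer R i := by
    rw [Subgroup.zpowers_le]
    exact hx
  exact hi (h2 h1)

theorem qcz [Finite Γ] [Module.Finite k U] (τ : Representation k Γ U) (R : Subgroup Γ)
    (q : ℕ) [Fact q.Prime] (hRc : IsCyclic R) (hRq : IsPGroup q R) (z : R)
    (hz : orderOf z = q)
    (V : Submodule k U) {ι : Type*} [Finite ι] [MulAction R ι] (W : ι → Submodule k U)
    (hind : iSupIndep W) (hV : ∀ i, W i ≤ V) (hinv : ∀ x ∈ R, ∀ v ∈ V, τ x v ∈ V)
    (hW : ∀ (x : R) (i : ι) (v : U), v ∈ W i → τ x v ∈ W (x • i)) :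
    Nat.card {i : ι // W i ≠ ⊥ ∧ z • i ≠ i} ≤
      Nat.card R * Module.finrank k (V ⊓ Fx τ R : Submodule k U) := by
  have := hRc
  refine le_trans ?_ (qc τ R V W hind hV hinv hW)
  refine Nat.card_le_card_of_injective (fun i => (⟨i.1, i.2.1, fun x hx =>
    qcz_stab q hRq z hz i.1 i.2.2 x hx⟩ :
      {i : ι // W i ≠ ⊥ ∧ ∀ x : R, x • i = i → x = 1})) ?_
  intro i j h
  have h1 := Subtype.mk.inj h
  exact Subtype.ext h1

theorem qcm [Finite Γ] [Module.Finite k U] (τ : Representation k Γ U) (R : Subgroup Γ)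
    (q : ℕ) [Fact q.Prime] (hRc : IsCyclic R) (hRq : IsPGroup q R) (z : R)
    (hz : orderOf z = q)
    (V : Submodule k U) {ι : Type*} [Finite ι] [MulAction R ι] (W : ι → Submodule k U)
    (hind : iSupIndep W) (hV : ∀ i, W i ≤ V) (hinv : ∀ x ∈ R, ∀ v ∈ V, τ x v ∈ V)
    (hW : ∀ (x : R) (i : ι) (v : U), v ∈ W i → τ x v ∈ W (x • i))
    (hk : (Nat.card R : k) ≠ 0) (i : ι) (hi : z • i ≠ i) :
    Module.finrank k (W i) ≤ Module.finrank k (V ⊓ Fx τ R : Submodule k U) := by
  have := hRc
  refine qm τ R V W hind hV hinv hW hk i (W i) le_rfl fun v _ x hx => ?_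
  rw [qcz_stab q hRq z hz i hi x hx, Subgroup.coe_one, map_one, Module.End.one_apply]

end H78TP
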