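import Pool.Agent.H78.TP.LocB

/-!
[H78 TP QG] The index of the radical is at most the square of the dimension (45-60 min).

PROOF. For `e ∈ E` let `A e : V →ₗ[k] V` be the restriction of `τ e` (an invertible map). For
`e' ∈ E`: `A e' ∘ A e ∘ (A e')⁻¹ = lam ⁅e', e⁆ • A e` (`loc_comm`). Let `e_i` (`i ∈ I`) be
representatives of the cosets of `D` in `E`. Claim: the maps `A e_i` are linearly independent in
`V →ₗ[k] V`. Suppose not, and take a nontrivial relation `∑ c_i A e_i = 0` with the least number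
of nonzero coefficients. Let `c_i, c_j ≠ 0`, `i ≠ j`. `e_i e_j⁻¹ ∉ D`, so there is `e' ∈ E` with
`lam ⁅e', e_i⁆ ≠ lam ⁅e', e_j⁆` (if they were equal for all `e'` then
`lam ⁅e_i e_j⁻¹, e'⁆ = 1` for all `e'` by `loc_left`, `loc_swap`). Conjugating the relation with
`A e'` and subtracting `lam ⁅e', e_i⁆` times the relation gives a shorter nontrivial relation
(it contains the term with index `j`). A relation with one term is impossible as `A e_i` is
invertible and `V ≠ 0`. So `|I| ≤ finrank (V →ₗ V) = (finrank V) ^ 2`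
(`Module.finrank_linearMap`).
-/

namespace H78TP

open Subgroup
open scoped commutatorElement

variable {k Γ U : Type*} [Field k] [Group Γ] [AddCommGroup U] [Module k U]

/-- joint eigenvectors with different eigenvalues are linearly independent -/
private theorem Qg_ind {ι S M : Type*} [AddCommGroup M] [Module k M] (x : ι → M)
    (Φ : S → M →ₗ[k] M) (χ : ι → S → k) (hx : ∀ i, x i ≠ 0)
    (hΦ : ∀ s i, Φ s (x i) = χ i s • x i) (hχ : ∀ i j, i ≠ j → ∃ s, χ i s ≠ χ j s) :
    LinearIndependent k x := by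
  classical
  rw [linearIndependent_iff']
  intro s
  induction s using Finset.induction_on with
  | empty =>
    intro c _ i hi
    simp at hi
  | insert a s ha ih =>
    intro c hc
    rw [Finset.sum_insert ha] at hc
    have h1 : ∀ t, ∑ i ∈ s, (c i * (χ i t - χ a t)) • x i = 0 := by
      intro t
      have h2 := congrArg (Φ t) hc
      rw [map_add, map_smul, hΦ, map_sum, map_zero] at h2
      have h3 := congrArg (fun m => χ a t • m) hc
      simp only [smul_add, smul_zero] at h3
      have h4 : ∑ i ∈ s, (c i * (χ i t - χ a t)) • x i =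
          (c a • χ a t • x a + ∑ i ∈ s, Φ t (c i • x i)) -
          (χ a t • c a • x a + χ a t • ∑ i ∈ s, c i • x i) := by
        rw [smul_comm (χ a t) (c a), add_sub_add_left_eq_sub, Finset.smul_sum,
          ← Finset.sum_sub_distrib]
        apply Finset.sum_congr rfl
        intro i _
        rw [map_smul, hΦ, smul_smul, smul_smul, ← sub_smul]
        congr 1
        ring
      rw [h4, h2, h3, sub_zero]
    have h5 : ∀ i ∈ s, c i = 0 := by
      intro i hi
      have hia : i ≠ a := fun h => ha (h ▸ hi)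
      obtain ⟨t, ht⟩ := hχ i a hia
      have h6 := ih (fun i => c i * (χ i t - χ a t)) (h1 t) i hi
      rcases mul_eq_zero.1 h6 with h7 | h7
      · exact h7
      · exact (ht (sub_eq_zero.1 h7)).elim
    have h8 : c a = 0 := by
      rw [Finset.sum_eq_zero (fun i hi => by rw [h5 i hi, zero_smul]), add_zero] at hc
      exact (smul_eq_zero.1 hc).resolve_right (hx a)
    intro i hi
    rcases Finset.mem_insert.1 hi with rfl | hi
    · exact h8
    · exact h5 i hi

theorem qg [Finite Γ] [Module.Finite k U] {τ : Representation k Γ U} {V : Submodule k U}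
    {B E D : Subgroup Γ} {lam : Γ → k} (L : Loc τ V B E D lam) :
    D.relIndex E ≤ (Module.finrank k V) ^ 2 := by
  classical
  have hinv : ∀ (g : Γ) (v : U), τ g (τ g⁻¹ v) = v := by
    intro g v
    rw [← Module.End.mul_apply, ← map_mul, mul_inv_cancel, map_one]
    rfl
  have hinv' : ∀ (g : Γ) (v : U), τ g⁻¹ (τ g v) = v := by
    intro g v
    rw [← Module.End.mul_apply, ← map_mul, inv_mul_cancel, map_one]
    rfl
  obtain ⟨A, hA⟩ : ∃ A : E → Module.End k V, ∀ (e : E) (v : V), ((A e v : V) : U) = τ e.1 v.1 :=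
    ⟨fun e => (τ e.1).restrict (L.inv e.1 e.2), fun e v => rfl⟩
  have hΦ : ∀ e' e : E, A e' * (A e * A e'⁻¹) = lam ⁅(e' : Γ), (e : Γ)⁆ • A e := by
    intro e' e
    apply LinearMap.ext
    intro v
    apply Subtype.ext
    show ((A e' (A e (A e'⁻¹ v)) : V) : U) = lam ⁅(e' : Γ), (e : Γ)⁆ • ((A e v : V) : U)
    rw [hA, hA, hA, hA]
    have h1 : τ ((e'⁻¹ : E) : Γ) v.1 ∈ V := L.inv _ (e'⁻¹ : E).2 _ v.2
    rw [loc_comm L e'.2 e.2 h1]
    have h2 : τ (e' : Γ) (τ ((e'⁻¹ : E) : Γ) v.1) = v.1 := hinv e'.1 v.1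
    rw [h2]
  let N : Subgroup E := D.subgroupOf E
  have hfin : Finite (E ⧸ N) := inferInstance
  letI : Fintype (E ⧸ N) := Fintype.ofFinite _
  obtain ⟨v0, hv0, hv0'⟩ := Submodule.exists_mem_ne_zero_of_ne_bot L.ne
  have hli : LinearIndependent k (fun i : E ⧸ N => A i.out) := by
    refine Qg_ind (S := E) _ (fun e' => (LinearMap.mulLeft k (A e')).comp
      (LinearMap.mulRight k (A e'⁻¹))) (fun i e' => lam ⁅(e' : Γ), (i.out : Γ)⁆) ?_ ?_ ?_
    · intro i hi
      apply hv0'
      have h1 := hA i.out ⟨v0, hv0⟩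
      rw [hi] at h1
      have h2 : τ ((i.out : E) : Γ) v0 = 0 := h1.symm
      rw [← hinv' ((i.out : E) : Γ) v0, h2, map_zero]
    · intro e' i
      exact hΦ e' i.out
    · intro i j hij
      by_contra hc
      push Not at hc
      apply hij
      rw [← Quotient.out_eq i, ← Quotient.out_eq j]
      refine QuotientGroup.eq.2 ?_
      rw [Subgroup.mem_subgroupOf, L.rad]
      refine ⟨((i.out)⁻¹ * j.out : E).2, ?_⟩
      intro e' he'
      have hi := (i.out : E).2
      have hj := (j.out : E).2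
      have g1 : lam ⁅((i.out : E) : Γ)⁻¹ * ((i.out : E) : Γ), e'⁆ =
          lam ⁅((i.out : E) : Γ)⁻¹, e'⁆ * lam ⁅((i.out : E) : Γ), e'⁆ :=
        loc_left L (inv_mem hi) hi he'
      rw [inv_mul_cancel, commutatorElement_one_left, loc_one L] at g1
      have g2 : lam ⁅((i.out : E) : Γ)⁻¹ * ((j.out : E) : Γ), e'⁆ =
          lam ⁅((i.out : E) : Γ)⁻¹, e'⁆ * lam ⁅((j.out : E) : Γ), e'⁆ :=
        loc_left L (inv_mem hi) hj he'
      have g3 := loc_swap L hi he'
      have g4 := loc_swap L hj he'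
      have g5 : lam ⁅e', ((i.out : E) : Γ)⁆ = lam ⁅e', ((j.out : E) : Γ)⁆ := hc ⟨e', he'⟩
      have g6 : lam ⁅((i.out : E) : Γ), e'⁆ = lam ⁅((j.out : E) : Γ), e'⁆ := by
        rw [← g5] at g4
        have g7 : lam ⁅e', ((i.out : E) : Γ)⁆ ≠ 0 := by
          intro h0
          rw [h0, mul_zero] at g3
          exact zero_ne_one g3
        exact mul_right_cancel₀ g7 (g3.trans g4.symm)
      show lam ⁅((i.out : E) : Γ)⁻¹ * ((j.out : E) : Γ), e'⁆ = 1
      rw [g2, ← g6, ← g1]
  have h1 := hli.fintype_card_le_finrank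
  rw [Module.finrank_linearMap] at h1
  have h2 : D.relIndex E = Fintype.card (E ⧸ N) := by
    rw [← Nat.card_eq_fintype_card]
    rfl
  rw [h2, sq]
  exact h1

end H78TP
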