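import Pool.Agent.H78.TP.LocB

/-!
[H78 TP QHA] The group of characters of `I` (45-60 min).

PROOF. For `e ∈ E` let `χ_e : I → kˣ`, `χ_e t = lam ⁅t⁻¹, e⁻¹⁆` (nonzero: `loc_ne`; for `t ∈ I ≤ E`).
`e ↦ χ_e` is a homomorphism from `E` to the commutative group `I → kˣ` (`loc_right`; the order of
the factors does not matter). Let `A` be its range, a finite group. For `t ∈ I` let
`ev t : A →* kˣ` be the evaluation `a ↦ a t`. If `ev t = ev t'` then
`lam ⁅t⁻¹, e⁻¹⁆ = lam ⁅t'⁻¹, e⁻¹⁆` for all `e ∈ E`, so by `loc_left` `lam ⁅t'⁻¹ t, e⁆ = 1` for all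
`e ∈ E` (up to inverses), so `t'⁻¹ t ∈ D`. So the number of different homomorphisms `ev t`,
`t ∈ I`, is at least (in fact equal to) `D.relIndex I`. The homomorphisms `A →* kˣ` are linearly
independent functions `A → k` (`linearIndependent_monoidHom`), so there are at most `Nat.card A`
of them. So `D.relIndex I ≤ Nat.card A`.
Last clause: the elements `a ∈ A` with `a (z⁻¹ t z) = a t` for all `t ∈ I` form a subgroup `A'` of
`A`. If `A' = A` then `lam ⁅(z⁻¹ t z)⁻¹, e⁻¹⁆ = lam ⁅t⁻¹, e⁻¹⁆` for all `e ∈ E`, `t ∈ I`, so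
`t⁻¹ (z⁻¹ t z) ∈ D` up to the order and inverses: for `y ∈ I` take `t = z y z⁻¹`: we get
`⁅z, y⁆ ∈ D` or `⁅z, y⁻¹⁆ ∈ D` (replace `y` by `y⁻¹`). Otherwise `2 |A'| ≤ |A|`.
-/

namespace H78TP

open Subgroup
open scoped commutatorElement

variable {k Γ U : Type*} [Field k] [Group Γ] [AddCommGroup U] [Module k U]

private theorem QhA_cancel {τ : Representation k Γ U} {V : Submodule k U}
    {B E D : Subgroup Γ} {lam : Γ → k} (L : Loc τ V B E D lam) {x y : Γ} (hx : x ∈ E)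
    (hy : y ∈ E) (h : ∀ e ∈ E, lam ⁅x, e⁆ = lam ⁅y, e⁆) : x * y⁻¹ ∈ D := by
  rw [L.rad]
  refine ⟨mul_mem hx (inv_mem hy), fun e he => ?_⟩
  rw [loc_left L hx (inv_mem hy) he, h e he, ← loc_left L hy (inv_mem hy) he, mul_inv_cancel,
    commutatorElement_one_left, loc_one L]

theorem qhA [Finite Γ] {τ : Representation k Γ U} {V : Submodule k U}
    {B E D : Subgroup Γ} {lam : Γ → k} (L : Loc τ V B E D lam) (I : Subgroup Γ) (hI : I ≤ E)
    (z : Γ) (hz : ∀ y ∈ I, z * y * z⁻¹ ∈ I) (hz' : ∀ y ∈ I, z⁻¹ * y * z ∈ I) :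
    ∃ A : Subgroup (I → kˣ), Finite A ∧
      (∀ e ∈ E, ∃ a ∈ A, ∀ t : I, (a t : k) = lam ⁅(t : Γ)⁻¹, e⁻¹⁆) ∧
      (∀ a ∈ A, ∃ e ∈ E, ∀ t : I, (a t : k) = lam ⁅(t : Γ)⁻¹, e⁻¹⁆) ∧
      D.relIndex I ≤ Nat.card A ∧
      ((∀ y ∈ I, ⁅z, y⁆ ∈ D) ∨
        2 * Nat.card {a : A // ∀ t : I, a.1 ⟨z⁻¹ * t * z, hz' t t.2⟩ = a.1 t} ≤ Nat.card A) := by
  classical
  have hB : ∀ (e : E) (t : I), ⁅(t : Γ)⁻¹, (e : Γ)⁻¹⁆ ∈ B := fun e t =>
    L.EE _ (inv_mem (hI t.2)) _ (inv_mem e.2)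
  let χ : E →* (I → kˣ) :=
    { toFun := fun e t => Units.mk0 (lam ⁅(t : Γ)⁻¹, (e : Γ)⁻¹⁆) (loc_ne L (hB e t))
      map_one' := by
        funext t
        apply Units.ext
        show lam ⁅(t : Γ)⁻¹, ((1 : E) : Γ)⁻¹⁆ = 1
        rw [Subgroup.coe_one, inv_one, commutatorElement_one_right, loc_one L]
      map_mul' := by
        intro e e'
        funext t
        apply Units.ext
        show lam ⁅(t : Γ)⁻¹, ((e * e' : E) : Γ)⁻¹⁆ =
          lam ⁅(t : Γ)⁻¹, (e : Γ)⁻¹⁆ * lam ⁅(t : Γ)⁻¹, (e' : Γ)⁻¹⁆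
        rw [Subgroup.coe_mul, mul_inv_rev, loc_right L (inv_mem (hI t.2)) (inv_mem e'.2)
          (inv_mem e.2), mul_comm] }
  have hχ : ∀ (e : E) (t : I), ((χ e t : kˣ) : k) = lam ⁅(t : Γ)⁻¹, (e : Γ)⁻¹⁆ :=
    fun e t => rfl
  have hfin : Finite χ.range := Finite.of_surjective χ.rangeRestrict χ.rangeRestrict_surjective
  refine ⟨χ.range, hfin, ?_, ?_, ?_, ?_⟩
  · intro e he
    exact ⟨χ ⟨e, he⟩, ⟨⟨e, he⟩, rfl⟩, fun t => hχ _ t⟩
  · rintro a ⟨e, rfl⟩
    exact ⟨e.1, e.2, fun t => hχ _ t⟩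
  · -- the index of `D` in `I`
    let ev : I → (χ.range →* k) := fun t =>
      (Units.coeHom k).comp ((Pi.evalMonoidHom (fun _ : I => kˣ) t).comp χ.range.subtype)
    have hev : ∀ (t : I) (a : χ.range), ev t a = ((a.1 t : kˣ) : k) := fun t a => rfl
    have hinj : ∀ t t' : I, ev t = ev t' → (t : Γ)⁻¹ * t' ∈ D := by
      intro t t' h
      have h1 := QhA_cancel L (inv_mem (hI t.2)) (inv_mem (hI t'.2)) (fun e he => by
        have h2 := DFunLike.congr_fun h (⟨χ ⟨e⁻¹, inv_mem he⟩, ⟨_, rfl⟩⟩ : χ.range)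
        rw [hev, hev, hχ, hχ] at h2
        simp only [inv_inv] at h2
        exact h2)
      rwa [inv_inv] at h1
    let Ψ : I ⧸ D.subgroupOf I → (χ.range → k) := fun q => ev q.out
    have hli : LinearIndependent k Ψ := by
      have h1 := linearIndependent_monoidHom χ.range k
      refine h1.comp (fun q : I ⧸ D.subgroupOf I => ev q.out) ?_
      intro q q' hqq
      have h2 := hinj _ _ hqq
      rw [← q.out_eq, ← q'.out_eq]
      rw [QuotientGroup.eq]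
      exact h2
    have := Fintype.ofFinite χ.range
    have := Fintype.ofFinite (I ⧸ D.subgroupOf I)
    have h3 := hli.fintype_card_le_finrank
    rw [Module.finrank_fintype_fun_eq_card, ← Nat.card_eq_fintype_card,
      ← Nat.card_eq_fintype_card] at h3
    exact h3
  · -- the last clause
    let A' : Subgroup χ.range :=
      { carrier := {a | ∀ t : I, a.1 ⟨z⁻¹ * t * z, hz' t t.2⟩ = a.1 t}
        one_mem' := fun t => rfl
        mul_mem' := by
          intro a b ha hb t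
          show a.1 _ * b.1 _ = a.1 _ * b.1 _
          rw [ha t, hb t]
        inv_mem' := by
          intro a ha t
          show (a.1 _)⁻¹ = (a.1 _)⁻¹
          rw [ha t] }
    by_cases htop : A' = ⊤
    · left
      intro y hy
      have h1 : ∀ e ∈ E, lam ⁅z * y * z⁻¹, e⁆ = lam ⁅y, e⁆ := by
        intro e he
        have h2 : (⟨χ ⟨e⁻¹, inv_mem he⟩, ⟨_, rfl⟩⟩ : χ.range) ∈ A' := by
          rw [htop]
          trivial
        have h3 := h2 ⟨z * y⁻¹ * z⁻¹, hz _ (inv_mem hy)⟩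
        have h4 := congrArg (fun u : kˣ => (u : k)) h3
        have h5 : lam ⁅(z⁻¹ * (z * y⁻¹ * z⁻¹) * z)⁻¹, (e⁻¹)⁻¹⁆ =
            lam ⁅(z * y⁻¹ * z⁻¹)⁻¹, (e⁻¹)⁻¹⁆ := h4
        have e1 : (z⁻¹ * (z * y⁻¹ * z⁻¹) * z)⁻¹ = y := by group
        have e2 : (z * y⁻¹ * z⁻¹)⁻¹ = z * y * z⁻¹ := by group
        rw [e1, e2, inv_inv] at h5
        exact h5.symm
      have h6 := QhA_cancel L (hI (hz y hy)) (hI hy) h1
      rw [commutatorElement_def]
      exact h6
    · right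
      have h1 := A'.card_mul_index
      have h2 : A'.index ≠ 1 := fun h => htop (Subgroup.index_eq_one.1 h)
      have h3 : A'.index ≠ 0 := Subgroup.index_ne_zero_of_finite
      have h4 : 2 ≤ A'.index := by omega
      have h5 : Nat.card A' * 2 ≤ Nat.card A' * A'.index := Nat.mul_le_mul_left _ h4
      rw [h1] at h5
      rw [mul_comm]
      exact h5

end H78TP
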