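import Pool.Agent.H78.TP.WeiB
import Pool.Agent.H78.TP.Qcz
import Pool.Agent.H78.TP.QhA

/-!
[H78 TP QHB] Isotropic subgroups moved by `z` are small (60-75 min).

PROOF. By `hiso` and `loc_comm` the group `I` acts on `V` by commuting operators, of orders prime to
the characteristic (`hord`), so `V` is the sum of the weight spaces `WS τ I V ν`, `ν ∈ Wt τ I V`
(`wei_top`), independent (`wei_ind`), finitely many (`wei_fin`); as `V ≠ ⊥` there is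
`ν₀ ∈ Wt τ I V`. `R` normalises `I` and `V` (`hIR` for `x` and `x⁻¹`), so it acts on `Wt τ I V`
(`wAct`, `WS_cjf`). By `qcz` (with `V`, `W = WS`): the number of `ν ∈ Wt τ I V` with
`cjf z ν ≠ ν` is at most `m' = Nat.card R * finrank (V ⊓ Fx τ R)`.
Let `A` be from `qhA`. For `a ∈ A` let `ν₀ a` be the function `t ↦ ν₀ t * a t` for `t ∈ I` and `0`
outside `I`. `ν₀ a ∈ Wt τ I V`: `a = χ_e` with `e ∈ E`; for `v ∈ WS τ I V ν₀` and `t ∈ I`:
`e⁻¹ t e = t ⁅t⁻¹, e⁻¹⁆`, so `τ t (τ e v) = τ e (τ (e⁻¹ t e) v) = (ν₀ t * lam ⁅t⁻¹, e⁻¹⁆) • τ e v`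
(`⁅t⁻¹, e⁻¹⁆ ∈ B` acts as a scalar on `V`), and `τ e v ≠ 0`, `τ e v ∈ V`. `a ↦ ν₀ a` is injective
(`ν₀ t ≠ 0` for `t ∈ I`, as `τ t` is invertible). Suppose `¬ ∀ y ∈ I, ⁅z, y⁆ ∈ D`. If
`ν₀ a` and `ν₀ a'` are both fixed by `z` (`cjf z`) then `a' a⁻¹` satisfies
`(a' a⁻¹) (z⁻¹ t z) = (a' a⁻¹) t`. So at most `|A'|` of the `ν₀ a` are fixed by `z`, where `A'` is
the set in `qhA`, `2 |A'| ≤ |A|`; so at least `|A| / 2` are moved: `|A| ≤ 2 m'`. And
`D.relIndex I ≤ |A|`.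
-/

namespace H78TP

open Subgroup
open scoped commutatorElement

variable {k Γ U : Type*} [Field k] [Group Γ] [AddCommGroup U] [Module k U]

theorem qh [IsAlgClosed k] [Finite Γ] [Module.Finite k U] {τ : Representation k Γ U}
    {V : Submodule k U} {B E D : Subgroup Γ} {lam : Γ → k} (L : Loc τ V B E D lam)
    (hord : ∀ e ∈ E, (orderOf e : k) ≠ 0) (R : Subgroup Γ) (q : ℕ) [Fact q.Prime]
    (hRc : IsCyclic R) (hRq : IsPGroup q R) (z : Γ) (hzR : z ∈ R) (hz : orderOf z = q)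
    (hRV : ∀ x ∈ R, ∀ v ∈ V, τ x v ∈ V) (I : Subgroup Γ) (hIE : I ≤ E)
    (hIR : ∀ x ∈ R, ∀ y ∈ I, x * y * x⁻¹ ∈ I)
    (hiso : ∀ x ∈ I, ∀ y ∈ I, lam ⁅x, y⁆ = 1) :
    (∀ y ∈ I, ⁅z, y⁆ ∈ D) ∨
      D.relIndex I ≤ 2 * (Nat.card R * Module.finrank k (V ⊓ Fx τ R : Submodule k U)) := by
  classical
  by_cases h : ∀ y ∈ I, ⁅z, y⁆ ∈ D
  · exact Or.inl h
  refine Or.inr ?_
  have hz1 : ∀ y ∈ I, z * y * z⁻¹ ∈ I := fun y hy => hIR z hzR y hy
  have hIR' : ∀ x ∈ R, ∀ y ∈ I, x⁻¹ * y * x ∈ I := by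
    intro x hx y hy
    have h1 := hIR x⁻¹ (inv_mem hx) y hy
    rwa [inv_inv] at h1
  have hz2 : ∀ y ∈ I, z⁻¹ * y * z ∈ I := fun y hy => hIR' z hzR y hy
  obtain ⟨A, hAf, -, hA2, hA3, hA4⟩ := qhA L I hIE z hz1 hz2
  replace hA4 := hA4.resolve_left h
  have hinv : ∀ t ∈ I, ∀ v ∈ V, τ t v ∈ V := fun t ht v hv => L.inv t (hIE ht) v hv
  have hcomm : ∀ s ∈ I, ∀ t ∈ I, ∀ v ∈ V, τ s (τ t v) = τ t (τ s v) := by
    intro s hs t ht v hv
    rw [loc_comm L (hIE hs) (hIE ht) hv, hiso s hs t ht, one_smul]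
  have htop := wei_top τ I V hinv hcomm fun t ht => hord t (hIE ht)
  haveI : Finite (Wt τ I V) := wei_fin τ I V
  -- a weight
  obtain ⟨ν0⟩ : Nonempty (Wt τ I V) := by
    by_contra hne
    rw [not_nonempty_iff] at hne
    rw [iSup_of_empty] at htop
    exact L.ne htop.symm
  obtain ⟨v, hv, hv0⟩ := Submodule.exists_mem_ne_zero_of_ne_bot ν0.2.2
  have hν0 : ∀ t ∈ I, ν0.1 t ≠ 0 := by
    intro t ht h0
    have h1 := hv.2 t ht
    rw [h0, zero_smul] at h1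
    apply hv0
    have h2 : τ t⁻¹ (τ t v) = v := by
      rw [← Module.End.mul_apply, ← map_mul]
      simp
    rw [← h2, h1, map_zero]
  -- the action of `R`
  have hR1 : ∀ g ∈ R, ∀ t, t ∈ I ↔ g⁻¹ * t * g ∈ I := by
    intro g hg t
    refine ⟨hIR' g hg t, fun h1 => ?_⟩
    have h2 := hIR g hg _ h1
    have h3 : g * (g⁻¹ * t * g) * g⁻¹ = t := by group
    rwa [h3] at h2
  letI := wAct τ I V R hR1 hRV
  have hsm : ∀ (x : R) (ν : Wt τ I V), ((x • ν : Wt τ I V) : Γ → k) = cjf x.1 ν.1 :=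
    fun x ν => rfl
  have hm := qcz τ R q hRc hRq ⟨z, hzR⟩ (by rw [← hz]; exact Subgroup.orderOf_mk z hzR) V
    (fun ν : Wt τ I V => WS τ I V ν.1) (wei_ind τ I V) (fun ν v hv => hv.1) hRV
    (fun x ν v hv => WS_cjf (hR1 x.1 x.2) (hRV x.1 x.2) hv)
  -- the other weights
  let nu : (I → kˣ) → Γ → k := fun a t => if ht : t ∈ I then ν0.1 t * (a ⟨t, ht⟩ : k) else 0
  have hnu1 : ∀ (a : I → kˣ) (t : Γ) (ht : t ∈ I), nu a t = ν0.1 t * (a ⟨t, ht⟩ : k) :=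
    fun a t ht => dif_pos ht
  have hnu0 : ∀ (a : I → kˣ) (t : Γ), t ∉ I → nu a t = 0 := fun a t ht => dif_neg ht
  have hlam : ∀ x ∈ E, ∀ y ∈ E, lam ⁅x⁻¹, y⁻¹⁆ = lam ⁅x, y⁆ := by
    intro x hx y hy
    have h1 : lam ⁅x, y⁆ * lam ⁅x⁻¹, y⁆ = 1 := by
      rw [← loc_left L hx (inv_mem hx) hy, mul_inv_cancel, commutatorElement_one_left,
        loc_one L]
    have h2 : lam ⁅x⁻¹, y⁆ * lam ⁅x⁻¹, y⁻¹⁆ = 1 := by
      rw [← loc_right L (inv_mem hx) hy (inv_mem hy), mul_inv_cancel,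
        commutatorElement_one_right, loc_one L]
    have h3 : lam ⁅x⁻¹, y⁆ ≠ 0 := left_ne_zero_of_mul_eq_one h2
    apply mul_left_cancel₀ h3
    rw [h2, mul_comm, h1]
  have hnuW : ∀ a ∈ A, nu a ∈ Wt τ I V := by
    intro a ha
    obtain ⟨e, he, hae⟩ := hA2 a ha
    refine ⟨hnu0 a, ?_⟩
    have h1 : τ e v ∈ WS τ I V (nu a) := by
      refine ⟨L.inv e he v hv.1, fun t ht => ?_⟩
      rw [loc_comm L (hIE ht) he hv.1, hv.2 t ht, map_smul, smul_smul, hnu1 a t ht, hae ⟨t, ht⟩,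
        hlam t (hIE ht) e he, mul_comm]
    intro h2
    rw [h2, Submodule.mem_bot] at h1
    apply hv0
    have h3 : τ e⁻¹ (τ e v) = v := by
      rw [← Module.End.mul_apply, ← map_mul]
      simp
    rw [← h3, h1, map_zero]
  have hnuinj : ∀ a a' : I → kˣ, nu a = nu a' → a = a' := by
    intro a a' h1
    funext t
    have h2 := congrFun h1 t.1
    rw [hnu1 a t.1 t.2, hnu1 a' t.1 t.2] at h2
    exact Units.ext (mul_left_cancel₀ (hν0 t.1 t.2) h2)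
  -- the fixed ones
  have hfix : Nat.card {a : A // cjf z (nu a.1) = nu a.1} ≤
      Nat.card {a : A // ∀ t : I, a.1 ⟨z⁻¹ * t * z, hz2 t t.2⟩ = a.1 t} := by
    rcases isEmpty_or_nonempty {a : A // cjf z (nu a.1) = nu a.1} with he | ⟨⟨a0⟩⟩
    · rw [Nat.card_of_isEmpty]
      exact Nat.zero_le _
    · refine Nat.card_le_card_of_injective
        (fun a => (⟨a.1 * a0.1⁻¹, ?_⟩ : {a : A // ∀ t : I,
          a.1 ⟨z⁻¹ * t * z, hz2 t t.2⟩ = a.1 t})) ?_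
      · intro t
        have h1 := congrFun a.2 t.1
        have h2 := congrFun a0.2 t.1
        have h3 := hν0 t.1 t.2
        have h4 := hν0 _ (hz2 t.1 t.2)
        change nu a.1.1 (z⁻¹ * t.1 * z) = nu a.1.1 t.1 at h1
        change nu a0.1.1 (z⁻¹ * t.1 * z) = nu a0.1.1 t.1 at h2
        rw [hnu1 _ _ (hz2 t.1 t.2), hnu1 _ _ t.2] at h1 h2
        change a.1.1 ⟨z⁻¹ * t * z, hz2 t t.2⟩ * (a0.1.1 ⟨z⁻¹ * t * z, hz2 t t.2⟩)⁻¹ =
          a.1.1 t * (a0.1.1 t)⁻¹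
        rw [mul_inv_eq_iff_eq_mul]
        apply Units.ext
        push_cast
        have h5 : (a0.1.1 t : k) ≠ 0 := Units.ne_zero _
        have h6 : (a0.1.1 ⟨z⁻¹ * t * z, hz2 t t.2⟩ : k) ≠ 0 := Units.ne_zero _
        have h7 : (a0.1.1 t : k) * (a.1.1 ⟨z⁻¹ * t * z, hz2 t t.2⟩ : k) =
            (a.1.1 t : k) * (a0.1.1 ⟨z⁻¹ * t * z, hz2 t t.2⟩ : k) := by
          apply mul_left_cancel₀ h4
          linear_combination (a0.1.1 t : k) * h1 - (a.1.1 t : k) * h2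
        apply mul_left_cancel₀ h5
        rw [h7]
        field_simp
      · intro a a' h1
        have h2 := congrArg Subtype.val h1
        exact Subtype.ext (mul_right_cancel h2)
  -- the moved ones
  have hmov : Nat.card {a : A // ¬ cjf z (nu a.1) = nu a.1} ≤
      Nat.card R * Module.finrank k (V ⊓ Fx τ R : Submodule k U) := by
    refine le_trans ?_ hm
    refine Nat.card_le_card_of_injective
      (fun a => (⟨⟨nu a.1.1, hnuW a.1.1 a.1.2⟩, (hnuW a.1.1 a.1.2).2, ?_⟩ : {i : Wt τ I V //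
        WS τ I V i.1 ≠ ⊥ ∧ (⟨z, hzR⟩ : R) • i ≠ i})) ?_
    · intro h1
      exact a.2 (congrArg Subtype.val h1)
    · intro a a' h1
      have h2 := congrArg (fun i => ((i : Wt τ I V) : Γ → k)) (congrArg Subtype.val h1)
      exact Subtype.ext (Subtype.ext (hnuinj _ _ h2))
  have hsum : Nat.card A = Nat.card {a : A // cjf z (nu a.1) = nu a.1} +
      Nat.card {a : A // ¬ cjf z (nu a.1) = nu a.1} := by
    rw [← Nat.card_sum]
    exact Nat.card_congr (Equiv.sumCompl fun a : A => cjf z (nu a.1) = nu a.1).symm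
  omega

end H78TP
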