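import Pool.Agent.H78.TP.QhB
import Pool.Agent.H78.TP.ChwC

/-!
[H78 TP QJ] `z` has small commutator on `(E / D)[l]` (75 min).

PROOF. Suppose `C.relIndex T > l ^ (s0 n n0)`. `T = {x ∈ E | x ^ l ∈ D}`. `D ≤ T` and `D` is normal
in `T` (`⁅x, y⁆ ∈ B ≤ D` for `x, y ∈ E`, `loc_BD`). Let `T' = T ⧸ D.subgroupOf T`, a finite
commutative group with `x ^ l = 1`. The form `β [x] [y] = lam ⁅x, y⁆` is well defined on `T'`
(`loc_left`, `loc_right`, definition of `D`) with values `≠ 0`, bimultiplicative, `β x x = 1`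
(`⁅x, x⁆ = 1`, `loc_one`). Let `R = zpowers r₀` (`hRc`), `a = Nat.card R = orderOf r₀ > 0`,
`a ≤ n`. Conjugation by `r₀` preserves `E`, `B`, `D` (`loc_conjD`), `T` and `lam` on `B`
(`loc_conj`), so it induces `r : MulAut T'` with `r ^ a = 1` and `β (r x) (r y) = β x y`. Let `C'`
be the image of `C` in `T'` (`D ≤ C`: for `x ∈ D`, `⁅z, x⁆ = (z x z⁻¹) x⁻¹ ∈ D`). Then
`|T'| = |C'| * C.relIndex T ≥ |C'| l ^ (s0 n n0)`. Let `M = 2 * (n * n0)`. Then
`(M + 1) * (a + 1) + 2 * a ≤ s0 n n0`, so `chwC` gives `I' ≤ T'`, invariant under `r`, isotropic,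
`¬ I' ≤ C'`, `M < |I'|`. Let `I` be the preimage of `I'` in `T`, as a subgroup of `Γ`: `D ≤ I ≤ T ≤ E`,
`R` normalises `I` (it suffices for the generator: `r I' = I'` as `I'` is finite, and powers),
`lam ⁅x, y⁆ = 1` on `I`, `D.relIndex I = |I'| > M ≥ 2 * (|R| * finrank (V ⊓ Fx τ R))`. By `qh`
`⁅z, y⁆ ∈ D` for all `y ∈ I`, so `I ≤ C` and `I' ≤ C'`, a contradiction.
-/

namespace H78TP

open Subgroup
open scoped commutatorElement

variable {k Γ U : Type*} [Field k] [Group Γ] [AddCommGroup U] [Module k U]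

theorem qj_eq {τ : Representation k Γ U} {V : Submodule k U} {B E D : Subgroup Γ} {lam : Γ → k}
    (L : Loc τ V B E D lam) {x x' y y' : Γ} (hx : x ∈ E) (hy : y ∈ E) (hy' : y' ∈ E)
    (h1 : x⁻¹ * x' ∈ D) (h2 : y⁻¹ * y' ∈ D) : lam ⁅x, y⁆ = lam ⁅x', y'⁆ := by
  have e1 : x' = x * (x⁻¹ * x') := by group
  have e2 : y' = y * (y⁻¹ * y') := by group
  have a1 : lam ⁅x', y'⁆ = lam ⁅x, y'⁆ := by
    rw [e1, loc_left L hx (loc_DE L h1) hy', ((L.rad _).1 h1).2 y' hy', mul_one]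
  have a2 : lam ⁅x, y'⁆ = lam ⁅x, y⁆ := by
    rw [e2, loc_right L hx hy (loc_DE L h2)]
    have h3 := loc_swap L hx (loc_DE L h2)
    rw [((L.rad _).1 h2).2 x hx, mul_one] at h3
    rw [h3, mul_one]
  rw [a1, a2]

theorem qj [IsAlgClosed k] [Finite Γ] [Module.Finite k U] {τ : Representation k Γ U}
    {V : Submodule k U} {B E D : Subgroup Γ} {lam : Γ → k} (L : Loc τ V B E D lam)
    (hord : ∀ e ∈ E, (orderOf e : k) ≠ 0) (R : Subgroup Γ) (q : ℕ) [Fact q.Prime]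
    (hRc : IsCyclic R) (hRq : IsPGroup q R) (z : Γ) (hzR : z ∈ R) (hz : orderOf z = q)
    (hRV : ∀ x ∈ R, ∀ v ∈ V, τ x v ∈ V) (hRE : ∀ x ∈ R, ∀ e ∈ E, x * e * x⁻¹ ∈ E)
    (hRB : ∀ x ∈ R, ∀ b ∈ B, x * b * x⁻¹ ∈ B) (n n0 : ℕ) (hn : Nat.card R ≤ n)
    (hn0 : Module.finrank k (V ⊓ Fx τ R : Submodule k U) ≤ n0) (l : ℕ) [Fact l.Prime]
    (T C : Subgroup Γ) (hT : ∀ x, x ∈ T ↔ x ∈ E ∧ x ^ l ∈ D)
    (hC : ∀ x, x ∈ C ↔ x ∈ T ∧ ⁅z, x⁆ ∈ D) : C.relIndex T ≤ l ^ (s0 n n0) := by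
  classical
  by_contra hcon
  rw [not_le] at hcon
  have hDE := loc_DE L
  have hBD := loc_BD L
  have hTE : T ≤ E := fun x hx => ((hT x).1 hx).1
  have hDT : D ≤ T := fun d hd => (hT d).2 ⟨hDE hd, D.pow_mem hd l⟩
  have hCT : C ≤ T := fun x hx => ((hC x).1 hx).1
  have hcD : ∀ g ∈ R, ∀ d ∈ D, g * d * g⁻¹ ∈ D := fun g hg d hd =>
    loc_conjD L (hRV g hg) (hRV g⁻¹ (R.inv_mem hg)) (hRB g hg) (hRE g hg)
      (fun e he => by
        have h1 := hRE g⁻¹ (R.inv_mem hg) e he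
        rwa [inv_inv] at h1) hd
  have hcT : ∀ g ∈ R, ∀ x ∈ T, g * x * g⁻¹ ∈ T := by
    intro g hg x hx
    obtain ⟨h1, h2⟩ := (hT x).1 hx
    refine (hT _).2 ⟨hRE g hg x h1, ?_⟩
    rw [conj_pow]
    exact hcD g hg _ h2
  have hDC : D ≤ C := fun d hd => (hC d).2 ⟨hDT hd, by
    rw [commutatorElement_def]
    exact D.mul_mem (hcD z hzR d hd) (D.inv_mem hd)⟩
  -- the quotient
  have hN : (D.subgroupOf T).Normal := by
    refine ⟨fun d hd x => ?_⟩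
    rw [mem_subgroupOf] at hd ⊢
    have h1 : ((x * d * x⁻¹ : T) : Γ) = ⁅(x : Γ), (d : Γ)⁆ * d := by
      rw [commutatorElement_def]
      simp
    rw [h1]
    exact D.mul_mem (hBD (L.EE _ (hTE x.2) _ (hTE d.2))) hd
  have hcomm : ∀ a b : T ⧸ D.subgroupOf T, a * b = b * a := by
    intro a b
    obtain ⟨x, rfl⟩ := QuotientGroup.mk_surjective a
    obtain ⟨y, rfl⟩ := QuotientGroup.mk_surjective b
    rw [← QuotientGroup.mk_mul, ← QuotientGroup.mk_mul, QuotientGroup.eq, mem_subgroupOf]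
    have h1 : (((x * y)⁻¹ * (y * x) : T) : Γ) = ⁅(y : Γ)⁻¹, (x : Γ)⁻¹⁆ := by
      rw [commutatorElement_def]
      simp [mul_assoc]
    rw [h1]
    exact hBD (L.EE _ (E.inv_mem (hTE y.2)) _ (E.inv_mem (hTE x.2)))
  letI instC : CommGroup (T ⧸ D.subgroupOf T) :=
    { (inferInstance : Group (T ⧸ D.subgroupOf T)) with mul_comm := hcomm }
  have hT1 : ∀ a : T ⧸ D.subgroupOf T, a ^ l = 1 := by
    intro a
    obtain ⟨x, rfl⟩ := QuotientGroup.mk_surjective a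
    have h1 : ((x ^ l : T) : T ⧸ D.subgroupOf T) = 1 := by
      rw [QuotientGroup.eq_one_iff, mem_subgroupOf]
      exact ((hT x).1 x.2).2
    rw [← h1]
    rfl
  -- the form
  let β : (T ⧸ D.subgroupOf T) → (T ⧸ D.subgroupOf T) → k := fun a b =>
    lam ⁅((Quotient.out a : T) : Γ), ((Quotient.out b : T) : Γ)⁆
  have hβ : ∀ x y : T, β (x : T ⧸ D.subgroupOf T) (y : T ⧸ D.subgroupOf T) =
      lam ⁅(x : Γ), (y : Γ)⁆ := by
    intro x y
    have h1 : ∀ x : T, ((Quotient.out (x : T ⧸ D.subgroupOf T) : T) : Γ)⁻¹ * (x : Γ) ∈ D := by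
      intro x
      have h2 := QuotientGroup.eq.1 (QuotientGroup.out_eq' (x : T ⧸ D.subgroupOf T))
      rw [mem_subgroupOf] at h2
      exact h2
    exact qj_eq L (hTE (Quotient.out _ : T).2) (hTE (Quotient.out _ : T).2) (hTE y.2) (h1 x) (h1 y)
  have hmul : ∀ x y z, β (x * y) z = β x z * β y z := by
    intro a b c
    obtain ⟨x, rfl⟩ := QuotientGroup.mk_surjective a
    obtain ⟨y, rfl⟩ := QuotientGroup.mk_surjective b
    obtain ⟨w, rfl⟩ := QuotientGroup.mk_surjective c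
    have h1 : β (((x : T ⧸ D.subgroupOf T)) * (y : T ⧸ D.subgroupOf T)) (w : T ⧸ D.subgroupOf T) =
        β ((x * y : T) : T ⧸ D.subgroupOf T) (w : T ⧸ D.subgroupOf T) := rfl
    rw [h1, hβ, hβ, hβ]
    exact loc_left L (hTE x.2) (hTE y.2) (hTE w.2)
  have hmul' : ∀ x y z, β x (y * z) = β x y * β x z := by
    intro a b c
    obtain ⟨x, rfl⟩ := QuotientGroup.mk_surjective a
    obtain ⟨y, rfl⟩ := QuotientGroup.mk_surjective b
    obtain ⟨w, rfl⟩ := QuotientGroup.mk_surjective c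
    have h1 : β (x : T ⧸ D.subgroupOf T) (((y : T ⧸ D.subgroupOf T)) * (w : T ⧸ D.subgroupOf T)) =
        β (x : T ⧸ D.subgroupOf T) ((y * w : T) : T ⧸ D.subgroupOf T) := rfl
    rw [h1, hβ, hβ, hβ]
    exact loc_right L (hTE x.2) (hTE y.2) (hTE w.2)
  have hne : ∀ x y, β x y ≠ 0 := fun a b =>
    loc_ne L (L.EE _ (hTE (Quotient.out a : T).2) _ (hTE (Quotient.out b : T).2))
  have halt : ∀ x, β x x = 1 := by
    intro a
    change lam ⁅((Quotient.out a : T) : Γ), ((Quotient.out a : T) : Γ)⁆ = 1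
    rw [commutatorElement_self, loc_one L]
  -- the automorphism
  obtain ⟨⟨r0, hr0⟩, hgen⟩ := hRc.exists_generator
  let cT : ∀ g : Γ, g ∈ R → (T →* T) := fun g hg =>
    { toFun := fun x => ⟨g * x * g⁻¹, hcT g hg x x.2⟩
      map_one' := Subtype.ext (by simp)
      map_mul' := fun x y => Subtype.ext (by simp) }
  let cQ : ∀ g : Γ, g ∈ R → ((T ⧸ D.subgroupOf T) →* (T ⧸ D.subgroupOf T)) := fun g hg =>
    QuotientGroup.map (D.subgroupOf T) (D.subgroupOf T) (cT g hg) (fun d hd => by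
      rw [mem_comap, mem_subgroupOf]
      exact hcD g hg _ (mem_subgroupOf.1 hd))
  have hcQ : ∀ (g : Γ) (hg : g ∈ R) (x y : T), (y : Γ) = g * x * g⁻¹ →
      cQ g hg (x : T ⧸ D.subgroupOf T) = (y : T ⧸ D.subgroupOf T) := by
    intro g hg x y h
    have h1 : y = cT g hg x := Subtype.ext h
    rw [h1]
    rfl
  let r : MulAut (T ⧸ D.subgroupOf T) :=
    MonoidHom.toMulEquiv (cQ r0 hr0) (cQ r0⁻¹ (R.inv_mem hr0))
      (by
        ext x
        change cQ r0⁻¹ (R.inv_mem hr0) (cQ r0 hr0 (x : T ⧸ D.subgroupOf T)) =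
          (x : T ⧸ D.subgroupOf T)
        rw [hcQ r0 hr0 x ⟨r0 * x * r0⁻¹, hcT r0 hr0 x x.2⟩ rfl]
        exact hcQ r0⁻¹ (R.inv_mem hr0) _ _ (by simp [mul_assoc]))
      (by
        ext x
        change cQ r0 hr0 (cQ r0⁻¹ (R.inv_mem hr0) (x : T ⧸ D.subgroupOf T)) =
          (x : T ⧸ D.subgroupOf T)
        rw [hcQ r0⁻¹ (R.inv_mem hr0) x ⟨r0⁻¹ * x * r0⁻¹⁻¹, hcT _ (R.inv_mem hr0) x x.2⟩ rfl]
        exact hcQ r0 hr0 _ _ (by simp [mul_assoc]))
  have hr1 : ∀ x y : T, (y : Γ) = r0 * x * r0⁻¹ →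
      r (x : T ⧸ D.subgroupOf T) = (y : T ⧸ D.subgroupOf T) := fun x y h => hcQ r0 hr0 x y h
  have hrn : ∀ (m : ℕ) (x y : T), (y : Γ) = r0 ^ m * x * (r0 ^ m)⁻¹ →
      (r ^ m) (x : T ⧸ D.subgroupOf T) = (y : T ⧸ D.subgroupOf T) := by
    intro m
    induction m with
    | zero =>
      intro x y h
      have h1 : y = x := Subtype.ext (by rw [h]; simp)
      rw [h1]
      rfl
    | succ m ih =>
      intro x y h
      rw [pow_succ', MulAut.mul_apply,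
        ih x ⟨r0 ^ m * x * (r0 ^ m)⁻¹, hcT _ (R.pow_mem hr0 m) x x.2⟩ rfl]
      refine hr1 _ _ ?_
      rw [h, pow_succ']
      simp [mul_assoc]
  have hra : r ^ (Nat.card R) = 1 := by
    have h1 : r0 ^ (Nat.card R) = 1 := by
      have h2 := pow_card_eq_one' (x := (⟨r0, hr0⟩ : R))
      exact congrArg Subtype.val h2
    refine MulEquiv.ext fun a => ?_
    obtain ⟨x, rfl⟩ := QuotientGroup.mk_surjective a
    rw [hrn _ x x (by rw [h1]; simp)]
    rfl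
  have hinv : ∀ x y, β (r x) (r y) = β x y := by
    intro a b
    obtain ⟨x, rfl⟩ := QuotientGroup.mk_surjective a
    obtain ⟨y, rfl⟩ := QuotientGroup.mk_surjective b
    rw [hr1 x ⟨r0 * x * r0⁻¹, hcT r0 hr0 x x.2⟩ rfl, hr1 y ⟨r0 * y * r0⁻¹, hcT r0 hr0 y y.2⟩ rfl,
      hβ, hβ]
    have h1 : ⁅r0 * (x : Γ) * r0⁻¹, r0 * (y : Γ) * r0⁻¹⁆ = r0 * ⁅(x : Γ), (y : Γ)⁆ * r0⁻¹ := by
      rw [commutatorElement_def, commutatorElement_def]
      group
    change lam ⁅r0 * (x : Γ) * r0⁻¹, r0 * (y : Γ) * r0⁻¹⁆ = _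
    rw [h1]
    exact loc_conj L (hRV r0 hr0) (hRV r0⁻¹ (R.inv_mem hr0)) (hRB r0 hr0)
      (L.EE _ (hTE x.2) _ (hTE y.2))
  -- the subgroup
  let π : T →* (T ⧸ D.subgroupOf T) := QuotientGroup.mk' (D.subgroupOf T)
  have hπ : Function.Surjective π := QuotientGroup.mk'_surjective _
  have hker : π.ker = D.subgroupOf T := QuotientGroup.ker_mk' _
  let C' : Subgroup (T ⧸ D.subgroupOf T) := (C.subgroupOf T).map π
  have hidx : C'.index = C.relIndex T := by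
    have h1 : π.ker ≤ C.subgroupOf T := by
      rw [hker]
      intro x hx
      rw [mem_subgroupOf] at hx ⊢
      exact hDC hx
    have h2 := Subgroup.index_map_eq (C.subgroupOf T) hπ h1
    exact h2
  have ha0 : 0 < Nat.card R := Nat.card_pos
  have hdim : Nat.card C' * l ^ ((2 * (n * n0) + 1) * (Nat.card R + 1) + 2 * Nat.card R) ≤
      Nat.card (T ⧸ D.subgroupOf T) := by
    rw [← C'.card_mul_index, hidx]
    refine Nat.mul_le_mul_left _ ((Nat.pow_le_pow_right (Fact.out : l.Prime).pos ?_).trans hcon.le)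
    unfold s0
    have h1 : (2 * (n * n0) + 1) * (Nat.card R + 1) ≤ (2 * (n * n0) + 1) * (n + 1) :=
      Nat.mul_le_mul_left _ (by omega)
    omega
  obtain ⟨I', hI1, hI2, hI3, hI4⟩ := chwC l hT1 r (Nat.card R) ha0 hra β hmul hmul' hne halt hinv
    C' (2 * (n * n0)) hdim
  let I : Subgroup Γ := (I'.comap π).map T.subtype
  have hI : ∀ y, y ∈ I ↔ ∃ h : y ∈ T, π ⟨y, h⟩ ∈ I' := by
    intro y
    constructor
    · rintro ⟨x, hx, rfl⟩
      exact ⟨x.2, hx⟩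
    · rintro ⟨h, hy⟩
      exact ⟨⟨y, h⟩, hy, rfl⟩
  have hIE : I ≤ E := fun y hy => hTE ((hI y).1 hy).1
  have hIn : ∀ (m : ℕ) (a : T ⧸ D.subgroupOf T), a ∈ I' → (r ^ m) a ∈ I' := by
    intro m
    induction m with
    | zero => intro a ha; exact ha
    | succ m ih =>
      intro a ha
      rw [pow_succ', MulAut.mul_apply]
      exact hI1 _ (ih a ha)
  have hIR : ∀ x ∈ R, ∀ y ∈ I, x * y * x⁻¹ ∈ I := by
    intro x hx y hy
    have h1 : (⟨x, hx⟩ : R) ∈ Submonoid.powers (⟨r0, hr0⟩ : R) :=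
      mem_powers_iff_mem_zpowers.2 (hgen _)
    obtain ⟨m, hm⟩ := h1
    have h2 : r0 ^ m = x := congrArg Subtype.val hm
    obtain ⟨h3, h4⟩ := (hI y).1 hy
    refine (hI _).2 ⟨hcT x hx y h3, ?_⟩
    have h5 := hIn m _ h4
    have h6 := hrn m ⟨y, h3⟩ ⟨x * y * x⁻¹, hcT x hx y h3⟩ (by rw [h2])
    change ((⟨x * y * x⁻¹, hcT x hx y h3⟩ : T) : T ⧸ D.subgroupOf T) ∈ I'
    rw [← h6]
    exact h5
  have hiso : ∀ x ∈ I, ∀ y ∈ I, lam ⁅x, y⁆ = 1 := by
    intro x hx y hy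
    obtain ⟨h1, h2⟩ := (hI x).1 hx
    obtain ⟨h3, h4⟩ := (hI y).1 hy
    have h5 := hI2 _ h2 _ h4
    have h6 := hβ ⟨x, h1⟩ ⟨y, h3⟩
    rw [← h6]
    exact h5
  rcases qh L hord R q hRc hRq z hzR hz hRV I hIE hIR hiso with h | h
  · refine hI3 fun a ha => ?_
    obtain ⟨x, rfl⟩ := hπ a
    have h1 : (x : Γ) ∈ I := (hI x).2 ⟨x.2, ha⟩
    have h2 : (x : Γ) ∈ C := (hC x).2 ⟨x.2, h _ h1⟩
    exact ⟨x, h2, rfl⟩
  · have hIT : I ≤ T := fun y hy => ((hI y).1 hy).1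
    let ψ : I →* (T ⧸ D.subgroupOf T) := π.comp (Subgroup.inclusion hIT)
    have hψk : ψ.ker = D.subgroupOf I := by
      ext y
      rw [MonoidHom.mem_ker, mem_subgroupOf]
      change ((Subgroup.inclusion hIT y : T) : T ⧸ D.subgroupOf T) = 1 ↔ _
      rw [QuotientGroup.eq_one_iff, mem_subgroupOf]
      rfl
    have hψr : ψ.range = I' := by
      ext a
      constructor
      · rintro ⟨y, rfl⟩
        obtain ⟨h1, h2⟩ := (hI y).1 y.2
        exact h2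
      · intro ha
        obtain ⟨x, rfl⟩ := hπ a
        exact ⟨⟨x, (hI x).2 ⟨x.2, ha⟩⟩, rfl⟩
    have h1 : D.relIndex I = Nat.card I' := by
      have h2 := Subgroup.index_ker ψ
      rw [hψk, hψr] at h2
      exact h2
    rw [h1] at h
    have h2 : Nat.card R * Module.finrank k (V ⊓ Fx τ R : Submodule k U) ≤ n * n0 :=
      Nat.mul_le_mul hn hn0
    omega

end H78TP
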