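import Pool.Agent.H78.TP.WeiB
import Pool.Agent.H78.TP.Qcz
import Pool.Agent.H78.TP.Prm2

/-!
[H78 TP QNA] A bounded derived subgroup centralises `B` (45-60 min).

PROOF. `Ω = Wt τ B ⊤`, finite (`wei_fin`), weight spaces independent (`wei_ind`) with sum `⊤`
(`wei_top`, `B` is abelian). `Γ` acts on `Ω` (`wAct τ B ⊤ ⊤`, `B` is normal). Let `X` be the normal
closure of `z`; it acts on `Ω`, generated by the elements `g z g⁻¹`. `z` moves at most
`m = n * n0` elements of `Ω`: `qcz` with `V = ⊤` (`Nat.card R * finrank (⊤ ⊓ Fx τ R) ≤ n * n0`;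
`WS ≠ ⊥` for all `ν ∈ Ω`; `R` acts on `Ω` through `wAct τ B ⊤ R`). `g z g⁻¹` moves `g ν` iff `z` moves
`ν`, so it also moves at most `m`. By `prm2` (for the group `X`, soluble) every element `x` of
`derivedSeries X ((2 m + 1) !)`, i.e. of `dS X ((2 m + 1) !)` (`dS_map`, `dS_top_eq`), fixes all
`ν ∈ Ω`. So for `b ∈ B`, `ν ∈ Ω`: `ν (x⁻¹ b x) = ν b`, hence `τ (x⁻¹ b x)` and `τ b` agree on all
weight spaces, so they are equal, and `x⁻¹ b x = b` as `τ` is injective.
-/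

namespace H78TP

open Subgroup
open scoped commutatorElement

variable {k Γ U : Type*} [Field k] [Group Γ] [AddCommGroup U] [Module k U]

theorem qnA [IsAlgClosed k] [Finite Γ] [Module.Finite k U] (τ : Representation k Γ U)
    (hinj : Function.Injective τ) (hs : Group.IsSolvable Γ) (B : Subgroup Γ) (hB : B.Normal)
    (hBc : ∀ x ∈ B, ∀ y ∈ B, x * y = y * x) (hord : ∀ b ∈ B, (orderOf b : k) ≠ 0)
    (R : Subgroup Γ) (q : ℕ) [Fact q.Prime] (hRc : IsCyclic R) (hRq : IsPGroup q R) (z : Γ)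
    (hzR : z ∈ R) (hz : orderOf z = q) (n n0 : ℕ) (hn : Nat.card R ≤ n)
    (hn0 : Module.finrank k (Fx τ R) ≤ n0) :
    dS (Subgroup.normalClosure {z}) (2 * (n * n0) + 1).factorial ≤
      centralizer (B : Set Γ) := by
  classical
  have htop : (⨆ ν : Wt τ B ⊤, WS τ B ⊤ ν.1) = ⊤ :=
    wei_top τ B ⊤ (fun _ _ _ _ => Submodule.mem_top) (fun s hs t ht v _ => by
      rw [← Module.End.mul_apply, ← map_mul, hBc s hs t ht, map_mul, Module.End.mul_apply]) hord
  have hind : iSupIndep (fun ν : Wt τ B ⊤ => WS τ B ⊤ ν.1) := wei_ind τ B ⊤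
  have hfin : Finite (Wt τ B ⊤) := (wei_fin τ B ⊤).to_subtype
  have hnB : ∀ (g : Γ) (t : Γ), t ∈ B ↔ g⁻¹ * t * g ∈ B := by
    intro g t
    constructor
    · intro h
      have h1 := hB.conj_mem t h g⁻¹
      rwa [inv_inv] at h1
    · intro h
      have h1 := hB.conj_mem _ h g
      have h2 : g * (g⁻¹ * t * g) * g⁻¹ = t := by group
      rwa [h2] at h1
  letI act : MulAction Γ (Wt τ B ⊤) :=
    { smul := fun g ν => ⟨cjf g ν.1, Wt_cjf (hnB g) (fun _ _ => Submodule.mem_top) ν.2⟩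
      one_smul := fun ν => Subtype.ext (cjf_one ν.1)
      mul_smul := fun g h ν => Subtype.ext (cjf_mul g h ν.1) }
  have hsm : ∀ (g : Γ) (ν : Wt τ B ⊤), (g • ν).1 = cjf g ν.1 := fun g ν => rfl
  -- the number of weights moved by z
  have hzm : Nat.card {ν : Wt τ B ⊤ // z • ν ≠ ν} ≤ n * n0 := by
    have hz' : orderOf (⟨z, hzR⟩ : R) = q := by
      rw [← hz, ← Subgroup.orderOf_coe]
    have h1 := qcz τ R q hRc hRq ⟨z, hzR⟩ hz' ⊤ (ι := Wt τ B ⊤)
      (fun ν => WS τ B ⊤ ν.1) hind (fun _ => le_top) (fun _ _ _ _ => Submodule.mem_top)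
      (fun x i v hv => WS_cjf (hnB x.1) (fun _ _ => Submodule.mem_top) hv)
    have h2 : Nat.card {ν : Wt τ B ⊤ // z • ν ≠ ν} =
        Nat.card {ν : Wt τ B ⊤ // WS τ B ⊤ ν.1 ≠ ⊥ ∧ (⟨z, hzR⟩ : R) • ν ≠ ν} := by
      apply Nat.card_congr
      refine Equiv.subtypeEquivRight fun ν => ?_
      exact ⟨fun h => ⟨ν.2.2, h⟩, fun h => h.2⟩
    rw [h2]
    refine h1.trans (Nat.mul_le_mul hn ?_)
    rw [top_inf_eq]
    exact hn0
  have hclos : Subgroup.closure
      ((fun x : Subgroup.normalClosure {z} => (x : Γ)) ⁻¹' Group.conjugatesOfSet {z}) = ⊤ :=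
    Subgroup.closure_closure_coe_preimage (k := Group.conjugatesOfSet {z})
  have hp := prm2 (T := Subgroup.normalClosure {z}) (Ω := Wt τ B ⊤) (solv_sub hs _) _ hclos
    (n * n0) (by
      intro g hg
      obtain ⟨c, hc, hcg⟩ := Group.mem_conjugatesOfSet_iff.1 hg
      rw [Set.mem_singleton_iff] at hc
      subst hc
      obtain ⟨h, hh⟩ := isConj_iff.1 hcg
      refine le_trans (le_of_eq ?_) hzm
      apply Nat.card_congr
      refine (Equiv.subtypeEquiv (MulAction.toPerm h) fun ν => ?_).symm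
      have h1 : g • (MulAction.toPerm h ν) = h • (c • ν) := by
        show (g : Γ) • (h • ν) = h • (c • ν)
        have hh' : (g : Γ) = h * c * h⁻¹ := hh.symm
        rw [hh', ← mul_smul, ← mul_smul]
        congr 1
        group
      rw [h1]
      show c • ν ≠ ν ↔ h • (c • ν) ≠ h • ν
      rw [Ne, Ne, smul_left_cancel_iff])
  intro x hx
  have hmapeq := dS_map (Subgroup.normalClosure {z}).subtype
    (⊤ : Subgroup (Subgroup.normalClosure {z})) (2 * (n * n0) + 1).factorial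
  rw [← MonoidHom.range_eq_map, Subgroup.range_subtype] at hmapeq
  rw [← hmapeq, dS_top_eq] at hx
  obtain ⟨g, hg, rfl⟩ := hx
  have hfix : ∀ ν : Wt τ B ⊤, cjf (g : Γ) ν.1 = ν.1 := by
    intro ν
    have h1 := hp g hg ν
    exact congrArg Subtype.val h1
  rw [mem_centralizer_iff]
  intro b hb
  have hb' : (g : Γ)⁻¹ * b * g ∈ B := (hnB (g : Γ) b).1 hb
  have hle : (⊤ : Submodule k U) ≤ LinearMap.eqLocus (τ ((g : Γ)⁻¹ * b * g)) (τ b) := by
    rw [← htop]
    refine iSup_le fun ν v hv => ?_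
    show τ ((g : Γ)⁻¹ * b * g) v = τ b v
    rw [hv.2 _ hb', hv.2 b hb]
    have h1 : ν.1 ((g : Γ)⁻¹ * b * g) = ν.1 b := congrFun (hfix ν) b
    rw [h1]
  have heq : τ ((g : Γ)⁻¹ * b * g) = τ b := by
    apply LinearMap.ext
    intro w
    exact hle (Submodule.mem_top (x := w))
  have h2 : (g : Γ)⁻¹ * b * g = b := hinj heq
  show b * (g : Γ) = (g : Γ) * b
  calc b * (g : Γ) = (g : Γ) * ((g : Γ)⁻¹ * b * g) := by group
    _ = (g : Γ) * b := by rw [h2]

end H78TP
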