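import Pool.Agent.H78.TP.Qcz
import Pool.Agent.H78.TP.Qg
import Pool.Agent.H78.TP.WeiA
import Pool.Agent.H78.TP.Der

/-!
[H78 TP QNB] Weights moved by a conjugate of `z` (45 min).

PROOF. `lam ∈ Wt τ B ⊤` with weight space `V = WS τ B ⊤ lam`, and `c z c⁻¹` moves `lam`:
`cjf (c z c⁻¹) lam ≠ lam`. Let `lam' = cjf c⁻¹ lam`; it is a weight, `z` moves it
(`cjf z lam' = lam'` would give `cjf (c z c⁻¹) lam = lam`), and `τ c⁻¹` maps `V` onto
`V' = WS τ B ⊤ lam'` (`WS_cjf` for `c⁻¹` and `c`), so `finrank V = finrank V'`. `qcm` (with `V := ⊤`,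
`ι = Wt τ B ⊤`, the action `wAct τ B ⊤ R`, `i = lam'`) gives
`finrank V' ≤ finrank (⊤ ⊓ Fx τ R) ≤ n0`. By `qg` `D.relIndex E ≤ (finrank V) ^ 2 ≤ n0 ^ 2`.
`X₁` acts on the set `E / D` by conjugation (`hX1E`, `hX1D`), which has at most `n0 ^ 2` elements; by
`derK` for `X₁ →* Equiv.Perm (E / D)` (as a subgroup: use the group `X₁` and `⊤`, `dS_map`) every
`g ∈ dS X₁ ((n0 ^ 2) !)` acts trivially: `g e g⁻¹ e⁻¹ ∈ D` for `e ∈ E` (cosets `e D`;
`e⁻¹ g e g⁻¹ ∈ D`, and `⁅g, e⁆` is a conjugate of an element of `D` by an element of `E`; `D` is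
normal in `E` as `⁅E, E⁆ ≤ B ≤ D`).
-/

namespace H78TP

open Subgroup
open scoped commutatorElement

private theorem qnB_conj {Γ : Type*} [Group Γ] [Finite Γ] (hs : Group.IsSolvable Γ)
    (E D X : Subgroup Γ) (DE : D ≤ E) (EE : ∀ x ∈ E, ∀ y ∈ E, ⁅x, y⁆ ∈ D)
    (hXE : ∀ g ∈ X, ∀ e ∈ E, g * e * g⁻¹ ∈ E) (hXD : ∀ g ∈ X, ∀ e ∈ D, g * e * g⁻¹ ∈ D)
    (N : ℕ) (h : D.relIndex E ≤ N) : ∀ g ∈ dS X N.factorial, ∀ e ∈ E, ⁅g, e⁆ ∈ D := by
  let Q := E ⧸ D.subgroupOf E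
  have hQf : Finite Q := inferInstance
  let act : X → Q → Q := fun g => Quotient.map' (fun e : E => ⟨g.1 * e.1 * g.1⁻¹, hXE g.1 g.2 e.1 e.2⟩)
    (by
      intro a b hab
      rw [QuotientGroup.leftRel_apply, Subgroup.mem_subgroupOf] at hab ⊢
      have h1 := hXD g.1 g.2 _ hab
      have h2 : (((⟨g.1 * a.1 * g.1⁻¹, hXE g.1 g.2 a.1 a.2⟩ : E)⁻¹ *
          (⟨g.1 * b.1 * g.1⁻¹, hXE g.1 g.2 b.1 b.2⟩ : E) : E) : Γ) =
          g.1 * ((a⁻¹ * b : E) : Γ) * g.1⁻¹ := by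
        show (g.1 * a.1 * g.1⁻¹)⁻¹ * (g.1 * b.1 * g.1⁻¹) = g.1 * (a.1⁻¹ * b.1) * g.1⁻¹
        group
      rw [h2]
      exact h1)
  let A : MulAction X Q :=
    { smul := act
      one_smul := by
        intro x
        induction x using Quotient.inductionOn' with
        | _ e =>
          show Quotient.mk'' _ = Quotient.mk'' _
          congr 1
          apply Subtype.ext
          show (1 : Γ) * e.1 * (1 : Γ)⁻¹ = e.1
          group
      mul_smul := by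
        intro g g' x
        induction x using Quotient.inductionOn' with
        | _ e =>
          show Quotient.mk'' _ = Quotient.mk'' _
          congr 1
          apply Subtype.ext
          show (g.1 * g'.1) * e.1 * (g.1 * g'.1)⁻¹ = g.1 * (g'.1 * e.1 * g'.1⁻¹) * g.1⁻¹
          group }
  let φ : X →* Equiv.Perm Q := MulAction.toPermHom X Q
  have hcard : Nat.card (Equiv.Perm Q) ≤ N.factorial := by
    rw [Nat.card_perm]
    exact Nat.factorial_le h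
  have hfin : Finite (Equiv.Perm Q) := inferInstance
  have hk : dS (⊤ : Subgroup X) N.factorial ≤ φ.ker :=
    derK φ ⊤ (solv_sub (solv_sub hs X) ⊤) _ hcard
  intro g hg e he
  have hX : (⊤ : Subgroup X).map X.subtype = X := by
    rw [← MonoidHom.range_eq_map, Subgroup.range_subtype]
  rw [← hX, ← dS_map] at hg
  obtain ⟨g', hg', rfl⟩ := hg
  have h1 : φ g' = 1 := hk hg'
  have h2 : φ g' (Quotient.mk'' (⟨e, he⟩ : E)) = (Quotient.mk'' (⟨e, he⟩ : E) : Q) := by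
    rw [h1]
    rfl
  have h3 : (Quotient.mk'' (⟨g'.1 * e * g'.1⁻¹, hXE g'.1 g'.2 e he⟩ : E) : Q) =
      Quotient.mk'' (⟨e, he⟩ : E) := h2
  rw [Quotient.eq'', QuotientGroup.leftRel_apply, Subgroup.mem_subgroupOf] at h3
  have h4 : (g'.1 * e * g'.1⁻¹)⁻¹ * e ∈ D := h3
  have h5 : e * ((g'.1 * e * g'.1⁻¹)⁻¹ * e) * e⁻¹ ∈ D := by
    have h6 := EE e he _ (DE h4)
    have h7 := D.mul_mem h6 h4
    have h8 : ⁅e, (g'.1 * e * g'.1⁻¹)⁻¹ * e⁆ * ((g'.1 * e * g'.1⁻¹)⁻¹ * e) =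
        e * ((g'.1 * e * g'.1⁻¹)⁻¹ * e) * e⁻¹ := by
      rw [commutatorElement_def]
      group
    rwa [h8] at h7
  have h9 : ⁅X.subtype g', e⁆ = (e * ((g'.1 * e * g'.1⁻¹)⁻¹ * e) * e⁻¹)⁻¹ := by
    rw [commutatorElement_def]
    show g'.1 * e * g'.1⁻¹ * e⁻¹ = _
    group
  rw [h9]
  exact D.inv_mem h5

variable {k Γ U : Type*} [Field k] [Group Γ] [AddCommGroup U] [Module k U]

theorem qnB [IsAlgClosed k] [Finite Γ] [Module.Finite k U] (τ : Representation k Γ U)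
    (hs : Group.IsSolvable Γ) (B E D : Subgroup Γ) (hB : B.Normal) (lam : Γ → k)
    (hlam : lam ∈ Wt τ B ⊤) (L : Loc τ (WS τ B ⊤ lam) B E D lam)
    (R : Subgroup Γ) (q : ℕ) [Fact q.Prime] (hRc : IsCyclic R) (hRq : IsPGroup q R) (z : Γ)
    (hzR : z ∈ R) (hz : orderOf z = q) (n0 : ℕ) (hn0 : Module.finrank k (Fx τ R) ≤ n0)
    (hk : (Nat.card R : k) ≠ 0) (c : Γ) (hc : cjf (c * z * c⁻¹) lam ≠ lam)
    (X₁ : Subgroup Γ) (hX1E : ∀ g ∈ X₁, ∀ e ∈ E, g * e * g⁻¹ ∈ E)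
    (hX1D : ∀ g ∈ X₁, ∀ e ∈ D, g * e * g⁻¹ ∈ D) :
    ∀ g ∈ dS X₁ (n0 ^ 2).factorial, ∀ e ∈ E, ⁅g, e⁆ ∈ D := by
  -- the weight moved by `z`
  set lam' : Γ → k := cjf c⁻¹ lam with hlam'
  have hBn : ∀ g : Γ, ∀ t, t ∈ B ↔ g⁻¹ * t * g ∈ B := by
    intro g t
    constructor
    · intro ht
      have h1 := hB.conj_mem t ht g⁻¹
      rwa [inv_inv] at h1
    · intro ht
      have h1 := hB.conj_mem _ ht g
      have h2 : g * (g⁻¹ * t * g) * g⁻¹ = t := by group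
      rwa [h2] at h1
  have hmem' : lam' ∈ Wt τ B ⊤ :=
    Wt_cjf (hBn c⁻¹) (fun _ _ => Submodule.mem_top) hlam
  have hzmove : cjf z lam' ≠ lam' := by
    intro h
    apply hc
    have h1 : cjf (c * z * c⁻¹) lam = cjf c (cjf z (cjf c⁻¹ lam)) := by
      rw [← cjf_mul, ← cjf_mul]
    rw [h1, ← hlam', h, hlam', ← cjf_mul, mul_inv_cancel, cjf_one]
  -- the dimensions
  have hdim : Module.finrank k (WS τ B ⊤ lam) ≤ Module.finrank k (WS τ B ⊤ lam') := by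
    let f : WS τ B ⊤ lam →ₗ[k] WS τ B ⊤ lam' :=
      (τ c⁻¹).restrict (fun v hv => WS_cjf (hBn c⁻¹) (fun _ _ => Submodule.mem_top) hv)
    have hf : Function.Injective f := by
      intro v w hvw
      have h1 : τ c⁻¹ v.1 = τ c⁻¹ w.1 := congrArg Subtype.val hvw
      apply Subtype.ext
      have h2 := congrArg (τ c) h1
      rw [← Module.End.mul_apply, ← Module.End.mul_apply, ← map_mul, mul_inv_cancel,
        map_one] at h2
      exact h2
    exact LinearMap.finrank_le_finrank_of_injective hf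
  have hWfin : Finite (Wt τ B ⊤) := (wei_fin τ B ⊤).to_subtype
  let A : MulAction R (Wt τ B ⊤) := wAct τ B ⊤ R (fun g _ => hBn g)
    (fun _ _ _ _ => Submodule.mem_top)
  have hq := qcm τ R q hRc hRq ⟨z, hzR⟩ (by rw [← hz]; exact Subgroup.orderOf_mk z hzR) ⊤
    (fun ν : Wt τ B ⊤ => WS τ B ⊤ ν.1) (wei_ind τ B ⊤) (fun _ => le_top)
    (fun _ _ _ _ => Submodule.mem_top)
    (fun x i v hv => WS_cjf (hBn x.1) (fun _ _ => Submodule.mem_top) hv) hk ⟨lam', hmem'⟩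
    (fun h => hzmove (congrArg Subtype.val h))
  rw [top_inf_eq] at hq
  have hV : Module.finrank k (WS τ B ⊤ lam) ≤ n0 := hdim.trans (hq.trans hn0)
  have hrel : D.relIndex E ≤ n0 ^ 2 := (qg L).trans (Nat.pow_le_pow_left hV 2)
  have hBD : ∀ b ∈ B, b ∈ D := by
    intro b hb
    rw [L.rad]
    refine ⟨L.BE hb, fun e he => ?_⟩
    have h1 : ⁅b, e⁆ = 1 := commutatorElement_eq_one_iff_mul_comm.2 (L.cen b hb e he)
    rw [h1]
    obtain ⟨v, hv, hv0⟩ := Submodule.exists_mem_ne_zero_of_ne_bot L.ne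
    have h2 := L.sc 1 B.one_mem v hv
    rw [map_one, Module.End.one_apply] at h2
    have h3 : (lam 1 - 1) • v = 0 := by
      rw [sub_smul, one_smul, ← h2, sub_self]
    rcases smul_eq_zero.1 h3 with h4 | h4
    · exact sub_eq_zero.1 h4
    · exact absurd h4 hv0
  exact qnB_conj hs E D X₁ (fun e he => ((L.rad e).1 he).1)
    (fun x hx y hy => hBD _ (L.EE x hx y hy)) hX1E hX1D _ hrel

end H78TP
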