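import Pool.Agent.H78.TP.Qj
import Pool.Agent.H78.TP.Gt
import Pool.Agent.H78.TP.WeiA

/-!
[H78 TP QNG] Weights fixed by all conjugates of `z` (75 min).

PROOF. `V = WS τ B ⊤ lam`. `X = normalClosure {z}` is generated by the elements `c z c⁻¹`, all of
them fix `lam` (`hfix`), so all elements of `X` fix `lam` and map `V` to `V` (`WS_cjf`). Let
`T = {x ∈ E | x ^ l ∈ D}`, a subgroup (`E / D` is abelian since `⁅E, E⁆ ≤ B ≤ D`; `loc_BD`).
`X` normalises `E`, `B` (normal), `D` (`loc_conjD`) and `T`.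
Let `c : Γ` and `z' = c z c⁻¹`, `R' = c R c⁻¹` (`R.map (MulAut.conj c)`) and
`R'' = {x ∈ R' | cjf x lam = lam}`, a subgroup of `R'` which contains `z'`; `R''` is a cyclic
`q`-group of order `≤ n`. For `x ∈ R''` `τ x V ≤ V`. Claim:
`finrank (V ⊓ Fx τ R'') ≤ n0`: `qm` for the group `R'`, `V := ⊤`, `ι = Wt τ B ⊤` with the action
`wAct τ B ⊤ R'`, `i = lam`, `S = V ⊓ Fx τ R''` (`hfix`: `x • lam = lam` with `x ∈ R'` means
`x ∈ R''`), gives `finrank S ≤ finrank (⊤ ⊓ Fx τ R')`, and `Fx τ R' = τ c (Fx τ R)` has dimension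
`finrank (Fx τ R) ≤ n0`. So `qj` for `R''`, `z'` gives `C'.relIndex T ≤ l ^ (s0 n n0)` with
`C' = {x ∈ T | ⁅z', x⁆ ∈ D}` (a subgroup: commutators modulo `D`).
Now apply `gt` with `X`, `T`, `D`, `S` = the set of the conjugates of `z`, `s1 = s0 n n0`.
-/

namespace H78TP

open Subgroup
open scoped commutatorElement

variable {k Γ U : Type*} [Field k] [Group Γ] [AddCommGroup U] [Module k U]

/-- the elements which fix the function `lam` -/
def qngP (lam : Γ → k) : Subgroup Γ where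
  carrier := {g | cjf g lam = lam}
  one_mem' := cjf_one lam
  mul_mem' := by
    intro g h hg hh
    change cjf (g * h) lam = lam
    have h1 : cjf g lam = lam := hg
    have h2 : cjf h lam = lam := hh
    rw [cjf_mul, h2, h1]
  inv_mem' := by
    intro g hg
    change cjf g⁻¹ lam = lam
    have h1 : cjf g lam = lam := hg
    conv_lhs => rw [← h1]
    rw [← cjf_mul, inv_mul_cancel, cjf_one]

omit [Field k] in
theorem mem_qngP {lam : Γ → k} {g : Γ} : g ∈ qngP lam ↔ cjf g lam = lam := Iff.rfl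

theorem qng_V {τ : Representation k Γ U} {B : Subgroup Γ} (hB : B.Normal) {lam : Γ → k} {g : Γ}
    (hg : g ∈ qngP lam) : ∀ v ∈ WS τ B ⊤ lam, τ g v ∈ WS τ B ⊤ lam := by
  intro v hv
  have h1 : ∀ t, t ∈ B ↔ g⁻¹ * t * g ∈ B := by
    intro t
    constructor
    · intro ht
      have h2 := hB.conj_mem t ht g⁻¹
      rwa [inv_inv] at h2
    · intro ht
      have h2 := hB.conj_mem _ ht g
      have h3 : g * (g⁻¹ * t * g) * g⁻¹ = t := by group
      rwa [h3] at h2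
  have h2 := WS_cjf (τ := τ) (V := ⊤) h1 (fun _ _ => Submodule.mem_top) hv
  rwa [mem_qngP.1 hg] at h2

/-- the dimension of the fixed points of a subgroup of a conjugate -/
theorem qng_dim [Finite Γ] [Module.Finite k U] (τ : Representation k Γ U) (B : Subgroup Γ)
    (hB : B.Normal) (lam : Γ → k) (hlam : lam ∈ Wt τ B ⊤) (R' : Subgroup Γ)
    (hk : (Nat.card R' : k) ≠ 0) :
    Module.finrank k (WS τ B ⊤ lam ⊓ Fx τ (R' ⊓ qngP lam) : Submodule k U) ≤
      Module.finrank k (Fx τ R') := by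
  have h1 : ∀ g ∈ R', ∀ t, t ∈ B ↔ g⁻¹ * t * g ∈ B := by
    intro g _ t
    constructor
    · intro ht
      have h2 := hB.conj_mem t ht g⁻¹
      rwa [inv_inv] at h2
    · intro ht
      have h2 := hB.conj_mem _ ht g
      have h3 : g * (g⁻¹ * t * g) * g⁻¹ = t := by group
      rwa [h3] at h2
  letI := wAct τ B ⊤ R' h1 (fun _ _ _ _ => Submodule.mem_top)
  have hf : Finite (Wt τ B ⊤) := wei_fin τ B ⊤
  have h2 := qm τ R' ⊤ (fun ν : Wt τ B ⊤ => WS τ B ⊤ ν.1) (wei_ind τ B ⊤) (fun _ => le_top)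
    (fun _ _ _ _ => Submodule.mem_top)
    (fun x i v hv => WS_cjf (h1 x.1 x.2) (fun _ _ => Submodule.mem_top) hv) hk ⟨lam, hlam⟩
    (WS τ B ⊤ lam ⊓ Fx τ (R' ⊓ qngP lam)) inf_le_left (fun v hv x hx => by
      have h3 : cjf x.1 lam = lam := congrArg Subtype.val hx
      exact hv.2 x.1 ⟨x.2, h3⟩)
  rwa [top_inf_eq] at h2

theorem qng_conj [Module.Finite k U] (τ : Representation k Γ U) (R : Subgroup Γ) (c : Γ) :
    Module.finrank k (Fx τ (R.map (MulAut.conj c).toMonoidHom)) ≤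
      Module.finrank k (Fx τ R) := by
  have h1 : ∀ v ∈ Fx τ (R.map (MulAut.conj c).toMonoidHom), τ c⁻¹ v ∈ Fx τ R := by
    intro v hv x hx
    have h2 : τ (c * x * c⁻¹) v = v := hv _ ⟨x, hx, rfl⟩
    rw [← Module.End.mul_apply, ← map_mul]
    have h3 : x * c⁻¹ = c⁻¹ * (c * x * c⁻¹) := by group
    rw [h3, map_mul, Module.End.mul_apply, h2]
  refine LinearMap.finrank_le_finrank_of_injective (f := (τ c⁻¹).restrict h1) ?_
  intro v w hvw
  have h2 : τ c⁻¹ v.1 = τ c⁻¹ w.1 := congrArg Subtype.val hvw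
  have h3 : ∀ u : U, τ c (τ c⁻¹ u) = u := by
    intro u
    rw [← Module.End.mul_apply, ← map_mul, mul_inv_cancel, map_one]
    rfl
  refine Subtype.ext ?_
  rw [← h3 v.1, h2, h3]

/-- the elements whose `l`-th power is in `D` -/
theorem qng_T (E D : Subgroup Γ) (hDE : D ≤ E) (hEE : ∀ x ∈ E, ∀ y ∈ E, ⁅x, y⁆ ∈ D) (l : ℕ) :
    ∃ T : Subgroup Γ, ∀ x, x ∈ T ↔ x ∈ E ∧ x ^ l ∈ D := by
  have hN : (D.subgroupOf E).Normal := by
    refine ⟨fun d hd x => ?_⟩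
    rw [mem_subgroupOf] at hd ⊢
    have h1 : ((x * d * x⁻¹ : E) : Γ) = ⁅(x : Γ), (d : Γ)⁆ * d := by
      rw [commutatorElement_def]
      simp
    rw [h1]
    exact D.mul_mem (hEE _ x.2 _ d.2) hd
  have hcomm : ∀ a b : E ⧸ D.subgroupOf E, a * b = b * a := by
    intro a b
    obtain ⟨x, rfl⟩ := QuotientGroup.mk_surjective a
    obtain ⟨y, rfl⟩ := QuotientGroup.mk_surjective b
    rw [← QuotientGroup.mk_mul, ← QuotientGroup.mk_mul, QuotientGroup.eq, mem_subgroupOf]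
    have h1 : (((x * y)⁻¹ * (y * x) : E) : Γ) = ⁅(y : Γ)⁻¹, (x : Γ)⁻¹⁆ := by
      rw [commutatorElement_def]
      simp [mul_assoc]
    rw [h1]
    exact hEE _ (E.inv_mem y.2) _ (E.inv_mem x.2)
  have hpow : ∀ x y : E ⧸ D.subgroupOf E, (x * y) ^ l = x ^ l * y ^ l := fun x y =>
    (Commute.mul_pow (hcomm x y) l)
  have hmk : ∀ x : E, ((x : E ⧸ D.subgroupOf E)) ^ l = 1 ↔ (x : Γ) ^ l ∈ D := by
    intro x
    have h1 : ((x : E ⧸ D.subgroupOf E)) ^ l = ((x ^ l : E) : E ⧸ D.subgroupOf E) := rfl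
    rw [h1, QuotientGroup.eq_one_iff, mem_subgroupOf]
    rfl
  refine ⟨{ carrier := {x | x ∈ E ∧ x ^ l ∈ D}
            one_mem' := ⟨E.one_mem, by rw [one_pow]; exact D.one_mem⟩
            mul_mem' := ?_
            inv_mem' := ?_ }, fun x => Iff.rfl⟩
  · rintro x y ⟨hx, hx'⟩ ⟨hy, hy'⟩
    refine ⟨E.mul_mem hx hy, ?_⟩
    have h1 := (hmk ⟨x, hx⟩).2 hx'
    have h2 := (hmk ⟨y, hy⟩).2 hy'
    have h3 := hpow ((⟨x, hx⟩ : E) : E ⧸ D.subgroupOf E) ((⟨y, hy⟩ : E) : E ⧸ D.subgroupOf E)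
    rw [h1, h2, one_mul] at h3
    exact (hmk ((⟨x, hx⟩ : E) * (⟨y, hy⟩ : E))).1 h3
  · rintro x ⟨hx, hx'⟩
    refine ⟨E.inv_mem hx, ?_⟩
    rw [inv_pow]
    exact D.inv_mem hx'

theorem qng_C (T E D : Subgroup Γ) (hTE : T ≤ E) (hDT : D ≤ T)
    (hEE : ∀ x ∈ E, ∀ y ∈ E, ⁅x, y⁆ ∈ D) (z : Γ) :
    ∃ C : Subgroup Γ, ∀ x, x ∈ C ↔ x ∈ T ∧ ⁅z, x⁆ ∈ D := by
  have hED : ∀ x ∈ E, ∀ d ∈ D, x * d * x⁻¹ ∈ D := by
    intro x hx d hd
    have h1 : x * d * x⁻¹ = ⁅x, d⁆ * d := by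
      rw [commutatorElement_def]
      group
    rw [h1]
    exact D.mul_mem (hEE x hx d (hTE (hDT hd))) hd
  refine ⟨{ carrier := {x | x ∈ T ∧ ⁅z, x⁆ ∈ D}
            one_mem' := ⟨T.one_mem, by rw [commutatorElement_one_right]; exact D.one_mem⟩
            mul_mem' := ?_
            inv_mem' := ?_ }, fun x => Iff.rfl⟩
  · rintro x y ⟨hx, hx'⟩ ⟨hy, hy'⟩
    refine ⟨T.mul_mem hx hy, ?_⟩
    have h1 : ⁅z, x * y⁆ = ⁅z, x⁆ * (x * ⁅z, y⁆ * x⁻¹) := by
      rw [commutatorElement_def, commutatorElement_def, commutatorElement_def]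
      group
    rw [h1]
    exact D.mul_mem hx' (hED x (hTE hx) _ hy')
  · rintro x ⟨hx, hx'⟩
    refine ⟨T.inv_mem hx, ?_⟩
    have h1 : ⁅z, x⁻¹⁆ = x⁻¹ * ⁅z, x⁆⁻¹ * x⁻¹⁻¹ := by
      rw [commutatorElement_def, commutatorElement_def]
      group
    rw [h1]
    exact hED _ (E.inv_mem (hTE hx)) _ (D.inv_mem hx')

theorem qnG [IsAlgClosed k] [Finite Γ] [Module.Finite k U] (τ : Representation k Γ U)
    (hs : Group.IsSolvable Γ) (B E D : Subgroup Γ) (hB : B.Normal) (hE : E.Normal)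
    (lam : Γ → k) (hlam : lam ∈ Wt τ B ⊤) (L : Loc τ (WS τ B ⊤ lam) B E D lam)
    (hord : ∀ e ∈ E, (orderOf e : k) ≠ 0)
    (R : Subgroup Γ) (q : ℕ) [Fact q.Prime] (hRc : IsCyclic R) (hRq : IsPGroup q R) (z : Γ)
    (hzR : z ∈ R) (hz : orderOf z = q) (n n0 : ℕ) (hn : Nat.card R ≤ n)
    (hn0 : Module.finrank k (Fx τ R) ≤ n0) (hk : (Nat.card R : k) ≠ 0)
    (hfix : ∀ c : Γ, cjf (c * z * c⁻¹) lam = lam) (l : ℕ) [Fact l.Prime] :
    ∀ g ∈ dS (Subgroup.normalClosure {z}) (zas (4 * s0 n n0)), ¬ l ∣ orderOf g →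
      ∀ x ∈ E, x ^ l ∈ D → ⁅g, x⁆ ∈ D := by
  have hDE := loc_DE L
  have hBD := loc_BD L
  have hEE : ∀ x ∈ E, ∀ y ∈ E, ⁅x, y⁆ ∈ D := fun x hx y hy => hBD (L.EE x hx y hy)
  obtain ⟨T, hT⟩ := qng_T E D hDE hEE l
  have hTE : T ≤ E := fun x hx => ((hT x).1 hx).1
  have hDT : D ≤ T := fun d hd => (hT d).2 ⟨hDE hd, D.pow_mem hd l⟩
  have hB' : ∀ g : Γ, ∀ b ∈ B, g * b * g⁻¹ ∈ B := fun g b hb => hB.conj_mem b hb g
  have hE' : ∀ g : Γ, ∀ e ∈ E, g * e * g⁻¹ ∈ E := fun g e he => hE.conj_mem e he g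
  have hPD : ∀ g ∈ qngP lam, ∀ d ∈ D, g * d * g⁻¹ ∈ D := fun g hg d hd =>
    loc_conjD L (qng_V hB hg) (qng_V hB ((qngP lam).inv_mem hg)) (hB' g) (hE' g)
      (fun e he => by
        have h1 := hE' g⁻¹ e he
        rwa [inv_inv] at h1) hd
  have hXP : Subgroup.normalClosure {z} ≤ qngP lam := by
    unfold Subgroup.normalClosure
    rw [closure_le]
    intro x hx
    obtain ⟨a, ha, hax⟩ := Group.mem_conjugatesOfSet_iff.1 hx
    obtain ⟨c, hc⟩ := isConj_iff.1 hax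
    rw [Set.mem_singleton_iff] at ha
    rw [← hc, ha]
    exact hfix c
  intro g hg hlg x hx hxl
  refine gt l hs (Subgroup.normalClosure {z}) T D hDT ?_ (fun g hg d hd => hPD g (hXP hg) d hd)
    (fun x hx => ((hT x).1 hx).2) (fun x hx y hy => hEE x (hTE hx) y (hTE hy))
    (Group.conjugatesOfSet {z}) rfl (s0 n n0) ?_ g hg hlg x ((hT x).2 ⟨hx, hxl⟩)
  · intro g hg x hx
    obtain ⟨h1, h2⟩ := (hT x).1 hx
    refine (hT _).2 ⟨hE' g x h1, ?_⟩
    rw [conj_pow]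
    exact hPD g (hXP hg) _ h2
  · intro z' hz'
    obtain ⟨a, ha, hax⟩ := Group.mem_conjugatesOfSet_iff.1 hz'
    obtain ⟨c, hc⟩ := isConj_iff.1 hax
    rw [Set.mem_singleton_iff] at ha
    rw [ha] at hc
    obtain ⟨C, hC⟩ := qng_C T E D hTE hDT hEE z'
    refine ⟨C, hC, ?_⟩
    set R' : Subgroup Γ := R.map (MulAut.conj c).toMonoidHom with hR'
    have hcard : Nat.card R' = Nat.card R :=
      (Nat.card_congr (R.equivMapOfInjective _ (MulAut.conj c).injective).toEquiv).symm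
    have hcyc : IsCyclic R' :=
      isCyclic_of_surjective (R.equivMapOfInjective _ (MulAut.conj c).injective).toMonoidHom
        (R.equivMapOfInjective _ (MulAut.conj c).injective).surjective
    have hp : IsPGroup q R' := hRq.map _
    have hcyc2 : IsCyclic (R' ⊓ qngP lam : Subgroup Γ) :=
      isCyclic_of_injective (Subgroup.inclusion (inf_le_left : R' ⊓ qngP lam ≤ R'))
        (Subgroup.inclusion_injective _)
    have hp2 : IsPGroup q (R' ⊓ qngP lam : Subgroup Γ) := hp.to_le inf_le_left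
    have hzP : z' ∈ R' ⊓ qngP lam := by
      refine ⟨⟨z, hzR, hc⟩, ?_⟩
      change cjf z' lam = lam
      rw [← hc]
      exact hfix c
    have hzo : orderOf z' = q := by
      have h1 : z' = (MulAut.conj c) z := hc.symm
      rw [h1, MulEquiv.orderOf_eq, hz]
    have hd : Module.finrank k (WS τ B ⊤ lam ⊓ Fx τ (R' ⊓ qngP lam) : Submodule k U) ≤ n0 :=
      ((qng_dim τ B hB lam hlam R' (by rw [hcard]; exact hk)).trans (qng_conj τ R c)).trans hn0
    have hcard2 : Nat.card (R' ⊓ qngP lam : Subgroup Γ) ≤ n :=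
      (Subgroup.card_le_of_le inf_le_left).trans (by rw [hcard]; exact hn)
    exact qj L hord (R' ⊓ qngP lam) q hcyc2 hp2 z' hzP hzo (fun x hx => qng_V hB hx.2)
      (fun x _ => hE' x) (fun x _ => hB' x) n n0 hcard2 hd l T C hT hC

end H78TP
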