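import Pool.Agent.H78.TP.QnA
import Pool.Agent.H78.TP.QnB
import Pool.Agent.H78.TP.QnG
import Pool.Agent.H78.TP.QnD
import Pool.Agent.H78.TP.Cop
import Pool.Agent.H78.TP.Qf
import Pool.Agent.H78.TP.Irr

/-!
[H78 TP QNC] Theorem Q over an algebraically closed field (75 min).

PROOF. `qf` with `K = ⊤` gives `B ≤ E`. Every element of `E` has order nonzero in `k`, i.e. prime to
`p`: `E` is nilpotent (`gam E 2 ≤ ⁅B, E⁆ = ⊥`), so by `nilSyl` it has a normal (in `Γ`) Sylow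
`p`-subgroup `S`, `S = ⊥` by `hO`, so `p ∤ |E|`. The same for `B ≤ E`. `(Nat.card R : k) ≠ 0` as
`R` is a `q`-group, `q ≠ p` (if `p` divides `Nat.card R = q ^ j` then `p = q`).
Let `X = normalClosure {z}`, `N1 = (2 * (n * n0) + 1) !`, `X₁ = X ⊓ centralizer B` (normal). By `qnA`
`dS X N1 ≤ X₁`. Let `M = zas (4 * s0 n n0) + (n0 ^ 2) !` and `Y = dS X₁ M` (normal). Claim: the
hypothesis `hY` of `qnD`. Let `l` be prime, `g ∈ Y`, `l ∤ orderOf g`, `x ∈ E`, `x ^ (l ^ j) ∈ B`. For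
every weight `lam ∈ Wt τ B ⊤` let `V = WS τ B ⊤ lam ≠ ⊥`; `E` commutes with `B`, so `E` maps `V` to
`V`; `loc_exists` gives `D` with `Loc τ V B E D lam`. `X₁` normalises `D` (it centralises `B`, so it
fixes `lam` and maps `V` to `V`; `loc_conjD`). If some conjugate of `z` moves `lam`: by `qnB`
`⁅g, x⁆ ∈ D` (`g ∈ Y ≤ dS X₁ ((n0 ^ 2) !)`, `dS_anti`). Otherwise by `qnG`
(`g ∈ Y ≤ dS X (zas (4 * s0 n n0))`, `dS_mono`, `dS_anti`) `⁅g, y⁆ ∈ D` for all `y ∈ E` with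
`y ^ l ∈ D`, and by `cop` (for `E`, `D`) `⁅g, x⁆ ∈ D` (`x ^ (l ^ j) ∈ B ≤ D`). So in both cases
`lam ⁅⁅g, x⁆, e⁆ = 1` for all `e ∈ E`, i.e. `⁅⁅g, x⁆, e⁆ ∈ B` acts trivially on `V`. This holds for
all weights, the weight spaces span `U` (`wei_top`) and `τ` is injective, so `⁅⁅g, x⁆, e⁆ = 1`,
`⁅g, x⁆ ∈ centralizer E ≤ B`. By `qnD` `lns Y 2 = ⊥`.
So `lns X (N1 + (M + 2)) = ⊥`: `lns X N1 ≤ dS X N1 ≤ X₁`, `lns X₁ M ≤ dS X₁ M = Y`, `lns Y 2 = ⊥`
(`lns_trans`, `lns_le_dS`), and `hQ n n0 = N1 + M + 2`.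
-/

namespace H78TP

open Subgroup
open scoped commutatorElement

variable {k Γ U : Type*} [Field k] [Group Γ] [AddCommGroup U] [Module k U]

omit [AddCommGroup U] [Module k U] in
private theorem qnC_ord [Finite Γ] (p : ℕ) [Fact p.Prime] [CharP k p]
    (hO : ∀ N : Subgroup Γ, N.Normal → IsPGroup p N → N = ⊥)
    (B E : Subgroup Γ) (hE : E.Normal) (EE : ∀ x ∈ E, ∀ y ∈ E, ⁅x, y⁆ ∈ B)
    (cen : ∀ b ∈ B, ∀ e ∈ E, b * e = e * b) :
    ∀ e ∈ E, (orderOf e : k) ≠ 0 := by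
  have h2 : gam E 2 = ⊥ := by
    rw [gam_succ, gam_succ, gam_zero, eq_bot_iff]
    have h1 : ⁅E, E⁆ ≤ B := by
      rw [Subgroup.commutator_le]
      exact EE
    refine (Subgroup.commutator_mono h1 le_rfl).trans ?_
    rw [Subgroup.commutator_le]
    intro b hb e he
    rw [Subgroup.mem_bot, commutatorElement_eq_one_iff_mul_comm]
    exact cen b hb e he
  obtain ⟨S, hS, -, hSp, hSi⟩ := nilSyl E hE 2 h2 p
  have hS0 := hO S hS hSp
  rw [hS0, Subgroup.relIndex_bot_left] at hSi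
  intro e he h
  rw [CharP.cast_eq_zero_iff k p] at h
  apply hSi
  refine h.trans ?_
  have h3 : orderOf (⟨e, he⟩ : E) = orderOf e := Subgroup.orderOf_mk e he
  rw [← h3]
  exact orderOf_dvd_natCard _

private theorem qnC_inv (τ : Representation k Γ U) (B : Subgroup Γ) (lam : Γ → k) (g : Γ)
    (hg : ∀ b ∈ B, b * g = g * b) : ∀ v ∈ WS τ B ⊤ lam, τ g v ∈ WS τ B ⊤ lam := by
  rintro v ⟨-, hv⟩
  refine ⟨Submodule.mem_top, fun b hb => ?_⟩
  have h1 : τ b (τ g v) = τ g (τ b v) := by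
    rw [← Module.End.mul_apply, ← map_mul, ← Module.End.mul_apply, ← map_mul, hg b hb]
  rw [h1, hv b hb, map_smul]

theorem qnC [IsAlgClosed k] [Finite Γ] [Module.Finite k U] (p : ℕ) [Fact p.Prime] [CharP k p]
    (τ : Representation k Γ U) (hinj : Function.Injective τ) (hs : Group.IsSolvable Γ)
    (hO : ∀ N : Subgroup Γ, N.Normal → IsPGroup p N → N = ⊥)
    (R : Subgroup Γ) (q : ℕ) [Fact q.Prime] (hqp : q ≠ p) (hRc : IsCyclic R)
    (hRq : IsPGroup q R) (z : Γ)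
    (hzR : z ∈ R) (hz : orderOf z = q) (n n0 : ℕ) (hn : Nat.card R ≤ n)
    (hn0 : Module.finrank k (Fx τ R) ≤ n0) :
    lns (Subgroup.normalClosure {z}) (hQ n n0) = ⊥ := by
  obtain ⟨B, E, hB, hE, BE, -, hBc, EE, cen, hcE0, -⟩ := qf (⊤ : Subgroup Γ) inferInstance
    (by
      have h1 : Group.IsSolvable Γ := hs
      infer_instance)
  have hcE : centralizer (E : Set Γ) ≤ B := by
    rw [top_inf_eq] at hcE0
    exact hcE0
  have hordE : ∀ e ∈ E, (orderOf e : k) ≠ 0 := qnC_ord p hO B E hE EE cen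
  have hordB : ∀ b ∈ B, (orderOf b : k) ≠ 0 := fun b hb => hordE b (BE hb)
  have hk : (Nat.card R : k) ≠ 0 := by
    intro h
    rw [CharP.cast_eq_zero_iff k p] at h
    obtain ⟨j, hj⟩ := IsPGroup.iff_card.1 hRq
    rw [hj] at h
    have h1 := (Fact.out : p.Prime).dvd_of_dvd_pow h
    exact hqp ((Nat.prime_dvd_prime_iff_eq (Fact.out : p.Prime) (Fact.out : q.Prime)).1 h1).symm
  set X := Subgroup.normalClosure {z} with hX
  have hXn : X.Normal := Subgroup.normalClosure_normal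
  have hA : dS X (2 * (n * n0) + 1).factorial ≤ centralizer (B : Set Γ) :=
    qnA τ hinj hs B hB hBc hordB R q hRc hRq z hzR hz n n0 hn hn0
  set X₁ : Subgroup Γ := X ⊓ centralizer (B : Set Γ) with hX1
  have hCn : (centralizer (B : Set Γ)).Normal := inferInstance
  have hX1n : X₁.Normal := Subgroup.normal_inf_normal _ _
  set M := zas (4 * s0 n n0) + (n0 ^ 2).factorial with hM
  have hYn : (dS X₁ M).Normal := dS_normal hX1n M
  have hX1c : ∀ g ∈ X₁, ∀ b ∈ B, b * g = g * b := fun g hg b hb =>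
    Subgroup.mem_centralizer_iff.1 hg.2 b hb
  have hYX : dS X₁ M ≤ X₁ := dS_le X₁ M
  have hY : ∀ l : ℕ, l.Prime → ∀ g ∈ dS X₁ M, ¬ l ∣ orderOf g → ∀ x ∈ E,
      (∃ j : ℕ, x ^ (l ^ j) ∈ B) → ⁅g, x⁆ ∈ B := by
    intro l hl g hg hgl x hx hxj
    have hlf : Fact l.Prime := ⟨hl⟩
    have hgxE : ⁅g, x⁆ ∈ E := by
      rw [commutatorElement_def]
      exact E.mul_mem (hE.conj_mem x hx g) (E.inv_mem hx)
    -- the commutator is in all radicals
    have main : ∀ lam ∈ Wt τ B ⊤, ∀ e ∈ E, lam ⁅⁅g, x⁆, e⁆ = 1 := by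
      intro lam hlam
      obtain ⟨D, L⟩ := loc_exists τ (WS τ B ⊤ lam) B E lam hlam.2 BE EE cen
        (fun e he => qnC_inv τ B lam e fun b hb => cen b hb e he) (fun b hb v hv => hv.2 b hb)
      have nD : ∀ h ∈ X₁, ∀ e ∈ D, h * e * h⁻¹ ∈ D := fun h hh e he =>
        loc_conjD L (qnC_inv τ B lam h (hX1c h hh))
          (qnC_inv τ B lam h⁻¹ (hX1c h⁻¹ (inv_mem hh))) (fun b hb => hB.conj_mem b hb h)
          (fun e he => hE.conj_mem e he h)
          (fun e he => by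
            have h4 := hE.conj_mem e he h⁻¹
            rwa [inv_inv] at h4) he
      have hD : ⁅g, x⁆ ∈ D := by
        by_cases hc : ∃ c : Γ, cjf (c * z * c⁻¹) lam ≠ lam
        · obtain ⟨c, hc⟩ := hc
          exact qnB τ hs B E D hB lam hlam L R q hRc hRq z hzR hz n0 hn0 hk c hc X₁
            (fun g _ e he => hE.conj_mem e he g) nD g
            (dS_anti X₁ (Nat.le_add_left _ _) hg) x hx
        · push Not at hc
          have hg1 : g ∈ dS X (zas (4 * s0 n n0)) :=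
            dS_mono (inf_le_left : X₁ ≤ X) _ (dS_anti X₁ (Nat.le_add_right _ _) hg)
          have h1 := qnG τ hs B E D hB hE lam hlam L hordE R q hRc hRq z hzR hz n n0 hn hn0 hk
            hc l g hg1 hgl
          obtain ⟨j, hj⟩ := hxj
          exact cop l E D (loc_DE L) (fun a ha b hb => loc_BD L (EE a ha b hb)) g
            (fun e he => hE.conj_mem e he g) (nD g (hYX hg)) hgl h1 x hx ⟨j, loc_BD L hj⟩
      exact ((L.rad _).1 hD).2
    apply hcE
    rw [Subgroup.mem_centralizer_iff]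
    intro e he
    have hu : ⁅⁅g, x⁆, e⁆ ∈ B := EE _ hgxE e he
    have h1 : τ ⁅⁅g, x⁆, e⁆ = 1 := by
      apply LinearMap.ext
      intro v
      have htop : (⨆ ν : Wt τ B ⊤, WS τ B ⊤ ν.1) = ⊤ :=
        wei_top τ B ⊤ (fun _ _ _ _ => Submodule.mem_top)
          (fun s hs' t ht v _ => by
            rw [← Module.End.mul_apply, ← map_mul, ← Module.End.mul_apply, ← map_mul,
              hBc s hs' t ht]) hordB
      have hv : v ∈ (⨆ ν : Wt τ B ⊤, WS τ B ⊤ ν.1) := by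
        rw [htop]
        exact Submodule.mem_top
      induction hv using Submodule.iSup_induction' with
      | mem ν w hw =>
        rw [hw.2 _ hu, main ν.1 ν.2 e he, one_smul]
        rfl
      | zero => simp
      | add a b _ _ ha hb => rw [map_add, ha, hb]; simp
    have h2 : ⁅⁅g, x⁆, e⁆ = 1 := hinj (by rw [h1, map_one])
    exact ((commutatorElement_eq_one_iff_mul_comm).1 h2).symm
  have hD2 : lns (dS X₁ M) 2 = ⊥ :=
    qnD B E (dS X₁ M) hB hE hYn BE hBc EE hcE (hYX.trans inf_le_right) hY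
  have h3 : lns X₁ (M + 2) = ⊥ := lns_trans (lns_le_dS X₁ M) hD2
  have h4 : lns X ((2 * (n * n0) + 1).factorial + (M + 2)) = ⊥ :=
    lns_trans ((lns_le_dS X _).trans (le_inf (dS_le X _) hA)) h3
  have h5 : hQ n n0 = (2 * (n * n0) + 1).factorial + (M + 2) := by
    unfold hQ
    omega
  rw [h5]
  exact h4

end H78TP
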