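import Pool.Agent.H78.TP.RbA

/-!
[H78 TP RBB] It suffices to bound the sections of a Sylow subgroup (30-45 min).

PROOF. Let `V ≤ U ≤ C` with `x ^ s ∈ V`, `⁅x, y⁆ ∈ V` for `x, y ∈ U`. Let `T` be a Sylow
`s`-subgroup of `U` (as a subgroup of `F`). `S.subgroupOf C` is a Sylow `s`-subgroup of `C` (`hS`,
`hi`: `IsPGroup.toSylow`), so `T ≤ g S g⁻¹` for some `g ∈ C` (`IsPGroup.exists_le_sylow` and
`MulAction.exists_smul_eq`). `RB s c` holds for `g S g⁻¹` (`rb_map` with `MulAut.conj g`).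
Apply it to `T ⊓ V ≤ T`: `[T : T ⊓ V] ≤ c`. Now `[U : V]`: `|U| = [U : V] |V|`. `V` is normal in
`U` and `U / V` is an `s`-group, so `[U : V]` is a power of `s`; `[U : V]` divides
`[U : V ⊓ T] = [U : T] [T : T ⊓ V]` and is prime to `[U : T]`, so it divides `[T : T ⊓ V]`, which
is `≤ c` (and positive).
-/

namespace H78TP

open Subgroup
open scoped commutatorElement

theorem rb_sylow {F : Type*} [Group F] [Finite F] (s : ℕ) [Fact s.Prime] (c : ℕ)
    (C S : Subgroup F) (hSC : S ≤ C) (hS : IsPGroup s S) (hi : ¬ s ∣ S.relIndex C)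
    (h : RB s c S) : RB s c C := by
  classical
  intro U V hVU hUC h3 h4
  have hp : s.Prime := Fact.out
  obtain ⟨T⟩ : Nonempty (Sylow s U) := inferInstance
  obtain ⟨T', hT'⟩ : ∃ T' : Subgroup F, T' = (T : Subgroup U).map U.subtype := ⟨_, rfl⟩
  have hT'U : T' ≤ U := by
    rw [hT']
    exact Subgroup.map_subtype_le _
  have hT'p : IsPGroup s T' := by
    rw [hT']
    exact T.isPGroup'.map U.subtype
  have hTi : ¬ s ∣ T'.relIndex U := by
    have h1 : T'.subgroupOf U = (T : Subgroup U) := by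
      rw [hT']
      exact Subgroup.comap_map_eq_self_of_injective U.subtype_injective _
    rw [Subgroup.relIndex, h1]
    exact T.not_dvd_index
  -- the Sylow subgroup of `C`
  have hS1 : IsPGroup s (S.subgroupOf C) := hS.comap_of_injective C.subtype C.subtype_injective
  have hS2 : ¬ s ∣ (S.subgroupOf C).index := hi
  have hT2 : IsPGroup s (T'.subgroupOf C) := hT'p.comap_of_injective C.subtype C.subtype_injective
  obtain ⟨Q, hQ⟩ := hT2.exists_le_sylow
  obtain ⟨g, hg⟩ := MulAction.exists_smul_eq C (hS1.toSylow hS2) Q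
  have hTS : T' ≤ S.map (MulAut.conj (g : F)).toMonoidHom := by
    intro t ht
    have htC : t ∈ C := hUC (hT'U ht)
    have h5 : (⟨t, htC⟩ : C) ∈ (Q : Subgroup C) := hQ (Subgroup.mem_subgroupOf.2 ht)
    rw [← hg, Sylow.coe_subgroup_smul, Subgroup.mem_pointwise_smul_iff_inv_smul_mem,
      IsPGroup.toSylow_coe, Subgroup.mem_subgroupOf, MulAut.smul_def,
      MulAut.conj_inv_apply] at h5
    refine ⟨_, h5, ?_⟩
    show (g : F) * ((g : F)⁻¹ * t * (g : F)) * (g : F)⁻¹ = t
    group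
  have hRT : RB s c T' := rb_mono hTS (rb_map _ s c S h)
  have hd : (T' ⊓ V).relIndex T' ≤ c := by
    refine hRT T' (T' ⊓ V) inf_le_left le_rfl (fun x hx => ⟨T'.pow_mem hx s, h3 x (hT'U hx)⟩)
      fun x hx y hy => ⟨?_, h4 x (hT'U hx) y (hT'U hy)⟩
    rw [commutatorElement_def]
    exact T'.mul_mem (T'.mul_mem (T'.mul_mem hx hy) (T'.inv_mem hx)) (T'.inv_mem hy)
  have hd0 : 0 < (T' ⊓ V).relIndex T' := Nat.pos_of_ne_zero Subgroup.FiniteIndex.index_ne_zero
  -- the section is a group of order a power of `s`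
  have hnor : (V.subgroupOf U).Normal := by
    refine ⟨fun v hv x => ?_⟩
    rw [Subgroup.mem_subgroupOf] at hv ⊢
    have h5 := V.mul_mem (h4 x x.2 v (hVU hv)) hv
    rw [commutatorElement_def] at h5
    have h6 : (x : F) * v * (x : F)⁻¹ * (v : F)⁻¹ * v = ((x * v * x⁻¹ : U) : F) := by
      rw [inv_mul_cancel_right]
      rfl
    rwa [h6] at h5
  obtain ⟨n, hn⟩ : ∃ n : ℕ, V.relIndex U = s ^ n := by
    have h5 : IsPGroup s (U ⧸ V.subgroupOf U) := by
      intro q
      obtain ⟨x, rfl⟩ := QuotientGroup.mk_surjective q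
      refine ⟨1, ?_⟩
      rw [pow_one, ← QuotientGroup.mk_pow, QuotientGroup.eq_one_iff, Subgroup.mem_subgroupOf]
      exact h3 x x.2
    exact IsPGroup.iff_card.1 h5
  have hco : Nat.Coprime (V.relIndex U) (T'.relIndex U) := by
    rw [hn]
    exact Nat.Coprime.pow_left n ((Nat.Prime.coprime_iff_not_dvd hp).2 hTi)
  have e1 := Subgroup.relIndex_mul_relIndex (T' ⊓ V) T' U inf_le_left hT'U
  have e2 := Subgroup.relIndex_mul_relIndex (T' ⊓ V) V U inf_le_right hVU
  have hdvd : V.relIndex U ∣ (T' ⊓ V).relIndex T' * T'.relIndex U := by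
    rw [e1, ← e2]
    exact dvd_mul_left _ _
  exact (Nat.le_of_dvd hd0 (hco.dvd_of_dvd_mul_right hdvd)).trans hd

end H78TP
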