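import Pool.Agent.H78.TP.Prm

/-!
[H78 TP RGB] The dimension of an imprimitive module (60 min).

PROOF. All blocks have the same dimension `b ≥ 1` (`ρ g` maps `Bl i` injectively into `Bl (g • i)`,
and `ρ g⁻¹` back, transitivity), and `finrank W = b * n` (independent, sum `⊤`:
`Submodule.finrank_eq...`, `DirectSum.IsInternal`). Let `g ∈ S`, and `μ` the number of `i` with
`g • i ≠ i`. Claim `b * μ ≤ 2 * s1`. Let `O` be the set of moved indices; there is `O' ⊆ O` with
`|O| ≤ 2 |O'|` which contains no nonempty `g`-invariant set (leave out one point of every cycle of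
length `≥ 2`; for example choose one representative `i₀` of each orbit of `zpowers g` on `O` and
take the complement of the set of representatives; the orbits have length `≥ 2`). Let
`W' = ⨆ i ∈ O', Bl i`, of dimension `b |O'|`. If `w ∈ W'` is fixed by `g` then its support (set of
`i` with nonzero component) is `g`-invariant and contained in `O'`, so it is empty and `w = 0`. So
`Fx ρ (zpowers g) ⊓ W' = ⊥`, and `finrank (Fx ρ (zpowers g)) + b |O'| ≤ finrank W
≤ finrank (Fx ρ (zpowers g)) + s1`. So `b |O'| ≤ s1` and `b μ ≤ 2 s1`.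
So every `g ∈ S` moves at most `m = 2 s1 / b` indices. By `prm` (`2 ≤ n`) `n ≤ 2 m`, and
`finrank W = b n ≤ 2 b m ≤ 4 s1`.
-/

namespace H78TP

open Subgroup
open scoped commutatorElement

variable {k K W : Type*} [Field k] [Group K] [AddCommGroup W] [Module k W]

private theorem rgb_key {n : ℕ} {Bl : Fin n → Submodule k W} (hind : iSupIndep Bl)
    (w : Fin n → W) (h1 : ∀ j, w j ∈ Bl j) (h2 : ∑ j, w j = 0) (j : Fin n) : w j = 0 :=
  (iSupIndep_iff_finsetSum_eq_zero_imp_eq_zero Bl).1 hind Finset.univ w
    (fun i _ => h1 i) h2 j (Finset.mem_univ j)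

private def rgbPhi {ι : Type*} [Fintype ι] (Bl : ι → Submodule k W) :
    (∀ i, Bl i) →ₗ[k] W where
  toFun v := ∑ i, (v i : W)
  map_add' v w := by
    simp only [Pi.add_apply, Submodule.coe_add, Finset.sum_add_distrib]
  map_smul' c v := by
    simp only [Pi.smul_apply, Submodule.coe_smul, RingHom.id_apply, Finset.smul_sum]

private theorem rgb_total [Module.Finite k W] {n : ℕ} (Bl : Fin n → Submodule k W)
    (htop : (⨆ i, Bl i) = ⊤) (b : ℕ) (hb : ∀ i, Module.finrank k (Bl i) = b) :
    Module.finrank k W ≤ n * b := by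
  classical
  have hsurj : Function.Surjective (rgbPhi Bl) := by
    rw [← LinearMap.range_eq_top, ← top_le_iff, ← htop]
    refine iSup_le fun i w hw => ?_
    refine ⟨Function.update 0 i ⟨w, hw⟩, ?_⟩
    show ∑ j, ((Function.update (0 : ∀ i, Bl i) i ⟨w, hw⟩ j : Bl j) : W) = w
    rw [Finset.sum_eq_single i]
    · rw [Function.update_self]
    · intro j _ hj
      rw [Function.update_of_ne hj]
      rfl
    · intro h
      exact absurd (Finset.mem_univ i) h
  refine (LinearMap.finrank_le_finrank_of_surjective hsurj).trans (le_of_eq ?_)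
  rw [Module.finrank_pi_fintype, Finset.sum_congr rfl (fun i _ => hb i), Finset.sum_const,
    Finset.card_univ, Fintype.card_fin, smul_eq_mul]

private theorem rgb_rep [Finite K] (g : K) (n : ℕ) [MulAction K (Fin n)] :
    ∃ r : Fin n → Fin n, (∀ i, ∃ t : ℕ, g ^ t • i = r i) ∧ ∀ i, r (g • i) = r i := by
  classical
  set Q := MulAction.orbitRel.Quotient (Subgroup.zpowers g) (Fin n) with hQ
  set r : Fin n → Fin n := fun i => Quotient.out (Quotient.mk'' i : Q) with hr
  refine ⟨r, fun i => ?_, fun i => ?_⟩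
  · have h1 : (Quotient.mk'' (r i) : Q) = Quotient.mk'' i := Quotient.out_eq' _
    have h2 := MulAction.orbitRel_apply.1 (Quotient.exact h1)
    obtain ⟨⟨h, hh⟩, hi⟩ := MulAction.mem_orbit_iff.1 h2
    rw [← mem_powers_iff_mem_zpowers] at hh
    obtain ⟨t, rfl⟩ := hh
    exact ⟨t, hi⟩
  · have h1 : (Quotient.mk'' (g • i) : Q) = Quotient.mk'' i := by
      refine Quotient.sound' (MulAction.orbitRel_apply.2 ?_)
      exact ⟨⟨g, Subgroup.mem_zpowers g⟩, rfl⟩
    show Quotient.out (Quotient.mk'' (g • i) : Q) = Quotient.out (Quotient.mk'' i : Q)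
    rw [h1]

private theorem rgb_one [Finite K] [Module.Finite k W] (ρ : Representation k K W)
    (n : ℕ) [MulAction K (Fin n)] (Bl : Fin n → Submodule k W)
    (hind : iSupIndep Bl)
    (hBl : ∀ (g : K) (i : Fin n) (w : W), w ∈ Bl i → ρ g w ∈ Bl (g • i))
    (b : ℕ) (hb : ∀ i, Module.finrank k (Bl i) = b) (g : K) (s1 : ℕ)
    (hg : Module.finrank k W ≤ Module.finrank k (Fx ρ (Subgroup.zpowers g)) + s1) :
    Nat.card {i : Fin n // g • i ≠ i} * b ≤ 2 * s1 := by
  classical
  obtain ⟨r, hr1, hr2⟩ := rgb_rep g n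
  have hr3 : ∀ i, r (r i) = r i := by
    intro i
    obtain ⟨t, ht⟩ := hr1 i
    have h1 : ∀ (t : ℕ) (i : Fin n), r (g ^ t • i) = r i := by
      intro t
      induction t with
      | zero => intro i; rw [pow_zero, one_smul]
      | succ t ih => intro i; rw [pow_succ, mul_smul, ih, hr2]
    have h2 := h1 t i
    rwa [ht] at h2
  set O' : Finset (Fin n) := Finset.univ.filter (fun i => g • i ≠ i ∧ r i ≠ i) with hO'
  set R' : Finset (Fin n) := Finset.univ.filter (fun i => g • i ≠ i ∧ r i = i) with hR'
  have hR : R'.card ≤ O'.card := by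
    refine Finset.card_le_card_of_injOn (fun i => g • i) ?_ ?_
    · intro i hi
      rw [Finset.mem_coe, hR', Finset.mem_filter] at hi
      rw [Finset.mem_coe, hO', Finset.mem_filter]
      obtain ⟨-, h1, h2⟩ := hi
      refine ⟨Finset.mem_univ _, fun h => h1 (smul_left_cancel g h), ?_⟩
      rw [hr2, h2]
      exact h1.symm
    · intro i _ j _ h
      exact smul_left_cancel g h
  have hO : Nat.card {i : Fin n // g • i ≠ i} ≤ 2 * O'.card := by
    have h1 : Nat.card {i : Fin n // g • i ≠ i} ≤ O'.card + R'.card := by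
      rw [Nat.card_eq_fintype_card, Fintype.card_subtype]
      refine le_trans (Finset.card_le_card ?_) (Finset.card_union_le O' R')
      intro i hi
      rw [Finset.mem_filter] at hi
      rw [Finset.mem_union, hO', hR', Finset.mem_filter, Finset.mem_filter]
      by_cases h : r i = i
      · exact Or.inr ⟨Finset.mem_univ _, hi.2, h⟩
      · exact Or.inl ⟨Finset.mem_univ _, hi.2, h⟩
    omega
  -- the injective map
  set Ψ : ((∀ i : O', Bl i.1) × Fx ρ (Subgroup.zpowers g)) →ₗ[k] W :=
    (rgbPhi (fun i : O' => Bl i.1)).comp (LinearMap.fst k _ _) -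
      (Fx ρ (Subgroup.zpowers g)).subtype.comp (LinearMap.snd k _ _) with hΨ
  have hinj : Function.Injective Ψ := by
    rw [← LinearMap.ker_eq_bot, LinearMap.ker_eq_bot']
    rintro ⟨v, w⟩ hvw
    have h1 : ∑ i : O', (v i : W) = (w : W) := by
      have h2 : ∑ i : O', (v i : W) - (w : W) = 0 := hvw
      exact sub_eq_zero.1 h2
    set u : Fin n → W := fun i => if h : i ∈ O' then (v ⟨i, h⟩ : W) else 0 with hu
    have huB : ∀ i, u i ∈ Bl i := by
      intro i
      by_cases h : i ∈ O'
      · rw [hu]
        simp only [dif_pos h]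
        exact (v ⟨i, h⟩).2
      · rw [hu]
        simp only [dif_neg h]
        exact Submodule.zero_mem _
    have husum : ∑ i, u i = (w : W) := by
      rw [← h1]
      rw [← Finset.sum_subset (Finset.subset_univ O') (fun i _ hi => by
        rw [hu]
        simp only [dif_neg hi]), ← Finset.sum_coe_sort]
      refine Finset.sum_congr rfl fun i _ => ?_
      rw [hu]
      simp only [dif_pos i.2]
    have hgw : ρ g (w : W) = (w : W) := w.2 g (Subgroup.mem_zpowers g)
    have hsum2 : ∑ i, ρ g (u (g⁻¹ • i)) = (w : W) := by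
      have h3 := Equiv.sum_comp (MulAction.toPerm (g⁻¹ : K) : Equiv.Perm (Fin n)) u
      have h4 : ∑ i, u (g⁻¹ • i) = (w : W) := h3.trans husum
      rw [← map_sum, h4]
      exact hgw
    have hug : ∀ i, u i = ρ g (u (g⁻¹ • i)) := by
      intro i
      have h3 := rgb_key hind (fun i => u i - ρ g (u (g⁻¹ • i))) (fun j => by
        refine Submodule.sub_mem _ (huB j) ?_
        have h4 := hBl g (g⁻¹ • j) _ (huB (g⁻¹ • j))
        rwa [smul_inv_smul] at h4) (by
        rw [Finset.sum_sub_distrib, husum, hsum2, sub_self]) i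
      exact sub_eq_zero.1 h3
    have hρ : ∀ x : W, ρ g x = 0 → x = 0 := by
      intro x hx
      have h4 : ρ g⁻¹ (ρ g x) = x := by
        rw [← Module.End.mul_apply, ← map_mul, inv_mul_cancel, map_one, Module.End.one_apply]
      rw [← h4, hx, map_zero]
    have hstep : ∀ (t : ℕ) (i : Fin n), u (g ^ t • i) = 0 → u i = 0 := by
      intro t
      induction t with
      | zero => intro i h; rwa [pow_zero, one_smul] at h
      | succ t ih =>
        intro i h
        rw [pow_succ, mul_smul] at h
        have h5 := ih _ h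
        rw [hug, inv_smul_smul] at h5
        exact hρ _ h5
    have hu0 : ∀ i, u i = 0 := by
      intro i
      obtain ⟨t, ht⟩ := hr1 i
      apply hstep t
      rw [ht, hu]
      have h6 : r i ∉ O' := by
        rw [hO', Finset.mem_filter]
        rintro ⟨-, -, h7⟩
        exact h7 (hr3 i)
      simp only [dif_neg h6]
    have hv : v = 0 := by
      funext i
      apply Subtype.ext
      have h7 := hu0 i.1
      rw [hu] at h7
      simp only [dif_pos i.2] at h7
      exact h7
    have hw : w = 0 := by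
      apply Subtype.ext
      rw [← husum]
      exact Finset.sum_eq_zero fun i _ => hu0 i
    rw [hv, hw]
    rfl
  have hfr := LinearMap.finrank_le_finrank_of_injective hinj
  rw [Module.finrank_prod, Module.finrank_pi_fintype,
    Finset.sum_congr rfl (fun (i : O') _ => hb i.1), Finset.sum_const, Finset.card_univ,
    Fintype.card_coe, smul_eq_mul] at hfr
  have h8 : O'.card * b ≤ s1 := by omega
  calc Nat.card {i : Fin n // g • i ≠ i} * b ≤ (2 * O'.card) * b := Nat.mul_le_mul_right _ hO
    _ = 2 * (O'.card * b) := by ring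
    _ ≤ 2 * s1 := Nat.mul_le_mul_left _ h8

theorem rgB [Finite K] [Module.Finite k W] (ρ : Representation k K W)
    (hs : Group.IsSolvable K) (n : ℕ) [MulAction K (Fin n)] (Bl : Fin n → Submodule k W)
    (hind : iSupIndep Bl) (htop : (⨆ i, Bl i) = ⊤)
    (hBl : ∀ (g : K) (i : Fin n) (w : W), w ∈ Bl i → ρ g w ∈ Bl (g • i))
    (htr : MulAction.IsPretransitive K (Fin n)) (h2 : 2 ≤ n) (hne : ∀ i, Bl i ≠ ⊥)
    (S : Set K) (hS : Subgroup.closure S = ⊤) (s1 : ℕ)
    (hg : ∀ g ∈ S, Module.finrank k W ≤ Module.finrank k (Fx ρ (Subgroup.zpowers g)) + s1) :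
    Module.finrank k W ≤ 4 * s1 := by
  classical
  have hle : ∀ i j, Module.finrank k (Bl i) ≤ Module.finrank k (Bl j) := by
    intro i j
    obtain ⟨g, hgij⟩ := MulAction.exists_smul_eq K i j
    have hmem : ∀ w ∈ Bl i, ρ g w ∈ Bl j := by
      intro w hw
      rw [← hgij]
      exact hBl g i w hw
    refine LinearMap.finrank_le_finrank_of_injective (f := (ρ g).restrict hmem) ?_
    intro a c hac
    have h2 : ρ g a.1 = ρ g c.1 := congrArg Subtype.val hac
    have hinv : ∀ w, ρ g⁻¹ (ρ g w) = w := by
      intro w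
      rw [← Module.End.mul_apply, ← map_mul, inv_mul_cancel, map_one, Module.End.one_apply]
    have h3 := congrArg (ρ g⁻¹) h2
    rw [hinv, hinv] at h3
    exact Subtype.ext h3
  set i0 : Fin n := ⟨0, by omega⟩ with hi0
  set b := Module.finrank k (Bl i0) with hb
  have hbe : ∀ i, Module.finrank k (Bl i) = b := fun i => le_antisymm (hle i i0) (hle i0 i)
  have hb0 : 0 < b := by
    rw [Nat.pos_iff_ne_zero]
    intro h0
    exact hne i0 (Submodule.finrank_eq_zero.1 h0)
  have h1 := rgb_total Bl htop b hbe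
  have h3 : ∀ g ∈ S, Nat.card {i : Fin n // g • i ≠ i} ≤ 2 * s1 / b := by
    intro g hgS
    rw [Nat.le_div_iff_mul_le hb0]
    exact rgb_one ρ n Bl hind hBl b hbe g s1 (hg g hgS)
  have h4 := prm (Ω := Fin n) hs S hS (2 * s1 / b) h3 (by
    rw [Nat.card_eq_fintype_card, Fintype.card_fin]
    exact h2)
  rw [Nat.card_eq_fintype_card, Fintype.card_fin] at h4
  calc Module.finrank k W ≤ n * b := h1
    _ ≤ (2 * (2 * s1 / b)) * b := Nat.mul_le_mul_right _ h4
    _ = 2 * (2 * s1 / b * b) := by ring
    _ ≤ 2 * (2 * s1) := Nat.mul_le_mul_left _ (Nat.div_mul_le_self _ _)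
    _ = 4 * s1 := by ring

end H78TP
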