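import Pool.Agent.H78.TP.Base

/-!
[H78 TP RGC] The case that all abelian normal subgroups act freely (60 min).

PROOF. Write `f x = finrank W - finrank (Fx ρ (zpowers x))` (codimension of the fixed space of
`ρ x`). `f (x y) ≤ f x + f y` (the fixed space of `x y` contains `Fx x ⊓ Fx y`), `f (x y x⁻¹) = f y`,
`f x⁻¹ = f x`. `f g ≤ s1` for `g ∈ S`. If `a` is a nontrivial element of an abelian normal subgroup
then `Fx ρ (zpowers a) = ⊥` (`hfree`), so `f a = finrank W`.
Let `A₀` be a maximal (of maximal order) abelian normal subgroup of `K`.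
(a) `A₀ = K` (`⊤`): some `g ∈ S` is `≠ 1` (`hK`), so `finrank W = f g ≤ s1`.
(b) `A₀ ≠ ⊤` and some `g ∈ S` does not centralise `A₀`: `a = ⁅g, e⁆ = g (e g⁻¹ e⁻¹) ≠ 1` with
`e ∈ A₀`, `a ∈ A₀`, so `finrank W = f a ≤ 2 s1`.
(c) `A₀ ≠ ⊤` and all `g ∈ S`, hence `K`, centralise `A₀`. The group `K / A₀` is soluble and
nontrivial: it has a nontrivial abelian normal subgroup `N / A₀` (the last nontrivial derived
subgroup), `N` normal in `K`, `A₀ < N`, `⁅N, N⁆ ≤ A₀`, `A₀` central in `K`. `N` is not abelian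
(maximality of `A₀`). `Z(N) = N ⊓ centralizer N` is an abelian normal subgroup containing `A₀`, so
it equals `A₀`.
(c1) There are `g ∈ S`, `e ∈ N` with `c = ⁅g, e⁆ ∉ A₀`. `c ∈ N`, `f c ≤ 2 s1`, `c ∉ Z(N)`, so there
is `e' ∈ N` with `a = ⁅c, e'⁆ ≠ 1`; `a ∈ A₀`, `a = c (e' c⁻¹ e'⁻¹)`, so
`finrank W = f a ≤ 2 f c ≤ 4 s1`.
(c2) `⁅g, e⁆ ∈ A₀` for all `g ∈ S`, `e ∈ N`. As `N` is not abelian, `N` is not central in
`K = closure S`, so there are `g ∈ S`, `e ∈ N` with `a = ⁅g, e⁆ ≠ 1`, `a ∈ A₀`: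
`finrank W = f a ≤ 2 s1`.
-/

namespace H78TP

open Subgroup
open scoped commutatorElement

variable {k K W : Type*} [Field k] [Group K] [AddCommGroup W] [Module k W]

/-- the fixed space of one element -/
private def rgE (ρ : Representation k K W) (g : K) : Submodule k W where
  carrier := {w | ρ g w = w}
  add_mem' := by
    intro a b ha hb
    show ρ g (a + b) = a + b
    rw [map_add, (ha : ρ g a = a), (hb : ρ g b = b)]
  zero_mem' := map_zero _
  smul_mem' := by
    intro c a ha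
    show ρ g (c • a) = c • a
    rw [map_smul, (ha : ρ g a = a)]

private theorem rgE_mul [Module.Finite k W] (ρ : Representation k K W) {x y : K} {n m : ℕ}
    (hx : Module.finrank k W ≤ Module.finrank k (rgE ρ x) + n)
    (hy : Module.finrank k W ≤ Module.finrank k (rgE ρ y) + m) :
    Module.finrank k W ≤ Module.finrank k (rgE ρ (x * y)) + (n + m) := by
  have h1 := Submodule.finrank_sup_add_finrank_inf_eq (rgE ρ x) (rgE ρ y)
  have h2 := Submodule.finrank_le (rgE ρ x ⊔ rgE ρ y)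
  have h3 : rgE ρ x ⊓ rgE ρ y ≤ rgE ρ (x * y) := by
    rintro w ⟨hw1, hw2⟩
    show ρ (x * y) w = w
    rw [map_mul, Module.End.mul_apply, (hw2 : ρ y w = w), (hw1 : ρ x w = w)]
  have h4 := Submodule.finrank_mono h3
  omega

private theorem rgE_inv [Module.Finite k W] (ρ : Representation k K W) {x : K} {n : ℕ}
    (hx : Module.finrank k W ≤ Module.finrank k (rgE ρ x) + n) :
    Module.finrank k W ≤ Module.finrank k (rgE ρ x⁻¹) + n := by
  have h3 : rgE ρ x ≤ rgE ρ x⁻¹ := by
    intro w hw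
    show ρ x⁻¹ w = w
    have h4 : ρ x⁻¹ (ρ x w) = w := by
      rw [← Module.End.mul_apply, ← map_mul, inv_mul_cancel, map_one, Module.End.one_apply]
    rwa [(hw : ρ x w = w)] at h4
  have h4 := Submodule.finrank_mono h3
  omega

private theorem rgE_conj [Module.Finite k W] (ρ : Representation k K W) {y : K} {n : ℕ} (x : K)
    (hy : Module.finrank k W ≤ Module.finrank k (rgE ρ y) + n) :
    Module.finrank k W ≤ Module.finrank k (rgE ρ (x * y * x⁻¹)) + n := by
  have hinv : ∀ w, ρ x⁻¹ (ρ x w) = w := by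
    intro w
    rw [← Module.End.mul_apply, ← map_mul, inv_mul_cancel, map_one, Module.End.one_apply]
  have hmem : ∀ w ∈ rgE ρ y, ρ x w ∈ rgE ρ (x * y * x⁻¹) := by
    intro w hw
    show ρ (x * y * x⁻¹) (ρ x w) = ρ x w
    rw [map_mul, map_mul, Module.End.mul_apply, Module.End.mul_apply, hinv,
      (hw : ρ y w = w)]
  have h1 : Module.finrank k (rgE ρ y) ≤ Module.finrank k (rgE ρ (x * y * x⁻¹)) := by
    refine LinearMap.finrank_le_finrank_of_injective (f := (ρ x).restrict hmem) ?_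
    intro a b hab
    have h2 : ρ x a.1 = ρ x b.1 := congrArg Subtype.val hab
    have h3 := congrArg (ρ x⁻¹) h2
    rw [hinv, hinv] at h3
    exact Subtype.ext h3
  omega

private theorem rgE_comm [Module.Finite k W] (ρ : Representation k K W) {g : K} {n : ℕ} (e : K)
    (hg : Module.finrank k W ≤ Module.finrank k (rgE ρ g) + n) :
    Module.finrank k W ≤ Module.finrank k (rgE ρ ⁅g, e⁆) + (n + n) := by
  have h1 := rgE_mul ρ hg (rgE_conj ρ e (rgE_inv ρ hg))
  have h2 : g * (e * g⁻¹ * e⁻¹) = ⁅g, e⁆ := by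
    rw [commutatorElement_def]
    group
  rwa [h2] at h1

theorem rgC [Finite K] [Module.Finite k W] (ρ : Representation k K W)
    (hs : Group.IsSolvable K)
    (hfree : ∀ A : Subgroup K, A.Normal → (∀ x ∈ A, ∀ y ∈ A, x * y = y * x) →
      ∀ a ∈ A, a ≠ 1 → ∀ w, ρ a w = w → w = 0) (hK : ∃ g : K, g ≠ 1)
    (S : Set K) (hS : Subgroup.closure S = ⊤) (s1 : ℕ)
    (hg : ∀ g ∈ S, Module.finrank k W ≤ Module.finrank k (Fx ρ (Subgroup.zpowers g)) + s1) :
    Module.finrank k W ≤ 4 * s1 := by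
  classical
  have hE : ∀ g ∈ S, Module.finrank k W ≤ Module.finrank k (rgE ρ g) + s1 := by
    intro g hgS
    have h1 : Fx ρ (Subgroup.zpowers g) ≤ rgE ρ g := fun w hw =>
      hw g (Subgroup.mem_zpowers g)
    have h2 := Submodule.finrank_mono h1
    have h3 := hg g hgS
    omega
  have hfr : ∀ (A : Subgroup K), A.Normal → (∀ x ∈ A, ∀ y ∈ A, x * y = y * x) → ∀ a ∈ A,
      a ≠ 1 → ∀ n, Module.finrank k W ≤ Module.finrank k (rgE ρ a) + n →
      Module.finrank k W ≤ n := by
    intro A hA hab a ha ha1 n hn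
    have h1 : rgE ρ a = ⊥ := by
      rw [eq_bot_iff]
      intro w hw
      rw [Submodule.mem_bot]
      exact hfree A hA hab a ha ha1 w hw
    rw [h1, finrank_bot, zero_add] at hn
    exact hn
  obtain ⟨A₀, hA₀, hmax⟩ := (Set.toFinite {A : Subgroup K | A.Normal ∧
    ∀ x ∈ A, ∀ y ∈ A, x * y = y * x}).exists_maximal ⟨⊥, by
      refine ⟨Subgroup.normal_bot, fun x hx y hy => ?_⟩
      rw [Subgroup.mem_bot] at hx hy
      rw [hx, hy]⟩
  obtain ⟨hAn, hAab⟩ := hA₀
  by_cases hb : ∃ g ∈ S, ∃ e ∈ A₀, ⁅g, e⁆ ≠ 1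
  · obtain ⟨g, hgS, e, he, hne⟩ := hb
    have h1 : ⁅g, e⁆ ∈ A₀ := by
      rw [commutatorElement_def]
      exact A₀.mul_mem (hAn.conj_mem e he g) (A₀.inv_mem he)
    have h2 := hfr A₀ hAn hAab _ h1 hne _ (rgE_comm ρ e (hE g hgS))
    omega
  push Not at hb
  -- `A₀` is central
  have hcen : ∀ g : K, ∀ e ∈ A₀, g * e = e * g := by
    intro g e he
    have h1 : Subgroup.closure S ≤ Subgroup.centralizer {e} := by
      rw [Subgroup.closure_le]
      intro g hgS
      rw [SetLike.mem_coe, Subgroup.mem_centralizer_iff]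
      intro h hh
      rw [Set.mem_singleton_iff] at hh
      rw [hh]
      exact (commutatorElement_eq_one_iff_mul_comm.1 (hb g hgS e he)).symm
    rw [hS] at h1
    exact (Subgroup.mem_centralizer_iff.1 (h1 (Subgroup.mem_top g)) e rfl).symm
  by_cases hA : A₀ = ⊤
  · obtain ⟨g, hgS, hg1⟩ : ∃ g ∈ S, g ≠ 1 := by
      by_contra h
      push Not at h
      obtain ⟨g, hg1⟩ := hK
      apply hg1
      have h1 : Subgroup.closure S ≤ ⊥ := by
        rw [Subgroup.closure_le]
        intro g hgS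
        exact h g hgS
      rw [hS] at h1
      exact Subgroup.mem_bot.1 (h1 (Subgroup.mem_top g))
    have h2 := hfr A₀ hAn hAab g (by rw [hA]; exact Subgroup.mem_top g) hg1 _ (hE g hgS)
    omega
  obtain ⟨i, hi, hi'⟩ : ∃ i, ¬ derivedSeries K i ≤ A₀ ∧ derivedSeries K (i + 1) ≤ A₀ := by
    by_contra h
    push Not at h
    obtain ⟨n, hn⟩ := hs.solvable
    have h1 : ¬ derivedSeries K 0 ≤ A₀ := by
      rw [derivedSeries_zero]
      exact fun h2 => hA (top_le_iff.1 h2)
    have h2 : ¬ derivedSeries K n ≤ A₀ := Nat.rec h1 (fun j hj => h j hj) n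
    rw [hn] at h2
    exact h2 bot_le
  set N := derivedSeries K i with hN
  have hNn : N.Normal := derivedSeries_normal K i
  have hA2 : ∀ x ∈ N, ∀ y ∈ N, ⁅x, y⁆ ∈ A₀ := by
    intro x hx y hy
    apply hi'
    rw [derivedSeries_succ]
    exact Subgroup.commutator_mem_commutator hx hy
  have hZ : ∀ c ∈ N, (∀ e ∈ N, c * e = e * c) → c ∈ A₀ := by
    set Z : Subgroup K := N ⊓ Subgroup.centralizer (N : Set K) with hZdef
    have hcn : (Subgroup.centralizer (N : Set K)).Normal := by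
      refine ⟨fun c hc g => ?_⟩
      rw [Subgroup.mem_centralizer_iff] at hc ⊢
      intro h hh
      have h1 := hc (g⁻¹ * h * g) (by
        have := hNn.conj_mem h hh g⁻¹
        rwa [inv_inv] at this)
      have h2 : h * (g * c * g⁻¹) = g * ((g⁻¹ * h * g) * c) * g⁻¹ := by group
      rw [h2, h1]
      group
    have hZn : Z.Normal := by
      rw [hZdef]
      infer_instance
    have hAc : ∀ X : Subgroup K, A₀ ≤ Subgroup.centralizer (X : Set K) := by
      intro X e he
      rw [Subgroup.mem_centralizer_iff]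
      exact fun x _ => hcen x e he
    have hZZ : Z ≤ Subgroup.centralizer (Z : Set K) := by
      intro c hc
      rw [Subgroup.mem_centralizer_iff]
      intro x hx
      exact Subgroup.mem_centralizer_iff.1 hc.2 x hx.1
    have hM : Z ⊔ A₀ ≤ Subgroup.centralizer ((Z ⊔ A₀ : Subgroup K) : Set K) := by
      refine sup_le ?_ (hAc _)
      rw [Subgroup.le_centralizer_iff]
      exact sup_le hZZ (hAc Z)
    have hmem : Z ⊔ A₀ ∈ {A : Subgroup K | A.Normal ∧ ∀ x ∈ A, ∀ y ∈ A, x * y = y * x} := by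
      refine ⟨inferInstance, fun x hx y hy => ?_⟩
      exact (Subgroup.mem_centralizer_iff.1 (hM hx) y hy).symm
    have hle := hmax hmem le_sup_right
    intro c hc hce
    apply hle
    apply Subgroup.mem_sup_left
    refine ⟨hc, Subgroup.mem_centralizer_iff.2 fun e he => (hce e he).symm⟩
  by_cases hc1 : ∃ g ∈ S, ∃ e ∈ N, ⁅g, e⁆ ∉ A₀
  · obtain ⟨g, hgS, e, he, hne⟩ := hc1
    have hcN : ⁅g, e⁆ ∈ N := by
      rw [commutatorElement_def]
      exact N.mul_mem (hNn.conj_mem e he g) (N.inv_mem he)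
    obtain ⟨e', he', hce'⟩ : ∃ e' ∈ N, ⁅g, e⁆ * e' ≠ e' * ⁅g, e⁆ := by
      by_contra h
      push Not at h
      exact hne (hZ _ hcN h)
    have ha1 : ⁅⁅g, e⁆, e'⁆ ≠ 1 := fun h => hce' (commutatorElement_eq_one_iff_mul_comm.1 h)
    have h2 := hfr A₀ hAn hAab _ (hA2 _ hcN _ he') ha1 _
      (rgE_comm ρ e' (rgE_comm ρ e (hE g hgS)))
    omega
  · push Not at hc1
    obtain ⟨g, hgS, e, he, hne⟩ : ∃ g ∈ S, ∃ e ∈ N, ⁅g, e⁆ ≠ 1 := by
      by_contra h
      push Not at h
      apply hi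
      intro e he
      apply hZ e he
      intro e' _
      have h1 : Subgroup.closure S ≤ Subgroup.centralizer {e} := by
        rw [Subgroup.closure_le]
        intro g hgS
        rw [SetLike.mem_coe, Subgroup.mem_centralizer_iff]
        intro h' hh
        rw [Set.mem_singleton_iff] at hh
        rw [hh]
        exact (commutatorElement_eq_one_iff_mul_comm.1 (h g hgS e he)).symm
      rw [hS] at h1
      exact Subgroup.mem_centralizer_iff.1 (h1 (Subgroup.mem_top e')) e rfl
    have h2 := hfr A₀ hAn hAab _ (hc1 g hgS e he) hne _ (rgE_comm ρ e (hE g hgS))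
    omega

end H78TP
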