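import Pool.Agent.H78.TP.RgA
import Pool.Agent.H78.TP.RgB
import Pool.Agent.H78.TP.RgC

/-!
[H78 TP RG2] Irreducible groups generated by elements of small rank (45 min).

PROOF. Suppose that `ρ` is not trivial. Let `K' = K ⧸ ρ.ker` (or the range of `ρ`) with the induced
representation `ρ'`: injective, irreducible, `K'` is finite and soluble, generated by the images
of `S`, the fixed space of the image of `g` is the same. `K'` is nontrivial. If all abelian normal
subgroups of `K'` act freely then `rgC`. Otherwise there are an abelian normal subgroup `A` of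
`K'`, `a₀ ∈ A`, `a₀ ≠ 1` and `w₀ ≠ 0` with `ρ' a₀ w₀ = w₀`; `hord` holds by `irr_ord`; `rgA` gives
blocks and `rgB` the bound.
-/

namespace H78TP

open Subgroup
open scoped commutatorElement

variable {k K W : Type*} [Field k] [Group K] [AddCommGroup W] [Module k W]

theorem rg2 [Finite K] [Module.Finite k W] (l : ℕ) [Fact l.Prime] [CharP k l]
    (ρ : Representation k K W) (hs : Group.IsSolvable K)
    (hirr : ∀ S : Submodule k W, (∀ g, ∀ w ∈ S, ρ g w ∈ S) → S = ⊥ ∨ S = ⊤)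
    (S : Set K) (hS : Subgroup.closure S = ⊤) (s1 : ℕ)
    (hg : ∀ g ∈ S, Module.finrank k W ≤ Module.finrank k (Fx ρ (Subgroup.zpowers g)) + s1) :
    (∀ g, ρ g = 1) ∨ Module.finrank k W ≤ 4 * s1 := by
  by_cases htriv : ∀ g, ρ g = 1
  · exact Or.inl htriv
  right
  push Not at htriv
  obtain ⟨g0, hg0⟩ := htriv
  let N : Subgroup K := MonoidHom.ker ρ
  have hN : ∀ g, g ∈ N ↔ ρ g = 1 := fun g => MonoidHom.mem_ker
  let ρ' : Representation k (K ⧸ N) W := QuotientGroup.lift N ρ le_rfl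
  have hρ' : ∀ g : K, ρ' (QuotientGroup.mk' N g) = ρ g := fun g => rfl
  have hsurj : Function.Surjective (QuotientGroup.mk' N) := QuotientGroup.mk'_surjective N
  have hinj : Function.Injective ρ' := by
    intro x y hxy
    obtain ⟨g, rfl⟩ := hsurj x
    obtain ⟨h, rfl⟩ := hsurj y
    rw [hρ', hρ'] at hxy
    have h1 : g⁻¹ * h ∈ N := by
      rw [hN, map_mul, ← hxy, ← map_mul, inv_mul_cancel, map_one]
    exact QuotientGroup.eq.2 h1
  have hirr' : ∀ S : Submodule k W, (∀ g, ∀ w ∈ S, ρ' g w ∈ S) → S = ⊥ ∨ S = ⊤ := by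
    intro X hX
    exact hirr X fun g w hw => hX (QuotientGroup.mk' N g) w hw
  have hs' : Group.IsSolvable (K ⧸ N) := Group.isSolvable_of_surjective hsurj
  have hS' : Subgroup.closure ((QuotientGroup.mk' N) '' S) = ⊤ := by
    rw [← MonoidHom.map_closure, hS, ← MonoidHom.range_eq_map, MonoidHom.range_eq_top]
    exact hsurj
  have hg' : ∀ g ∈ (QuotientGroup.mk' N) '' S, Module.finrank k W ≤
      Module.finrank k (Fx ρ' (Subgroup.zpowers g)) + s1 := by
    rintro - ⟨g, hgS, rfl⟩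
    have h1 : Fx ρ' (Subgroup.zpowers (QuotientGroup.mk' N g)) = Fx ρ (Subgroup.zpowers g) := by
      ext u
      rw [mem_Fx, mem_Fx, ← MonoidHom.map_zpowers]
      constructor
      · intro h x hx
        exact h (QuotientGroup.mk' N x) ⟨x, hx, rfl⟩
      · rintro h - ⟨x, hx, rfl⟩
        exact h x hx
    rw [h1]
    exact hg g hgS
  have hK : ∃ g : K ⧸ N, g ≠ 1 := by
    refine ⟨QuotientGroup.mk' N g0, fun h => hg0 ?_⟩
    rw [← hρ', h, map_one]
  by_cases hfree : ∀ A : Subgroup (K ⧸ N), A.Normal → (∀ x ∈ A, ∀ y ∈ A, x * y = y * x) →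
      ∀ a ∈ A, a ≠ 1 → ∀ w, ρ' a w = w → w = 0
  · exact rgC ρ' hs' hfree hK _ hS' s1 hg'
  · push Not at hfree
    obtain ⟨A, hA, hAc, a₀, ha₀, ha₀1, w₀, h₀, hw₀⟩ := hfree
    obtain ⟨n, act, Bl, b1, b2, b3, b4, b5, b6⟩ := rgA ρ' hinj hirr' A hA hAc
      (irr_ord l ρ' hinj hirr' A hA hAc) a₀ ha₀ ha₀1 w₀ hw₀ h₀
    exact rgB ρ' hs' n Bl b1 b2 b3 b4 b5 b6 _ hS' s1 hg'

end H78TP
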