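import Pool.Agent.H78.TP.Rg2
import Pool.Agent.H78.TP.ZasF

/-!
[H78 TP RG3] Groups generated by elements of small rank, the general module (45 min).

PROOF. Strong induction on `finrank W` (for all `W`). If `W` is zero, clear. If there is an
invariant submodule `V ≠ ⊥, ⊤`: the hypothesis `hg` holds for the restriction to `V` and for
`W ⧸ V` (for `V`: `finrank V - finrank (V ⊓ Fx) ≤ finrank W - finrank Fx`, since
`V / (V ⊓ Fx)` embeds in `W / Fx`; for `W ⧸ V`: the image of `Fx` is fixed, and
`(W ⧸ V) / image` is a quotient of `W / Fx`). So `g` acts trivially on `V` and `W ⧸ V` by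
induction and `ρ g = 1` by `uni2`. If `W` is irreducible: by `rg2` `ρ` is trivial or
`finrank W ≤ 4 s1`, and then `zasF`.
-/

universe v

namespace H78TP

open Subgroup
open scoped commutatorElement

private theorem rg3_surj {k W W' : Type*} [Field k] [AddCommGroup W] [Module k W]
    [AddCommGroup W'] [Module k W'] [Module.Finite k W] (f : W →ₗ[k] W')
    (hf : Function.Surjective f) (F : Submodule k W) (F' : Submodule k W')
    (h : F ≤ F'.comap f) (s : ℕ) (hs : Module.finrank k W ≤ Module.finrank k F + s) :
    Module.finrank k W' ≤ Module.finrank k F' + s := by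
  have hfin : Module.Finite k W' := Module.Finite.of_surjective f hf
  have h1 := Submodule.finrank_quotient_add_finrank F'
  have h2 := LinearMap.finrank_range_add_finrank_ker (F'.mkQ.comp f)
  have h3 : LinearMap.range (F'.mkQ.comp f) = ⊤ :=
    LinearMap.range_eq_top.2 ((Submodule.mkQ_surjective F').comp hf)
  have h4 : F ≤ LinearMap.ker (F'.mkQ.comp f) := by
    intro x hx
    rw [LinearMap.mem_ker, LinearMap.comp_apply, Submodule.mkQ_apply,
      Submodule.Quotient.mk_eq_zero]
    exact h hx
  have h5 := Submodule.finrank_mono h4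
  rw [h3, finrank_top] at h2
  omega

private theorem rg3_inj {k V W : Type*} [Field k] [AddCommGroup V] [Module k V]
    [AddCommGroup W] [Module k W] [Module.Finite k W] [Module.Finite k V] (f : V →ₗ[k] W)
    (F : Submodule k W) (F' : Submodule k V) (h : F.comap f ≤ F') (s : ℕ)
    (hs : Module.finrank k W ≤ Module.finrank k F + s) :
    Module.finrank k V ≤ Module.finrank k F' + s := by
  have h1 := Submodule.finrank_quotient_add_finrank F
  have h2 := LinearMap.finrank_range_add_finrank_ker (F.mkQ.comp f)
  have h3 : LinearMap.ker (F.mkQ.comp f) ≤ F' := by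
    intro x hx
    apply h
    rw [LinearMap.mem_ker, LinearMap.comp_apply, Submodule.mkQ_apply,
      Submodule.Quotient.mk_eq_zero] at hx
    exact hx
  have h4 := Submodule.finrank_mono h3
  have h5 := Submodule.finrank_le (LinearMap.range (F.mkQ.comp f))
  omega

private theorem rg3_aux (l : ℕ) [Fact l.Prime] {K : Type*} [Group K] [Finite K]
    (hs : Group.IsSolvable K) (S : Set K) (hS : Subgroup.closure S = ⊤) (s1 : ℕ) (n : ℕ) :
    ∀ (W : Type v) [AddCommGroup W] [Module (ZMod l) W] [Module.Finite (ZMod l) W]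
      (ρ : Representation (ZMod l) K W), Module.finrank (ZMod l) W ≤ n →
      (∀ g ∈ S, Module.finrank (ZMod l) W ≤
        Module.finrank (ZMod l) (Fx ρ (Subgroup.zpowers g)) + s1) →
      ∀ g ∈ dS (⊤ : Subgroup K) (zas (4 * s1)), ¬ l ∣ orderOf g → ρ g = 1 := by
  induction n with
  | zero =>
    intro W _ _ _ ρ hn _ g _ _
    have h1 : Subsingleton W := Module.finrank_zero_iff.1 (Nat.le_zero.1 hn)
    ext w
    exact Subsingleton.elim _ _
  | succ n ih =>
    intro W _ _ _ ρ hn hg g hgd hlg
    by_cases hirr : ∀ V : Submodule (ZMod l) W, (∀ g, ∀ w ∈ V, ρ g w ∈ V) → V = ⊥ ∨ V = ⊤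
    · rcases rg2 l ρ hs hirr S hS s1 hg with h1 | h1
      · exact h1 g
      · exact zasF l ρ hs (4 * s1) h1 g hgd hlg
    · push Not at hirr
      obtain ⟨V, hV, hVb, hVt⟩ := hirr
      have hlt : Module.finrank (ZMod l) V < Module.finrank (ZMod l) W :=
        Submodule.finrank_lt hVt
      have hpos : 0 < Module.finrank (ZMod l) V := by
        rw [Nat.pos_iff_ne_zero]
        intro h0
        exact hVb (Submodule.finrank_eq_zero.1 h0)
      have hadd := Submodule.finrank_quotient_add_finrank V
      have hle : ∀ g, V ≤ V.comap (ρ g) := fun g w hw => hV g w hw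
      have hA := ih V (ρ.subrepresentation V hle) (by omega) (fun x hx =>
        rg3_inj V.subtype (Fx ρ (Subgroup.zpowers x)) _ (by
          intro v hv
          rw [mem_Fx]
          intro y hy
          apply Subtype.ext
          exact (mem_Fx.1 hv) y hy) s1 (hg x hx)) g hgd hlg
      have hB := ih (W ⧸ V) (ρ.quotient V hle) (by omega) (fun x hx =>
        rg3_surj V.mkQ (Submodule.mkQ_surjective V) (Fx ρ (Subgroup.zpowers x)) _ (by
          intro v hv
          show V.mkQ v ∈ Fx (ρ.quotient V hle) (Subgroup.zpowers x)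
          rw [mem_Fx]
          intro y hy
          show V.mkQ (ρ y v) = V.mkQ v
          rw [(mem_Fx.1 hv) y hy]) s1 (hg x hx)) g hgd hlg
      refine uni2 ρ V g ?_ ?_ ?_
      · intro v hv
        have h2 := LinearMap.congr_fun hA ⟨v, hv⟩
        exact congrArg Subtype.val h2
      · intro v
        have h2 := LinearMap.congr_fun hB (V.mkQ v)
        have h3 : V.mkQ (ρ g v) = V.mkQ v := h2
        rw [← sub_eq_zero, ← map_sub, Submodule.mkQ_apply,
          Submodule.Quotient.mk_eq_zero] at h3
        exact h3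
      · intro h0
        exact hlg ((ZMod.natCast_eq_zero_iff _ _).1 h0)

theorem rg3 (l : ℕ) [Fact l.Prime] {K W : Type*} [Group K] [Finite K] [AddCommGroup W]
    [Module (ZMod l) W] [Module.Finite (ZMod l) W] (ρ : Representation (ZMod l) K W)
    (hs : Group.IsSolvable K) (S : Set K) (hS : Subgroup.closure S = ⊤) (s1 : ℕ)
    (hg : ∀ g ∈ S, Module.finrank (ZMod l) W ≤
      Module.finrank (ZMod l) (Fx ρ (Subgroup.zpowers g)) + s1) :
    ∀ g ∈ dS (⊤ : Subgroup K) (zas (4 * s1)), ¬ l ∣ orderOf g → ρ g = 1 :=
  rg3_aux l hs S hS s1 (Module.finrank (ZMod l) W) W ρ le_rfl hg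

end H78TP
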