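import Pool.Agent.H78.TP.QcK

/-!
[H78 TP RK0] Rank bound for such groups (30 min).

PROOF. Let `V ≤ U ≤ K` with `x ^ s ∈ V` for all `x ∈ U`. The map `U → V`, `x ↦ x ^ s` has
fibres of at most `Nat.card A` elements: if `x ^ s = y ^ s` with `x, y ∈ U` then
`(x⁻¹ * y) ^ s = 1` by `qcK` for the group `K` (elements with `x ^ q0 = 1` are in `A`, so they are
central in `K`), so `(x⁻¹ * y) ^ q0 = 1` as `s ∣ q0`, and `x⁻¹ * y ∈ A`; so `y ∈ x A`. Hence
`Nat.card U ≤ Nat.card V * Nat.card A` and `V.relIndex U = Nat.card U / Nat.card V ≤ Nat.card A`.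
-/

namespace H78TP

open Subgroup
open scoped commutatorElement

theorem rk0 {F : Type*} [Group F] [Finite F] (s q0 : ℕ) [Fact s.Prime] (hq : QZ s q0)
    (K A : Subgroup F) (hK : IsPGroup s K) (hAK : ∀ a ∈ A, ∀ x ∈ K, a * x = x * a)
    (hA : ∀ x ∈ K, x ^ q0 = 1 → x ∈ A) : RB s (Nat.card A) K := by
  classical
  have : Fintype F := Fintype.ofFinite F
  intro U V hVU hUK hpow _
  -- the fibres of the power map
  have hfib : ∀ x ∈ U, ∀ y ∈ U, x ^ s = y ^ s → x⁻¹ * y ∈ A := by
    intro x hx y hy hxy
    have h1 := qcK (K := K) s q0 hq hK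
      (fun z hz w => Subtype.ext (by
        have h2 : (z : F) ^ q0 = 1 := by
          have := congrArg Subtype.val hz
          simpa using this
        exact hAK z (hA z z.2 h2) w w.2))
      ⟨x, hUK hx⟩ ⟨y, hUK hy⟩ (Subtype.ext (by simpa using hxy))
    have h3 : (x⁻¹ * y) ^ s = 1 := by
      have := congrArg Subtype.val h1
      simpa using this
    apply hA _ (K.mul_mem (K.inv_mem (hUK hx)) (hUK hy))
    rcases hq with ⟨_, h4⟩ | ⟨h4, h5⟩
    · rw [h4]
      exact h3
    · subst h4
      rw [h5, show 4 = 2 * 2 by norm_num, pow_mul, h3, one_pow]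
  have hcard : Nat.card U ≤ Nat.card A * Nat.card V := by
    have e1 : Nat.card U = (Finset.univ.filter (fun x : F => x ∈ U)).card := by
      rw [Nat.card_eq_fintype_card, Fintype.card_subtype]
    have e2 : Nat.card V = (Finset.univ.filter (fun x : F => x ∈ V)).card := by
      rw [Nat.card_eq_fintype_card, Fintype.card_subtype]
    have e3 : Nat.card A = (Finset.univ.filter (fun x : F => x ∈ A)).card := by
      rw [Nat.card_eq_fintype_card, Fintype.card_subtype]
    rw [e1, e2, e3]
    refine (Finset.card_le_mul_card_image (f := fun x : F => x ^ s) _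
      (Finset.univ.filter (fun x : F => x ∈ A)).card ?_).trans
      (Nat.mul_le_mul_left _ (Finset.card_le_card ?_))
    · intro a ha
      rw [Finset.mem_image] at ha
      obtain ⟨x, hx, rfl⟩ := ha
      rw [Finset.mem_filter] at hx
      refine (Finset.card_le_card (t := (Finset.univ.filter (fun x : F => x ∈ A)).image
        (fun a => x * a)) ?_).trans Finset.card_image_le
      intro y hy
      simp only [Finset.mem_filter, Finset.mem_univ, true_and] at hy
      rw [Finset.mem_image]
      refine ⟨x⁻¹ * y, ?_, by group⟩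
      simp only [Finset.mem_filter, Finset.mem_univ, true_and]
      exact hfib x hx.2 y hy.1 hy.2.symm
    · intro z hz
      rw [Finset.mem_image] at hz
      obtain ⟨x, hx, rfl⟩ := hz
      simp only [Finset.mem_filter, Finset.mem_univ, true_and] at hx ⊢
      exact hpow x hx
  have hidx : Nat.card V * V.relIndex U = Nat.card U := by
    rw [← Subgroup.relIndex_bot_left V, ← Subgroup.relIndex_bot_left U]
    exact Subgroup.relIndex_mul_relIndex _ _ _ bot_le hVU
  rw [← hidx, mul_comm] at hcard
  exact Nat.le_of_mul_le_mul_right hcard Nat.card_pos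

end H78TP
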