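import Pool.Agent.H78.TP.DimF

/-!
[H78 TP RK1A] The order of an abelian group of exponent `q0` with an operator (30 min).

PROOF. Let `A₁ = {x ∈ A | x ^ s = 1}` (a subgroup, normalised by `r`). By `dimF`
`|A₁| ≤ |A₁ ⊓ centralizer {r}| ^ s`, and `|A₁ ⊓ centralizer {r}| ≤ c` by `h` with
`U = A₁ ⊓ centralizer {r}`, `V = ⊥` (`relIndex_bot_left`). So `|A₁| ≤ c ^ s`. The homomorphism
`x ↦ x ^ s` on `A` has kernel `A₁` and its image is contained in `A₁` (if `q0 = s` the image is
trivial, if `s = 2`, `q0 = 4` then `(x ^ 2) ^ 2 = 1`). So `|A| ≤ |A₁| ^ 2 ≤ c ^ (2 s)`.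
-/

namespace H78TP

open Subgroup
open scoped commutatorElement

theorem rk1a {F : Type*} [Group F] [Finite F] (s q0 c : ℕ) [Fact s.Prime] (hq : QZ s q0)
    (A : Subgroup F) (hc : ∀ x ∈ A, ∀ y ∈ A, x * y = y * x) (he : ∀ x ∈ A, x ^ q0 = 1) (r : F)
    (hr : ∀ x ∈ A, r * x * r⁻¹ ∈ A) (hrs : ∀ x ∈ A, r ^ s * x = x * r ^ s)
    (h : RB s c (A ⊓ centralizer {r})) : Nat.card A ≤ c ^ (2 * s) := by
  classical
  have : Fintype F := Fintype.ofFinite F
  let A₁ : Subgroup F :=
    { carrier := {x | x ∈ A ∧ x ^ s = 1}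
      mul_mem' := by
        rintro a b ⟨ha, ha'⟩ ⟨hb, hb'⟩
        refine ⟨A.mul_mem ha hb, ?_⟩
        rw [(show Commute a b from hc a ha b hb).mul_pow, ha', hb', one_mul]
      one_mem' := ⟨A.one_mem, one_pow s⟩
      inv_mem' := by
        rintro a ⟨ha, ha'⟩
        refine ⟨A.inv_mem ha, ?_⟩
        rw [inv_pow, ha', inv_one] }
  have hmem : ∀ x, x ∈ A₁ ↔ x ∈ A ∧ x ^ s = 1 := fun x => Iff.rfl
  have h1 := dimF s A₁ (fun x hx y hy => hc x hx.1 y hy.1) (fun x hx => hx.2) r
    (fun x hx => ⟨hr x hx.1, by rw [conj_pow, hx.2, mul_one, mul_inv_cancel]⟩)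
    (fun x hx => hrs x hx.1)
  have h2 : Nat.card (A₁ ⊓ centralizer {r} : Subgroup F) ≤ c := by
    have h3 := h (A₁ ⊓ centralizer {r}) ⊥ bot_le
      (inf_le_inf_right _ (fun x hx => hx.1))
      (fun x hx => by
        rw [Subgroup.mem_bot]
        exact hx.1.2)
      (fun x hx y hy => by
        rw [Subgroup.mem_bot, commutatorElement_eq_one_iff_mul_comm]
        exact hc x hx.1.1 y hy.1.1)
    rwa [Subgroup.relIndex_bot_left] at h3
  have h4 : Nat.card A₁ ≤ c ^ s := h1.trans (Nat.pow_le_pow_left h2 s)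
  have hcard : Nat.card A ≤ Nat.card A₁ * Nat.card A₁ := by
    have e1 : Nat.card A = (Finset.univ.filter (fun x : F => x ∈ A)).card := by
      rw [Nat.card_eq_fintype_card, Fintype.card_subtype]
    have e2 : Nat.card A₁ = (Finset.univ.filter (fun x : F => x ∈ A₁)).card := by
      rw [Nat.card_eq_fintype_card, Fintype.card_subtype]
    rw [e1, e2]
    refine (Finset.card_le_mul_card_image (f := fun x : F => x ^ s) _
      (Finset.univ.filter (fun x : F => x ∈ A₁)).card ?_).trans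
      (Nat.mul_le_mul_left _ (Finset.card_le_card ?_))
    · intro a ha
      rw [Finset.mem_image] at ha
      obtain ⟨x, hx, rfl⟩ := ha
      rw [Finset.mem_filter] at hx
      refine (Finset.card_le_card (t := (Finset.univ.filter (fun x : F => x ∈ A₁)).image
        (fun a => x * a)) ?_).trans Finset.card_image_le
      intro y hy
      simp only [Finset.mem_filter, Finset.mem_univ, true_and] at hy
      rw [Finset.mem_image]
      refine ⟨x⁻¹ * y, ?_, by group⟩
      simp only [Finset.mem_filter, Finset.mem_univ, true_and]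
      rw [hmem]
      refine ⟨A.mul_mem (A.inv_mem hx.2) hy.1, ?_⟩
      rw [(show Commute x⁻¹ y from hc _ (A.inv_mem hx.2) y hy.1).mul_pow, inv_pow, hy.2,
        inv_mul_cancel]
    · intro z hz
      rw [Finset.mem_image] at hz
      obtain ⟨x, hx, rfl⟩ := hz
      simp only [Finset.mem_filter, Finset.mem_univ, true_and] at hx ⊢
      rw [hmem]
      refine ⟨A.pow_mem hx s, ?_⟩
      have h5 := he x hx
      rcases hq with ⟨_, h6⟩ | ⟨h6, h7⟩
      · rw [h6] at h5
        rw [h5, one_pow]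
      · rw [← pow_mul, h6]
        rw [h7] at h5
        exact h5
  calc Nat.card A ≤ Nat.card A₁ * Nat.card A₁ := hcard
    _ ≤ c ^ s * c ^ s := Nat.mul_le_mul h4 h4
    _ = c ^ (2 * s) := by rw [← pow_add, two_mul]

end H78TP
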