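import Pool.Agent.H78.TP.RbA
import Pool.Agent.H78.TP.Alp
import Pool.Agent.H78.TP.Rk0
import Pool.Agent.H78.TP.Rk1a

/-!
[H78 TP RK1] The rank of an `s`-group with an operator of order `s` (45-60 min).

PROOF. Let `q0 = 4` if `s = 2` and `q0 = s` otherwise (`QZ s q0`). Let `X = S ⊔ zpowers r`, an
`s`-group (`r` is an `s`-element which normalises `S`: `IsPGroup.to_sup_of_normal_right'` or
similar). Let `A` be maximal (of maximal order) among the subgroups `A ≤ S` which are invariant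
under conjugation by `X`, abelian and satisfy `x ^ q0 = 1` (`⊥` is one). By `rk1a`
`Nat.card A ≤ c ^ (2 s)` (`RB s c` for the subgroup `A ⊓ centralizer {r}` of
`S ⊓ centralizer {r}`). Let `K = S ⊓ centralizer A`. By `alp` (with `N = S`) every `x ∈ K` with
`x ^ q0 = 1` lies in `A`. So `RB s (Nat.card A) K` by `rk0`. `S` acts on `A` by conjugation with
kernel `K`, so `K.relIndex S ≤ (Nat.card A)!` (`Equiv.Perm A`). By `rb_index`
`RB s ((Nat.card A)! * Nat.card A) S`, and `(Nat.card A)! * Nat.card A ≤ f1 s c`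
(`Nat.factorial_le`), so `rb_le`.
-/

namespace H78TP

open Subgroup
open scoped commutatorElement

theorem rk1_relIndex {F : Type*} [Group F] [Finite F] (S A : Subgroup F) (hAS : A ≤ S)
    (hA : ∀ x ∈ S, ∀ y ∈ A, x * y * x⁻¹ ∈ A) :
    (S ⊓ centralizer (A : Set F)).relIndex S ≤ (Nat.card A).factorial := by
  have hn : (A.subgroupOf S).Normal := ⟨fun a ha g => by
    rw [mem_subgroupOf] at ha ⊢
    exact hA _ g.2 _ ha⟩
  let φ : S →* Equiv.Perm (A.subgroupOf S) := (MulAut.toPerm _).comp MulAut.conjNormal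
  have hφ : ∀ (g : S) (a : A.subgroupOf S), ((φ g a : S) : F) = g * (a : S) * (g : F)⁻¹ := by
    intro g a
    rfl
  have hk : φ.ker = (S ⊓ centralizer (A : Set F)).subgroupOf S := by
    ext g
    rw [MonoidHom.mem_ker, mem_subgroupOf, mem_inf, mem_centralizer_iff]
    constructor
    · intro h
      refine ⟨g.2, fun a ha => ?_⟩
      have h1 := hφ g ⟨⟨a, hAS ha⟩, ha⟩
      rw [h] at h1
      simp only [Equiv.Perm.coe_one, id_eq] at h1
      rw [eq_mul_inv_iff_mul_eq] at h1
      exact h1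
    · rintro ⟨-, h⟩
      ext a
      rw [hφ g a]
      have h1 := h ((a : S) : F) (mem_subgroupOf.1 a.2)
      rw [← h1]
      simp
  rw [Subgroup.relIndex, ← hk, Subgroup.index_ker]
  calc Nat.card φ.range ≤ Nat.card (Equiv.Perm (A.subgroupOf S)) := Subgroup.card_le_card_group _
    _ = (Nat.card (A.subgroupOf S)).factorial := Nat.card_perm
    _ = (Nat.card A).factorial := by
      rw [Nat.card_congr (Subgroup.subgroupOfEquivOfLe hAS).toEquiv]

theorem rk1 {F : Type*} [Group F] [Finite F] (s c : ℕ) [Fact s.Prime] (S : Subgroup F)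
    (hS : IsPGroup s S) (r : F) (hr : ∃ k, r ^ (s ^ k) = 1) (hn : ∀ x ∈ S, r * x * r⁻¹ ∈ S)
    (hrs : ∀ x ∈ S, r ^ s * x = x * r ^ s) (h : RB s c (S ⊓ centralizer {r})) :
    RB s (f1 s c) S := by
  obtain ⟨q0, hq⟩ : ∃ q0, QZ s q0 := by
    by_cases h2 : s = 2
    · exact ⟨4, Or.inr ⟨h2, rfl⟩⟩
    · exact ⟨s, Or.inl ⟨h2, rfl⟩⟩
  have hrN : r ∈ normalizer (S : Set F) := by
    rw [Subgroup.mem_normalizer_iff]
    have hinj : Function.Injective (fun x : S => (⟨r * x * r⁻¹, hn x x.2⟩ : S)) := by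
      intro x y hxy
      have := congrArg Subtype.val hxy
      simp only [mul_left_inj, mul_right_inj] at this
      exact Subtype.ext this
    have hsur := Finite.injective_iff_surjective.1 hinj
    intro y
    refine ⟨fun hy => hn y hy, fun hy => ?_⟩
    obtain ⟨x, hx⟩ := hsur ⟨_, hy⟩
    have := congrArg Subtype.val hx
    simp only [mul_left_inj, mul_right_inj] at this
    rw [← this]
    exact x.2
  have hzN : zpowers r ≤ normalizer (S : Set F) := by
    rw [zpowers_le]; exact hrN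
  have hzp : IsPGroup s (zpowers r) := by
    obtain ⟨k, hk⟩ := hr
    intro g
    obtain ⟨m, hm⟩ := mem_zpowers_iff.1 g.2
    refine ⟨k, Subtype.ext ?_⟩
    rw [SubmonoidClass.coe_pow, ← hm, OneMemClass.coe_one]
    rw [← zpow_natCast, ← zpow_mul, mul_comm, zpow_mul, zpow_natCast, hk, one_zpow]
  set X : Subgroup F := zpowers r ⊔ S with hXdef
  have hX : IsPGroup s X := hzp.to_sup_of_normal_right' hS hzN
  have hSX : S ≤ X := le_sup_right
  have hrX : r ∈ X := (le_sup_left : zpowers r ≤ X) (mem_zpowers r)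
  have hXN : X ≤ normalizer (S : Set F) := sup_le hzN Subgroup.le_normalizer
  let T : Set (Subgroup F) := {B | B ≤ S ∧ (∀ x ∈ X, ∀ y ∈ B, x * y * x⁻¹ ∈ B) ∧
    (∀ x ∈ B, ∀ y ∈ B, x * y = y * x) ∧ (∀ x ∈ B, x ^ q0 = 1)}
  have hTn : T.Nonempty := by
    refine ⟨⊥, bot_le, ?_, ?_, ?_⟩
    · intro x _ y hy
      rw [mem_bot] at hy ⊢
      rw [hy]; group
    · intro x hx y hy
      rw [mem_bot] at hx hy
      rw [hx, hy]
    · intro x hx
      rw [mem_bot] at hx
      rw [hx, one_pow]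
  obtain ⟨A, hAT, hAm⟩ := (Set.toFinite T).exists_maximal hTn
  obtain ⟨hAS, hAX, hAc, hAe⟩ := hAT
  have hcard : Nat.card A ≤ c ^ (2 * s) :=
    rk1a s q0 c hq A hAc hAe r (fun x hx => hAX r hrX x hx) (fun x hx => hrs x (hAS hx))
      (rb_mono (inf_le_inf_right _ hAS) h)
  have hK : RB s (Nat.card A) (S ⊓ centralizer (A : Set F)) := by
    refine rk0 s q0 hq _ A (hS.to_le inf_le_left) ?_ ?_
    · intro a ha x hx
      exact mem_centralizer_iff.1 hx.2 a ha
    · intro x hx hxq
      refine alp s q0 hq X S A hX hSX ?_ hAS hAX hAc hAe ?_ x hx.1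
        (fun a ha => mem_centralizer_iff.1 hx.2 a ha) hxq
      · intro x hx y hy
        exact (Subgroup.mem_normalizer_iff.1 (hXN hx) y).1 hy
      · intro B hAB hBS hBX hBc hBe
        exact le_antisymm (hAm ⟨hBS, hBX, hBc, hBe⟩ hAB) hAB
  have hidx := rk1_relIndex S A hAS (fun x hx y hy => hAX x (hSX hx) y hy)
  have hfin := rb_index s (Nat.card A) _ S _ inf_le_left hidx hK
  exact rb_le (Nat.mul_le_mul (Nat.factorial_le hcard) hcard) hfin

end H78TP
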