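import Pool.Agent.H78.TP.Base

/-!
Definitions for part C (weak Thompson theorem): the situation `TD p q K Q α`.
-/

namespace H78TP

open Subgroup
open scoped commutatorElement

/-- the constants of part C -/
def hPr (p : ℕ) : ℕ := zas (4 * (64 * (p - 1) ^ 2)) + 2

/-- the bound of `clV` -/
def hV (p : ℕ) : ℕ := (1 + hQ p 0) + hPr p

/-- the bound of `tp` -/
def hTp (p h : ℕ) : ℕ := (hV p + 2) * h + 1

/-- iterated bound for an operator group of order `p ^ e` -/
def hTe (p : ℕ) : ℕ → ℕ → ℕ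
  | 0, h => h
  | e + 1, h => hTe p e (hTp p h)

/-- bound for an operator group which is a `p`-group of order at most `n` -/
def hTM (p n h : ℕ) : ℕ := ∑ e ∈ Finset.range (n + 1), hTe p e h

/-- bound for the height of a soluble group of bounded rank -/
def hRk (m j : ℕ) : ℕ := zas (m + j) + 1

/-- bound for an operator group which is a `q`-group and whose centraliser has bounded rank -/
def hPP (q n m j : ℕ) : ℕ :=
  ((rkM q (j * q ^ m) n).factorial + 1) + hTM q n (hRk m j)

/-- `K` is a soluble normal `p'`-subgroup of `Γ = K⟨α⟩`, `α ^ p = 1`, and `Q` is a `q`-subgroup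
of `C_K(α)`, normal in `C_K(α)` -/
structure TD (p q : ℕ) {Γ : Type*} [Group Γ] (K Q : Subgroup Γ) (α : Γ) : Prop where
  nK : K.Normal
  sK : Group.IsSolvable K
  pK : ¬ p ∣ Nat.card K
  ap : α ^ p = 1
  top : K ⊔ Subgroup.zpowers α = ⊤
  QK : Q ≤ K
  Qgr : IsPGroup q Q
  Qa : ∀ y ∈ Q, α * y = y * α
  Qn : ∀ c ∈ K, α * c = c * α → ∀ y ∈ Q, c * y * c⁻¹ ∈ Q

/-- the statement of Claim V for modules of dimension at most `d` -/
def ClVP.{u, v} (k : Type v) [Field k] (p q d : ℕ) : Prop :=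
  ∀ (Γ : Type u) [Group Γ] [Finite Γ] (K Q : Subgroup Γ) (α : Γ) (U : Type v)
    [AddCommGroup U] [Module k U] [Module.Finite k U] (τ : Representation k Γ U),
    TD p q K Q α → Module.finrank k U ≤ d →
    (∀ S : Submodule k U, (∀ g, ∀ w ∈ S, τ g w ∈ S) → S = ⊥ ∨ S = ⊤) →
    (∀ u, τ α u = u → ∀ y ∈ Q, τ y u = u) →
    ∀ g ∈ lns (Subgroup.normalClosure (Q : Set Γ)) (hV p), τ g = 1

end H78TP
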