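import Pool.Agent.H78.TP.TpX
import Pool.Agent.H78.TP.Fit
import Pool.Agent.H78.TP.Fpf
import Pool.Agent.H78.TP.Der

/-!
[H78 TP TP] The weak theorem of Thompson (60 min).

PROOF. Induction on `h` (for all groups). Let `C = K ⊓ centralizer {α}`. `h = 0`: `C = ⊥`, `fpf`.
Step `h + 1`: let `D = lns C h`; `nres D = ⊥`, so `gam D c = ⊥` for some `c` (`nres_eq_bot_iff`).
For a prime `q` dividing `|D|` (`q ≠ p`, as `D ≤ K`) let `D_q` be the Sylow `q`-subgroup of the
nilpotent group `D`: it is characteristic in `D`, and `D` is normal in `C` (apply `nilSyl` in the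
group `C` to `D.subgroupOf C`, normal in `C`, `lns_normal` in `C`, and map to `Γ`). So
`TD p q K D_q α`. By `tpX` `X_q = normalClosure D_q` satisfies `lns X_q (hV p + 2) = ⊥`. `D` is
generated by the `D_q` (its order is the product of their orders), so `X = normalClosure D = ⨆ X_q`
(finitely many primes) satisfies `lns X (hV p + 2) = ⊥` by `lns_iSup`. Let
`π = QuotientGroup.mk' X`. `K.map π`, `π α` satisfy the hypotheses, and by `coA`
`K.map π ⊓ centralizer {π α} = C.map π`, `lns (C.map π) h = D.map π = ⊥` (`D ≤ X`). By induction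
`lns (K.map π) (hTp p h) = ⊥` and `lns_of_map` gives `lns K (hTp p h + (hV p + 2)) = ⊥`, and
`hTp p (h + 1) = hTp p h + (hV p + 2)`.
-/

namespace H78TP

open Subgroup
open scoped commutatorElement

universe u

private theorem tp_iSup_normal {Γ : Type*} [Group Γ] {ι : Type*} (I : Finset ι)
    (A : ι → Subgroup Γ) (hA : ∀ i ∈ I, (A i).Normal) : (⨆ i ∈ I, A i).Normal := by
  classical
  induction I using Finset.induction_on with
  | empty =>
    simp only [Finset.notMem_empty, iSup_false, iSup_bot]
    infer_instance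
  | insert a I ha ih =>
    have h1 := ih (fun i hi => hA i (Finset.mem_insert_of_mem hi))
    have h3 := hA a (Finset.mem_insert_self a I)
    rw [Finset.iSup_insert]
    infer_instance

private theorem tp_cen {Γ : Type*} [Group Γ] {α x : Γ} :
    x ∈ centralizer {α} ↔ α * x = x * α := by
  rw [Subgroup.mem_centralizer_iff]
  exact ⟨fun h => h α (Set.mem_singleton α), fun h y hy => by
    rw [Set.mem_singleton_iff.1 hy]
    exact h⟩

/-- Sylow subgroups of the last nilpotent term of the series of `C` -/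
private theorem tp_syl {Γ : Type*} [Group Γ] [Finite Γ] (C : Subgroup Γ) (h : ℕ)
    (hD : nres (lns C h) = ⊥) (q : ℕ) :
    ∃ S : Subgroup Γ, q.Prime → S ≤ lns C h ∧ IsPGroup q S ∧
      (∀ c ∈ C, ∀ y ∈ S, c * y * c⁻¹ ∈ S) ∧ ¬ q ∣ S.relIndex (lns C h) := by
  by_cases hq : q.Prime
  · have : Fact q.Prime := ⟨hq⟩
    obtain ⟨c, hc⟩ := (nres_eq_bot_iff (lns C h)).1 hD
    have hC : (⊤ : Subgroup C).map C.subtype = C := by
      rw [← MonoidHom.range_eq_map, Subgroup.range_subtype]
    have hmap : (lns (⊤ : Subgroup C) h).map C.subtype = lns C h := by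
      rw [lns_subtype, hC]
    have hg : gam (lns (⊤ : Subgroup C) h) c = ⊥ := by
      have h1 : (gam (lns (⊤ : Subgroup C) h) c).map C.subtype = ⊥ := by
        rw [gam_subtype, hmap, hc]
      rwa [Subgroup.map_eq_bot_iff_of_injective _ C.subtype_injective] at h1
    have hn : (lns (⊤ : Subgroup C) h).Normal := lns_normal inferInstance h
    obtain ⟨S, hS1, hS2, hS3, hS4⟩ := nilSyl (lns (⊤ : Subgroup C) h) hn c hg q
    refine ⟨S.map C.subtype, fun _ => ⟨?_, hS3.map _, ?_, ?_⟩⟩
    · rw [← hmap]
      exact Subgroup.map_mono hS2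
    · rintro c hc _ ⟨y, hy, rfl⟩
      exact ⟨⟨c, hc⟩ * y * ⟨c, hc⟩⁻¹, hS1.conj_mem y hy ⟨c, hc⟩, rfl⟩
    · have h2 : (S.map C.subtype).relIndex (lns C h) =
          S.relIndex (lns (⊤ : Subgroup C) h) := by
        rw [← hmap, Subgroup.relIndex_map_map_of_injective _ _ C.subtype_injective]
      rw [h2]
      exact hS4
  · exact ⟨⊥, fun h => absurd h hq⟩

theorem tp (p : ℕ) [Fact p.Prime] (h : ℕ) : ∀ {Γ : Type u} [Group Γ] [Finite Γ]
    (K : Subgroup Γ) (_ : K.Normal) (_ : Group.IsSolvable K) (_ : ¬ p ∣ Nat.card K) (α : Γ)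
    (_ : α ^ p = 1) (_ : K ⊔ Subgroup.zpowers α = ⊤)
    (_ : lns (K ⊓ centralizer {α}) h = ⊥), lns K (hTp p h) = ⊥ := by
  induction h with
  | zero =>
    intro Γ _ _ K hK hs hp α hα _ hC
    rw [lns_zero] at hC
    have h1 : ∀ c ∈ K, α * c = c * α → c = 1 := by
      intro c hc hca
      have h2 : c ∈ K ⊓ centralizer {α} := Subgroup.mem_inf.2 ⟨hc, tp_cen.2 hca⟩
      rwa [hC, Subgroup.mem_bot] at h2
    have h3 := fpf p K hK hs hp α hα h1
    have h4 : hTp p 0 = 1 := by simp [hTp]
    rw [h4]
    exact h3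
  | succ h ih =>
    intro Γ _ _ K hK hs hp α hα htop hC
    set C := K ⊓ centralizer {α} with hCdef
    rw [lns_succ] at hC
    have hDC : lns C h ≤ C := lns_le C h
    have hCK : C ≤ K := inf_le_left
    choose f hf using fun q => tp_syl C h hC q
    set I := (Nat.card (lns C h)).primeFactors with hI
    have hIq : ∀ q ∈ I, q.Prime ∧ q ≠ p := by
      intro q hq
      have h1 := Nat.prime_of_mem_primeFactors hq
      refine ⟨h1, ?_⟩
      rintro rfl
      exact hp ((Nat.dvd_of_mem_primeFactors hq).trans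
        (Subgroup.card_dvd_of_le (hDC.trans hCK)))
    have hX1 : ∀ q ∈ I, lns (Subgroup.normalClosure (f q : Set Γ)) (hV p + 2) = ⊥ := by
      intro q hq
      obtain ⟨hqp, hqne⟩ := hIq q hq
      have : Fact q.Prime := ⟨hqp⟩
      obtain ⟨h1, h2, h3, h4⟩ := hf q hqp
      refine tpX p q hqne (K := K) (Q := f q) (α := α) ?_
      exact
        { nK := hK
          sK := hs
          pK := hp
          ap := hα
          top := htop
          QK := h1.trans (hDC.trans hCK)
          Qgr := h2
          Qa := fun y hy => tp_cen.1 (Subgroup.mem_inf.1 (hDC (h1 hy))).2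
          Qn := fun c hc hca y hy => h3 c (Subgroup.mem_inf.2 ⟨hc, tp_cen.2 hca⟩) y hy }
    set X : Subgroup Γ := ⨆ q ∈ I, Subgroup.normalClosure (f q : Set Γ) with hX
    have hXn : X.Normal := tp_iSup_normal I _ fun _ _ => inferInstance
    have hXl : lns X (hV p + 2) = ⊥ :=
      lns_iSup I (fun q => Subgroup.normalClosure (f q : Set Γ)) (fun _ _ => inferInstance)
        (hV p + 2) hX1
    have hDX : lns C h ≤ X := by
      rw [← Subgroup.relIndex_eq_one]
      by_contra hne
      obtain ⟨q, hqp, hqd⟩ := Nat.exists_prime_and_dvd hne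
      have hqI : q ∈ I := by
        rw [hI, Nat.mem_primeFactors]
        exact ⟨hqp, hqd.trans (Subgroup.relIndex_dvd_card _ _), Nat.card_pos.ne'⟩
      obtain ⟨h1, h2, h3, h4⟩ := hf q hqp
      apply h4
      refine hqd.trans (Subgroup.relIndex_dvd_of_le_left _ ?_)
      refine le_trans ?_ (le_iSup₂_of_le q hqI le_rfl)
      exact Subgroup.subset_normalClosure
    -- the factor group
    let π : Γ →* Γ ⧸ X := QuotientGroup.mk' X
    have hπ : Function.Surjective π := QuotientGroup.mk'_surjective X
    have h1 : lns (K.map π) (hTp p h) = ⊥ := by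
      apply ih (K.map π) (hK.map π hπ)
      · have h1 := hs
        exact Group.isSolvable_of_surjective (π.subgroupMap_surjective K)
      · exact fun hd => hp (hd.trans (Subgroup.card_map_dvd K π))
      · show π α ^ p = 1
        rw [← map_pow, hα, map_one]
      · show K.map π ⊔ Subgroup.zpowers (π α) = ⊤
        rw [← MonoidHom.map_zpowers, ← Subgroup.map_sup, htop,
          Subgroup.map_top_of_surjective π hπ]
      · show lns (K.map π ⊓ centralizer {π α}) h = ⊥
        rw [coA π hπ p K hK hp α hα, ← lns_map, Subgroup.map_eq_bot_iff, QuotientGroup.ker_mk']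
        exact hDX
    have h2 : lns K (hTp p h + (hV p + 2)) = ⊥ := by
      refine lns_of_map π h1 ?_
      rw [QuotientGroup.ker_mk']
      exact hXl
    have h3 : hTp p (h + 1) = hTp p h + (hV p + 2) := by
      simp only [hTp]
      ring
    rw [h3]
    exact h2

end H78TP
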