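import Pool.Agent.H78.TP.Tp

/-!
[H78 TP TPR] The same for an element which acts as an automorphism of order `p` (45-60 min).

PROOF. Conjugation by `α` induces `φ : MulAut K` with `φ ^ p = 1`. Let
`Γ = K ⋊[θ] Multiplicative (ZMod p)` with `θ (ofAdd 1) = φ` (a homomorphism from the cyclic group
because `φ ^ p = 1`; e.g. `zmultiplesHom`/`ZMod.lift` to `Additive (MulAut K)`). `K' = range inl`, a
normal subgroup isomorphic to `K`, `α' = inr (ofAdd 1)`, `α' ^ p = 1`, `K' ⊔ zpowers α' = ⊤`. The map
`inl : K →* Γ` maps `(K ⊓ centralizer {α}).subgroupOf K` onto `K' ⊓ centralizer {α'}`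
(`α' (inl x) α'⁻¹ = inl (φ x)`). `lns` commutes with `inl` and with `K.subtype` (`lns_map`). So
`tp` gives `lns K' (hTp p h) = ⊥` and `lns K (hTp p h) = ⊥` (`inl` is injective).
-/

namespace H78TP

open Subgroup
open scoped commutatorElement

universe u

private theorem TpR_abs {K : Type u} [Group K] [Finite K] (p : ℕ) [Fact p.Prime]
    (hs : Group.IsSolvable K) (hp : ¬ p ∣ Nat.card K) (φ : MulAut K) (hφ : φ ^ p = 1) (h : ℕ)
    (C : Subgroup K) (hC : ∀ x, x ∈ C ↔ φ x = x) (hh : lns C h = ⊥) :
    lns (⊤ : Subgroup K) (hTp p h) = ⊥ := by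
  let Z : Subgroup (MulAut K) := Subgroup.zpowers φ
  let Γ := K ⋊[Z.subtype] Z
  have hKf : Finite (MulAut K) := Finite.of_injective (fun f : MulAut K => (f : K → K))
    (fun a b hab => MulEquiv.ext (fun x => congrFun hab x))
  have hΓ : Finite Γ := Finite.of_equiv _ (SemidirectProduct.equivProd (φ := Z.subtype)).symm
  let i : K →* Γ := SemidirectProduct.inl
  let r : Z →* Γ := SemidirectProduct.inr
  have hi : Function.Injective i := SemidirectProduct.inl_injective
  have hlift : ∀ (X : Subgroup K) (n : ℕ), lns (X.map i) n = ⊥ ↔ lns X n = ⊥ := by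
    intro X n
    rw [← lns_map i X n, Subgroup.map_eq_bot_iff_of_injective _ hi]
  have hK1 : (⊤ : Subgroup K).map i = i.range := (MonoidHom.range_eq_map i).symm
  have hnorm : (i.range).Normal := by
    have h1 : i.range = (SemidirectProduct.rightHom : Γ →* Z).ker :=
      SemidirectProduct.range_inl_eq_ker_rightHom
    rw [h1]
    infer_instance
  have hsol : Group.IsSolvable i.range :=
    solv_map i.rangeRestrict i.rangeRestrict_surjective hs
  have hcard : Nat.card i.range = Nat.card K :=
    (Nat.card_congr (MonoidHom.ofInjective hi).toEquiv).symm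
  let a : Γ := r ⟨φ, Subgroup.mem_zpowers φ⟩
  have hap : a ^ p = 1 := by
    show (r ⟨φ, Subgroup.mem_zpowers φ⟩) ^ p = 1
    rw [← map_pow]
    have h1 : (⟨φ, Subgroup.mem_zpowers φ⟩ : Z) ^ p = 1 := Subtype.ext hφ
    rw [h1, map_one]
  have hconj : ∀ x : K, a * i x * a⁻¹ = i (φ x) := by
    intro x
    have h1 := SemidirectProduct.inl_aut (φ := Z.subtype) ⟨φ, Subgroup.mem_zpowers φ⟩ x
    have h2 : a⁻¹ = r (⟨φ, Subgroup.mem_zpowers φ⟩ : Z)⁻¹ := (map_inv r _).symm
    rw [h2]
    exact h1.symm
  have htop : i.range ⊔ Subgroup.zpowers a = ⊤ := by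
    rw [eq_top_iff]
    intro x _
    have h1 : i x.left * r x.right = x := SemidirectProduct.inl_left_mul_inr_right x
    rw [← h1]
    apply mul_mem
    · exact (le_sup_left : i.range ≤ _) ⟨x.left, rfl⟩
    · apply (le_sup_right : Subgroup.zpowers a ≤ i.range ⊔ Subgroup.zpowers a)
      obtain ⟨n, hn⟩ := Subgroup.mem_zpowers_iff.1 x.right.2
      have h2 : (⟨φ, Subgroup.mem_zpowers φ⟩ : Z) ^ n = x.right := Subtype.ext hn
      rw [← h2, map_zpow]
      exact Subgroup.zpow_mem_zpowers a n
  have hCe : i.range ⊓ centralizer {a} = C.map i := by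
    ext y
    constructor
    · rintro ⟨⟨x, rfl⟩, hy⟩
      have h1 := Subgroup.mem_centralizer_singleton_iff.1 hy
      refine ⟨x, ?_, rfl⟩
      show x ∈ C
      rw [hC]
      apply hi
      rw [← hconj]
      first
        | rw [← h1, mul_inv_cancel_right]
        | rw [h1, mul_inv_cancel_right]
    · rintro ⟨x, hx, rfl⟩
      have hx' : φ x = x := (hC x).1 hx
      refine ⟨⟨x, rfl⟩, ?_⟩
      apply Subgroup.mem_centralizer_singleton_iff.2
      have h1 := hconj x
      rw [hx'] at h1
      have h2 : a * i x = i x * a := by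
        rw [mul_inv_eq_iff_eq_mul] at h1
        exact h1
      first
        | exact h2
        | exact h2.symm
  have h9 := tp p h i.range hnorm hsol (by rw [hcard]; exact hp) a hap htop
    (by rw [hCe]; exact (hlift C h).2 hh)
  rw [← hK1] at h9
  exact (hlift ⊤ _).1 h9

theorem tpR (p : ℕ) [Fact p.Prime] {F : Type u} [Group F] [Finite F] (K : Subgroup F)
    (hs : Group.IsSolvable K) (hp : ¬ p ∣ Nat.card K) (α : F)
    (hαK : ∀ x ∈ K, α * x * α⁻¹ ∈ K) (hαp : ∀ x ∈ K, α ^ p * x = x * α ^ p) (h : ℕ)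
    (hh : lns (K ⊓ centralizer {α}) h = ⊥) : lns K (hTp p h) = ⊥ := by
  let f : K →* K :=
    { toFun := fun x => ⟨α * x.1 * α⁻¹, hαK x.1 x.2⟩
      map_one' := Subtype.ext (by simp)
      map_mul' := fun x y => Subtype.ext (by simp [mul_assoc]) }
  have hf : Function.Injective f := by
    intro x y hxy
    have h1 : α * x.1 * α⁻¹ = α * y.1 * α⁻¹ := congrArg Subtype.val hxy
    exact Subtype.ext (by simpa using h1)
  let φ : MulAut K := MulEquiv.ofBijective f (Finite.injective_iff_bijective.1 hf)
  have hφ1 : ∀ x : K, ((φ x : K) : F) = α * x.1 * α⁻¹ := fun x => rfl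
  have hφn : ∀ (n : ℕ) (x : K), (((φ ^ n) x : K) : F) = α ^ n * x.1 * (α ^ n)⁻¹ := by
    intro n
    induction n with
    | zero => intro x; simp
    | succ n ih =>
      intro x
      have h1 : (φ ^ (n + 1)) x = φ ((φ ^ n) x) := by rw [pow_succ']; rfl
      rw [h1, hφ1, ih]
      rw [pow_succ' α n]
      group
  have hφp : φ ^ p = 1 := by
    ext x
    have h1 := hφn p x
    rw [hαp x.1 x.2, mul_inv_cancel_right] at h1
    exact h1
  have hC : ∀ x : K, x ∈ (K ⊓ centralizer {α}).subgroupOf K ↔ φ x = x := by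
    intro x
    rw [Subgroup.mem_subgroupOf]
    constructor
    · rintro ⟨_, h1⟩
      have h2 := Subgroup.mem_centralizer_singleton_iff.1 h1
      apply Subtype.ext
      rw [hφ1]
      first
        | rw [h2, mul_inv_cancel_right]
        | rw [← h2, mul_inv_cancel_right]
    · intro h1
      refine ⟨x.2, ?_⟩
      apply Subgroup.mem_centralizer_singleton_iff.2
      have h2 : α * x.1 * α⁻¹ = x.1 := by
        have h3 := congrArg Subtype.val h1
        exact h3
      rw [mul_inv_eq_iff_eq_mul] at h2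
      first
        | exact h2
        | exact h2.symm
  have hsub : ((K ⊓ centralizer {α}).subgroupOf K).map K.subtype = K ⊓ centralizer {α} := by
    rw [Subgroup.subgroupOf_map_subtype]
    exact inf_eq_left.2 inf_le_left
  have hh' : lns ((K ⊓ centralizer {α}).subgroupOf K) h = ⊥ := by
    rw [← Subgroup.map_eq_bot_iff_of_injective _ K.subtype_injective, lns_map, hsub, hh]
  have h9 := TpR_abs p hs hp φ hφp h _ hC hh'
  have h10 : (⊤ : Subgroup K).map K.subtype = K := by
    rw [← MonoidHom.range_eq_map, Subgroup.range_subtype]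
  rw [← h10, ← lns_map, h9, Subgroup.map_bot]

end H78TP
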