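import Pool.Agent.H78.TP.CoA
import Pool.Agent.H78.TP.ClV3
import Pool.Agent.H78.TP.Sec
import Pool.Agent.H78.TP.NilC

/-!
[H78 TP TPX] The normal closure of `Q` has bounded height (60 min).

PROOF. `X = normalClosure Q ≤ K` (normal), `Y = lns X (hV p)`, normal in `Γ`, soluble. We show the
hypothesis of `nilC` for `Y` and `q`; then `lns Y 2 = ⊥` and `lns X (hV p + 2) = ⊥` (`lns_add`). Let
`s ≠ q`, `A`, `B`, `g ∈ Y` be as there, `A ≤ Y ≤ K`. If `s = p`: `A / B` has order prime to `p` and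
exponent `p`, so `A = B` (`x ^ p ∈ B`, `x ^ m = 1` with `p ∤ m`), clear. Let `s ≠ p`. `sec` gives `V`,
`ρ`, `π`. `hC` of `clV3`: let `v = π x` be fixed by `α`: `x⁻¹ α x α⁻¹ ∈ B`, i.e. `α` fixes the coset
`x B = B x`. By `cfp` (`S = zpowers α`, a `p`-group, `N = B`, of order prime to `p` as `B ≤ K`) there
is `b ∈ B` such that `c = b x` commutes with `α`; `c ∈ A ≤ K`, `π c = π x`. Let `y ∈ Q`.
`u = ⁅y, c⁆ = y (c y⁻¹ c⁻¹) ∈ Q` (`Qn`), and `u ∈ A`, `u ^ s ∈ B`, `u` is a `q`-element and `s ≠ q`, so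
`u ∈ B`. So `ρ y (π c) = π c`. So by `clV3` `ρ g = 1`, i.e. `π (g x g⁻¹) = π x` for `x ∈ A`, and
`⁅g, x⁆ ∈ B`.
-/

namespace H78TP

open Subgroup
open scoped commutatorElement

private theorem mem_of_cop {G : Type*} [Group G] (B : Subgroup G) (hB : B.Normal) {x : G}
    {a b : ℕ} (h : Nat.Coprime a b) (ha : x ^ a ∈ B) (hb : x ^ b = 1) : x ∈ B := by
  have h1 : (QuotientGroup.mk' B x) ^ a = 1 := by
    rw [← map_pow]
    exact (QuotientGroup.eq_one_iff _).2 ha
  have h2 : (QuotientGroup.mk' B x) ^ b = 1 := by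
    rw [← map_pow, hb, map_one]
  have h3 := Nat.dvd_gcd (orderOf_dvd_of_pow_eq_one h1) (orderOf_dvd_of_pow_eq_one h2)
  rw [h.gcd_eq_one, Nat.dvd_one, orderOf_eq_one_iff] at h3
  exact (QuotientGroup.eq_one_iff _).1 h3

theorem tpX (p q : ℕ) [Fact p.Prime] [Fact q.Prime] (hpq : q ≠ p) {Γ : Type*} [Group Γ]
    [Finite Γ] {K Q : Subgroup Γ} {α : Γ} (h : TD p q K Q α) :
    lns (Subgroup.normalClosure (Q : Set Γ)) (hV p + 2) = ⊥ := by
  haveI hnK := h.nK
  have hpp : p.Prime := Fact.out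
  have hqp : q.Prime := Fact.out
  have hXK : Subgroup.normalClosure (Q : Set Γ) ≤ K := Subgroup.normalClosure_le_normal h.QK
  have hXn : (Subgroup.normalClosure (Q : Set Γ)).Normal := inferInstance
  have hYn : (lns (Subgroup.normalClosure (Q : Set Γ)) (hV p)).Normal := lns_normal hXn _
  have hYK : lns (Subgroup.normalClosure (Q : Set Γ)) (hV p) ≤ K := (lns_le _ _).trans hXK
  have hYs : Group.IsSolvable (lns (Subgroup.normalClosure (Q : Set Γ)) (hV p)) := by
    haveI := h.sK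
    exact Group.isSolvable_of_isSolvable_injective (Subgroup.inclusion_injective hYK)
  rw [← lns_add]
  refine (nilC q _ hYn hYs ?_).2
  intro s hs hsq A B hA hB hBA hAY hpow hcom g hgY hsg x hx
  haveI : Fact s.Prime := ⟨hs⟩
  haveI := hB
  have hAK : A ≤ K := hAY.trans hYK
  by_cases hsp : s = p
  · have hxB : x ∈ B := by
      refine mem_of_cop B hB (a := s) (b := Nat.card K) ?_ (hpow x hx) ?_
      · rw [hsp]
        exact (Nat.Prime.coprime_iff_not_dvd hpp).2 h.pK
      · have h1 := pow_card_eq_one' (x := (⟨x, hAK hx⟩ : K))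
        have h2 := congrArg (Subtype.val : K → Γ) h1
        rw [Subgroup.coe_pow] at h2
        exact h2
    rw [commutatorElement_def]
    exact B.mul_mem (hB.conj_mem _ hxB g) (B.inv_mem hxB)
  · obtain ⟨V, _, _, _, ρ, π, hsurj, hker, hact, -⟩ := sec s A B hA hB hBA hpow hcom
    have hC : ∀ u, ρ α u = u → ∀ y ∈ Q, ρ y u = u := by
      intro v hv y hy
      obtain ⟨x', rfl⟩ := hsurj v
      rw [hact, hker] at hv
      have hcomα : QuotientGroup.mk' B α * QuotientGroup.mk' B (x' : Γ) =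
          QuotientGroup.mk' B (x' : Γ) * QuotientGroup.mk' B α := by
        have h1 : QuotientGroup.mk' B ((α * (x' : Γ) * α⁻¹)⁻¹ * (x' : Γ)) = 1 :=
          (QuotientGroup.eq_one_iff _).2 hv
        rw [map_mul, map_inv, map_mul, map_mul, map_inv, inv_mul_eq_one,
          mul_inv_eq_iff_eq_mul] at h1
        exact h1
      have hz : Subgroup.zpowers α ≤
          (Subgroup.centralizer {QuotientGroup.mk' B (x' : Γ)}).comap (QuotientGroup.mk' B) := by
        rw [Subgroup.zpowers_le, Subgroup.mem_comap, Subgroup.mem_centralizer_singleton_iff]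
        exact hcomα
      have hPα : IsPGroup p (Subgroup.zpowers α) := by
        rw [IsPGroup]
        intro z
        refine ⟨1, ?_⟩
        apply Subtype.ext
        obtain ⟨n, hn⟩ := Subgroup.mem_zpowers_iff.1 z.2
        rw [Subgroup.coe_pow, Subgroup.coe_one, ← hn, pow_one, ← zpow_natCast, ← zpow_mul,
          mul_comm, zpow_mul, zpow_natCast, h.ap, one_zpow]
      obtain ⟨b, hb, hbc⟩ := cfp p (Subgroup.zpowers α) B hPα
        (fun hd => h.pK (hd.trans (Subgroup.card_dvd_of_le (hBA.trans hAK))))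
        (fun z _ w hw => hB.conj_mem w hw z) (x' : Γ) (by
          intro z hz'
          have h1 := hz hz'
          rw [Subgroup.mem_comap, Subgroup.mem_centralizer_singleton_iff] at h1
          have h2 : QuotientGroup.mk' B (z * (x' : Γ) * z⁻¹ * (x' : Γ)⁻¹) = 1 := by
            rw [map_mul, map_mul, map_mul, map_inv, map_inv, h1, mul_inv_cancel_right,
              mul_inv_cancel]
          exact (QuotientGroup.eq_one_iff _).1 h2)
      have hcA : b * (x' : Γ) ∈ A := A.mul_mem (hBA hb) x'.2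
      have hcα : α * (b * (x' : Γ)) = (b * (x' : Γ)) * α := hbc α (Subgroup.mem_zpowers α)
      have hfc : QuotientGroup.mk' B (b * (x' : Γ)) = QuotientGroup.mk' B (x' : Γ) := by
        rw [map_mul, show QuotientGroup.mk' B b = 1 from (QuotientGroup.eq_one_iff _).2 hb,
          one_mul]
      have hu1 : y * (b * (x' : Γ)) * y⁻¹ * (b * (x' : Γ))⁻¹ ∈ Q := by
        have h1 := Q.mul_mem hy (h.Qn _ (hAK hcA) hcα _ (Q.inv_mem hy))
        have h2 : y * (b * (x' : Γ) * y⁻¹ * (b * (x' : Γ))⁻¹) =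
          y * (b * (x' : Γ)) * y⁻¹ * (b * (x' : Γ))⁻¹ := by group
        rwa [h2] at h1
      have hu2 : y * (b * (x' : Γ)) * y⁻¹ * (b * (x' : Γ))⁻¹ ∈ A :=
        A.mul_mem (hA.conj_mem _ hcA y) (A.inv_mem hcA)
      obtain ⟨k, hk⟩ := h.Qgr ⟨_, hu1⟩
      have hk' : (y * (b * (x' : Γ)) * y⁻¹ * (b * (x' : Γ))⁻¹) ^ (q ^ k) = 1 :=
        congrArg Subtype.val hk
      have huB : y * (b * (x' : Γ)) * y⁻¹ * (b * (x' : Γ))⁻¹ ∈ B :=
        mem_of_cop B hB (Nat.Coprime.pow_right k ((Nat.coprime_primes hs hqp).2 hsq))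
          (hpow _ hu2) hk'
      have hfu : QuotientGroup.mk' B (y * (b * (x' : Γ)) * y⁻¹ * (b * (x' : Γ))⁻¹) = 1 :=
        (QuotientGroup.eq_one_iff _).2 huB
      rw [hact, hker]
      have hfin : QuotientGroup.mk' B ((y * (x' : Γ) * y⁻¹)⁻¹ * (x' : Γ)) = 1 := by
        rw [map_mul, map_mul, map_mul, map_inv, map_inv, hfc, mul_inv_eq_one] at hfu
        rw [map_mul, map_inv, map_mul, map_mul, map_inv, hfu, inv_mul_cancel]
      exact (QuotientGroup.eq_one_iff _).1 hfin
    have hρ := clV3 s p q (Ne.symm hsp) (Ne.symm hsq) hpq ρ h hC g hgY hsg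
    have h1 := hact g ⟨x, hx⟩
    rw [hρ] at h1
    have h2 : π ⟨x, hx⟩ = π ⟨g * x * g⁻¹, hA.conj_mem x hx g⟩ := by
      simpa using h1
    rw [hker] at h2
    have h3 := hB.conj_mem _ h2 x
    rw [commutatorElement_def]
    have h4 : x * (x⁻¹ * (g * x * g⁻¹)) * x⁻¹ = g * x * g⁻¹ * x⁻¹ := by group
    rw [← h4]
    exact h3

end H78TP
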