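import Pool.Agent.H78.TP.CoA
import Pool.Agent.H78.TP.QnC

/-!
[H78 TP VZA] The case `C_U(α) = 0` (45-60 min).

PROOF. `α ≠ 1` as `U ≠ 0` and `C_U(α) = 0`; so `α` has order `p`. `Γ` is soluble (`K` is soluble and
`Γ / K` is cyclic). A normal `l`-subgroup of `Γ` is trivial (`irr_p`). `qnC` with `p := l`,
`R = zpowers α`, `q := p`, `z = α`, `n = p`, `n0 = 0` (`Fx τ (zpowers α) = ⊥`) gives
`lns A (hQ p 0) = ⊥` for `A = normalClosure {α}`. Let `N = A ⊓ K` (normal). For `k ∈ K`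
`⁅k, α⁆ ∈ N`. So every element of `K` commutes with `α` modulo `N`, and by `coA` (for
`QuotientGroup.mk' N`) `K = C_K(α) N`. `Q N` (`Q ⊔ N`) is normal in `Γ`: it is normalised by `N`
(normal), by `C_K(α)` (`Qn`) and by `α` (`Qa`), and `Γ = K ⟨α⟩`. So
`X = normalClosure Q ≤ Q ⊔ N`. The image of `Q ⊔ N` in `Γ ⧸ N` is the image of `Q`, a `q`-group,
nilpotent, so `lns X 1 ≤ N ≤ A` (`gam_of_isNilpotent`, `gam_map`, `lns_one_of_gam`) and
`lns X (1 + hQ p 0) = ⊥` (`lns_trans`).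
-/

namespace H78TP

open Subgroup
open scoped commutatorElement

variable {k Γ U : Type*} [Field k] [Group Γ] [AddCommGroup U] [Module k U]

private theorem VzA_dec {p q : ℕ} {Γ : Type*} [Group Γ] {K Q : Subgroup Γ} {α : Γ}
    (h : TD p q K Q α) (g : Γ) : ∃ x ∈ K, ∃ i : ℤ, g = x * α ^ i := by
  have hK := h.nK
  have h1 : g ∈ ((K ⊔ Subgroup.zpowers α : Subgroup Γ) : Set Γ) := by
    rw [h.top]
    trivial
  rw [Subgroup.normal_mul] at h1
  obtain ⟨x, hx, a, ha, hxa⟩ := h1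
  obtain ⟨i, hi⟩ := ha
  exact ⟨x, hx, i, by
    have hi' : α ^ i = a := hi
    rw [hi']
    exact hxa.symm⟩

private theorem VzA_sol {p q : ℕ} {Γ : Type*} [Group Γ] {K Q : Subgroup Γ} {α : Γ}
    (h : TD p q K Q α) : Group.IsSolvable Γ := by
  have hK := h.nK
  have hsK := h.sK
  have hq : Group.IsSolvable (Γ ⧸ K) := by
    apply Group.isSolvable_of_comm
    intro a b
    obtain ⟨g, rfl⟩ := QuotientGroup.mk'_surjective K a
    obtain ⟨g', rfl⟩ := QuotientGroup.mk'_surjective K b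
    obtain ⟨x, hx, i, rfl⟩ := VzA_dec h g
    obtain ⟨x', hx', i', rfl⟩ := VzA_dec h g'
    have e1 : QuotientGroup.mk' K x = 1 := (QuotientGroup.eq_one_iff x).2 hx
    have e2 : QuotientGroup.mk' K x' = 1 := (QuotientGroup.eq_one_iff x').2 hx'
    rw [map_mul, map_mul, e1, e2, one_mul, one_mul, ← map_mul, ← map_mul, ← zpow_add,
      ← zpow_add, add_comm]
  exact Group.isSolvable_of_ker_le_range K.subtype (QuotientGroup.mk' K) (by
    rw [QuotientGroup.ker_mk', Subgroup.range_subtype])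

theorem vzA [IsAlgClosed k] [Finite Γ] [Module.Finite k U] (l p q : ℕ) [Fact l.Prime]
    [Fact p.Prime] [Fact q.Prime] [CharP k l] (hlp : p ≠ l) (τ : Representation k Γ U)
    {K Q : Subgroup Γ} {α : Γ} (h : TD p q K Q α) (hinj : Function.Injective τ)
    (hirr : ∀ S : Submodule k U, (∀ g, ∀ w ∈ S, τ g w ∈ S) → S = ⊥ ∨ S = ⊤)
    (hU : ∃ u : U, u ≠ 0) (hC0 : ∀ u, τ α u = u → u = 0) :
    lns (Subgroup.normalClosure (Q : Set Γ)) (1 + hQ p 0) = ⊥ := by
  have hKn := h.nK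
  have hα : α ≠ 1 := by
    rintro rfl
    obtain ⟨u, hu⟩ := hU
    exact hu (hC0 u (by rw [map_one]; rfl))
  have hord : orderOf α = p := orderOf_eq_prime h.ap hα
  have hcardz : Nat.card (Subgroup.zpowers α) = p := by
    rw [Nat.card_zpowers, hord]
  have hA0 := qnC l τ hinj (VzA_sol h) (fun N hN hNp => irr_p l τ hinj hirr N hN hNp)
    (Subgroup.zpowers α) p hlp inferInstance
    (IsPGroup.of_card (n := 1) (by rw [hcardz, pow_one])) α (Subgroup.mem_zpowers α) hord p 0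
    hcardz.le (by
      have h1 : Fx τ (Subgroup.zpowers α) = ⊥ := by
        rw [eq_bot_iff]
        intro u hu
        rw [Submodule.mem_bot]
        exact hC0 u (hu α (Subgroup.mem_zpowers α))
      rw [h1, finrank_bot])
  obtain ⟨A, hA⟩ : ∃ A, A = Subgroup.normalClosure ({α} : Set Γ) := ⟨_, rfl⟩
  rw [← hA] at hA0
  have hAn : A.Normal := by
    rw [hA]
    exact Subgroup.normalClosure_normal
  have hαA : α ∈ A := by
    rw [hA]
    exact Subgroup.subset_normalClosure (Set.mem_singleton α)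
  obtain ⟨N, hN⟩ : ∃ N, N = A ⊓ K := ⟨_, rfl⟩
  have hNn : N.Normal := by
    rw [hN]
    exact Subgroup.normal_inf_normal _ _
  obtain ⟨f, hf⟩ : ∃ f : Γ →* Γ ⧸ N, f = QuotientGroup.mk' N := ⟨_, rfl⟩
  have hfs : Function.Surjective f := by
    rw [hf]
    exact QuotientGroup.mk'_surjective N
  have hfk : f.ker = N := by
    rw [hf]
    exact QuotientGroup.ker_mk' N
  have hco := coA f hfs p K hKn h.pK α h.ap
  -- the decomposition of `K`
  have hdec : ∀ x ∈ K, ∃ c ∈ K, α * c = c * α ∧ f x = f c := by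
    intro x hx
    have h1 : f x ∈ K.map f ⊓ centralizer {f α} := by
      refine Subgroup.mem_inf.2 ⟨⟨x, hx, rfl⟩, Subgroup.mem_centralizer_singleton_iff.2 ?_⟩
      have h2 : x * α * x⁻¹ * α⁻¹ ∈ N := by
        rw [hN]
        refine ⟨A.mul_mem (hAn.conj_mem α hαA x) (A.inv_mem hαA), ?_⟩
        have h3 : x * α * x⁻¹ * α⁻¹ = x * (α * x⁻¹ * α⁻¹) := by group
        rw [h3]
        exact K.mul_mem hx (hKn.conj_mem _ (K.inv_mem hx) α)
      rw [← hfk, MonoidHom.mem_ker] at h2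
      have h4 : f (x * α) = f (α * x) := by
        have h5 : x * α = x * α * x⁻¹ * α⁻¹ * (α * x) := by group
        rw [h5, map_mul, h2, one_mul]
      rw [map_mul, map_mul] at h4
      exact h4
    rw [hco] at h1
    obtain ⟨c, ⟨hc1, hc2⟩, hc3⟩ := h1
    have hc4 := Subgroup.mem_centralizer_singleton_iff.1 hc2
    exact ⟨c, hc1, hc4.symm, hc3.symm⟩
  have hQn : (Q.map f).Normal := by
    constructor
    rintro - ⟨y, hy, rfl⟩ g
    obtain ⟨g, rfl⟩ := hfs g
    obtain ⟨x, hx, i, rfl⟩ := VzA_dec h g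
    obtain ⟨c, hc, hcα, hxc⟩ := hdec x hx
    refine ⟨c * y * c⁻¹, h.Qn c hc hcα y hy, ?_⟩
    have hyi : α ^ i * y * (α ^ i)⁻¹ = y := by
      have h1 : Commute α y := h.Qa y hy
      have h2 : Commute (α ^ i) y := h1.zpow_left i
      rw [h2.eq, mul_inv_cancel_right]
    have h3 : f (x * α ^ i) * f y * (f (x * α ^ i))⁻¹ =
        f x * f (α ^ i * y * (α ^ i)⁻¹) * (f x)⁻¹ := by
      simp only [map_mul, map_inv]
      group
    rw [h3, hyi, hxc, map_mul, map_mul, map_inv]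
  obtain ⟨X, hX⟩ : ∃ X, X = Subgroup.normalClosure (Q : Set Γ) := ⟨_, rfl⟩
  rw [← hX]
  have hXle : X ≤ (Q.map f).comap f := by
    rw [hX]
    apply Subgroup.normalClosure_le_normal
    intro y hy
    exact ⟨y, hy, rfl⟩
  have hXm : X.map f ≤ Q.map f := Subgroup.map_le_iff_le_comap.2 hXle
  have hnil : Group.IsNilpotent (Q.map f) := (h.Qgr.map f).isNilpotent
  obtain ⟨c, hc⟩ := gam_of_isNilpotent (Q.map f) hnil
  have h1 : gam X c ≤ A := by
    have h2 : (gam X c).map f = ⊥ := by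
      rw [gam_map, eq_bot_iff, ← hc]
      exact gam_mono hXm c
    rw [Subgroup.map_eq_bot_iff, hfk, hN] at h2
    exact h2.trans inf_le_left
  exact lns_trans (lns_one_of_gam h1) hA0

end H78TP
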