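import Pool.Agent.H78.TP.Irr
import Pool.Agent.H78.TP.Qf
import Pool.Agent.H78.TP.Qg
import Pool.Agent.H78.TP.Der

/-!
[H78 TP ZASB] Zassenhaus, the primitive case (60 min).

PROOF. `ρ` is injective and irreducible and every abelian normal subgroup of `K` acts by scalars.
Take `B ≤ E` from `qf` with `K = ⊤`: `B` abelian normal, `E` normal, `⁅E, E⁆ ≤ B`, `B` centralised
by `E`, `centralizer E ≤ B`. `B` acts by scalars: `ρ b = lam b • 1`; so `B` is central in `K`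
(`ρ` injective). By `loc_exists` (with `V = ⊤ ≠ ⊥`) there is `D` with `Loc ρ ⊤ B E D lam`. If
`e ∈ D` then `lam ⁅e, e'⁆ = 1`, so `⁅e, e'⁆ = 1` for all `e' ∈ E` (`ρ` injective), so
`e ∈ centralizer E ≤ B`; so `D = B`. By `qg` `B.relIndex E ≤ (finrank W) ^ 2 = d ^ 2`.
`K` acts by conjugation on the set `E / B` (at most `d ^ 2` elements; `E`, `B` are normal); by
`derK` every `g ∈ dS ⊤ ((d ^ 2) !)` acts trivially: `⁅g, e⁆ ∈ B` for `e ∈ E`. For
`g, h ∈ dS ⊤ ((d ^ 2) !)`, `e ∈ E`: `g e g⁻¹ = b e`, `h e h⁻¹ = b' e` with central `b, b'`, so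
`g h e h⁻¹ g⁻¹ = b b' e = h g e g⁻¹ h⁻¹` and `⁅g, h⁆` centralises `E`, so `⁅g, h⁆ ∈ B`. So
`dS ⊤ ((d ^ 2) ! + 1) ≤ B` and `dS ⊤ ((d ^ 2) ! + 2) = ⊥` (`B` is abelian). And
`(d ^ 2) ! + 2 ≤ zas d` for `d ≥ 1` (`finrank W ≥ 1` as `W ≠ 0`, `hW`).
-/

namespace H78TP

open Subgroup
open scoped commutatorElement

private theorem zasB_conj {Γ : Type*} [Group Γ] [Finite Γ] (hs : Group.IsSolvable Γ)
    (E D X : Subgroup Γ) (DE : D ≤ E) (EE : ∀ x ∈ E, ∀ y ∈ E, ⁅x, y⁆ ∈ D)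
    (hXE : ∀ g ∈ X, ∀ e ∈ E, g * e * g⁻¹ ∈ E) (hXD : ∀ g ∈ X, ∀ e ∈ D, g * e * g⁻¹ ∈ D)
    (N : ℕ) (h : D.relIndex E ≤ N) : ∀ g ∈ dS X N.factorial, ∀ e ∈ E, ⁅g, e⁆ ∈ D := by
  let Q := E ⧸ D.subgroupOf E
  have hQf : Finite Q := inferInstance
  let act : X → Q → Q := fun g => Quotient.map' (fun e : E => ⟨g.1 * e.1 * g.1⁻¹, hXE g.1 g.2 e.1 e.2⟩)
    (by
      intro a b hab
      rw [QuotientGroup.leftRel_apply, Subgroup.mem_subgroupOf] at hab ⊢
      have h1 := hXD g.1 g.2 _ hab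
      have h2 : (((⟨g.1 * a.1 * g.1⁻¹, hXE g.1 g.2 a.1 a.2⟩ : E)⁻¹ *
          (⟨g.1 * b.1 * g.1⁻¹, hXE g.1 g.2 b.1 b.2⟩ : E) : E) : Γ) =
          g.1 * ((a⁻¹ * b : E) : Γ) * g.1⁻¹ := by
        show (g.1 * a.1 * g.1⁻¹)⁻¹ * (g.1 * b.1 * g.1⁻¹) = g.1 * (a.1⁻¹ * b.1) * g.1⁻¹
        group
      rw [h2]
      exact h1)
  let A : MulAction X Q :=
    { smul := act
      one_smul := by
        intro x
        induction x using Quotient.inductionOn' with
        | _ e =>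
          show Quotient.mk'' _ = Quotient.mk'' _
          congr 1
          apply Subtype.ext
          show (1 : Γ) * e.1 * (1 : Γ)⁻¹ = e.1
          group
      mul_smul := by
        intro g g' x
        induction x using Quotient.inductionOn' with
        | _ e =>
          show Quotient.mk'' _ = Quotient.mk'' _
          congr 1
          apply Subtype.ext
          show (g.1 * g'.1) * e.1 * (g.1 * g'.1)⁻¹ = g.1 * (g'.1 * e.1 * g'.1⁻¹) * g.1⁻¹
          group }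
  let φ : X →* Equiv.Perm Q := MulAction.toPermHom X Q
  have hcard : Nat.card (Equiv.Perm Q) ≤ N.factorial := by
    rw [Nat.card_perm]
    exact Nat.factorial_le h
  have hfin : Finite (Equiv.Perm Q) := inferInstance
  have hk : dS (⊤ : Subgroup X) N.factorial ≤ φ.ker :=
    derK φ ⊤ (solv_sub (solv_sub hs X) ⊤) _ hcard
  intro g hg e he
  have hX : (⊤ : Subgroup X).map X.subtype = X := by
    rw [← MonoidHom.range_eq_map, Subgroup.range_subtype]
  rw [← hX, ← dS_map] at hg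
  obtain ⟨g', hg', rfl⟩ := hg
  have h1 : φ g' = 1 := hk hg'
  have h2 : φ g' (Quotient.mk'' (⟨e, he⟩ : E)) = (Quotient.mk'' (⟨e, he⟩ : E) : Q) := by
    rw [h1]
    rfl
  have h3 : (Quotient.mk'' (⟨g'.1 * e * g'.1⁻¹, hXE g'.1 g'.2 e he⟩ : E) : Q) =
      Quotient.mk'' (⟨e, he⟩ : E) := h2
  rw [Quotient.eq'', QuotientGroup.leftRel_apply, Subgroup.mem_subgroupOf] at h3
  have h4 : (g'.1 * e * g'.1⁻¹)⁻¹ * e ∈ D := h3
  have h5 : e * ((g'.1 * e * g'.1⁻¹)⁻¹ * e) * e⁻¹ ∈ D := by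
    have h6 := EE e he _ (DE h4)
    have h7 := D.mul_mem h6 h4
    have h8 : ⁅e, (g'.1 * e * g'.1⁻¹)⁻¹ * e⁆ * ((g'.1 * e * g'.1⁻¹)⁻¹ * e) =
        e * ((g'.1 * e * g'.1⁻¹)⁻¹ * e) * e⁻¹ := by
      rw [commutatorElement_def]
      group
    rwa [h8] at h7
  have h9 : ⁅X.subtype g', e⁆ = (e * ((g'.1 * e * g'.1⁻¹)⁻¹ * e) * e⁻¹)⁻¹ := by
    rw [commutatorElement_def]
    show g'.1 * e * g'.1⁻¹ * e⁻¹ = _
    group
  rw [h9]
  exact D.inv_mem h5

variable {k K W : Type*} [Field k] [Group K] [AddCommGroup W] [Module k W]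

theorem zasB [IsAlgClosed k] [Finite K] [Module.Finite k W] (ρ : Representation k K W)
    (hs : Group.IsSolvable K) (hinj : Function.Injective ρ) (hW : ∃ w : W, w ≠ 0)
    (hsc : ∀ B : Subgroup K, B.Normal → (∀ x ∈ B, ∀ y ∈ B, x * y = y * x) →
      ∀ b ∈ B, ∃ c : k, ∀ w, ρ b w = c • w) :
    dS (⊤ : Subgroup K) (zas (Module.finrank k W)) = ⊥ := by
  obtain ⟨B, E, hB, hE, BE, -, hBc, EE, cen, hcE0, -⟩ := qf (⊤ : Subgroup K) inferInstance
    (solv_sub hs ⊤)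
  have hcE : centralizer (E : Set K) ≤ B := by
    rw [top_inf_eq] at hcE0
    exact hcE0
  have hex : ∀ b : K, ∃ c : k, b ∈ B → ∀ w, ρ b w = c • w := by
    intro b
    by_cases hb : b ∈ B
    · obtain ⟨c, hc⟩ := hsc B hB hBc b hb
      exact ⟨c, fun _ => hc⟩
    · exact ⟨0, fun h => absurd h hb⟩
  choose lam hlam using hex
  have hcenK : ∀ b ∈ B, ∀ g : K, b * g = g * b := by
    intro b hb g
    apply hinj
    apply LinearMap.ext
    intro w
    rw [map_mul, map_mul, Module.End.mul_apply, Module.End.mul_apply, hlam b hb, hlam b hb,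
      map_smul]
  have hne : (⊤ : Submodule k W) ≠ ⊥ := by
    obtain ⟨w, hw⟩ := hW
    intro h
    apply hw
    rw [← Submodule.mem_bot k, ← h]
    exact Submodule.mem_top
  obtain ⟨D, L⟩ := loc_exists ρ (⊤ : Submodule k W) B E lam hne BE EE cen
    (fun _ _ _ _ => Submodule.mem_top) (fun b hb v _ => hlam b hb v)
  have hDB : D = B := by
    apply le_antisymm _ (loc_BD L)
    intro e he
    obtain ⟨h1, h2⟩ := (L.rad e).1 he
    apply hcE
    rw [Subgroup.mem_centralizer_iff]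
    intro e' he'
    have h3 : ⁅e, e'⁆ = 1 := by
      apply hinj
      apply LinearMap.ext
      intro w
      rw [hlam _ (EE e h1 e' he'), h2 e' he', one_smul, map_one]
      rfl
    exact ((commutatorElement_eq_one_iff_mul_comm).1 h3).symm
  have hqg : B.relIndex E ≤ (Module.finrank k W) ^ 2 := by
    have h1 := qg L
    rw [hDB, finrank_top] at h1
    exact h1
  set N := ((Module.finrank k W) ^ 2).factorial with hN
  have h1 : ∀ g ∈ dS (⊤ : Subgroup K) N, ∀ e ∈ E, ⁅g, e⁆ ∈ B :=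
    zasB_conj hs E B ⊤ BE EE (fun g _ e he => hE.conj_mem e he g)
      (fun g _ e he => hB.conj_mem e he g) _ hqg
  have h2 : dS (⊤ : Subgroup K) (N + 1) ≤ centralizer (E : Set K) := by
    rw [dS_succ, Subgroup.commutator_le]
    intro g hg h hh
    have conj : ∀ u ∈ dS (⊤ : Subgroup K) N, ∀ e ∈ E, ∃ b ∈ B, u * e * u⁻¹ = b * e :=
      fun u hu e he => ⟨⁅u, e⁆, h1 u hu e he, by rw [commutatorElement_def]; group⟩
    have two : ∀ e ∈ E, (g * h) * e * (g * h)⁻¹ = (h * g) * e * (h * g)⁻¹ := by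
      intro e he
      obtain ⟨b, hb, h1⟩ := conj g hg e he
      obtain ⟨b', hb', h2⟩ := conj h hh e he
      have e1 : (g * h) * e * (g * h)⁻¹ = b' * b * e := by
        calc (g * h) * e * (g * h)⁻¹ = g * (h * e * h⁻¹) * g⁻¹ := by group
          _ = g * (b' * e) * g⁻¹ := by rw [h2]
          _ = (g * b') * e * g⁻¹ := by group
          _ = (b' * g) * e * g⁻¹ := by rw [hcenK b' hb' g]
          _ = b' * (g * e * g⁻¹) := by group
          _ = b' * (b * e) := by rw [h1]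
          _ = _ := by group
      have e2 : (h * g) * e * (h * g)⁻¹ = b * b' * e := by
        calc (h * g) * e * (h * g)⁻¹ = h * (g * e * g⁻¹) * h⁻¹ := by group
          _ = h * (b * e) * h⁻¹ := by rw [h1]
          _ = (h * b) * e * h⁻¹ := by group
          _ = (b * h) * e * h⁻¹ := by rw [hcenK b hb h]
          _ = b * (h * e * h⁻¹) := by group
          _ = b * (b' * e) := by rw [h2]
          _ = _ := by group
      rw [e1, e2, hBc b' hb' b hb]
    rw [Subgroup.mem_centralizer_iff]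
    intro e he
    have h3 : (h * g)⁻¹ * e * (h * g) ∈ E := by
      have h4 := hE.conj_mem e he (h * g)⁻¹
      rwa [inv_inv] at h4
    have h5 := two _ h3
    have h6 : ⁅g, h⁆ * e * ⁅g, h⁆⁻¹ = e := by
      calc ⁅g, h⁆ * e * ⁅g, h⁆⁻¹
          = (g * h) * ((h * g)⁻¹ * e * (h * g)) * (g * h)⁻¹ := by
            rw [commutatorElement_def]; group
        _ = (h * g) * ((h * g)⁻¹ * e * (h * g)) * (h * g)⁻¹ := h5
        _ = e := by group
    calc e * ⁅g, h⁆ = (⁅g, h⁆ * e * ⁅g, h⁆⁻¹) * ⁅g, h⁆ := by rw [h6]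
      _ = ⁅g, h⁆ * e := by group
  have h3 : dS (⊤ : Subgroup K) (N + 2) = ⊥ := by
    rw [dS_succ, eq_bot_iff, Subgroup.commutator_le]
    intro a ha b hb
    rw [Subgroup.mem_bot, commutatorElement_eq_one_iff_mul_comm]
    exact hBc a (hcE (h2 ha)) b (hcE (h2 hb))
  have h4 : N + 2 ≤ zas (Module.finrank k W) := by
    have hpos : 0 < Module.finrank k W := by
      obtain ⟨w, hw⟩ := hW
      have : Nontrivial W := ⟨⟨w, 0, hw⟩⟩
      exact Module.finrank_pos
    rw [hN]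
    obtain ⟨d, hd⟩ : ∃ d, Module.finrank k W = d + 1 := ⟨Module.finrank k W - 1, by omega⟩
    rw [hd]
    unfold zas
    omega
  rw [eq_bot_iff, ← h3]
  exact dS_anti _ h4

end H78TP
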