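import Pool.Agent.H78.TP.ZasA
import Pool.Agent.H78.TP.ZasB

/-!
[H78 TP ZAS] Zassenhaus over an algebraically closed field (45 min).

PROOF. Induction on `d`. `d = 0`: `W` is zero. Step `d + 1`: let `K`, `W`, `ρ`,
`finrank W ≤ d + 1`, `g ∈ dS ⊤ (zas (d + 1))`. If `finrank W ≤ d` use `ih` (`zas` is monotone,
`dS_anti`). Let `finrank W = d + 1`.
(1) If there is an invariant submodule `S ≠ ⊥, ⊤`: restrict to `S` and pass to `W ⧸ S`
(dimensions `≤ d`): by `ih` `g` acts trivially on both, so `ρ g = 1` by `uni2`.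
(2) Irreducible: pass to `K' = K ⧸ ρ.ker` with the injective `ρ'` (the order of the image of `g`
divides the order of `g`, so it is nonzero in `k`; `dS_map`). If every abelian normal subgroup of
`K'` acts by scalars: `zasB` gives `dS ⊤ (zas (d + 1)) = ⊥` for `K'`, so `ρ g = 1`. Otherwise
`zasA`. (`W ⧸ S` and `↥S` have the same universe as `W`, `K ⧸ ρ.ker` the same universe as `K`.)
-/

namespace H78TP

open Subgroup
open scoped commutatorElement

universe u v

theorem zas_mono {a b : ℕ} (h : a ≤ b) : zas a ≤ zas b := by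
  have h1 : Monotone zas := by
    apply monotone_nat_of_le_succ
    intro n
    show zas n ≤ ((n + 1) ^ 2).factorial + (n + 1).factorial + 2 + zas n
    omega
  exact h1 h

private theorem Zas_red {k : Type v} [Field k] {d : ℕ} (ih : ZasP.{u, v} k d)
    {K : Type u} [Group K] [Finite K] {W : Type v} [AddCommGroup W] [Module k W]
    [Module.Finite k W] (ρ : Representation k K W) (hs : Group.IsSolvable K)
    (hd : Module.finrank k W = d + 1) {g : K} (hg : g ∈ dS (⊤ : Subgroup K) (zas (d + 1)))
    (hog : (orderOf g : k) ≠ 0) (S : Submodule k W) (hS : ∀ g, ∀ w ∈ S, ρ g w ∈ S)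
    (hS1 : S ≠ ⊥) (hS2 : S ≠ ⊤) : ρ g = 1 := by
  have hgd : g ∈ dS (⊤ : Subgroup K) (zas d) := dS_anti _ (zas_mono (Nat.le_succ d)) hg
  have hdS : Module.finrank k S ≤ d := by
    have := Submodule.finrank_lt hS2
    omega
  have hdS1 : 0 < Module.finrank k S := by
    rw [Nat.pos_iff_ne_zero]
    intro h0
    exact hS1 (Submodule.finrank_eq_zero.1 h0)
  have hdQ : Module.finrank k (W ⧸ S) ≤ d := by
    have := Submodule.finrank_quotient_add_finrank S
    omega
  obtain ⟨τ, hτ⟩ : ∃ τ : Representation k K S, ∀ (g : K) (v : S), ((τ g v : S) : W) = ρ g v.1 := by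
    refine ⟨{ toFun := fun g => (ρ g).restrict (hS g), map_one' := ?_, map_mul' := ?_ },
      fun g v => rfl⟩
    · ext v
      show ρ (1 : K) v.1 = v.1
      rw [map_one]
      rfl
    · intro a b
      ext v
      show ρ (a * b) v.1 = ρ a (ρ b v.1)
      rw [map_mul]
      rfl
  obtain ⟨σ, hσ⟩ : ∃ σ : Representation k K (W ⧸ S),
      ∀ (g : K) (v : W), σ g (Submodule.Quotient.mk v) = Submodule.Quotient.mk (ρ g v) := by
    refine ⟨{ toFun := fun g => Submodule.mapQ S S (ρ g) (fun v hv => hS g v hv),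
              map_one' := ?_, map_mul' := ?_ }, fun g v => rfl⟩
    · apply LinearMap.ext
      intro x
      obtain ⟨v, rfl⟩ := Submodule.Quotient.mk_surjective S x
      show (Submodule.Quotient.mk (ρ (1 : K) v) : W ⧸ S) = Submodule.Quotient.mk v
      rw [map_one]
      rfl
    · intro a b
      apply LinearMap.ext
      intro x
      obtain ⟨v, rfl⟩ := Submodule.Quotient.mk_surjective S x
      show (Submodule.Quotient.mk (ρ (a * b) v) : W ⧸ S) = Submodule.Quotient.mk (ρ a (ρ b v))
      rw [map_mul]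
      rfl
  have h1 := ih K S τ hs hdS g hgd hog
  have h2 := ih K (W ⧸ S) σ hs hdQ g hgd hog
  apply uni2 ρ S g _ _ hog
  · intro v hv
    have h3 := hτ g ⟨v, hv⟩
    rw [h1] at h3
    exact h3.symm
  · intro v
    have h3 := hσ g v
    rw [h2] at h3
    exact (Submodule.Quotient.eq S).1 h3.symm

theorem zasT {k : Type v} [Field k] [IsAlgClosed k] (l : ℕ) [Fact l.Prime] [CharP k l]
    (d : ℕ) : ZasP.{u, v} k d := by
  induction d with
  | zero =>
    intro K _ _ W _ _ _ ρ _ hd g _ _
    have h1 : Subsingleton W := Module.finrank_zero_iff.1 (Nat.le_zero.1 hd)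
    apply LinearMap.ext
    intro w
    exact Subsingleton.elim _ _
  | succ d ih =>
    intro K _ _ W _ _ _ ρ hs hd g hg hog
    by_cases hlt : Module.finrank k W ≤ d
    · exact ih K W ρ hs hlt g (dS_anti _ (zas_mono (Nat.le_succ d)) hg) hog
    have hd' : Module.finrank k W = d + 1 := by omega
    by_cases hirr : ∀ S : Submodule k W, (∀ g, ∀ w ∈ S, ρ g w ∈ S) → S = ⊥ ∨ S = ⊤
    · obtain ⟨N, hN, hNmem⟩ : ∃ N : Subgroup K, N.Normal ∧ ∀ x, x ∈ N ↔ ρ x = 1 :=
        ⟨(ρ : K →* Module.End k W).ker, inferInstance, fun x => MonoidHom.mem_ker⟩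
      let ρ' : Representation k (K ⧸ N) W := QuotientGroup.lift N ρ (fun x hx => (hNmem x).1 hx)
      have hρ' : ∀ x : K, ρ' (x : K ⧸ N) = ρ x := fun x => rfl
      have hinj : Function.Injective ρ' := by
        rw [injective_iff_map_eq_one]
        intro x hx
        obtain ⟨a, rfl⟩ := QuotientGroup.mk_surjective x
        rw [hρ'] at hx
        rw [QuotientGroup.eq_one_iff]
        exact (hNmem a).2 hx
      have hs' : Group.IsSolvable (K ⧸ N) :=
        solv_map (QuotientGroup.mk' N) (QuotientGroup.mk'_surjective N) hs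
      have hog' : (orderOf (g : K ⧸ N) : k) ≠ 0 := by
        obtain ⟨m, hm⟩ := orderOf_map_dvd (QuotientGroup.mk' N) g
        intro h0
        apply hog
        rw [hm, Nat.cast_mul]
        have h1 : (orderOf (QuotientGroup.mk' N g) : k) = 0 := h0
        rw [h1, zero_mul]
      have hg' : (g : K ⧸ N) ∈ dS (⊤ : Subgroup (K ⧸ N)) (zas (d + 1)) := by
        have h1 := dS_map (QuotientGroup.mk' N) (⊤ : Subgroup K) (zas (d + 1))
        rw [Subgroup.map_top_of_surjective _ (QuotientGroup.mk'_surjective N)] at h1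
        rw [← h1]
        exact ⟨g, hg, rfl⟩
      have hirr' : ∀ S : Submodule k W, (∀ g, ∀ w ∈ S, ρ' g w ∈ S) → S = ⊥ ∨ S = ⊤ := by
        intro S hS
        apply hirr
        intro x w hw
        exact hS (x : K ⧸ N) w hw
      by_cases hsc : ∀ B : Subgroup (K ⧸ N), B.Normal → (∀ x ∈ B, ∀ y ∈ B, x * y = y * x) →
          ∀ b ∈ B, ∃ c : k, ∀ w, ρ' b w = c • w
      · have hW : ∃ w : W, w ≠ 0 := by
          have h1 : 0 < Module.finrank k W := by omega
          have h2 : Nontrivial W := Module.nontrivial_of_finrank_pos h1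
          exact exists_ne 0
        have h1 := zasB ρ' hs' hinj hW hsc
        rw [hd'] at h1
        rw [h1, Subgroup.mem_bot] at hg'
        rw [← hρ', hg', map_one]
      · push Not at hsc
        obtain ⟨B, hB, hBc, b, hb, hBs⟩ := hsc
        rw [← hρ']
        refine zasA l d ih (K ⧸ N) W ρ' hs' hinj hirr' hd' B hB hBc ?_ _ hg' hog'
        intro hall
        obtain ⟨c, hc⟩ := hall b hb
        obtain ⟨w, hw⟩ := hBs c
        exact hw (hc w)
    · push Not at hirr
      obtain ⟨S, hS, hS1, hS2⟩ := hirr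
      exact Zas_red ih ρ hs hd' hg hog S hS hS1 hS2

end H78TP
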