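import Pool.Agent.H78.TP.WeiB
import Pool.Agent.H78.TP.Irr
import Pool.Agent.H78.TP.Der

/-!
[H78 TP ZASA] Zassenhaus, the imprimitive case (60 min).

PROOF. `ρ` is injective and irreducible, `B` is an abelian normal subgroup of `K` which does not act
by scalars. By `irr_ord` the orders of the elements of `B` are nonzero in `k`. Let
`Ω = Wt ρ B ⊤` (finite by `wei_fin`); the weight spaces `WS ρ B ⊤ ν` are independent (`wei_ind`)
with sum `⊤` (`wei_top`). `|Ω| ≤ finrank W = d + 1`, `|Ω| ≥ 2` because `B` does not act by scalars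
(if there were one weight `ν`, `W` would be its weight space). `K` acts on `Ω` (`wAct` with
`Δ = ⊤`, `cjf`). By `derK` (for `K →* Equiv.Perm Ω`, `|Perm Ω| ≤ (d + 1) !`) every
`g ∈ dS ⊤ ((d + 1) !)` fixes all weights. Each weight space has dimension `≤ d` (there are at
least two). Let `K₁ = dS (⊤ : Subgroup K) ((d + 1) !)`. It acts on each weight space `V_ν`
(restrict `ρ` to `K₁` and to `WS ρ B ⊤ ν`), so by `ih` (for the group `K₁`, the module `V_ν`):
every `g ∈ dS ⊤ (zas d)` (in `K₁`) of order nonzero in `k` acts trivially on `V_ν`. Now for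
`g ∈ dS (⊤ : Subgroup K) (zas (d + 1))`: `zas (d + 1) ≥ (d + 1) ! + zas d`, so
`g ∈ dS K₁ (zas d)` (`dS_add`, `dS_anti`), the image of `dS (⊤ : Subgroup K₁) (zas d)` (`dS_map`).
So `g` acts trivially on all weight spaces and `ρ g = 1`.
-/

namespace H78TP

open Subgroup
open scoped commutatorElement

universe u v

variable {k : Type v} [Field k]

/-- the statement of the theorem of Zassenhaus in dimension `d` -/
def ZasP (k : Type v) [Field k] (d : ℕ) : Prop :=
  ∀ (K : Type u) [Group K] [Finite K] (W : Type v) [AddCommGroup W] [Module k W]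
    [Module.Finite k W] (ρ : Representation k K W), Group.IsSolvable K →
    Module.finrank k W ≤ d →
    ∀ g ∈ dS (⊤ : Subgroup K) (zas d), (orderOf g : k) ≠ 0 → ρ g = 1

theorem zasA [IsAlgClosed k] (l : ℕ) [Fact l.Prime] [CharP k l] (d : ℕ)
    (ih : ZasP.{u, v} k d) (K : Type u) [Group K] [Finite K] (W : Type v) [AddCommGroup W]
    [Module k W] [Module.Finite k W] (ρ : Representation k K W) (hs : Group.IsSolvable K)
    (hinj : Function.Injective ρ)
    (hirr : ∀ S : Submodule k W, (∀ g, ∀ w ∈ S, ρ g w ∈ S) → S = ⊥ ∨ S = ⊤)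
    (hd : Module.finrank k W = d + 1) (B : Subgroup K) (hB : B.Normal)
    (hBc : ∀ x ∈ B, ∀ y ∈ B, x * y = y * x)
    (hBs : ¬ ∀ b ∈ B, ∃ c : k, ∀ w, ρ b w = c • w) :
    ∀ g ∈ dS (⊤ : Subgroup K) (zas (d + 1)), (orderOf g : k) ≠ 0 → ρ g = 1 := by
  classical
  have hord : ∀ b ∈ B, (orderOf b : k) ≠ 0 := irr_ord l ρ hinj hirr B hB hBc
  have htop : (⨆ ν : Wt ρ B ⊤, WS ρ B ⊤ ν.1) = ⊤ :=
    wei_top ρ B ⊤ (fun _ _ _ _ => Submodule.mem_top) (fun s hs t ht v _ => by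
      rw [← Module.End.mul_apply, ← map_mul, hBc s hs t ht, map_mul, Module.End.mul_apply]) hord
  have hind : iSupIndep (fun ν : Wt ρ B ⊤ => WS ρ B ⊤ ν.1) := wei_ind ρ B ⊤
  have hfin : Finite (Wt ρ B ⊤) := (wei_fin ρ B ⊤).to_subtype
  have hcardΩ : Nat.card (Wt ρ B ⊤) ≤ d + 1 := by
    have hall : ∀ ν : Wt ρ B ⊤, WS ρ B ⊤ ν.1 ≠ ⊥ := fun ν => ν.2.2
    let _ : Fintype (Wt ρ B ⊤) := Fintype.ofFinite _
    let _ : Fintype {ν : Wt ρ B ⊤ // WS ρ B ⊤ ν.1 ≠ ⊥} := Fintype.ofFinite _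
    have h1 := hind.subtype_ne_bot_le_finrank
    rw [hd] at h1
    have h2 : Fintype.card {ν : Wt ρ B ⊤ // WS ρ B ⊤ ν.1 ≠ ⊥} = Fintype.card (Wt ρ B ⊤) :=
      Fintype.card_congr (Equiv.subtypeUnivEquiv hall)
    rw [Nat.card_eq_fintype_card, ← h2]
    exact h1
  -- the weight spaces have smaller dimension
  have hdim : ∀ ν : Wt ρ B ⊤, Module.finrank k (WS ρ B ⊤ ν.1) ≤ d := by
    intro ν
    have hne : WS ρ B ⊤ ν.1 ≠ ⊤ := by
      intro h
      apply hBs
      intro b hb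
      refine ⟨ν.1 b, fun w => ?_⟩
      have h1 : w ∈ WS ρ B ⊤ ν.1 := by
        rw [h]
        exact Submodule.mem_top
      exact h1.2 b hb
    have h1 := Submodule.finrank_lt hne
    rw [hd] at h1
    omega
  -- the action on the weights
  have hnB : ∀ (g : K) (t : K), t ∈ B ↔ g⁻¹ * t * g ∈ B := by
    intro g t
    constructor
    · intro h
      have h1 := hB.conj_mem t h g⁻¹
      rwa [inv_inv] at h1
    · intro h
      have h1 := hB.conj_mem _ h g
      have h2 : g * (g⁻¹ * t * g) * g⁻¹ = t := by group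
      rwa [h2] at h1
  let act : MulAction K (Wt ρ B ⊤) :=
    { smul := fun g ν => ⟨cjf g ν.1, Wt_cjf (hnB g) (fun _ _ => Submodule.mem_top) ν.2⟩
      one_smul := fun ν => Subtype.ext (cjf_one ν.1)
      mul_smul := fun g h ν => Subtype.ext (cjf_mul g h ν.1) }
  obtain ⟨K₁, hK₁⟩ : ∃ K₁ : Subgroup K, K₁ = dS (⊤ : Subgroup K) (d + 1).factorial := ⟨_, rfl⟩
  have hfix : ∀ g ∈ K₁, ∀ ν : Wt ρ B ⊤, cjf g ν.1 = ν.1 := by
    intro g hg ν
    have h1 : Nat.card (Equiv.Perm (Wt ρ B ⊤)) ≤ (d + 1).factorial := by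
      rw [Nat.card_perm]
      exact Nat.factorial_le hcardΩ
    have h2 := derK (MulAction.toPermHom K (Wt ρ B ⊤)) (⊤ : Subgroup K) (solv_sub hs ⊤) _ h1
    rw [hK₁] at hg
    have h3 : MulAction.toPermHom K (Wt ρ B ⊤) g = 1 := MonoidHom.mem_ker.1 (h2 hg)
    have h4 : (MulAction.toPermHom K (Wt ρ B ⊤) g) ν = ν := by
      rw [h3]
      rfl
    exact congrArg Subtype.val h4
  have hst : ∀ (ν : Wt ρ B ⊤) (g : K₁), ∀ v ∈ WS ρ B ⊤ ν.1, ρ g.1 v ∈ WS ρ B ⊤ ν.1 := by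
    intro ν g v hv
    have h1 := WS_cjf (hnB g.1) (fun _ _ => Submodule.mem_top) hv
    rwa [hfix g.1 g.2 ν] at h1
  have hs₁ : Group.IsSolvable K₁ := solv_sub hs K₁
  -- the action on one weight space
  have hone : ∀ (ν : Wt ρ B ⊤) (g : K₁), g ∈ dS (⊤ : Subgroup K₁) (zas d) →
      (orderOf g : k) ≠ 0 → ∀ v ∈ WS ρ B ⊤ ν.1, ρ g.1 v = v := by
    intro ν g hg hog v hv
    obtain ⟨τ, hτ⟩ : ∃ τ : Representation k K₁ (WS ρ B ⊤ ν.1),
        ∀ (g : K₁) (v : WS ρ B ⊤ ν.1), ((τ g v : WS ρ B ⊤ ν.1) : W) = ρ g.1 v.1 := by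
      refine ⟨{ toFun := fun g => (ρ g.1).restrict (hst ν g), map_one' := ?_, map_mul' := ?_ },
        fun g v => rfl⟩
      · ext v
        show ρ (1 : K) v.1 = v.1
        rw [map_one]
        rfl
      · intro a b
        ext v
        show ρ (a.1 * b.1) v.1 = ρ a.1 (ρ b.1 v.1)
        rw [map_mul]
        rfl
    have h1 := ih K₁ (WS ρ B ⊤ ν.1) τ hs₁ (hdim ν) g hg hog
    have h2 := hτ g ⟨v, hv⟩
    rw [h1] at h2
    exact h2.symm
  intro g hg hog
  have hgK : g ∈ dS K₁ (zas d) := by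
    rw [hK₁, dS_add]
    refine dS_anti (⊤ : Subgroup K) ?_ hg
    show (d + 1).factorial + zas d ≤ ((d + 1) ^ 2).factorial + (d + 1).factorial + 2 + zas d
    omega
  have hmapeq : (dS (⊤ : Subgroup K₁) (zas d)).map K₁.subtype = dS K₁ (zas d) := by
    rw [dS_map, ← MonoidHom.range_eq_map, Subgroup.range_subtype]
  rw [← hmapeq] at hgK
  obtain ⟨g', hg', hgg⟩ := hgK
  have hgg' : (g' : K) = g := hgg
  have hog' : (orderOf g' : k) ≠ 0 := by
    rw [← Subgroup.orderOf_coe, hgg']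
    exact hog
  have hle : (⊤ : Submodule k W) ≤ LinearMap.eqLocus (ρ g) (1 : Module.End k W) := by
    rw [← htop]
    refine iSup_le fun ν v hv => ?_
    have h1 := hone ν g' hg' hog' v hv
    rw [hgg'] at h1
    exact h1
  apply LinearMap.ext
  intro w
  exact hle (Submodule.mem_top (x := w))

end H78TP
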